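import Pool.Agent.Hyp6.CfGb

/-!
# HYP6: leaf instance, at least three hits, 22: n = 1, r = 2, bounds [0, 0], inner blocks [1, 1]

41 base clauses, 1 given clauses, 9 gadgets, 42 learned clauses.
-/

set_option autoImplicit false
set_option maxRecDepth 100000

namespace Pool.Agent.Hyp6

open Rup

universe u v

namespace DS22

noncomputable def names : Tr :=
 (.node 19 (.node 9 (.node 4 (.node 1 (.node 0 (.leaf 66)
 (.leaf 259))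
 (.node 2 (.leaf 17)
 (.node 3 (.leaf 131)
 (.leaf 513))))
 (.node 6 (.node 5 (.leaf 9)
 (.leaf 33))
 (.node 7 (.leaf 2115)
 (.node 8 (.leaf 2179)
 (.leaf 258)))))
 (.node 14 (.node 11 (.node 10 (.leaf 2307)
 (.leaf 130))
 (.node 12 (.leaf 2562)
 (.node 13 (.leaf 2564)
 (.leaf 2306))))
 (.node 16 (.node 15 (.leaf 2178)
 (.leaf 129))
 (.node 17 (.leaf 257)
 (.node 18 (.leaf 2114)
 (.leaf 65))))))
 (.node 29 (.node 24 (.node 21 (.node 20 (.leaf 514)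
 (.leaf 516))
 (.node 22 (.leaf 515)
 (.node 23 (.leaf 19066)
 (.leaf 19009))))
 (.node 26 (.node 25 (.leaf 2180)
 (.leaf 16769))
 (.node 27 (.leaf 16513)
 (.node 28 (.leaf 19265)
 (.leaf 67)))))
 (.node 34 (.node 31 (.node 30 (.leaf 19130)
 (.leaf 19073))
 (.node 32 (.leaf 16641)
 (.node 33 (.leaf 16449)
 (.leaf 19329))))
 (.node 37 (.node 35 (.leaf 19137)
 (.node 36 (.leaf 19258)
 (.leaf 19201)))
 (.node 38 (.leaf 16577)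
 (.node 39 (.leaf 16705)
 (.leaf 2116)))))))

noncomputable def base : List Ru := [
.rs (.ordE 0 64 3),
.rs (.deg 5 [2, 1]),
.rs (.slot 0 [(1, 1), (3, 2), (4, 3), (5, 3), (6, 1)]),
.rs (.deg 3 [1, 2]),
.rs (.lip 1 72 79 7),
.rs (.slot 0 [(0, 1), (1, 1), (3, 2), (4, 3), (5, 3)]),
.rs (.ordE 1 16 2),
.rs (.slot 0 [(2, 1), (3, 2), (4, 3), (5, 3), (6, 1)]),
.rs (.deg 5 [1, 2]),
.rs (.deg 4 [0, 3]),
.rs (.part [48, 79] [0, 1] [] []),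
.rs (.part [16, 104] [0, 0] [7] []),
.rs (.hall [0] [0, 2, 6]),
.rs (.slot 0 [(1, 1), (2, 1), (4, 2), (3, 3), (5, 3)]),
.rs (.ab 0 4),
.rs (.deg 4 [1, 2]),
.rs (.lip 1 80 87 7),
.rs (.ab 0 5),
.rs (.part [8, 112] [0, 0] [7] []),
.rs (.part [32, 88] [0, 0] [7] []),
.rs (.deg 3 [2, 1]),
.rs (.ordE 1 8 2),
.rs (.ab 0 3),
.rs (.slot 0 [(0, 1), (3, 2), (4, 3), (5, 3), (6, 1)]),
.rs (.hall [0] [0, 1, 6]),
.rs (.lip 1 96 103 7),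
.rs (.deg 6 [3, 1]),
.rs (.ordE 0 32 1),
.rs (.hall [0] [1, 2, 6]),
.rs (.ordE 0 64 2),
.rs (.ordE 1 16 3),
.rs (.deg 4 [2, 1]),
.rs (.hall [0] [0, 1, 2]),
.rs (.part [24, 103] [0, 1] [] []),
.rs (.hall [0] [3, 4, 5]),
.rs (.part [40, 87] [0, 1] [] []),
.rs (.ordE 1 32 2),
.rs (.deg 6 [1, 3]),
.rs (.ordE 1 8 3),
.rs (.slot 0 [(0, 1), (2, 1), (3, 2), (4, 3), (5, 3)]),
.rs (.deg 3 [0, 3])]

noncomputable def gv : List Gv := [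
.cap6]

noncomputable def gads : List Gt := [
⟨1, [⟨8, 3, []⟩, ⟨16, 3, []⟩, ⟨64, 4, []⟩], [7, 3], 1, [(88, 1)]⟩,
⟨0, [⟨16, 2, []⟩, ⟨32, 2, []⟩], [3, 3, 3], 1, [(48, 1)]⟩,
⟨0, [⟨8, 2, []⟩, ⟨32, 2, []⟩], [3, 3, 3], 1, [(40, 1)]⟩,
⟨1, [⟨8, 2, []⟩, ⟨64, 2, []⟩], [3, 3, 3], 1, [(72, 1)]⟩,
⟨1, [⟨16, 2, []⟩, ⟨64, 2, []⟩], [3, 3, 3], 1, [(80, 1)]⟩,
⟨1, [⟨8, 3, []⟩, ⟨32, 3, []⟩, ⟨64, 4, []⟩], [7, 3], 1, [(104, 1)]⟩,
⟨1, [⟨32, 2, []⟩, ⟨64, 2, []⟩], [3, 3, 3], 1, [(96, 1)]⟩,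
⟨1, [⟨16, 3, []⟩, ⟨32, 3, []⟩, ⟨64, 4, []⟩], [7, 3], 1, [(112, 1)]⟩,
⟨0, [⟨8, 2, []⟩, ⟨16, 2, []⟩], [3, 3, 3], 1, [(24, 1)]⟩]

noncomputable def cnf : List (List ℕ) := [
[43, 44],
[2, 28],
[5, 1, 7, 3, 9],
[0, 14],
[47, 48],
[11, 5, 1, 7, 3],
[17, 30],
[13, 1, 7, 3, 9],
[18, 20],
[32, 50],
[52, 46],
[54, 56],
[10, 12, 8],
[5, 13, 23, 59, 3],
[33, 55],
[22, 16],
[61, 62],
[35, 65],
[66, 68],
[64, 70],
[58, 36],
[15, 36],
[39, 67],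
[11, 1, 7, 3, 9],
[10, 4, 8],
[73, 74],
[42, 24],
[19, 34],
[4, 12, 8],
[45, 40],
[51, 16],
[6, 30],
[10, 4, 12],
[76, 72],
[38, 32, 34],
[78, 60],
[21, 28],
[40, 26],
[81, 14],
[11, 13, 1, 7, 3],
[38, 80],
[41],
[15, 17, 27, 71],
[23, 19, 53],
[1, 19, 79],
[37, 25, 49],
[31, 25, 63],
[15, 21, 27, 57],
[29, 25, 75],
[17, 21, 27, 69],
[1, 23, 77]]

noncomputable def db : Tr :=
 (.node 46 (.node 23 (.node 11 (.node 5 (.node 2 (.node 1 (.leaf 0x2e002d)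
 (.leaf 0x1e0004))
 (.node 3 (.leaf 0xb0005000900030007)
 (.node 4 (.leaf 0x100002)
 (.leaf 0x320031))))
 (.node 8 (.node 6 (.leaf 0x5000900030007000d)
 (.node 7 (.leaf 0x200013)
 (.leaf 0xb000500090003000f)))
 (.node 9 (.leaf 0x160014)
 (.node 10 (.leaf 0x340022)
 (.leaf 0x300036)))))
 (.node 17 (.node 14 (.node 12 (.leaf 0x3a0038)
 (.node 13 (.leaf 0xa000e000c)
 (.leaf 0x5003d0019000f0007)))
 (.node 15 (.leaf 0x390023)
 (.node 16 (.leaf 0x120018)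
 (.leaf 0x40003f))))
 (.node 20 (.node 18 (.leaf 0x430025)
 (.node 19 (.leaf 0x460044)
 (.leaf 0x480042)))
 (.node 21 (.leaf 0x26003c)
 (.node 22 (.leaf 0x260011)
 (.leaf 0x450029))))))
 (.node 34 (.node 28 (.node 25 (.node 24 (.leaf 0xb000500090003000d)
 (.leaf 0xa0006000c))
 (.node 26 (.leaf 0x4c004b)
 (.node 27 (.leaf 0x1a002c)
 (.leaf 0x240015))))
 (.node 31 (.node 29 (.leaf 0xa000e0006)
 (.node 30 (.leaf 0x2a002f)
 (.leaf 0x120035)))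
 (.node 32 (.leaf 0x200008)
 (.node 33 (.leaf 0xe0006000c)
 (.leaf 0x4a004e)))))
 (.node 40 (.node 37 (.node 35 (.leaf 0x2400220028)
 (.node 36 (.leaf 0x3e0050)
 (.leaf 0x1e0017)))
 (.node 38 (.leaf 0x1c002a)
 (.node 39 (.leaf 0x100053)
 (.leaf 0x500090003000f000d))))
 (.node 43 (.node 41 (.leaf 0x520028)
 (.node 42 (.leaf 0x2b)
 (.leaf 0x49001d00130011)))
 (.node 44 (.leaf 0x3700150019)
 (.node 45 (.leaf 0x5100150003)
 (.leaf 0x33001b0027)))))))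
 (.node 69 (.node 57 (.node 51 (.node 48 (.node 47 (.leaf 0x41001b0021)
 (.leaf 0x3b001d00170011))
 (.node 49 (.leaf 0x4d001b001f)
 (.node 50 (.leaf 0x47001d00170013)
 (.leaf 0x4f00190003))))
 (.node 54 (.node 52 (.leaf 0x2f)
 (.node 53 (.leaf 0x1c)
 (.leaf 0x2d)))
 (.node 55 (.leaf 0x1a)
 (.node 56 (.leaf 0x1100130049)
 (.leaf 0x270033)))))
 (.node 63 (.node 60 (.node 58 (.leaf 0x210041)
 (.node 59 (.leaf 0x110017003b)
 (.leaf 0x1f004d)))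
 (.node 61 (.leaf 0x1300170047)
 (.node 62 (.leaf 0x110015)
 (.leaf 0x110017))))
 (.node 66 (.node 64 (.leaf 0x11)
 (.node 65 (.leaf 0x2)
 (.leaf 0x53)))
 (.node 67 (.leaf 0x28)
 (.node 68 (.leaf 0x45)
 (.leaf 0x46))))))
 (.node 81 (.node 75 (.node 72 (.node 70 (.leaf 0x17)
 (.node 71 (.leaf 0x14)
 (.leaf 0x51)))
 (.node 73 (.leaf 0x3e)
 (.node 74 (.leaf 0x40)
 (.leaf 0x21))))
 (.node 78 (.node 76 (.leaf 0x13)
 (.node 77 (.leaf 0x8)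
 (.leaf 0x18)))
 (.node 79 (.leaf 0x37)
 (.node 80 (.leaf 0x4f)
 (.leaf 0x30)))))
 (.node 87 (.node 84 (.node 82 (.leaf 0x4a)
 (.node 83 (.leaf 0x32)
 (.leaf 0x4c)))
 (.node 85 (.leaf 0x27)
 (.node 86 (.leaf 0x1f)
 (.leaf 0x3c))))
 (.node 90 (.node 88 (.leaf 0x4)
 (.node 89 (.leaf 0xf)
 (.leaf 0xc)))
 (.node 91 (.leaf 0xb)
 (.node 92 (.leaf 0x7)
 (.leaf 0x0))))))))

noncomputable def prf : List ℕ := [
0x1500009,
0xe0000a,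
0x3400001,
0x1b00000,
0xc00002,
0xa00001,
0xa00002,
0xa00005,
0xa00004,
0xa00007,
0x5000290002d0002b000110002100032000380000400027,
0x1b000270002c0002b0002a00001000060001f000340002f0003200003,
0x3600001,
0x3c00000,
0x1a00001,
0x1900000,
0x2c00000,
0x3100000,
0x23000120002b000350000900008000200000400000,
0x3d00000,
0x1a0000600000,
0x2400000,
0x3800000,
0x1000000,
0x4400000,
0x2c00001,
0x3d00001,
0x220000700000,
0x1c0000e00001,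
0x4500001,
0x2f00001,
0x4d00001,
0x3900001,
0x1b00001,
0x1900001,
0x4100001,
0x5500001,
0x3f0004a00050000300000a0000000001000170000b,
0x56000380004c00001000180000c00000,
0x420000d000190000200000,
0x550001a0000e0000300001,
0x3f000030000100000]

end DS22

theorem instl3_22 : instL 1 2 [0, 0] [1, 1] 9 3 DS22.base DS22.gv DS22.gads DS22.names DS22.cnf DS22.db DS22.prf = true := by decide +kernel

/-- there is no configuration of this instance. -/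
theorem nol3_22 {V : Type v} [DecidableEq V] {ι : Type u} [Fintype ι] {B : ι → Finset V}
    {Q : Finset V} {x : ℕ → V} {C : ℕ → Finset V}
    (h : CfL B Q 1 2 x C [0, 0] [1, 1] 9 3) : False :=
  h.absurd instl3_22

end Pool.Agent.Hyp6
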