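import Pool.Agent.Hyp6.CfLO
import Pool.Agent.Hyp6.InsG.R25

/-!
# HYP6: leaf instance, at least three hits, 25: n = 2, r = 3, bounds [0, 0, 2], inner blocks []

2395 base clauses, 3 given clauses, 1012 gadgets, 3300 learned clauses.
-/

set_option autoImplicit false
set_option maxRecDepth 100000

namespace Pool.Agent.Hyp6

open Rup

universe u v

namespace DS25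

noncomputable def base : List Ru := [
.rs (.join 1 4 7 3 3 3 [(2, 3)]),
.rs (.part [66, 128, 61] [0, 0, 1] [] []),
.rs (.deg 2 [1, 0, 2]),
.rs (.mono 1 10 26 1),
.rs (.lipl 2 22 118 2 96),
.rs (.join 2 64 7 4 3 1 [(6, 0)]),
.rs (.part [120, 130, 5] [1, 0, 0] [] []),
.rs (.join 2 1 2 4 3 1 [(0, 0)]),
.rs (.deg 5 [0, 0, 3]),
.rs (.join 2 2 6 4 1 3 [(1, 0)]),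
.rs (.part [68, 186, 1] [0, 1, 0] [] []),
.rs (.lipl 2 38 118 0 80),
.rs (.ordE 0 2 2),
.rs (.le 1 65 1 0 1),
.rs (.join 1 2 4 3 3 0 [(1, 0)]),
.rs (.part [32, 144, 72] [0, 0, 0] [7] []),
.rs (.join 1 8 6 3 2 1 [(3, 0)]),
.rs (.part [18, 64, 173] [0, 0, 1] [] []),
.rs (.join 2 2 4 4 2 2 [(1, 0)]),
.rs (.join 1 2 4 4 1 3 [(1, 0)]),
.rs (.srt 0 5 0 4 3),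
.rs (.part [65, 32, 158] [0, 0, 1] [] []),
.rs (.part [68, 137, 50] [0, 1, 0] [] []),
.rs (.join 2 4 5 5 2 4 [(2, 1)]),
.rs (.le 1 6 2 1 1),
.rs (.ab2 0 9),
.rs (.part [9, 16, 230] [0, 0, 1] [] []),
.rs (.l2 1 10 34 1 1 1),
.degU 2 [(1, 1), (2, 4)],
.rs (.mono 1 130 162 1),
.rs (.part [8, 176, 64] [0, 0, 0] [7] []),
.degU 5 [(1, 2), (2, 3)],
.rs (.join 1 1 4 3 2 1 [(0, 0)]),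
.rs (.part [72, 129, 54] [0, 0, 1] [] []),
.rs (.srt 0 2 0 1 3),
.rs (.part [20, 137, 98] [0, 1, 0] [] []),
.rs (.lipl 2 52 118 2 66),
.rs (.join 1 1 6 4 2 4 [(0, 2)]),
.rs (.lip 1 128 134 7),
.rs (.join 2 16 5 3 2 2 [(4, 1)]),
.rs (.join 2 16 7 4 1 3 [(4, 0)]),
.rs (.deg 5 [1, 2, 0]),
.rs (.ab2 1 192),
.rs (.join 1 16 5 2 2 0 [(4, 0)]),
.rs (.part [208, 12, 35] [1, 0, 0] [] []),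
.rs (.l2 1 10 18 1 2 1),
.rs (.l2 1 65 192 6 1 1),
.rs (.l2 2 18 66 1 1 1),
.rs (.part [29, 160, 66] [1, 0, 0] [] []),
.rs (.lipl 1 24 60 2 36),
.rs (.join 1 4 5 3 3 0 [(2, 0)]),
.rs (.part [4, 184, 67] [0, 1, 0] [] []),
.rs (.part [33, 64, 158] [0, 0, 1] [] []),
.rs (.l2 1 17 65 0 2 1),
.degU 5 [(1, 3), (2, 2)],
.rs (.join 2 4 4 5 3 4 [(2, 2)]),
.rs (.part [40, 128, 87] [0, 0, 1] [] []),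
.rs (.ab 0 3),
.rs (.le 2 36 32 5 4),
.rs (.join 2 16 5 5 3 2 [(4, 0)]),
.rs (.lipl 2 20 54 1 34),
.rs (.join 2 16 7 3 1 2 [(4, 0)]),
.rs (.join 2 16 5 5 3 3 [(4, 1)]),
.rs (.join 1 64 7 4 1 3 [(6, 0)]),
.rs (.join 1 4 7 3 3 2 [(2, 2)]),
.rs (.part [72, 23, 160] [0, 1, 0] [] []),
.rs (.lipl 2 32 97 1 65),
.rs (.part [32, 152, 71] [0, 0, 1] [] []),
.rs (.part [71, 144, 40] [1, 0, 0] [] []),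
.rs (.l2 1 10 66 1 1 1),
.rs (.deg 6 [0, 1, 3]),
.rs (.deg 1 [1, 2, 0]),
.rs (.join 2 2 5 5 3 2 [(1, 0)]),
.rs (.lip 0 65 89 56),
.rs (.le 0 12 4 2 1),
.rs (.l2 1 18 130 1 1 1),
.rs (.l2 1 17 129 0 1 1),
.rs (.part [9, 70, 176] [0, 0, 1] [] []),
.rs (.lipl 2 74 94 2 20),
.rs (.ab2 2 40),
.rs (.part [5, 64, 186] [0, 0, 1] [] []),
.rs (.mono 2 128 192 1),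
.rs (.join 2 16 5 4 3 3 [(4, 2)]),
.rs (.hall [1] [3, 4, 5, 7]),
.rs (.lipl 2 98 115 0 17),
.degU 5 [(1, 1), (2, 4)],
.rs (.join 2 2 5 5 3 3 [(1, 1)]),
.rs (.mono 2 128 132 1),
.rs (.ab2 1 132),
.rs (.part [31, 128, 96] [1, 0, 0] [] []),
.rs (.join 2 16 6 4 2 2 [(4, 0)]),
.rs (.l2 2 34 130 1 1 2),
.rs (.part [9, 162, 84] [0, 0, 1] [] []),
.rs (.part [9, 192, 54] [0, 1, 0] [] []),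
.rs (.part [120, 7, 128] [1, 0, 0] [] []),
.rs (.l2 1 65 66 6 2 1),
.rs (.join 2 16 5 4 3 1 [(4, 0)]),
.rs (.join 0 1 1 2 2 0 [(0, 0)]),
.rs (.part [20, 192, 43] [0, 1, 0] [] []),
.rs (.join 1 2 2 2 0 2 [(1, 0)]),
.rs (.deg 0 [1, 0, 2]),
.rs (.part [27, 224, 4] [1, 0, 0] [] []),
.rs (.hall [0] [3, 4, 5, 7]),
.rs (.le 2 130 2 1 1),
.rs (.part [65, 176, 14] [0, 1, 0] [] []),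
.rs (.ab2 2 130),
.rs (.join 2 32 6 4 2 3 [(5, 1)]),
.rs (.part [32, 135, 88] [0, 1, 0] [] []),
.rs (.lipl 1 160 240 1 80),
.rs (.join 2 16 6 2 1 1 [(4, 0)]),
.rs (.mono 1 80 84 1),
.rs (.le 1 48 16 4 1),
.rs (.part [2, 57, 196] [0, 1, 0] [] []),
.rs (.mono 1 2 10 1),
.rs (.l2 1 3 130 1 2 1),
.rs (.part [27, 68, 160] [1, 0, 0] [] []),
.rs (.le 2 34 32 5 4),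
.rs (.part [29, 130, 96] [1, 0, 0] [] []),
.rs (.part [9, 192, 54] [0, 0, 1] [] []),
.rs (.join 1 2 3 3 1 2 [(1, 0)]),
.rs (.ab2 0 6),
.rs (.le 0 33 32 5 1),
.rs (.deg 7 [1, 0, 3]),
.rs (.part [137, 100, 18] [1, 0, 0] [] []),
.rs (.lipl 0 9 201 1 192),
.rs (.part [65, 136, 54] [0, 0, 1] [] []),
.rs (.l2 2 20 68 2 1 1),
.rs (.lipl 2 100 118 2 18),
.rs (.join 2 2 4 5 3 3 [(1, 1)]),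
.rs (.part [5, 192, 2] [0, 0, 0] [56] []),
.rs (.lipl 2 132 212 1 80),
.rs (.join 2 6 5 3 2 1 [(1, 0), (2, 0)]),
.rs (.join 2 4 4 4 3 3 [(2, 2)]),
.rs (.ordE 0 16 1),
.rs (.part [32, 15, 208] [0, 1, 0] [] []),
.rs (.ab2 0 34),
.rs (.part [29, 128, 98] [1, 0, 0] [] []),
.rs (.join 2 2 3 4 3 2 [(1, 1)]),
.rs (.part [69, 162, 24] [1, 0, 0] [] []),
.rs (.part [43, 68, 144] [1, 0, 0] [] []),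
.rs (.part [75, 128, 52] [1, 0, 0] [] []),
.rs (.le 2 96 32 5 1),
.rs (.lipl 0 9 77 1 68),
.rs (.part [47, 128, 80] [1, 0, 0] [] []),
.rs (.l2 1 6 10 1 1 1),
.rs (.le 1 192 64 6 1),
.rs (.l2 1 33 36 5 1 1),
.rs (.mono 2 6 7 1),
.rs (.part [1, 138, 116] [0, 0, 1] [] []),
.rs (.lipl 2 208 244 2 36),
.rs (.lipl 1 128 196 0 68),
.rs (.lipl 1 34 114 0 80),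
.rs (.lip 0 8 11 7),
.rs (.join 1 16 7 3 1 2 [(4, 0)]),
.rs (.slot 0 [(0, 3), (1, 1), (3, 3), (4, 1), (5, 1), (6, 1)]),
.rs (.join 1 16 6 4 2 2 [(4, 0)]),
.rs (.lipl 1 82 242 1 160),
.rs (.join 1 32 7 2 1 1 [(5, 0)]),
.rs (.l2 1 20 36 2 2 1),
.rs (.part [57, 130, 68] [1, 0, 0] [] []),
.rs (.part [9, 146, 36] [0, 0, 0] [64] []),
.rs (.part [9, 130, 116] [0, 0, 1] [] []),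
.rs (.part [33, 192, 30] [0, 1, 0] [] []),
.rs (.hall [2] [3, 4, 5, 6]),
.rs (.ab 0 4),
.rs (.deg 0 [2, 0, 1]),
.rs (.lipl 0 9 75 1 66),
.rs (.join 1 4 6 4 2 2 [(2, 0)]),
.rs (.part [64, 152, 39] [0, 1, 0] [] []),
.rs (.part [72, 132, 51] [0, 1, 0] [] []),
.rs (.part [8, 144, 96] [0, 0, 0] [7] []),
.rs (.part [74, 33, 148] [1, 0, 0] [] []),
.rs (.lipl 2 98 118 1 20),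
.rs (.part [73, 130, 52] [1, 0, 0] [] []),
.rs (.deg 6 [1, 3, 0]),
.rs (.lipl 2 29 63 1 34),
.rs (.join 1 1 1 2 0 2 [(0, 0)]),
.rs (.part [8, 34, 213] [0, 0, 1] [] []),
.rs (.join 2 16 5 4 2 2 [(4, 0)]),
.rs (.mono 1 16 20 1),
.rs (.deg 2 [0, 2, 1]),
.rs (.deg 2 [1, 2, 0]),
.rs (.join 2 2 7 4 3 4 [(1, 3)]),
.rs (.part [48, 64, 143] [0, 0, 1] [] []),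
.rs (.le 1 192 128 7 4),
.rs (.l2 1 132 144 7 1 1),
.rs (.l2 1 18 24 4 1 1),
.rs (.deg 7 [3, 1, 0]),
.rs (.mono 2 6 70 1),
.rs (.lipl 2 196 230 2 34),
.rs (.part [31, 64, 160] [1, 0, 0] [] []),
.rs (.lip 0 6 62 56),
.rs (.deg 4 [0, 0, 3]),
.rs (.join 1 1 5 3 3 0 [(0, 0)]),
.rs (.part [50, 128, 77] [1, 0, 0] [] []),
.rs (.part [29, 66, 160] [1, 0, 0] [] []),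
.rs (.join 2 2 4 4 2 3 [(1, 1)]),
.rs (.part [43, 20, 192] [1, 0, 0] [] []),
.rs (.join 2 4 6 3 2 1 [(2, 0)]),
.rs (.lipl 1 48 114 2 66),
.rs (.part [71, 136, 48] [1, 0, 0] [] []),
.rs (.lipl 2 6 150 1 144),
.rs (.lip 0 64 120 56),
.rs (.le 1 10 2 1 1),
.rs (.join 2 16 5 2 1 1 [(4, 0)]),
.rs (.lipl 1 128 194 0 66),
.rs (.part [17, 76, 162] [0, 1, 0] [] []),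
.degU 2 [(0, 1), (1, 1), (2, 3)],
.rs (.part [64, 4, 187] [0, 0, 1] [] []),
.rs (.le 0 160 128 7 1),
.rs (.lipl 2 52 124 2 72),
.rs (.le 1 17 1 0 2),
.rs (.join 2 48 7 3 2 1 [(4, 0), (5, 0)]),
.rs (.un 1 7),
.rs (.l2 1 68 80 6 1 2),
.rs (.part [8, 80, 160] [0, 0, 0] [7] []),
.rs (.lipl 0 16 208 2 192),
.rs (.lipl 2 81 115 2 34),
.rs (.part [29, 64, 162] [1, 0, 0] [] []),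
.rs (.join 2 2 3 4 2 3 [(1, 1)]),
.rs (.part [57, 196, 2] [1, 0, 0] [] []),
.rs (.ab2 0 5),
.rs (.ordE 1 4 2),
.rs (.part [9, 64, 182] [0, 0, 1] [] []),
.rs (.part [15, 128, 112] [1, 0, 0] [] []),
.rs (.join 0 1 4 2 2 1 [(0, 1)]),
.rs (.part [8, 96, 144] [0, 0, 0] [7] []),
.rs (.l2 2 36 40 5 1 1),
.rs (.part [9, 180, 66] [0, 1, 0] [] []),
.rs (.lipl 0 2 74 2 72),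
.rs (.part [64, 176, 8] [0, 0, 0] [7] []),
.rs (.join 1 8 5 3 1 2 [(3, 0)]),
.rs (.lipl 1 96 116 2 20),
.rs (.l2 2 17 65 0 2 2),
.rs (.join 1 16 5 3 2 2 [(4, 1)]),
.rs (.lip 2 2 42 56),
.rs (.le 1 130 2 1 1),
.rs (.join 1 2 6 2 1 1 [(1, 0)]),
.rs (.join 2 1 6 5 2 3 [(0, 0)]),
.rs (.deg 7 [2, 1, 1]),
.rs (.part [2, 64, 189] [0, 0, 1] [] []),
.rs (.join 1 2 6 3 2 2 [(1, 1)]),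
.rs (.join 2 1 5 4 1 4 [(0, 1)]),
.rs (.deg 4 [0, 2, 1]),
.rs (.join 2 8 5 5 3 3 [(3, 1)]),
.rs (.lipl 2 100 118 1 18),
.rs (.lipl 1 162 242 1 80),
.rs (.l2 2 5 36 2 1 3),
.rs (.part [8, 39, 208] [0, 1, 0] [] []),
.rs (.l2 1 36 48 5 1 1),
.rs (.join 2 4 4 5 4 2 [(2, 1)]),
.rs (.join 0 16 5 2 1 1 [(4, 0)]),
.rs (.join 0 8 4 2 1 1 [(3, 0)]),
.rs (.part [72, 128, 55] [0, 0, 1] [] []),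
.rs (.part [96, 23, 136] [0, 1, 0] [] []),
.rs (.lipl 0 10 27 0 17),
.rs (.lipl 2 34 54 1 20),
.rs (.part [121, 132, 2] [1, 0, 0] [] []),
.rs (.lipl 1 128 164 1 36),
.rs (.join 2 1 2 4 1 3 [(0, 0)]),
.rs (.hall [1] [3, 4, 5, 6]),
.rs (.lipl 0 9 89 0 80),
.rs (.part [2, 193, 4] [0, 0, 0] [56] []),
.rs (.join 1 4 4 3 2 2 [(2, 1)]),
.rs (.part [83, 164, 8] [1, 0, 0] [] []),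
.rs (.join 1 2 6 3 2 1 [(1, 0)]),
.rs (.slot 0 [(1, 2), (2, 2), (0, 3), (3, 1), (4, 1), (6, 1)]),
.rs (.join 1 1 1 3 2 1 [(0, 0)]),
.rs (.join 1 32 6 4 1 3 [(5, 0)]),
.rs (.part [58, 128, 69] [1, 0, 0] [] []),
.rs (.part [3, 124, 128] [0, 1, 0] [] []),
.rs (.part [41, 68, 146] [1, 0, 0] [] []),
.rs (.lip 0 9 73 64),
.rs (.lip 2 56 62 7),
.rs (.part [17, 102, 136] [0, 1, 0] [] []),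
.rs (.part [16, 140, 99] [0, 0, 1] [] []),
.rs (.join 2 1 2 4 2 3 [(0, 1)]),
.rs (.join 2 1 5 4 2 3 [(0, 1)]),
.rs (.le 1 132 128 7 4),
.rs (.part [74, 36, 145] [1, 0, 0] [] []),
.rs (.srt 0 5 0 4 2),
.rs (.join 1 64 7 3 3 2 [(6, 2)]),
.rs (.l2 2 3 65 0 2 1),
.rs (.join 1 2 5 3 2 2 [(1, 1)]),
.rs (.deg 7 [3, 0, 1]),
.rs (.lipl 2 96 116 1 20),
.rs (.join 2 2 4 5 2 3 [(1, 0)]),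
.rs (.lipl 2 6 102 1 96),
.rs (.lipl 2 84 118 0 34),
.rs (.mono 1 2 130 1),
.rs (.join 1 4 7 3 1 2 [(2, 0)]),
.rs (.l2 1 3 17 0 1 1),
.rs (.join 2 2 6 4 3 1 [(1, 0)]),
.rs (.lipl 0 9 75 2 66),
.rs (.l2 2 33 96 5 1 3),
.rs (.lipl 0 1 81 2 80),
.rs (.join 2 4 7 4 3 1 [(2, 0)]),
.rs (.mono 1 18 50 1),
.rs (.lipl 2 140 174 2 34),
.rs (.join 1 16 5 2 1 1 [(4, 0)]),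
.rs (.lip 1 160 167 7),
.rs (.le 1 18 16 4 2),
.rs (.join 2 6 6 4 2 2 [(1, 0), (2, 0)]),
.rs (.part [20, 128, 107] [0, 0, 1] [] []),
.rs (.join 2 8 5 2 1 1 [(3, 0)]),
.rs (.deg 1 [1, 0, 2]),
.rs (.part [1, 68, 130] [0, 0, 0] [56] []),
.rs (.lipl 2 148 213 2 65),
.rs (.deg 6 [0, 4, 0]),
.rs (.join 2 3 7 4 4 0 [(0, 0), (1, 0)]),
.rs (.lipl 0 9 29 2 20),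
.rs (.l2 2 10 34 1 2 1),
.rs (.join 1 4 7 3 1 3 [(2, 1)]),
.rs (.join 2 1 6 3 2 1 [(0, 0)]),
.rs (.join 1 1 7 3 2 2 [(0, 1)]),
.rs (.join 2 16 5 4 1 3 [(4, 0)]),
.rs (.join 1 4 5 2 2 1 [(2, 1)]),
.rs (.join 1 1 1 3 1 2 [(0, 0)]),
.rs (.l2 2 6 20 2 2 2),
.rs (.join 2 4 5 4 3 3 [(2, 2)]),
.rs (.join 0 2 5 2 1 1 [(1, 0)]),
.rs (.join 2 1 3 5 2 3 [(0, 0)]),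
.rs (.join 2 1 6 4 1 4 [(0, 1)]),
.rs (.deg 2 [1, 1, 1]),
.rs (.le 2 20 4 2 1),
.rs (.part [5, 176, 74] [0, 1, 0] [] []),
.rs (.part [17, 198, 40] [0, 1, 0] [] []),
.rs (.le 2 65 1 0 2),
.rs (.l2 1 33 40 5 1 1),
.rs (.l2 2 18 66 1 1 2),
.rs (.part [65, 18, 44] [0, 0, 0] [128] []),
.rs (.ab2 1 18),
.rs (.part [73, 162, 20] [1, 0, 0] [] []),
.rs (.l2 2 6 18 1 1 1),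
.rs (.part [17, 194, 44] [0, 1, 0] [] []),
.rs (.le 0 17 16 4 1),
.rs (.lipl 2 132 166 1 34),
.rs (.lip 2 160 162 2),
.rs (.join 2 4 5 5 4 2 [(2, 1)]),
.rs (.part [9, 196, 50] [0, 1, 0] [] []),
.rs (.lipl 1 100 118 2 18),
.rs (.lipl 2 42 62 2 20),
.rs (.part [57, 132, 66] [1, 0, 0] [] []),
.rs (.deg 5 [0, 3, 0]),
.rs (.lipl 0 10 46 2 36),
.rs (.l2 1 3 33 0 1 2),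
.rs (.part [16, 224, 8] [0, 0, 0] [7] []),
.rs (.join 2 2 5 4 2 2 [(1, 0)]),
.rs (.le 1 65 1 0 4),
.rs (.join 1 8 6 3 1 2 [(3, 0)]),
.rs (.l2 2 33 65 0 2 2),
.rs (.un 1 6),
.rs (.l2 1 10 34 1 2 1),
.rs (.lipl 2 52 62 0 10),
.rs (.lipl 2 20 116 1 96),
.rs (.part [77, 146, 32] [1, 0, 0] [] []),
.rs (.join 1 4 6 4 2 3 [(2, 1)]),
.rs (.part [10, 20, 192] [0, 0, 0] [] [(2, 33)]),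
.rs (.l2 1 36 68 2 2 1),
.rs (.lipl 1 164 182 2 18),
.rs (.join 2 2 2 4 2 2 [(1, 0)]),
.rs (.l2 2 3 65 0 2 2),
.rs (.part [74, 145, 36] [1, 0, 0] [] []),
.rs (.lipl 2 66 198 2 132),
.rs (.join 0 8 6 2 1 1 [(3, 0)]),
.rs (.lipl 2 97 115 2 18),
.rs (.lipl 2 80 240 2 160),
.rs (.join 2 1 1 3 2 1 [(0, 0)]),
.rs (.part [27, 36, 192] [1, 0, 0] [] []),
.rs (.join 0 2 6 2 1 1 [(1, 0)]),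
.rs (.join 2 2 4 4 1 3 [(1, 0)]),
.rs (.mono 1 128 130 1),
.rs (.join 2 1 5 4 3 3 [(0, 2)]),
.rs (.join 1 64 7 3 3 1 [(6, 1)]),
.rs (.l2 1 33 34 5 1 1),
.rs (.l2 2 12 68 2 2 3),
.rs (.part [72, 16, 167] [0, 0, 1] [] []),
.rs (.mono 1 144 148 1),
.rs (.join 2 4 5 4 3 4 [(2, 3)]),
.rs (.l2 2 132 160 7 2 1),
.rs (.mono 1 18 22 1),
.rs (.lipl 2 27 187 1 160),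
.rs (.part [24, 128, 103] [0, 0, 1] [] []),
.rs (.part [4, 66, 129] [0, 0, 0] [56] []),
.rs (.join 2 32 7 4 3 2 [(5, 1)]),
.rs (.ab2 0 48),
.rs (.part [10, 148, 97] [0, 1, 0] [] []),
.rs (.le 2 34 2 1 4),
.rs (.l2 1 20 24 4 1 2),
.rs (.lipl 2 18 86 1 68),
.rs (.le 1 34 2 1 2),
.rs (.l2 1 10 130 1 1 1),
.rs (.join 2 32 6 4 3 1 [(5, 0)]),
.rs (.lipl 1 3 39 2 36),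
.rs (.join 2 1 3 4 2 2 [(0, 0)]),
.rs (.part [33, 84, 138] [0, 0, 1] [] []),
.rs (.lipl 2 208 242 2 34),
.rs (.part [24, 64, 167] [0, 0, 1] [] []),
.rs (.join 1 4 5 3 2 1 [(2, 0)]),
.rs (.l2 1 12 20 2 1 2),
.rs (.join 1 2 5 3 3 2 [(1, 2)]),
.rs (.lipl 2 53 119 1 66),
.rs (.join 1 8 4 4 2 3 [(3, 1)]),
.rs (.ab2 2 68),
.rs (.lipl 0 1 73 1 72),
.rs (.part [68, 16, 171] [0, 0, 1] [] []),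
.rs (.part [26, 128, 101] [1, 0, 0] [] []),
.rs (.join 1 72 7 2 2 0 [(3, 0), (6, 0)]),
.rs (.le 1 34 32 5 1),
.rs (.part [64, 152, 32] [0, 0, 0] [7] []),
.rs (.lipl 0 10 27 2 17),
.rs (.l2 2 3 66 1 1 1),
.rs (.ordE 2 128 1),
.rs (.deg 3 [1, 2, 0]),
.rs (.l2 1 68 80 6 1 1),
.rs (.join 2 1 4 4 2 3 [(0, 1)]),
.rs (.part [64, 48, 136] [0, 0, 0] [7] []),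
.rs (.lipl 0 33 43 2 10),
.rs (.ab 1 2),
.rs (.part [9, 98, 148] [0, 0, 1] [] []),
.rs (.le 1 66 2 1 1),
.rs (.part [17, 140, 98] [0, 0, 1] [] []),
.rs (.deg 4 [0, 3, 0]),
.rs (.join 1 4 5 3 0 3 [(2, 0)]),
.rs (.l2 2 65 192 6 2 1),
.rs (.part [33, 18, 192] [0, 0, 0] [] [(2, 12)]),
.rs (.un 0 7),
.rs (.lip 2 3 59 56),
.rs (.deg 6 [1, 0, 3]),
.rs (.join 2 32 7 3 2 2 [(5, 1)]),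
.rs (.l2 1 129 132 7 2 1),
.rs (.l2 1 18 66 1 2 1),
.rs (.l2 1 34 66 1 1 2),
.rs (.lipl 1 128 193 1 65),
.rs (.lipl 2 130 166 2 36),
.rs (.l2 0 66 72 6 1 1),
.rs (.lipl 2 194 230 2 36),
.rs (.l2 2 6 20 2 1 2),
.rs (.join 1 2 4 2 1 2 [(1, 1)]),
.rs (.lipl 0 8 200 2 192),
.rs (.slot 0 [(1, 1), (2, 1), (0, 2), (3, 2), (4, 2), (5, 2)]),
.rs (.lipl 0 17 29 1 12),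
.rs (.part [9, 166, 80] [0, 1, 0] [] []),
.rs (.l2 1 5 20 2 1 1),
.rs (.deg 0 [1, 2, 0]),
.rs (.hall [0] [4, 5, 6, 7]),
.rs (.l2 2 12 20 2 2 2),
.rs (.l2 1 18 24 4 1 2),
.rs (.deg 7 [0, 3, 1]),
.rs (.join 1 2 5 2 2 0 [(1, 0)]),
.rs (.join 0 4 3 2 0 2 [(2, 0)]),
.rs (.part [2, 196, 1] [0, 0, 0] [56] []),
.rs (.lipl 2 29 189 1 160),
.rs (.l2 1 17 20 4 1 1),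
.rs (.l2 1 3 18 1 2 1),
.rs (.join 1 4 4 4 3 1 [(2, 0)]),
.rs (.part [12, 194, 49] [0, 1, 0] [] []),
.rs (.part [17, 162, 76] [0, 1, 0] [] []),
.rs (.join 1 6 5 3 2 1 [(1, 0), (2, 0)]),
.rs (.l2 1 132 160 7 2 1),
.rs (.part [49, 128, 78] [1, 0, 0] [] []),
.rs (.mono 1 182 246 2),
.rs (.lipl 2 130 198 2 68),
.rs (.lipl 2 160 226 0 66),
.rs (.lipl 0 10 43 0 33),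
.rs (.join 0 1 5 2 1 1 [(0, 0)]),
.rs (.l2 2 130 144 7 1 2),
.rs (.lip 0 24 29 7),
.rs (.join 2 16 7 3 2 2 [(4, 1)]),
.rs (.lip 1 40 47 7),
.rs (.join 2 16 6 3 2 1 [(4, 0)]),
.rs (.le 1 129 128 7 1),
.rs (.lipl 2 66 102 1 36),
.rs (.lipl 2 82 115 1 33),
.rs (.join 2 1 5 5 3 2 [(0, 0)]),
.rs (.le 2 65 1 0 4),
.rs (.lipl 1 128 146 0 18),
.degU 5 [(0, 1), (1, 2), (2, 2)],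
.rs (.l2 1 34 36 5 1 2),
.rs (.join 1 1 2 2 1 1 [(0, 0)]),
.rs (.join 1 4 4 2 0 2 [(2, 0)]),
.rs (.part [12, 128, 115] [0, 0, 1] [] []),
.rs (.mono 1 192 193 1),
.rs (.part [41, 132, 82] [1, 0, 0] [] []),
.rs (.part [8, 119, 128] [0, 1, 0] [] []),
.rs (.part [14, 160, 81] [1, 0, 0] [] []),
.rs (.join 1 2 2 3 2 1 [(1, 0)]),
.rs (.join 1 2 6 3 1 3 [(1, 1)]),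
.rs (.lipl 2 48 114 1 66),
.rs (.join 1 2 6 2 0 2 [(1, 0)]),
.rs (.part [25, 66, 164] [1, 0, 0] [] []),
.rs (.join 2 4 5 3 1 2 [(2, 0)]),
.rs (.part [4, 130, 65] [0, 0, 0] [56] []),
.rs (.le 1 132 128 7 2),
.rs (.lipl 0 8 73 2 65),
.rs (.join 2 6 7 3 2 1 [(1, 0), (2, 0)]),
.rs (.part [25, 130, 100] [1, 0, 0] [] []),
.rs (.part [18, 193, 44] [0, 1, 0] [] []),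
.rs (.part [71, 160, 24] [1, 0, 0] [] []),
.rs (.lipl 1 4 76 0 72),
.rs (.part [9, 132, 50] [0, 0, 0] [64] []),
.rs (.join 2 4 4 5 3 2 [(2, 0)]),
.rs (.l2 1 72 96 6 2 1),
.rs (.part [4, 64, 187] [0, 0, 1] [] []),
.rs (.part [75, 36, 144] [1, 0, 0] [] []),
.rs (.l2 2 6 36 2 2 2),
.rs (.part [2, 133, 64] [0, 0, 0] [56] []),
.rs (.part [66, 1, 188] [0, 0, 1] [] []),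
.rs (.join 2 2 6 5 2 3 [(1, 0)]),
.rs (.part [4, 193, 2] [0, 0, 0] [56] []),
.rs (.join 2 8 4 3 2 1 [(3, 0)]),
.rs (.ab 0 2),
.rs (.part [57, 194, 4] [1, 0, 0] [] []),
.rs (.join 2 4 5 4 2 3 [(2, 1)]),
.rs (.lipl 0 1 81 1 80),
.rs (.part [27, 132, 96] [1, 0, 0] [] []),
.rs (.part [17, 206, 32] [0, 1, 0] [] []),
.rs (.part [1, 140, 114] [0, 0, 1] [] []),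
.rs (.lip 2 68 116 56),
.rs (.join 2 4 4 4 3 2 [(2, 1)]),
.rs (.le 1 34 2 1 1),
.rs (.l2 2 65 129 0 1 2),
.rs (.join 2 2 5 4 3 2 [(1, 1)]),
.rs (.ordE 0 1 2),
.degU 1 [(1, 2), (2, 3)],
.rs (.lipl 1 148 182 2 34),
.rs (.join 1 16 6 4 2 3 [(4, 1)]),
.rs (.l2 1 18 34 1 1 1),
.rs (.l2 2 5 36 2 2 1),
.rs (.part [16, 192, 40] [0, 0, 0] [7] []),
.rs (.join 1 4 4 2 3 0 [(2, 1)]),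
.rs (.ab 2 5),
.rs (.un 1 5),
.rs (.l2 2 18 34 1 1 1),
.rs (.le 1 65 1 0 3),
.rs (.deg 5 [2, 1, 0]),
.rs (.join 2 2 5 4 4 3 [(1, 3)]),
.rs (.lipl 1 224 244 1 20),
.rs (.le 1 132 4 2 3),
.rs (.deg 7 [0, 0, 4]),
.rs (.join 1 1 1 2 1 1 [(0, 0)]),
.rs (.join 1 4 5 2 0 2 [(2, 0)]),
.rs (.l2 2 3 18 1 1 2),
.rs (.join 2 2 2 3 1 2 [(1, 0)]),
.rs (.part [81, 140, 34] [1, 0, 0] [] []),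
.rs (.join 2 4 6 3 1 2 [(2, 0)]),
.rs (.join 2 4 4 4 3 1 [(2, 0)]),
.rs (.part [75, 160, 20] [1, 0, 0] [] []),
.rs (.part [16, 136, 96] [0, 0, 0] [7] []),
.degU 7 [(1, 2), (2, 4)],
.rs (.mono 1 32 34 1),
.rs (.join 2 4 6 4 2 3 [(2, 1)]),
.rs (.part [89, 132, 34] [1, 0, 0] [] []),
.rs (.ab2 0 72),
.rs (.part [0, 64, 191] [0, 0, 1] [] []),
.rs (.part [14, 144, 97] [1, 0, 0] [] []),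
.rs (.ab2 1 3),
.rs (.lip 1 69 125 56),
.rs (.join 1 2 7 3 1 2 [(1, 0)]),
.rs (.join 2 32 7 2 1 1 [(5, 0)]),
.rs (.l2 2 18 34 1 2 2),
.rs (.join 2 2 3 4 3 3 [(1, 2)]),
.rs (.join 1 2 4 2 1 1 [(1, 0)]),
.rs (.part [18, 65, 172] [0, 0, 1] [] []),
.rs (.deg 0 [1, 1, 1]),
.rs (.lip 1 128 132 4),
.rs (.l2 1 65 66 6 1 2),
.rs (.join 1 8 4 3 2 2 [(3, 1)]),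
.rs (.lipl 1 128 200 1 72),
.rs (.lip 0 2 58 56),
.rs (.part [66, 188, 1] [0, 1, 0] [] []),
.rs (.part [9, 38, 144] [0, 0, 0] [64] []),
.rs (.part [2, 9, 244] [0, 0, 1] [] []),
.rs (.join 0 16 6 2 1 1 [(4, 0)]),
.rs (.l2 2 12 36 2 2 2),
.rs (.un 1 4),
.rs (.l2 2 6 18 1 2 1),
.rs (.lipl 2 88 122 2 34),
.rs (.mono 2 4 132 1),
.rs (.part [33, 10, 192] [0, 0, 0] [] [(2, 20)]),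
.rs (.part [18, 36, 192] [0, 0, 0] [] [(2, 9)]),
.rs (.part [47, 64, 144] [1, 0, 0] [] []),
.rs (.part [17, 12, 192] [0, 0, 0] [] [(2, 34)]),
.rs (.join 2 2 6 3 1 2 [(1, 0)]),
.rs (.mono 1 4 12 1),
.rs (.part [52, 128, 75] [1, 0, 0] [] []),
.rs (.slot 0 [(3, 3), (4, 1), (0, 3), (1, 1), (2, 1), (6, 1)]),
.rs (.lip 2 129 185 56),
.rs (.part [9, 18, 228] [0, 0, 1] [] []),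
.rs (.part [9, 82, 164] [0, 0, 1] [] []),
.rs (.join 2 8 4 4 2 2 [(3, 0)]),
.rs (.join 1 1 6 4 0 4 [(0, 0)]),
.rs (.part [9, 160, 86] [0, 0, 1] [] []),
.rs (.ab 2 0),
.rs (.lipl 2 49 115 2 66),
.rs (.ab 0 6),
.rs (.join 2 2 6 4 2 4 [(1, 2)]),
.rs (.part [65, 186, 4] [0, 1, 0] [] []),
.rs (.le 1 20 4 2 2),
.rs (.part [1, 196, 2] [0, 0, 0] [56] []),
.rs (.lip 0 24 31 7),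
.rs (.part [65, 16, 174] [0, 0, 1] [] []),
.rs (.mono 1 192 208 1),
.rs (.un 1 2),
.rs (.lipl 2 16 148 1 132),
.rs (.l2 1 68 72 6 1 1),
.rs (.join 2 16 5 3 1 2 [(4, 0)]),
.rs (.join 2 4 5 4 4 4 [(2, 4)]),
.rs (.srt 0 1 0 0 2),
.rs (.lip 0 2 42 56),
.rs (.l2 0 68 96 6 1 1),
.rs (.join 1 64 7 2 2 0 [(6, 0)]),
.rs (.join 1 4 5 3 1 2 [(2, 0)]),
.rs (.l2 2 18 24 4 1 2),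
.degU 1 [(0, 1), (1, 3), (2, 1)],
.rs (.ab2 1 144),
.rs (.lipl 2 50 118 2 68),
.rs (.mono 0 32 34 1),
.rs (.mono 1 64 192 1),
.rs (.lipl 2 146 211 2 65),
.rs (.l2 2 6 34 1 1 1),
.rs (.lipl 2 34 178 1 144),
.rs (.lipl 2 130 150 2 20),
.rs (.join 2 2 5 4 1 3 [(1, 0)]),
.rs (.join 1 64 7 4 3 2 [(6, 1)]),
.rs (.le 1 96 32 5 1),
.rs (.mono 1 4 5 1),
.rs (.part [33, 208, 14] [0, 1, 0] [] []),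
.rs (.part [9, 144, 102] [0, 0, 1] [] []),
.rs (.ordE 1 4 1),
.rs (.ordE 2 16 1),
.rs (.lipl 1 128 200 0 72),
.rs (.lip 2 66 114 56),
.rs (.part [10, 208, 37] [0, 1, 0] [] []),
.rs (.le 1 18 2 1 3),
.rs (.l2 1 18 80 4 1 1),
.rs (.part [8, 192, 48] [0, 0, 0] [7] []),
.rs (.join 2 2 3 4 2 2 [(1, 0)]),
.rs (.part [17, 192, 46] [0, 1, 0] [] []),
.rs (.part [9, 114, 132] [0, 1, 0] [] []),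
.degU 2 [(1, 3), (2, 2)],
.rs (.l2 2 132 144 7 2 1),
.rs (.join 1 8 6 4 1 3 [(3, 0)]),
.rs (.join 0 2 7 2 2 0 [(1, 0)]),
.rs (.join 2 2 7 5 0 5 [(1, 0)]),
.rs (.join 2 4 4 5 3 3 [(2, 1)]),
.rs (.l2 2 10 34 1 2 2),
.rs (.join 2 8 6 4 2 3 [(3, 1)]),
.rs (.le 2 68 4 2 2),
.rs (.part [15, 208, 32] [1, 0, 0] [] []),
.rs (.ab 0 0),
.rs (.part [72, 4, 179] [0, 0, 1] [] []),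
.rs (.lip 2 80 85 7),
.rs (.l2 1 6 12 2 1 1),
.rs (.l2 2 20 24 4 1 2),
.rs (.l2 1 36 40 5 2 1),
.rs (.part [75, 16, 164] [1, 0, 0] [] []),
.rs (.part [17, 230, 8] [0, 1, 0] [] []),
.rs (.join 1 1 5 3 2 1 [(0, 0)]),
.rs (.part [9, 96, 150] [0, 0, 1] [] []),
.rs (.part [47, 16, 192] [1, 0, 0] [] []),
.rs (.part [9, 36, 192] [0, 0, 0] [] [(2, 18)]),
.rs (.l2 0 12 68 2 1 1),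
.rs (.lipl 1 162 230 1 68),
.rs (.join 2 4 6 2 1 1 [(2, 0)]),
.rs (.join 1 2 2 3 2 2 [(1, 1)]),
.rs (.part [6, 64, 185] [0, 0, 1] [] []),
.rs (.join 2 8 4 3 1 2 [(3, 0)]),
.rs (.l2 2 18 24 4 2 1),
.rs (.join 1 1 2 3 1 2 [(0, 0)]),
.rs (.l2 2 6 132 2 1 1),
.rs (.l2 2 65 72 6 2 2),
.rs (.join 2 2 2 4 2 3 [(1, 1)]),
.rs (.ordE 1 8 2),
.rs (.part [73, 164, 18] [1, 0, 0] [] []),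
.rs (.part [65, 2, 188] [0, 0, 1] [] []),
.rs (.join 2 66 7 4 2 2 [(1, 0), (6, 0)]),
.rs (.le 1 80 16 4 1),
.rs (.part [18, 200, 37] [0, 1, 0] [] []),
.rs (.join 1 32 7 3 1 2 [(5, 0)]),
.rs (.join 2 2 2 4 3 3 [(1, 2)]),
.degU 3 [(0, 1), (1, 4)],
.rs (.join 1 36 6 3 2 1 [(2, 0), (5, 0)]),
.rs (.mono 1 64 66 1),
.rs (.lipl 0 33 43 0 10),
.rs (.part [10, 224, 21] [0, 1, 0] [] []),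
.rs (.mono 0 4 68 1),
.rs (.part [16, 160, 72] [0, 0, 0] [7] []),
.rs (.ab2 2 5),
.rs (.part [9, 84, 162] [0, 0, 1] [] []),
.rs (.lipl 1 128 146 1 18),
.rs (.join 1 1 7 2 1 1 [(0, 0)]),
.rs (.part [64, 16, 175] [0, 0, 1] [] []),
.rs (.le 1 132 4 2 1),
.rs (.deg 6 [2, 2, 0]),
.rs (.lipl 1 148 214 1 66),
.rs (.hall [1] [1, 2, 6, 7]),
.rs (.le 2 160 32 5 1),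
.rs (.le 1 192 128 7 1),
.rs (.join 2 2 6 3 2 2 [(1, 1)]),
.rs (.mono 1 80 81 1),
.rs (.lipl 1 20 54 2 34),
.rs (.join 2 1 5 4 2 2 [(0, 0)]),
.rs (.join 1 2 6 4 0 4 [(1, 0)]),
.rs (.join 2 1 6 5 0 5 [(0, 0)]),
.rs (.deg 3 [2, 1, 0]),
.rs (.part [16, 135, 104] [0, 1, 0] [] []),
.rs (.ab2 0 66),
.rs (.join 2 4 6 2 1 2 [(2, 1)]),
.rs (.part [1, 58, 196] [0, 1, 0] [] []),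
.rs (.lip 1 128 152 56),
.rs (.mono 0 32 96 1),
.rs (.lipl 2 130 166 1 36),
.rs (.lip 0 16 19 7),
.rs (.join 2 2 5 4 2 4 [(1, 2)]),
.rs (.part [18, 228, 9] [0, 1, 0] [] []),
.rs (.l2 1 3 5 0 1 1),
.rs (.mono 0 4 12 1),
.rs (.mono 1 80 82 1),
.rs (.deg 1 [0, 2, 1]),
.rs (.l2 2 3 10 1 2 2),
.rs (.hall [1] [4, 5, 6, 7]),
.degU 1 [(1, 1), (2, 4)],
.rs (.part [201, 34, 20] [1, 0, 0] [] []),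
.rs (.join 1 4 7 3 0 3 [(2, 0)]),
.rs (.join 2 4 7 4 2 2 [(2, 0)]),
.rs (.part [8, 64, 183] [0, 0, 1] [] []),
.rs (.l2 0 48 80 4 1 1),
.rs (.join 1 64 7 4 4 2 [(6, 2)]),
.rs (.lipl 0 2 194 2 192),
.rs (.part [5, 152, 98] [0, 1, 0] [] []),
.rs (.lip 0 3 59 56),
.rs (.part [27, 64, 164] [1, 0, 0] [] []),
.rs (.mono 1 132 164 1),
.rs (.ab2 2 96),
.rs (.deg 7 [1, 3, 0]),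
.rs (.hall [0, 1] [2, 6, 7]),
.rs (.lipl 2 36 116 1 80),
.rs (.part [3, 128, 124] [0, 0, 1] [] []),
.rs (.part [34, 208, 13] [0, 1, 0] [] []),
.rs (.join 1 48 7 2 2 0 [(4, 0), (5, 0)]),
.rs (.part [73, 20, 162] [1, 0, 0] [] []),
.degU 1 [(1, 3), (2, 2)],
.rs (.join 2 2 2 4 1 3 [(1, 0)]),
.rs (.l2 1 130 144 7 2 1),
.rs (.join 2 1 2 2 1 1 [(0, 0)]),
.rs (.mono 1 192 200 1),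
.rs (.deg 4 [1, 1, 1]),
.rs (.join 1 16 7 3 2 2 [(4, 1)]),
.rs (.ab 2 6),
.rs (.deg 4 [2, 1, 0]),
.rs (.lipl 2 4 76 1 72),
.rs (.join 2 8 5 4 3 3 [(3, 2)]),
.rs (.l2 1 6 20 2 1 1),
.rs (.mono 1 64 96 1),
.rs (.lip 2 132 164 32),
.rs (.deg 4 [1, 2, 0]),
.rs (.join 1 4 6 3 1 2 [(2, 0)]),
.rs (.l2 2 3 18 1 2 1),
.rs (.lip 2 66 122 56),
.rs (.l2 1 136 144 7 1 1),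
.rs (.join 1 32 7 3 2 1 [(5, 0)]),
.rs (.join 2 1 6 4 3 2 [(0, 1)]),
.rs (.part [24, 103, 128] [0, 1, 0] [] []),
.rs (.join 1 18 5 3 2 2 [(1, 0), (4, 1)]),
.rs (.mono 2 41 43 1),
.rs (.l2 1 5 36 2 1 2),
.rs (.part [10, 64, 181] [0, 0, 1] [] []),
.rs (.join 1 4 7 3 3 1 [(2, 1)]),
.rs (.lipl 2 53 125 1 72),
.rs (.join 1 1 7 3 1 3 [(0, 1)]),
.rs (.join 1 2 7 3 0 3 [(1, 0)]),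
.rs (.part [40, 192, 16] [0, 0, 0] [7] []),
.rs (.l2 1 34 130 1 1 2),
.rs (.lip 2 96 102 7),
.rs (.join 2 2 2 4 0 4 [(1, 0)]),
.rs (.lipl 2 46 126 1 80),
.rs (.join 2 4 7 2 1 2 [(2, 1)]),
.rs (.join 2 1 1 4 2 2 [(0, 0)]),
.rs (.join 2 16 6 3 1 2 [(4, 0)]),
.degU 0 [(0, 1), (2, 4)],
.rs (.ab2 2 36),
.rs (.join 1 6 4 3 2 1 [(1, 0), (2, 0)]),
.rs (.part [36, 128, 91] [0, 0, 1] [] []),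
.rs (.l2 2 24 80 4 1 1),
.degU 6 [(0, 1), (1, 3), (2, 2)],
.rs (.l2 2 18 34 1 1 2),
.rs (.mono 1 1 33 1),
.rs (.lipl 1 146 242 1 96),
.rs (.ordE 2 2 2),
.rs (.l2 1 129 130 7 1 2),
.rs (.lipl 2 36 102 0 66),
.rs (.part [33, 140, 82] [0, 1, 0] [] []),
.rs (.part [12, 146, 97] [0, 0, 1] [] []),
.rs (.l2 0 10 24 3 1 1),
.rs (.part [41, 128, 86] [1, 0, 0] [] []),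
.rs (.lipl 2 76 110 0 34),
.rs (.join 2 2 5 5 3 4 [(1, 2)]),
.rs (.lipl 0 17 27 1 10),
.rs (.l2 2 36 48 5 1 2),
.rs (.l2 1 12 36 2 2 1),
.rs (.lipl 2 144 240 2 96),
.rs (.lipl 2 164 182 1 18),
.rs (.join 2 8 5 4 2 3 [(3, 1)]),
.rs (.part [71, 56, 128] [1, 0, 0] [] []),
.rs (.le 1 80 16 4 2),
.rs (.lipl 1 164 182 1 18),
.rs (.l2 1 34 96 5 1 1),
.rs (.join 2 8 5 3 2 2 [(3, 1)]),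
.rs (.part [17, 68, 170] [0, 0, 1] [] []),
.rs (.part [64, 168, 23] [0, 1, 0] [] []),
.rs (.join 1 32 6 4 2 3 [(5, 1)]),
.rs (.join 2 32 7 4 2 2 [(5, 0)]),
.rs (.join 1 2 5 3 1 3 [(1, 1)]),
.rs (.mono 1 132 196 1),
.rs (.le 1 36 4 2 1),
.rs (.join 2 2 5 3 1 2 [(1, 0)]),
.rs (.join 1 4 3 2 1 1 [(2, 0)]),
.rs (.le 2 80 16 4 4),
.rs (.join 2 8 4 3 2 2 [(3, 1)]),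
.rs (.part [8, 208, 32] [0, 0, 0] [7] []),
.rs (.l2 1 10 34 1 1 2),
.rs (.lip 0 40 43 7),
.rs (.srt 0 2 0 1 2),
.rs (.ab2 2 160),
.rs (.part [6, 57, 192] [0, 1, 0] [] []),
.rs (.join 1 8 7 4 2 2 [(3, 0)]),
.rs (.l2 0 65 96 6 1 1),
.rs (.part [16, 200, 32] [0, 0, 0] [7] []),
.degU 0 [(0, 2), (1, 3)],
.rs (.lipl 0 9 105 1 96),
.rs (.join 1 4 3 3 1 2 [(2, 0)]),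
.rs (.join 1 2 3 2 1 1 [(1, 0)]),
.rs (.mono 1 16 17 1),
.rs (.lipl 2 58 190 1 132),
.rs (.lipl 1 20 86 0 66),
.rs (.join 2 2 3 5 2 3 [(1, 0)]),
.rs (.l2 0 18 34 1 1 1),
.rs (.lipl 2 144 178 2 34),
.rs (.join 2 1 5 4 3 4 [(0, 3)]),
.rs (.part [65, 188, 2] [0, 1, 0] [] []),
.rs (.join 1 1 7 3 1 2 [(0, 0)]),
.rs (.join 1 32 6 3 2 1 [(5, 0)]),
.rs (.part [55, 64, 136] [1, 0, 0] [] []),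
.rs (.lipl 2 76 94 2 18),
.rs (.part [64, 24, 160] [0, 0, 0] [7] []),
.rs (.part [2, 129, 68] [0, 0, 0] [56] []),
.rs (.join 1 2 4 4 3 2 [(1, 1)]),
.rs (.l2 1 5 68 2 1 1),
.rs (.le 2 80 16 4 3),
.rs (.le 1 68 4 2 1),
.rs (.le 1 20 16 4 1),
.rs (.lip 1 128 135 7),
.rs (.l2 2 6 18 1 2 2),
.rs (.join 2 1 6 3 2 2 [(0, 1)]),
.rs (.l2 2 34 36 5 2 2),
.rs (.lipl 2 81 117 2 36),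
.rs (.join 1 4 5 2 1 1 [(2, 0)]),
.rs (.part [16, 111, 128] [0, 1, 0] [] []),
.rs (.mono 1 2 3 1),
.rs (.join 2 8 4 5 3 3 [(3, 1)]),
.rs (.part [1, 12, 242] [0, 0, 1] [] []),
.rs (.l2 1 3 10 1 1 1),
.rs (.hall [0, 1] [1, 2, 7]),
.rs (.ordE 1 32 1),
.rs (.join 1 4 5 3 2 2 [(2, 1)]),
.rs (.part [11, 80, 164] [1, 0, 0] [] []),
.rs (.ordE 1 128 1),
.rs (.part [17, 224, 14] [0, 1, 0] [] []),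
.rs (.lip 2 135 191 56),
.rs (.part [4, 58, 193] [0, 1, 0] [] []),
.rs (.mono 1 130 146 1),
.rs (.un 0 2),
.rs (.mono 1 96 100 1),
.rs (.part [64, 128, 56] [0, 0, 0] [7] []),
.rs (.part [72, 34, 21] [0, 0, 0] [128] []),
.rs (.join 1 4 4 2 1 1 [(2, 0)]),
.rs (.lip 1 68 124 56),
.rs (.l2 1 160 192 7 1 1),
.rs (.part [9, 20, 192] [0, 0, 0] [] [(2, 34)]),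
.rs (.lipl 1 38 118 0 80),
.rs (.lipl 0 17 89 2 72),
.rs (.lip 1 36 100 64),
.rs (.part [64, 3, 132] [0, 0, 0] [56] []),
.rs (.join 1 8 6 3 2 2 [(3, 1)]),
.rs (.part [68, 128, 59] [0, 0, 1] [] []),
.rs (.join 2 32 6 3 1 2 [(5, 0)]),
.rs (.join 2 2 4 3 2 1 [(1, 0)]),
.rs (.join 2 16 5 5 2 3 [(4, 0)]),
.rs (.deg 7 [2, 2, 0]),
.rs (.join 1 32 6 4 3 2 [(5, 1)]),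
.rs (.part [37, 128, 90] [1, 0, 0] [] []),
.rs (.l2 2 6 34 1 1 2),
.rs (.join 1 1 6 2 0 2 [(0, 0)]),
.rs (.lipl 2 36 54 2 18),
.rs (.part [13, 144, 98] [1, 0, 0] [] []),
.rs (.join 2 4 6 4 2 2 [(2, 0)]),
.rs (.l2 2 66 80 6 1 1),
.rs (.join 2 2 6 4 2 2 [(1, 0)]),
.rs (.part [77, 34, 144] [1, 0, 0] [] []),
.rs (.join 2 8 6 4 2 4 [(3, 2)]),
.rs (.part [9, 86, 160] [0, 1, 0] [] []),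
.rs (.join 2 4 3 5 4 2 [(2, 1)]),
.rs (.lipl 2 18 114 1 96),
.rs (.join 0 1 2 2 2 0 [(0, 0)]),
.degU 2 [(0, 1), (2, 4)],
.rs (.l2 2 3 18 1 2 2),
.rs (.l2 2 24 48 4 1 1),
.rs (.l2 1 20 36 2 1 2),
.rs (.join 0 1 2 2 1 1 [(0, 0)]),
.rs (.part [1, 126, 128] [0, 1, 0] [] []),
.rs (.part [75, 48, 132] [1, 0, 0] [] []),
.rs (.lipl 1 48 114 0 66),
.rs (.lipl 2 96 114 1 18),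
.rs (.join 1 2 3 3 0 3 [(1, 0)]),
.rs (.join 2 1 4 4 2 2 [(0, 0)]),
.rs (.lipl 1 128 137 0 9),
.rs (.deg 4 [0, 1, 2]),
.rs (.l2 1 24 48 4 1 1),
.rs (.mono 1 2 66 1),
.rs (.join 1 4 6 2 0 2 [(2, 0)]),
.rs (.l2 2 12 24 3 1 2),
.rs (.join 2 4 4 3 1 2 [(2, 0)]),
.rs (.part [73, 54, 128] [1, 0, 0] [] []),
.rs (.join 0 1 1 2 1 1 [(0, 0)]),
.rs (.join 2 64 7 4 2 2 [(6, 0)]),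
.rs (.le 1 18 16 4 1),
.rs (.part [72, 32, 151] [0, 0, 1] [] []),
.rs (.lip 1 88 95 7),
.rs (.part [27, 128, 100] [1, 0, 0] [] []),
.rs (.join 1 64 7 3 2 2 [(6, 1)]),
.rs (.part [9, 164, 18] [0, 0, 0] [64] []),
.rs (.lip 0 1 25 56),
.rs (.lipl 2 162 242 2 80),
.rs (.l2 1 65 66 6 1 1),
.rs (.join 1 4 4 4 1 3 [(2, 0)]),
.rs (.part [89, 36, 130] [1, 0, 0] [] []),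
.rs (.mono 0 32 48 1),
.rs (.join 2 16 6 4 3 1 [(4, 0)]),
.rs (.part [208, 11, 36] [1, 0, 0] [] []),
.rs (.lip 2 130 186 56),
.rs (.mono 1 130 134 1),
.rs (.part [32, 136, 80] [0, 0, 0] [7] []),
.degU 5 [(0, 1), (1, 1), (2, 3)],
.rs (.join 1 4 4 3 1 2 [(2, 0)]),
.rs (.part [64, 131, 4] [0, 0, 0] [56] []),
.rs (.hall [1] [3, 5, 6, 7]),
.rs (.part [74, 17, 164] [1, 0, 0] [] []),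
.rs (.deg 7 [0, 4, 0]),
.rs (.part [1, 162, 92] [0, 0, 1] [] []),
.rs (.l2 2 66 130 1 1 2),
.rs (.join 1 2 4 2 2 0 [(1, 0)]),
.rs (.part [9, 148, 34] [0, 0, 0] [64] []),
.rs (.lip 0 8 14 7),
.rs (.part [8, 54, 193] [0, 1, 0] [] []),
.rs (.part [18, 137, 36] [0, 0, 0] [64] []),
.rs (.l2 2 6 20 2 1 1),
.rs (.part [59, 64, 132] [1, 0, 0] [] []),
.rs (.l2 2 6 36 2 1 1),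
.rs (.srt 0 5 0 4 1),
.rs (.l2 2 72 80 6 2 2),
.degU 4 [(1, 1), (2, 4)],
.rs (.l2 1 68 192 6 1 1),
.rs (.part [10, 145, 100] [0, 1, 0] [] []),
.rs (.le 2 33 1 0 2),
.rs (.part [8, 160, 80] [0, 0, 0] [7] []),
.rs (.join 2 8 4 4 3 3 [(3, 2)]),
.rs (.lipl 2 97 115 0 18),
.rs (.join 2 2 7 3 1 2 [(1, 0)]),
.rs (.part [65, 162, 28] [0, 1, 0] [] []),
.rs (.ab2 2 6),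
.rs (.join 1 2 5 3 0 3 [(1, 0)]),
.rs (.l2 2 3 130 1 1 2),
.rs (.part [16, 138, 101] [0, 0, 1] [] []),
.rs (.join 2 2 4 3 1 2 [(1, 0)]),
.rs (.join 1 4 4 2 1 2 [(2, 1)]),
.rs (.join 2 4 4 3 2 2 [(2, 1)]),
.degU 7 [(1, 4), (2, 2)],
.rs (.un 2 1),
.rs (.join 2 4 4 4 1 4 [(2, 1)]),
.rs (.lip 2 144 148 4),
.rs (.mono 0 128 136 1),
.rs (.lip 2 134 190 56),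
.rs (.deg 2 [0, 0, 3]),
.rs (.part [75, 20, 160] [1, 0, 0] [] []),
.rs (.part [27, 100, 128] [1, 0, 0] [] []),
.rs (.mono 1 128 160 1),
.rs (.ab2 1 6),
.rs (.lipl 2 34 54 2 20),
.rs (.join 0 1 3 2 1 1 [(0, 0)]),
.rs (.le 1 136 128 7 1),
.rs (.l2 2 3 66 1 1 2),
.rs (.join 1 10 4 3 2 2 [(1, 0), (3, 1)]),
.rs (.join 1 1 4 3 1 3 [(0, 1)]),
.rs (.l2 1 136 192 7 1 2),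
.rs (.lip 2 36 100 64),
.rs (.deg 6 [0, 3, 1]),
.rs (.part [48, 15, 192] [0, 1, 0] [] []),
.rs (.join 1 4 6 3 2 1 [(2, 0)]),
.rs (.part [1, 146, 108] [0, 0, 1] [] []),
.rs (.deg 6 [0, 0, 4]),
.rs (.part [8, 128, 119] [0, 0, 1] [] []),
.rs (.l2 1 6 34 1 1 2),
.rs (.join 2 1 7 3 2 2 [(0, 1)]),
.rs (.join 2 1 1 4 3 2 [(0, 1)]),
.degU 4 [(0, 1), (1, 3), (2, 1)],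
.rs (.lip 1 128 168 56),
.rs (.lipl 1 128 138 0 10),
.rs (.part [96, 31, 128] [0, 1, 0] [] []),
.rs (.lip 0 17 81 64),
.rs (.join 2 32 6 2 0 2 [(5, 0)]),
.rs (.deg 6 [0, 2, 2]),
.rs (.mono 1 4 6 1),
.rs (.join 1 16 5 3 2 1 [(4, 0)]),
.rs (.lipl 2 97 117 2 20),
.rs (.lip 2 96 103 7),
.rs (.join 1 4 3 3 2 1 [(2, 0)]),
.rs (.join 2 4 5 5 2 3 [(2, 0)]),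
.rs (.join 2 4 4 4 2 2 [(2, 0)]),
.rs (.part [17, 100, 138] [0, 1, 0] [] []),
.rs (.l2 2 20 80 4 2 3),
.rs (.le 2 36 32 5 3),
.rs (.mono 1 32 48 1),
.rs (.part [1, 6, 192] [0, 0, 0] [56] []),
.rs (.part [8, 18, 229] [0, 0, 1] [] []),
.rs (.part [201, 18, 36] [1, 0, 0] [] []),
.rs (.mono 1 192 224 1),
.rs (.lipl 0 9 27 0 18),
.rs (.lip 1 128 176 56),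
.rs (.lipl 2 19 55 2 36),
.rs (.l2 1 12 68 2 1 1),
.rs (.l2 2 3 18 1 1 1),
.rs (.l2 2 66 130 1 2 1),
.rs (.join 1 66 7 2 2 0 [(1, 0), (6, 0)]),
.rs (.un 0 4),
.rs (.part [62, 128, 65] [1, 0, 0] [] []),
.rs (.lip 0 16 23 7),
.rs (.ab 1 3),
.rs (.part [66, 152, 37] [0, 1, 0] [] []),
.rs (.ab2 2 34),
.rs (.l2 1 34 36 5 1 1),
.rs (.mono 1 192 194 1),
.rs (.join 1 2 7 3 2 1 [(1, 0)]),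
.rs (.un 2 0),
.rs (.join 0 8 5 2 1 1 [(3, 0)]),
.rs (.part [17, 64, 174] [0, 0, 1] [] []),
.rs (.l2 1 80 192 6 1 1),
.rs (.lipl 2 38 182 1 144),
.rs (.l2 2 20 36 2 3 2),
.rs (.part [67, 164, 24] [1, 0, 0] [] []),
.rs (.lipl 2 52 62 1 10),
.rs (.join 1 34 6 3 2 2 [(1, 1), (5, 0)]),
.rs (.lipl 2 32 98 1 66),
.rs (.lipl 2 84 118 2 34),
.rs (.part [9, 118, 128] [0, 1, 0] [] []),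
.rs (.lipl 1 208 244 1 36),
.rs (.part [3, 68, 184] [0, 0, 1] [] []),
.rs (.lip 1 130 186 56),
.rs (.mono 1 72 76 1),
.rs (.part [81, 10, 164] [1, 0, 0] [] []),
.rs (.lip 2 136 143 7),
.rs (.part [1, 164, 90] [0, 0, 1] [] []),
.rs (.l2 1 72 80 6 1 2),
.rs (.lipl 1 148 214 0 66),
.rs (.l2 1 129 130 7 2 1),
.rs (.lipl 2 44 174 1 130),
.rs (.lipl 2 28 61 2 33),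
.rs (.le 1 192 128 7 3),
.rs (.lipl 2 76 110 2 34),
.rs (.lipl 1 18 86 1 68),
.rs (.lipl 0 16 81 1 65),
.rs (.deg 2 [0, 1, 2]),
.rs (.lip 1 132 188 56),
.rs (.join 1 4 5 3 2 3 [(2, 2)]),
.rs (.mono 1 2 18 1),
.rs (.part [48, 128, 79] [0, 0, 1] [] []),
.rs (.part [12, 145, 98] [0, 1, 0] [] []),
.rs (.join 1 1 1 3 2 2 [(0, 1)]),
.rs (.le 1 36 4 2 2),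
.rs (.l2 2 24 144 4 1 2),
.rs (.part [12, 64, 179] [0, 0, 1] [] []),
.rs (.part [8, 68, 131] [0, 0, 0] [48] []),
.rs (.mono 1 66 98 1),
.rs (.part [76, 144, 35] [1, 0, 0] [] []),
.rs (.part [24, 131, 100] [0, 1, 0] [] []),
.rs (.lipl 0 17 89 1 72),
.rs (.part [77, 18, 160] [1, 0, 0] [] []),
.rs (.l2 1 48 80 4 1 1),
.rs (.part [16, 15, 224] [0, 1, 0] [] []),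
.rs (.part [25, 224, 6] [1, 0, 0] [] []),
.rs (.lipl 1 128 162 1 34),
.rs (.part [41, 208, 6] [1, 0, 0] [] []),
.rs (.part [43, 148, 64] [1, 0, 0] [] []),
.rs (.lipl 2 100 109 2 9),
.rs (.join 1 2 4 3 1 3 [(1, 1)]),
.degU 2 [(2, 5)],
.rs (.lipl 1 138 206 1 68),
.rs (.mono 2 64 192 1),
.rs (.mono 2 5 133 1),
.rs (.lipl 1 96 116 1 20),
.rs (.join 1 16 5 2 0 2 [(4, 0)]),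
.rs (.l2 1 9 17 0 1 1),
.rs (.ab2 0 65),
.rs (.join 1 64 7 4 4 3 [(6, 3)]),
.rs (.part [72, 55, 128] [0, 1, 0] [] []),
.rs (.srt 0 3 0 0 3),
.rs (.lipl 2 36 102 2 66),
.rs (.le 2 20 16 4 4),
.rs (.part [51, 72, 132] [1, 0, 0] [] []),
.rs (.mono 1 64 68 1),
.rs (.part [12, 193, 50] [0, 1, 0] [] []),
.rs (.lipl 1 130 198 1 68),
.rs (.join 1 4 5 2 1 2 [(2, 1)]),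
.rs (.join 1 2 4 2 2 1 [(1, 1)]),
.rs (.lipl 2 32 162 1 130),
.rs (.mono 1 1 17 1),
.rs (.join 1 2 5 2 1 2 [(1, 1)]),
.rs (.lip 2 160 164 4),
.rs (.slot 0 [(0, 2), (3, 3), (4, 2), (5, 2), (6, 1)]),
.rs (.lipl 1 84 118 2 34),
.rs (.join 1 64 7 4 2 3 [(6, 1)]),
.rs (.join 1 18 6 3 2 2 [(1, 0), (4, 1)]),
.rs (.part [22, 128, 105] [1, 0, 0] [] []),
.rs (.ordE 2 64 2),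
.rs (.lipl 2 144 180 1 36),
.rs (.part [64, 134, 1] [0, 0, 0] [56] []),
.rs (.part [201, 20, 34] [1, 0, 0] [] []),
.rs (.le 2 65 1 0 3),
.rs (.l2 1 5 12 2 1 1),
.rs (.join 2 1 4 5 2 3 [(0, 0)]),
.rs (.le 1 3 2 1 1),
.rs (.deg 6 [2, 1, 1]),
.rs (.join 2 1 5 4 0 4 [(0, 0)]),
.rs (.part [1, 132, 66] [0, 0, 0] [56] []),
.rs (.deg 1 [2, 1, 0]),
.rs (.hall [0] [1, 2, 6, 7]),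
.rs (.lipl 2 98 110 2 12),
.rs (.join 2 16 6 4 3 4 [(4, 3)]),
.rs (.join 1 4 3 3 2 2 [(2, 1)]),
.rs (.join 2 2 4 4 3 1 [(1, 0)]),
.rs (.lip 0 16 21 7),
.rs (.part [48, 72, 135] [0, 0, 1] [] []),
.rs (.l2 2 34 96 5 2 2),
.rs (.lipl 0 9 75 0 66),
.rs (.lip 2 196 244 56),
.rs (.part [66, 61, 128] [0, 1, 0] [] []),
.rs (.ab2 2 72),
.rs (.join 2 1 6 4 1 3 [(0, 0)]),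
.rs (.part [65, 128, 62] [0, 0, 1] [] []),
.rs (.part [4, 192, 3] [0, 0, 0] [56] []),
.rs (.part [40, 23, 192] [0, 1, 0] [] []),
.rs (.l2 2 24 80 4 1 2),
.rs (.lip 1 6 62 56),
.rs (.part [30, 128, 97] [1, 0, 0] [] []),
.rs (.part [2, 68, 129] [0, 0, 0] [56] []),
.rs (.lipl 0 17 89 0 72),
.rs (.l2 1 3 10 1 2 1),
.rs (.part [65, 148, 42] [0, 0, 1] [] []),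
.rs (.l2 2 5 36 2 2 2),
.rs (.part [16, 72, 160] [0, 0, 0] [7] []),
.rs (.join 2 1 1 4 1 3 [(0, 0)]),
.rs (.l2 1 34 66 1 2 1),
.rs (.lipl 2 160 180 1 20),
.rs (.part [8, 224, 16] [0, 0, 0] [7] []),
.rs (.l2 1 20 36 2 1 1),
.rs (.l2 2 3 34 1 1 1),
.rs (.part [11, 196, 48] [1, 0, 0] [] []),
.rs (.l2 1 129 144 7 1 2),
.rs (.le 1 36 32 5 1),
.rs (.le 1 160 128 7 1),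
.rs (.lip 0 72 79 7),
.rs (.join 2 4 4 4 4 2 [(2, 2)]),
.rs (.lipl 1 52 118 0 66),
.rs (.lipl 0 9 89 2 80),
.rs (.deg 5 [0, 1, 2]),
.rs (.join 2 2 6 4 3 4 [(1, 3)]),
.rs (.lip 1 5 61 56),
.rs (.part [4, 131, 64] [0, 0, 0] [56] []),
.rs (.join 0 2 2 2 1 1 [(1, 0)]),
.rs (.l2 1 66 80 6 1 1),
.rs (.l2 1 18 80 4 2 1),
.rs (.le 2 144 16 4 4),
.rs (.mono 0 2 3 1),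
.rs (.join 2 8 6 4 1 3 [(3, 0)]),
.rs (.join 2 4 4 2 1 1 [(2, 0)]),
.rs (.join 2 4 4 4 0 4 [(2, 0)]),
.rs (.join 1 2 3 3 2 1 [(1, 0)]),
.rs (.part [77, 160, 18] [1, 0, 0] [] []),
.rs (.part [8, 36, 211] [0, 0, 1] [] []),
.rs (.mono 1 66 82 1),
.rs (.mono 0 128 144 1),
.rs (.lip 2 68 124 56),
.rs (.lip 1 24 31 7),
.rs (.ordE 0 16 2),
.rs (.part [9, 80, 166] [0, 0, 1] [] []),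
.rs (.ordE 2 128 3),
.rs (.srt 0 4 0 3 2),
.rs (.part [18, 224, 13] [0, 1, 0] [] []),
.rs (.lipl 0 64 74 2 10),
.rs (.join 2 2 5 4 2 3 [(1, 1)]),
.rs (.lip 2 128 184 56),
.rs (.join 2 4 7 4 1 3 [(2, 0)]),
.rs (.l2 1 20 68 2 2 1),
.rs (.part [10, 1, 244] [0, 0, 1] [] []),
.rs (.part [9, 48, 198] [0, 0, 1] [] []),
.rs (.part [9, 18, 192] [0, 0, 0] [] [(2, 36)]),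
.rs (.l2 2 3 6 1 1 1),
.rs (.part [16, 64, 175] [0, 0, 1] [] []),
.rs (.le 1 132 128 7 3),
.rs (.ordE 0 4 1),
.rs (.lipl 0 65 75 0 10),
.rs (.part [65, 8, 182] [0, 0, 1] [] []),
.rs (.ab2 0 24),
.rs (.join 2 4 3 5 3 3 [(2, 1)]),
.rs (.part [2, 184, 69] [0, 1, 0] [] []),
.rs (.join 2 1 6 3 1 2 [(0, 0)]),
.rs (.lip 0 24 30 7),
.rs (.part [10, 33, 192] [0, 0, 0] [] [(2, 20)]),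
.rs (.slot 0 [(0, 2), (4, 3), (3, 2), (5, 2), (6, 1)]),
.rs (.ordE 0 64 3),
.rs (.join 2 8 6 3 1 2 [(3, 0)]),
.rs (.part [9, 116, 130] [0, 1, 0] [] []),
.rs (.join 1 4 5 2 2 0 [(2, 0)]),
.rs (.join 2 8 4 4 2 3 [(3, 1)]),
.rs (.join 1 1 6 3 2 1 [(0, 0)]),
.rs (.part [9, 132, 114] [0, 0, 1] [] []),
.rs (.join 2 3 2 3 2 1 [(0, 0), (1, 0)]),
.rs (.mono 1 68 100 1),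
.rs (.part [33, 132, 26] [0, 0, 0] [64] []),
.rs (.join 2 1 3 4 3 3 [(0, 2)]),
.rs (.part [9, 4, 242] [0, 0, 1] [] []),
.rs (.join 2 1 4 4 3 3 [(0, 2)]),
.rs (.lipl 2 38 118 1 80),
.rs (.hall [1] [0, 2, 6, 7]),
.rs (.l2 2 3 34 1 2 2),
.rs (.l2 2 18 66 1 2 2),
.rs (.join 1 1 1 2 2 0 [(0, 0)]),
.rs (.lipl 2 100 110 2 10),
.rs (.join 2 4 6 4 0 4 [(2, 0)]),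
.rs (.join 2 1 2 3 2 1 [(0, 0)]),
.rs (.part [72, 131, 52] [0, 1, 0] [] []),
.rs (.lip 1 128 184 56),
.rs (.lipl 0 8 73 1 65),
.rs (.join 2 4 6 4 3 1 [(2, 0)]),
.rs (.lip 1 64 112 56),
.rs (.le 2 18 2 1 4),
.rs (.lip 1 4 60 56),
.rs (.join 1 2 6 4 1 3 [(1, 0)]),
.rs (.lip 2 132 188 56),
.rs (.part [10, 196, 49] [0, 1, 0] [] []),
.rs (.part [66, 176, 13] [0, 1, 0] [] []),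
.rs (.l2 1 34 66 1 1 1),
.rs (.join 1 1 5 4 2 3 [(0, 1)]),
.rs (.l2 1 6 34 1 1 1),
.rs (.lipl 2 80 116 1 36),
.rs (.l2 2 34 66 1 1 2),
.rs (.lipl 2 50 118 1 68),
.rs (.join 2 4 7 3 2 2 [(2, 1)]),
.rs (.join 2 1 2 3 2 2 [(0, 1)]),
.rs (.join 2 32 6 4 3 3 [(5, 2)]),
.rs (.join 1 1 6 4 3 4 [(0, 3)]),
.rs (.part [68, 58, 129] [0, 1, 0] [] []),
.rs (.lip 2 128 135 7),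
.rs (.join 1 16 6 3 2 2 [(4, 1)]),
.rs (.part [33, 12, 192] [0, 0, 0] [] [(2, 18)]),
.rs (.le 1 130 128 7 2),
.rs (.l2 2 36 48 5 1 1),
.rs (.lip 2 80 83 7),
.rs (.part [59, 128, 68] [1, 0, 0] [] []),
.rs (.ab2 2 48),
.rs (.part [81, 36, 138] [1, 0, 0] [] []),
.rs (.mono 1 1 65 1),
.rs (.l2 1 3 5 0 1 2),
.rs (.part [66, 32, 157] [0, 0, 1] [] []),
.rs (.part [34, 145, 76] [0, 1, 0] [] []),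
.rs (.l2 1 6 132 2 1 2),
.rs (.part [80, 4, 171] [0, 0, 1] [] []),
.rs (.part [16, 96, 136] [0, 0, 0] [7] []),
.rs (.l2 2 6 34 1 2 2),
.rs (.join 2 2 7 4 2 2 [(1, 0)]),
.rs (.hall [2] [4, 5, 6, 7]),
.rs (.join 2 2 3 4 3 1 [(1, 0)]),
.rs (.part [33, 138, 84] [0, 1, 0] [] []),
.rs (.join 0 8 5 2 2 0 [(3, 0)]),
.rs (.part [65, 168, 22] [0, 1, 0] [] []),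
.rs (.part [81, 34, 140] [1, 0, 0] [] []),
.rs (.join 2 2 5 5 2 3 [(1, 0)]),
.rs (.part [1, 66, 132] [0, 0, 0] [56] []),
.rs (.le 2 36 4 2 4),
.rs (.join 1 18 6 3 2 1 [(1, 0), (4, 0)]),
.rs (.lip 2 160 167 7),
.rs (.l2 0 66 96 6 1 1),
.rs (.l2 1 129 130 7 2 2),
.rs (.join 2 4 4 3 2 1 [(2, 0)]),
.rs (.ordE 0 64 2),
.rs (.join 1 4 6 4 1 3 [(2, 0)]),
.rs (.mono 1 160 161 1),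
.rs (.part [200, 19, 36] [1, 0, 0] [] []),
.rs (.part [32, 23, 200] [0, 1, 0] [] []),
.rs (.l2 0 66 80 6 1 1),
.rs (.join 2 4 5 4 4 2 [(2, 2)]),
.rs (.l2 2 20 24 4 1 1),
.rs (.lipl 1 34 102 1 68),
.rs (.lipl 2 4 84 1 80),
.rs (.part [17, 160, 78] [0, 0, 1] [] []),
.rs (.join 1 2 4 4 3 1 [(1, 0)]),
.rs (.l2 1 3 66 1 1 1),
.rs (.l2 2 130 144 7 2 1),
.rs (.join 2 2 5 3 2 1 [(1, 0)]),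
.rs (.srt 0 2 0 1 1),
.rs (.join 2 1 1 2 1 1 [(0, 0)]),
.rs (.mono 1 96 98 1),
.rs (.ab2 2 66),
.rs (.part [23, 128, 104] [1, 0, 0] [] []),
.rs (.part [33, 128, 94] [0, 0, 1] [] []),
.rs (.mono 1 72 74 1),
.rs (.lipl 2 14 110 1 96),
.rs (.lipl 2 29 125 1 96),
.rs (.join 2 2 6 4 3 2 [(1, 1)]),
.rs (.l2 2 6 36 2 2 1),
.rs (.join 1 8 7 2 1 1 [(3, 0)]),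
.rs (.join 2 4 5 3 2 2 [(2, 1)]),
.rs (.part [9, 242, 4] [0, 1, 0] [] []),
.rs (.lip 2 66 90 56),
.rs (.le 2 96 32 5 2),
.rs (.part [89, 6, 160] [1, 0, 0] [] []),
.rs (.lip 1 70 126 56),
.rs (.le 0 5 4 2 1),
.rs (.join 2 1 6 4 2 3 [(0, 1)]),
.rs (.part [9, 68, 178] [0, 0, 1] [] []),
.rs (.lipl 1 164 244 1 80),
.degU 6 [(0, 1), (1, 1), (2, 4)],
.rs (.lipl 2 100 117 2 17),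
.rs (.part [31, 32, 192] [1, 0, 0] [] []),
.rs (.ab2 2 132),
.rs (.join 2 32 6 2 1 2 [(5, 1)]),
.rs (.part [64, 5, 130] [0, 0, 0] [56] []),
.rs (.l2 0 6 12 2 1 1),
.rs (.l2 1 65 80 6 1 1),
.rs (.join 2 32 6 4 2 4 [(5, 2)]),
.rs (.lip 0 4 52 56),
.rs (.join 2 32 6 4 2 2 [(5, 0)]),
.rs (.l2 1 20 80 4 1 1),
.rs (.ordE 2 4 2),
.rs (.lip 1 129 185 56),
.rs (.part [72, 151, 32] [0, 1, 0] [] []),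
.rs (.part [62, 1, 192] [1, 0, 0] [] []),
.rs (.part [73, 34, 148] [1, 0, 0] [] []),
.rs (.l2 2 20 36 2 2 2),
.rs (.part [42, 128, 85] [1, 0, 0] [] []),
.rs (.ab 1 1),
.rs (.join 1 2 3 3 2 2 [(1, 1)]),
.rs (.slot 0 [(2, 2), (0, 3), (1, 3), (3, 1), (6, 1)]),
.rs (.join 1 4 6 2 1 1 [(2, 0)]),
.rs (.l2 1 130 160 7 1 2),
.rs (.part [48, 136, 64] [0, 0, 0] [7] []),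
.rs (.join 2 4 7 3 1 2 [(2, 0)]),
.rs (.part [55, 8, 192] [1, 0, 0] [] []),
.rs (.part [10, 65, 180] [0, 0, 1] [] []),
.rs (.lip 0 1 57 56),
.rs (.join 1 1 4 3 2 2 [(0, 1)]),
.rs (.part [5, 128, 122] [0, 0, 1] [] []),
.rs (.join 1 2 5 2 1 1 [(1, 0)]),
.rs (.join 1 2 4 3 0 3 [(1, 0)]),
.rs (.l2 0 6 34 1 1 1),
.rs (.l2 1 66 68 6 1 1),
.rs (.join 1 16 6 2 1 1 [(4, 0)]),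
.rs (.join 1 16 7 3 3 0 [(4, 0)]),
.rs (.join 1 1 4 3 1 2 [(0, 0)]),
.rs (.le 2 33 1 0 4),
.rs (.join 2 1 1 5 3 3 [(0, 1)]),
.rs (.l2 2 34 40 5 2 2),
.rs (.lipl 2 48 180 1 132),
.rs (.part [64, 128, 63] [0, 0, 1] [] []),
.rs (.l2 1 33 96 5 2 1),
.rs (.join 2 2 2 4 3 1 [(1, 0)]),
.rs (.part [9, 20, 226] [0, 0, 1] [] []),
.rs (.lipl 1 100 244 1 144),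
.rs (.l2 1 80 96 6 1 2),
.rs (.part [24, 39, 192] [0, 1, 0] [] []),
.degU 1 [(0, 1), (1, 1), (2, 3)],
.rs (.part [57, 128, 70] [1, 0, 0] [] []),
.rs (.part [17, 66, 172] [0, 0, 1] [] []),
.rs (.lip 0 9 137 128),
.rs (.lipl 1 128 138 1 10),
.rs (.l2 0 40 72 3 1 1),
.rs (.join 2 16 6 3 2 2 [(4, 1)]),
.rs (.part [1, 64, 190] [0, 0, 1] [] []),
.rs (.join 2 2 2 2 1 1 [(1, 0)]),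
.rs (.mono 1 32 36 1),
.rs (.join 1 2 4 3 1 2 [(1, 0)]),
.rs (.ab2 1 40),
.rs (.join 2 1 7 3 1 2 [(0, 0)]),
.rs (.un 2 2),
.rs (.join 2 16 5 4 2 3 [(4, 1)]),
.rs (.lipl 2 20 54 2 34),
.rs (.lipl 2 96 240 2 144),
.rs (.l2 1 68 96 6 1 1),
.rs (.join 1 2 7 3 3 1 [(1, 1)]),
.rs (.part [17, 98, 140] [0, 1, 0] [] []),
.rs (.lipl 1 128 208 1 80),
.rs (.lip 1 48 55 7),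
.rs (.join 2 8 4 2 1 1 [(3, 0)]),
.rs (.part [13, 96, 146] [1, 0, 0] [] []),
.rs (.deg 4 [1, 0, 2]),
.rs (.ab2 2 80),
.rs (.lipl 2 98 107 2 9),
.rs (.le 1 130 2 1 3),
.rs (.hall [1] [3, 4, 6, 7]),
.rs (.part [17, 140, 98] [0, 1, 0] [] []),
.rs (.le 1 65 1 0 2),
.rs (.lipl 2 96 114 2 18),
.rs (.lip 0 2 50 56),
.rs (.join 0 1 4 2 2 0 [(0, 0)]),
.rs (.lipl 2 81 115 1 34),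
.rs (.part [75, 132, 48] [1, 0, 0] [] []),
.rs (.le 1 132 4 2 2),
.rs (.part [73, 18, 164] [1, 0, 0] [] []),
.rs (.mono 1 5 133 1),
.rs (.join 0 1 4 2 1 1 [(0, 0)]),
.rs (.lipl 2 132 150 2 18),
.rs (.part [4, 192, 59] [0, 0, 1] [] []),
.rs (.l2 1 66 72 6 1 1),
.rs (.lipl 0 72 89 1 17),
.rs (.l2 1 132 192 7 1 1),
.rs (.mono 1 2 6 1),
.rs (.l2 1 129 136 7 1 1),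
.rs (.lip 2 168 175 7),
.rs (.part [89, 164, 2] [1, 0, 0] [] []),
.rs (.join 2 1 4 4 3 2 [(0, 1)]),
.rs (.l2 1 12 132 2 1 1),
.rs (.part [9, 214, 32] [0, 1, 0] [] []),
.rs (.part [96, 151, 8] [0, 1, 0] [] []),
.rs (.join 2 2 2 3 2 1 [(1, 0)]),
.rs (.lipl 1 20 116 1 96),
.rs (.join 1 64 7 3 3 0 [(6, 0)]),
.rs (.lip 2 144 146 2),
.rs (.join 1 4 7 3 2 3 [(2, 2)]),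
.rs (.part [72, 2, 181] [0, 0, 1] [] []),
.rs (.srt 0 4 0 3 3),
.rs (.l2 1 6 36 2 1 1),
.rs (.deg 6 [1, 2, 1]),
.rs (.part [10, 84, 161] [0, 1, 0] [] []),
.rs (.lip 0 3 43 56),
.rs (.lipl 0 1 67 1 66),
.rs (.lipl 2 97 117 0 20),
.rs (.hall [2] [0, 1, 2, 6]),
.rs (.l2 1 17 33 0 1 1),
.rs (.join 2 32 7 4 1 3 [(5, 0)]),
.rs (.lip 1 67 123 56),
.rs (.part [33, 194, 28] [0, 1, 0] [] []),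
.rs (.le 2 66 2 1 4),
.rs (.mono 2 64 68 1),
.rs (.le 2 20 4 2 2),
.rs (.ab 2 3),
.rs (.l2 2 68 80 6 2 2),
.rs (.part [9, 150, 96] [0, 1, 0] [] []),
.rs (.l2 1 36 68 2 1 1),
.rs (.join 2 2 5 3 2 2 [(1, 1)]),
.rs (.mono 1 4 132 1),
.rs (.join 1 2 6 3 1 2 [(1, 0)]),
.rs (.l2 2 20 24 4 3 1),
.rs (.part [10, 164, 81] [0, 1, 0] [] []),
.rs (.lipl 2 18 150 1 132),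
.rs (.deg 5 [1, 0, 2]),
.rs (.l2 1 17 24 4 1 2),
.rs (.join 1 1 6 4 2 3 [(0, 1)]),
.rs (.part [46, 144, 65] [1, 0, 0] [] []),
.rs (.join 2 8 5 3 2 1 [(3, 0)]),
.rs (.part [1, 60, 194] [0, 1, 0] [] []),
.rs (.deg 3 [1, 1, 1]),
.rs (.join 0 4 3 2 1 1 [(2, 0)]),
.rs (.part [1, 148, 106] [0, 0, 1] [] []),
.rs (.join 2 8 6 4 2 2 [(3, 0)]),
.rs (.lip 1 12 76 64),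
.rs (.part [2, 125, 128] [0, 1, 0] [] []),
.rs (.part [89, 2, 164] [1, 0, 0] [] []),
.rs (.part [11, 160, 84] [1, 0, 0] [] []),
.rs (.mono 1 1 5 1),
.rs (.lip 2 128 134 7),
.rs (.part [6, 192, 1] [0, 0, 0] [56] []),
.rs (.l2 1 130 144 7 1 1),
.rs (.lipl 2 160 240 0 80),
.rs (.ab2 2 24),
.rs (.part [27, 32, 196] [1, 0, 0] [] []),
.rs (.join 2 4 3 4 2 2 [(2, 0)]),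
.rs (.part [29, 162, 64] [1, 0, 0] [] []),
.rs (.lip 0 24 27 7),
.rs (.join 2 8 6 4 3 3 [(3, 2)]),
.rs (.join 2 4 4 4 1 3 [(2, 0)]),
.rs (.join 1 16 6 4 0 4 [(4, 0)]),
.rs (.part [32, 72, 144] [0, 0, 0] [7] []),
.rs (.join 2 1 1 3 2 2 [(0, 1)]),
.rs (.join 0 1 6 2 1 1 [(0, 0)]),
.rs (.l2 2 18 24 4 1 1),
.rs (.ordE 0 128 2),
.rs (.join 1 2 7 3 1 3 [(1, 1)]),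
.rs (.mono 2 72 76 1),
.rs (.ordE 1 128 3),
.rs (.ab2 0 96),
.rs (.join 1 2 4 2 0 2 [(1, 0)]),
.rs (.lipl 2 80 114 2 34),
.rs (.part [34, 200, 21] [0, 1, 0] [] []),
.rs (.lipl 2 193 213 2 20),
.rs (.lipl 0 9 89 1 80),
.rs (.lipl 2 162 182 2 20),
.rs (.part [68, 59, 128] [0, 1, 0] [] []),
.rs (.join 0 66 7 2 2 0 [(1, 0), (6, 0)]),
.rs (.part [65, 4, 186] [0, 0, 1] [] []),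
.rs (.mono 0 16 18 1),
.rs (.join 0 68 7 2 2 0 [(2, 0), (6, 0)]),
.rs (.join 1 32 6 2 1 1 [(5, 0)]),
.rs (.part [120, 129, 6] [1, 0, 0] [] []),
.rs (.slot 0 [(0, 2), (1, 1), (3, 3), (4, 2), (5, 2)]),
.rs (.lip 0 40 47 7),
.rs (.lipl 2 52 118 0 66),
.rs (.part [8, 230, 17] [0, 1, 0] [] []),
.rs (.lipl 2 24 92 1 68),
.rs (.l2 1 20 80 4 2 1),
.rs (.join 0 2 3 2 1 1 [(1, 0)]),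
.rs (.lipl 1 82 118 2 36),
.rs (.l2 1 130 160 7 2 1),
.rs (.part [121, 130, 4] [1, 0, 0] [] []),
.rs (.ordE 0 8 2),
.rs (.lip 2 96 101 7),
.rs (.le 1 34 32 5 3),
.rs (.lipl 0 17 27 2 10),
.rs (.l2 1 5 36 2 1 1),
.rs (.l2 2 20 36 2 2 1),
.rs (.join 1 4 6 4 3 2 [(2, 1)]),
.rs (.mono 1 4 36 1),
.rs (.lip 2 24 31 7),
.rs (.ordE 1 8 1),
.rs (.ab 1 7),
.rs (.join 2 1 1 4 3 3 [(0, 2)]),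
.rs (.part [13, 194, 48] [1, 0, 0] [] []),
.rs (.join 1 4 6 3 2 2 [(2, 1)]),
.rs (.le 1 68 4 2 2),
.rs (.l2 2 20 132 2 1 2),
.rs (.lip 2 176 183 7),
.rs (.join 2 2 4 4 3 3 [(1, 2)]),
.rs (.lipl 0 8 76 2 68),
.rs (.part [80, 143, 32] [0, 1, 0] [] []),
.rs (.deg 3 [2, 0, 1]),
.rs (.part [66, 8, 181] [0, 0, 1] [] []),
.rs (.join 2 16 6 4 2 3 [(4, 1)]),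
.rs (.ordE 1 16 2),
.rs (.mono 0 128 132 1),
.rs (.l2 2 20 68 2 1 2),
.rs (.lip 0 48 55 7),
.rs (.deg 5 [2, 0, 1]),
.rs (.l2 1 129 132 7 1 1),
.rs (.l2 0 6 18 1 1 1),
.rs (.lipl 1 128 145 1 17),
.rs (.join 2 1 6 4 2 4 [(0, 2)]),
.rs (.lipl 1 18 114 1 96),
.rs (.part [30, 160, 65] [1, 0, 0] [] []),
.rs (.part [61, 128, 66] [1, 0, 0] [] []),
.rs (.part [17, 34, 192] [0, 0, 0] [] [(2, 12)]),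
.rs (.part [9, 34, 212] [0, 0, 1] [] []),
.rs (.deg 2 [2, 1, 0]),
.rs (.lipl 1 128 148 1 20),
.rs (.le 1 132 128 7 1),
.rs (.join 1 8 6 2 1 1 [(3, 0)]),
.rs (.lip 1 32 39 7),
.rs (.l2 2 66 72 6 2 1),
.rs (.part [9, 102, 144] [0, 1, 0] [] []),
.rs (.le 1 20 4 2 1),
.rs (.srt 0 1 0 0 3),
.rs (.lipl 2 164 244 2 80),
.rs (.lipl 2 34 114 1 80),
.rs (.part [65, 60, 130] [0, 1, 0] [] []),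
.rs (.lip 1 144 208 64),
.rs (.ab2 1 72),
.rs (.part [6, 65, 184] [0, 0, 1] [] []),
.rs (.part [66, 32, 152] [0, 0, 0] [5] []),
.rs (.join 2 32 6 2 1 1 [(5, 0)]),
.rs (.part [74, 161, 20] [1, 0, 0] [] []),
.rs (.join 2 1 6 4 0 4 [(0, 0)]),
.rs (.ordE 2 32 1),
.rs (.le 2 160 32 5 2),
.rs (.join 1 64 7 4 4 1 [(6, 1)]),
.rs (.lip 1 128 131 7),
.rs (.l2 1 3 66 1 2 1),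
.rs (.lip 2 64 71 7),
.rs (.join 2 16 5 3 2 1 [(4, 0)]),
.rs (.part [73, 146, 36] [1, 0, 0] [] []),
.rs (.part [43, 80, 132] [1, 0, 0] [] []),
.rs (.l2 1 136 160 7 1 1),
.rs (.join 1 2 4 3 2 3 [(1, 2)]),
.rs (.hall [0, 1] [4, 5, 7]),
.rs (.part [64, 2, 189] [0, 0, 1] [] []),
.rs (.l2 1 144 160 7 1 1),
.rs (.ab2 1 36),
.rs (.ab2 2 65),
.rs (.join 2 4 5 5 3 2 [(2, 0)]),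
.rs (.join 1 2 6 4 2 2 [(1, 0)]),
.rs (.lipl 2 146 218 2 72),
.rs (.part [1, 36, 218] [0, 0, 1] [] []),
.rs (.part [21, 128, 106] [1, 0, 0] [] []),
.rs (.join 2 8 5 3 1 2 [(3, 0)]),
.rs (.part [72, 167, 16] [0, 1, 0] [] []),
.rs (.part [8, 162, 85] [0, 0, 1] [] []),
.rs (.part [64, 32, 159] [0, 0, 1] [] []),
.rs (.join 2 16 5 4 3 2 [(4, 1)]),
.rs (.lipl 1 160 228 2 68),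
.rs (.join 1 2 7 3 2 2 [(1, 1)]),
.rs (.join 1 4 6 4 3 1 [(2, 0)]),
.rs (.l2 0 10 12 3 1 1),
.rs (.part [18, 192, 45] [0, 1, 0] [] []),
.rs (.lip 2 40 47 7),
.rs (.part [6, 128, 121] [0, 0, 1] [] []),
.rs (.lipl 2 160 226 1 66),
.rs (.l2 1 36 132 2 1 1),
.rs (.l2 1 36 40 5 1 1),
.rs (.l2 1 48 96 5 1 1),
.rs (.join 1 2 5 4 3 1 [(1, 0)]),
.rs (.join 2 1 1 4 2 3 [(0, 1)]),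
.rs (.join 1 4 7 3 2 1 [(2, 0)]),
.rs (.ab 2 1),
.rs (.ab2 1 66),
.rs (.lipl 2 82 94 2 12),
.rs (.lip 2 131 187 56),
.rs (.part [27, 96, 132] [1, 0, 0] [] []),
.rs (.lipl 2 74 110 2 36),
.degU 6 [(0, 1), (1, 2), (2, 3)],
.rs (.le 0 130 128 7 1),
.rs (.join 2 32 7 3 2 1 [(5, 0)]),
.rs (.l2 2 6 68 2 1 1),
.rs (.join 1 1 6 4 2 2 [(0, 0)]),
.rs (.part [9, 66, 180] [0, 0, 1] [] []),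
.rs (.join 1 16 7 3 2 1 [(4, 0)]),
.rs (.mono 0 128 129 1),
.rs (.part [33, 200, 22] [0, 1, 0] [] []),
.rs (.l2 1 10 18 1 1 1),
.rs (.lipl 2 45 125 1 80),
.rs (.join 1 1 5 3 3 1 [(0, 1)]),
.rs (.lip 1 104 111 7),
.rs (.join 2 4 4 4 2 3 [(2, 1)]),
.rs (.lipl 2 26 62 2 36),
.rs (.part [90, 36, 129] [1, 0, 0] [] []),
.rs (.l2 1 129 130 7 1 1),
.rs (.lipl 2 18 54 1 36),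
.rs (.ab2 2 20),
.rs (.ordE 0 2 1),
.rs (.deg 7 [1, 2, 1]),
.rs (.lipl 2 34 102 1 68),
.rs (.join 2 1 2 4 3 3 [(0, 2)]),
.rs (.join 2 16 7 4 3 4 [(4, 3)]),
.rs (.part [80, 134, 41] [0, 1, 0] [] []),
.rs (.lip 0 65 121 56),
.rs (.lipl 2 132 150 1 18),
.rs (.lipl 2 97 115 1 18),
.rs (.mono 1 16 18 1),
.rs (.part [96, 128, 31] [0, 0, 1] [] []),
.rs (.lip 0 72 75 7),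
.rs (.part [4, 129, 66] [0, 0, 0] [56] []),
.rs (.join 0 1 5 2 2 0 [(0, 0)]),
.rs (.part [17, 164, 74] [0, 1, 0] [] []),
.rs (.lipl 2 192 210 2 18),
.rs (.join 2 4 7 2 1 1 [(2, 0)]),
.rs (.le 0 17 16 4 2),
.rs (.deg 3 [3, 0, 0]),
.rs (.l2 2 18 130 1 1 2),
.rs (.join 2 32 6 3 2 1 [(5, 0)]),
.rs (.ab 0 1),
.rs (.part [51, 140, 64] [1, 0, 0] [] []),
.rs (.part [16, 40, 192] [0, 0, 0] [7] []),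
.rs (.l2 1 6 34 1 2 1),
.rs (.l2 1 36 96 5 1 1),
.rs (.join 2 16 7 4 2 2 [(4, 0)]),
.rs (.ordE 2 2 1),
.rs (.join 1 1 7 3 3 0 [(0, 0)]),
.rs (.lipl 0 9 43 1 34),
.rs (.lip 1 96 103 7),
.rs (.part [77, 130, 48] [1, 0, 0] [] []),
.rs (.lip 0 10 74 64),
.rs (.l2 1 18 34 1 1 2),
.rs (.l2 2 65 66 6 2 1),
.rs (.part [25, 132, 98] [1, 0, 0] [] []),
.rs (.l2 1 3 34 1 1 2),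
.rs (.deg 7 [1, 1, 2]),
.rs (.lipl 0 17 27 0 10),
.rs (.part [5, 122, 128] [0, 1, 0] [] []),
.rs (.lipl 0 3 39 2 36),
.rs (.lip 2 80 87 7),
.rs (.join 2 2 4 3 2 2 [(1, 1)]),
.rs (.part [32, 192, 24] [0, 0, 0] [7] []),
.rs (.part [27, 160, 68] [1, 0, 0] [] []),
.rs (.join 2 1 5 5 2 3 [(0, 0)]),
.rs (.part [40, 64, 151] [0, 0, 1] [] []),
.rs (.lipl 0 16 88 2 72),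
.rs (.le 1 6 4 2 1),
.rs (.part [24, 96, 135] [0, 0, 1] [] []),
.rs (.part [9, 100, 146] [0, 0, 1] [] []),
.rs (.l2 1 72 80 6 2 1),
.rs (.part [8, 161, 86] [0, 0, 1] [] []),
.rs (.mono 1 16 144 1),
.rs (.part [80, 167, 8] [0, 1, 0] [] []),
.rs (.mono 1 192 196 1),
.rs (.ordE 1 1 1),
.rs (.slot 0 [(0, 3), (1, 1), (2, 1), (3, 3), (4, 1), (5, 1)]),
.rs (.part [43, 128, 84] [1, 0, 0] [] []),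
.rs (.join 1 2 7 2 1 1 [(1, 0)]),
.rs (.part [9, 244, 2] [0, 1, 0] [] []),
.rs (.lipl 2 38 118 2 80),
.rs (.lipl 2 22 55 2 33),
.rs (.part [8, 146, 101] [0, 0, 1] [] []),
.rs (.part [9, 162, 20] [0, 0, 0] [64] []),
.rs (.lipl 2 28 93 2 65),
.rs (.mono 1 4 68 1),
.rs (.lipl 0 10 30 2 20),
.rs (.l2 1 20 68 2 1 1),
.rs (.join 1 32 7 3 3 0 [(5, 0)]),
.rs (.part [8, 145, 102] [0, 0, 1] [] []),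
.rs (.join 2 4 3 4 2 3 [(2, 1)]),
.rs (.l2 2 3 130 1 2 1),
.rs (.join 2 2 5 5 1 4 [(1, 0)]),
.rs (.join 2 8 5 4 3 2 [(3, 1)]),
.rs (.lip 0 72 77 7),
.rs (.join 1 2 5 3 2 3 [(1, 2)]),
.rs (.l2 1 66 96 6 1 1),
.rs (.mono 2 1 5 1),
.rs (.ab 1 6),
.rs (.l2 1 12 20 2 1 1),
.rs (.l2 2 48 96 5 1 1),
.rs (.le 1 36 4 2 3),
.rs (.part [20, 194, 41] [0, 1, 0] [] []),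
.rs (.join 1 18 6 3 2 2 [(1, 1), (4, 0)]),
.rs (.l2 1 24 40 3 2 2),
.rs (.lip 0 1 49 56),
.rs (.part [74, 20, 161] [1, 0, 0] [] []),
.rs (.l2 2 6 34 1 2 1),
.rs (.ab2 1 20),
.rs (.ab2 2 192),
.rs (.part [43, 64, 148] [1, 0, 0] [] []),
.rs (.lipl 2 44 61 2 17),
.rs (.ordE 1 16 1),
.rs (.ab2 1 5),
.rs (.part [2, 5, 192] [0, 0, 0] [56] []),
.rs (.ab2 1 130),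
.rs (.ordE 1 2 1),
.rs (.ab2 1 136),
.rs (.part [32, 64, 159] [0, 0, 1] [] []),
.rs (.lipl 1 18 54 2 36),
.rs (.part [43, 144, 68] [1, 0, 0] [] []),
.rs (.l2 1 18 48 4 1 1),
.rs (.mono 1 128 144 1),
.rs (.deg 6 [1, 1, 2]),
.rs (.l2 1 132 160 7 1 1),
.rs (.le 2 65 1 0 1),
.rs (.join 1 64 7 2 1 1 [(6, 0)]),
.rs (.join 2 1 1 4 3 1 [(0, 0)]),
.rs (.join 1 4 5 3 3 1 [(2, 1)]),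
.rs (.part [65, 152, 38] [0, 1, 0] [] []),
.rs (.lip 1 2 58 56),
.rs (.join 1 2 6 4 3 2 [(1, 1)]),
.rs (.le 1 192 128 7 2),
.rs (.lipl 0 18 83 1 65),
.rs (.le 1 36 32 5 2),
.rs (.lip 1 1 57 56),
.rs (.l2 2 66 130 1 1 1),
.rs (.mono 0 4 36 1),
.rs (.mono 1 132 148 1),
.rs (.part [1, 194, 4] [0, 0, 0] [56] []),
.rs (.le 0 192 128 7 1),
.rs (.lipl 0 10 27 1 17),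
.rs (.part [66, 60, 129] [0, 1, 0] [] []),
.rs (.l2 2 144 160 7 1 1),
.rs (.part [66, 16, 173] [0, 0, 1] [] []),
.degU 4 [(0, 1), (1, 2), (2, 2)],
.rs (.join 1 16 6 3 1 2 [(4, 0)]),
.rs (.part [17, 10, 228] [0, 0, 1] [] []),
.rs (.part [15, 224, 16] [1, 0, 0] [] []),
.rs (.join 2 8 4 4 1 3 [(3, 0)]),
.rs (.part [1, 242, 12] [0, 1, 0] [] []),
.rs (.lipl 1 128 137 1 9),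
.rs (.mono 1 160 164 1),
.rs (.ab 2 2),
.rs (.ab 1 5),
.rs (.lipl 2 194 214 2 20),
.rs (.le 2 20 16 4 3),
.rs (.join 1 4 4 3 3 0 [(2, 0)]),
.rs (.part [13, 128, 114] [1, 0, 0] [] []),
.rs (.part [13, 80, 162] [1, 0, 0] [] []),
.rs (.part [68, 145, 42] [0, 1, 0] [] []),
.rs (.join 1 8 4 2 1 1 [(3, 0)]),
.rs (.part [3, 192, 4] [0, 0, 0] [56] []),
.rs (.lipl 1 128 145 0 17),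
.rs (.part [20, 64, 171] [0, 0, 1] [] []),
.rs (.part [36, 64, 155] [0, 0, 1] [] []),
.rs (.part [66, 185, 4] [0, 1, 0] [] []),
.rs (.deg 1 [0, 3, 0]),
.rs (.join 2 68 7 4 2 2 [(2, 0), (6, 0)]),
.rs (.join 1 32 6 3 2 2 [(5, 1)]),
.rs (.ab2 1 65),
.rs (.ab2 1 96),
.rs (.srt 0 3 0 0 4),
.rs (.part [18, 137, 100] [0, 1, 0] [] []),
.rs (.join 2 2 4 2 1 1 [(1, 0)]),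
.rs (.lip 1 34 98 64),
.rs (.part [4, 3, 192] [0, 0, 0] [56] []),
.rs (.part [9, 2, 244] [0, 0, 1] [] []),
.rs (.l2 2 48 96 5 1 2),
.rs (.l2 1 20 132 2 1 1),
.rs (.lipl 2 96 116 2 20),
.degU 1 [(0, 1), (1, 2), (2, 2)],
.rs (.lip 2 133 189 56),
.rs (.part [5, 58, 192] [0, 1, 0] [] []),
.rs (.part [75, 144, 36] [1, 0, 0] [] []),
.rs (.part [8, 192, 55] [0, 0, 1] [] []),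
.rs (.part [27, 192, 36] [1, 0, 0] [] []),
.rs (.join 1 96 7 2 2 0 [(5, 0), (6, 0)]),
.rs (.mono 1 16 80 1),
.rs (.ab2 1 48),
.rs (.lip 0 64 71 7),
.rs (.lipl 2 68 198 2 130),
.rs (.lipl 2 148 182 1 34),
.rs (.lipl 2 35 47 2 12),
.rs (.lip 2 5 61 56),
.rs (.part [40, 80, 135] [0, 0, 1] [] []),
.rs (.part [16, 39, 200] [0, 1, 0] [] []),
.rs (.join 2 32 7 2 1 2 [(5, 1)]),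
.rs (.le 1 18 2 1 2),
.rs (.join 1 2 4 3 3 1 [(1, 1)]),
.rs (.lipl 1 34 114 2 80),
.rs (.l2 2 20 68 2 1 3),
.rs (.l2 2 65 66 6 2 2),
.rs (.lipl 0 9 27 2 18),
.rs (.l2 2 34 36 5 1 2),
.rs (.le 2 33 1 0 1),
.rs (.un 2 7),
.rs (.lip 0 2 26 56),
.rs (.join 1 2 7 3 3 0 [(1, 0)]),
.rs (.part [75, 32, 148] [1, 0, 0] [] []),
.rs (.deg 3 [1, 0, 2]),
.rs (.join 2 4 5 2 1 1 [(2, 0)]),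
.rs (.lipl 1 36 102 1 66),
.rs (.part [77, 48, 130] [1, 0, 0] [] []),
.rs (.lip 0 8 15 7),
.rs (.part [17, 130, 108] [0, 0, 1] [] []),
.rs (.l2 2 65 96 6 2 2),
.rs (.part [40, 144, 64] [0, 0, 0] [7] []),
.rs (.lip 2 68 92 56),
.rs (.part [2, 192, 5] [0, 0, 0] [56] []),
.rs (.lipl 2 48 114 0 66),
.rs (.part [33, 148, 74] [0, 1, 0] [] []),
.rs (.part [10, 160, 85] [0, 0, 1] [] []),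
.rs (.lipl 2 80 114 1 34),
.rs (.join 2 64 7 4 1 3 [(6, 0)]),
.rs (.join 2 1 6 4 3 3 [(0, 2)]),
.rs (.part [9, 52, 130] [0, 0, 0] [64] []),
.degU 0 [(0, 1), (1, 4)],
.rs (.l2 1 3 6 1 1 1),
.rs (.lipl 0 9 77 0 68),
.rs (.part [80, 128, 47] [0, 0, 1] [] []),
.rs (.part [27, 4, 224] [1, 0, 0] [] []),
.rs (.part [201, 36, 18] [1, 0, 0] [] []),
.rs (.l2 1 65 96 6 1 1),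
.rs (.lipl 1 162 182 2 20),
.rs (.lipl 2 52 118 1 66),
.rs (.lipl 2 128 138 0 10),
.rs (.part [12, 33, 210] [0, 0, 1] [] []),
.rs (.part [17, 132, 42] [0, 0, 0] [64] []),
.rs (.join 1 64 7 4 4 0 [(6, 0)]),
.rs (.part [32, 80, 136] [0, 0, 0] [7] []),
.rs (.part [10, 192, 53] [0, 1, 0] [] []),
.rs (.part [5, 168, 82] [0, 1, 0] [] []),
.rs (.le 1 144 128 7 1),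
.rs (.join 1 2 4 3 2 2 [(1, 1)]),
.rs (.part [17, 200, 38] [0, 1, 0] [] []),
.rs (.l2 1 3 34 1 1 1),
.rs (.part [5, 130, 64] [0, 0, 0] [56] []),
.rs (.ab2 2 129),
.rs (.ordE 2 4 1),
.rs (.part [14, 128, 113] [1, 0, 0] [] []),
.rs (.join 2 2 4 4 3 2 [(1, 1)]),
.degU 2 [(1, 2), (2, 3)],
.rs (.ab2 0 17),
.rs (.l2 1 17 48 4 1 1),
.rs (.lipl 2 82 118 2 36),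
.rs (.part [64, 133, 2] [0, 0, 0] [56] []),
.rs (.l2 1 130 132 7 1 1),
.rs (.join 1 2 2 2 2 0 [(1, 0)]),
.rs (.join 1 4 7 3 3 0 [(2, 0)]),
.rs (.ordE 1 2 2),
.rs (.join 1 4 4 3 2 1 [(2, 0)]),
.rs (.l2 1 6 18 1 1 1),
.rs (.le 1 17 1 0 1),
.rs (.le 0 132 128 7 1),
.rs (.ab 2 7),
.rs (.part [80, 8, 167] [0, 0, 1] [] []),
.rs (.join 1 1 2 3 2 2 [(0, 1)]),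
.rs (.part [73, 132, 50] [1, 0, 0] [] []),
.rs (.part [83, 136, 36] [1, 0, 0] [] []),
.rs (.l2 1 130 192 7 1 1),
.rs (.part [89, 160, 6] [1, 0, 0] [] []),
.rs (.join 2 4 6 4 1 3 [(2, 0)]),
.rs (.part [194, 25, 36] [1, 0, 0] [] []),
.rs (.lipl 2 84 117 1 33),
.rs (.part [2, 128, 125] [0, 0, 1] [] []),
.rs (.le 2 20 4 2 4),
.rs (.ab2 0 33),
.rs (.lip 2 184 191 7),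
.rs (.join 1 32 6 4 2 2 [(5, 0)]),
.rs (.join 1 8 7 3 2 1 [(3, 0)]),
.rs (.ab2 1 34),
.rs (.join 2 2 5 4 3 1 [(1, 0)]),
.rs (.lip 2 128 176 56),
.rs (.l2 1 132 144 7 2 1),
.rs (.ab2 2 18),
.rs (.hall [1] [0, 1, 2, 6]),
.rs (.part [9, 32, 214] [0, 0, 1] [] []),
.rs (.part [13, 160, 82] [1, 0, 0] [] []),
.rs (.l2 1 6 66 1 1 1),
.rs (.l2 1 12 68 2 2 1),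
.rs (.join 2 4 5 5 3 3 [(2, 1)]),
.rs (.join 2 2 5 2 1 1 [(1, 0)]),
.rs (.part [10, 16, 229] [0, 0, 1] [] []),
.rs (.part [32, 152, 64] [0, 0, 0] [7] []),
.rs (.join 2 2 3 5 3 2 [(1, 0)]),
.rs (.lip 2 96 99 7),
.rs (.part [6, 129, 64] [0, 0, 0] [56] []),
.rs (.join 1 2 4 3 2 1 [(1, 0)]),
.rs (.lipl 1 100 230 1 130),
.rs (.le 1 130 2 1 2),
.rs (.part [1, 134, 64] [0, 0, 0] [56] []),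
.rs (.le 1 20 16 4 2),
.rs (.mono 1 130 194 1),
.rs (.lip 0 3 51 56),
.degU 6 [(1, 2), (2, 4)],
.rs (.srt 0 4 0 3 1),
.rs (.deg 1 [2, 0, 1]),
.rs (.part [1, 130, 68] [0, 0, 0] [56] []),
.rs (.ab2 0 3),
.rs (.l2 0 65 72 6 1 1),
.rs (.ab 1 0),
.rs (.l2 1 12 36 2 1 1),
.rs (.lip 2 66 106 56),
.rs (.l2 2 18 80 4 2 3),
.rs (.part [88, 131, 36] [1, 0, 0] [] []),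
.rs (.join 2 2 7 3 2 2 [(1, 1)]),
.rs (.part [1, 192, 6] [0, 0, 0] [56] []),
.rs (.part [18, 196, 41] [0, 1, 0] [] []),
.rs (.part [8, 23, 224] [0, 1, 0] [] []),
.rs (.l2 1 6 18 1 1 2),
.rs (.join 1 4 4 2 2 0 [(2, 0)]),
.rs (.l2 2 3 34 1 2 1),
.rs (.join 2 4 5 4 3 2 [(2, 1)]),
.rs (.part [32, 24, 192] [0, 0, 0] [7] []),
.rs (.lipl 2 98 118 2 20),
.rs (.lipl 0 17 51 1 34),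
.rs (.l2 0 65 80 6 1 1),
.rs (.part [29, 98, 128] [1, 0, 0] [] []),
.rs (.lipl 1 128 196 1 68),
.rs (.part [96, 8, 151] [0, 0, 1] [] []),
.rs (.join 1 2 6 4 2 3 [(1, 1)]),
.rs (.part [5, 66, 184] [0, 0, 1] [] []),
.rs (.part [34, 128, 93] [0, 0, 1] [] []),
.rs (.part [33, 146, 76] [0, 1, 0] [] []),
.rs (.lipl 2 192 226 2 34),
.degU 4 [(2, 5)],
.rs (.lipl 1 36 116 1 80),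
.rs (.join 2 2 2 3 2 2 [(1, 1)]),
.rs (.join 1 1 6 2 1 1 [(0, 0)]),
.rs (.lipl 2 23 183 1 160),
.rs (.part [9, 182, 64] [0, 1, 0] [] []),
.rs (.mono 1 34 42 1),
.rs (.part [2, 161, 92] [0, 0, 1] [] []),
.rs (.part [64, 40, 144] [0, 0, 0] [7] []),
.rs (.lipl 2 68 86 2 18),
.rs (.lip 1 8 15 7),
.rs (.lip 1 144 151 7),
.rs (.lip 2 68 108 56),
.rs (.lip 2 144 151 7),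
.rs (.lipl 1 132 198 0 66),
.rs (.join 2 2 6 2 1 1 [(1, 0)]),
.rs (.le 1 130 128 7 1),
.rs (.ab 2 4),
.rs (.join 2 16 6 4 3 3 [(4, 2)]),
.rs (.l2 2 18 34 1 2 1),
.rs (.le 2 34 2 1 3),
.rs (.part [2, 65, 132] [0, 0, 0] [56] []),
.rs (.join 1 8 6 4 2 2 [(3, 0)]),
.rs (.lip 1 128 133 7),
.rs (.join 2 4 6 4 3 3 [(2, 2)]),
.rs (.lipl 2 50 182 1 132),
.rs (.lipl 2 34 114 2 80),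
.rs (.join 2 4 5 5 4 1 [(2, 0)]),
.rs (.lip 0 32 37 7),
.rs (.mono 1 32 160 1),
.rs (.un 1 1),
.rs (.join 2 4 5 4 2 2 [(2, 0)]),
.rs (.l2 2 66 72 6 3 1),
.rs (.part [55, 128, 72] [1, 0, 0] [] []),
.rs (.part [79, 160, 16] [1, 0, 0] [] []),
.rs (.part [41, 130, 84] [1, 0, 0] [] []),
.rs (.part [9, 194, 52] [0, 1, 0] [] []),
.rs (.part [32, 95, 128] [0, 1, 0] [] []),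
.rs (.lipl 2 130 150 1 20),
.rs (.lipl 1 164 230 1 66),
.rs (.join 0 96 7 2 2 0 [(5, 0), (6, 0)]),
.rs (.lipl 1 98 242 1 144),
.rs (.part [75, 164, 16] [1, 0, 0] [] []),
.rs (.part [3, 60, 192] [0, 1, 0] [] []),
.rs (.part [4, 65, 130] [0, 0, 0] [56] []),
.rs (.slot 0 [(3, 2), (4, 1), (5, 1), (0, 2), (1, 2), (2, 1), (6, 1)]),
.rs (.part [9, 112, 134] [0, 1, 0] [] []),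
.rs (.l2 1 72 80 6 1 1),
.rs (.join 1 64 7 2 0 2 [(6, 0)]),
.rs (.part [64, 6, 129] [0, 0, 0] [56] []),
.rs (.part [1, 54, 200] [0, 1, 0] [] []),
.rs (.lipl 0 10 75 1 65),
.rs (.mono 1 4 20 1),
.rs (.part [48, 192, 8] [0, 0, 0] [7] []),
.rs (.join 2 4 4 5 4 3 [(2, 2)]),
.rs (.part [18, 128, 109] [0, 0, 1] [] []),
.rs (.mono 2 192 196 1),
.rs (.part [10, 129, 116] [0, 0, 1] [] []),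
.rs (.deg 5 [1, 1, 1]),
.rs (.part [25, 68, 162] [1, 0, 0] [] []),
.rs (.deg 7 [0, 1, 3]),
.rs (.part [10, 145, 100] [0, 0, 1] [] []),
.degU 1 [(0, 1), (2, 4)],
.rs (.part [68, 1, 186] [0, 0, 1] [] []),
.rs (.ab 0 5),
.rs (.join 1 16 6 3 2 1 [(4, 0)]),
.rs (.join 2 2 7 3 2 1 [(1, 0)]),
.rs (.deg 0 [2, 1, 0]),
.rs (.l2 1 18 66 1 1 1),
.rs (.part [77, 162, 16] [1, 0, 0] [] []),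
.rs (.join 2 2 6 4 2 3 [(1, 1)]),
.rs (.part [1, 192, 62] [0, 0, 1] [] []),
.rs (.mono 2 6 22 1),
.rs (.lipl 2 6 102 0 96),
.rs (.join 2 32 6 4 1 3 [(5, 0)]),
.rs (.l2 2 20 36 2 1 2),
.rs (.ab 1 4),
.rs (.join 2 16 6 4 2 4 [(4, 2)]),
.rs (.lipl 2 224 244 2 20),
.rs (.ab2 0 80),
.rs (.lip 2 6 62 56),
.rs (.join 1 2 5 3 1 2 [(1, 0)]),
.rs (.part [2, 192, 61] [0, 0, 1] [] []),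
.rs (.join 1 8 5 4 3 2 [(3, 1)]),
.rs (.le 1 18 2 1 1),
.rs (.part [89, 128, 38] [1, 0, 0] [] []),
.rs (.l2 2 36 68 2 2 2),
.rs (.lipl 2 22 31 0 9),
.rs (.join 2 2 2 4 3 2 [(1, 1)]),
.rs (.lipl 0 1 69 1 68),
.rs (.join 1 2 7 3 2 3 [(1, 2)]),
.rs (.l2 1 65 68 6 1 1),
.rs (.part [9, 160, 22] [0, 0, 0] [64] []),
.rs (.join 1 4 5 3 1 3 [(2, 1)]),
.rs (.part [64, 128, 7] [0, 0, 0] [56] []),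
.rs (.l2 2 36 48 5 3 1),
.rs (.part [1, 128, 126] [0, 0, 1] [] []),
.rs (.part [80, 39, 136] [0, 1, 0] [] []),
.rs (.lip 0 5 61 56),
.rs (.join 1 1 4 3 0 3 [(0, 0)]),
.rs (.part [17, 132, 106] [0, 0, 1] [] []),
.rs (.l2 1 6 20 2 1 2),
.rs (.lipl 2 66 86 1 20),
.rs (.lipl 1 36 102 0 66),
.rs (.mono 1 144 208 1),
.rs (.part [17, 96, 142] [0, 0, 1] [] []),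
.rs (.join 0 80 7 2 2 0 [(4, 0), (6, 0)]),
.rs (.lipl 2 160 240 2 80),
.rs (.ab2 2 3),
.rs (.lipl 0 64 73 2 9),
.rs (.join 2 2 7 4 1 3 [(1, 0)]),
.rs (.l2 1 130 160 7 1 1),
.rs (.part [75, 148, 32] [1, 0, 0] [] []),
.rs (.part [39, 128, 88] [1, 0, 0] [] []),
.rs (.join 1 80 7 2 2 0 [(4, 0), (6, 0)]),
.rs (.join 2 2 5 4 3 4 [(1, 3)]),
.rs (.lip 2 48 55 7),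
.rs (.l2 2 6 36 2 1 2),
.rs (.part [17, 192, 46] [0, 0, 1] [] []),
.rs (.lipl 0 10 90 1 80),
.rs (.lip 1 136 143 7),
.rs (.join 1 8 5 2 1 1 [(3, 0)]),
.rs (.lipl 2 76 109 0 33),
.rs (.part [16, 128, 111] [0, 0, 1] [] []),
.rs (.lipl 2 161 229 1 68),
.rs (.join 2 4 5 3 2 1 [(2, 0)]),
.rs (.join 2 32 7 3 1 2 [(5, 0)]),
.rs (.join 1 68 7 2 2 0 [(2, 0), (6, 0)]),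
.rs (.part [17, 138, 100] [0, 1, 0] [] []),
.rs (.lipl 2 51 119 1 68),
.rs (.lipl 0 9 27 1 18),
.rs (.lipl 1 96 114 0 18),
.rs (.join 1 4 4 4 3 2 [(2, 1)]),
.rs (.ab2 0 18),
.rs (.join 1 2 2 3 1 2 [(1, 0)]),
.rs (.le 0 144 128 7 1),
.rs (.lipl 0 18 51 0 33),
.rs (.part [73, 128, 54] [1, 0, 0] [] []),
.rs (.part [8, 48, 192] [0, 0, 0] [7] []),
.rs (.l2 2 6 36 2 1 3),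
.rs (.mono 1 128 129 1),
.rs (.join 1 1 1 4 2 2 [(0, 0)]),
.rs (.join 1 1 2 2 0 2 [(0, 0)]),
.rs (.part [27, 196, 32] [1, 0, 0] [] []),
.rs (.deg 7 [0, 2, 2]),
.rs (.lipl 2 164 230 2 66),
.rs (.join 1 4 4 3 0 3 [(2, 0)]),
.rs (.join 1 64 7 4 3 1 [(6, 0)]),
.rs (.part [19, 128, 108] [1, 0, 0] [] []),
.rs (.l2 0 10 66 1 1 1),
.rs (.join 2 16 6 5 2 3 [(4, 0)]),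
.rs (.lip 1 66 122 56),
.rs (.part [64, 131, 60] [0, 1, 0] [] []),
.rs (.part [68, 185, 2] [0, 1, 0] [] []),
.rs (.join 1 16 7 2 1 1 [(4, 0)]),
.rs (.slot 0 [(3, 4), (4, 1), (0, 4), (6, 1)]),
.rs (.part [9, 112, 134] [0, 0, 1] [] []),
.rs (.lipl 2 224 242 2 18),
.rs (.l2 2 132 160 7 1 2),
.rs (.lipl 2 20 86 1 66),
.rs (.deg 4 [2, 0, 1]),
.rs (.mono 1 65 97 1),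
.rs (.hall [1] [0, 1, 2, 7]),
.rs (.un 2 6),
.rs (.join 2 4 6 2 0 2 [(2, 0)]),
.rs (.part [17, 136, 102] [0, 0, 1] [] []),
.rs (.part [17, 10, 192] [0, 0, 0] [] [(2, 36)]),
.rs (.mono 2 2 130 1),
.rs (.le 2 6 2 1 1),
.rs (.part [9, 178, 68] [0, 1, 0] [] []),
.rs (.join 0 4 6 2 1 1 [(2, 0)]),
.rs (.deg 6 [3, 1, 0]),
.rs (.part [3, 132, 64] [0, 0, 0] [56] []),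
.rs (.part [81, 138, 36] [1, 0, 0] [] []),
.rs (.le 1 65 64 6 3),
.rs (.ordE 2 32 2),
.rs (.lip 1 112 119 7),
.rs (.lipl 2 160 178 2 18),
.rs (.ab2 0 12),
.rs (.mono 1 66 74 1),
.rs (.part [12, 192, 51] [0, 1, 0] [] []),
.rs (.join 0 32 6 2 1 1 [(5, 0)]),
.rs (.un 0 1),
.rs (.part [15, 160, 80] [1, 0, 0] [] []),
.rs (.l2 1 72 96 6 1 1),
.rs (.part [9, 36, 192] [0, 0, 0] [] [(0, 18)]),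
.rs (.part [9, 240, 6] [0, 1, 0] [] []),
.rs (.join 2 4 3 4 3 2 [(2, 1)]),
.rs (.lipl 2 30 126 1 96),
.rs (.lipl 2 160 228 1 68),
.rs (.lipl 2 37 47 2 10),
.rs (.lip 1 64 192 128),
.rs (.part [57, 134, 64] [1, 0, 0] [] []),
.rs (.l2 1 65 72 6 1 1),
.rs (.join 2 1 6 4 2 2 [(0, 0)]),
.rs (.join 2 1 1 3 1 2 [(0, 0)]),
.degU 1 [(0, 2), (1, 1), (2, 2)],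
.rs (.deg 2 [0, 3, 0]),
.rs (.un 0 5),
.degU 4 [(0, 1), (2, 4)],
.rs (.join 1 1 3 2 1 1 [(0, 0)]),
.rs (.join 1 1 6 3 3 2 [(0, 2)]),
.rs (.le 2 68 4 2 1),
.rs (.lipl 2 164 229 2 65),
.rs (.part [9, 230, 16] [0, 1, 0] [] []),
.rs (.part [17, 14, 160] [0, 0, 0] [64] []),
.rs (.l2 1 20 24 4 1 1),
.rs (.part [9, 6, 240] [0, 0, 1] [] []),
.rs (.part [6, 97, 128] [0, 0, 0] [24] []),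
.degU 1 [(0, 2), (2, 3)],
.rs (.part [34, 64, 157] [0, 0, 1] [] []),
.rs (.l2 0 68 80 6 1 1),
.rs (.part [17, 76, 162] [0, 0, 1] [] []),
.rs (.ab2 1 24),
.rs (.join 0 4 4 2 1 1 [(2, 0)]),
.rs (.lipl 2 162 182 1 20),
.rs (.join 2 1 2 3 1 2 [(0, 0)]),
.rs (.join 2 4 6 4 3 2 [(2, 1)]),
.rs (.join 2 1 3 5 3 2 [(0, 0)]),
.rs (.part [73, 148, 34] [1, 0, 0] [] []),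
.rs (.lipl 2 14 31 0 17),
.rs (.mono 1 128 136 1),
.rs (.lipl 1 80 114 2 34),
.rs (.slot 0 [(0, 4), (1, 1), (3, 4), (6, 1)]),
.rs (.join 1 2 2 2 1 1 [(1, 0)]),
.rs (.part [65, 58, 132] [0, 1, 0] [] []),
.rs (.part [89, 130, 36] [1, 0, 0] [] []),
.rs (.lipl 1 36 116 0 80),
.rs (.join 1 1 2 3 2 1 [(0, 0)]),
.rs (.join 1 4 7 3 2 2 [(2, 1)]),
.rs (.part [80, 131, 44] [0, 1, 0] [] []),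
.rs (.lipl 0 16 81 2 65),
.rs (.lipl 2 34 226 2 192),
.rs (.slot 0 [(3, 1), (4, 1), (5, 1), (0, 2), (1, 2), (2, 2), (6, 1)]),
.rs (.part [16, 168, 64] [0, 0, 0] [7] []),
.rs (.l2 1 34 48 5 1 1),
.rs (.part [65, 62, 128] [0, 1, 0] [] []),
.rs (.part [80, 47, 128] [0, 1, 0] [] []),
.rs (.join 1 32 7 3 2 2 [(5, 1)]),
.rs (.l2 1 3 18 1 1 1),
.rs (.join 2 2 6 3 2 1 [(1, 0)]),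
.rs (.lip 1 3 59 56),
.rs (.lipl 2 98 115 2 17),
.rs (.part [80, 2, 173] [0, 0, 1] [] []),
.rs (.hall [1] [0, 1, 6, 7]),
.rs (.lip 1 20 84 64),
.rs (.l2 1 18 20 4 1 1),
.rs (.lipl 0 9 29 1 20),
.rs (.join 1 2 5 3 2 1 [(1, 0)]),
.rs (.mono 1 17 21 1),
.rs (.lipl 2 66 102 2 36),
.rs (.lipl 2 164 182 2 18),
.rs (.join 1 1 1 4 2 3 [(0, 1)]),
.rs (.lipl 1 128 140 1 12),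
.rs (.lipl 2 34 102 2 68),
.degU 6 [(1, 3), (2, 3)],
.rs (.part [24, 160, 64] [0, 0, 0] [7] []),
.rs (.lipl 0 8 74 1 66),
.rs (.deg 1 [0, 1, 2]),
.rs (.mono 1 68 69 1),
.rs (.join 1 4 6 4 1 4 [(2, 1)]),
.rs (.lipl 2 60 189 1 129),
.rs (.mono 2 2 6 1),
.rs (.lip 2 72 79 7),
.rs (.l2 2 65 80 6 2 1),
.rs (.ordE 0 128 1),
.rs (.l2 2 6 66 1 1 1),
.rs (.lipl 2 6 86 0 80),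
.rs (.part [33, 146, 76] [0, 0, 1] [] []),
.rs (.part [64, 8, 183] [0, 0, 1] [] []),
.rs (.lipl 1 128 208 0 80),
.rs (.part [17, 12, 226] [0, 0, 1] [] []),
.rs (.join 2 4 5 4 4 3 [(2, 3)]),
.rs (.lipl 1 128 193 0 65),
.rs (.le 1 66 2 1 2),
.degU 4 [(0, 1), (1, 1), (2, 3)],
.rs (.l2 1 6 18 1 2 1),
.rs (.part [17, 128, 110] [0, 0, 1] [] []),
.rs (.join 2 4 3 4 3 3 [(2, 2)]),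
.rs (.join 1 2 5 3 3 0 [(1, 0)]),
.rs (.join 1 2 3 2 0 2 [(1, 0)]),
.rs (.ab2 0 68),
.rs (.ab2 2 144),
.rs (.lip 1 128 192 64),
.rs (.join 2 4 3 5 3 2 [(2, 0)]),
.rs (.l2 1 33 129 0 1 1),
.rs (.ab2 0 40),
.rs (.lipl 2 39 175 1 136),
.rs (.join 0 2 4 2 1 1 [(1, 0)]),
.rs (.lipl 2 34 46 1 12),
.rs (.lipl 2 50 62 1 12),
.rs (.part [9, 34, 192] [0, 0, 0] [] [(2, 20)]),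
.rs (.part [72, 1, 182] [0, 0, 1] [] []),
.rs (.part [105, 144, 6] [1, 0, 0] [] []),
.rs (.part [9, 128, 118] [0, 0, 1] [] []),
.rs (.ordE 1 64 2),
.rs (.join 1 32 6 4 0 4 [(5, 0)]),
.rs (.lipl 2 48 116 1 68),
.rs (.lip 2 132 148 16),
.rs (.join 2 4 4 5 2 3 [(2, 0)]),
.rs (.mono 1 32 96 1),
.rs (.join 1 1 6 3 1 2 [(0, 0)]),
.rs (.join 1 4 6 4 0 4 [(2, 0)]),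
.rs (.join 1 2 5 2 0 2 [(1, 0)]),
.rs (.part [66, 160, 29] [0, 1, 0] [] []),
.rs (.lipl 1 128 224 1 96),
.rs (.join 1 8 6 4 2 3 [(3, 1)]),
.rs (.l2 2 34 66 1 2 2),
.rs (.lipl 2 84 117 2 33),
.rs (.l2 1 6 68 2 1 1),
.rs (.ab2 0 10),
.rs (.lip 0 16 22 7),
.rs (.mono 0 2 66 1),
.rs (.lipl 1 128 224 0 96),
.rs (.lipl 1 128 194 1 66),
.rs (.part [10, 17, 192] [0, 0, 0] [] [(2, 36)]),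
.rs (.lipl 0 8 74 2 66),
.rs (.ab2 1 80),
.rs (.part [10, 193, 52] [0, 1, 0] [] []),
.rs (.l2 2 3 34 1 1 2),
.rs (.l2 1 40 96 5 1 1),
.rs (.lipl 2 43 111 1 68),
.rs (.mono 0 2 10 1),
.rs (.part [120, 132, 3] [1, 0, 0] [] []),
.rs (.join 1 4 4 3 1 3 [(2, 1)]),
.rs (.join 2 4 6 4 2 4 [(2, 2)]),
.rs (.join 1 8 5 3 2 2 [(3, 1)]),
.rs (.join 2 2 4 4 3 4 [(1, 3)]),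
.rs (.join 2 1 2 4 3 2 [(0, 1)]),
.rs (.join 2 4 5 4 1 3 [(2, 0)]),
.rs (.l2 1 12 20 2 2 1),
.rs (.join 1 1 6 3 2 2 [(0, 1)]),
.rs (.part [2, 132, 65] [0, 0, 0] [56] []),
.rs (.join 2 1 2 5 3 3 [(0, 1)]),
.rs (.lipl 2 36 54 1 18),
.rs (.srt 0 3 0 0 2),
.rs (.part [64, 168, 16] [0, 0, 0] [7] []),
.rs (.mono 0 16 80 1),
.rs (.lip 0 8 13 7),
.rs (.l2 2 130 160 7 2 1),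
.rs (.part [8, 148, 99] [0, 0, 1] [] []),
.rs (.part [72, 133, 50] [0, 1, 0] [] []),
.rs (.l2 0 68 72 6 1 1),
.rs (.part [96, 143, 16] [0, 1, 0] [] []),
.rs (.deg 2 [2, 0, 1]),
.rs (.join 1 32 6 3 1 2 [(5, 0)]),
.rs (.lip 0 5 29 56),
.rs (.lip 0 1 41 56),
.rs (.lip 2 152 159 7),
.rs (.join 2 2 3 2 1 1 [(1, 0)]),
.rs (.un 1 0),
.rs (.part [73, 36, 146] [1, 0, 0] [] []),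
.rs (.join 2 2 6 4 3 3 [(1, 2)]),
.rs (.join 1 2 2 4 2 3 [(1, 1)]),
.rs (.srt 0 3 0 0 1),
.rs (.mono 1 68 84 1),
.rs (.join 2 1 6 4 3 4 [(0, 3)]),
.rs (.lipl 2 82 118 1 36),
.rs (.mono 1 2 34 1),
.rs (.mono 1 128 192 1),
.rs (.lipl 2 20 86 2 66),
.rs (.part [72, 39, 144] [0, 1, 0] [] []),
.rs (.part [17, 36, 192] [0, 0, 0] [] [(2, 10)]),
.rs (.lip 2 65 121 56),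
.rs (.part [8, 164, 83] [0, 0, 1] [] []),
.rs (.lipl 2 22 118 1 96),
.rs (.part [27, 164, 64] [1, 0, 0] [] []),
.rs (.lipl 2 84 94 2 10),
.rs (.join 2 1 2 4 2 2 [(0, 0)]),
.rs (.lipl 2 48 178 1 130),
.rs (.mono 0 4 20 1),
.rs (.lipl 2 18 86 2 68),
.rs (.join 1 4 7 2 1 1 [(2, 0)]),
.rs (.le 1 34 2 1 3),
.rs (.join 1 1 5 2 1 1 [(0, 0)]),
.rs (.ordE 1 32 2),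
.rs (.join 2 32 7 2 0 2 [(5, 0)]),
.rs (.join 2 2 4 5 3 2 [(1, 0)]),
.rs (.deg 1 [0, 0, 3]),
.rs (.ordE 0 128 3),
.rs (.mono 1 160 162 1),
.rs (.mono 1 136 168 1),
.rs (.part [80, 15, 160] [0, 1, 0] [] []),
.rs (.deg 1 [1, 1, 1]),
.rs (.lipl 2 36 228 1 192),
.rs (.mono 0 4 6 1),
.rs (.l2 1 34 96 5 2 1),
.rs (.lip 1 16 23 7),
.rs (.lip 0 3 27 56),
.rs (.join 2 2 4 4 4 3 [(1, 3)]),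
.rs (.part [33, 76, 146] [0, 1, 0] [] []),
.rs (.le 1 33 32 5 1),
.rs (.part [10, 128, 117] [0, 0, 1] [] []),
.rs (.join 2 4 4 4 4 3 [(2, 3)]),
.rs (.le 2 18 16 4 4),
.rs (.l2 0 6 66 1 1 1),
.rs (.le 2 130 2 1 4),
.rs (.part [80, 32, 143] [0, 0, 1] [] []),
.rs (.lip 1 128 160 32),
.rs (.l2 1 24 80 4 1 1),
.rs (.part [2, 60, 193] [0, 1, 0] [] []),
.rs (.part [17, 36, 192] [0, 0, 0] [] [(0, 10)]),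
.rs (.join 1 6 7 2 2 0 [(1, 0), (2, 0)]),
.rs (.mono 1 128 132 1),
.rs (.part [61, 64, 130] [1, 0, 0] [] []),
.rs (.join 1 1 4 2 1 1 [(0, 0)]),
.rs (.part [66, 145, 44] [0, 1, 0] [] []),
.rs (.part [51, 128, 76] [1, 0, 0] [] []),
.rs (.slot 0 [(2, 2), (0, 3), (1, 3), (3, 1), (4, 1)]),
.rs (.part [17, 8, 230] [0, 0, 1] [] []),
.rs (.part [66, 4, 185] [0, 0, 1] [] []),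
.rs (.ab2 1 68),
.rs (.ab2 1 160),
.rs (.lipl 0 1 73 2 72),
.rs (.join 1 32 6 2 0 2 [(5, 0)]),
.rs (.part [17, 72, 166] [0, 0, 1] [] []),
.rs (.join 2 4 4 4 3 4 [(2, 3)]),
.rs (.part [4, 123, 128] [0, 1, 0] [] []),
.rs (.le 2 132 4 2 2),
.rs (.join 2 16 7 2 1 1 [(4, 0)]),
.rs (.part [24, 192, 32] [0, 0, 0] [7] []),
.rs (.join 2 8 4 4 3 2 [(3, 1)]),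
.rs (.ordE 2 16 2),
.rs (.deg 5 [0, 2, 1]),
.rs (.lipl 2 45 111 1 66),
.rs (.join 2 4 5 4 3 1 [(2, 0)]),
.rs (.part [80, 1, 174] [0, 0, 1] [] []),
.rs (.lipl 2 34 99 1 65),
.rs (.part [4, 57, 194] [0, 1, 0] [] []),
.rs (.part [17, 196, 42] [0, 1, 0] [] []),
.rs (.mono 1 130 138 1),
.rs (.join 1 1 6 4 1 4 [(0, 1)]),
.rs (.join 2 16 6 4 1 3 [(4, 0)]),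
.rs (.lipl 2 160 178 1 18)]

noncomputable def gv : List Gv := [
.cap6,
.low [1, 0, 0, 1, 0, 0],
.cap7]

noncomputable def gads : List Gt := [
⟨0, [⟨34, 2, []⟩, ⟨1, 2, []⟩], [3, 3, 3], 1, [(3, 1), (33, 1)]⟩,
⟨2, [⟨32, 2, []⟩, ⟨16, 4, []⟩, ⟨2, 3, []⟩, ⟨4, 3, []⟩, ⟨64, 3, []⟩], [3, 17, 17, 12, 12], 2, [(22, 1), (70, 1), (112, 1), (118, 2)]⟩,
⟨1, [⟨2, 2, []⟩, ⟨48, 2, []⟩], [3, 3, 3], 1, [(18, 1), (34, 1)]⟩,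
⟨0, [⟨17, 2, []⟩, ⟨72, 2, []⟩], [3, 3, 3], 1, [(9, 1), (24, 1), (65, 1), (80, 1)]⟩,
⟨2, [⟨5, 5, []⟩, ⟨32, 3, []⟩, ⟨128, 5, []⟩], [2, 2], 1, [(161, 1), (164, 1)]⟩,
⟨2, [⟨2, 2, []⟩, ⟨4, 2, []⟩, ⟨32, 2, []⟩, ⟨128, 2, []⟩], [3, 3, 3, 12, 12, 12], 2, [(6, 1), (160, 1), (166, 2)]⟩,
⟨1, [⟨18, 3, []⟩, ⟨68, 3, []⟩, ⟨128, 4, []⟩], [7, 3], 1, [(134, 1), (148, 1), (194, 1), (208, 1)]⟩,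
⟨2, [⟨1, 3, []⟩, ⟨4, 4, []⟩, ⟨16, 3, []⟩, ⟨32, 4, []⟩, ⟨64, 3, []⟩], [3, 5, 12, 16, 16], 2, [(53, 1), (69, 1), (100, 1), (112, 1), (117, 2)]⟩,
⟨2, [⟨1, 3, []⟩, ⟨2, 3, []⟩], [3, 3], 1, [(3, 1)]⟩,
⟨1, [⟨26, 3, []⟩, ⟨32, 3, []⟩, ⟨64, 4, []⟩], [7, 3], 1, [(98, 1), (104, 1), (112, 1)]⟩,
⟨0, [⟨5, 2, []⟩, ⟨24, 2, []⟩], [3, 3, 3], 1, [(9, 1), (12, 1), (17, 1), (20, 1)]⟩,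
⟨2, [⟨66, 4, []⟩, ⟨0, 0, [(48, 2)]⟩], [3, 2, 2], 1, [(50, 1), (112, 1)]⟩,
⟨1, [⟨32, 4, []⟩, ⟨80, 3, []⟩, ⟨128, 3, []⟩], [7, 6], 1, [(176, 1), (224, 1)]⟩,
⟨1, [⟨2, 2, []⟩, ⟨4, 2, []⟩, ⟨16, 1, []⟩, ⟨64, 5, []⟩], [3, 3, 3, 4, 4, 4, 4], 2, [(70, 1), (80, 1), (86, 2)]⟩,
⟨2, [⟨16, 2, []⟩, ⟨32, 2, []⟩, ⟨1, 3, []⟩, ⟨4, 3, []⟩, ⟨128, 5, []⟩], [3, 3, 3, 12, 12], 2, [(133, 1), (176, 1), (181, 2)]⟩,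
⟨1, [⟨2, 3, []⟩, ⟨4, 3, []⟩, ⟨128, 4, []⟩], [7, 3], 1, [(134, 1)]⟩,
⟨2, [⟨32, 2, []⟩, ⟨16, 4, []⟩], [3, 1, 1], 1, [(48, 1)]⟩,
⟨2, [⟨18, 4, []⟩, ⟨128, 2, []⟩], [3, 2, 2], 1, [(130, 1), (144, 1)]⟩,
⟨1, [⟨2, 3, []⟩, ⟨4, 4, []⟩, ⟨128, 3, []⟩], [7, 5], 1, [(134, 1)]⟩,
⟨1, [⟨80, 4, []⟩, ⟨32, 3, []⟩, ⟨128, 3, []⟩], [7, 6], 1, [(176, 1), (224, 1)]⟩,
⟨0, [⟨66, 2, []⟩, ⟨40, 2, []⟩], [3, 3, 3], 1, [(10, 1), (34, 1), (72, 1), (96, 1)]⟩,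
⟨2, [⟨4, 3, []⟩, ⟨72, 3, []⟩], [3, 3], 1, [(12, 1), (68, 1)]⟩,
⟨2, [⟨96, 4, []⟩, ⟨128, 2, []⟩], [3, 2, 2], 1, [(160, 1), (192, 1)]⟩,
⟨2, [⟨8, 3, []⟩, ⟨32, 3, []⟩, ⟨2, 4, []⟩, ⟨4, 4, []⟩, ⟨64, 3, []⟩], [3, 3, 12, 16, 16], 2, [(46, 1), (70, 1), (104, 1), (110, 2)]⟩,
⟨1, [⟨12, 2, []⟩, ⟨128, 2, []⟩], [3, 3, 3], 1, [(132, 1), (136, 1)]⟩,
⟨2, [⟨3, 4, []⟩, ⟨64, 4, []⟩, ⟨128, 4, []⟩], [7], 1, [(193, 1), (194, 1)]⟩,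
⟨1, [⟨130, 3, []⟩, ⟨4, 3, []⟩, ⟨64, 4, []⟩], [7, 3], 1, [(70, 1), (196, 1)]⟩,
⟨2, [⟨96, 2, []⟩, ⟨128, 4, []⟩], [3, 1, 1], 1, [(160, 1), (192, 1)]⟩,
⟨2, [⟨1, 2, []⟩, ⟨192, 4, []⟩], [3, 1, 1], 1, [(65, 1), (129, 1)]⟩,
⟨2, [⟨8, 2, []⟩, ⟨64, 4, []⟩], [3, 1, 1], 1, [(72, 1)]⟩,
⟨1, [⟨82, 3, []⟩, ⟨4, 3, []⟩, ⟨128, 4, []⟩], [7, 3], 1, [(134, 1), (148, 1), (196, 1)]⟩,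
⟨1, [⟨6, 2, []⟩, ⟨64, 4, []⟩], [3, 1, 1], 1, [(66, 1), (68, 1)]⟩,
⟨1, [⟨3, 2, []⟩, ⟨64, 4, []⟩], [3, 1, 1], 1, [(65, 1), (66, 1)]⟩,
⟨2, [⟨80, 4, []⟩, ⟨2, 2, []⟩], [3, 2, 2], 1, [(18, 1), (66, 1)]⟩,
⟨2, [⟨24, 4, []⟩, ⟨64, 4, []⟩, ⟨128, 4, []⟩], [7], 1, [(200, 1), (208, 1)]⟩,
⟨1, [⟨18, 3, []⟩, ⟨4, 3, []⟩, ⟨64, 4, []⟩], [7, 3], 1, [(70, 1), (84, 1)]⟩,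
⟨2, [⟨0, 0, [(72, 3)]⟩, ⟨16, 3, []⟩], [3, 3], 1, [(88, 1)]⟩,
⟨2, [⟨2, 3, []⟩, ⟨4, 2, []⟩, ⟨16, 3, []⟩, ⟨32, 3, []⟩, ⟨64, 4, []⟩], [3, 3, 10, 12, 20], 2, [(38, 1), (70, 1), (82, 1), (112, 1), (118, 2)]⟩,
⟨2, [⟨36, 4, []⟩, ⟨64, 4, []⟩, ⟨128, 4, []⟩], [7], 1, [(196, 1), (224, 1)]⟩,
⟨1, [⟨32, 2, []⟩, ⟨0, 0, [(20, 2)]⟩], [3, 3, 3], 1, [(52, 1)]⟩,
⟨1, [⟨17, 3, []⟩, ⟨64, 4, []⟩, ⟨128, 3, []⟩], [7, 5], 1, [(193, 1), (208, 1)]⟩,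
⟨2, [⟨36, 2, []⟩, ⟨64, 4, []⟩], [3, 1, 1], 1, [(68, 1), (96, 1)]⟩,
⟨1, [⟨34, 2, []⟩, ⟨5, 2, []⟩], [3, 3, 3], 1, [(3, 1), (6, 1), (33, 1), (36, 1)]⟩,
⟨1, [⟨66, 4, []⟩, ⟨0, 0, [(24, 2)]⟩], [3, 2, 2], 1, [(26, 1), (88, 1)]⟩,
⟨1, [⟨2, 2, []⟩, ⟨4, 2, []⟩, ⟨32, 1, []⟩, ⟨64, 5, []⟩], [3, 3, 3, 4, 4, 4, 4], 2, [(70, 1), (96, 1), (102, 2)]⟩,
⟨2, [⟨2, 2, []⟩, ⟨4, 2, []⟩, ⟨8, 3, []⟩, ⟨32, 3, []⟩, ⟨64, 5, []⟩], [3, 3, 3, 12, 12], 2, [(70, 1), (104, 1), (110, 2)]⟩,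
⟨2, [⟨34, 5, []⟩, ⟨4, 3, []⟩, ⟨64, 5, []⟩], [2, 2], 1, [(70, 1), (100, 1)]⟩,
⟨2, [⟨20, 4, []⟩, ⟨32, 4, []⟩, ⟨128, 4, []⟩], [7], 1, [(164, 1), (176, 1)]⟩,
⟨2, [⟨24, 3, []⟩, ⟨32, 3, []⟩, ⟨0, 0, [(3, 2)]⟩, ⟨4, 2, []⟩, ⟨128, 5, []⟩], [3, 3, 12, 12, 12], 2, [(135, 1), (168, 1), (175, 2), (176, 1), (183, 2)]⟩,
⟨2, [⟨2, 2, []⟩, ⟨4, 2, []⟩, ⟨24, 3, []⟩, ⟨32, 3, []⟩, ⟨128, 5, []⟩], [3, 3, 3, 12, 12], 2, [(134, 1), (168, 1), (174, 2), (176, 1), (182, 2)]⟩,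
⟨2, [⟨32, 2, []⟩, ⟨128, 4, []⟩], [3, 1, 1], 1, [(160, 1)]⟩,
⟨1, [⟨36, 2, []⟩, ⟨65, 2, []⟩], [3, 3, 3], 1, [(5, 1), (33, 1), (68, 1), (96, 1)]⟩,
⟨2, [⟨18, 4, []⟩, ⟨33, 4, []⟩, ⟨4, 4, []⟩], [7], 1, [(7, 1), (21, 1), (38, 1), (52, 1)]⟩,
⟨2, [⟨33, 4, []⟩, ⟨64, 4, []⟩, ⟨128, 4, []⟩], [7], 1, [(193, 1), (224, 1)]⟩,
⟨2, [⟨2, 2, []⟩, ⟨4, 2, []⟩, ⟨40, 3, []⟩, ⟨16, 3, []⟩, ⟨128, 5, []⟩], [3, 3, 3, 12, 12], 2, [(134, 1), (152, 1), (158, 2), (176, 1), (182, 2)]⟩,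
⟨2, [⟨68, 4, []⟩, ⟨128, 2, []⟩], [3, 2, 2], 1, [(132, 1), (192, 1)]⟩,
⟨2, [⟨18, 5, []⟩, ⟨1, 3, []⟩, ⟨128, 5, []⟩], [2, 2], 1, [(131, 1), (145, 1)]⟩,
⟨2, [⟨24, 4, []⟩, ⟨32, 4, []⟩, ⟨64, 4, []⟩], [7], 1, [(104, 1), (112, 1)]⟩,
⟨2, [⟨0, 0, [(20, 3)]⟩, ⟨8, 3, []⟩], [3, 3], 1, [(28, 1)]⟩,
⟨1, [⟨2, 2, []⟩, ⟨8, 2, []⟩], [3, 3, 3], 1, [(10, 1)]⟩,
⟨2, [⟨6, 4, []⟩, ⟨16, 4, []⟩, ⟨32, 4, []⟩], [7], 1, [(50, 1), (52, 1)]⟩,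
⟨2, [⟨12, 5, []⟩, ⟨48, 5, []⟩, ⟨64, 3, []⟩], [4, 4], 1, [(84, 1), (88, 1), (100, 1), (104, 1)]⟩,
⟨1, [⟨1, 3, []⟩, ⟨2, 3, []⟩, ⟨128, 4, []⟩], [7, 3], 1, [(131, 1)]⟩,
⟨1, [⟨4, 2, []⟩, ⟨128, 2, []⟩], [3, 3, 3], 1, [(132, 1)]⟩,
⟨1, [⟨10, 3, []⟩, ⟨96, 3, []⟩, ⟨128, 4, []⟩], [7, 3], 1, [(162, 1), (168, 1), (194, 1), (200, 1)]⟩,
⟨2, [⟨24, 2, []⟩, ⟨128, 4, []⟩], [3, 1, 1], 1, [(136, 1), (144, 1)]⟩,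
⟨0, [⟨18, 2, []⟩, ⟨1, 2, []⟩], [3, 3, 3], 1, [(3, 1), (17, 1)]⟩,
⟨2, [⟨40, 3, []⟩, ⟨16, 3, []⟩], [3, 3], 1, [(24, 1), (48, 1)]⟩,
⟨2, [⟨2, 2, []⟩, ⟨65, 4, []⟩], [3, 1, 1], 1, [(3, 1), (66, 1)]⟩,
⟨2, [⟨12, 5, []⟩, ⟨32, 3, []⟩, ⟨128, 5, []⟩], [2, 2], 1, [(164, 1), (168, 1)]⟩,
⟨2, [⟨32, 3, []⟩, ⟨64, 3, []⟩], [3, 3], 1, [(96, 1)]⟩,
⟨1, [⟨18, 3, []⟩, ⟨64, 4, []⟩, ⟨128, 3, []⟩], [7, 5], 1, [(194, 1), (208, 1)]⟩,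
⟨1, [⟨0, 0, [(66, 2)]⟩, ⟨4, 2, []⟩], [3, 3, 3], 1, [(70, 1)]⟩,
⟨1, [⟨144, 3, []⟩, ⟨2, 3, []⟩, ⟨64, 4, []⟩], [7, 3], 1, [(82, 1), (194, 1)]⟩,
⟨2, [⟨48, 4, []⟩, ⟨8, 2, []⟩], [3, 2, 2], 1, [(24, 1), (40, 1)]⟩,
⟨2, [⟨2, 2, []⟩, ⟨64, 4, []⟩], [3, 1, 1], 1, [(66, 1)]⟩,
⟨2, [⟨0, 0, [(48, 3)]⟩, ⟨64, 3, []⟩], [3, 3], 1, [(112, 1)]⟩,
⟨0, [⟨40, 2, []⟩, ⟨80, 2, []⟩], [3, 3, 3], 1, [(24, 1), (48, 1), (72, 1), (96, 1)]⟩,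
⟨1, [⟨17, 3, []⟩, ⟨66, 3, []⟩, ⟨128, 4, []⟩], [7, 3], 1, [(131, 1), (146, 1), (193, 1), (208, 1)]⟩,
⟨2, [⟨1, 3, []⟩, ⟨2, 3, []⟩, ⟨16, 3, []⟩, ⟨32, 3, []⟩, ⟨128, 4, []⟩], [3, 3, 12, 12, 16], 2, [(51, 1), (131, 1), (176, 1), (179, 2)]⟩,
⟨1, [⟨66, 4, []⟩, ⟨0, 0, [(48, 2)]⟩], [3, 2, 2], 1, [(50, 1), (112, 1)]⟩,
⟨1, [⟨33, 2, []⟩, ⟨192, 2, []⟩], [3, 3, 3], 1, [(65, 1), (96, 1), (129, 1), (160, 1)]⟩,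
⟨1, [⟨36, 2, []⟩, ⟨80, 2, []⟩], [3, 3, 3], 1, [(20, 1), (48, 1), (68, 1), (96, 1)]⟩,
⟨2, [⟨20, 5, []⟩, ⟨8, 3, []⟩, ⟨128, 5, []⟩], [2, 2], 1, [(140, 1), (152, 1)]⟩,
⟨2, [⟨2, 2, []⟩, ⟨4, 2, []⟩, ⟨8, 3, []⟩, ⟨32, 3, []⟩, ⟨128, 5, []⟩], [3, 3, 3, 12, 12], 2, [(134, 1), (168, 1), (174, 2)]⟩,
⟨1, [⟨130, 3, []⟩, ⟨32, 3, []⟩, ⟨64, 4, []⟩], [7, 3], 1, [(98, 1), (224, 1)]⟩,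
⟨2, [⟨0, 0, [(17, 3)]⟩, ⟨4, 3, []⟩, ⟨32, 3, []⟩, ⟨64, 3, []⟩], [1, 1, 2, 2, 4, 4, 8, 8], 2, [(53, 1), (85, 1), (100, 1), (113, 1), (117, 2)]⟩,
⟨2, [⟨32, 3, []⟩, ⟨72, 3, []⟩], [3, 3], 1, [(40, 1), (96, 1)]⟩,
⟨2, [⟨16, 2, []⟩, ⟨1, 2, []⟩, ⟨4, 2, []⟩, ⟨64, 2, []⟩], [9, 9, 9, 6, 6, 6], 2, [(5, 1), (80, 1), (85, 2)]⟩,
⟨2, [⟨1, 3, []⟩, ⟨2, 2, []⟩, ⟨16, 3, []⟩, ⟨32, 3, []⟩, ⟨64, 4, []⟩], [3, 3, 18, 12, 12], 2, [(49, 1), (67, 1), (112, 1), (115, 2)]⟩,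
⟨2, [⟨68, 4, []⟩, ⟨24, 4, []⟩, ⟨32, 4, []⟩], [7], 1, [(44, 1), (52, 1), (104, 1), (112, 1)]⟩,
⟨2, [⟨16, 2, []⟩, ⟨32, 2, []⟩, ⟨2, 3, []⟩, ⟨4, 3, []⟩, ⟨64, 5, []⟩], [3, 3, 3, 12, 12], 2, [(70, 1), (112, 1), (118, 2)]⟩,
⟨1, [⟨20, 3, []⟩, ⟨64, 3, []⟩, ⟨128, 4, []⟩], [7, 3], 1, [(196, 1), (208, 1)]⟩,
⟨2, [⟨3, 5, []⟩, ⟨4, 3, []⟩, ⟨16, 3, []⟩, ⟨32, 3, []⟩, ⟨64, 3, []⟩], [2, 2, 12, 12, 16, 16], 2, [(53, 1), (54, 1), (69, 1), (70, 1), (113, 1), (114, 1), (117, 2), (118, 2)]⟩,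
⟨1, [⟨2, 3, []⟩, ⟨32, 3, []⟩, ⟨128, 4, []⟩], [7, 3], 1, [(162, 1)]⟩,
⟨0, [⟨33, 2, []⟩, ⟨24, 2, []⟩], [3, 3, 3], 1, [(9, 1), (17, 1), (40, 1), (48, 1)]⟩,
⟨1, [⟨16, 2, []⟩, ⟨192, 2, []⟩], [3, 3, 3], 1, [(80, 1), (144, 1)]⟩,
⟨2, [⟨10, 5, []⟩, ⟨36, 5, []⟩, ⟨16, 3, []⟩], [4, 4], 1, [(22, 1), (28, 1), (50, 1), (56, 1)]⟩,
⟨2, [⟨48, 5, []⟩, ⟨2, 3, []⟩, ⟨128, 5, []⟩], [2, 2], 1, [(146, 1), (162, 1)]⟩,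
⟨1, [⟨48, 2, []⟩, ⟨128, 4, []⟩], [3, 1, 1], 1, [(144, 1), (160, 1)]⟩,
⟨0, [⟨34, 2, []⟩, ⟨72, 2, []⟩], [3, 3, 3], 1, [(10, 1), (40, 1), (66, 1), (96, 1)]⟩,
⟨1, [⟨33, 3, []⟩, ⟨6, 3, []⟩, ⟨128, 4, []⟩], [7, 3], 1, [(131, 1), (133, 1), (162, 1), (164, 1)]⟩,
⟨0, [⟨80, 2, []⟩, ⟨5, 2, []⟩], [3, 3, 3], 1, [(17, 1), (20, 1), (65, 1), (68, 1)]⟩,
⟨2, [⟨24, 2, []⟩, ⟨64, 4, []⟩], [3, 1, 1], 1, [(72, 1), (80, 1)]⟩,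
⟨0, [⟨1, 2, []⟩, ⟨4, 2, []⟩], [3, 3, 3], 1, [(5, 1)]⟩,
⟨0, [⟨6, 2, []⟩, ⟨65, 2, []⟩], [3, 3, 3], 1, [(3, 1), (5, 1), (66, 1), (68, 1)]⟩,
⟨1, [⟨4, 4, []⟩, ⟨66, 3, []⟩, ⟨128, 3, []⟩], [7, 6], 1, [(134, 1), (196, 1)]⟩,
⟨2, [⟨8, 2, []⟩, ⟨16, 2, []⟩, ⟨1, 3, []⟩, ⟨4, 3, []⟩, ⟨128, 5, []⟩], [3, 3, 3, 12, 12], 2, [(133, 1), (152, 1), (157, 2)]⟩,
⟨2, [⟨32, 3, []⟩, ⟨68, 3, []⟩], [3, 3], 1, [(36, 1), (96, 1)]⟩,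
⟨0, [⟨33, 2, []⟩, ⟨80, 2, []⟩], [3, 3, 3], 1, [(17, 1), (48, 1), (65, 1), (96, 1)]⟩,
⟨2, [⟨0, 0, [(3, 2)]⟩, ⟨4, 4, []⟩], [3, 1, 1], 1, [(7, 1)]⟩,
⟨2, [⟨36, 5, []⟩, ⟨2, 3, []⟩, ⟨24, 5, []⟩], [2, 2], 1, [(14, 1), (22, 1), (42, 1), (50, 1)]⟩,
⟨2, [⟨4, 3, []⟩, ⟨16, 3, []⟩], [3, 3], 1, [(20, 1)]⟩,
⟨2, [⟨5, 4, []⟩, ⟨18, 4, []⟩, ⟨64, 4, []⟩], [7], 1, [(67, 1), (70, 1), (81, 1), (84, 1)]⟩,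
⟨2, [⟨8, 2, []⟩, ⟨96, 4, []⟩], [3, 1, 1], 1, [(40, 1), (72, 1)]⟩,
⟨1, [⟨160, 3, []⟩, ⟨4, 3, []⟩, ⟨64, 4, []⟩], [7, 3], 1, [(100, 1), (196, 1)]⟩,
⟨2, [⟨4, 3, []⟩, ⟨130, 5, []⟩, ⟨80, 5, []⟩], [1, 1], 1, [(22, 1), (70, 1), (148, 1), (196, 1)]⟩,
⟨1, [⟨6, 2, []⟩, ⟨192, 2, []⟩], [3, 3, 3], 1, [(66, 1), (68, 1), (130, 1), (132, 1)]⟩,
⟨2, [⟨32, 2, []⟩, ⟨64, 4, []⟩], [3, 1, 1], 1, [(96, 1)]⟩,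
⟨2, [⟨16, 2, []⟩, ⟨32, 4, []⟩, ⟨1, 3, []⟩, ⟨4, 3, []⟩, ⟨64, 3, []⟩], [3, 17, 17, 12, 12], 2, [(37, 1), (69, 1), (112, 1), (117, 2)]⟩,
⟨2, [⟨1, 3, []⟩, ⟨4, 3, []⟩, ⟨8, 3, []⟩, ⟨32, 3, []⟩, ⟨64, 4, []⟩], [3, 3, 12, 12, 16], 2, [(45, 1), (69, 1), (104, 1), (109, 2)]⟩,
⟨2, [⟨2, 2, []⟩, ⟨4, 2, []⟩, ⟨16, 3, []⟩, ⟨32, 3, []⟩, ⟨64, 5, []⟩], [3, 3, 3, 12, 12], 2, [(70, 1), (112, 1), (118, 2)]⟩,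
⟨1, [⟨18, 2, []⟩, ⟨4, 2, []⟩], [3, 3, 3], 1, [(6, 1), (20, 1)]⟩,
⟨0, [⟨10, 2, []⟩, ⟨1, 2, []⟩], [3, 3, 3], 1, [(3, 1), (9, 1)]⟩,
⟨1, [⟨24, 2, []⟩, ⟨96, 2, []⟩], [3, 3, 3], 1, [(40, 1), (48, 1), (72, 1), (80, 1)]⟩,
⟨2, [⟨16, 3, []⟩, ⟨32, 3, []⟩, ⟨0, 0, [(3, 2)]⟩, ⟨4, 2, []⟩, ⟨128, 5, []⟩], [3, 3, 12, 12, 12], 2, [(135, 1), (176, 1), (183, 2)]⟩,
⟨2, [⟨0, 0, [(48, 2)]⟩, ⟨4, 4, []⟩], [3, 1, 1], 1, [(52, 1)]⟩,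
⟨1, [⟨5, 2, []⟩, ⟨2, 2, []⟩], [3, 3, 3], 1, [(3, 1), (6, 1)]⟩,
⟨1, [⟨136, 4, []⟩, ⟨16, 3, []⟩, ⟨32, 3, []⟩], [7, 6], 1, [(56, 1), (176, 1)]⟩,
⟨1, [⟨132, 3, []⟩, ⟨1, 3, []⟩, ⟨64, 4, []⟩], [7, 3], 1, [(69, 1), (193, 1)]⟩,
⟨2, [⟨0, 0, [(34, 3)]⟩, ⟨16, 3, []⟩], [3, 3], 1, [(50, 1)]⟩,
⟨2, [⟨2, 3, []⟩, ⟨4, 3, []⟩, ⟨32, 3, []⟩, ⟨16, 2, []⟩, ⟨128, 4, []⟩], [3, 3, 12, 12, 24], 2, [(38, 1), (134, 1), (176, 1), (182, 2)]⟩,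
⟨2, [⟨8, 2, []⟩, ⟨32, 4, []⟩], [3, 1, 1], 1, [(40, 1)]⟩,
⟨2, [⟨36, 3, []⟩, ⟨2, 3, []⟩], [3, 3], 1, [(6, 1), (34, 1)]⟩,
⟨2, [⟨68, 4, []⟩, ⟨16, 4, []⟩, ⟨32, 4, []⟩], [7], 1, [(52, 1), (112, 1)]⟩,
⟨1, [⟨34, 3, []⟩, ⟨65, 3, []⟩, ⟨128, 4, []⟩], [7, 3], 1, [(131, 1), (161, 1), (194, 1), (224, 1)]⟩,
⟨1, [⟨64, 3, []⟩, ⟨128, 3, []⟩], [3, 3], 1, [(192, 1)]⟩,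
⟨2, [⟨8, 2, []⟩, ⟨32, 2, []⟩, ⟨2, 3, []⟩, ⟨4, 3, []⟩, ⟨128, 5, []⟩], [3, 3, 3, 12, 12], 2, [(134, 1), (168, 1), (174, 2)]⟩,
⟨1, [⟨2, 2, []⟩, ⟨196, 2, []⟩], [3, 3, 3], 1, [(6, 1), (66, 1), (130, 1)]⟩,
⟨1, [⟨10, 3, []⟩, ⟨48, 3, []⟩, ⟨128, 4, []⟩], [7, 3], 1, [(146, 1), (152, 1), (162, 1), (168, 1)]⟩,
⟨1, [⟨2, 2, []⟩, ⟨4, 2, []⟩, ⟨32, 1, []⟩, ⟨128, 5, []⟩], [3, 3, 3, 4, 4, 4, 4], 2, [(134, 1), (160, 1), (166, 2)]⟩,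
⟨1, [⟨34, 3, []⟩, ⟨4, 3, []⟩, ⟨128, 4, []⟩], [7, 3], 1, [(134, 1), (164, 1)]⟩,
⟨2, [⟨0, 0, [(12, 2)]⟩, ⟨128, 4, []⟩], [3, 1, 1], 1, [(140, 1)]⟩,
⟨0, [⟨20, 2, []⟩, ⟨66, 2, []⟩], [3, 3, 3], 1, [(6, 1), (18, 1), (68, 1), (80, 1)]⟩,
⟨2, [⟨1, 3, []⟩, ⟨4, 3, []⟩, ⟨32, 3, []⟩, ⟨16, 2, []⟩, ⟨128, 4, []⟩], [3, 3, 12, 12, 24], 2, [(37, 1), (133, 1), (176, 1), (181, 2)]⟩,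
⟨0, [⟨8, 2, []⟩, ⟨208, 2, []⟩], [3, 3, 3], 1, [(24, 1), (72, 1), (136, 1)]⟩,
⟨2, [⟨34, 3, []⟩, ⟨128, 3, []⟩], [3, 3], 1, [(130, 1), (160, 1)]⟩,
⟨2, [⟨8, 3, []⟩, ⟨80, 3, []⟩], [3, 3], 1, [(24, 1), (72, 1)]⟩,
⟨2, [⟨8, 2, []⟩, ⟨160, 4, []⟩], [3, 1, 1], 1, [(40, 1), (136, 1)]⟩,
⟨1, [⟨17, 2, []⟩, ⟨192, 2, []⟩], [3, 3, 3], 1, [(65, 1), (80, 1), (129, 1), (144, 1)]⟩,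
⟨2, [⟨0, 0, [(10, 3)]⟩, ⟨4, 3, []⟩, ⟨16, 3, []⟩, ⟨64, 3, []⟩], [1, 1, 2, 2, 4, 4, 8, 8], 2, [(30, 1), (78, 1), (84, 1), (90, 1), (94, 2)]⟩,
⟨0, [⟨8, 2, []⟩, ⟨16, 2, []⟩], [3, 3, 3], 1, [(24, 1)]⟩,
⟨1, [⟨6, 2, []⟩, ⟨1, 2, []⟩], [3, 3, 3], 1, [(3, 1), (5, 1)]⟩,
⟨2, [⟨16, 2, []⟩, ⟨32, 4, []⟩], [3, 1, 1], 1, [(48, 1)]⟩,
⟨1, [⟨4, 2, []⟩, ⟨24, 2, []⟩], [3, 3, 3], 1, [(12, 1), (20, 1)]⟩,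
⟨2, [⟨0, 0, [(9, 3)]⟩, ⟨2, 3, []⟩, ⟨32, 3, []⟩, ⟨64, 3, []⟩], [1, 1, 2, 2, 4, 4, 8, 8], 2, [(43, 1), (75, 1), (98, 1), (105, 1), (107, 2)]⟩,
⟨0, [⟨12, 2, []⟩, ⟨3, 2, []⟩], [3, 3, 3], 1, [(5, 1), (6, 1), (9, 1), (10, 1)]⟩,
⟨0, [⟨33, 2, []⟩, ⟨72, 2, []⟩], [3, 3, 3], 1, [(9, 1), (40, 1), (65, 1), (96, 1)]⟩,
⟨2, [⟨40, 3, []⟩, ⟨64, 3, []⟩], [3, 3], 1, [(72, 1), (96, 1)]⟩,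
⟨1, [⟨36, 3, []⟩, ⟨2, 3, []⟩, ⟨64, 4, []⟩], [7, 3], 1, [(70, 1), (98, 1)]⟩,
⟨2, [⟨1, 2, []⟩, ⟨4, 4, []⟩, ⟨8, 3, []⟩, ⟨16, 3, []⟩, ⟨64, 3, []⟩], [3, 5, 5, 24, 24], 2, [(13, 1), (84, 1), (88, 1), (93, 2)]⟩,
⟨1, [⟨8, 2, []⟩, ⟨32, 2, []⟩], [3, 3, 3], 1, [(40, 1)]⟩,
⟨0, [⟨18, 2, []⟩, ⟨65, 2, []⟩], [3, 3, 3], 1, [(3, 1), (17, 1), (66, 1), (80, 1)]⟩,
⟨2, [⟨0, 0, [(36, 2)]⟩, ⟨128, 4, []⟩], [3, 1, 1], 1, [(164, 1)]⟩,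
⟨2, [⟨4, 3, []⟩, ⟨66, 3, []⟩], [3, 3], 1, [(6, 1), (68, 1)]⟩,
⟨1, [⟨1, 2, []⟩, ⟨32, 2, []⟩], [3, 3, 3], 1, [(33, 1)]⟩,
⟨2, [⟨34, 2, []⟩, ⟨144, 4, []⟩], [3, 1, 1], 1, [(18, 1), (48, 1), (130, 1), (160, 1)]⟩,
⟨1, [⟨10, 2, []⟩, ⟨96, 2, []⟩], [3, 3, 3], 1, [(34, 1), (40, 1), (66, 1), (72, 1)]⟩,
⟨2, [⟨1, 2, []⟩, ⟨68, 4, []⟩], [3, 1, 1], 1, [(5, 1), (65, 1)]⟩,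
⟨2, [⟨3, 4, []⟩, ⟨32, 4, []⟩, ⟨128, 4, []⟩], [7], 1, [(161, 1), (162, 1)]⟩,
⟨1, [⟨18, 2, []⟩, ⟨128, 2, []⟩], [3, 3, 3], 1, [(130, 1), (144, 1)]⟩,
⟨2, [⟨12, 5, []⟩, ⟨32, 3, []⟩, ⟨64, 5, []⟩], [2, 2], 1, [(100, 1), (104, 1)]⟩,
⟨2, [⟨80, 4, []⟩, ⟨3, 4, []⟩, ⟨4, 4, []⟩], [7], 1, [(21, 1), (22, 1), (69, 1), (70, 1)]⟩,
⟨2, [⟨1, 2, []⟩, ⟨128, 4, []⟩], [3, 1, 1], 1, [(129, 1)]⟩,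
⟨2, [⟨20, 3, []⟩, ⟨2, 3, []⟩], [3, 3], 1, [(6, 1), (18, 1)]⟩,
⟨2, [⟨20, 5, []⟩, ⟨40, 5, []⟩, ⟨64, 3, []⟩], [4, 4], 1, [(76, 1), (88, 1), (100, 1), (112, 1)]⟩,
⟨2, [⟨2, 3, []⟩, ⟨64, 3, []⟩], [3, 3], 1, [(66, 1)]⟩,
⟨2, [⟨3, 4, []⟩, ⟨128, 2, []⟩], [3, 2, 2], 1, [(129, 1), (130, 1)]⟩,
⟨1, [⟨64, 2, []⟩, ⟨128, 2, []⟩], [3, 3, 3], 1, [(192, 1)]⟩,
⟨2, [⟨2, 3, []⟩, ⟨4, 3, []⟩, ⟨8, 3, []⟩, ⟨32, 3, []⟩, ⟨128, 4, []⟩], [3, 3, 12, 12, 16], 2, [(46, 1), (134, 1), (168, 1), (174, 2)]⟩,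
⟨2, [⟨0, 0, [(18, 3)]⟩, ⟨36, 5, []⟩, ⟨65, 5, []⟩], [1, 1], 1, [(23, 1), (51, 1), (86, 1), (114, 1)]⟩,
⟨2, [⟨2, 2, []⟩, ⟨132, 4, []⟩], [3, 1, 1], 1, [(6, 1), (130, 1)]⟩,
⟨1, [⟨16, 2, []⟩, ⟨32, 2, []⟩, ⟨2, 1, []⟩, ⟨64, 5, []⟩], [3, 3, 3, 4, 4, 4, 4], 2, [(66, 1), (112, 1), (114, 2)]⟩,
⟨1, [⟨2, 2, []⟩, ⟨0, 0, [(192, 2)]⟩], [3, 3, 3], 1, [(194, 1)]⟩,
⟨2, [⟨65, 4, []⟩, ⟨16, 4, []⟩, ⟨32, 4, []⟩], [7], 1, [(49, 1), (112, 1)]⟩,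
⟨1, [⟨36, 3, []⟩, ⟨80, 3, []⟩, ⟨128, 4, []⟩], [7, 3], 1, [(148, 1), (176, 1), (196, 1), (224, 1)]⟩,
⟨1, [⟨10, 3, []⟩, ⟨32, 3, []⟩, ⟨64, 4, []⟩], [7, 3], 1, [(98, 1), (104, 1)]⟩,
⟨2, [⟨0, 0, [(20, 2)]⟩, ⟨64, 4, []⟩], [3, 1, 1], 1, [(84, 1)]⟩,
⟨2, [⟨4, 3, []⟩, ⟨129, 3, []⟩], [3, 3], 1, [(5, 1), (132, 1)]⟩,
⟨2, [⟨65, 3, []⟩, ⟨128, 3, []⟩], [3, 3], 1, [(129, 1), (192, 1)]⟩,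
⟨2, [⟨0, 0, [(40, 2)]⟩, ⟨80, 4, []⟩], [3, 1, 1], 1, [(56, 1), (104, 1)]⟩,
⟨1, [⟨66, 2, []⟩, ⟨48, 2, []⟩], [3, 3, 3], 1, [(18, 1), (34, 1), (80, 1), (96, 1)]⟩,
⟨1, [⟨32, 3, []⟩, ⟨128, 3, []⟩], [3, 3], 1, [(160, 1)]⟩,
⟨2, [⟨0, 0, [(65, 3)]⟩, ⟨4, 3, []⟩], [3, 3], 1, [(69, 1)]⟩,
⟨2, [⟨65, 4, []⟩, ⟨2, 4, []⟩, ⟨128, 4, []⟩], [7], 1, [(131, 1), (194, 1)]⟩,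
⟨2, [⟨1, 3, []⟩, ⟨4, 3, []⟩, ⟨8, 3, []⟩, ⟨32, 3, []⟩, ⟨128, 4, []⟩], [3, 3, 12, 12, 16], 2, [(45, 1), (133, 1), (168, 1), (173, 2)]⟩,
⟨2, [⟨36, 3, []⟩, ⟨64, 3, []⟩], [3, 3], 1, [(68, 1), (96, 1)]⟩,
⟨1, [⟨34, 2, []⟩, ⟨192, 2, []⟩], [3, 3, 3], 1, [(66, 1), (96, 1), (130, 1), (160, 1)]⟩,
⟨1, [⟨10, 3, []⟩, ⟨4, 3, []⟩, ⟨64, 4, []⟩], [7, 3], 1, [(70, 1), (76, 1)]⟩,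
⟨2, [⟨0, 0, [(12, 3)]⟩, ⟨33, 5, []⟩, ⟨80, 5, []⟩], [1, 1], 1, [(29, 1), (60, 1), (77, 1), (108, 1)]⟩,
⟨2, [⟨2, 2, []⟩, ⟨4, 4, []⟩], [3, 1, 1], 1, [(6, 1)]⟩,
⟨2, [⟨1, 2, []⟩, ⟨2, 2, []⟩, ⟨8, 3, []⟩, ⟨16, 3, []⟩, ⟨64, 5, []⟩], [3, 3, 3, 12, 12], 2, [(67, 1), (88, 1), (91, 2)]⟩,
⟨2, [⟨4, 2, []⟩, ⟨130, 4, []⟩], [3, 1, 1], 1, [(6, 1), (132, 1)]⟩,
⟨2, [⟨2, 3, []⟩, ⟨4, 3, []⟩, ⟨16, 3, []⟩, ⟨32, 2, []⟩, ⟨128, 4, []⟩], [3, 3, 12, 12, 24], 2, [(22, 1), (134, 1), (176, 1), (182, 2)]⟩,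
⟨2, [⟨6, 4, []⟩, ⟨64, 4, []⟩, ⟨128, 4, []⟩], [7], 1, [(194, 1), (196, 1)]⟩,
⟨2, [⟨0, 0, [(20, 2)]⟩, ⟨40, 4, []⟩], [3, 1, 1], 1, [(28, 1), (52, 1)]⟩,
⟨1, [⟨0, 0, [(6, 2)]⟩, ⟨128, 2, []⟩], [3, 3, 3], 1, [(134, 1)]⟩,
⟨0, [⟨9, 2, []⟩, ⟨80, 2, []⟩], [3, 3, 3], 1, [(17, 1), (24, 1), (65, 1), (72, 1)]⟩,
⟨1, [⟨12, 3, []⟩, ⟨96, 3, []⟩, ⟨128, 4, []⟩], [7, 3], 1, [(164, 1), (168, 1), (196, 1), (200, 1)]⟩,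
⟨2, [⟨5, 4, []⟩, ⟨128, 2, []⟩], [3, 2, 2], 1, [(129, 1), (132, 1)]⟩,
⟨1, [⟨130, 2, []⟩, ⟨64, 2, []⟩], [3, 3, 3], 1, [(66, 1), (192, 1)]⟩,
⟨2, [⟨1, 2, []⟩, ⟨66, 4, []⟩], [3, 1, 1], 1, [(3, 1), (65, 1)]⟩,
⟨1, [⟨24, 4, []⟩, ⟨32, 3, []⟩, ⟨64, 3, []⟩], [7, 6], 1, [(104, 1), (112, 1)]⟩,
⟨2, [⟨10, 4, []⟩, ⟨4, 4, []⟩, ⟨64, 4, []⟩], [7], 1, [(70, 1), (76, 1)]⟩,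
⟨1, [⟨8, 3, []⟩, ⟨32, 3, []⟩, ⟨128, 4, []⟩], [7, 3], 1, [(168, 1)]⟩,
⟨1, [⟨72, 2, []⟩, ⟨6, 2, []⟩], [3, 3, 3], 1, [(10, 1), (12, 1), (66, 1), (68, 1)]⟩,
⟨2, [⟨38, 3, []⟩, ⟨64, 3, []⟩], [3, 3], 1, [(66, 1), (68, 1), (96, 1)]⟩,
⟨2, [⟨66, 4, []⟩, ⟨24, 4, []⟩, ⟨32, 4, []⟩], [7], 1, [(42, 1), (50, 1), (104, 1), (112, 1)]⟩,
⟨2, [⟨4, 3, []⟩, ⟨1, 2, []⟩, ⟨0, 0, [(24, 3)]⟩, ⟨32, 3, []⟩, ⟨128, 4, []⟩], [3, 3, 18, 12, 12], 2, [(60, 1), (133, 1), (184, 1), (189, 2)]⟩,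
⟨2, [⟨18, 3, []⟩, ⟨4, 3, []⟩], [3, 3], 1, [(6, 1), (20, 1)]⟩,
⟨1, [⟨17, 2, []⟩, ⟨66, 2, []⟩], [3, 3, 3], 1, [(3, 1), (18, 1), (65, 1), (80, 1)]⟩,
⟨1, [⟨136, 3, []⟩, ⟨32, 3, []⟩, ⟨64, 4, []⟩], [7, 3], 1, [(104, 1), (224, 1)]⟩,
⟨2, [⟨34, 4, []⟩, ⟨4, 4, []⟩, ⟨128, 4, []⟩], [7], 1, [(134, 1), (164, 1)]⟩,
⟨2, [⟨68, 3, []⟩, ⟨128, 3, []⟩], [3, 3], 1, [(132, 1), (192, 1)]⟩,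
⟨1, [⟨8, 2, []⟩, ⟨128, 2, []⟩], [3, 3, 3], 1, [(136, 1)]⟩,
⟨2, [⟨48, 2, []⟩, ⟨128, 4, []⟩], [3, 1, 1], 1, [(144, 1), (160, 1)]⟩,
⟨2, [⟨4, 3, []⟩, ⟨32, 3, []⟩], [3, 3], 1, [(36, 1)]⟩,
⟨2, [⟨0, 0, [(40, 2)]⟩, ⟨128, 4, []⟩], [3, 1, 1], 1, [(168, 1)]⟩,
⟨2, [⟨20, 4, []⟩, ⟨2, 4, []⟩, ⟨128, 4, []⟩], [7], 1, [(134, 1), (146, 1)]⟩,
⟨1, [⟨20, 2, []⟩, ⟨128, 2, []⟩], [3, 3, 3], 1, [(132, 1), (144, 1)]⟩,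
⟨2, [⟨96, 4, []⟩, ⟨4, 2, []⟩], [3, 2, 2], 1, [(36, 1), (68, 1)]⟩,
⟨1, [⟨20, 2, []⟩, ⟨66, 2, []⟩], [3, 3, 3], 1, [(6, 1), (18, 1), (68, 1), (80, 1)]⟩,
⟨1, [⟨1, 2, []⟩, ⟨16, 2, []⟩], [3, 3, 3], 1, [(17, 1)]⟩,
⟨2, [⟨5, 4, []⟩, ⟨34, 4, []⟩, ⟨64, 4, []⟩], [7], 1, [(67, 1), (70, 1), (97, 1), (100, 1)]⟩,
⟨2, [⟨34, 4, []⟩, ⟨128, 2, []⟩], [3, 2, 2], 1, [(130, 1), (160, 1)]⟩,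
⟨0, [⟨20, 2, []⟩, ⟨3, 2, []⟩], [3, 3, 3], 1, [(5, 1), (6, 1), (17, 1), (18, 1)]⟩,
⟨0, [⟨9, 2, []⟩, ⟨68, 2, []⟩], [3, 3, 3], 1, [(5, 1), (12, 1), (65, 1), (72, 1)]⟩,
⟨2, [⟨32, 2, []⟩, ⟨2, 2, []⟩, ⟨4, 2, []⟩, ⟨64, 2, []⟩], [9, 9, 9, 6, 6, 6], 2, [(6, 1), (96, 1), (102, 2)]⟩,
⟨2, [⟨2, 2, []⟩, ⟨4, 4, []⟩, ⟨8, 3, []⟩, ⟨32, 3, []⟩, ⟨64, 3, []⟩], [3, 17, 17, 12, 12], 2, [(44, 1), (70, 1), (104, 1), (110, 2)]⟩,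
⟨1, [⟨20, 3, []⟩, ⟨96, 3, []⟩, ⟨128, 4, []⟩], [7, 3], 1, [(164, 1), (176, 1), (196, 1), (208, 1)]⟩,
⟨2, [⟨16, 2, []⟩, ⟨32, 3, []⟩, ⟨2, 3, []⟩, ⟨4, 3, []⟩, ⟨64, 4, []⟩], [3, 3, 5, 12, 24], 2, [(50, 1), (70, 1), (100, 1), (112, 1), (118, 2)]⟩,
⟨1, [⟨32, 2, []⟩, ⟨128, 2, []⟩], [3, 3, 3], 1, [(160, 1)]⟩,
⟨1, [⟨4, 3, []⟩, ⟨16, 3, []⟩, ⟨128, 4, []⟩], [7, 3], 1, [(148, 1)]⟩,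
⟨2, [⟨68, 4, []⟩, ⟨32, 2, []⟩], [3, 2, 2], 1, [(36, 1), (96, 1)]⟩,
⟨1, [⟨3, 4, []⟩, ⟨4, 3, []⟩, ⟨64, 3, []⟩], [7, 6], 1, [(69, 1), (70, 1)]⟩,
⟨2, [⟨32, 3, []⟩, ⟨16, 2, []⟩, ⟨2, 3, []⟩, ⟨4, 3, []⟩, ⟨64, 4, []⟩], [3, 3, 10, 12, 20], 2, [(52, 1), (70, 1), (98, 1), (112, 1), (118, 2)]⟩,
⟨1, [⟨6, 2, []⟩, ⟨48, 2, []⟩], [3, 3, 3], 1, [(18, 1), (20, 1), (34, 1), (36, 1)]⟩,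
⟨2, [⟨0, 0, [(12, 3)]⟩, ⟨32, 3, []⟩], [3, 3], 1, [(44, 1)]⟩,
⟨2, [⟨8, 3, []⟩, ⟨64, 3, []⟩], [3, 3], 1, [(72, 1)]⟩,
⟨2, [⟨0, 0, [(36, 2)]⟩, ⟨24, 4, []⟩], [3, 1, 1], 1, [(44, 1), (52, 1)]⟩,
⟨1, [⟨1, 3, []⟩, ⟨4, 3, []⟩, ⟨192, 4, []⟩], [7, 3], 1, [(69, 1), (133, 1)]⟩,
⟨1, [⟨98, 3, []⟩, ⟨4, 3, []⟩, ⟨128, 4, []⟩], [7, 3], 1, [(134, 1), (164, 1), (196, 1)]⟩,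
⟨1, [⟨5, 3, []⟩, ⟨64, 3, []⟩, ⟨128, 4, []⟩], [7, 3], 1, [(193, 1), (196, 1)]⟩,
⟨0, [⟨18, 2, []⟩, ⟨5, 2, []⟩], [3, 3, 3], 1, [(3, 1), (6, 1), (17, 1), (20, 1)]⟩,
⟨1, [⟨3, 2, []⟩, ⟨128, 2, []⟩], [3, 3, 3], 1, [(129, 1), (130, 1)]⟩,
⟨1, [⟨129, 3, []⟩, ⟨2, 3, []⟩, ⟨64, 4, []⟩], [7, 3], 1, [(67, 1), (194, 1)]⟩,
⟨2, [⟨4, 2, []⟩, ⟨8, 2, []⟩, ⟨32, 2, []⟩, ⟨64, 2, []⟩], [9, 9, 9, 6, 6, 6], 2, [(40, 1), (68, 1), (108, 2)]⟩,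
⟨2, [⟨18, 5, []⟩, ⟨32, 3, []⟩, ⟨64, 5, []⟩], [2, 2], 1, [(98, 1), (112, 1)]⟩,
⟨2, [⟨12, 5, []⟩, ⟨2, 3, []⟩, ⟨128, 5, []⟩], [2, 2], 1, [(134, 1), (138, 1)]⟩,
⟨0, [⟨17, 2, []⟩, ⟨40, 2, []⟩], [3, 3, 3], 1, [(9, 1), (24, 1), (33, 1), (48, 1)]⟩,
⟨1, [⟨12, 3, []⟩, ⟨64, 3, []⟩, ⟨128, 4, []⟩], [7, 3], 1, [(196, 1), (200, 1)]⟩,
⟨1, [⟨0, 0, [(160, 2)]⟩, ⟨68, 4, []⟩], [3, 1, 1], 1, [(164, 1), (224, 1)]⟩,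
⟨1, [⟨5, 3, []⟩, ⟨130, 3, []⟩, ⟨64, 4, []⟩], [7, 3], 1, [(67, 1), (70, 1), (193, 1), (196, 1)]⟩,
⟨1, [⟨18, 2, []⟩, ⟨72, 2, []⟩], [3, 3, 3], 1, [(10, 1), (24, 1), (66, 1), (80, 1)]⟩,
⟨2, [⟨2, 4, []⟩, ⟨4, 4, []⟩, ⟨64, 4, []⟩], [7], 1, [(70, 1)]⟩,
⟨2, [⟨80, 4, []⟩, ⟨128, 2, []⟩], [3, 2, 2], 1, [(144, 1), (192, 1)]⟩,
⟨2, [⟨2, 3, []⟩, ⟨68, 3, []⟩], [3, 3], 1, [(6, 1), (66, 1)]⟩,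
⟨1, [⟨65, 4, []⟩, ⟨4, 3, []⟩, ⟨128, 3, []⟩], [7, 6], 1, [(133, 1), (196, 1)]⟩,
⟨2, [⟨18, 5, []⟩, ⟨4, 3, []⟩, ⟨128, 5, []⟩], [2, 2], 1, [(134, 1), (148, 1)]⟩,
⟨2, [⟨1, 2, []⟩, ⟨2, 2, []⟩, ⟨16, 3, []⟩, ⟨32, 3, []⟩, ⟨64, 5, []⟩], [3, 3, 3, 12, 12], 2, [(67, 1), (112, 1), (115, 2)]⟩,
⟨1, [⟨4, 3, []⟩, ⟨32, 3, []⟩, ⟨128, 4, []⟩], [7, 3], 1, [(164, 1)]⟩,
⟨2, [⟨34, 5, []⟩, ⟨4, 3, []⟩, ⟨128, 5, []⟩], [2, 2], 1, [(134, 1), (164, 1)]⟩,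
⟨1, [⟨36, 3, []⟩, ⟨65, 3, []⟩, ⟨128, 4, []⟩], [7, 3], 1, [(133, 1), (161, 1), (196, 1), (224, 1)]⟩,
⟨1, [⟨20, 3, []⟩, ⟨32, 3, []⟩, ⟨128, 4, []⟩], [7, 3], 1, [(164, 1), (176, 1)]⟩,
⟨2, [⟨32, 2, []⟩, ⟨192, 4, []⟩], [3, 1, 1], 1, [(96, 1), (160, 1)]⟩,
⟨2, [⟨17, 4, []⟩, ⟨72, 4, []⟩, ⟨32, 4, []⟩], [7], 1, [(41, 1), (56, 1), (97, 1), (112, 1)]⟩,
⟨0, [⟨33, 2, []⟩, ⟨6, 2, []⟩], [3, 3, 3], 1, [(3, 1), (5, 1), (34, 1), (36, 1)]⟩,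
⟨0, [⟨66, 2, []⟩, ⟨48, 2, []⟩], [3, 3, 3], 1, [(18, 1), (34, 1), (80, 1), (96, 1)]⟩,
⟨2, [⟨6, 4, []⟩, ⟨128, 2, []⟩], [3, 2, 2], 1, [(130, 1), (132, 1)]⟩,
⟨1, [⟨96, 4, []⟩, ⟨8, 3, []⟩, ⟨128, 3, []⟩], [7, 6], 1, [(168, 1), (200, 1)]⟩,
⟨2, [⟨96, 4, []⟩, ⟨2, 2, []⟩], [3, 2, 2], 1, [(34, 1), (66, 1)]⟩,
⟨2, [⟨8, 2, []⟩, ⟨32, 2, []⟩, ⟨1, 3, []⟩, ⟨4, 3, []⟩, ⟨64, 5, []⟩], [3, 3, 3, 12, 12], 2, [(69, 1), (104, 1), (109, 2)]⟩,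
⟨1, [⟨2, 2, []⟩, ⟨16, 2, []⟩], [3, 3, 3], 1, [(18, 1)]⟩,
⟨2, [⟨2, 3, []⟩, ⟨4, 2, []⟩, ⟨0, 0, [(24, 3)]⟩, ⟨32, 3, []⟩, ⟨128, 4, []⟩], [3, 3, 18, 12, 12], 2, [(58, 1), (134, 1), (184, 1), (190, 2)]⟩,
⟨1, [⟨66, 3, []⟩, ⟨48, 3, []⟩, ⟨128, 4, []⟩], [7, 3], 1, [(146, 1), (162, 1), (208, 1), (224, 1)]⟩,
⟨1, [⟨0, 0, [(80, 2)]⟩, ⟨32, 2, []⟩], [3, 3, 3], 1, [(112, 1)]⟩,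
⟨2, [⟨1, 2, []⟩, ⟨4, 4, []⟩, ⟨8, 3, []⟩, ⟨32, 3, []⟩, ⟨64, 3, []⟩], [3, 5, 5, 24, 24], 2, [(13, 1), (100, 1), (104, 1), (109, 2)]⟩,
⟨2, [⟨36, 5, []⟩, ⟨2, 3, []⟩, ⟨64, 5, []⟩], [2, 2], 1, [(70, 1), (98, 1)]⟩,
⟨1, [⟨0, 0, [(20, 2)]⟩, ⟨128, 4, []⟩], [3, 1, 1], 1, [(148, 1)]⟩,
⟨1, [⟨18, 3, []⟩, ⟨72, 3, []⟩, ⟨128, 4, []⟩], [7, 3], 1, [(138, 1), (152, 1), (194, 1), (208, 1)]⟩,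
⟨2, [⟨34, 4, []⟩, ⟨4, 4, []⟩, ⟨64, 4, []⟩], [7], 1, [(70, 1), (100, 1)]⟩,
⟨0, [⟨12, 2, []⟩, ⟨48, 2, []⟩], [3, 3, 3], 1, [(20, 1), (24, 1), (36, 1), (40, 1)]⟩,
⟨2, [⟨68, 3, []⟩, ⟨130, 3, []⟩], [3, 3], 1, [(6, 1), (66, 1), (132, 1), (192, 1)]⟩,
⟨2, [⟨144, 4, []⟩, ⟨32, 4, []⟩, ⟨64, 4, []⟩], [7], 1, [(112, 1), (224, 1)]⟩,
⟨1, [⟨17, 3, []⟩, ⟨32, 4, []⟩, ⟨64, 3, []⟩], [7, 5], 1, [(97, 1), (112, 1)]⟩,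
⟨2, [⟨16, 3, []⟩, ⟨160, 3, []⟩], [3, 3], 1, [(48, 1), (144, 1)]⟩,
⟨2, [⟨24, 4, []⟩, ⟨36, 4, []⟩, ⟨64, 4, []⟩], [7], 1, [(76, 1), (84, 1), (104, 1), (112, 1)]⟩,
⟨0, [⟨1, 2, []⟩, ⟨2, 2, []⟩], [3, 3, 3], 1, [(3, 1)]⟩,
⟨1, [⟨20, 2, []⟩, ⟨65, 2, []⟩], [3, 3, 3], 1, [(5, 1), (17, 1), (68, 1), (80, 1)]⟩,
⟨1, [⟨34, 3, []⟩, ⟨4, 4, []⟩, ⟨64, 3, []⟩], [7, 5], 1, [(70, 1), (100, 1)]⟩,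
⟨1, [⟨32, 3, []⟩, ⟨64, 3, []⟩, ⟨128, 4, []⟩], [7, 3], 1, [(224, 1)]⟩,
⟨1, [⟨24, 3, []⟩, ⟨160, 3, []⟩, ⟨64, 4, []⟩], [7, 3], 1, [(104, 1), (112, 1), (200, 1), (208, 1)]⟩,
⟨2, [⟨160, 4, []⟩, ⟨0, 0, [(3, 2)]⟩], [3, 2, 2], 1, [(35, 1), (131, 1)]⟩,
⟨1, [⟨33, 4, []⟩, ⟨4, 3, []⟩, ⟨64, 3, []⟩], [7, 6], 1, [(69, 1), (100, 1)]⟩,
⟨2, [⟨36, 2, []⟩, ⟨128, 4, []⟩], [3, 1, 1], 1, [(132, 1), (160, 1)]⟩,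
⟨1, [⟨10, 3, []⟩, ⟨4, 3, []⟩, ⟨128, 4, []⟩], [7, 3], 1, [(134, 1), (140, 1)]⟩,
⟨1, [⟨16, 2, []⟩, ⟨64, 2, []⟩], [3, 3, 3], 1, [(80, 1)]⟩,
⟨2, [⟨2, 2, []⟩, ⟨192, 4, []⟩], [3, 1, 1], 1, [(66, 1), (130, 1)]⟩,
⟨1, [⟨4, 2, []⟩, ⟨40, 2, []⟩], [3, 3, 3], 1, [(12, 1), (36, 1)]⟩,
⟨2, [⟨0, 0, [(5, 2)]⟩, ⟨66, 4, []⟩], [3, 1, 1], 1, [(7, 1), (69, 1)]⟩,
⟨0, [⟨2, 2, []⟩, ⟨4, 2, []⟩], [3, 3, 3], 1, [(6, 1)]⟩,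
⟨1, [⟨4, 3, []⟩, ⟨64, 3, []⟩, ⟨128, 4, []⟩], [7, 3], 1, [(196, 1)]⟩,
⟨1, [⟨68, 3, []⟩, ⟨48, 3, []⟩, ⟨128, 4, []⟩], [7, 3], 1, [(148, 1), (164, 1), (208, 1), (224, 1)]⟩,
⟨1, [⟨32, 2, []⟩, ⟨0, 0, [(192, 2)]⟩], [3, 3, 3], 1, [(224, 1)]⟩,
⟨1, [⟨4, 4, []⟩, ⟨65, 3, []⟩, ⟨128, 3, []⟩], [7, 6], 1, [(133, 1), (196, 1)]⟩,
⟨1, [⟨24, 3, []⟩, ⟨64, 3, []⟩, ⟨128, 4, []⟩], [7, 3], 1, [(200, 1), (208, 1)]⟩,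
⟨2, [⟨66, 4, []⟩, ⟨16, 4, []⟩, ⟨32, 4, []⟩], [7], 1, [(50, 1), (112, 1)]⟩,
⟨1, [⟨18, 3, []⟩, ⟨4, 4, []⟩, ⟨64, 3, []⟩], [7, 5], 1, [(70, 1), (84, 1)]⟩,
⟨1, [⟨72, 2, []⟩, ⟨128, 2, []⟩], [3, 3, 3], 1, [(136, 1), (192, 1)]⟩,
⟨1, [⟨0, 0, [(65, 2)]⟩, ⟨4, 2, []⟩], [3, 3, 3], 1, [(69, 1)]⟩,
⟨2, [⟨18, 4, []⟩, ⟨64, 4, []⟩, ⟨128, 4, []⟩], [7], 1, [(194, 1), (208, 1)]⟩,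
⟨1, [⟨16, 2, []⟩, ⟨200, 2, []⟩], [3, 3, 3], 1, [(24, 1), (80, 1), (144, 1)]⟩,
⟨0, [⟨1, 2, []⟩, ⟨16, 2, []⟩], [3, 3, 3], 1, [(17, 1)]⟩,
⟨0, [⟨9, 2, []⟩, ⟨66, 2, []⟩], [3, 3, 3], 1, [(3, 1), (10, 1), (65, 1), (72, 1)]⟩,
⟨1, [⟨36, 3, []⟩, ⟨16, 3, []⟩, ⟨64, 4, []⟩], [7, 3], 1, [(84, 1), (112, 1)]⟩,
⟨2, [⟨36, 5, []⟩, ⟨8, 3, []⟩, ⟨128, 5, []⟩], [2, 2], 1, [(140, 1), (168, 1)]⟩,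
⟨2, [⟨5, 4, []⟩, ⟨64, 4, []⟩, ⟨128, 4, []⟩], [7], 1, [(193, 1), (196, 1)]⟩,
⟨2, [⟨34, 4, []⟩, ⟨20, 4, []⟩, ⟨64, 4, []⟩], [7], 1, [(70, 1), (82, 1), (100, 1), (112, 1)]⟩,
⟨2, [⟨24, 4, []⟩, ⟨32, 4, []⟩, ⟨128, 4, []⟩], [7], 1, [(168, 1), (176, 1)]⟩,
⟨2, [⟨0, 0, [(160, 2)]⟩, ⟨66, 4, []⟩], [3, 1, 1], 1, [(162, 1), (224, 1)]⟩,
⟨2, [⟨36, 4, []⟩, ⟨16, 4, []⟩, ⟨64, 4, []⟩], [7], 1, [(84, 1), (112, 1)]⟩,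
⟨2, [⟨18, 5, []⟩, ⟨36, 5, []⟩, ⟨64, 3, []⟩], [4, 4], 1, [(70, 1), (84, 1), (98, 1), (112, 1)]⟩,
⟨2, [⟨8, 2, []⟩, ⟨32, 2, []⟩, ⟨4, 2, []⟩, ⟨128, 2, []⟩], [3, 3, 3, 12, 12, 12], 2, [(40, 1), (132, 1), (172, 2)]⟩,
⟨0, [⟨18, 2, []⟩, ⟨72, 2, []⟩], [3, 3, 3], 1, [(10, 1), (24, 1), (66, 1), (80, 1)]⟩,
⟨0, [⟨18, 2, []⟩, ⟨8, 2, []⟩], [3, 3, 3], 1, [(10, 1), (24, 1)]⟩,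
⟨2, [⟨1, 2, []⟩, ⟨130, 4, []⟩], [3, 1, 1], 1, [(3, 1), (129, 1)]⟩,
⟨2, [⟨8, 3, []⟩, ⟨32, 3, []⟩], [3, 3], 1, [(40, 1)]⟩,
⟨2, [⟨34, 4, []⟩, ⟨4, 2, []⟩], [3, 2, 2], 1, [(6, 1), (36, 1)]⟩,
⟨1, [⟨2, 2, []⟩, ⟨64, 2, []⟩], [3, 3, 3], 1, [(66, 1)]⟩,
⟨2, [⟨160, 3, []⟩, ⟨64, 3, []⟩], [3, 3], 1, [(96, 1), (192, 1)]⟩,
⟨1, [⟨16, 2, []⟩, ⟨32, 2, []⟩], [3, 3, 3], 1, [(48, 1)]⟩,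
⟨1, [⟨10, 2, []⟩, ⟨68, 2, []⟩], [3, 3, 3], 1, [(6, 1), (12, 1), (66, 1), (72, 1)]⟩,
⟨2, [⟨1, 3, []⟩, ⟨4, 3, []⟩, ⟨16, 3, []⟩, ⟨32, 3, []⟩, ⟨64, 4, []⟩], [3, 3, 12, 12, 16], 2, [(53, 1), (69, 1), (112, 1), (117, 2)]⟩,
⟨2, [⟨1, 3, []⟩, ⟨2, 3, []⟩, ⟨8, 3, []⟩, ⟨32, 3, []⟩, ⟨64, 4, []⟩], [3, 3, 12, 12, 16], 2, [(43, 1), (67, 1), (104, 1), (107, 2)]⟩,
⟨2, [⟨1, 2, []⟩, ⟨4, 4, []⟩, ⟨16, 3, []⟩, ⟨32, 3, []⟩, ⟨64, 3, []⟩], [3, 5, 5, 24, 24], 2, [(21, 1), (100, 1), (112, 1), (117, 2)]⟩,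
⟨2, [⟨2, 2, []⟩, ⟨4, 2, []⟩, ⟨8, 2, []⟩, ⟨32, 2, []⟩], [3, 3, 3, 12, 12, 12], 2, [(6, 1), (40, 1), (46, 2)]⟩,
⟨2, [⟨2, 2, []⟩, ⟨4, 4, []⟩, ⟨16, 3, []⟩, ⟨32, 3, []⟩, ⟨64, 3, []⟩], [3, 5, 5, 24, 24], 2, [(22, 1), (100, 1), (112, 1), (118, 2)]⟩,
⟨1, [⟨136, 2, []⟩, ⟨64, 2, []⟩], [3, 3, 3], 1, [(72, 1), (192, 1)]⟩,
⟨2, [⟨1, 3, []⟩, ⟨4, 3, []⟩], [3, 3], 1, [(5, 1)]⟩,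
⟨2, [⟨1, 2, []⟩, ⟨132, 4, []⟩], [3, 1, 1], 1, [(5, 1), (129, 1)]⟩,
⟨1, [⟨12, 3, []⟩, ⟨2, 3, []⟩, ⟨128, 4, []⟩], [7, 3], 1, [(134, 1), (138, 1)]⟩,
⟨2, [⟨2, 2, []⟩, ⟨4, 4, []⟩, ⟨8, 3, []⟩, ⟨32, 3, []⟩, ⟨64, 3, []⟩], [3, 5, 5, 24, 24], 2, [(14, 1), (100, 1), (104, 1), (110, 2)]⟩,
⟨1, [⟨32, 4, []⟩, ⟨72, 3, []⟩, ⟨128, 3, []⟩], [7, 6], 1, [(168, 1), (224, 1)]⟩,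
⟨1, [⟨0, 0, [(5, 2)]⟩, ⟨128, 2, []⟩], [3, 3, 3], 1, [(133, 1)]⟩,
⟨1, [⟨36, 2, []⟩, ⟨192, 2, []⟩], [3, 3, 3], 1, [(68, 1), (96, 1), (132, 1), (160, 1)]⟩,
⟨1, [⟨0, 0, [(36, 2)]⟩, ⟨128, 4, []⟩], [3, 1, 1], 1, [(164, 1)]⟩,
⟨2, [⟨68, 2, []⟩, ⟨128, 4, []⟩], [3, 1, 1], 1, [(132, 1), (192, 1)]⟩,
⟨1, [⟨22, 3, []⟩, ⟨64, 3, []⟩, ⟨128, 4, []⟩], [7, 3], 1, [(194, 1), (196, 1), (208, 1)]⟩,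
⟨2, [⟨34, 2, []⟩, ⟨132, 4, []⟩], [3, 1, 1], 1, [(6, 1), (36, 1), (130, 1), (160, 1)]⟩,
⟨1, [⟨50, 3, []⟩, ⟨8, 3, []⟩, ⟨64, 4, []⟩], [7, 3], 1, [(74, 1), (88, 1), (104, 1)]⟩,
⟨2, [⟨1, 2, []⟩, ⟨2, 2, []⟩, ⟨8, 3, []⟩, ⟨32, 3, []⟩, ⟨128, 5, []⟩], [3, 3, 3, 12, 12], 2, [(131, 1), (168, 1), (171, 2)]⟩,
⟨2, [⟨20, 3, []⟩, ⟨128, 3, []⟩], [3, 3], 1, [(132, 1), (144, 1)]⟩,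
⟨2, [⟨17, 5, []⟩, ⟨4, 3, []⟩, ⟨40, 5, []⟩], [2, 2], 1, [(13, 1), (28, 1), (37, 1), (52, 1)]⟩,
⟨0, [⟨10, 2, []⟩, ⟨65, 2, []⟩], [3, 3, 3], 1, [(3, 1), (9, 1), (66, 1), (72, 1)]⟩,
⟨1, [⟨16, 3, []⟩, ⟨32, 3, []⟩, ⟨192, 4, []⟩], [7, 3], 1, [(112, 1), (176, 1)]⟩,
⟨2, [⟨80, 4, []⟩, ⟨40, 2, []⟩], [3, 2, 2], 1, [(24, 1), (48, 1), (72, 1), (96, 1)]⟩,
⟨2, [⟨3, 3, []⟩, ⟨128, 3, []⟩], [3, 3], 1, [(129, 1), (130, 1)]⟩,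
⟨2, [⟨0, 0, [(68, 3)]⟩, ⟨1, 3, []⟩], [3, 3], 1, [(69, 1)]⟩,
⟨2, [⟨32, 3, []⟩, ⟨16, 2, []⟩, ⟨2, 3, []⟩, ⟨4, 3, []⟩, ⟨64, 4, []⟩], [3, 3, 18, 12, 12], 2, [(38, 1), (70, 1), (112, 1), (118, 2)]⟩,
⟨2, [⟨34, 4, []⟩, ⟨64, 4, []⟩, ⟨128, 4, []⟩], [7], 1, [(194, 1), (224, 1)]⟩,
⟨2, [⟨2, 2, []⟩, ⟨128, 4, []⟩], [3, 1, 1], 1, [(130, 1)]⟩,
⟨2, [⟨40, 4, []⟩, ⟨16, 2, []⟩], [3, 2, 2], 1, [(24, 1), (48, 1)]⟩,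
⟨2, [⟨8, 3, []⟩, ⟨16, 3, []⟩, ⟨2, 4, []⟩, ⟨4, 4, []⟩, ⟨64, 3, []⟩], [3, 3, 12, 16, 16], 2, [(30, 1), (70, 1), (88, 1), (94, 2)]⟩,
⟨2, [⟨2, 3, []⟩, ⟨132, 3, []⟩], [3, 3], 1, [(6, 1), (130, 1)]⟩,
⟨2, [⟨32, 3, []⟩, ⟨8, 2, []⟩, ⟨2, 3, []⟩, ⟨4, 3, []⟩, ⟨64, 4, []⟩], [3, 3, 18, 12, 12], 2, [(38, 1), (70, 1), (104, 1), (110, 2)]⟩,
⟨1, [⟨1, 3, []⟩, ⟨4, 3, []⟩, ⟨128, 4, []⟩], [7, 3], 1, [(133, 1)]⟩,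
⟨2, [⟨6, 2, []⟩, ⟨128, 4, []⟩], [3, 1, 1], 1, [(130, 1), (132, 1)]⟩,
⟨2, [⟨4, 2, []⟩, ⟨64, 4, []⟩], [3, 1, 1], 1, [(68, 1)]⟩,
⟨1, [⟨8, 2, []⟩, ⟨192, 2, []⟩], [3, 3, 3], 1, [(72, 1), (136, 1)]⟩,
⟨2, [⟨6, 4, []⟩, ⟨33, 4, []⟩, ⟨64, 4, []⟩], [7], 1, [(67, 1), (69, 1), (98, 1), (100, 1)]⟩,
⟨1, [⟨36, 3, []⟩, ⟨3, 3, []⟩, ⟨128, 4, []⟩], [7, 3], 1, [(133, 1), (134, 1), (161, 1), (162, 1)]⟩,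
⟨1, [⟨6, 2, []⟩, ⟨24, 2, []⟩], [3, 3, 3], 1, [(10, 1), (12, 1), (18, 1), (20, 1)]⟩,
⟨1, [⟨48, 2, []⟩, ⟨128, 2, []⟩], [3, 3, 3], 1, [(144, 1), (160, 1)]⟩,
⟨2, [⟨0, 0, [(24, 2)]⟩, ⟨128, 4, []⟩], [3, 1, 1], 1, [(152, 1)]⟩,
⟨1, [⟨40, 3, []⟩, ⟨144, 3, []⟩, ⟨64, 4, []⟩], [7, 3], 1, [(88, 1), (112, 1), (200, 1), (224, 1)]⟩,
⟨2, [⟨4, 4, []⟩, ⟨16, 2, []⟩], [3, 2, 2], 1, [(20, 1)]⟩,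
⟨2, [⟨0, 0, [(3, 3)]⟩, ⟨64, 3, []⟩], [3, 3], 1, [(67, 1)]⟩,
⟨1, [⟨4, 3, []⟩, ⟨32, 3, []⟩, ⟨64, 4, []⟩], [7, 3], 1, [(100, 1)]⟩,
⟨2, [⟨1, 2, []⟩, ⟨4, 4, []⟩], [3, 1, 1], 1, [(5, 1)]⟩,
⟨2, [⟨0, 0, [(12, 2)]⟩, ⟨48, 4, []⟩], [3, 1, 1], 1, [(28, 1), (44, 1)]⟩,
⟨1, [⟨66, 2, []⟩, ⟨128, 2, []⟩], [3, 3, 3], 1, [(130, 1), (192, 1)]⟩,
⟨2, [⟨24, 3, []⟩, ⟨64, 3, []⟩], [3, 3], 1, [(72, 1), (80, 1)]⟩,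
⟨2, [⟨36, 3, []⟩, ⟨128, 3, []⟩], [3, 3], 1, [(132, 1), (160, 1)]⟩,
⟨1, [⟨1, 3, []⟩, ⟨64, 3, []⟩, ⟨128, 4, []⟩], [7, 3], 1, [(193, 1)]⟩,
⟨2, [⟨18, 2, []⟩, ⟨64, 4, []⟩], [3, 1, 1], 1, [(66, 1), (80, 1)]⟩,
⟨2, [⟨80, 2, []⟩, ⟨128, 4, []⟩], [3, 1, 1], 1, [(144, 1), (192, 1)]⟩,
⟨2, [⟨1, 3, []⟩, ⟨2, 3, []⟩, ⟨8, 3, []⟩, ⟨16, 3, []⟩, ⟨128, 4, []⟩], [3, 3, 12, 12, 16], 2, [(27, 1), (131, 1), (152, 1), (155, 2)]⟩,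
⟨1, [⟨0, 0, [(24, 2)]⟩, ⟨32, 2, []⟩], [3, 3, 3], 1, [(56, 1)]⟩,
⟨2, [⟨0, 0, [(34, 2)]⟩, ⟨128, 4, []⟩], [3, 1, 1], 1, [(162, 1)]⟩,
⟨0, [⟨72, 2, []⟩, ⟨6, 2, []⟩], [3, 3, 3], 1, [(10, 1), (12, 1), (66, 1), (68, 1)]⟩,
⟨1, [⟨68, 4, []⟩, ⟨1, 3, []⟩, ⟨128, 3, []⟩], [7, 6], 1, [(133, 1), (193, 1)]⟩,
⟨1, [⟨18, 3, []⟩, ⟨32, 3, []⟩, ⟨64, 4, []⟩], [7, 3], 1, [(98, 1), (112, 1)]⟩,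
⟨2, [⟨1, 3, []⟩, ⟨128, 3, []⟩], [3, 3], 1, [(129, 1)]⟩,
⟨2, [⟨2, 3, []⟩, ⟨4, 3, []⟩], [3, 3], 1, [(6, 1)]⟩,
⟨1, [⟨5, 2, []⟩, ⟨192, 2, []⟩], [3, 3, 3], 1, [(65, 1), (68, 1), (129, 1), (132, 1)]⟩,
⟨1, [⟨16, 3, []⟩, ⟨64, 3, []⟩, ⟨128, 4, []⟩], [7, 3], 1, [(208, 1)]⟩,
⟨2, [⟨0, 0, [(10, 3)]⟩, ⟨4, 3, []⟩, ⟨32, 3, []⟩, ⟨64, 3, []⟩], [1, 1, 2, 2, 4, 4, 8, 8], 2, [(46, 1), (78, 1), (100, 1), (106, 1), (110, 2)]⟩,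
⟨2, [⟨4, 3, []⟩, ⟨64, 3, []⟩], [3, 3], 1, [(68, 1)]⟩,
⟨1, [⟨36, 2, []⟩, ⟨66, 2, []⟩], [3, 3, 3], 1, [(6, 1), (34, 1), (68, 1), (96, 1)]⟩,
⟨2, [⟨24, 4, []⟩, ⟨34, 4, []⟩, ⟨64, 4, []⟩], [7], 1, [(74, 1), (82, 1), (104, 1), (112, 1)]⟩,
⟨1, [⟨68, 2, []⟩, ⟨48, 2, []⟩], [3, 3, 3], 1, [(20, 1), (36, 1), (80, 1), (96, 1)]⟩,
⟨1, [⟨1, 3, []⟩, ⟨32, 3, []⟩, ⟨128, 4, []⟩], [7, 3], 1, [(161, 1)]⟩,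
⟨1, [⟨36, 3, []⟩, ⟨66, 3, []⟩, ⟨128, 4, []⟩], [7, 3], 1, [(134, 1), (162, 1), (196, 1), (224, 1)]⟩,
⟨1, [⟨132, 3, []⟩, ⟨16, 3, []⟩, ⟨64, 4, []⟩], [7, 3], 1, [(84, 1), (208, 1)]⟩,
⟨2, [⟨12, 4, []⟩, ⟨64, 4, []⟩, ⟨128, 4, []⟩], [7], 1, [(196, 1), (200, 1)]⟩,
⟨1, [⟨160, 3, []⟩, ⟨2, 3, []⟩, ⟨64, 4, []⟩], [7, 3], 1, [(98, 1), (194, 1)]⟩,
⟨2, [⟨10, 5, []⟩, ⟨32, 3, []⟩, ⟨128, 5, []⟩], [2, 2], 1, [(162, 1), (168, 1)]⟩,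
⟨2, [⟨12, 4, []⟩, ⟨16, 4, []⟩, ⟨32, 4, []⟩], [7], 1, [(52, 1), (56, 1)]⟩,
⟨2, [⟨32, 2, []⟩, ⟨2, 3, []⟩, ⟨4, 3, []⟩, ⟨64, 3, []⟩, ⟨128, 4, []⟩], [9, 9, 17, 6, 6], 2, [(70, 1), (134, 1), (224, 1), (230, 2)]⟩,
⟨2, [⟨20, 4, []⟩, ⟨64, 4, []⟩, ⟨128, 4, []⟩], [7], 1, [(196, 1), (208, 1)]⟩,
⟨2, [⟨33, 4, []⟩, ⟨4, 4, []⟩, ⟨128, 4, []⟩], [7], 1, [(133, 1), (164, 1)]⟩,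
⟨2, [⟨18, 3, []⟩, ⟨128, 3, []⟩], [3, 3], 1, [(130, 1), (144, 1)]⟩,
⟨1, [⟨1, 2, []⟩, ⟨4, 2, []⟩], [3, 3, 3], 1, [(5, 1)]⟩,
⟨1, [⟨4, 3, []⟩, ⟨2, 4, []⟩, ⟨192, 3, []⟩], [7, 5], 1, [(70, 1), (134, 1)]⟩,
⟨1, [⟨176, 2, []⟩, ⟨64, 2, []⟩], [3, 3, 3], 1, [(80, 1), (96, 1), (192, 1)]⟩,
⟨2, [⟨6, 3, []⟩, ⟨64, 3, []⟩], [3, 3], 1, [(66, 1), (68, 1)]⟩,
⟨2, [⟨176, 3, []⟩, ⟨64, 3, []⟩], [3, 3], 1, [(80, 1), (96, 1), (192, 1)]⟩,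
⟨1, [⟨2, 2, []⟩, ⟨4, 2, []⟩, ⟨16, 1, []⟩, ⟨128, 5, []⟩], [3, 3, 3, 4, 4, 4, 4], 2, [(134, 1), (144, 1), (150, 2)]⟩,
⟨1, [⟨16, 2, []⟩, ⟨6, 2, []⟩], [3, 3, 3], 1, [(18, 1), (20, 1)]⟩,
⟨1, [⟨160, 2, []⟩, ⟨64, 2, []⟩], [3, 3, 3], 1, [(96, 1), (192, 1)]⟩,
⟨2, [⟨4, 3, []⟩, ⟨96, 3, []⟩], [3, 3], 1, [(36, 1), (68, 1)]⟩,
⟨2, [⟨16, 2, []⟩, ⟨192, 4, []⟩], [3, 1, 1], 1, [(80, 1), (144, 1)]⟩,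
⟨2, [⟨36, 4, []⟩, ⟨2, 4, []⟩, ⟨64, 4, []⟩], [7], 1, [(70, 1), (98, 1)]⟩,
⟨1, [⟨4, 2, []⟩, ⟨8, 2, []⟩], [3, 3, 3], 1, [(12, 1)]⟩,
⟨1, [⟨0, 0, [(96, 2)]⟩, ⟨16, 2, []⟩], [3, 3, 3], 1, [(112, 1)]⟩,
⟨2, [⟨4, 2, []⟩, ⟨2, 4, []⟩, ⟨8, 3, []⟩, ⟨32, 3, []⟩, ⟨64, 3, []⟩], [3, 17, 17, 12, 12], 2, [(42, 1), (70, 1), (104, 1), (110, 2)]⟩,
⟨2, [⟨10, 4, []⟩, ⟨80, 4, []⟩, ⟨32, 4, []⟩], [7], 1, [(50, 1), (56, 1), (98, 1), (104, 1)]⟩,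
⟨2, [⟨17, 5, []⟩, ⟨2, 3, []⟩, ⟨128, 5, []⟩], [2, 2], 1, [(131, 1), (146, 1)]⟩,
⟨2, [⟨72, 4, []⟩, ⟨128, 2, []⟩], [3, 2, 2], 1, [(136, 1), (192, 1)]⟩,
⟨1, [⟨48, 2, []⟩, ⟨192, 2, []⟩], [3, 3, 3], 1, [(80, 1), (96, 1), (144, 1), (160, 1)]⟩,
⟨1, [⟨18, 3, []⟩, ⟨32, 3, []⟩, ⟨128, 4, []⟩], [7, 3], 1, [(162, 1), (176, 1)]⟩,
⟨1, [⟨20, 3, []⟩, ⟨32, 3, []⟩, ⟨64, 4, []⟩], [7, 3], 1, [(100, 1), (112, 1)]⟩,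
⟨2, [⟨0, 0, [(9, 3)]⟩, ⟨4, 3, []⟩, ⟨32, 3, []⟩, ⟨64, 3, []⟩], [1, 1, 2, 2, 4, 4, 8, 8], 2, [(45, 1), (77, 1), (100, 1), (105, 1), (109, 2)]⟩,
⟨2, [⟨144, 3, []⟩, ⟨64, 3, []⟩], [3, 3], 1, [(80, 1), (192, 1)]⟩,
⟨2, [⟨16, 2, []⟩, ⟨32, 4, []⟩, ⟨2, 3, []⟩, ⟨4, 3, []⟩, ⟨64, 3, []⟩], [3, 5, 5, 24, 24], 2, [(50, 1), (70, 1), (100, 1), (118, 2)]⟩,
⟨1, [⟨32, 2, []⟩, ⟨200, 2, []⟩], [3, 3, 3], 1, [(40, 1), (96, 1), (160, 1)]⟩,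
⟨2, [⟨4, 3, []⟩, ⟨2, 2, []⟩, ⟨16, 3, []⟩, ⟨32, 3, []⟩, ⟨64, 4, []⟩], [3, 3, 18, 12, 12], 2, [(52, 1), (70, 1), (112, 1), (118, 2)]⟩,
⟨1, [⟨12, 2, []⟩, ⟨2, 2, []⟩], [3, 3, 3], 1, [(6, 1), (10, 1)]⟩,
⟨2, [⟨66, 4, []⟩, ⟨128, 2, []⟩], [3, 2, 2], 1, [(130, 1), (192, 1)]⟩,
⟨2, [⟨130, 4, []⟩, ⟨4, 4, []⟩, ⟨64, 4, []⟩], [7], 1, [(70, 1), (196, 1)]⟩,
⟨2, [⟨0, 0, [(48, 2)]⟩, ⟨128, 4, []⟩], [3, 1, 1], 1, [(176, 1)]⟩,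
⟨1, [⟨34, 3, []⟩, ⟨64, 3, []⟩, ⟨128, 4, []⟩], [7, 3], 1, [(194, 1), (224, 1)]⟩,
⟨2, [⟨96, 3, []⟩, ⟨128, 3, []⟩], [3, 3], 1, [(160, 1), (192, 1)]⟩,
⟨1, [⟨8, 3, []⟩, ⟨16, 3, []⟩, ⟨128, 4, []⟩], [7, 3], 1, [(152, 1)]⟩,
⟨2, [⟨40, 2, []⟩, ⟨64, 4, []⟩], [3, 1, 1], 1, [(72, 1), (96, 1)]⟩,
⟨1, [⟨0, 0, [(40, 2)]⟩, ⟨128, 2, []⟩], [3, 3, 3], 1, [(168, 1)]⟩,
⟨2, [⟨16, 2, []⟩, ⟨64, 4, []⟩], [3, 1, 1], 1, [(80, 1)]⟩,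
⟨1, [⟨80, 4, []⟩, ⟨0, 0, [(6, 2)]⟩], [3, 2, 2], 1, [(22, 1), (70, 1)]⟩,
⟨1, [⟨20, 2, []⟩, ⟨192, 2, []⟩], [3, 3, 3], 1, [(68, 1), (80, 1), (132, 1), (144, 1)]⟩,
⟨1, [⟨20, 2, []⟩, ⟨72, 2, []⟩], [3, 3, 3], 1, [(12, 1), (24, 1), (68, 1), (80, 1)]⟩,
⟨2, [⟨6, 3, []⟩, ⟨128, 3, []⟩], [3, 3], 1, [(130, 1), (132, 1)]⟩,
⟨2, [⟨4, 3, []⟩, ⟨128, 3, []⟩], [3, 3], 1, [(132, 1)]⟩,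
⟨0, [⟨80, 2, []⟩, ⟨3, 2, []⟩], [3, 3, 3], 1, [(17, 1), (18, 1), (65, 1), (66, 1)]⟩,
⟨2, [⟨48, 2, []⟩, ⟨64, 4, []⟩], [3, 1, 1], 1, [(80, 1), (96, 1)]⟩,
⟨1, [⟨32, 2, []⟩, ⟨208, 2, []⟩], [3, 3, 3], 1, [(48, 1), (96, 1), (160, 1)]⟩,
⟨1, [⟨8, 3, []⟩, ⟨32, 3, []⟩, ⟨80, 4, []⟩], [7, 3], 1, [(56, 1), (104, 1)]⟩,
⟨1, [⟨2, 4, []⟩, ⟨68, 3, []⟩, ⟨128, 3, []⟩], [7, 6], 1, [(134, 1), (194, 1)]⟩,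
⟨1, [⟨66, 4, []⟩, ⟨1, 3, []⟩, ⟨128, 3, []⟩], [7, 6], 1, [(131, 1), (193, 1)]⟩,
⟨2, [⟨48, 4, []⟩, ⟨2, 4, []⟩, ⟨4, 4, []⟩], [7], 1, [(22, 1), (38, 1)]⟩,
⟨2, [⟨0, 0, [(6, 3)]⟩, ⟨64, 3, []⟩], [3, 3], 1, [(70, 1)]⟩,
⟨2, [⟨1, 3, []⟩, ⟨4, 2, []⟩, ⟨16, 3, []⟩, ⟨32, 3, []⟩, ⟨64, 4, []⟩], [3, 3, 18, 12, 12], 2, [(49, 1), (69, 1), (112, 1), (117, 2)]⟩,
⟨1, [⟨12, 3, []⟩, ⟨2, 3, []⟩, ⟨96, 4, []⟩], [7, 3], 1, [(38, 1), (42, 1), (70, 1), (74, 1)]⟩,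
⟨2, [⟨1, 2, []⟩, ⟨4, 4, []⟩, ⟨8, 3, []⟩, ⟨16, 3, []⟩, ⟨64, 3, []⟩], [3, 17, 17, 12, 12], 2, [(28, 1), (69, 1), (88, 1), (93, 2)]⟩,
⟨2, [⟨16, 4, []⟩, ⟨32, 4, []⟩, ⟨128, 4, []⟩], [7], 1, [(176, 1)]⟩,
⟨2, [⟨3, 4, []⟩, ⟨36, 4, []⟩, ⟨64, 4, []⟩], [7], 1, [(69, 1), (70, 1), (97, 1), (98, 1)]⟩,
⟨0, [⟨34, 2, []⟩, ⟨24, 2, []⟩], [3, 3, 3], 1, [(10, 1), (18, 1), (40, 1), (48, 1)]⟩,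
⟨0, [⟨12, 2, []⟩, ⟨130, 2, []⟩], [3, 3, 3], 1, [(6, 1), (10, 1), (132, 1), (136, 1)]⟩,
⟨2, [⟨10, 4, []⟩, ⟨4, 4, []⟩, ⟨128, 4, []⟩], [7], 1, [(134, 1), (140, 1)]⟩,
⟨1, [⟨18, 3, []⟩, ⟨36, 3, []⟩, ⟨128, 4, []⟩], [7, 3], 1, [(134, 1), (148, 1), (162, 1), (176, 1)]⟩,
⟨1, [⟨36, 3, []⟩, ⟨2, 3, []⟩, ⟨128, 4, []⟩], [7, 3], 1, [(134, 1), (162, 1)]⟩,
⟨2, [⟨1, 3, []⟩, ⟨4, 3, []⟩, ⟨8, 3, []⟩, ⟨16, 3, []⟩, ⟨64, 4, []⟩], [3, 3, 12, 12, 16], 2, [(29, 1), (69, 1), (88, 1), (93, 2)]⟩,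
⟨0, [⟨16, 2, []⟩, ⟨224, 2, []⟩], [3, 3, 3], 1, [(48, 1), (80, 1), (144, 1)]⟩,
⟨2, [⟨24, 4, []⟩, ⟨128, 2, []⟩], [3, 2, 2], 1, [(136, 1), (144, 1)]⟩,
⟨2, [⟨4, 3, []⟩, ⟨1, 2, []⟩, ⟨16, 3, []⟩, ⟨32, 3, []⟩, ⟨64, 4, []⟩], [3, 3, 18, 12, 12], 2, [(52, 1), (69, 1), (112, 1), (117, 2)]⟩,
⟨1, [⟨132, 3, []⟩, ⟨32, 3, []⟩, ⟨64, 4, []⟩], [7, 3], 1, [(100, 1), (224, 1)]⟩,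
⟨1, [⟨0, 0, [(34, 2)]⟩, ⟨128, 4, []⟩], [3, 1, 1], 1, [(162, 1)]⟩,
⟨2, [⟨4, 2, []⟩, ⟨128, 4, []⟩], [3, 1, 1], 1, [(132, 1)]⟩,
⟨1, [⟨1, 3, []⟩, ⟨128, 3, []⟩], [3, 3], 1, [(129, 1)]⟩,
⟨1, [⟨96, 4, []⟩, ⟨16, 3, []⟩, ⟨128, 3, []⟩], [7, 6], 1, [(176, 1), (208, 1)]⟩,
⟨2, [⟨2, 2, []⟩, ⟨4, 2, []⟩, ⟨40, 4, []⟩, ⟨16, 3, []⟩, ⟨64, 4, []⟩], [3, 3, 3, 12, 24], 2, [(14, 1), (38, 1), (70, 1), (88, 1), (94, 2), (112, 1), (118, 2)]⟩,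
⟨2, [⟨20, 4, []⟩, ⟨32, 2, []⟩], [3, 2, 2], 1, [(36, 1), (48, 1)]⟩,
⟨1, [⟨34, 3, []⟩, ⟨4, 3, []⟩, ⟨64, 4, []⟩], [7, 3], 1, [(70, 1), (100, 1)]⟩,
⟨2, [⟨36, 5, []⟩, ⟨3, 5, []⟩, ⟨64, 3, []⟩], [4, 4], 1, [(69, 1), (70, 1), (97, 1), (98, 1)]⟩,
⟨2, [⟨18, 3, []⟩, ⟨64, 3, []⟩], [3, 3], 1, [(66, 1), (80, 1)]⟩,
⟨2, [⟨2, 2, []⟩, ⟨4, 2, []⟩, ⟨16, 2, []⟩, ⟨32, 2, []⟩], [3, 3, 3, 12, 12, 12], 2, [(6, 1), (48, 1), (54, 2)]⟩,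
⟨2, [⟨32, 3, []⟩, ⟨8, 2, []⟩, ⟨1, 3, []⟩, ⟨4, 3, []⟩, ⟨64, 4, []⟩], [3, 3, 18, 12, 12], 2, [(37, 1), (69, 1), (104, 1), (109, 2)]⟩,
⟨0, [⟨65, 2, []⟩, ⟨48, 2, []⟩], [3, 3, 3], 1, [(17, 1), (33, 1), (80, 1), (96, 1)]⟩,
⟨0, [⟨68, 2, []⟩, ⟨24, 2, []⟩], [3, 3, 3], 1, [(12, 1), (20, 1), (72, 1), (80, 1)]⟩,
⟨2, [⟨34, 5, []⟩, ⟨20, 5, []⟩, ⟨8, 3, []⟩], [4, 4], 1, [(14, 1), (26, 1), (44, 1), (56, 1)]⟩,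
⟨2, [⟨16, 3, []⟩, ⟨72, 3, []⟩], [3, 3], 1, [(24, 1), (80, 1)]⟩,
⟨2, [⟨0, 0, [(3, 3)]⟩, ⟨4, 3, []⟩], [3, 3], 1, [(7, 1)]⟩,
⟨2, [⟨16, 2, []⟩, ⟨32, 2, []⟩, ⟨1, 3, []⟩, ⟨4, 3, []⟩, ⟨64, 5, []⟩], [3, 3, 3, 12, 12], 2, [(69, 1), (112, 1), (117, 2)]⟩,
⟨2, [⟨36, 5, []⟩, ⟨2, 3, []⟩, ⟨128, 5, []⟩], [2, 2], 1, [(134, 1), (162, 1)]⟩,
⟨2, [⟨24, 4, []⟩, ⟨2, 4, []⟩, ⟨128, 4, []⟩], [7], 1, [(138, 1), (146, 1)]⟩,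
⟨2, [⟨2, 3, []⟩, ⟨4, 2, []⟩, ⟨16, 3, []⟩, ⟨32, 3, []⟩, ⟨64, 4, []⟩], [3, 3, 18, 12, 12], 2, [(50, 1), (70, 1), (112, 1), (118, 2)]⟩,
⟨2, [⟨0, 0, [(3, 2)]⟩, ⟨128, 4, []⟩], [3, 1, 1], 1, [(131, 1)]⟩,
⟨0, [⟨1, 2, []⟩, ⟨24, 2, []⟩], [3, 3, 3], 1, [(9, 1), (17, 1)]⟩,
⟨2, [⟨34, 4, []⟩, ⟨16, 4, []⟩, ⟨128, 4, []⟩], [7], 1, [(146, 1), (176, 1)]⟩,
⟨2, [⟨18, 4, []⟩, ⟨32, 4, []⟩, ⟨128, 4, []⟩], [7], 1, [(162, 1), (176, 1)]⟩,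
⟨2, [⟨1, 3, []⟩, ⟨2, 3, []⟩, ⟨16, 4, []⟩, ⟨32, 4, []⟩, ⟨64, 3, []⟩], [3, 3, 12, 16, 16], 2, [(51, 1), (67, 1), (112, 1), (115, 2)]⟩,
⟨2, [⟨80, 4, []⟩, ⟨32, 4, []⟩, ⟨128, 4, []⟩], [7], 1, [(176, 1), (224, 1)]⟩,
⟨2, [⟨4, 3, []⟩, ⟨2, 2, []⟩, ⟨16, 3, []⟩, ⟨32, 3, []⟩, ⟨64, 4, []⟩], [3, 3, 10, 12, 20], 2, [(38, 1), (70, 1), (84, 1), (112, 1), (118, 2)]⟩,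
⟨2, [⟨2, 2, []⟩, ⟨4, 3, []⟩, ⟨16, 3, []⟩, ⟨32, 3, []⟩, ⟨64, 4, []⟩], [3, 3, 5, 12, 24], 2, [(22, 1), (70, 1), (100, 1), (112, 1), (118, 2)]⟩,
⟨2, [⟨18, 4, []⟩, ⟨4, 4, []⟩, ⟨128, 4, []⟩], [7], 1, [(134, 1), (148, 1)]⟩,
⟨2, [⟨20, 2, []⟩, ⟨128, 4, []⟩], [3, 1, 1], 1, [(132, 1), (144, 1)]⟩,
⟨1, [⟨4, 2, []⟩, ⟨194, 2, []⟩], [3, 3, 3], 1, [(6, 1), (68, 1), (132, 1)]⟩,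
⟨1, [⟨18, 3, []⟩, ⟨40, 3, []⟩, ⟨128, 4, []⟩], [7, 3], 1, [(138, 1), (152, 1), (162, 1), (176, 1)]⟩,
⟨2, [⟨0, 0, [(72, 3)]⟩, ⟨32, 3, []⟩], [3, 3], 1, [(104, 1)]⟩,
⟨2, [⟨2, 2, []⟩, ⟨4, 4, []⟩, ⟨8, 3, []⟩, ⟨16, 3, []⟩, ⟨64, 3, []⟩], [3, 17, 17, 12, 12], 2, [(28, 1), (70, 1), (88, 1), (94, 2)]⟩,
⟨2, [⟨8, 3, []⟩, ⟨32, 3, []⟩, ⟨4, 3, []⟩, ⟨2, 2, []⟩, ⟨128, 4, []⟩], [3, 3, 12, 12, 24], 2, [(44, 1), (134, 1), (168, 1), (174, 2)]⟩,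
⟨2, [⟨16, 2, []⟩, ⟨160, 4, []⟩], [3, 1, 1], 1, [(48, 1), (144, 1)]⟩,
⟨2, [⟨8, 2, []⟩, ⟨32, 4, []⟩, ⟨1, 3, []⟩, ⟨2, 3, []⟩, ⟨64, 3, []⟩], [3, 5, 5, 24, 24], 2, [(41, 1), (67, 1), (98, 1), (107, 2)]⟩,
⟨0, [⟨1, 2, []⟩, ⟨8, 2, []⟩], [3, 3, 3], 1, [(9, 1)]⟩,
⟨2, [⟨34, 4, []⟩, ⟨16, 4, []⟩, ⟨64, 4, []⟩], [7], 1, [(82, 1), (112, 1)]⟩,
⟨2, [⟨16, 2, []⟩, ⟨128, 4, []⟩], [3, 1, 1], 1, [(144, 1)]⟩,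
⟨2, [⟨9, 5, []⟩, ⟨32, 3, []⟩, ⟨128, 5, []⟩], [2, 2], 1, [(161, 1), (168, 1)]⟩,
⟨2, [⟨2, 2, []⟩, ⟨4, 2, []⟩, ⟨0, 0, [(24, 2)]⟩, ⟨32, 2, []⟩], [3, 3, 3, 12, 12, 12], 2, [(6, 1), (56, 1), (62, 2)]⟩,
⟨2, [⟨96, 4, []⟩, ⟨16, 4, []⟩, ⟨128, 4, []⟩], [7], 1, [(176, 1), (208, 1)]⟩,
⟨2, [⟨4, 3, []⟩, ⟨1, 2, []⟩, ⟨8, 3, []⟩, ⟨16, 3, []⟩, ⟨64, 4, []⟩], [3, 3, 10, 12, 20], 2, [(21, 1), (69, 1), (76, 1), (88, 1), (93, 2)]⟩,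
⟨2, [⟨3, 4, []⟩, ⟨4, 4, []⟩, ⟨192, 4, []⟩], [7], 1, [(69, 1), (70, 1), (133, 1), (134, 1)]⟩,
⟨1, [⟨24, 2, []⟩, ⟨128, 2, []⟩], [3, 3, 3], 1, [(136, 1), (144, 1)]⟩,
⟨2, [⟨65, 4, []⟩, ⟨128, 2, []⟩], [3, 2, 2], 1, [(129, 1), (192, 1)]⟩,
⟨2, [⟨6, 4, []⟩, ⟨1, 2, []⟩], [3, 2, 2], 1, [(3, 1), (5, 1)]⟩,
⟨1, [⟨20, 3, []⟩, ⟨64, 4, []⟩, ⟨128, 3, []⟩], [7, 5], 1, [(196, 1), (208, 1)]⟩,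
⟨2, [⟨3, 2, []⟩, ⟨64, 4, []⟩], [3, 1, 1], 1, [(65, 1), (66, 1)]⟩,
⟨1, [⟨34, 3, []⟩, ⟨80, 3, []⟩, ⟨128, 4, []⟩], [7, 3], 1, [(146, 1), (176, 1), (194, 1), (224, 1)]⟩,
⟨1, [⟨34, 3, []⟩, ⟨8, 3, []⟩, ⟨64, 4, []⟩], [7, 3], 1, [(74, 1), (104, 1)]⟩,
⟨2, [⟨6, 4, []⟩, ⟨32, 2, []⟩], [3, 2, 2], 1, [(34, 1), (36, 1)]⟩,
⟨2, [⟨32, 2, []⟩, ⟨1, 2, []⟩, ⟨2, 2, []⟩, ⟨64, 2, []⟩], [9, 9, 9, 6, 6, 6], 2, [(3, 1), (96, 1), (99, 2)]⟩,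
⟨2, [⟨9, 4, []⟩, ⟨80, 4, []⟩, ⟨32, 4, []⟩], [7], 1, [(49, 1), (56, 1), (97, 1), (104, 1)]⟩,
⟨1, [⟨33, 3, []⟩, ⟨64, 4, []⟩, ⟨128, 3, []⟩], [7, 5], 1, [(193, 1), (224, 1)]⟩,
⟨0, [⟨5, 2, []⟩, ⟨66, 2, []⟩], [3, 3, 3], 1, [(3, 1), (6, 1), (65, 1), (68, 1)]⟩,
⟨2, [⟨9, 4, []⟩, ⟨66, 4, []⟩, ⟨4, 4, []⟩], [7], 1, [(7, 1), (14, 1), (69, 1), (76, 1)]⟩,
⟨2, [⟨4, 2, []⟩, ⟨2, 4, []⟩, ⟨16, 3, []⟩, ⟨32, 3, []⟩, ⟨64, 3, []⟩], [3, 17, 17, 12, 12], 2, [(50, 1), (70, 1), (112, 1), (118, 2)]⟩,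
⟨2, [⟨18, 2, []⟩, ⟨128, 4, []⟩], [3, 1, 1], 1, [(130, 1), (144, 1)]⟩,
⟨1, [⟨4, 2, []⟩, ⟨32, 2, []⟩], [3, 3, 3], 1, [(36, 1)]⟩,
⟨1, [⟨1, 2, []⟩, ⟨2, 2, []⟩], [3, 3, 3], 1, [(3, 1)]⟩,
⟨1, [⟨96, 2, []⟩, ⟨128, 4, []⟩], [3, 1, 1], 1, [(160, 1), (192, 1)]⟩,
⟨1, [⟨18, 3, []⟩, ⟨65, 3, []⟩, ⟨128, 4, []⟩], [7, 3], 1, [(131, 1), (145, 1), (194, 1), (208, 1)]⟩,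
⟨2, [⟨1, 3, []⟩, ⟨4, 3, []⟩, ⟨16, 3, []⟩, ⟨32, 3, []⟩, ⟨128, 4, []⟩], [3, 3, 12, 12, 16], 2, [(53, 1), (133, 1), (176, 1), (181, 2)]⟩,
⟨1, [⟨32, 2, []⟩, ⟨3, 2, []⟩], [3, 3, 3], 1, [(33, 1), (34, 1)]⟩,
⟨2, [⟨16, 3, []⟩, ⟨32, 3, []⟩, ⟨2, 3, []⟩, ⟨4, 2, []⟩, ⟨128, 4, []⟩], [3, 3, 12, 12, 24], 2, [(50, 1), (134, 1), (176, 1), (182, 2)]⟩,
⟨2, [⟨8, 2, []⟩, ⟨32, 4, []⟩, ⟨1, 3, []⟩, ⟨4, 3, []⟩, ⟨64, 3, []⟩], [3, 5, 5, 24, 24], 2, [(41, 1), (69, 1), (100, 1), (109, 2)]⟩,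
⟨2, [⟨6, 4, []⟩, ⟨32, 4, []⟩, ⟨128, 4, []⟩], [7], 1, [(162, 1), (164, 1)]⟩,
⟨2, [⟨16, 2, []⟩, ⟨2, 2, []⟩, ⟨4, 2, []⟩, ⟨64, 2, []⟩], [9, 9, 9, 6, 6, 6], 2, [(6, 1), (80, 1), (86, 2)]⟩,
⟨1, [⟨10, 2, []⟩, ⟨192, 2, []⟩], [3, 3, 3], 1, [(66, 1), (72, 1), (130, 1), (136, 1)]⟩,
⟨1, [⟨1, 2, []⟩, ⟨128, 2, []⟩], [3, 3, 3], 1, [(129, 1)]⟩,
⟨2, [⟨4, 3, []⟩, ⟨48, 3, []⟩], [3, 3], 1, [(20, 1), (36, 1)]⟩,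
⟨2, [⟨20, 4, []⟩, ⟨2, 2, []⟩], [3, 2, 2], 1, [(6, 1), (18, 1)]⟩,
⟨1, [⟨16, 2, []⟩, ⟨128, 2, []⟩], [3, 3, 3], 1, [(144, 1)]⟩,
⟨1, [⟨32, 2, []⟩, ⟨192, 2, []⟩], [3, 3, 3], 1, [(96, 1), (160, 1)]⟩,
⟨2, [⟨2, 3, []⟩, ⟨4, 3, []⟩, ⟨8, 3, []⟩, ⟨32, 3, []⟩, ⟨64, 4, []⟩], [3, 3, 12, 12, 16], 2, [(46, 1), (70, 1), (104, 1), (110, 2)]⟩,
⟨1, [⟨34, 2, []⟩, ⟨128, 2, []⟩], [3, 3, 3], 1, [(130, 1), (160, 1)]⟩,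
⟨2, [⟨40, 4, []⟩, ⟨18, 4, []⟩, ⟨64, 4, []⟩], [7], 1, [(74, 1), (88, 1), (98, 1), (112, 1)]⟩,
⟨0, [⟨66, 2, []⟩, ⟨24, 2, []⟩], [3, 3, 3], 1, [(10, 1), (18, 1), (72, 1), (80, 1)]⟩,
⟨2, [⟨16, 3, []⟩, ⟨128, 3, []⟩], [3, 3], 1, [(144, 1)]⟩,
⟨2, [⟨0, 0, [(66, 3)]⟩, ⟨1, 3, []⟩], [3, 3], 1, [(67, 1)]⟩,
⟨1, [⟨36, 3, []⟩, ⟨16, 3, []⟩, ⟨128, 4, []⟩], [7, 3], 1, [(148, 1), (176, 1)]⟩,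
⟨0, [⟨12, 2, []⟩, ⟨1, 2, []⟩], [3, 3, 3], 1, [(5, 1), (9, 1)]⟩,
⟨2, [⟨132, 3, []⟩, ⟨64, 3, []⟩], [3, 3], 1, [(68, 1), (192, 1)]⟩,
⟨2, [⟨20, 3, []⟩, ⟨64, 3, []⟩], [3, 3], 1, [(68, 1), (80, 1)]⟩,
⟨2, [⟨0, 0, [(65, 3)]⟩, ⟨2, 3, []⟩], [3, 3], 1, [(67, 1)]⟩,
⟨2, [⟨2, 2, []⟩, ⟨8, 2, []⟩, ⟨32, 2, []⟩, ⟨64, 2, []⟩], [9, 9, 9, 6, 6, 6], 2, [(40, 1), (66, 1), (106, 2)]⟩,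
⟨1, [⟨2, 2, []⟩, ⟨4, 2, []⟩, ⟨16, 3, []⟩, ⟨32, 3, []⟩, ⟨64, 5, []⟩], [3, 3, 3, 12, 12], 2, [(70, 1), (112, 1), (118, 2)]⟩,
⟨2, [⟨32, 2, []⟩, ⟨1, 3, []⟩, ⟨4, 3, []⟩, ⟨64, 3, []⟩, ⟨128, 4, []⟩], [9, 9, 17, 6, 6], 2, [(69, 1), (133, 1), (224, 1), (229, 2)]⟩,
⟨0, [⟨72, 2, []⟩, ⟨3, 2, []⟩], [3, 3, 3], 1, [(9, 1), (10, 1), (65, 1), (66, 1)]⟩,
⟨1, [⟨20, 2, []⟩, ⟨2, 2, []⟩], [3, 3, 3], 1, [(6, 1), (18, 1)]⟩,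
⟨2, [⟨18, 2, []⟩, ⟨160, 4, []⟩], [3, 1, 1], 1, [(34, 1), (48, 1), (130, 1), (144, 1)]⟩,
⟨2, [⟨4, 2, []⟩, ⟨194, 4, []⟩], [3, 1, 1], 1, [(6, 1), (68, 1), (132, 1)]⟩,
⟨2, [⟨96, 3, []⟩, ⟨144, 3, []⟩], [3, 3], 1, [(48, 1), (80, 1), (160, 1), (192, 1)]⟩,
⟨1, [⟨80, 4, []⟩, ⟨0, 0, [(5, 2)]⟩], [3, 2, 2], 1, [(21, 1), (69, 1)]⟩,
⟨0, [⟨10, 2, []⟩, ⟨80, 2, []⟩], [3, 3, 3], 1, [(18, 1), (24, 1), (66, 1), (72, 1)]⟩,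
⟨1, [⟨17, 2, []⟩, ⟨128, 2, []⟩], [3, 3, 3], 1, [(129, 1), (144, 1)]⟩,
⟨1, [⟨2, 2, []⟩, ⟨32, 2, []⟩], [3, 3, 3], 1, [(34, 1)]⟩,
⟨2, [⟨130, 3, []⟩, ⟨64, 3, []⟩], [3, 3], 1, [(66, 1), (192, 1)]⟩,
⟨2, [⟨65, 4, []⟩, ⟨6, 2, []⟩], [3, 2, 2], 1, [(3, 1), (5, 1), (66, 1), (68, 1)]⟩,
⟨1, [⟨130, 3, []⟩, ⟨16, 3, []⟩, ⟨64, 4, []⟩], [7, 3], 1, [(82, 1), (208, 1)]⟩,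
⟨0, [⟨96, 2, []⟩, ⟨5, 2, []⟩], [3, 3, 3], 1, [(33, 1), (36, 1), (65, 1), (68, 1)]⟩,
⟨2, [⟨2, 2, []⟩, ⟨4, 2, []⟩, ⟨8, 2, []⟩, ⟨128, 2, []⟩], [3, 3, 3, 12, 12, 12], 2, [(6, 1), (136, 1), (142, 2)]⟩,
⟨2, [⟨72, 4, []⟩, ⟨48, 2, []⟩], [3, 2, 2], 1, [(24, 1), (40, 1), (80, 1), (96, 1)]⟩,
⟨1, [⟨18, 3, []⟩, ⟨32, 4, []⟩, ⟨64, 3, []⟩], [7, 5], 1, [(98, 1), (112, 1)]⟩,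
⟨2, [⟨2, 3, []⟩, ⟨1, 2, []⟩, ⟨16, 3, []⟩, ⟨32, 3, []⟩, ⟨64, 4, []⟩], [3, 3, 18, 12, 12], 2, [(50, 1), (67, 1), (112, 1), (115, 2)]⟩,
⟨2, [⟨7, 3, []⟩, ⟨64, 3, []⟩], [3, 3], 1, [(65, 1), (66, 1), (68, 1)]⟩,
⟨1, [⟨4, 3, []⟩, ⟨8, 3, []⟩, ⟨128, 4, []⟩], [7, 3], 1, [(140, 1)]⟩,
⟨1, [⟨18, 3, []⟩, ⟨96, 3, []⟩, ⟨128, 4, []⟩], [7, 3], 1, [(162, 1), (176, 1), (194, 1), (208, 1)]⟩,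
⟨1, [⟨5, 2, []⟩, ⟨66, 2, []⟩], [3, 3, 3], 1, [(3, 1), (6, 1), (65, 1), (68, 1)]⟩,
⟨1, [⟨3, 2, []⟩, ⟨192, 2, []⟩], [3, 3, 3], 1, [(65, 1), (66, 1), (129, 1), (130, 1)]⟩,
⟨1, [⟨4, 2, []⟩, ⟨130, 2, []⟩], [3, 3, 3], 1, [(6, 1), (132, 1)]⟩,
⟨1, [⟨16, 3, []⟩, ⟨32, 3, []⟩, ⟨128, 4, []⟩], [7, 3], 1, [(176, 1)]⟩,
⟨2, [⟨3, 3, []⟩, ⟨64, 3, []⟩], [3, 3], 1, [(65, 1), (66, 1)]⟩,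
⟨1, [⟨20, 3, []⟩, ⟨1, 3, []⟩, ⟨128, 4, []⟩], [7, 3], 1, [(133, 1), (145, 1)]⟩,
⟨2, [⟨10, 4, []⟩, ⟨65, 4, []⟩, ⟨4, 4, []⟩], [7], 1, [(7, 1), (13, 1), (70, 1), (76, 1)]⟩,
⟨1, [⟨24, 2, []⟩, ⟨32, 2, []⟩], [3, 3, 3], 1, [(40, 1), (48, 1)]⟩,
⟨1, [⟨18, 4, []⟩, ⟨4, 3, []⟩, ⟨128, 3, []⟩], [7, 6], 1, [(134, 1), (148, 1)]⟩,
⟨2, [⟨4, 3, []⟩, ⟨1, 2, []⟩, ⟨8, 3, []⟩, ⟨32, 3, []⟩, ⟨64, 4, []⟩], [3, 3, 18, 12, 12], 2, [(44, 1), (69, 1), (104, 1), (109, 2)]⟩,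
⟨2, [⟨48, 4, []⟩, ⟨4, 2, []⟩], [3, 2, 2], 1, [(20, 1), (36, 1)]⟩,
⟨1, [⟨16, 2, []⟩, ⟨160, 2, []⟩], [3, 3, 3], 1, [(48, 1), (144, 1)]⟩,
⟨2, [⟨32, 3, []⟩, ⟨8, 2, []⟩, ⟨0, 0, [(3, 3)]⟩, ⟨4, 3, []⟩, ⟨128, 4, []⟩], [3, 3, 18, 12, 12], 2, [(39, 1), (135, 1), (168, 1), (175, 2)]⟩,
⟨2, [⟨65, 4, []⟩, ⟨4, 4, []⟩, ⟨128, 4, []⟩], [7], 1, [(133, 1), (196, 1)]⟩,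
⟨1, [⟨2, 3, []⟩, ⟨4, 3, []⟩, ⟨65, 4, []⟩], [7, 3], 1, [(7, 1), (70, 1)]⟩,
⟨1, [⟨34, 3, []⟩, ⟨8, 3, []⟩, ⟨128, 4, []⟩], [7, 3], 1, [(138, 1), (168, 1)]⟩,
⟨1, [⟨82, 3, []⟩, ⟨32, 3, []⟩, ⟨128, 4, []⟩], [7, 3], 1, [(162, 1), (176, 1), (224, 1)]⟩,
⟨1, [⟨2, 3, []⟩, ⟨4, 4, []⟩, ⟨192, 3, []⟩], [7, 5], 1, [(70, 1), (134, 1)]⟩,
⟨2, [⟨70, 4, []⟩, ⟨128, 2, []⟩], [3, 2, 2], 1, [(130, 1), (132, 1), (192, 1)]⟩,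
⟨1, [⟨0, 0, [(3, 2)]⟩, ⟨128, 2, []⟩], [3, 3, 3], 1, [(131, 1)]⟩,
⟨1, [⟨36, 3, []⟩, ⟨24, 3, []⟩, ⟨128, 4, []⟩], [7, 3], 1, [(140, 1), (148, 1), (168, 1), (176, 1)]⟩,
⟨2, [⟨80, 4, []⟩, ⟨1, 2, []⟩], [3, 2, 2], 1, [(17, 1), (65, 1)]⟩,
⟨2, [⟨68, 4, []⟩, ⟨2, 4, []⟩, ⟨128, 4, []⟩], [7], 1, [(134, 1), (194, 1)]⟩,
⟨1, [⟨2, 2, []⟩, ⟨4, 2, []⟩], [3, 3, 3], 1, [(6, 1)]⟩,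
⟨0, [⟨3, 2, []⟩, ⟨68, 2, []⟩], [3, 3, 3], 1, [(5, 1), (6, 1), (65, 1), (66, 1)]⟩,
⟨1, [⟨18, 2, []⟩, ⟨32, 2, []⟩], [3, 3, 3], 1, [(34, 1), (48, 1)]⟩,
⟨2, [⟨16, 2, []⟩, ⟨32, 2, []⟩, ⟨1, 3, []⟩, ⟨2, 3, []⟩, ⟨128, 5, []⟩], [3, 3, 3, 12, 12], 2, [(131, 1), (176, 1), (179, 2)]⟩,
⟨1, [⟨72, 4, []⟩, ⟨32, 3, []⟩, ⟨128, 3, []⟩], [7, 6], 1, [(168, 1), (224, 1)]⟩,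
⟨1, [⟨0, 0, [(40, 2)]⟩, ⟨192, 2, []⟩], [3, 3, 3], 1, [(104, 1), (168, 1)]⟩,
⟨0, [⟨9, 2, []⟩, ⟨6, 2, []⟩], [3, 3, 3], 1, [(3, 1), (5, 1), (10, 1), (12, 1)]⟩,
⟨2, [⟨2, 2, []⟩, ⟨16, 3, []⟩, ⟨32, 3, []⟩, ⟨64, 3, []⟩, ⟨128, 4, []⟩], [9, 9, 17, 6, 6], 2, [(112, 1), (176, 1), (194, 1), (242, 2)]⟩,
⟨1, [⟨34, 3, []⟩, ⟨16, 3, []⟩, ⟨64, 4, []⟩], [7, 3], 1, [(82, 1), (112, 1)]⟩,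
⟨2, [⟨1, 3, []⟩, ⟨4, 3, []⟩, ⟨8, 3, []⟩, ⟨16, 3, []⟩, ⟨128, 4, []⟩], [3, 3, 12, 12, 16], 2, [(29, 1), (133, 1), (152, 1), (157, 2)]⟩,
⟨2, [⟨160, 2, []⟩, ⟨64, 4, []⟩], [3, 1, 1], 1, [(96, 1), (192, 1)]⟩,
⟨0, [⟨8, 2, []⟩, ⟨32, 2, []⟩], [3, 3, 3], 1, [(40, 1)]⟩,
⟨1, [⟨68, 2, []⟩, ⟨128, 2, []⟩], [3, 3, 3], 1, [(132, 1), (192, 1)]⟩,
⟨2, [⟨34, 5, []⟩, ⟨16, 3, []⟩, ⟨128, 5, []⟩], [2, 2], 1, [(146, 1), (176, 1)]⟩,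
⟨2, [⟨48, 4, []⟩, ⟨64, 4, []⟩, ⟨128, 4, []⟩], [7], 1, [(208, 1), (224, 1)]⟩,
⟨2, [⟨134, 3, []⟩, ⟨64, 3, []⟩], [3, 3], 1, [(66, 1), (68, 1), (192, 1)]⟩,
⟨1, [⟨144, 3, []⟩, ⟨32, 3, []⟩, ⟨64, 4, []⟩], [7, 3], 1, [(112, 1), (224, 1)]⟩,
⟨2, [⟨3, 3, []⟩, ⟨4, 3, []⟩], [3, 3], 1, [(5, 1), (6, 1)]⟩,
⟨2, [⟨66, 2, []⟩, ⟨128, 4, []⟩], [3, 1, 1], 1, [(130, 1), (192, 1)]⟩,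
⟨1, [⟨12, 2, []⟩, ⟨192, 2, []⟩], [3, 3, 3], 1, [(68, 1), (72, 1), (132, 1), (136, 1)]⟩,
⟨2, [⟨16, 3, []⟩, ⟨32, 3, []⟩, ⟨4, 3, []⟩, ⟨2, 2, []⟩, ⟨128, 4, []⟩], [3, 3, 12, 12, 24], 2, [(52, 1), (134, 1), (176, 1), (182, 2)]⟩,
⟨0, [⟨1, 2, []⟩, ⟨196, 2, []⟩], [3, 3, 3], 1, [(5, 1), (65, 1), (129, 1)]⟩,
⟨2, [⟨8, 2, []⟩, ⟨144, 4, []⟩], [3, 1, 1], 1, [(24, 1), (136, 1)]⟩,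
⟨1, [⟨18, 3, []⟩, ⟨1, 3, []⟩, ⟨64, 4, []⟩], [7, 3], 1, [(67, 1), (81, 1)]⟩,
⟨2, [⟨8, 2, []⟩, ⟨32, 2, []⟩, ⟨1, 3, []⟩, ⟨4, 3, []⟩, ⟨128, 5, []⟩], [3, 3, 3, 12, 12], 2, [(133, 1), (168, 1), (173, 2)]⟩,
⟨2, [⟨20, 2, []⟩, ⟨64, 4, []⟩], [3, 1, 1], 1, [(68, 1), (80, 1)]⟩,
⟨1, [⟨38, 3, []⟩, ⟨64, 3, []⟩, ⟨128, 4, []⟩], [7, 3], 1, [(194, 1), (196, 1), (224, 1)]⟩,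
⟨2, [⟨32, 2, []⟩, ⟨16, 4, []⟩, ⟨1, 3, []⟩, ⟨4, 3, []⟩, ⟨64, 3, []⟩], [3, 17, 17, 12, 12], 2, [(21, 1), (69, 1), (112, 1), (117, 2)]⟩,
⟨1, [⟨4, 2, []⟩, ⟨0, 0, [(192, 2)]⟩], [3, 3, 3], 1, [(196, 1)]⟩,
⟨2, [⟨34, 3, []⟩, ⟨64, 3, []⟩], [3, 3], 1, [(66, 1), (96, 1)]⟩,
⟨1, [⟨100, 3, []⟩, ⟨2, 3, []⟩, ⟨128, 4, []⟩], [7, 3], 1, [(134, 1), (162, 1), (194, 1)]⟩,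
⟨2, [⟨0, 0, [(33, 3)]⟩, ⟨12, 5, []⟩, ⟨66, 5, []⟩], [1, 1], 1, [(39, 1), (43, 1), (101, 1), (105, 1)]⟩,
⟨2, [⟨8, 2, []⟩, ⟨32, 2, []⟩, ⟨2, 2, []⟩, ⟨128, 2, []⟩], [3, 3, 3, 12, 12, 12], 2, [(40, 1), (130, 1), (170, 2)]⟩,
⟨0, [⟨12, 2, []⟩, ⟨96, 2, []⟩], [3, 3, 3], 1, [(36, 1), (40, 1), (68, 1), (72, 1)]⟩,
⟨1, [⟨3, 3, []⟩, ⟨132, 3, []⟩, ⟨64, 4, []⟩], [7, 3], 1, [(69, 1), (70, 1), (193, 1), (194, 1)]⟩,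
⟨2, [⟨34, 5, []⟩, ⟨24, 5, []⟩, ⟨64, 3, []⟩], [4, 4], 1, [(74, 1), (82, 1), (104, 1), (112, 1)]⟩,
⟨2, [⟨131, 4, []⟩, ⟨64, 2, []⟩], [3, 2, 2], 1, [(65, 1), (66, 1), (192, 1)]⟩,
⟨1, [⟨6, 2, []⟩, ⟨144, 2, []⟩], [3, 3, 3], 1, [(18, 1), (20, 1), (130, 1), (132, 1)]⟩,
⟨2, [⟨18, 4, []⟩, ⟨36, 4, []⟩, ⟨64, 4, []⟩], [7], 1, [(70, 1), (84, 1), (98, 1), (112, 1)]⟩,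
⟨2, [⟨16, 4, []⟩, ⟨32, 4, []⟩, ⟨64, 4, []⟩], [7], 1, [(112, 1)]⟩,
⟨2, [⟨66, 4, []⟩, ⟨32, 2, []⟩], [3, 2, 2], 1, [(34, 1), (96, 1)]⟩,
⟨1, [⟨2, 2, []⟩, ⟨24, 2, []⟩], [3, 3, 3], 1, [(10, 1), (18, 1)]⟩,
⟨2, [⟨33, 5, []⟩, ⟨2, 3, []⟩, ⟨128, 5, []⟩], [2, 2], 1, [(131, 1), (162, 1)]⟩,
⟨0, [⟨3, 2, []⟩, ⟨40, 2, []⟩], [3, 3, 3], 1, [(9, 1), (10, 1), (33, 1), (34, 1)]⟩,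
⟨0, [⟨72, 2, []⟩, ⟨5, 2, []⟩], [3, 3, 3], 1, [(9, 1), (12, 1), (65, 1), (68, 1)]⟩,
⟨2, [⟨5, 4, []⟩, ⟨2, 2, []⟩], [3, 2, 2], 1, [(3, 1), (6, 1)]⟩,
⟨2, [⟨64, 3, []⟩, ⟨128, 3, []⟩], [3, 3], 1, [(192, 1)]⟩,
⟨1, [⟨8, 3, []⟩, ⟨64, 3, []⟩, ⟨128, 4, []⟩], [7, 3], 1, [(200, 1)]⟩,
⟨1, [⟨36, 2, []⟩, ⟨128, 2, []⟩], [3, 3, 3], 1, [(132, 1), (160, 1)]⟩,
⟨1, [⟨10, 2, []⟩, ⟨4, 2, []⟩], [3, 3, 3], 1, [(6, 1), (12, 1)]⟩,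
⟨2, [⟨2, 2, []⟩, ⟨4, 2, []⟩, ⟨8, 3, []⟩, ⟨16, 3, []⟩, ⟨64, 5, []⟩], [3, 3, 3, 12, 12], 2, [(70, 1), (88, 1), (94, 2)]⟩,
⟨2, [⟨1, 3, []⟩, ⟨4, 3, []⟩, ⟨16, 4, []⟩, ⟨32, 4, []⟩, ⟨64, 3, []⟩], [3, 3, 12, 16, 16], 2, [(53, 1), (69, 1), (112, 1), (117, 2)]⟩,
⟨2, [⟨4, 2, []⟩, ⟨2, 3, []⟩, ⟨16, 3, []⟩, ⟨32, 3, []⟩, ⟨64, 4, []⟩], [3, 3, 5, 12, 24], 2, [(22, 1), (70, 1), (98, 1), (112, 1), (118, 2)]⟩,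
⟨0, [⟨33, 2, []⟩, ⟨66, 2, []⟩], [3, 3, 3], 1, [(3, 1), (34, 1), (65, 1), (96, 1)]⟩,
⟨2, [⟨1, 2, []⟩, ⟨2, 2, []⟩, ⟨8, 3, []⟩, ⟨16, 3, []⟩, ⟨128, 5, []⟩], [3, 3, 3, 12, 12], 2, [(131, 1), (152, 1), (155, 2)]⟩,
⟨1, [⟨10, 3, []⟩, ⟨64, 3, []⟩, ⟨128, 4, []⟩], [7, 3], 1, [(194, 1), (200, 1)]⟩,
⟨1, [⟨4, 2, []⟩, ⟨64, 2, []⟩], [3, 3, 3], 1, [(68, 1)]⟩,
⟨1, [⟨2, 3, []⟩, ⟨16, 3, []⟩, ⟨128, 4, []⟩], [7, 3], 1, [(146, 1)]⟩,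
⟨2, [⟨0, 0, [(80, 3)]⟩, ⟨32, 3, []⟩], [3, 3], 1, [(112, 1)]⟩,
⟨1, [⟨4, 2, []⟩, ⟨48, 2, []⟩], [3, 3, 3], 1, [(20, 1), (36, 1)]⟩,
⟨1, [⟨34, 2, []⟩, ⟨68, 2, []⟩], [3, 3, 3], 1, [(6, 1), (36, 1), (66, 1), (96, 1)]⟩,
⟨2, [⟨20, 4, []⟩, ⟨2, 4, []⟩, ⟨64, 4, []⟩], [7], 1, [(70, 1), (82, 1)]⟩,
⟨2, [⟨0, 0, [(5, 3)]⟩, ⟨64, 3, []⟩], [3, 3], 1, [(69, 1)]⟩,
⟨2, [⟨80, 3, []⟩, ⟨128, 3, []⟩], [3, 3], 1, [(144, 1), (192, 1)]⟩,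
⟨1, [⟨2, 3, []⟩, ⟨64, 3, []⟩, ⟨128, 4, []⟩], [7, 3], 1, [(194, 1)]⟩,
⟨0, [⟨10, 2, []⟩, ⟨5, 2, []⟩], [3, 3, 3], 1, [(3, 1), (6, 1), (9, 1), (12, 1)]⟩,
⟨2, [⟨16, 2, []⟩, ⟨32, 2, []⟩, ⟨0, 0, [(3, 2)]⟩, ⟨4, 2, []⟩], [3, 3, 3, 12, 12, 12], 2, [(7, 1), (48, 1), (55, 2)]⟩,
⟨2, [⟨8, 3, []⟩, ⟨16, 3, []⟩, ⟨2, 3, []⟩, ⟨4, 2, []⟩, ⟨128, 4, []⟩], [3, 3, 12, 12, 24], 2, [(26, 1), (134, 1), (152, 1), (158, 2)]⟩,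
⟨2, [⟨34, 2, []⟩, ⟨64, 4, []⟩], [3, 1, 1], 1, [(66, 1), (96, 1)]⟩,
⟨2, [⟨2, 3, []⟩, ⟨32, 3, []⟩], [3, 3], 1, [(34, 1)]⟩,
⟨1, [⟨34, 3, []⟩, ⟨24, 3, []⟩, ⟨128, 4, []⟩], [7, 3], 1, [(138, 1), (146, 1), (168, 1), (176, 1)]⟩,
⟨2, [⟨24, 3, []⟩, ⟨32, 3, []⟩], [3, 3], 1, [(40, 1), (48, 1)]⟩,
⟨0, [⟨1, 2, []⟩, ⟨40, 2, []⟩], [3, 3, 3], 1, [(9, 1), (33, 1)]⟩,
⟨2, [⟨4, 2, []⟩, ⟨16, 3, []⟩, ⟨32, 3, []⟩, ⟨64, 3, []⟩, ⟨128, 4, []⟩], [9, 9, 17, 6, 6], 2, [(112, 1), (176, 1), (196, 1), (244, 2)]⟩,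
⟨1, [⟨2, 3, []⟩, ⟨4, 3, []⟩, ⟨192, 4, []⟩], [7, 3], 1, [(70, 1), (134, 1)]⟩,
⟨2, [⟨20, 5, []⟩, ⟨32, 3, []⟩, ⟨128, 5, []⟩], [2, 2], 1, [(164, 1), (176, 1)]⟩,
⟨1, [⟨5, 2, []⟩, ⟨128, 2, []⟩], [3, 3, 3], 1, [(129, 1), (132, 1)]⟩,
⟨2, [⟨8, 2, []⟩, ⟨192, 4, []⟩], [3, 1, 1], 1, [(72, 1), (136, 1)]⟩,
⟨2, [⟨8, 2, []⟩, ⟨32, 2, []⟩, ⟨1, 3, []⟩, ⟨2, 3, []⟩, ⟨128, 5, []⟩], [3, 3, 3, 12, 12], 2, [(131, 1), (168, 1), (171, 2)]⟩,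
⟨2, [⟨32, 3, []⟩, ⟨80, 3, []⟩], [3, 3], 1, [(48, 1), (96, 1)]⟩,
⟨1, [⟨3, 2, []⟩, ⟨68, 2, []⟩], [3, 3, 3], 1, [(5, 1), (6, 1), (65, 1), (66, 1)]⟩,
⟨2, [⟨3, 4, []⟩, ⟨20, 4, []⟩, ⟨64, 4, []⟩], [7], 1, [(69, 1), (70, 1), (81, 1), (82, 1)]⟩,
⟨0, [⟨65, 2, []⟩, ⟨24, 2, []⟩], [3, 3, 3], 1, [(9, 1), (17, 1), (72, 1), (80, 1)]⟩,
⟨1, [⟨10, 2, []⟩, ⟨128, 2, []⟩], [3, 3, 3], 1, [(130, 1), (136, 1)]⟩,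
⟨2, [⟨4, 3, []⟩, ⟨65, 3, []⟩], [3, 3], 1, [(5, 1), (68, 1)]⟩,
⟨1, [⟨16, 4, []⟩, ⟨96, 3, []⟩, ⟨128, 3, []⟩], [7, 6], 1, [(176, 1), (208, 1)]⟩,
⟨2, [⟨32, 3, []⟩, ⟨128, 3, []⟩], [3, 3], 1, [(160, 1)]⟩,
⟨2, [⟨4, 2, []⟩, ⟨65, 4, []⟩], [3, 1, 1], 1, [(5, 1), (68, 1)]⟩,
⟨0, [⟨1, 2, []⟩, ⟨194, 2, []⟩], [3, 3, 3], 1, [(3, 1), (65, 1), (129, 1)]⟩,
⟨2, [⟨2, 2, []⟩, ⟨4, 2, []⟩, ⟨16, 2, []⟩, ⟨128, 2, []⟩], [3, 3, 3, 12, 12, 12], 2, [(6, 1), (144, 1), (150, 2)]⟩,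
⟨2, [⟨0, 0, [(5, 2)]⟩, ⟨128, 4, []⟩], [3, 1, 1], 1, [(133, 1)]⟩,
⟨1, [⟨20, 3, []⟩, ⟨2, 3, []⟩, ⟨128, 4, []⟩], [7, 3], 1, [(134, 1), (146, 1)]⟩,
⟨1, [⟨65, 4, []⟩, ⟨2, 3, []⟩, ⟨128, 3, []⟩], [7, 6], 1, [(131, 1), (194, 1)]⟩,
⟨2, [⟨6, 2, []⟩, ⟨64, 4, []⟩], [3, 1, 1], 1, [(66, 1), (68, 1)]⟩,
⟨1, [⟨2, 2, []⟩, ⟨192, 2, []⟩], [3, 3, 3], 1, [(66, 1), (130, 1)]⟩,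
⟨2, [⟨2, 2, []⟩, ⟨4, 4, []⟩, ⟨8, 3, []⟩, ⟨16, 3, []⟩, ⟨64, 3, []⟩], [3, 5, 5, 24, 24], 2, [(14, 1), (84, 1), (88, 1), (94, 2)]⟩,
⟨1, [⟨32, 2, []⟩, ⟨64, 2, []⟩], [3, 3, 3], 1, [(96, 1)]⟩,
⟨2, [⟨2, 3, []⟩, ⟨4, 3, []⟩, ⟨16, 3, []⟩, ⟨32, 3, []⟩, ⟨64, 4, []⟩], [3, 3, 12, 12, 16], 2, [(54, 1), (70, 1), (112, 1), (118, 2)]⟩,
⟨2, [⟨3, 4, []⟩, ⟨4, 2, []⟩], [3, 2, 2], 1, [(5, 1), (6, 1)]⟩,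
⟨2, [⟨144, 2, []⟩, ⟨64, 4, []⟩], [3, 1, 1], 1, [(80, 1), (192, 1)]⟩,
⟨1, [⟨8, 3, []⟩, ⟨32, 3, []⟩, ⟨192, 4, []⟩], [7, 3], 1, [(104, 1), (168, 1)]⟩,
⟨2, [⟨40, 2, []⟩, ⟨128, 4, []⟩], [3, 1, 1], 1, [(136, 1), (160, 1)]⟩,
⟨2, [⟨72, 4, []⟩, ⟨2, 4, []⟩, ⟨4, 4, []⟩], [7], 1, [(14, 1), (70, 1)]⟩,
⟨2, [⟨16, 3, []⟩, ⟨64, 3, []⟩], [3, 3], 1, [(80, 1)]⟩,
⟨2, [⟨72, 4, []⟩, ⟨32, 4, []⟩, ⟨128, 4, []⟩], [7], 1, [(168, 1), (224, 1)]⟩,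
⟨2, [⟨34, 2, []⟩, ⟨128, 4, []⟩], [3, 1, 1], 1, [(130, 1), (160, 1)]⟩,
⟨2, [⟨96, 4, []⟩, ⟨2, 4, []⟩, ⟨4, 4, []⟩], [7], 1, [(38, 1), (70, 1)]⟩,
⟨1, [⟨0, 0, [(72, 2)]⟩, ⟨32, 2, []⟩], [3, 3, 3], 1, [(104, 1)]⟩,
⟨1, [⟨48, 2, []⟩, ⟨72, 2, []⟩], [3, 3, 3], 1, [(24, 1), (40, 1), (80, 1), (96, 1)]⟩,
⟨1, [⟨17, 3, []⟩, ⟨32, 3, []⟩, ⟨64, 4, []⟩], [7, 3], 1, [(97, 1), (112, 1)]⟩,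
⟨1, [⟨17, 3, []⟩, ⟨2, 3, []⟩, ⟨64, 4, []⟩], [7, 3], 1, [(67, 1), (82, 1)]⟩,
⟨2, [⟨0, 0, [(24, 3)]⟩, ⟨32, 3, []⟩], [3, 3], 1, [(56, 1)]⟩,
⟨1, [⟨34, 2, []⟩, ⟨4, 2, []⟩], [3, 3, 3], 1, [(6, 1), (36, 1)]⟩,
⟨2, [⟨16, 2, []⟩, ⟨32, 2, []⟩, ⟨2, 2, []⟩, ⟨128, 2, []⟩], [3, 3, 3, 12, 12, 12], 2, [(48, 1), (130, 1), (178, 2)]⟩,
⟨1, [⟨16, 2, []⟩, ⟨224, 2, []⟩], [3, 3, 3], 1, [(48, 1), (80, 1), (144, 1)]⟩,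
⟨2, [⟨66, 4, []⟩, ⟨5, 2, []⟩], [3, 2, 2], 1, [(3, 1), (6, 1), (65, 1), (68, 1)]⟩,
⟨2, [⟨10, 4, []⟩, ⟨36, 4, []⟩, ⟨64, 4, []⟩], [7], 1, [(70, 1), (76, 1), (98, 1), (104, 1)]⟩,
⟨2, [⟨16, 2, []⟩, ⟨32, 4, []⟩, ⟨1, 3, []⟩, ⟨4, 3, []⟩, ⟨64, 3, []⟩], [3, 5, 5, 24, 24], 2, [(49, 1), (69, 1), (100, 1), (117, 2)]⟩,
⟨2, [⟨16, 2, []⟩, ⟨32, 4, []⟩, ⟨2, 3, []⟩, ⟨4, 3, []⟩, ⟨64, 3, []⟩], [3, 17, 17, 12, 12], 2, [(38, 1), (70, 1), (112, 1), (118, 2)]⟩,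
⟨2, [⟨66, 4, []⟩, ⟨16, 2, []⟩], [3, 2, 2], 1, [(18, 1), (80, 1)]⟩,
⟨2, [⟨48, 4, []⟩, ⟨128, 2, []⟩], [3, 2, 2], 1, [(144, 1), (160, 1)]⟩,
⟨1, [⟨80, 2, []⟩, ⟨128, 2, []⟩], [3, 3, 3], 1, [(144, 1), (192, 1)]⟩,
⟨2, [⟨18, 5, []⟩, ⟨32, 3, []⟩, ⟨128, 5, []⟩], [2, 2], 1, [(162, 1), (176, 1)]⟩,
⟨2, [⟨12, 4, []⟩, ⟨128, 2, []⟩], [3, 2, 2], 1, [(132, 1), (136, 1)]⟩,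
⟨2, [⟨36, 4, []⟩, ⟨128, 2, []⟩], [3, 2, 2], 1, [(132, 1), (160, 1)]⟩,
⟨1, [⟨40, 2, []⟩, ⟨128, 2, []⟩], [3, 3, 3], 1, [(136, 1), (160, 1)]⟩,
⟨1, [⟨66, 4, []⟩, ⟨4, 3, []⟩, ⟨128, 3, []⟩], [7, 6], 1, [(134, 1), (196, 1)]⟩,
⟨2, [⟨18, 4, []⟩, ⟨36, 4, []⟩, ⟨128, 4, []⟩], [7], 1, [(134, 1), (148, 1), (162, 1), (176, 1)]⟩,
⟨1, [⟨12, 2, []⟩, ⟨66, 2, []⟩], [3, 3, 3], 1, [(6, 1), (10, 1), (68, 1), (72, 1)]⟩,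
⟨1, [⟨34, 3, []⟩, ⟨64, 4, []⟩, ⟨128, 3, []⟩], [7, 5], 1, [(194, 1), (224, 1)]⟩,
⟨1, [⟨6, 2, []⟩, ⟨128, 2, []⟩], [3, 3, 3], 1, [(130, 1), (132, 1)]⟩,
⟨1, [⟨1, 2, []⟩, ⟨194, 2, []⟩], [3, 3, 3], 1, [(3, 1), (65, 1), (129, 1)]⟩,
⟨2, [⟨0, 0, [(36, 2)]⟩, ⟨64, 4, []⟩], [3, 1, 1], 1, [(100, 1)]⟩,
⟨1, [⟨96, 2, []⟩, ⟨6, 2, []⟩], [3, 3, 3], 1, [(34, 1), (36, 1), (66, 1), (68, 1)]⟩,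
⟨2, [⟨65, 4, []⟩, ⟨8, 2, []⟩], [3, 2, 2], 1, [(9, 1), (72, 1)]⟩,
⟨1, [⟨9, 2, []⟩, ⟨192, 2, []⟩], [3, 3, 3], 1, [(65, 1), (72, 1), (129, 1), (136, 1)]⟩,
⟨1, [⟨20, 3, []⟩, ⟨66, 3, []⟩, ⟨128, 4, []⟩], [7, 3], 1, [(134, 1), (146, 1), (196, 1), (208, 1)]⟩,
⟨0, [⟨16, 2, []⟩, ⟨32, 2, []⟩], [3, 3, 3], 1, [(48, 1)]⟩,
⟨2, [⟨72, 4, []⟩, ⟨16, 4, []⟩, ⟨128, 4, []⟩], [7], 1, [(152, 1), (208, 1)]⟩,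
⟨1, [⟨2, 4, []⟩, ⟨4, 4, []⟩, ⟨16, 4, []⟩, ⟨32, 4, []⟩, ⟨64, 2, []⟩, ⟨128, 2, []⟩], [35, 28, 48, 48], 2, [(54, 1), (112, 1), (134, 1), (246, 2)]⟩,
⟨1, [⟨33, 3, []⟩, ⟨4, 3, []⟩, ⟨64, 4, []⟩], [7, 3], 1, [(69, 1), (100, 1)]⟩,
⟨1, [⟨1, 2, []⟩, ⟨130, 2, []⟩], [3, 3, 3], 1, [(3, 1), (129, 1)]⟩,
⟨1, [⟨1, 2, []⟩, ⟨8, 2, []⟩], [3, 3, 3], 1, [(9, 1)]⟩,
⟨2, [⟨2, 2, []⟩, ⟨16, 2, []⟩, ⟨32, 2, []⟩, ⟨64, 2, []⟩], [9, 9, 9, 6, 6, 6], 2, [(48, 1), (66, 1), (114, 2)]⟩,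
⟨1, [⟨16, 4, []⟩, ⟨32, 4, []⟩, ⟨64, 4, []⟩], [7], 1, [(112, 1)]⟩,
⟨0, [⟨48, 2, []⟩, ⟨8, 2, []⟩], [3, 3, 3], 1, [(24, 1), (40, 1)]⟩,
⟨1, [⟨2, 3, []⟩, ⟨4, 3, []⟩, ⟨96, 4, []⟩], [7, 3], 1, [(38, 1), (70, 1)]⟩,
⟨2, [⟨10, 5, []⟩, ⟨32, 3, []⟩, ⟨5, 5, []⟩], [2, 2], 1, [(35, 1), (38, 1), (41, 1), (44, 1)]⟩,
⟨1, [⟨8, 2, []⟩, ⟨16, 2, []⟩], [3, 3, 3], 1, [(24, 1)]⟩,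
⟨0, [⟨12, 2, []⟩, ⟨65, 2, []⟩], [3, 3, 3], 1, [(5, 1), (9, 1), (68, 1), (72, 1)]⟩,
⟨2, [⟨2, 3, []⟩, ⟨16, 3, []⟩], [3, 3], 1, [(18, 1)]⟩,
⟨2, [⟨32, 2, []⟩, ⟨144, 4, []⟩], [3, 1, 1], 1, [(48, 1), (160, 1)]⟩,
⟨2, [⟨0, 0, [(6, 2)]⟩, ⟨192, 4, []⟩], [3, 1, 1], 1, [(70, 1), (134, 1)]⟩,
⟨2, [⟨4, 2, []⟩, ⟨66, 4, []⟩], [3, 1, 1], 1, [(6, 1), (68, 1)]⟩,
⟨2, [⟨0, 0, [(48, 2)]⟩, ⟨72, 4, []⟩], [3, 1, 1], 1, [(56, 1), (112, 1)]⟩,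
⟨2, [⟨2, 3, []⟩, ⟨4, 3, []⟩, ⟨8, 3, []⟩, ⟨16, 3, []⟩, ⟨64, 4, []⟩], [3, 3, 12, 12, 16], 2, [(30, 1), (70, 1), (88, 1), (94, 2)]⟩,
⟨1, [⟨33, 2, []⟩, ⟨68, 2, []⟩], [3, 3, 3], 1, [(5, 1), (36, 1), (65, 1), (96, 1)]⟩,
⟨2, [⟨16, 2, []⟩, ⟨96, 4, []⟩], [3, 1, 1], 1, [(48, 1), (80, 1)]⟩,
⟨2, [⟨80, 4, []⟩, ⟨4, 2, []⟩], [3, 2, 2], 1, [(20, 1), (68, 1)]⟩,
⟨1, [⟨34, 3, []⟩, ⟨20, 3, []⟩, ⟨64, 4, []⟩], [7, 3], 1, [(70, 1), (82, 1), (100, 1), (112, 1)]⟩,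
⟨2, [⟨2, 2, []⟩, ⟨4, 4, []⟩, ⟨16, 3, []⟩, ⟨32, 3, []⟩, ⟨64, 3, []⟩], [3, 17, 17, 12, 12], 2, [(52, 1), (70, 1), (112, 1), (118, 2)]⟩,
⟨1, [⟨96, 2, []⟩, ⟨128, 2, []⟩], [3, 3, 3], 1, [(160, 1), (192, 1)]⟩,
⟨1, [⟨16, 3, []⟩, ⟨40, 4, []⟩, ⟨128, 3, []⟩], [7, 5], 1, [(152, 1), (176, 1)]⟩,
⟨1, [⟨160, 3, []⟩, ⟨16, 3, []⟩, ⟨64, 4, []⟩], [7, 3], 1, [(112, 1), (208, 1)]⟩,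
⟨2, [⟨20, 5, []⟩, ⟨33, 5, []⟩, ⟨2, 3, []⟩], [4, 4], 1, [(7, 1), (19, 1), (38, 1), (50, 1)]⟩,
⟨1, [⟨132, 2, []⟩, ⟨64, 2, []⟩], [3, 3, 3], 1, [(68, 1), (192, 1)]⟩,
⟨2, [⟨1, 2, []⟩, ⟨64, 4, []⟩], [3, 1, 1], 1, [(65, 1)]⟩,
⟨1, [⟨18, 3, []⟩, ⟨4, 3, []⟩, ⟨128, 4, []⟩], [7, 3], 1, [(134, 1), (148, 1)]⟩,
⟨2, [⟨20, 5, []⟩, ⟨3, 5, []⟩, ⟨64, 3, []⟩], [4, 4], 1, [(69, 1), (70, 1), (81, 1), (82, 1)]⟩,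
⟨2, [⟨16, 2, []⟩, ⟨72, 4, []⟩], [3, 1, 1], 1, [(24, 1), (80, 1)]⟩,
⟨2, [⟨0, 0, [(96, 3)]⟩, ⟨8, 3, []⟩], [3, 3], 1, [(104, 1)]⟩,
⟨2, [⟨8, 2, []⟩, ⟨128, 4, []⟩], [3, 1, 1], 1, [(136, 1)]⟩,
⟨1, [⟨0, 0, [(18, 2)]⟩, ⟨128, 4, []⟩], [3, 1, 1], 1, [(146, 1)]⟩,
⟨1, [⟨16, 3, []⟩, ⟨32, 4, []⟩, ⟨128, 3, []⟩], [7, 5], 1, [(176, 1)]⟩,
⟨1, [⟨48, 2, []⟩, ⟨8, 2, []⟩], [3, 3, 3], 1, [(24, 1), (40, 1)]⟩,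
⟨2, [⟨8, 2, []⟩, ⟨80, 4, []⟩], [3, 1, 1], 1, [(24, 1), (72, 1)]⟩,
⟨1, [⟨4, 3, []⟩, ⟨2, 4, []⟩, ⟨128, 3, []⟩], [7, 5], 1, [(134, 1)]⟩,
⟨2, [⟨2, 3, []⟩, ⟨4, 3, []⟩, ⟨0, 0, [(24, 2)]⟩, ⟨32, 2, []⟩, ⟨128, 5, []⟩], [3, 3, 12, 12, 12], 2, [(134, 1), (184, 1), (190, 2)]⟩,
⟨1, [⟨8, 2, []⟩, ⟨208, 2, []⟩], [3, 3, 3], 1, [(24, 1), (72, 1), (136, 1)]⟩,
⟨2, [⟨0, 0, [(24, 2)]⟩, ⟨96, 4, []⟩], [3, 1, 1], 1, [(56, 1), (88, 1)]⟩,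
⟨1, [⟨134, 2, []⟩, ⟨64, 2, []⟩], [3, 3, 3], 1, [(66, 1), (68, 1), (192, 1)]⟩,
⟨0, [⟨24, 2, []⟩, ⟨96, 2, []⟩], [3, 3, 3], 1, [(40, 1), (48, 1), (72, 1), (80, 1)]⟩,
⟨2, [⟨2, 2, []⟩, ⟨4, 2, []⟩, ⟨16, 3, []⟩, ⟨32, 3, []⟩, ⟨128, 5, []⟩], [3, 3, 3, 12, 12], 2, [(134, 1), (176, 1), (182, 2)]⟩,
⟨1, [⟨144, 2, []⟩, ⟨64, 2, []⟩], [3, 3, 3], 1, [(80, 1), (192, 1)]⟩,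
⟨1, [⟨144, 3, []⟩, ⟨4, 3, []⟩, ⟨64, 4, []⟩], [7, 3], 1, [(84, 1), (196, 1)]⟩,
⟨2, [⟨132, 2, []⟩, ⟨64, 4, []⟩], [3, 1, 1], 1, [(68, 1), (192, 1)]⟩,
⟨2, [⟨4, 2, []⟩, ⟨192, 4, []⟩], [3, 1, 1], 1, [(68, 1), (132, 1)]⟩,
⟨2, [⟨1, 2, []⟩, ⟨4, 2, []⟩, ⟨8, 3, []⟩, ⟨32, 3, []⟩, ⟨64, 5, []⟩], [3, 3, 3, 12, 12], 2, [(69, 1), (104, 1), (109, 2)]⟩,
⟨2, [⟨48, 3, []⟩, ⟨128, 3, []⟩], [3, 3], 1, [(144, 1), (160, 1)]⟩,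
⟨2, [⟨3, 4, []⟩, ⟨4, 4, []⟩, ⟨128, 4, []⟩], [7], 1, [(133, 1), (134, 1)]⟩,
⟨2, [⟨1, 2, []⟩, ⟨4, 2, []⟩, ⟨8, 3, []⟩, ⟨32, 3, []⟩, ⟨128, 5, []⟩], [3, 3, 3, 12, 12], 2, [(133, 1), (168, 1), (173, 2)]⟩,
⟨2, [⟨17, 4, []⟩, ⟨32, 4, []⟩, ⟨64, 4, []⟩], [7], 1, [(97, 1), (112, 1)]⟩,
⟨1, [⟨18, 3, []⟩, ⟨64, 3, []⟩, ⟨128, 4, []⟩], [7, 3], 1, [(194, 1), (208, 1)]⟩,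
⟨1, [⟨36, 3, []⟩, ⟨64, 3, []⟩, ⟨128, 4, []⟩], [7, 3], 1, [(196, 1), (224, 1)]⟩,
⟨2, [⟨16, 3, []⟩, ⟨32, 2, []⟩, ⟨0, 0, [(3, 3)]⟩, ⟨4, 3, []⟩, ⟨128, 4, []⟩], [3, 3, 18, 12, 12], 2, [(23, 1), (135, 1), (176, 1), (183, 2)]⟩,
⟨1, [⟨16, 2, []⟩, ⟨32, 2, []⟩, ⟨4, 1, []⟩, ⟨128, 5, []⟩], [3, 3, 3, 4, 4, 4, 4], 2, [(132, 1), (176, 1), (180, 2)]⟩,
⟨1, [⟨34, 3, []⟩, ⟨16, 3, []⟩, ⟨128, 4, []⟩], [7, 3], 1, [(146, 1), (176, 1)]⟩,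
⟨2, [⟨2, 3, []⟩, ⟨4, 4, []⟩, ⟨16, 3, []⟩, ⟨32, 4, []⟩, ⟨64, 3, []⟩], [3, 5, 12, 16, 16], 2, [(54, 1), (70, 1), (100, 1), (112, 1), (118, 2)]⟩,
⟨2, [⟨40, 3, []⟩, ⟨128, 3, []⟩], [3, 3], 1, [(136, 1), (160, 1)]⟩,
⟨0, [⟨48, 2, []⟩, ⟨72, 2, []⟩], [3, 3, 3], 1, [(24, 1), (40, 1), (80, 1), (96, 1)]⟩,
⟨2, [⟨16, 3, []⟩, ⟨32, 2, []⟩, ⟨2, 3, []⟩, ⟨4, 3, []⟩, ⟨64, 4, []⟩], [3, 3, 10, 12, 20], 2, [(52, 1), (70, 1), (82, 1), (112, 1), (118, 2)]⟩,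
⟨2, [⟨66, 4, []⟩, ⟨4, 4, []⟩, ⟨128, 4, []⟩], [7], 1, [(134, 1), (196, 1)]⟩,
⟨1, [⟨48, 2, []⟩, ⟨64, 4, []⟩], [3, 1, 1], 1, [(80, 1), (96, 1)]⟩,
⟨0, [⟨96, 2, []⟩, ⟨3, 2, []⟩], [3, 3, 3], 1, [(33, 1), (34, 1), (65, 1), (66, 1)]⟩,
⟨2, [⟨1, 2, []⟩, ⟨4, 2, []⟩, ⟨8, 3, []⟩, ⟨16, 3, []⟩, ⟨64, 5, []⟩], [3, 3, 3, 12, 12], 2, [(69, 1), (88, 1), (93, 2)]⟩,
⟨1, [⟨34, 2, []⟩, ⟨80, 2, []⟩], [3, 3, 3], 1, [(18, 1), (48, 1), (66, 1), (96, 1)]⟩,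
⟨1, [⟨16, 3, []⟩, ⟨32, 3, []⟩, ⟨68, 4, []⟩], [7, 3], 1, [(52, 1), (112, 1)]⟩,
⟨1, [⟨96, 2, []⟩, ⟨3, 2, []⟩], [3, 3, 3], 1, [(33, 1), (34, 1), (65, 1), (66, 1)]⟩,
⟨2, [⟨0, 0, [(24, 2)]⟩, ⟨32, 4, []⟩], [3, 1, 1], 1, [(56, 1)]⟩,
⟨2, [⟨8, 3, []⟩, ⟨16, 2, []⟩, ⟨1, 3, []⟩, ⟨4, 3, []⟩, ⟨64, 4, []⟩], [3, 3, 18, 12, 12], 2, [(13, 1), (69, 1), (88, 1), (93, 2)]⟩,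
⟨2, [⟨0, 0, [(24, 3)]⟩, ⟨64, 3, []⟩], [3, 3], 1, [(88, 1)]⟩,
⟨2, [⟨0, 0, [(3, 2)]⟩, ⟨68, 4, []⟩], [3, 1, 1], 1, [(7, 1), (67, 1)]⟩,
⟨1, [⟨80, 2, []⟩, ⟨6, 2, []⟩], [3, 3, 3], 1, [(18, 1), (20, 1), (66, 1), (68, 1)]⟩,
⟨1, [⟨34, 3, []⟩, ⟨72, 3, []⟩, ⟨128, 4, []⟩], [7, 3], 1, [(138, 1), (168, 1), (194, 1), (224, 1)]⟩,
⟨1, [⟨16, 2, []⟩, ⟨3, 2, []⟩], [3, 3, 3], 1, [(17, 1), (18, 1)]⟩,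
⟨1, [⟨24, 2, []⟩, ⟨192, 2, []⟩], [3, 3, 3], 1, [(72, 1), (80, 1), (136, 1), (144, 1)]⟩,
⟨1, [⟨20, 4, []⟩, ⟨32, 3, []⟩, ⟨64, 3, []⟩], [7, 6], 1, [(100, 1), (112, 1)]⟩,
⟨2, [⟨48, 4, []⟩, ⟨4, 4, []⟩, ⟨128, 4, []⟩], [7], 1, [(148, 1), (164, 1)]⟩,
⟨2, [⟨8, 2, []⟩, ⟨32, 2, []⟩, ⟨2, 3, []⟩, ⟨4, 3, []⟩, ⟨64, 5, []⟩], [3, 3, 3, 12, 12], 2, [(70, 1), (104, 1), (110, 2)]⟩,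
⟨2, [⟨1, 2, []⟩, ⟨4, 2, []⟩, ⟨16, 3, []⟩, ⟨32, 3, []⟩, ⟨128, 5, []⟩], [3, 3, 3, 12, 12], 2, [(133, 1), (176, 1), (181, 2)]⟩,
⟨1, [⟨8, 3, []⟩, ⟨32, 4, []⟩, ⟨128, 3, []⟩], [7, 5], 1, [(168, 1)]⟩,
⟨2, [⟨0, 0, [(20, 3)]⟩, ⟨1, 3, []⟩], [3, 3], 1, [(21, 1)]⟩,
⟨1, [⟨34, 3, []⟩, ⟨68, 3, []⟩, ⟨128, 4, []⟩], [7, 3], 1, [(134, 1), (164, 1), (194, 1), (224, 1)]⟩,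
⟨2, [⟨33, 5, []⟩, ⟨16, 3, []⟩, ⟨128, 5, []⟩], [2, 2], 1, [(145, 1), (176, 1)]⟩,
⟨2, [⟨10, 4, []⟩, ⟨64, 4, []⟩, ⟨128, 4, []⟩], [7], 1, [(194, 1), (200, 1)]⟩,
⟨2, [⟨3, 2, []⟩, ⟨128, 4, []⟩], [3, 1, 1], 1, [(129, 1), (130, 1)]⟩,
⟨2, [⟨1, 3, []⟩, ⟨2, 3, []⟩, ⟨16, 3, []⟩, ⟨32, 3, []⟩, ⟨64, 4, []⟩], [3, 3, 12, 12, 16], 2, [(51, 1), (67, 1), (112, 1), (115, 2)]⟩,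
⟨2, [⟨65, 5, []⟩, ⟨4, 3, []⟩, ⟨130, 5, []⟩], [2, 2], 1, [(7, 1), (70, 1), (133, 1), (196, 1)]⟩,
⟨2, [⟨20, 4, []⟩, ⟨128, 2, []⟩], [3, 2, 2], 1, [(132, 1), (144, 1)]⟩,
⟨1, [⟨36, 3, []⟩, ⟨72, 3, []⟩, ⟨128, 4, []⟩], [7, 3], 1, [(140, 1), (168, 1), (196, 1), (224, 1)]⟩,
⟨2, [⟨4, 3, []⟩, ⟨130, 3, []⟩], [3, 3], 1, [(6, 1), (132, 1)]⟩,
⟨1, [⟨4, 2, []⟩, ⟨16, 2, []⟩], [3, 3, 3], 1, [(20, 1)]⟩,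
⟨2, [⟨18, 2, []⟩, ⟨132, 4, []⟩], [3, 1, 1], 1, [(6, 1), (20, 1), (130, 1), (144, 1)]⟩,
⟨2, [⟨0, 0, [(80, 3)]⟩, ⟨8, 3, []⟩], [3, 3], 1, [(88, 1)]⟩,
⟨1, [⟨6, 2, []⟩, ⟨65, 2, []⟩], [3, 3, 3], 1, [(3, 1), (5, 1), (66, 1), (68, 1)]⟩,
⟨2, [⟨2, 3, []⟩, ⟨4, 3, []⟩, ⟨16, 4, []⟩, ⟨32, 4, []⟩, ⟨64, 3, []⟩], [3, 3, 12, 16, 16], 2, [(54, 1), (70, 1), (112, 1), (118, 2)]⟩,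
⟨2, [⟨34, 4, []⟩, ⟨20, 4, []⟩, ⟨128, 4, []⟩], [7], 1, [(134, 1), (146, 1), (164, 1), (176, 1)]⟩,
⟨1, [⟨0, 0, [(48, 2)]⟩, ⟨128, 2, []⟩], [3, 3, 3], 1, [(176, 1)]⟩,
⟨1, [⟨68, 4, []⟩, ⟨2, 3, []⟩, ⟨128, 3, []⟩], [7, 6], 1, [(134, 1), (194, 1)]⟩,
⟨2, [⟨65, 4, []⟩, ⟨24, 4, []⟩, ⟨32, 4, []⟩], [7], 1, [(41, 1), (49, 1), (104, 1), (112, 1)]⟩,
⟨1, [⟨0, 0, [(17, 2)]⟩, ⟨128, 4, []⟩], [3, 1, 1], 1, [(145, 1)]⟩,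
⟨1, [⟨4, 2, []⟩, ⟨192, 2, []⟩], [3, 3, 3], 1, [(68, 1), (132, 1)]⟩,
⟨2, [⟨8, 3, []⟩, ⟨32, 3, []⟩, ⟨3, 4, []⟩, ⟨4, 4, []⟩, ⟨64, 3, []⟩], [3, 3, 12, 16, 16], 2, [(45, 1), (46, 1), (69, 1), (70, 1), (104, 1), (109, 2), (110, 2)]⟩,
⟨2, [⟨10, 2, []⟩, ⟨144, 4, []⟩], [3, 1, 1], 1, [(18, 1), (24, 1), (130, 1), (136, 1)]⟩,
⟨2, [⟨68, 4, []⟩, ⟨16, 2, []⟩], [3, 2, 2], 1, [(20, 1), (80, 1)]⟩,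
⟨2, [⟨16, 2, []⟩, ⟨32, 2, []⟩, ⟨2, 3, []⟩, ⟨4, 3, []⟩, ⟨128, 5, []⟩], [3, 3, 3, 12, 12], 2, [(134, 1), (176, 1), (182, 2)]⟩,
⟨1, [⟨18, 2, []⟩, ⟨96, 2, []⟩], [3, 3, 3], 1, [(34, 1), (48, 1), (66, 1), (80, 1)]⟩,
⟨2, [⟨8, 3, []⟩, ⟨32, 3, []⟩, ⟨2, 3, []⟩, ⟨4, 2, []⟩, ⟨128, 4, []⟩], [3, 3, 12, 12, 24], 2, [(42, 1), (134, 1), (168, 1), (174, 2)]⟩,
⟨1, [⟨20, 3, []⟩, ⟨2, 3, []⟩, ⟨64, 4, []⟩], [7, 3], 1, [(70, 1), (82, 1)]⟩,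
⟨1, [⟨2, 3, []⟩, ⟨4, 3, []⟩, ⟨72, 4, []⟩], [7, 3], 1, [(14, 1), (70, 1)]⟩,
⟨2, [⟨10, 5, []⟩, ⟨16, 3, []⟩, ⟨128, 5, []⟩], [2, 2], 1, [(146, 1), (152, 1)]⟩,
⟨2, [⟨16, 2, []⟩, ⟨32, 2, []⟩, ⟨4, 2, []⟩, ⟨128, 2, []⟩], [3, 3, 3, 12, 12, 12], 2, [(48, 1), (132, 1), (180, 2)]⟩,
⟨1, [⟨32, 3, []⟩, ⟨16, 4, []⟩, ⟨192, 3, []⟩], [7, 5], 1, [(112, 1), (176, 1)]⟩,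
⟨1, [⟨36, 3, []⟩, ⟨64, 4, []⟩, ⟨128, 3, []⟩], [7, 5], 1, [(196, 1), (224, 1)]⟩,
⟨1, [⟨33, 2, []⟩, ⟨128, 2, []⟩], [3, 3, 3], 1, [(129, 1), (160, 1)]⟩,
⟨2, [⟨5, 3, []⟩, ⟨64, 3, []⟩], [3, 3], 1, [(65, 1), (68, 1)]⟩,
⟨1, [⟨17, 3, []⟩, ⟨68, 3, []⟩, ⟨128, 4, []⟩], [7, 3], 1, [(133, 1), (148, 1), (193, 1), (208, 1)]⟩,
⟨1, [⟨16, 2, []⟩, ⟨32, 2, []⟩, ⟨2, 1, []⟩, ⟨128, 5, []⟩], [3, 3, 3, 4, 4, 4, 4], 2, [(130, 1), (176, 1), (178, 2)]⟩,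
⟨2, [⟨0, 0, [(6, 2)]⟩, ⟨65, 4, []⟩], [3, 1, 1], 1, [(7, 1), (70, 1)]⟩,
⟨2, [⟨8, 3, []⟩, ⟨16, 3, []⟩], [3, 3], 1, [(24, 1)]⟩,
⟨2, [⟨40, 4, []⟩, ⟨64, 4, []⟩, ⟨128, 4, []⟩], [7], 1, [(200, 1), (224, 1)]⟩,
⟨2, [⟨10, 4, []⟩, ⟨33, 4, []⟩, ⟨4, 4, []⟩], [7], 1, [(7, 1), (13, 1), (38, 1), (44, 1)]⟩,
⟨1, [⟨2, 2, []⟩, ⟨132, 2, []⟩], [3, 3, 3], 1, [(6, 1), (130, 1)]⟩,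
⟨0, [⟨17, 2, []⟩, ⟨66, 2, []⟩], [3, 3, 3], 1, [(3, 1), (18, 1), (65, 1), (80, 1)]⟩,
⟨2, [⟨2, 3, []⟩, ⟨4, 3, []⟩, ⟨8, 3, []⟩, ⟨16, 3, []⟩, ⟨128, 4, []⟩], [3, 3, 12, 12, 16], 2, [(30, 1), (134, 1), (152, 1), (158, 2)]⟩,
⟨1, [⟨2, 2, []⟩, ⟨128, 2, []⟩], [3, 3, 3], 1, [(130, 1)]⟩,
⟨1, [⟨48, 3, []⟩, ⟨64, 3, []⟩, ⟨128, 4, []⟩], [7, 3], 1, [(208, 1), (224, 1)]⟩,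
⟨2, [⟨2, 3, []⟩, ⟨4, 3, []⟩, ⟨24, 4, []⟩, ⟨32, 4, []⟩, ⟨64, 3, []⟩], [3, 3, 12, 16, 16], 2, [(46, 1), (54, 1), (70, 1), (104, 1), (110, 2), (112, 1), (118, 2)]⟩,
⟨1, [⟨2, 3, []⟩, ⟨8, 3, []⟩, ⟨128, 4, []⟩], [7, 3], 1, [(138, 1)]⟩,
⟨2, [⟨66, 3, []⟩, ⟨128, 3, []⟩], [3, 3], 1, [(130, 1), (192, 1)]⟩,
⟨2, [⟨80, 4, []⟩, ⟨2, 4, []⟩, ⟨4, 4, []⟩], [7], 1, [(22, 1), (70, 1)]⟩,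
⟨2, [⟨1, 2, []⟩, ⟨4, 2, []⟩, ⟨16, 3, []⟩, ⟨32, 3, []⟩, ⟨64, 5, []⟩], [3, 3, 3, 12, 12], 2, [(69, 1), (112, 1), (117, 2)]⟩,
⟨1, [⟨20, 3, []⟩, ⟨32, 4, []⟩, ⟨64, 3, []⟩], [7, 5], 1, [(100, 1), (112, 1)]⟩,
⟨1, [⟨32, 2, []⟩, ⟨6, 2, []⟩], [3, 3, 3], 1, [(34, 1), (36, 1)]⟩,
⟨1, [⟨36, 3, []⟩, ⟨18, 4, []⟩, ⟨64, 3, []⟩], [7, 5], 1, [(70, 1), (84, 1), (98, 1), (112, 1)]⟩,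
⟨1, [⟨18, 3, []⟩, ⟨5, 3, []⟩, ⟨128, 4, []⟩], [7, 3], 1, [(131, 1), (134, 1), (145, 1), (148, 1)]⟩,
⟨1, [⟨33, 3, []⟩, ⟨4, 3, []⟩, ⟨128, 4, []⟩], [7, 3], 1, [(133, 1), (164, 1)]⟩,
⟨1, [⟨18, 4, []⟩, ⟨1, 3, []⟩, ⟨8, 3, []⟩], [7, 6], 1, [(11, 1), (25, 1)]⟩,
⟨0, [⟨8, 2, []⟩, ⟨224, 2, []⟩], [3, 3, 3], 1, [(40, 1), (72, 1), (136, 1)]⟩,
⟨2, [⟨48, 3, []⟩, ⟨64, 3, []⟩], [3, 3], 1, [(80, 1), (96, 1)]⟩,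
⟨2, [⟨0, 0, [(6, 2)]⟩, ⟨128, 4, []⟩], [3, 1, 1], 1, [(134, 1)]⟩,
⟨2, [⟨1, 2, []⟩, ⟨2, 2, []⟩, ⟨0, 0, [(24, 2)]⟩, ⟨32, 2, []⟩], [3, 3, 3, 12, 12, 12], 2, [(3, 1), (56, 1), (59, 2)]⟩,
⟨1, [⟨12, 3, []⟩, ⟨32, 3, []⟩, ⟨128, 4, []⟩], [7, 3], 1, [(164, 1), (168, 1)]⟩,
⟨2, [⟨3, 4, []⟩, ⟨4, 4, []⟩, ⟨64, 4, []⟩], [7], 1, [(69, 1), (70, 1)]⟩,
⟨2, [⟨1, 2, []⟩, ⟨2, 2, []⟩, ⟨8, 3, []⟩, ⟨32, 3, []⟩, ⟨64, 5, []⟩], [3, 3, 3, 12, 12], 2, [(67, 1), (104, 1), (107, 2)]⟩,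
⟨1, [⟨1, 2, []⟩, ⟨64, 2, []⟩], [3, 3, 3], 1, [(65, 1)]⟩,
⟨1, [⟨40, 2, []⟩, ⟨16, 2, []⟩], [3, 3, 3], 1, [(24, 1), (48, 1)]⟩,
⟨2, [⟨4, 3, []⟩, ⟨2, 2, []⟩, ⟨8, 3, []⟩, ⟨32, 3, []⟩, ⟨64, 4, []⟩], [3, 3, 18, 12, 12], 2, [(44, 1), (70, 1), (104, 1), (110, 2)]⟩,
⟨2, [⟨96, 4, []⟩, ⟨3, 4, []⟩, ⟨4, 4, []⟩], [7], 1, [(37, 1), (38, 1), (69, 1), (70, 1)]⟩,
⟨2, [⟨16, 3, []⟩, ⟨32, 3, []⟩], [3, 3], 1, [(48, 1)]⟩,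
⟨1, [⟨129, 3, []⟩, ⟨4, 3, []⟩, ⟨64, 4, []⟩], [7, 3], 1, [(69, 1), (196, 1)]⟩,
⟨1, [⟨9, 2, []⟩, ⟨128, 2, []⟩], [3, 3, 3], 1, [(129, 1), (136, 1)]⟩,
⟨2, [⟨24, 4, []⟩, ⟨32, 2, []⟩], [3, 2, 2], 1, [(40, 1), (48, 1)]⟩,
⟨1, [⟨65, 2, []⟩, ⟨128, 2, []⟩], [3, 3, 3], 1, [(129, 1), (192, 1)]⟩,
⟨2, [⟨32, 3, []⟩, ⟨16, 2, []⟩, ⟨1, 3, []⟩, ⟨4, 3, []⟩, ⟨64, 4, []⟩], [3, 3, 18, 12, 12], 2, [(37, 1), (69, 1), (112, 1), (117, 2)]⟩,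
⟨1, [⟨40, 3, []⟩, ⟨64, 3, []⟩, ⟨128, 4, []⟩], [7, 3], 1, [(200, 1), (224, 1)]⟩,
⟨2, [⟨32, 3, []⟩, ⟨144, 3, []⟩], [3, 3], 1, [(48, 1), (160, 1)]⟩,
⟨1, [⟨8, 2, []⟩, ⟨64, 2, []⟩], [3, 3, 3], 1, [(72, 1)]⟩,
⟨2, [⟨16, 3, []⟩, ⟨32, 2, []⟩, ⟨2, 3, []⟩, ⟨4, 3, []⟩, ⟨64, 4, []⟩], [3, 3, 18, 12, 12], 2, [(22, 1), (70, 1), (112, 1), (118, 2)]⟩,
⟨1, [⟨1, 3, []⟩, ⟨6, 4, []⟩, ⟨128, 3, []⟩], [7, 5], 1, [(131, 1), (133, 1)]⟩,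
⟨1, [⟨10, 3, []⟩, ⟨64, 4, []⟩, ⟨128, 3, []⟩], [7, 5], 1, [(194, 1), (200, 1)]⟩,
⟨2, [⟨0, 0, [(68, 3)]⟩, ⟨2, 3, []⟩], [3, 3], 1, [(70, 1)]⟩,
⟨1, [⟨8, 2, []⟩, ⟨224, 2, []⟩], [3, 3, 3], 1, [(40, 1), (72, 1), (136, 1)]⟩,
⟨2, [⟨20, 4, []⟩, ⟨3, 4, []⟩, ⟨128, 4, []⟩], [7], 1, [(133, 1), (134, 1), (145, 1), (146, 1)]⟩,
⟨2, [⟨68, 4, []⟩, ⟨0, 0, [(24, 2)]⟩], [3, 2, 2], 1, [(28, 1), (88, 1)]⟩,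
⟨2, [⟨2, 3, []⟩, ⟨4, 3, []⟩, ⟨0, 0, [(40, 1)]⟩, ⟨128, 5, []⟩], [3, 3, 4, 4, 4, 4], 2, [(134, 1), (168, 1), (174, 2)]⟩,
⟨1, [⟨72, 4, []⟩, ⟨16, 3, []⟩, ⟨128, 3, []⟩], [7, 6], 1, [(152, 1), (208, 1)]⟩,
⟨1, [⟨66, 4, []⟩, ⟨0, 0, [(40, 2)]⟩], [3, 2, 2], 1, [(42, 1), (104, 1)]⟩,
⟨1, [⟨12, 3, []⟩, ⟨64, 4, []⟩, ⟨128, 3, []⟩], [7, 5], 1, [(196, 1), (200, 1)]⟩,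
⟨2, [⟨33, 4, []⟩, ⟨2, 4, []⟩, ⟨128, 4, []⟩], [7], 1, [(131, 1), (162, 1)]⟩,
⟨2, [⟨18, 5, []⟩, ⟨8, 3, []⟩, ⟨128, 5, []⟩], [2, 2], 1, [(138, 1), (152, 1)]⟩,
⟨2, [⟨96, 4, []⟩, ⟨24, 2, []⟩], [3, 2, 2], 1, [(40, 1), (48, 1), (72, 1), (80, 1)]⟩,
⟨0, [⟨9, 2, []⟩, ⟨48, 2, []⟩], [3, 3, 3], 1, [(17, 1), (24, 1), (33, 1), (40, 1)]⟩,
⟨2, [⟨33, 4, []⟩, ⟨16, 4, []⟩, ⟨64, 4, []⟩], [7], 1, [(81, 1), (112, 1)]⟩,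
⟨2, [⟨17, 4, []⟩, ⟨4, 4, []⟩, ⟨128, 4, []⟩], [7], 1, [(133, 1), (148, 1)]⟩,
⟨0, [⟨6, 2, []⟩, ⟨1, 2, []⟩], [3, 3, 3], 1, [(3, 1), (5, 1)]⟩,
⟨2, [⟨17, 4, []⟩, ⟨64, 4, []⟩, ⟨128, 4, []⟩], [7], 1, [(193, 1), (208, 1)]⟩,
⟨0, [⟨3, 2, []⟩, ⟨24, 2, []⟩], [3, 3, 3], 1, [(9, 1), (10, 1), (17, 1), (18, 1)]⟩,
⟨1, [⟨80, 4, []⟩, ⟨8, 3, []⟩, ⟨128, 3, []⟩], [7, 6], 1, [(152, 1), (200, 1)]⟩,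
⟨0, [⟨34, 2, []⟩, ⟨65, 2, []⟩], [3, 3, 3], 1, [(3, 1), (33, 1), (66, 1), (96, 1)]⟩,
⟨1, [⟨20, 4, []⟩, ⟨32, 3, []⟩, ⟨128, 3, []⟩], [7, 6], 1, [(164, 1), (176, 1)]⟩,
⟨1, [⟨10, 3, []⟩, ⟨4, 4, []⟩, ⟨64, 3, []⟩], [7, 5], 1, [(70, 1), (76, 1)]⟩,
⟨1, [⟨1, 2, []⟩, ⟨0, 0, [(18, 2)]⟩], [3, 3, 3], 1, [(19, 1)]⟩,
⟨1, [⟨3, 2, []⟩, ⟨4, 2, []⟩], [3, 3, 3], 1, [(5, 1), (6, 1)]⟩,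
⟨2, [⟨18, 4, []⟩, ⟨4, 4, []⟩, ⟨64, 4, []⟩], [7], 1, [(70, 1), (84, 1)]⟩,
⟨1, [⟨1, 3, []⟩, ⟨4, 3, []⟩, ⟨66, 4, []⟩], [7, 3], 1, [(7, 1), (69, 1)]⟩,
⟨2, [⟨2, 4, []⟩, ⟨4, 4, []⟩, ⟨128, 4, []⟩], [7], 1, [(134, 1)]⟩,
⟨2, [⟨17, 4, []⟩, ⟨12, 4, []⟩, ⟨32, 4, []⟩], [7], 1, [(37, 1), (41, 1), (52, 1), (56, 1)]⟩,
⟨2, [⟨8, 2, []⟩, ⟨16, 2, []⟩, ⟨2, 3, []⟩, ⟨4, 3, []⟩, ⟨128, 5, []⟩], [3, 3, 3, 12, 12], 2, [(134, 1), (152, 1), (158, 2)]⟩,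
⟨2, [⟨20, 4, []⟩, ⟨32, 4, []⟩, ⟨64, 4, []⟩], [7], 1, [(100, 1), (112, 1)]⟩,
⟨1, [⟨3, 3, []⟩, ⟨64, 3, []⟩, ⟨128, 4, []⟩], [7, 3], 1, [(193, 1), (194, 1)]⟩,
⟨2, [⟨36, 5, []⟩, ⟨24, 5, []⟩, ⟨64, 3, []⟩], [4, 4], 1, [(76, 1), (84, 1), (104, 1), (112, 1)]⟩,
⟨1, [⟨129, 2, []⟩, ⟨64, 2, []⟩], [3, 3, 3], 1, [(65, 1), (192, 1)]⟩,
⟨0, [⟨12, 2, []⟩, ⟨80, 2, []⟩], [3, 3, 3], 1, [(20, 1), (24, 1), (68, 1), (72, 1)]⟩,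
⟨2, [⟨1, 3, []⟩, ⟨64, 3, []⟩], [3, 3], 1, [(65, 1)]⟩,
⟨1, [⟨0, 0, [(24, 2)]⟩, ⟨128, 2, []⟩], [3, 3, 3], 1, [(152, 1)]⟩,
⟨1, [⟨16, 2, []⟩, ⟨32, 2, []⟩, ⟨4, 1, []⟩, ⟨64, 5, []⟩], [3, 3, 3, 4, 4, 4, 4], 2, [(68, 1), (112, 1), (116, 2)]⟩,
⟨2, [⟨40, 4, []⟩, ⟨20, 4, []⟩, ⟨64, 4, []⟩], [7], 1, [(76, 1), (88, 1), (100, 1), (112, 1)]⟩,
⟨1, [⟨24, 2, []⟩, ⟨64, 4, []⟩], [3, 1, 1], 1, [(72, 1), (80, 1)]⟩,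
⟨2, [⟨0, 0, [(33, 3)]⟩, ⟨20, 5, []⟩, ⟨66, 5, []⟩], [1, 1], 1, [(39, 1), (51, 1), (101, 1), (113, 1)]⟩,
⟨1, [⟨20, 2, []⟩, ⟨96, 2, []⟩], [3, 3, 3], 1, [(36, 1), (48, 1), (68, 1), (80, 1)]⟩,
⟨2, [⟨36, 4, []⟩, ⟨2, 4, []⟩, ⟨128, 4, []⟩], [7], 1, [(134, 1), (162, 1)]⟩,
⟨2, [⟨0, 0, [(66, 3)]⟩, ⟨4, 3, []⟩], [3, 3], 1, [(70, 1)]⟩,
⟨1, [⟨40, 2, []⟩, ⟨192, 2, []⟩], [3, 3, 3], 1, [(72, 1), (96, 1), (136, 1), (160, 1)]⟩,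
⟨0, [⟨65, 2, []⟩, ⟨40, 2, []⟩], [3, 3, 3], 1, [(9, 1), (33, 1), (72, 1), (96, 1)]⟩,
⟨2, [⟨1, 2, []⟩, ⟨4, 2, []⟩, ⟨0, 0, [(24, 2)]⟩, ⟨32, 2, []⟩], [3, 3, 3, 12, 12, 12], 2, [(5, 1), (56, 1), (61, 2)]⟩,
⟨2, [⟨8, 2, []⟩, ⟨2, 2, []⟩, ⟨4, 2, []⟩, ⟨64, 2, []⟩], [9, 9, 9, 6, 6, 6], 2, [(6, 1), (72, 1), (78, 2)]⟩,
⟨2, [⟨48, 4, []⟩, ⟨2, 2, []⟩], [3, 2, 2], 1, [(18, 1), (34, 1)]⟩,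
⟨2, [⟨2, 2, []⟩, ⟨4, 2, []⟩, ⟨8, 3, []⟩, ⟨16, 3, []⟩, ⟨128, 5, []⟩], [3, 3, 3, 12, 12], 2, [(134, 1), (152, 1), (158, 2)]⟩,
⟨1, [⟨33, 3, []⟩, ⟨8, 3, []⟩, ⟨128, 4, []⟩], [7, 3], 1, [(137, 1), (168, 1)]⟩,
⟨2, [⟨12, 4, []⟩, ⟨2, 4, []⟩, ⟨64, 4, []⟩], [7], 1, [(70, 1), (74, 1)]⟩,
⟨1, [⟨20, 2, []⟩, ⟨32, 2, []⟩], [3, 3, 3], 1, [(36, 1), (48, 1)]⟩,
⟨2, [⟨16, 2, []⟩, ⟨32, 4, []⟩, ⟨1, 3, []⟩, ⟨2, 3, []⟩, ⟨64, 3, []⟩], [3, 5, 5, 24, 24], 2, [(49, 1), (67, 1), (98, 1), (115, 2)]⟩,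
⟨2, [⟨2, 3, []⟩, ⟨128, 3, []⟩], [3, 3], 1, [(130, 1)]⟩,
⟨1, [⟨17, 3, []⟩, ⟨64, 3, []⟩, ⟨128, 4, []⟩], [7, 3], 1, [(193, 1), (208, 1)]⟩,
⟨2, [⟨2, 2, []⟩, ⟨196, 4, []⟩], [3, 1, 1], 1, [(6, 1), (66, 1), (130, 1)]⟩,
⟨2, [⟨2, 3, []⟩, ⟨4, 3, []⟩, ⟨16, 3, []⟩, ⟨32, 3, []⟩, ⟨128, 4, []⟩], [3, 3, 12, 12, 16], 2, [(54, 1), (134, 1), (176, 1), (182, 2)]⟩,
⟨2, [⟨1, 2, []⟩, ⟨2, 2, []⟩, ⟨16, 3, []⟩, ⟨32, 3, []⟩, ⟨128, 5, []⟩], [3, 3, 3, 12, 12], 2, [(131, 1), (176, 1), (179, 2)]⟩,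
⟨1, [⟨6, 3, []⟩, ⟨64, 3, []⟩, ⟨128, 4, []⟩], [7, 3], 1, [(194, 1), (196, 1)]⟩,
⟨2, [⟨68, 4, []⟩, ⟨0, 0, [(40, 2)]⟩], [3, 2, 2], 1, [(44, 1), (104, 1)]⟩,
⟨2, [⟨2, 4, []⟩, ⟨16, 2, []⟩], [3, 2, 2], 1, [(18, 1)]⟩,
⟨2, [⟨4, 2, []⟩, ⟨2, 4, []⟩], [3, 1, 1], 1, [(6, 1)]⟩,
⟨2, [⟨4, 2, []⟩, ⟨16, 2, []⟩, ⟨32, 2, []⟩, ⟨64, 2, []⟩], [9, 9, 9, 6, 6, 6], 2, [(48, 1), (68, 1), (116, 2)]⟩,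
⟨1, [⟨18, 2, []⟩, ⟨68, 2, []⟩], [3, 3, 3], 1, [(6, 1), (20, 1), (66, 1), (80, 1)]⟩,
⟨2, [⟨10, 5, []⟩, ⟨20, 5, []⟩, ⟨32, 3, []⟩], [4, 4], 1, [(38, 1), (44, 1), (50, 1), (56, 1)]⟩,
⟨1, [⟨17, 3, []⟩, ⟨32, 3, []⟩, ⟨128, 4, []⟩], [7, 3], 1, [(161, 1), (176, 1)]⟩,
⟨0, [⟨2, 2, []⟩, ⟨8, 2, []⟩], [3, 3, 3], 1, [(10, 1)]⟩,
⟨2, [⟨0, 0, [(3, 2)]⟩, ⟨36, 4, []⟩], [3, 1, 1], 1, [(7, 1), (35, 1)]⟩,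
⟨2, [⟨4, 4, []⟩, ⟨32, 2, []⟩], [3, 2, 2], 1, [(36, 1)]⟩,
⟨1, [⟨18, 2, []⟩, ⟨192, 2, []⟩], [3, 3, 3], 1, [(66, 1), (80, 1), (130, 1), (144, 1)]⟩,
⟨2, [⟨8, 2, []⟩, ⟨32, 4, []⟩, ⟨2, 3, []⟩, ⟨4, 3, []⟩, ⟨64, 3, []⟩], [3, 5, 5, 24, 24], 2, [(42, 1), (70, 1), (100, 1), (110, 2)]⟩,
⟨2, [⟨0, 0, [(40, 3)]⟩, ⟨64, 3, []⟩], [3, 3], 1, [(104, 1)]⟩,
⟨2, [⟨18, 4, []⟩, ⟨32, 4, []⟩, ⟨64, 4, []⟩], [7], 1, [(98, 1), (112, 1)]⟩,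
⟨1, [⟨34, 3, []⟩, ⟨20, 4, []⟩, ⟨64, 3, []⟩], [7, 5], 1, [(70, 1), (82, 1), (100, 1), (112, 1)]⟩,
⟨2, [⟨2, 2, []⟩, ⟨4, 2, []⟩, ⟨24, 4, []⟩, ⟨32, 3, []⟩, ⟨64, 4, []⟩], [3, 3, 3, 12, 24], 2, [(14, 1), (22, 1), (70, 1), (104, 1), (110, 2), (112, 1), (118, 2)]⟩,
⟨1, [⟨4, 3, []⟩, ⟨16, 3, []⟩, ⟨64, 4, []⟩], [7, 3], 1, [(84, 1)]⟩,
⟨1, [⟨36, 2, []⟩, ⟨2, 2, []⟩], [3, 3, 3], 1, [(6, 1), (34, 1)]⟩,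
⟨2, [⟨9, 4, []⟩, ⟨64, 4, []⟩, ⟨128, 4, []⟩], [7], 1, [(193, 1), (200, 1)]⟩,
⟨1, [⟨34, 4, []⟩, ⟨4, 3, []⟩, ⟨64, 3, []⟩], [7, 6], 1, [(70, 1), (100, 1)]⟩,
⟨2, [⟨2, 2, []⟩, ⟨68, 4, []⟩], [3, 1, 1], 1, [(6, 1), (66, 1)]⟩,
⟨2, [⟨16, 3, []⟩, ⟨32, 2, []⟩, ⟨1, 3, []⟩, ⟨4, 3, []⟩, ⟨64, 4, []⟩], [3, 3, 18, 12, 12], 2, [(21, 1), (69, 1), (112, 1), (117, 2)]⟩,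
⟨2, [⟨0, 0, [(96, 3)]⟩, ⟨16, 3, []⟩], [3, 3], 1, [(112, 1)]⟩,
⟨2, [⟨32, 2, []⟩, ⟨72, 4, []⟩], [3, 1, 1], 1, [(40, 1), (96, 1)]⟩,
⟨1, [⟨6, 3, []⟩, ⟨129, 3, []⟩, ⟨64, 4, []⟩], [7, 3], 1, [(67, 1), (69, 1), (194, 1), (196, 1)]⟩,
⟨2, [⟨17, 4, []⟩, ⟨66, 4, []⟩, ⟨4, 4, []⟩], [7], 1, [(7, 1), (22, 1), (69, 1), (84, 1)]⟩,
⟨2, [⟨12, 4, []⟩, ⟨80, 4, []⟩, ⟨32, 4, []⟩], [7], 1, [(52, 1), (56, 1), (100, 1), (104, 1)]⟩,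
⟨1, [⟨132, 3, []⟩, ⟨2, 3, []⟩, ⟨64, 4, []⟩], [7, 3], 1, [(70, 1), (194, 1)]⟩,
⟨2, [⟨34, 5, []⟩, ⟨20, 5, []⟩, ⟨64, 3, []⟩], [4, 4], 1, [(70, 1), (82, 1), (100, 1), (112, 1)]⟩,
⟨2, [⟨16, 2, []⟩, ⟨2, 3, []⟩, ⟨4, 3, []⟩, ⟨64, 3, []⟩, ⟨128, 4, []⟩], [9, 9, 17, 6, 6], 2, [(70, 1), (134, 1), (208, 1), (214, 2)]⟩,
⟨2, [⟨16, 3, []⟩, ⟨32, 3, []⟩, ⟨2, 4, []⟩, ⟨4, 4, []⟩, ⟨64, 3, []⟩], [3, 3, 12, 16, 16], 2, [(54, 1), (70, 1), (112, 1), (118, 2)]⟩,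
⟨1, [⟨0, 0, [(68, 2)]⟩, ⟨2, 2, []⟩], [3, 3, 3], 1, [(70, 1)]⟩,
⟨2, [⟨1, 2, []⟩, ⟨4, 4, []⟩, ⟨16, 3, []⟩, ⟨32, 3, []⟩, ⟨64, 3, []⟩], [3, 17, 17, 12, 12], 2, [(52, 1), (69, 1), (112, 1), (117, 2)]⟩,
⟨2, [⟨32, 2, []⟩, ⟨80, 4, []⟩], [3, 1, 1], 1, [(48, 1), (96, 1)]⟩,
⟨2, [⟨72, 4, []⟩, ⟨16, 4, []⟩, ⟨32, 4, []⟩], [7], 1, [(56, 1), (112, 1)]⟩]

theorem base_ok : base.all (fun q => q.ok 8 3 [7, 56] [9, 2000, 2000, 2000] big4 [(0, 1, 0, 0), (0, 2, 0, 1), (0, 4, 0, 3), (0, 5, 0, 4), (0, 3, 0, 0)]) = true := by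
  decide +kernel

theorem gv_ok : gv.all (fun c => c.ok 2 3) = true := by decide +kernel

theorem gads_ok : gads.all (fun g => g.okV 8 3 [0, 0, 2]) = true := by decide +kernel

theorem cmp_ok : cmpR names cnf (clsu 3 base ++ (gv.map Gv.cl ++ gads.map Gt.cl)) = true := by
  decide +kernel

end DS25

theorem instl3_25 : instLS 2 3 [0, 0, 2] 9 3 [(0, 1, 0, 0), (0, 2, 0, 1), (0, 4, 0, 3), (0, 5, 0, 4), (0, 3, 0, 0)] DS25.base DS25.gv DS25.gads DS25.names DS25.cnf DS25.db DS25.prf = true :=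
  instLS_of DS25.base_ok DS25.gv_ok DS25.gads_ok (by decide +kernel) DS25.okc DS25.cmp_ok DS25.chk_ok

/-- there is no configuration of this instance. -/
theorem nol3_25 {V : Type v} [DecidableEq V] {ι : Type u} [Fintype ι] {B : ι → Finset V}
    {Q : Finset V} {x : ℕ → V} {C : ℕ → Finset V}
    (h : CfL B Q 2 3 x C [0, 0, 2] [] 9 3) : False :=
  h.absurd_srt rfl instl3_25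

end Pool.Agent.Hyp6
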