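import Pool.Agent.Hyp6.CfGb
import Pool.Agent.Hyp6.InsG.F00

/-!
# HYP6: leaf instance 0: n = 1, r = 2, bounds [0, 6], inner blocks []

527 base clauses, 22 given clauses, 388 gadgets, 1251 learned clauses.
-/

set_option autoImplicit false
set_option maxRecDepth 100000

namespace Pool.Agent.Hyp6

open Rup

universe u v

namespace DG00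

noncomputable def base : List Ru := [
.rs (.l2 0 9 72 3 1 1),
.rs (.slot 0 [(4, 1), (5, 1), (3, 2), (0, 3), (1, 1), (2, 1), (6, 1)]),
.rs (.part [72, 55] [0, 1] [] []),
.rs (.join 0 1 6 2 2 1 [(0, 1)]),
.rs (.mono 0 64 65 1),
.rs (.le 0 34 32 5 2),
.rs (.un 0 3),
.rs (.l2 1 24 40 3 2 1),
.rs (.slot 0 [(0, 1), (2, 1), (3, 3), (4, 3), (5, 2)]),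
.rs (.l2 1 3 5 0 1 2),
.degU 0 [(0, 2), (1, 3)],
.rs (.slot 0 [(0, 2), (1, 2), (2, 2), (4, 1), (3, 2), (6, 1)]),
.rs (.join 0 4 6 2 1 1 [(2, 0)]),
.rs (.join 1 1 1 2 1 1 [(0, 0)]),
.rs (.deg 6 [1, 3]),
.rs (.slot 0 [(1, 3), (3, 2), (4, 2), (5, 2), (6, 1)]),
.rs (.join 0 1 5 2 2 1 [(0, 1)]),
.rs (.join 1 1 2 3 1 2 [(0, 0)]),
.rs (.lipl 1 11 107 0 96),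
.rs (.join 0 2 4 2 1 2 [(1, 1)]),
.degU 1 [(0, 2), (1, 3)],
.rs (.part [3, 68] [0, 0] [56] []),
.rs (.slot 0 [(0, 3), (2, 1), (1, 3), (3, 1), (5, 1), (6, 1)]),
.rs (.slot 0 [(0, 1), (1, 1), (3, 2), (4, 4), (5, 2)]),
.rs (.join 1 2 2 4 3 2 [(1, 1)]),
.rs (.lipl 1 11 91 0 80),
.rs (.part [36, 91] [0, 1] [] []),
.rs (.slot 0 [(3, 1), (4, 1), (0, 3), (1, 3), (2, 2)]),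
.rs (.slot 0 [(4, 3), (5, 3), (0, 1), (2, 2), (6, 1)]),
.rs (.slot 0 [(4, 3), (1, 3), (2, 1), (0, 2), (6, 1)]),
.rs (.lipl 1 37 117 0 80),
.rs (.mono 0 8 24 1),
.rs (.part [64, 56] [0, 0] [7] []),
.rs (.slot 0 [(0, 2), (1, 2), (2, 2), (5, 1), (3, 2), (6, 1)]),
.rs (.join 0 1 5 2 3 0 [(0, 1)]),
.rs (.part [1, 70] [0, 0] [56] []),
.rs (.hall [0] [0, 1, 6]),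
.rs (.lipl 1 44 109 0 65),
.rs (.slot 0 [(3, 1), (5, 1), (0, 2), (1, 4), (2, 2)]),
.rs (.l2 0 72 80 6 1 1),
.rs (.deg 2 [0, 3]),
.rs (.deg 5 [2, 1]),
.rs (.l2 1 24 40 3 1 2),
.rs (.lipl 1 14 94 0 80),
.rs (.slot 0 [(0, 1), (1, 1), (2, 2), (5, 3), (3, 1), (4, 1), (6, 1)]),
.rs (.join 0 1 1 2 1 1 [(0, 0)]),
.rs (.hall [0] [4, 5, 6]),
.rs (.slot 0 [(5, 3), (2, 3), (0, 1), (1, 2), (6, 1)]),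
.rs (.part [68, 19] [0, 0] [40] []),
.rs (.slot 0 [(1, 1), (2, 1), (3, 3), (5, 3), (4, 2)]),
.rs (.slot 0 [(3, 3), (4, 1), (5, 3), (0, 1), (1, 1), (6, 1)]),
.rs (.deg 3 [1, 2]),
.degU 1 [(0, 5)],
.rs (.hall [0] [3, 4, 5]),
.rs (.slot 0 [(4, 3), (5, 3), (1, 1), (2, 2), (6, 1)]),
.rs (.join 0 4 4 2 0 2 [(2, 0)]),
.rs (.part [65, 38] [0, 0] [24] []),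
.rs (.mono 0 8 10 1),
.rs (.join 0 8 4 2 0 2 [(3, 0)]),
.rs (.part [72, 50] [0, 0] [5] []),
.rs (.ordE 0 32 1),
.rs (.slot 0 [(1, 1), (2, 1), (0, 2), (3, 3), (4, 1), (5, 1), (6, 1)]),
.rs (.ordE 0 2 1),
.rs (.lipl 1 49 115 0 66),
.rs (.ab2 0 66),
.rs (.le 0 80 64 6 2),
.rs (.join 0 8 6 2 2 0 [(3, 0)]),
.rs (.join 0 2 5 2 2 0 [(1, 0)]),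
.rs (.join 1 8 5 3 2 2 [(3, 1)]),
.rs (.ab 0 6),
.rs (.le 0 18 16 4 2),
.rs (.join 1 8 5 4 2 3 [(3, 1)]),
.rs (.le 0 48 32 5 1),
.rs (.slot 0 [(0, 1), (2, 1), (1, 2), (4, 3), (3, 1), (5, 1), (6, 1)]),
.rs (.slot 0 [(3, 2), (4, 2), (5, 2), (2, 1), (0, 2), (6, 1)]),
.rs (.slot 0 [(0, 3), (5, 3), (3, 1), (4, 2), (6, 1)]),
.rs (.le 0 80 64 6 1),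
.rs (.slot 0 [(3, 3), (4, 3), (0, 1), (2, 2), (6, 1)]),
.rs (.slot 0 [(2, 1), (4, 3), (3, 2), (5, 3), (6, 1)]),
.rs (.ordE 1 16 2),
.rs (.hall [0] [0, 2, 6]),
.rs (.slot 0 [(3, 2), (4, 2), (5, 2), (1, 1), (2, 2), (6, 1)]),
.rs (.ab 0 5),
.rs (.l2 0 3 9 0 1 1),
.rs (.deg 0 [3, 0]),
.rs (.slot 0 [(1, 3), (3, 3), (4, 1), (5, 2), (6, 1)]),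
.rs (.part [20, 107] [0, 1] [] []),
.rs (.part [12, 115] [0, 1] [] []),
.rs (.join 1 8 5 4 3 2 [(3, 1)]),
.rs (.le 0 72 64 6 1),
.rs (.l2 1 5 6 2 1 1),
.rs (.part [80, 41] [0, 0] [6] []),
.rs (.deg 4 [0, 3]),
.rs (.part [9, 54] [0, 0] [64] []),
.rs (.le 0 66 64 6 1),
.rs (.le 0 10 8 3 1),
.rs (.lipl 1 28 94 0 66),
.rs (.lipl 1 25 91 0 66),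
.rs (.deg 2 [3, 0]),
.rs (.ab 0 4),
.rs (.un 0 1),
.rs (.slot 0 [(3, 1), (4, 1), (0, 3), (2, 3), (1, 2)]),
.rs (.hall [0] [1, 2, 6]),
.rs (.slot 0 [(1, 3), (0, 1), (2, 3), (4, 1), (5, 1), (6, 1)]),
.rs (.slot 0 [(1, 1), (2, 1), (3, 2), (4, 4), (5, 2)]),
.rs (.lipl 1 22 94 0 72),
.rs (.deg 1 [3, 0]),
.rs (.mono 0 64 80 1),
.rs (.le 0 18 2 1 2),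
.rs (.slot 0 [(2, 3), (3, 2), (4, 2), (5, 2), (6, 1)]),
.rs (.join 0 2 3 2 1 1 [(1, 0)]),
.rs (.deg 6 [0, 4]),
.rs (.l2 0 66 68 6 1 1),
.rs (.slot 0 [(0, 3), (2, 1), (1, 3), (4, 1), (5, 1), (6, 1)]),
.rs (.ab2 0 40),
.rs (.ab2 0 24),
.rs (.slot 0 [(0, 1), (2, 1), (1, 2), (5, 3), (3, 1), (4, 1), (6, 1)]),
.rs (.join 0 16 5 2 0 2 [(4, 0)]),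
.rs (.part [18, 45] [0, 0] [64] []),
.rs (.part [10, 117] [0, 1] [] []),
.rs (.join 0 1 3 2 0 2 [(0, 0)]),
.rs (.slot 0 [(0, 1), (1, 1), (3, 3), (5, 3), (4, 2)]),
.rs (.ab2 0 80),
.rs (.le 0 40 8 3 1),
.rs (.slot 0 [(1, 1), (2, 1), (4, 2), (3, 4), (5, 2)]),
.rs (.join 0 8 6 2 1 1 [(3, 0)]),
.rs (.slot 0 [(4, 1), (5, 1), (1, 3), (2, 3), (0, 2)]),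
.rs (.slot 0 [(0, 1), (1, 1), (4, 3), (5, 3), (3, 2)]),
.rs (.mono 0 1 65 1),
.rs (.slot 0 [(0, 3), (1, 1), (2, 3), (3, 1), (4, 1), (6, 1)]),
.rs (.ab2 0 6),
.rs (.l2 0 66 72 6 1 1),
.rs (.slot 0 [(3, 1), (4, 1), (5, 2), (0, 3), (1, 1), (2, 1), (6, 1)]),
.rs (.lipl 1 49 117 0 68),
.rs (.join 0 1 5 2 1 2 [(0, 1)]),
.rs (.slot 0 [(4, 3), (2, 3), (1, 1), (0, 2), (6, 1)]),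
.rs (.deg 4 [1, 2]),
.rs (.part [3, 124] [0, 1] [] []),
.rs (.l2 0 65 80 6 1 1),
.rs (.part [65, 14] [0, 0] [48] []),
.rs (.join 0 1 5 2 2 0 [(0, 0)]),
.rs (.slot 0 [(1, 3), (2, 3), (5, 1), (3, 2), (6, 1)]),
.rs (.slot 0 [(0, 1), (2, 1), (3, 2), (4, 4), (5, 2)]),
.rs (.join 1 1 2 4 3 2 [(0, 1)]),
.rs (.deg 0 [0, 3]),
.rs (.l2 0 65 66 6 1 1),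
.rs (.part [2, 69] [0, 0] [56] []),
.rs (.mono 0 4 6 1),
.rs (.part [80, 42] [0, 0] [5] []),
.rs (.lipl 1 25 93 0 68),
.rs (.join 0 2 3 2 2 1 [(1, 1)]),
.rs (.part [34, 93] [0, 1] [] []),
.rs (.le 0 33 1 0 2),
.rs (.le 0 10 2 1 2),
.rs (.lipl 1 38 118 0 80),
.rs (.slot 0 [(3, 3), (5, 3), (0, 1), (2, 2), (6, 1)]),
.rs (.l2 1 5 68 2 1 1),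
.rs (.part [80, 44] [0, 0] [3] []),
.rs (.join 1 2 2 3 2 2 [(1, 1)]),
.rs (.slot 0 [(3, 3), (5, 3), (2, 1), (0, 2), (6, 1)]),
.rs (.ordE 1 1 2),
.rs (.le 0 20 16 4 2),
.rs (.l2 0 68 80 6 1 1),
.rs (.slot 0 [(1, 1), (4, 3), (3, 2), (5, 3), (6, 1)]),
.rs (.slot 0 [(0, 1), (1, 1), (3, 2), (5, 4), (4, 2)]),
.rs (.part [66, 37] [0, 0] [24] []),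
.rs (.join 0 4 4 2 2 1 [(2, 1)]),
.rs (.hall [0] [0, 1, 2]),
.rs (.part [68, 3] [0, 0] [56] []),
.rs (.slot 0 [(0, 3), (3, 2), (4, 2), (5, 2), (6, 1)]),
.rs (.mono 0 32 33 1),
.rs (.deg 2 [2, 1]),
.rs (.join 0 2 5 2 0 2 [(1, 0)]),
.rs (.deg 0 [1, 2]),
.rs (.part [20, 43] [0, 0] [64] []),
.degU 2 [(0, 5)],
.rs (.join 0 1 1 2 2 1 [(0, 1)]),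
.rs (.slot 0 [(1, 3), (2, 3), (3, 1), (5, 2), (6, 1)]),
.rs (.join 0 1 3 2 1 2 [(0, 1)]),
.rs (.slot 0 [(0, 1), (2, 1), (4, 3), (5, 3), (3, 2)]),
.rs (.part [10, 53] [0, 0] [64] []),
.rs (.mono 0 16 24 1),
.rs (.ordE 0 16 2),
.rs (.lipl 1 44 110 0 66),
.rs (.le 0 10 8 3 2),
.rs (.slot 0 [(4, 1), (5, 1), (1, 2), (0, 4), (2, 2)]),
.rs (.join 1 1 2 4 3 3 [(0, 2)]),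
.rs (.part [24, 103] [0, 1] [] []),
.rs (.join 1 8 4 3 2 2 [(3, 1)]),
.rs (.slot 0 [(4, 2), (5, 2), (1, 1), (0, 2), (2, 2), (6, 1)]),
.rs (.part [66, 5] [0, 0] [56] []),
.rs (.part [5, 122] [0, 1] [] []),
.rs (.slot 0 [(3, 3), (0, 3), (2, 1), (1, 2), (6, 1)]),
.rs (.slot 0 [(4, 1), (5, 1), (3, 2), (2, 3), (0, 1), (1, 1), (6, 1)]),
.rs (.join 0 16 5 2 1 1 [(4, 0)]),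
.rs (.part [96, 31] [0, 1] [] []),
.rs (.part [72, 49] [0, 0] [6] []),
.rs (.slot 0 [(3, 1), (5, 1), (0, 2), (2, 4), (1, 2)]),
.rs (.ab 0 1),
.rs (.slot 0 [(5, 3), (0, 3), (1, 1), (2, 2), (6, 1)]),
.rs (.part [48, 79] [0, 1] [] []),
.rs (.part [4, 67] [0, 0] [56] []),
.rs (.lipl 1 19 115 0 96),
.rs (.part [33, 30] [0, 0] [64] []),
.rs (.l2 1 5 6 2 1 2),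
.rs (.slot 0 [(4, 1), (5, 1), (0, 3), (1, 3), (2, 2)]),
.rs (.le 0 18 2 1 1),
.rs (.le 0 12 4 2 1),
.rs (.slot 0 [(4, 2), (2, 4), (0, 2), (1, 1), (6, 1)]),
.rs (.slot 0 [(4, 3), (5, 3), (1, 1), (0, 2), (6, 1)]),
.rs (.slot 0 [(5, 3), (4, 2), (3, 1), (0, 1), (1, 1), (2, 1), (6, 1)]),
.rs (.part [6, 65] [0, 0] [56] []),
.rs (.slot 0 [(1, 1), (2, 1), (3, 2), (5, 4), (4, 2)]),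
.rs (.join 0 8 4 2 2 0 [(3, 0)]),
.rs (.un 0 4),
.rs (.join 0 2 3 2 2 0 [(1, 0)]),
.degU 3 [(0, 5)],
.rs (.join 1 1 2 4 2 3 [(0, 1)]),
.rs (.part [17, 46] [0, 0] [64] []),
.rs (.ordE 0 32 2),
.rs (.join 1 1 1 3 2 1 [(0, 0)]),
.rs (.join 1 1 1 4 3 3 [(0, 2)]),
.rs (.slot 0 [(2, 3), (0, 2), (1, 1), (3, 1), (4, 1), (5, 1), (6, 1)]),
.rs (.l2 1 24 48 4 1 2),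
.rs (.mono 0 4 20 1),
.rs (.join 0 32 6 2 3 0 [(5, 1)]),
.rs (.join 0 8 5 2 1 1 [(3, 0)]),
.rs (.slot 0 [(3, 1), (5, 1), (1, 3), (2, 3), (0, 2)]),
.rs (.join 0 2 6 2 1 1 [(1, 0)]),
.rs (.slot 0 [(3, 1), (4, 1), (0, 2), (1, 4), (2, 2)]),
.rs (.part [80, 40] [0, 0] [7] []),
.rs (.deg 1 [0, 3]),
.rs (.slot 0 [(4, 2), (0, 4), (2, 2), (1, 1), (6, 1)]),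
.rs (.le 0 65 64 6 2),
.rs (.slot 0 [(1, 1), (2, 1), (4, 3), (5, 3), (3, 2)]),
.rs (.deg 2 [1, 2]),
.rs (.part [65, 62] [0, 1] [] []),
.rs (.join 0 4 3 2 2 0 [(2, 0)]),
.rs (.join 0 8 6 2 2 1 [(3, 1)]),
.rs (.ordE 1 2 2),
.rs (.le 0 5 1 0 1),
.rs (.lipl 1 22 118 0 96),
.rs (.join 0 1 4 2 1 1 [(0, 0)]),
.rs (.slot 0 [(0, 3), (1, 1), (2, 3), (4, 1), (5, 1), (6, 1)]),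
.rs (.part [96, 25] [0, 0] [6] []),
.rs (.slot 0 [(0, 3), (1, 1), (2, 3), (3, 1), (5, 1), (6, 1)]),
.rs (.mono 0 8 40 1),
.rs (.part [96, 26] [0, 0] [5] []),
.rs (.slot 0 [(4, 3), (5, 3), (0, 1), (1, 2), (6, 1)]),
.rs (.part [32, 88] [0, 0] [7] []),
.rs (.l2 0 17 65 0 1 1),
.rs (.mono 0 32 36 1),
.rs (.slot 0 [(1, 3), (0, 2), (2, 1), (3, 1), (4, 1), (5, 1), (6, 1)]),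
.rs (.mono 0 2 6 1),
.rs (.un 0 6),
.rs (.ab 0 0),
.rs (.join 1 1 2 2 1 1 [(0, 0)]),
.rs (.part [68, 11] [0, 0] [48] []),
.rs (.un 0 2),
.rs (.mono 0 1 3 1),
.rs (.part [48, 72] [0, 0] [7] []),
.rs (.slot 0 [(0, 3), (5, 3), (4, 1), (3, 2), (6, 1)]),
.rs (.l2 0 33 65 0 1 1),
.rs (.deg 1 [2, 1]),
.rs (.slot 0 [(3, 3), (5, 1), (4, 3), (1, 1), (2, 1), (6, 1)]),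
.rs (.mono 0 2 3 1),
.rs (.slot 0 [(4, 3), (3, 2), (5, 1), (0, 1), (1, 1), (2, 1), (6, 1)]),
.rs (.un 0 5),
.rs (.l2 0 65 68 6 1 1),
.rs (.le 0 68 64 6 2),
.rs (.part [80, 47] [0, 1] [] []),
.rs (.join 0 2 4 2 0 2 [(1, 0)]),
.rs (.mono 0 64 96 1),
.rs (.slot 0 [(3, 3), (5, 1), (4, 3), (0, 1), (1, 1), (6, 1)]),
.rs (.join 0 2 6 2 2 0 [(1, 0)]),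
.rs (.slot 0 [(0, 1), (2, 1), (1, 2), (3, 3), (4, 1), (5, 1), (6, 1)]),
.rs (.hall [0] [3, 5, 6]),
.rs (.join 1 16 5 3 2 2 [(4, 1)]),
.rs (.slot 0 [(3, 3), (1, 3), (0, 1), (2, 2), (6, 1)]),
.rs (.join 0 8 4 2 1 1 [(3, 0)]),
.rs (.join 0 2 4 2 2 0 [(1, 0)]),
.rs (.l2 0 65 72 6 1 1),
.rs (.l2 0 10 72 3 1 1),
.rs (.l2 0 5 68 2 1 1),
.rs (.mono 0 16 48 1),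
.rs (.join 1 1 1 3 2 2 [(0, 1)]),
.rs (.mono 0 32 96 1),
.rs (.slot 0 [(2, 3), (1, 2), (0, 1), (3, 1), (4, 1), (5, 1), (6, 1)]),
.rs (.deg 3 [3, 0]),
.rs (.slot 0 [(2, 3), (3, 3), (4, 1), (5, 2), (6, 1)]),
.rs (.ordE 1 1 1),
.rs (.l2 0 66 96 6 1 1),
.rs (.mono 0 64 68 1),
.rs (.part [9, 118] [0, 1] [] []),
.rs (.mono 0 4 5 1),
.rs (.mono 0 16 17 1),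
.rs (.slot 0 [(0, 1), (2, 1), (3, 2), (5, 4), (4, 2)]),
.degU 0 [(0, 5)],
.rs (.slot 0 [(0, 2), (1, 2), (2, 2), (3, 1), (4, 1), (5, 1), (6, 1)]),
.rs (.slot 0 [(3, 1), (5, 1), (4, 2), (2, 3), (0, 1), (1, 1), (6, 1)]),
.rs (.part [40, 87] [0, 1] [] []),
.rs (.ab 0 3),
.rs (.lipl 1 41 109 0 68),
.rs (.mono 0 16 20 1),
.rs (.lipl 1 19 91 0 72),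
.rs (.slot 0 [(0, 2), (1, 2), (2, 2), (3, 1), (5, 2), (6, 1)]),
.rs (.slot 0 [(4, 1), (5, 1), (0, 3), (2, 3), (1, 2)]),
.rs (.slot 0 [(3, 2), (4, 2), (2, 1), (0, 2), (1, 2), (6, 1)]),
.rs (.part [72, 48] [0, 0] [7] []),
.rs (.join 0 16 6 2 2 1 [(4, 1)]),
.rs (.slot 0 [(4, 3), (0, 2), (1, 2), (2, 2), (6, 1)]),
.rs (.join 0 1 3 2 1 1 [(0, 0)]),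
.rs (.join 0 4 5 2 0 2 [(2, 0)]),
.rs (.le 0 68 64 6 1),
.rs (.slot 0 [(3, 1), (4, 1), (1, 2), (0, 4), (2, 2)]),
.rs (.part [66, 61] [0, 1] [] []),
.rs (.slot 0 [(1, 3), (4, 3), (3, 1), (5, 2), (6, 1)]),
.rs (.join 0 2 5 2 2 1 [(1, 1)]),
.rs (.part [66, 21] [0, 0] [40] []),
.rs (.slot 0 [(0, 1), (1, 1), (3, 3), (4, 3), (5, 2)]),
.rs (.mono 0 1 33 1),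
.rs (.lipl 1 42 107 0 65),
.rs (.l2 0 66 80 6 1 1),
.rs (.l2 0 9 65 0 1 1),
.rs (.part [17, 110] [0, 1] [] []),
.rs (.join 0 1 2 2 0 2 [(0, 0)]),
.rs (.le 0 36 4 2 2),
.rs (.mono 0 16 80 1),
.rs (.slot 0 [(1, 3), (3, 3), (5, 1), (4, 2), (6, 1)]),
.rs (.ordE 0 8 1),
.rs (.join 0 4 4 2 1 2 [(2, 1)]),
.rs (.ab2 0 48),
.rs (.slot 0 [(3, 3), (4, 1), (5, 3), (1, 1), (2, 1), (6, 1)]),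
.rs (.slot 0 [(5, 3), (3, 2), (4, 1), (0, 1), (1, 1), (2, 1), (6, 1)]),
.rs (.join 0 1 2 2 1 1 [(0, 0)]),
.rs (.lipl 1 13 93 0 80),
.rs (.slot 0 [(5, 3), (1, 3), (2, 1), (0, 2), (6, 1)]),
.rs (.join 1 1 2 3 2 1 [(0, 0)]),
.rs (.ordE 1 4 2),
.rs (.slot 0 [(3, 2), (4, 2), (0, 1), (1, 2), (2, 2), (6, 1)]),
.rs (.lipl 1 52 118 0 66),
.rs (.join 0 1 6 2 1 1 [(0, 0)]),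
.rs (.join 0 16 6 2 1 1 [(4, 0)]),
.rs (.slot 0 [(1, 1), (2, 1), (0, 2), (4, 3), (3, 1), (5, 1), (6, 1)]),
.rs (.slot 0 [(5, 2), (1, 4), (0, 2), (2, 1), (6, 1)]),
.rs (.slot 0 [(3, 3), (0, 2), (1, 2), (2, 2), (6, 1)]),
.rs (.slot 0 [(3, 2), (4, 2), (5, 2), (0, 1), (2, 2), (6, 1)]),
.rs (.slot 0 [(5, 3), (0, 2), (1, 2), (2, 2), (6, 1)]),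
.rs (.slot 0 [(0, 1), (1, 1), (4, 2), (3, 4), (5, 2)]),
.rs (.join 0 2 4 2 2 1 [(1, 1)]),
.rs (.ab2 0 96),
.rs (.slot 0 [(0, 3), (1, 2), (2, 1), (3, 1), (4, 1), (5, 1), (6, 1)]),
.rs (.ordE 1 8 2),
.rs (.l2 0 68 72 6 1 1),
.rs (.lipl 1 42 110 0 68),
.rs (.slot 0 [(3, 2), (4, 2), (5, 2), (1, 1), (0, 2), (6, 1)]),
.rs (.mono 0 8 9 1),
.rs (.slot 0 [(0, 1), (2, 1), (4, 2), (3, 4), (5, 2)]),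
.rs (.part [72, 52] [0, 0] [3] []),
.rs (.slot 0 [(0, 1), (1, 1), (2, 2), (4, 3), (3, 1), (5, 1), (6, 1)]),
.rs (.join 0 32 6 2 2 1 [(5, 1)]),
.rs (.le 0 12 8 3 1),
.rs (.slot 0 [(0, 1), (3, 3), (5, 2), (4, 3), (6, 1)]),
.rs (.slot 0 [(3, 1), (4, 1), (1, 4), (0, 2), (2, 1), (6, 1)]),
.rs (.mono 0 1 5 1),
.rs (.lipl 1 52 117 0 65),
.rs (.join 0 1 5 2 1 1 [(0, 0)]),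
.rs (.le 0 18 16 4 1),
.rs (.slot 0 [(3, 3), (5, 2), (4, 1), (0, 1), (1, 1), (2, 1), (6, 1)]),
.rs (.slot 0 [(1, 1), (2, 1), (3, 3), (4, 3), (5, 2)]),
.rs (.slot 0 [(5, 3), (0, 3), (2, 1), (1, 2), (6, 1)]),
.rs (.slot 0 [(3, 1), (1, 3), (0, 2), (2, 3), (6, 1)]),
.rs (.slot 0 [(4, 3), (1, 3), (0, 1), (2, 2), (6, 1)]),
.rs (.deg 4 [3, 0]),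
.rs (.lipl 1 41 107 0 66),
.rs (.join 1 8 4 3 1 2 [(3, 0)]),
.rs (.l2 0 72 96 6 1 1),
.rs (.join 1 8 5 4 3 3 [(3, 2)]),
.rs (.join 0 2 3 2 1 2 [(1, 1)]),
.rs (.deg 1 [1, 2]),
.rs (.l2 0 80 96 6 1 1),
.rs (.join 0 4 3 2 2 1 [(2, 1)]),
.rs (.lipl 1 28 93 0 65),
.rs (.lipl 1 50 115 0 65),
.rs (.ab 0 2),
.rs (.lipl 1 50 118 0 68),
.rs (.part [68, 59] [0, 1] [] []),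
.rs (.join 0 16 6 2 2 0 [(4, 0)]),
.rs (.slot 0 [(3, 3), (0, 3), (1, 1), (2, 2), (6, 1)]),
.rs (.slot 0 [(3, 1), (5, 1), (0, 3), (2, 3), (1, 2)]),
.rs (.deg 5 [3, 0]),
.rs (.lipl 1 14 110 0 96),
.rs (.slot 0 [(3, 2), (5, 2), (1, 1), (0, 2), (2, 2), (6, 1)]),
.rs (.le 0 96 64 6 2),
.rs (.le 0 20 4 2 1),
.rs (.slot 0 [(4, 3), (5, 2), (3, 1), (0, 1), (1, 1), (2, 1), (6, 1)]),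
.rs (.join 1 2 2 4 1 3 [(1, 0)]),
.rs (.slot 0 [(0, 3), (3, 3), (4, 1), (5, 2), (6, 1)]),
.rs (.join 0 4 6 2 2 0 [(2, 0)]),
.rs (.join 0 4 3 2 0 2 [(2, 0)]),
.rs (.lipl 1 35 107 0 72),
.rs (.slot 0 [(0, 1), (2, 1), (3, 3), (5, 3), (4, 2)]),
.rs (.le 0 9 1 0 2),
.rs (.slot 0 [(2, 3), (4, 3), (5, 1), (3, 2), (6, 1)]),
.rs (.le 0 20 4 2 2),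
.rs (.slot 0 [(1, 3), (2, 2), (0, 1), (3, 1), (4, 1), (5, 1), (6, 1)]),
.rs (.part [34, 29] [0, 0] [64] []),
.rs (.join 1 1 2 3 2 2 [(0, 1)]),
.rs (.deg 0 [2, 1]),
.rs (.join 0 16 5 2 2 0 [(4, 0)]),
.rs (.slot 0 [(3, 3), (2, 3), (0, 1), (1, 2), (6, 1)]),
.rs (.lipl 1 37 109 0 72),
.rs (.part [65, 22] [0, 0] [40] []),
.rs (.le 0 36 4 2 1),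
.rs (.join 1 8 4 4 3 3 [(3, 2)]),
.rs (.mono 0 64 66 1),
.rs (.deg 5 [1, 2]),
.rs (.slot 0 [(3, 1), (4, 1), (5, 2), (2, 3), (0, 1), (1, 1), (6, 1)]),
.rs (.un 0 0),
.rs (.join 0 2 2 2 1 1 [(1, 0)]),
.rs (.slot 0 [(3, 1), (5, 1), (1, 2), (0, 4), (2, 2)]),
.rs (.slot 0 [(3, 2), (4, 2), (5, 2), (0, 1), (1, 2), (6, 1)]),
.rs (.deg 3 [0, 3]),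
.rs (.l2 1 3 5 0 2 1),
.rs (.part [66, 13] [0, 0] [48] []),
.rs (.le 0 34 2 1 1),
.rs (.ab2 0 3),
.rs (.slot 0 [(4, 3), (0, 3), (2, 1), (1, 2), (6, 1)]),
.degU 2 [(0, 2), (1, 3)],
.rs (.ab2 0 5),
.rs (.join 0 4 5 2 1 2 [(2, 1)]),
.rs (.slot 0 [(3, 1), (5, 1), (4, 2), (0, 3), (1, 1), (2, 1), (6, 1)]),
.rs (.lipl 1 35 115 0 80),
.rs (.join 1 2 2 4 3 3 [(1, 2)]),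
.rs (.le 0 9 1 0 1),
.rs (.mono 0 32 48 1),
.rs (.lipl 1 21 93 0 72),
.rs (.slot 0 [(3, 3), (4, 2), (5, 1), (0, 1), (1, 1), (2, 1), (6, 1)]),
.rs (.join 0 4 6 2 2 1 [(2, 1)]),
.rs (.le 0 48 16 4 1),
.rs (.slot 0 [(5, 1), (1, 3), (0, 2), (2, 3), (6, 1)]),
.rs (.ordE 0 4 1),
.rs (.slot 0 [(1, 3), (0, 1), (2, 3), (3, 1), (4, 1), (6, 1)]),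
.rs (.join 1 8 4 3 2 1 [(3, 0)]),
.rs (.l2 1 6 20 2 1 3),
.rs (.part [24, 96] [0, 0] [7] []),
.rs (.ordE 0 64 2),
.rs (.slot 0 [(4, 3), (5, 3), (2, 1), (1, 2), (6, 1)]),
.rs (.slot 0 [(4, 1), (5, 1), (0, 2), (1, 4), (2, 2)]),
.rs (.le 0 34 32 5 1),
.rs (.slot 0 [(3, 2), (4, 2), (5, 2), (2, 1), (1, 2), (6, 1)]),
.rs (.slot 0 [(4, 1), (5, 1), (3, 2), (1, 3), (0, 1), (2, 1), (6, 1)]),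
.rs (.le 0 3 2 1 2),
.rs (.join 1 4 4 4 3 3 [(2, 2)]),
.rs (.part [96, 28] [0, 0] [3] []),
.rs (.slot 0 [(3, 1), (4, 1), (1, 3), (2, 3), (0, 2)]),
.rs (.slot 0 [(3, 3), (4, 3), (2, 1), (0, 2), (6, 1)]),
.rs (.slot 0 [(1, 3), (4, 3), (5, 1), (3, 2), (6, 1)]),
.rs (.ab2 0 68),
.rs (.part [65, 6] [0, 0] [56] []),
.rs (.part [16, 104] [0, 0] [7] []),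
.rs (.slot 0 [(3, 1), (4, 1), (0, 2), (2, 4), (1, 2)]),
.degU 4 [(0, 5)],
.rs (.join 1 2 2 4 3 1 [(1, 0)]),
.rs (.lipl 1 13 109 0 96),
.rs (.join 1 8 5 3 2 1 [(3, 0)]),
.rs (.lipl 1 26 94 0 68),
.rs (.join 0 8 5 2 0 2 [(3, 0)]),
.rs (.mono 0 32 40 1),
.rs (.part [8, 112] [0, 0] [7] []),
.rs (.le 0 24 8 3 1),
.rs (.join 0 1 1 2 0 2 [(0, 0)]),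
.rs (.join 0 2 2 2 2 0 [(1, 0)]),
.rs (.slot 0 [(0, 2), (1, 2), (2, 2), (3, 1), (4, 2), (6, 1)]),
.rs (.slot 0 [(0, 2), (1, 2), (2, 2), (5, 1), (4, 2), (6, 1)]),
.rs (.le 0 34 2 1 2),
.rs (.part [36, 27] [0, 0] [64] []),
.rs (.slot 0 [(3, 1), (5, 1), (0, 3), (1, 3), (2, 2)]),
.rs (.lipl 1 21 117 0 96),
.rs (.part [96, 24] [0, 0] [7] []),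
.rs (.slot 0 [(3, 3), (1, 3), (2, 1), (0, 2), (6, 1)]),
.rs (.slot 0 [(2, 3), (5, 3), (3, 1), (4, 2), (6, 1)]),
.rs (.slot 0 [(4, 3), (5, 3), (2, 1), (0, 2), (6, 1)]),
.rs (.part [33, 94] [0, 1] [] []),
.rs (.slot 0 [(4, 1), (5, 1), (0, 2), (2, 4), (1, 2)]),
.rs (.le 0 72 64 6 2),
.rs (.le 0 12 8 3 2),
.rs (.part [6, 121] [0, 1] [] []),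
.rs (.slot 0 [(0, 3), (2, 1), (1, 3), (3, 1), (4, 1), (6, 1)]),
.rs (.le 0 33 32 5 1),
.degU 3 [(0, 2), (1, 3)],
.rs (.le 0 10 2 1 1),
.rs (.ordE 1 4 3),
.rs (.mono 0 4 36 1),
.rs (.le 0 6 4 2 1),
.degU 4 [(0, 2), (1, 3)],
.rs (.slot 0 [(4, 1), (1, 3), (0, 2), (2, 3), (6, 1)]),
.rs (.join 0 2 5 2 1 2 [(1, 1)]),
.rs (.slot 0 [(0, 2), (1, 2), (2, 2), (4, 1), (5, 2), (6, 1)]),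
.rs (.lipl 1 38 110 0 72),
.rs (.le 0 24 16 4 1),
.rs (.hall [0] [3, 4, 6]),
.rs (.deg 5 [0, 3]),
.rs (.slot 0 [(0, 3), (4, 3), (5, 1), (3, 2), (6, 1)]),
.rs (.join 0 32 6 2 1 1 [(5, 0)]),
.rs (.join 1 16 5 4 3 2 [(4, 1)]),
.rs (.slot 0 [(0, 3), (2, 2), (1, 1), (3, 1), (4, 1), (5, 1), (6, 1)]),
.rs (.mono 0 1 17 1),
.rs (.part [68, 35] [0, 0] [24] []),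
.rs (.join 1 4 6 5 1 4 [(2, 0)]),
.rs (.ordE 1 1 3),
.degU 5 [(0, 5)],
.rs (.join 1 16 5 4 3 3 [(4, 2)]),
.rs (.part [40, 80] [0, 0] [7] []),
.rs (.deg 6 [2, 2]),
.rs (.part [18, 109] [0, 1] [] []),
.rs (.deg 4 [2, 1]),
.rs (.part [64, 7] [0, 0] [56] []),
.rs (.ordE 0 16 1),
.rs (.join 0 2 3 2 0 2 [(1, 0)]),
.rs (.deg 3 [2, 1]),
.rs (.part [5, 66] [0, 0] [56] []),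
.rs (.slot 0 [(3, 2), (4, 2), (5, 2), (0, 1), (1, 1), (2, 1), (6, 1)]),
.rs (.lipl 1 26 91 0 65),
.rs (.slot 0 [(0, 1), (1, 1), (2, 2), (3, 3), (4, 1), (5, 1), (6, 1)]),
.rs (.le 0 33 32 5 2),
.rs (.part [12, 51] [0, 0] [64] [])]

noncomputable def gv : List Gv := [
.low [1, 0, 1, 0, 4, 1],
.low [1, 4, 0, 1, 1, 0],
.low [1, 1, 1, 0, 4, 0],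
.low [4, 0, 0, 1, 1, 1],
.cap6,
.low [1, 0, 1, 4, 0, 1],
.low [1, 1, 1, 4, 0, 0],
.low [1, 1, 0, 0, 1, 4],
.low [0, 4, 1, 0, 1, 1],
.low [4, 0, 1, 0, 1, 1],
.low [0, 0, 4, 1, 1, 1],
.low [1, 1, 1, 0, 0, 4],
.low [1, 1, 0, 1, 0, 4],
.low [0, 4, 0, 1, 1, 1],
.low [0, 4, 1, 1, 1, 0],
.low [1, 0, 1, 4, 1, 0],
.low [1, 0, 4, 1, 0, 1],
.low [4, 1, 0, 0, 1, 1],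
.low [1, 1, 1, 1, 1, 2],
.low [1, 1, 0, 1, 4, 0],
.low [1, 1, 1, 1, 2, 1],
.low [0, 1, 4, 1, 0, 1]]

noncomputable def gads : List Gt := [
⟨1, [⟨8, 2, []⟩, ⟨32, 2, []⟩, ⟨16, 3, []⟩, ⟨2, 3, []⟩, ⟨64, 4, []⟩], [7, 7, 9, 26], 2, [(24, 1), (66, 1), (112, 1), (122, 2)]⟩,
⟨1, [⟨1, 4, []⟩, ⟨2, 4, []⟩, ⟨16, 2, []⟩, ⟨32, 3, []⟩, ⟨64, 4, []⟩], [7, 12, 12, 16], 2, [(51, 1), (67, 1), (96, 1), (115, 2)]⟩,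
⟨1, [⟨32, 2, []⟩, ⟨8, 3, []⟩, ⟨1, 3, []⟩, ⟨4, 4, []⟩, ⟨64, 4, []⟩], [13, 3, 3, 20], 2, [(44, 1), (69, 1), (72, 1), (109, 2)]⟩,
⟨1, [⟨16, 2, []⟩, ⟨8, 3, []⟩, ⟨2, 3, []⟩, ⟨1, 4, []⟩, ⟨64, 4, []⟩], [13, 3, 3, 20], 2, [(25, 1), (67, 1), (72, 1), (91, 2)]⟩,
⟨0, [⟨48, 2, []⟩, ⟨72, 2, []⟩], [3, 3, 3], 1, [(24, 1), (40, 1), (80, 1), (96, 1)]⟩,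
⟨1, [⟨8, 3, []⟩, ⟨16, 3, []⟩, ⟨32, 3, []⟩, ⟨1, 3, []⟩, ⟨2, 3, []⟩], [7, 7, 24, 24], 2, [(3, 1), (56, 1), (59, 2)]⟩,
⟨1, [⟨16, 2, []⟩, ⟨8, 4, []⟩, ⟨32, 4, []⟩, ⟨4, 2, []⟩, ⟨64, 4, []⟩], [7, 9, 9, 24], 2, [(56, 1), (68, 1), (104, 1), (124, 2)]⟩,
⟨1, [⟨2, 3, []⟩, ⟨4, 3, []⟩, ⟨16, 3, []⟩, ⟨32, 3, []⟩, ⟨64, 5, []⟩], [3, 3, 12, 12], 2, [(70, 1), (112, 1), (118, 2)]⟩,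
⟨1, [⟨8, 4, []⟩, ⟨16, 4, []⟩, ⟨1, 2, []⟩, ⟨4, 3, []⟩, ⟨64, 4, []⟩], [7, 12, 12, 16], 2, [(29, 1), (68, 1), (88, 1), (93, 2)]⟩,
⟨1, [⟨1, 4, []⟩, ⟨2, 4, []⟩, ⟨16, 2, []⟩, ⟨8, 3, []⟩, ⟨64, 4, []⟩], [7, 12, 12, 16], 2, [(27, 1), (67, 1), (72, 1), (91, 2)]⟩,
⟨1, [⟨1, 3, []⟩, ⟨2, 3, []⟩, ⟨8, 3, []⟩, ⟨16, 3, []⟩, ⟨64, 5, []⟩], [3, 3, 12, 12], 2, [(67, 1), (88, 1), (91, 2)]⟩,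
⟨1, [⟨8, 2, []⟩, ⟨1, 3, []⟩, ⟨4, 4, []⟩, ⟨2, 3, []⟩, ⟨64, 4, []⟩], [3, 9, 17, 14], 2, [(7, 1), (69, 1), (70, 1), (72, 1), (79, 2)]⟩,
⟨1, [⟨20, 4, []⟩, ⟨64, 4, []⟩], [3], 1, [(68, 1), (80, 1)]⟩,
⟨1, [⟨8, 3, []⟩, ⟨32, 3, []⟩, ⟨0, 0, [(6, 3)]⟩, ⟨64, 3, []⟩], [3, 3, 4, 4, 8, 8], 2, [(46, 1), (70, 1), (104, 1), (110, 2)]⟩,
⟨1, [⟨32, 2, []⟩, ⟨8, 4, []⟩, ⟨16, 4, []⟩, ⟨2, 2, []⟩, ⟨64, 4, []⟩], [7, 9, 9, 24], 2, [(56, 1), (66, 1), (88, 1), (122, 2)]⟩,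
⟨1, [⟨8, 2, []⟩, ⟨16, 3, []⟩, ⟨4, 3, []⟩, ⟨2, 4, []⟩, ⟨64, 4, []⟩], [13, 3, 3, 20], 2, [(26, 1), (70, 1), (80, 1), (94, 2)]⟩,
⟨1, [⟨1, 3, []⟩, ⟨4, 3, []⟩, ⟨8, 3, []⟩, ⟨32, 3, []⟩, ⟨64, 3, []⟩], [3, 3, 28, 28], 2, [(5, 1), (104, 1), (109, 2)]⟩,
⟨0, [⟨2, 2, []⟩, ⟨68, 2, []⟩], [3, 3, 3], 1, [(6, 1), (66, 1)]⟩,
⟨0, [⟨16, 2, []⟩, ⟨10, 2, []⟩], [3, 3, 3], 1, [(18, 1), (24, 1)]⟩,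
⟨1, [⟨8, 3, []⟩, ⟨32, 3, []⟩, ⟨1, 3, []⟩, ⟨2, 4, []⟩, ⟨64, 4, []⟩], [3, 3, 12, 20], 2, [(42, 1), (67, 1), (104, 1), (107, 2)]⟩,
⟨1, [⟨8, 2, []⟩, ⟨32, 3, []⟩, ⟨4, 3, []⟩, ⟨2, 4, []⟩, ⟨64, 4, []⟩], [13, 3, 3, 20], 2, [(42, 1), (70, 1), (96, 1), (110, 2)]⟩,
⟨1, [⟨1, 3, []⟩, ⟨2, 3, []⟩, ⟨16, 3, []⟩, ⟨32, 3, []⟩, ⟨64, 5, []⟩], [3, 3, 12, 12], 2, [(67, 1), (112, 1), (115, 2)]⟩,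
⟨1, [⟨1, 3, []⟩, ⟨2, 3, []⟩, ⟨16, 3, []⟩, ⟨32, 4, []⟩, ⟨64, 4, []⟩], [3, 3, 12, 20], 2, [(35, 1), (67, 1), (112, 1), (115, 2)]⟩,
⟨1, [⟨1, 2, []⟩, ⟨2, 4, []⟩, ⟨4, 4, []⟩, ⟨32, 2, []⟩, ⟨64, 4, []⟩], [7, 9, 9, 24], 2, [(7, 1), (70, 1), (96, 1), (103, 2)]⟩,
⟨0, [⟨16, 2, []⟩, ⟨65, 2, []⟩], [3, 3, 3], 1, [(17, 1), (80, 1)]⟩,
⟨0, [⟨16, 2, []⟩, ⟨5, 2, []⟩], [3, 3, 3], 1, [(17, 1), (20, 1)]⟩,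
⟨1, [⟨1, 2, []⟩, ⟨2, 3, []⟩, ⟨16, 3, []⟩, ⟨32, 4, []⟩, ⟨64, 4, []⟩], [13, 3, 3, 20], 2, [(35, 1), (66, 1), (112, 1), (115, 2)]⟩,
⟨1, [⟨2, 2, []⟩, ⟨1, 3, []⟩, ⟨4, 2, []⟩, ⟨32, 3, []⟩, ⟨64, 4, []⟩], [7, 7, 13, 24], 2, [(7, 1), (65, 1), (96, 1), (103, 2)]⟩,
⟨0, [⟨6, 2, []⟩, ⟨65, 2, []⟩], [3, 3, 3], 1, [(3, 1), (5, 1), (66, 1), (68, 1)]⟩,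
⟨1, [⟨32, 2, []⟩, ⟨8, 3, []⟩, ⟨4, 3, []⟩, ⟨2, 4, []⟩, ⟨64, 4, []⟩], [13, 3, 3, 20], 2, [(42, 1), (70, 1), (72, 1), (110, 2)]⟩,
⟨0, [⟨3, 2, []⟩, ⟨68, 2, []⟩], [3, 3, 3], 1, [(5, 1), (6, 1), (65, 1), (66, 1)]⟩,
⟨1, [⟨8, 4, []⟩, ⟨16, 4, []⟩, ⟨4, 2, []⟩, ⟨1, 3, []⟩, ⟨64, 4, []⟩], [7, 12, 12, 16], 2, [(29, 1), (65, 1), (88, 1), (93, 2)]⟩,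
⟨1, [⟨24, 3, []⟩, ⟨64, 5, []⟩], [1, 1], 1, [(72, 1), (80, 1)]⟩,
⟨1, [⟨2, 2, []⟩, ⟨8, 3, []⟩, ⟨32, 4, []⟩, ⟨16, 3, []⟩, ⟨64, 4, []⟩], [3, 9, 17, 14], 2, [(56, 1), (66, 1), (104, 1), (112, 1), (122, 2)]⟩,
⟨1, [⟨1, 3, []⟩, ⟨4, 3, []⟩, ⟨8, 3, []⟩, ⟨16, 3, []⟩, ⟨64, 3, []⟩], [3, 3, 28, 28], 2, [(5, 1), (88, 1), (93, 2)]⟩,
⟨1, [⟨8, 3, []⟩, ⟨16, 3, []⟩, ⟨4, 3, []⟩, ⟨2, 4, []⟩, ⟨64, 4, []⟩], [3, 3, 12, 20], 2, [(26, 1), (70, 1), (88, 1), (94, 2)]⟩,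
⟨1, [⟨16, 4, []⟩, ⟨32, 4, []⟩, ⟨2, 2, []⟩, ⟨1, 3, []⟩, ⟨64, 4, []⟩], [7, 12, 12, 16], 2, [(51, 1), (65, 1), (112, 1), (115, 2)]⟩,
⟨1, [⟨2, 4, []⟩, ⟨4, 4, []⟩, ⟨8, 4, []⟩, ⟨16, 4, []⟩, ⟨64, 3, []⟩], [3, 12, 16, 16], 2, [(30, 1), (70, 1), (88, 1), (94, 2)]⟩,
⟨1, [⟨8, 2, []⟩, ⟨16, 3, []⟩, ⟨32, 2, []⟩, ⟨2, 3, []⟩, ⟨64, 4, []⟩], [7, 7, 13, 24], 2, [(56, 1), (66, 1), (80, 1), (122, 2)]⟩,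
⟨1, [⟨16, 3, []⟩, ⟨32, 3, []⟩, ⟨4, 3, []⟩, ⟨1, 2, []⟩, ⟨64, 4, []⟩], [11, 11, 12, 20], 2, [(49, 1), (68, 1), (112, 1), (117, 2)]⟩,
⟨1, [⟨1, 3, []⟩, ⟨4, 3, []⟩, ⟨16, 3, []⟩, ⟨8, 2, []⟩, ⟨64, 4, []⟩], [11, 11, 12, 20], 2, [(13, 1), (69, 1), (80, 1), (93, 2)]⟩,
⟨1, [⟨16, 2, []⟩, ⟨8, 3, []⟩, ⟨1, 3, []⟩, ⟨2, 4, []⟩, ⟨64, 4, []⟩], [13, 3, 3, 20], 2, [(26, 1), (67, 1), (72, 1), (91, 2)]⟩,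
⟨1, [⟨16, 2, []⟩, ⟨32, 2, []⟩, ⟨8, 3, []⟩, ⟨4, 3, []⟩, ⟨64, 4, []⟩], [7, 7, 9, 26], 2, [(24, 1), (68, 1), (104, 1), (124, 2)]⟩,
⟨1, [⟨2, 2, []⟩, ⟨4, 3, []⟩, ⟨8, 3, []⟩, ⟨16, 4, []⟩, ⟨64, 4, []⟩], [13, 3, 3, 20], 2, [(22, 1), (68, 1), (88, 1), (94, 2)]⟩,
⟨1, [⟨32, 2, []⟩, ⟨1, 3, []⟩, ⟨2, 4, []⟩, ⟨4, 3, []⟩, ⟨64, 4, []⟩], [3, 9, 17, 14], 2, [(7, 1), (67, 1), (70, 1), (96, 1), (103, 2)]⟩,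
⟨1, [⟨1, 3, []⟩, ⟨4, 3, []⟩, ⟨16, 3, []⟩, ⟨32, 2, []⟩, ⟨64, 4, []⟩], [11, 11, 12, 20], 2, [(37, 1), (69, 1), (80, 1), (117, 2)]⟩,
⟨1, [⟨2, 2, []⟩, ⟨1, 3, []⟩, ⟨16, 3, []⟩, ⟨8, 4, []⟩, ⟨64, 4, []⟩], [13, 3, 3, 20], 2, [(11, 1), (65, 1), (88, 1), (91, 2)]⟩,
⟨0, [⟨16, 2, []⟩, ⟨72, 2, []⟩], [3, 3, 3], 1, [(24, 1), (80, 1)]⟩,
⟨0, [⟨4, 2, []⟩, ⟨66, 2, []⟩], [3, 3, 3], 1, [(6, 1), (68, 1)]⟩,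
⟨1, [⟨8, 3, []⟩, ⟨32, 3, []⟩, ⟨1, 3, []⟩, ⟨4, 2, []⟩, ⟨64, 4, []⟩], [11, 11, 12, 20], 2, [(44, 1), (65, 1), (104, 1), (109, 2)]⟩,
⟨1, [⟨1, 4, []⟩, ⟨64, 4, []⟩], [3], 1, [(65, 1)]⟩,
⟨1, [⟨1, 3, []⟩, ⟨4, 3, []⟩, ⟨8, 3, []⟩, ⟨32, 3, []⟩, ⟨64, 3, []⟩], [19, 19, 12, 12], 2, [(40, 1), (69, 1), (109, 2)]⟩,
⟨0, [⟨32, 2, []⟩, ⟨65, 2, []⟩], [3, 3, 3], 1, [(33, 1), (96, 1)]⟩,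
⟨1, [⟨4, 2, []⟩, ⟨16, 3, []⟩, ⟨8, 4, []⟩, ⟨32, 3, []⟩, ⟨64, 4, []⟩], [3, 9, 17, 14], 2, [(56, 1), (68, 1), (88, 1), (104, 1), (124, 2)]⟩,
⟨1, [⟨8, 2, []⟩, ⟨32, 3, []⟩, ⟨16, 2, []⟩, ⟨1, 3, []⟩, ⟨64, 4, []⟩], [7, 7, 13, 24], 2, [(56, 1), (65, 1), (96, 1), (121, 2)]⟩,
⟨1, [⟨2, 3, []⟩, ⟨4, 3, []⟩, ⟨16, 3, []⟩, ⟨8, 2, []⟩, ⟨64, 4, []⟩], [11, 11, 12, 20], 2, [(14, 1), (70, 1), (80, 1), (94, 2)]⟩,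
⟨1, [⟨4, 3, []⟩, ⟨1, 2, []⟩, ⟨8, 3, []⟩, ⟨16, 3, []⟩, ⟨64, 4, []⟩], [3, 3, 14, 28], 2, [(5, 1), (68, 1), (88, 1), (93, 2)]⟩,
⟨1, [⟨2, 3, []⟩, ⟨4, 3, []⟩, ⟨8, 3, []⟩, ⟨32, 2, []⟩, ⟨64, 4, []⟩], [11, 11, 12, 20], 2, [(38, 1), (70, 1), (72, 1), (110, 2)]⟩,
⟨0, [⟨8, 2, []⟩, ⟨16, 2, []⟩], [3, 3, 3], 1, [(24, 1)]⟩,
⟨1, [⟨1, 3, []⟩, ⟨2, 3, []⟩, ⟨8, 3, []⟩, ⟨16, 3, []⟩, ⟨64, 3, []⟩], [3, 3, 28, 28], 2, [(3, 1), (88, 1), (91, 2)]⟩,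
⟨1, [⟨1, 2, []⟩, ⟨4, 3, []⟩, ⟨2, 2, []⟩, ⟨32, 3, []⟩, ⟨64, 4, []⟩], [7, 7, 13, 24], 2, [(7, 1), (68, 1), (96, 1), (103, 2)]⟩,
⟨1, [⟨8, 2, []⟩, ⟨16, 2, []⟩, ⟨32, 3, []⟩, ⟨1, 3, []⟩, ⟨64, 4, []⟩], [7, 7, 9, 26], 2, [(40, 1), (65, 1), (112, 1), (121, 2)]⟩,
⟨0, [⟨8, 2, []⟩, ⟨17, 2, []⟩], [3, 3, 3], 1, [(9, 1), (24, 1)]⟩,
⟨0, [⟨2, 2, []⟩, ⟨4, 2, []⟩], [3, 3, 3], 1, [(6, 1)]⟩,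
⟨1, [⟨1, 3, []⟩, ⟨4, 3, []⟩, ⟨32, 3, []⟩, ⟨16, 4, []⟩, ⟨64, 4, []⟩], [3, 3, 12, 20], 2, [(21, 1), (69, 1), (112, 1), (117, 2)]⟩,
⟨1, [⟨1, 4, []⟩, ⟨2, 4, []⟩, ⟨8, 4, []⟩, ⟨16, 4, []⟩, ⟨64, 3, []⟩], [3, 12, 16, 16], 2, [(27, 1), (67, 1), (88, 1), (91, 2)]⟩,
⟨1, [⟨1, 3, []⟩, ⟨4, 3, []⟩, ⟨8, 3, []⟩, ⟨16, 4, []⟩, ⟨64, 4, []⟩], [3, 3, 12, 20], 2, [(21, 1), (69, 1), (88, 1), (93, 2)]⟩,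
⟨1, [⟨1, 3, []⟩, ⟨2, 3, []⟩, ⟨32, 3, []⟩, ⟨16, 2, []⟩, ⟨64, 4, []⟩], [11, 11, 12, 20], 2, [(19, 1), (67, 1), (96, 1), (115, 2)]⟩,
⟨1, [⟨16, 3, []⟩, ⟨32, 3, []⟩, ⟨1, 2, []⟩, ⟨0, 0, [(6, 2)]⟩], [3, 3, 12, 12, 12], 2, [(7, 1), (48, 1), (55, 2)]⟩,
⟨1, [⟨16, 2, []⟩, ⟨32, 3, []⟩, ⟨4, 3, []⟩, ⟨1, 4, []⟩, ⟨64, 4, []⟩], [13, 3, 3, 20], 2, [(49, 1), (69, 1), (96, 1), (117, 2)]⟩,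
⟨0, [⟨16, 2, []⟩, ⟨68, 2, []⟩], [3, 3, 3], 1, [(20, 1), (80, 1)]⟩,
⟨1, [⟨4, 2, []⟩, ⟨2, 3, []⟩, ⟨32, 3, []⟩, ⟨8, 4, []⟩, ⟨64, 4, []⟩], [13, 3, 3, 20], 2, [(14, 1), (66, 1), (104, 1), (110, 2)]⟩,
⟨1, [⟨2, 3, []⟩, ⟨4, 3, []⟩, ⟨8, 2, []⟩, ⟨0, 0, [(48, 2)]⟩], [3, 3, 12, 12, 12], 2, [(6, 1), (56, 1), (62, 2)]⟩,
⟨1, [⟨1, 3, []⟩, ⟨2, 3, []⟩, ⟨8, 3, []⟩, ⟨16, 3, []⟩, ⟨64, 3, []⟩], [19, 19, 12, 12], 2, [(24, 1), (67, 1), (91, 2)]⟩,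
⟨1, [⟨0, 0, [(5, 2)]⟩, ⟨16, 3, []⟩, ⟨8, 4, []⟩, ⟨64, 4, []⟩], [1, 1, 1, 6, 10], 2, [(13, 1), (69, 1), (88, 1), (93, 2)]⟩,
⟨1, [⟨2, 2, []⟩, ⟨1, 4, []⟩, ⟨4, 4, []⟩, ⟨32, 2, []⟩, ⟨64, 4, []⟩], [7, 9, 9, 24], 2, [(7, 1), (69, 1), (96, 1), (103, 2)]⟩,
⟨1, [⟨1, 2, []⟩, ⟨2, 3, []⟩, ⟨8, 3, []⟩, ⟨16, 4, []⟩, ⟨64, 4, []⟩], [13, 3, 3, 20], 2, [(19, 1), (66, 1), (88, 1), (91, 2)]⟩,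
⟨1, [⟨16, 2, []⟩, ⟨32, 3, []⟩, ⟨4, 3, []⟩, ⟨2, 4, []⟩, ⟨64, 4, []⟩], [13, 3, 3, 20], 2, [(50, 1), (70, 1), (96, 1), (118, 2)]⟩,
⟨1, [⟨4, 2, []⟩, ⟨2, 3, []⟩, ⟨8, 3, []⟩, ⟨32, 4, []⟩, ⟨64, 4, []⟩], [13, 3, 3, 20], 2, [(38, 1), (66, 1), (104, 1), (110, 2)]⟩,
⟨1, [⟨1, 3, []⟩, ⟨2, 3, []⟩, ⟨16, 3, []⟩, ⟨32, 2, []⟩, ⟨64, 4, []⟩], [11, 11, 12, 20], 2, [(35, 1), (67, 1), (80, 1), (115, 2)]⟩,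
⟨1, [⟨2, 3, []⟩, ⟨4, 3, []⟩, ⟨8, 3, []⟩, ⟨16, 3, []⟩, ⟨64, 3, []⟩], [3, 3, 28, 28], 2, [(6, 1), (88, 1), (94, 2)]⟩,
⟨1, [⟨6, 4, []⟩, ⟨64, 4, []⟩], [3], 1, [(66, 1), (68, 1)]⟩,
⟨0, [⟨4, 2, []⟩, ⟨80, 2, []⟩], [3, 3, 3], 1, [(20, 1), (68, 1)]⟩,
⟨1, [⟨2, 3, []⟩, ⟨4, 3, []⟩, ⟨8, 3, []⟩, ⟨16, 3, []⟩, ⟨64, 3, []⟩], [19, 19, 12, 12], 2, [(24, 1), (70, 1), (94, 2)]⟩,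
⟨0, [⟨1, 2, []⟩, ⟨96, 2, []⟩], [3, 3, 3], 1, [(33, 1), (65, 1)]⟩,
⟨0, [⟨32, 2, []⟩, ⟨18, 2, []⟩], [3, 3, 3], 1, [(34, 1), (48, 1)]⟩,
⟨1, [⟨1, 3, []⟩, ⟨4, 3, []⟩, ⟨8, 3, []⟩, ⟨16, 2, []⟩, ⟨64, 4, []⟩], [11, 11, 12, 20], 2, [(21, 1), (69, 1), (72, 1), (93, 2)]⟩,
⟨0, [⟨1, 2, []⟩, ⟨48, 2, []⟩], [3, 3, 3], 1, [(17, 1), (33, 1)]⟩,
⟨0, [⟨1, 2, []⟩, ⟨68, 2, []⟩], [3, 3, 3], 1, [(5, 1), (65, 1)]⟩,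
⟨1, [⟨8, 4, []⟩, ⟨32, 4, []⟩, ⟨1, 2, []⟩, ⟨4, 3, []⟩, ⟨64, 4, []⟩], [7, 12, 12, 16], 2, [(45, 1), (68, 1), (104, 1), (109, 2)]⟩,
⟨1, [⟨2, 2, []⟩, ⟨4, 2, []⟩, ⟨1, 3, []⟩, ⟨16, 3, []⟩, ⟨64, 4, []⟩], [7, 7, 9, 26], 2, [(3, 1), (69, 1), (80, 1), (87, 2)]⟩,
⟨1, [⟨1, 2, []⟩, ⟨2, 2, []⟩, ⟨4, 3, []⟩, ⟨16, 3, []⟩, ⟨64, 4, []⟩], [7, 7, 9, 26], 2, [(5, 1), (70, 1), (80, 1), (87, 2)]⟩,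
⟨0, [⟨2, 2, []⟩, ⟨9, 2, []⟩], [3, 3, 3], 1, [(3, 1), (10, 1)]⟩,
⟨1, [⟨48, 3, []⟩, ⟨64, 5, []⟩], [1, 1], 1, [(80, 1), (96, 1)]⟩,
⟨0, [⟨1, 2, []⟩, ⟨20, 2, []⟩], [3, 3, 3], 1, [(5, 1), (17, 1)]⟩,
⟨1, [⟨32, 2, []⟩, ⟨16, 3, []⟩, ⟨2, 3, []⟩, ⟨1, 4, []⟩, ⟨64, 4, []⟩], [13, 3, 3, 20], 2, [(49, 1), (67, 1), (80, 1), (115, 2)]⟩,
⟨1, [⟨2, 4, []⟩, ⟨4, 4, []⟩, ⟨16, 4, []⟩, ⟨32, 4, []⟩, ⟨64, 3, []⟩], [3, 12, 16, 16], 2, [(54, 1), (70, 1), (112, 1), (118, 2)]⟩,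
⟨1, [⟨16, 2, []⟩, ⟨32, 2, []⟩, ⟨8, 3, []⟩, ⟨2, 3, []⟩, ⟨64, 4, []⟩], [7, 7, 9, 26], 2, [(24, 1), (66, 1), (104, 1), (122, 2)]⟩,
⟨1, [⟨2, 3, []⟩, ⟨4, 3, []⟩, ⟨16, 3, []⟩, ⟨32, 2, []⟩, ⟨64, 4, []⟩], [11, 11, 12, 20], 2, [(38, 1), (70, 1), (80, 1), (118, 2)]⟩,
⟨1, [⟨1, 3, []⟩, ⟨2, 3, []⟩, ⟨16, 3, []⟩, ⟨8, 2, []⟩, ⟨64, 4, []⟩], [11, 11, 12, 20], 2, [(11, 1), (67, 1), (80, 1), (91, 2)]⟩,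
⟨1, [⟨8, 4, []⟩, ⟨16, 4, []⟩, ⟨4, 2, []⟩, ⟨2, 3, []⟩, ⟨64, 4, []⟩], [7, 12, 12, 16], 2, [(30, 1), (66, 1), (88, 1), (94, 2)]⟩,
⟨0, [⟨2, 2, []⟩, ⟨65, 2, []⟩], [3, 3, 3], 1, [(3, 1), (66, 1)]⟩,
⟨1, [⟨2, 4, []⟩, ⟨4, 4, []⟩, ⟨8, 2, []⟩, ⟨16, 3, []⟩, ⟨64, 4, []⟩], [7, 12, 12, 16], 2, [(30, 1), (70, 1), (80, 1), (94, 2)]⟩,
⟨0, [⟨1, 2, []⟩, ⟨4, 2, []⟩], [3, 3, 3], 1, [(5, 1)]⟩,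
⟨1, [⟨6, 3, []⟩, ⟨64, 5, []⟩], [1, 1], 1, [(66, 1), (68, 1)]⟩,
⟨1, [⟨2, 4, []⟩, ⟨4, 4, []⟩, ⟨16, 2, []⟩, ⟨8, 3, []⟩, ⟨64, 4, []⟩], [7, 12, 12, 16], 2, [(30, 1), (70, 1), (72, 1), (94, 2)]⟩,
⟨0, [⟨4, 2, []⟩, ⟨34, 2, []⟩], [3, 3, 3], 1, [(6, 1), (36, 1)]⟩,
⟨1, [⟨16, 3, []⟩, ⟨32, 3, []⟩, ⟨1, 3, []⟩, ⟨2, 4, []⟩, ⟨64, 4, []⟩], [3, 3, 12, 20], 2, [(50, 1), (67, 1), (112, 1), (115, 2)]⟩,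
⟨1, [⟨8, 2, []⟩, ⟨32, 3, []⟩, ⟨2, 3, []⟩, ⟨1, 4, []⟩, ⟨64, 4, []⟩], [13, 3, 3, 20], 2, [(41, 1), (67, 1), (96, 1), (107, 2)]⟩,
⟨1, [⟨8, 3, []⟩, ⟨32, 3, []⟩, ⟨1, 3, []⟩, ⟨2, 2, []⟩, ⟨64, 4, []⟩], [11, 11, 12, 20], 2, [(42, 1), (65, 1), (104, 1), (107, 2)]⟩,
⟨1, [⟨16, 3, []⟩, ⟨32, 3, []⟩, ⟨2, 2, []⟩, ⟨0, 0, [(5, 2)]⟩], [3, 3, 12, 12, 12], 2, [(7, 1), (48, 1), (55, 2)]⟩,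
⟨0, [⟨3, 2, []⟩, ⟨4, 2, []⟩], [3, 3, 3], 1, [(5, 1), (6, 1)]⟩,
⟨1, [⟨2, 2, []⟩, ⟨4, 3, []⟩, ⟨16, 3, []⟩, ⟨32, 4, []⟩, ⟨64, 4, []⟩], [13, 3, 3, 20], 2, [(38, 1), (68, 1), (112, 1), (118, 2)]⟩,
⟨1, [⟨4, 2, []⟩, ⟨1, 4, []⟩, ⟨2, 4, []⟩, ⟨32, 2, []⟩, ⟨64, 4, []⟩], [7, 9, 9, 24], 2, [(7, 1), (67, 1), (96, 1), (103, 2)]⟩,
⟨0, [⟨4, 2, []⟩, ⟨33, 2, []⟩], [3, 3, 3], 1, [(5, 1), (36, 1)]⟩,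
⟨1, [⟨2, 4, []⟩, ⟨64, 4, []⟩], [3], 1, [(66, 1)]⟩,
⟨1, [⟨1, 2, []⟩, ⟨4, 3, []⟩, ⟨2, 2, []⟩, ⟨16, 3, []⟩, ⟨64, 4, []⟩], [7, 7, 13, 24], 2, [(7, 1), (68, 1), (80, 1), (87, 2)]⟩,
⟨1, [⟨16, 4, []⟩, ⟨32, 4, []⟩, ⟨1, 2, []⟩, ⟨2, 3, []⟩, ⟨64, 4, []⟩], [7, 12, 12, 16], 2, [(51, 1), (66, 1), (112, 1), (115, 2)]⟩,
⟨0, [⟨8, 2, []⟩, ⟨66, 2, []⟩], [3, 3, 3], 1, [(10, 1), (72, 1)]⟩,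
⟨1, [⟨16, 2, []⟩, ⟨32, 3, []⟩, ⟨1, 3, []⟩, ⟨2, 4, []⟩, ⟨64, 4, []⟩], [13, 3, 3, 20], 2, [(50, 1), (67, 1), (96, 1), (115, 2)]⟩,
⟨0, [⟨8, 2, []⟩, ⟨6, 2, []⟩], [3, 3, 3], 1, [(10, 1), (12, 1)]⟩,
⟨1, [⟨16, 3, []⟩, ⟨32, 3, []⟩, ⟨1, 3, []⟩, ⟨2, 2, []⟩, ⟨64, 4, []⟩], [11, 11, 12, 20], 2, [(50, 1), (65, 1), (112, 1), (115, 2)]⟩,
⟨1, [⟨1, 2, []⟩, ⟨4, 2, []⟩, ⟨2, 3, []⟩, ⟨8, 3, []⟩, ⟨64, 4, []⟩], [7, 7, 9, 26], 2, [(3, 1), (70, 1), (72, 1), (79, 2)]⟩,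
⟨1, [⟨1, 3, []⟩, ⟨2, 3, []⟩, ⟨32, 3, []⟩, ⟨8, 2, []⟩, ⟨64, 4, []⟩], [11, 11, 12, 20], 2, [(11, 1), (67, 1), (96, 1), (107, 2)]⟩,
⟨0, [⟨8, 2, []⟩, ⟨20, 2, []⟩], [3, 3, 3], 1, [(12, 1), (24, 1)]⟩,
⟨1, [⟨1, 2, []⟩, ⟨16, 3, []⟩, ⟨8, 4, []⟩, ⟨32, 3, []⟩, ⟨64, 4, []⟩], [3, 9, 17, 14], 2, [(56, 1), (65, 1), (88, 1), (104, 1), (121, 2)]⟩,
⟨0, [⟨2, 2, []⟩, ⟨80, 2, []⟩], [3, 3, 3], 1, [(18, 1), (66, 1)]⟩,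
⟨0, [⟨4, 2, []⟩, ⟨9, 2, []⟩], [3, 3, 3], 1, [(5, 1), (12, 1)]⟩,
⟨0, [⟨2, 2, []⟩, ⟨24, 2, []⟩], [3, 3, 3], 1, [(10, 1), (18, 1)]⟩,
⟨1, [⟨16, 3, []⟩, ⟨32, 3, []⟩, ⟨2, 3, []⟩, ⟨4, 2, []⟩, ⟨64, 4, []⟩], [11, 11, 12, 20], 2, [(52, 1), (66, 1), (112, 1), (118, 2)]⟩,
⟨0, [⟨8, 2, []⟩, ⟨96, 2, []⟩], [3, 3, 3], 1, [(40, 1), (72, 1)]⟩,
⟨0, [⟨1, 2, []⟩, ⟨2, 2, []⟩], [3, 3, 3], 1, [(3, 1)]⟩,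
⟨1, [⟨3, 2, []⟩, ⟨4, 3, []⟩, ⟨8, 3, []⟩, ⟨32, 4, []⟩, ⟨64, 4, []⟩], [13, 3, 3, 20], 2, [(37, 1), (38, 1), (68, 1), (104, 1), (109, 2), (110, 2)]⟩,
⟨0, [⟨4, 2, []⟩, ⟨18, 2, []⟩], [3, 3, 3], 1, [(6, 1), (20, 1)]⟩,
⟨1, [⟨1, 4, []⟩, ⟨4, 4, []⟩, ⟨16, 4, []⟩, ⟨32, 4, []⟩, ⟨64, 3, []⟩], [3, 12, 16, 16], 2, [(53, 1), (69, 1), (112, 1), (117, 2)]⟩,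
⟨1, [⟨16, 4, []⟩, ⟨32, 4, []⟩], [3], 1, [(48, 1)]⟩,
⟨1, [⟨1, 3, []⟩, ⟨2, 3, []⟩, ⟨16, 3, []⟩, ⟨32, 3, []⟩, ⟨64, 3, []⟩], [19, 19, 12, 12], 2, [(48, 1), (67, 1), (115, 2)]⟩,
⟨1, [⟨8, 3, []⟩, ⟨16, 3, []⟩, ⟨4, 3, []⟩, ⟨1, 2, []⟩, ⟨64, 4, []⟩], [11, 11, 12, 20], 2, [(25, 1), (68, 1), (88, 1), (93, 2)]⟩,
⟨0, [⟨16, 2, []⟩, ⟨33, 2, []⟩], [3, 3, 3], 1, [(17, 1), (48, 1)]⟩,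
⟨1, [⟨1, 2, []⟩, ⟨4, 2, []⟩, ⟨2, 3, []⟩, ⟨32, 3, []⟩, ⟨64, 4, []⟩], [7, 7, 9, 26], 2, [(3, 1), (70, 1), (96, 1), (103, 2)]⟩,
⟨1, [⟨2, 3, []⟩, ⟨4, 3, []⟩, ⟨16, 3, []⟩, ⟨32, 4, []⟩, ⟨64, 4, []⟩], [3, 3, 12, 20], 2, [(38, 1), (70, 1), (112, 1), (118, 2)]⟩,
⟨1, [⟨1, 4, []⟩, ⟨2, 4, []⟩, ⟨8, 2, []⟩, ⟨16, 3, []⟩, ⟨64, 4, []⟩], [7, 12, 12, 16], 2, [(27, 1), (67, 1), (80, 1), (91, 2)]⟩,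
⟨1, [⟨8, 2, []⟩, ⟨2, 3, []⟩, ⟨1, 4, []⟩, ⟨4, 3, []⟩, ⟨64, 4, []⟩], [3, 9, 17, 14], 2, [(7, 1), (67, 1), (69, 1), (72, 1), (79, 2)]⟩,
⟨1, [⟨16, 2, []⟩, ⟨1, 3, []⟩, ⟨2, 4, []⟩, ⟨4, 3, []⟩, ⟨64, 4, []⟩], [3, 9, 17, 14], 2, [(7, 1), (67, 1), (70, 1), (80, 1), (87, 2)]⟩,
⟨1, [⟨16, 2, []⟩, ⟨32, 3, []⟩, ⟨1, 3, []⟩, ⟨4, 4, []⟩, ⟨64, 4, []⟩], [13, 3, 3, 20], 2, [(52, 1), (69, 1), (96, 1), (117, 2)]⟩,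
⟨1, [⟨2, 3, []⟩, ⟨4, 3, []⟩, ⟨16, 2, []⟩, ⟨0, 0, [(40, 2)]⟩], [3, 3, 12, 12, 12], 2, [(6, 1), (56, 1), (62, 2)]⟩,
⟨1, [⟨16, 2, []⟩, ⟨8, 3, []⟩, ⟨4, 3, []⟩, ⟨1, 4, []⟩, ⟨64, 4, []⟩], [13, 3, 3, 20], 2, [(25, 1), (69, 1), (72, 1), (93, 2)]⟩,
⟨1, [⟨3, 4, []⟩, ⟨64, 4, []⟩], [3], 1, [(65, 1), (66, 1)]⟩,
⟨0, [⟨2, 2, []⟩, ⟨72, 2, []⟩], [3, 3, 3], 1, [(10, 1), (66, 1)]⟩,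
⟨1, [⟨40, 3, []⟩, ⟨64, 5, []⟩], [1, 1], 1, [(72, 1), (96, 1)]⟩,
⟨1, [⟨16, 2, []⟩, ⟨1, 3, []⟩, ⟨4, 4, []⟩, ⟨2, 3, []⟩, ⟨64, 4, []⟩], [3, 9, 17, 14], 2, [(7, 1), (69, 1), (70, 1), (80, 1), (87, 2)]⟩,
⟨1, [⟨1, 3, []⟩, ⟨2, 3, []⟩, ⟨32, 3, []⟩, ⟨16, 4, []⟩, ⟨64, 4, []⟩], [3, 3, 12, 20], 2, [(19, 1), (67, 1), (112, 1), (115, 2)]⟩,
⟨1, [⟨8, 2, []⟩, ⟨16, 3, []⟩, ⟨1, 3, []⟩, ⟨2, 4, []⟩, ⟨64, 4, []⟩], [13, 3, 3, 20], 2, [(26, 1), (67, 1), (80, 1), (91, 2)]⟩,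
⟨1, [⟨16, 4, []⟩, ⟨64, 4, []⟩], [3], 1, [(80, 1)]⟩,
⟨0, [⟨32, 2, []⟩, ⟨5, 2, []⟩], [3, 3, 3], 1, [(33, 1), (36, 1)]⟩,
⟨1, [⟨8, 2, []⟩, ⟨16, 3, []⟩, ⟨32, 2, []⟩, ⟨1, 3, []⟩, ⟨64, 4, []⟩], [7, 7, 13, 24], 2, [(56, 1), (65, 1), (80, 1), (121, 2)]⟩,
⟨1, [⟨1, 2, []⟩, ⟨4, 3, []⟩, ⟨8, 3, []⟩, ⟨16, 4, []⟩, ⟨64, 4, []⟩], [13, 3, 3, 20], 2, [(21, 1), (68, 1), (88, 1), (93, 2)]⟩,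
⟨1, [⟨2, 2, []⟩, ⟨1, 3, []⟩, ⟨4, 2, []⟩, ⟨8, 3, []⟩, ⟨64, 4, []⟩], [7, 7, 13, 24], 2, [(7, 1), (65, 1), (72, 1), (79, 2)]⟩,
⟨1, [⟨1, 4, []⟩, ⟨2, 4, []⟩, ⟨16, 4, []⟩, ⟨32, 4, []⟩, ⟨64, 3, []⟩], [3, 12, 16, 16], 2, [(51, 1), (67, 1), (112, 1), (115, 2)]⟩,
⟨1, [⟨3, 3, []⟩, ⟨64, 5, []⟩], [1, 1], 1, [(65, 1), (66, 1)]⟩,
⟨0, [⟨1, 2, []⟩, ⟨66, 2, []⟩], [3, 3, 3], 1, [(3, 1), (65, 1)]⟩,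
⟨1, [⟨1, 2, []⟩, ⟨8, 3, []⟩, ⟨16, 4, []⟩, ⟨32, 3, []⟩, ⟨64, 4, []⟩], [3, 9, 17, 14], 2, [(56, 1), (65, 1), (88, 1), (112, 1), (121, 2)]⟩,
⟨0, [⟨96, 2, []⟩, ⟨6, 2, []⟩], [3, 3, 3], 1, [(34, 1), (36, 1), (66, 1), (68, 1)]⟩,
⟨0, [⟨8, 2, []⟩, ⟨5, 2, []⟩], [3, 3, 3], 1, [(9, 1), (12, 1)]⟩,
⟨1, [⟨8, 2, []⟩, ⟨16, 2, []⟩, ⟨32, 3, []⟩, ⟨2, 3, []⟩, ⟨64, 4, []⟩], [7, 7, 9, 26], 2, [(40, 1), (66, 1), (112, 1), (122, 2)]⟩,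
⟨0, [⟨1, 2, []⟩, ⟨24, 2, []⟩], [3, 3, 3], 1, [(9, 1), (17, 1)]⟩,
⟨1, [⟨8, 2, []⟩, ⟨16, 3, []⟩, ⟨1, 3, []⟩, ⟨4, 4, []⟩, ⟨64, 4, []⟩], [13, 3, 3, 20], 2, [(28, 1), (69, 1), (80, 1), (93, 2)]⟩,
⟨0, [⟨8, 2, []⟩, ⟨32, 2, []⟩], [3, 3, 3], 1, [(40, 1)]⟩,
⟨1, [⟨2, 2, []⟩, ⟨4, 2, []⟩, ⟨1, 3, []⟩, ⟨8, 3, []⟩, ⟨64, 4, []⟩], [7, 7, 9, 26], 2, [(3, 1), (69, 1), (72, 1), (79, 2)]⟩,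
⟨1, [⟨1, 4, []⟩, ⟨2, 4, []⟩, ⟨8, 4, []⟩, ⟨32, 4, []⟩, ⟨64, 3, []⟩], [3, 12, 16, 16], 2, [(43, 1), (67, 1), (104, 1), (107, 2)]⟩,
⟨1, [⟨16, 3, []⟩, ⟨32, 3, []⟩, ⟨1, 3, []⟩, ⟨4, 4, []⟩, ⟨64, 4, []⟩], [3, 3, 12, 20], 2, [(52, 1), (69, 1), (112, 1), (117, 2)]⟩,
⟨1, [⟨16, 3, []⟩, ⟨32, 3, []⟩, ⟨4, 3, []⟩, ⟨1, 4, []⟩, ⟨64, 4, []⟩], [3, 3, 12, 20], 2, [(49, 1), (69, 1), (112, 1), (117, 2)]⟩,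
⟨1, [⟨1, 3, []⟩, ⟨2, 3, []⟩, ⟨32, 3, []⟩, ⟨8, 4, []⟩, ⟨64, 4, []⟩], [3, 3, 12, 20], 2, [(11, 1), (67, 1), (104, 1), (107, 2)]⟩,
⟨1, [⟨16, 2, []⟩, ⟨8, 3, []⟩, ⟨32, 2, []⟩, ⟨1, 3, []⟩, ⟨64, 4, []⟩], [7, 7, 13, 24], 2, [(56, 1), (65, 1), (72, 1), (121, 2)]⟩,
⟨1, [⟨1, 4, []⟩, ⟨4, 4, []⟩, ⟨16, 2, []⟩, ⟨8, 3, []⟩, ⟨64, 4, []⟩], [7, 12, 12, 16], 2, [(29, 1), (69, 1), (72, 1), (93, 2)]⟩,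
⟨1, [⟨2, 3, []⟩, ⟨4, 3, []⟩, ⟨32, 3, []⟩, ⟨8, 2, []⟩, ⟨64, 4, []⟩], [11, 11, 12, 20], 2, [(14, 1), (70, 1), (96, 1), (110, 2)]⟩,
⟨1, [⟨32, 2, []⟩, ⟨8, 3, []⟩, ⟨1, 3, []⟩, ⟨2, 4, []⟩, ⟨64, 4, []⟩], [13, 3, 3, 20], 2, [(42, 1), (67, 1), (72, 1), (107, 2)]⟩,
⟨1, [⟨8, 2, []⟩, ⟨32, 2, []⟩, ⟨16, 3, []⟩, ⟨4, 3, []⟩, ⟨64, 4, []⟩], [7, 7, 9, 26], 2, [(24, 1), (68, 1), (112, 1), (124, 2)]⟩,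
⟨1, [⟨2, 2, []⟩, ⟨1, 3, []⟩, ⟨32, 3, []⟩, ⟨8, 4, []⟩, ⟨64, 4, []⟩], [13, 3, 3, 20], 2, [(11, 1), (65, 1), (104, 1), (107, 2)]⟩,
⟨0, [⟨66, 2, []⟩, ⟨48, 2, []⟩], [3, 3, 3], 1, [(18, 1), (34, 1), (80, 1), (96, 1)]⟩,
⟨1, [⟨1, 4, []⟩, ⟨4, 4, []⟩, ⟨8, 2, []⟩, ⟨16, 3, []⟩, ⟨64, 4, []⟩], [7, 12, 12, 16], 2, [(29, 1), (69, 1), (80, 1), (93, 2)]⟩,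
⟨0, [⟨32, 2, []⟩, ⟨66, 2, []⟩], [3, 3, 3], 1, [(34, 1), (96, 1)]⟩,
⟨1, [⟨4, 2, []⟩, ⟨1, 3, []⟩, ⟨16, 3, []⟩, ⟨8, 4, []⟩, ⟨64, 4, []⟩], [13, 3, 3, 20], 2, [(13, 1), (65, 1), (88, 1), (93, 2)]⟩,
⟨1, [⟨1, 2, []⟩, ⟨2, 2, []⟩, ⟨4, 3, []⟩, ⟨32, 3, []⟩, ⟨64, 4, []⟩], [7, 7, 9, 26], 2, [(5, 1), (70, 1), (96, 1), (103, 2)]⟩,
⟨1, [⟨8, 3, []⟩, ⟨16, 3, []⟩, ⟨1, 3, []⟩, ⟨4, 2, []⟩, ⟨64, 4, []⟩], [11, 11, 12, 20], 2, [(28, 1), (65, 1), (88, 1), (93, 2)]⟩,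
⟨1, [⟨4, 2, []⟩, ⟨1, 4, []⟩, ⟨2, 4, []⟩, ⟨16, 2, []⟩, ⟨64, 4, []⟩], [7, 9, 9, 24], 2, [(7, 1), (67, 1), (80, 1), (87, 2)]⟩,
⟨1, [⟨4, 2, []⟩, ⟨2, 3, []⟩, ⟨16, 3, []⟩, ⟨8, 4, []⟩, ⟨64, 4, []⟩], [13, 3, 3, 20], 2, [(14, 1), (66, 1), (88, 1), (94, 2)]⟩,
⟨1, [⟨16, 3, []⟩, ⟨64, 5, []⟩], [1, 1], 1, [(80, 1)]⟩,
⟨1, [⟨32, 2, []⟩, ⟨16, 3, []⟩, ⟨2, 3, []⟩, ⟨4, 4, []⟩, ⟨64, 4, []⟩], [13, 3, 3, 20], 2, [(52, 1), (70, 1), (80, 1), (118, 2)]⟩,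
⟨0, [⟨32, 2, []⟩, ⟨68, 2, []⟩], [3, 3, 3], 1, [(36, 1), (96, 1)]⟩,
⟨1, [⟨1, 3, []⟩, ⟨4, 3, []⟩, ⟨32, 3, []⟩, ⟨8, 4, []⟩, ⟨64, 4, []⟩], [3, 3, 12, 20], 2, [(13, 1), (69, 1), (104, 1), (109, 2)]⟩,
⟨1, [⟨1, 3, []⟩, ⟨2, 3, []⟩, ⟨4, 3, []⟩, ⟨8, 3, []⟩, ⟨16, 3, []⟩], [7, 7, 24, 24], 2, [(7, 1), (24, 1), (31, 2)]⟩,
⟨1, [⟨16, 2, []⟩, ⟨8, 3, []⟩, ⟨32, 2, []⟩, ⟨4, 3, []⟩, ⟨64, 4, []⟩], [7, 7, 13, 24], 2, [(56, 1), (68, 1), (72, 1), (124, 2)]⟩,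
⟨1, [⟨32, 3, []⟩, ⟨64, 5, []⟩], [1, 1], 1, [(96, 1)]⟩,
⟨1, [⟨1, 3, []⟩, ⟨2, 3, []⟩, ⟨8, 3, []⟩, ⟨16, 4, []⟩, ⟨64, 4, []⟩], [3, 3, 12, 20], 2, [(19, 1), (67, 1), (88, 1), (91, 2)]⟩,
⟨1, [⟨2, 2, []⟩, ⟨16, 3, []⟩, ⟨8, 4, []⟩, ⟨32, 3, []⟩, ⟨64, 4, []⟩], [3, 9, 17, 14], 2, [(56, 1), (66, 1), (88, 1), (104, 1), (122, 2)]⟩,
⟨0, [⟨16, 2, []⟩, ⟨32, 2, []⟩], [3, 3, 3], 1, [(48, 1)]⟩,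
⟨0, [⟨1, 2, []⟩, ⟨40, 2, []⟩], [3, 3, 3], 1, [(9, 1), (33, 1)]⟩,
⟨1, [⟨8, 3, []⟩, ⟨32, 3, []⟩, ⟨1, 3, []⟩, ⟨4, 4, []⟩, ⟨64, 4, []⟩], [3, 3, 12, 20], 2, [(44, 1), (69, 1), (104, 1), (109, 2)]⟩,
⟨1, [⟨16, 4, []⟩, ⟨32, 4, []⟩, ⟨1, 2, []⟩, ⟨4, 3, []⟩, ⟨64, 4, []⟩], [7, 12, 12, 16], 2, [(53, 1), (68, 1), (112, 1), (117, 2)]⟩,
⟨0, [⟨32, 2, []⟩, ⟨80, 2, []⟩], [3, 3, 3], 1, [(48, 1), (96, 1)]⟩,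
⟨1, [⟨1, 3, []⟩, ⟨2, 3, []⟩, ⟨8, 3, []⟩, ⟨32, 3, []⟩, ⟨64, 3, []⟩], [19, 19, 12, 12], 2, [(40, 1), (67, 1), (107, 2)]⟩,
⟨1, [⟨8, 3, []⟩, ⟨32, 3, []⟩, ⟨2, 3, []⟩, ⟨1, 2, []⟩, ⟨64, 4, []⟩], [11, 11, 12, 20], 2, [(41, 1), (66, 1), (104, 1), (107, 2)]⟩,
⟨0, [⟨8, 2, []⟩, ⟨68, 2, []⟩], [3, 3, 3], 1, [(12, 1), (72, 1)]⟩,
⟨1, [⟨8, 3, []⟩, ⟨32, 3, []⟩, ⟨2, 3, []⟩, ⟨4, 2, []⟩, ⟨64, 4, []⟩], [11, 11, 12, 20], 2, [(44, 1), (66, 1), (104, 1), (110, 2)]⟩,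
⟨1, [⟨2, 3, []⟩, ⟨4, 3, []⟩, ⟨32, 3, []⟩, ⟨16, 4, []⟩, ⟨64, 4, []⟩], [3, 3, 12, 20], 2, [(22, 1), (70, 1), (112, 1), (118, 2)]⟩,
⟨1, [⟨8, 4, []⟩, ⟨64, 4, []⟩], [3], 1, [(72, 1)]⟩,
⟨1, [⟨1, 3, []⟩, ⟨4, 3, []⟩, ⟨8, 3, []⟩, ⟨32, 2, []⟩, ⟨64, 4, []⟩], [11, 11, 12, 20], 2, [(37, 1), (69, 1), (72, 1), (109, 2)]⟩,
⟨0, [⟨1, 2, []⟩, ⟨72, 2, []⟩], [3, 3, 3], 1, [(9, 1), (65, 1)]⟩,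
⟨1, [⟨4, 4, []⟩, ⟨64, 4, []⟩], [3], 1, [(68, 1)]⟩,
⟨1, [⟨2, 2, []⟩, ⟨4, 3, []⟩, ⟨32, 3, []⟩, ⟨8, 4, []⟩, ⟨64, 4, []⟩], [13, 3, 3, 20], 2, [(14, 1), (68, 1), (104, 1), (110, 2)]⟩,
⟨1, [⟨4, 3, []⟩, ⟨1, 2, []⟩, ⟨8, 3, []⟩, ⟨32, 3, []⟩, ⟨64, 4, []⟩], [3, 3, 14, 28], 2, [(5, 1), (68, 1), (104, 1), (109, 2)]⟩,
⟨0, [⟨8, 2, []⟩, ⟨3, 2, []⟩], [3, 3, 3], 1, [(9, 1), (10, 1)]⟩,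
⟨1, [⟨2, 2, []⟩, ⟨1, 3, []⟩, ⟨4, 2, []⟩, ⟨16, 3, []⟩, ⟨64, 4, []⟩], [7, 7, 13, 24], 2, [(7, 1), (65, 1), (80, 1), (87, 2)]⟩,
⟨0, [⟨8, 2, []⟩, ⟨34, 2, []⟩], [3, 3, 3], 1, [(10, 1), (40, 1)]⟩,
⟨1, [⟨1, 2, []⟩, ⟨4, 3, []⟩, ⟨32, 3, []⟩, ⟨16, 4, []⟩, ⟨64, 4, []⟩], [13, 3, 3, 20], 2, [(21, 1), (68, 1), (112, 1), (117, 2)]⟩,
⟨1, [⟨4, 2, []⟩, ⟨1, 3, []⟩, ⟨32, 3, []⟩, ⟨16, 4, []⟩, ⟨64, 4, []⟩], [13, 3, 3, 20], 2, [(21, 1), (65, 1), (112, 1), (117, 2)]⟩,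
⟨1, [⟨2, 3, []⟩, ⟨4, 3, []⟩, ⟨8, 3, []⟩, ⟨16, 4, []⟩, ⟨64, 4, []⟩], [3, 3, 12, 20], 2, [(22, 1), (70, 1), (88, 1), (94, 2)]⟩,
⟨1, [⟨2, 2, []⟩, ⟨8, 3, []⟩, ⟨16, 4, []⟩, ⟨32, 3, []⟩, ⟨64, 4, []⟩], [3, 9, 17, 14], 2, [(56, 1), (66, 1), (88, 1), (112, 1), (122, 2)]⟩,
⟨1, [⟨40, 4, []⟩, ⟨64, 4, []⟩], [3], 1, [(72, 1), (96, 1)]⟩,
⟨0, [⟨32, 2, []⟩, ⟨72, 2, []⟩], [3, 3, 3], 1, [(40, 1), (96, 1)]⟩,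
⟨1, [⟨1, 3, []⟩, ⟨2, 3, []⟩, ⟨8, 3, []⟩, ⟨32, 3, []⟩, ⟨64, 3, []⟩], [3, 3, 28, 28], 2, [(3, 1), (104, 1), (107, 2)]⟩,
⟨1, [⟨32, 2, []⟩, ⟨8, 4, []⟩, ⟨16, 4, []⟩, ⟨4, 2, []⟩, ⟨64, 4, []⟩], [7, 9, 9, 24], 2, [(56, 1), (68, 1), (88, 1), (124, 2)]⟩,
⟨1, [⟨1, 3, []⟩, ⟨2, 3, []⟩, ⟨8, 3, []⟩, ⟨32, 2, []⟩, ⟨64, 4, []⟩], [11, 11, 12, 20], 2, [(35, 1), (67, 1), (72, 1), (107, 2)]⟩,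
⟨1, [⟨2, 3, []⟩, ⟨4, 3, []⟩, ⟨8, 3, []⟩, ⟨32, 3, []⟩, ⟨64, 5, []⟩], [3, 3, 12, 12], 2, [(70, 1), (104, 1), (110, 2)]⟩,
⟨1, [⟨1, 2, []⟩, ⟨2, 4, []⟩, ⟨4, 4, []⟩, ⟨16, 2, []⟩, ⟨64, 4, []⟩], [7, 9, 9, 24], 2, [(7, 1), (70, 1), (80, 1), (87, 2)]⟩,
⟨1, [⟨16, 2, []⟩, ⟨32, 3, []⟩, ⟨2, 3, []⟩, ⟨4, 4, []⟩, ⟨64, 4, []⟩], [13, 3, 3, 20], 2, [(52, 1), (70, 1), (96, 1), (118, 2)]⟩,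
⟨1, [⟨8, 2, []⟩, ⟨16, 3, []⟩, ⟨2, 3, []⟩, ⟨1, 4, []⟩, ⟨64, 4, []⟩], [13, 3, 3, 20], 2, [(25, 1), (67, 1), (80, 1), (91, 2)]⟩,
⟨1, [⟨8, 3, []⟩, ⟨32, 3, []⟩, ⟨0, 0, [(5, 3)]⟩, ⟨64, 3, []⟩], [3, 3, 4, 4, 8, 8], 2, [(45, 1), (69, 1), (104, 1), (109, 2)]⟩,
⟨1, [⟨1, 3, []⟩, ⟨4, 3, []⟩, ⟨8, 3, []⟩, ⟨16, 3, []⟩, ⟨64, 3, []⟩], [19, 19, 12, 12], 2, [(24, 1), (69, 1), (93, 2)]⟩,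
⟨0, [⟨32, 2, []⟩, ⟨12, 2, []⟩], [3, 3, 3], 1, [(36, 1), (40, 1)]⟩,
⟨1, [⟨1, 3, []⟩, ⟨4, 3, []⟩, ⟨8, 3, []⟩, ⟨32, 4, []⟩, ⟨64, 4, []⟩], [3, 3, 12, 20], 2, [(37, 1), (69, 1), (104, 1), (109, 2)]⟩,
⟨1, [⟨8, 3, []⟩, ⟨16, 3, []⟩, ⟨2, 3, []⟩, ⟨4, 4, []⟩, ⟨64, 4, []⟩], [3, 3, 12, 20], 2, [(28, 1), (70, 1), (88, 1), (94, 2)]⟩,
⟨0, [⟨16, 2, []⟩, ⟨34, 2, []⟩], [3, 3, 3], 1, [(18, 1), (48, 1)]⟩,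
⟨0, [⟨4, 2, []⟩, ⟨96, 2, []⟩], [3, 3, 3], 1, [(36, 1), (68, 1)]⟩,
⟨0, [⟨8, 2, []⟩, ⟨18, 2, []⟩], [3, 3, 3], 1, [(10, 1), (24, 1)]⟩,
⟨0, [⟨16, 2, []⟩, ⟨6, 2, []⟩], [3, 3, 3], 1, [(18, 1), (20, 1)]⟩,
⟨1, [⟨2, 3, []⟩, ⟨4, 3, []⟩, ⟨16, 3, []⟩, ⟨32, 3, []⟩, ⟨64, 3, []⟩], [3, 3, 28, 28], 2, [(6, 1), (112, 1), (118, 2)]⟩,
⟨1, [⟨2, 4, []⟩, ⟨4, 4, []⟩, ⟨32, 2, []⟩, ⟨8, 3, []⟩, ⟨64, 4, []⟩], [7, 12, 12, 16], 2, [(46, 1), (70, 1), (72, 1), (110, 2)]⟩,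
⟨1, [⟨8, 3, []⟩, ⟨16, 3, []⟩, ⟨2, 3, []⟩, ⟨1, 2, []⟩, ⟨64, 4, []⟩], [11, 11, 12, 20], 2, [(25, 1), (66, 1), (88, 1), (91, 2)]⟩,
⟨1, [⟨8, 2, []⟩, ⟨32, 2, []⟩, ⟨16, 3, []⟩, ⟨1, 3, []⟩, ⟨64, 4, []⟩], [7, 7, 9, 26], 2, [(24, 1), (65, 1), (112, 1), (121, 2)]⟩,
⟨1, [⟨8, 2, []⟩, ⟨32, 3, []⟩, ⟨1, 3, []⟩, ⟨2, 4, []⟩, ⟨64, 4, []⟩], [13, 3, 3, 20], 2, [(42, 1), (67, 1), (96, 1), (107, 2)]⟩,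
⟨1, [⟨4, 2, []⟩, ⟨1, 3, []⟩, ⟨8, 3, []⟩, ⟨32, 4, []⟩, ⟨64, 4, []⟩], [13, 3, 3, 20], 2, [(37, 1), (65, 1), (104, 1), (109, 2)]⟩,
⟨1, [⟨32, 2, []⟩, ⟨8, 4, []⟩, ⟨16, 4, []⟩, ⟨1, 2, []⟩, ⟨64, 4, []⟩], [7, 9, 9, 24], 2, [(56, 1), (65, 1), (88, 1), (121, 2)]⟩,
⟨1, [⟨2, 4, []⟩, ⟨4, 4, []⟩, ⟨32, 2, []⟩, ⟨16, 3, []⟩, ⟨64, 4, []⟩], [7, 12, 12, 16], 2, [(54, 1), (70, 1), (80, 1), (118, 2)]⟩,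
⟨0, [⟨4, 2, []⟩, ⟨24, 2, []⟩], [3, 3, 3], 1, [(12, 1), (20, 1)]⟩,
⟨1, [⟨2, 3, []⟩, ⟨4, 3, []⟩, ⟨8, 3, []⟩, ⟨32, 4, []⟩, ⟨64, 4, []⟩], [3, 3, 12, 20], 2, [(38, 1), (70, 1), (104, 1), (110, 2)]⟩,
⟨1, [⟨1, 2, []⟩, ⟨2, 3, []⟩, ⟨32, 3, []⟩, ⟨16, 4, []⟩, ⟨64, 4, []⟩], [13, 3, 3, 20], 2, [(19, 1), (66, 1), (112, 1), (115, 2)]⟩,
⟨0, [⟨8, 2, []⟩, ⟨65, 2, []⟩], [3, 3, 3], 1, [(9, 1), (72, 1)]⟩,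
⟨1, [⟨2, 3, []⟩, ⟨64, 5, []⟩], [1, 1], 1, [(66, 1)]⟩,
⟨1, [⟨2, 2, []⟩, ⟨1, 3, []⟩, ⟨16, 3, []⟩, ⟨32, 4, []⟩, ⟨64, 4, []⟩], [13, 3, 3, 20], 2, [(35, 1), (65, 1), (112, 1), (115, 2)]⟩,
⟨1, [⟨2, 4, []⟩, ⟨4, 4, []⟩, ⟨8, 4, []⟩, ⟨32, 4, []⟩, ⟨64, 3, []⟩], [3, 12, 16, 16], 2, [(46, 1), (70, 1), (104, 1), (110, 2)]⟩,
⟨1, [⟨1, 4, []⟩, ⟨2, 4, []⟩, ⟨32, 2, []⟩, ⟨8, 3, []⟩, ⟨64, 4, []⟩], [7, 12, 12, 16], 2, [(43, 1), (67, 1), (72, 1), (107, 2)]⟩,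
⟨0, [⟨16, 2, []⟩, ⟨9, 2, []⟩], [3, 3, 3], 1, [(17, 1), (24, 1)]⟩,
⟨1, [⟨16, 2, []⟩, ⟨8, 4, []⟩, ⟨32, 4, []⟩, ⟨1, 2, []⟩, ⟨64, 4, []⟩], [7, 9, 9, 24], 2, [(56, 1), (65, 1), (104, 1), (121, 2)]⟩,
⟨1, [⟨1, 2, []⟩, ⟨8, 3, []⟩, ⟨32, 4, []⟩, ⟨16, 3, []⟩, ⟨64, 4, []⟩], [3, 9, 17, 14], 2, [(56, 1), (65, 1), (104, 1), (112, 1), (121, 2)]⟩,
⟨1, [⟨32, 2, []⟩, ⟨16, 3, []⟩, ⟨4, 3, []⟩, ⟨1, 4, []⟩, ⟨64, 4, []⟩], [13, 3, 3, 20], 2, [(49, 1), (69, 1), (80, 1), (117, 2)]⟩,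
⟨1, [⟨32, 2, []⟩, ⟨8, 3, []⟩, ⟨2, 3, []⟩, ⟨4, 4, []⟩, ⟨64, 4, []⟩], [13, 3, 3, 20], 2, [(44, 1), (70, 1), (72, 1), (110, 2)]⟩,
⟨1, [⟨1, 3, []⟩, ⟨2, 3, []⟩, ⟨4, 3, []⟩, ⟨16, 3, []⟩, ⟨32, 3, []⟩], [7, 7, 24, 24], 2, [(7, 1), (48, 1), (55, 2)]⟩,
⟨1, [⟨16, 2, []⟩, ⟨8, 3, []⟩, ⟨1, 3, []⟩, ⟨4, 4, []⟩, ⟨64, 4, []⟩], [13, 3, 3, 20], 2, [(28, 1), (69, 1), (72, 1), (93, 2)]⟩,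
⟨1, [⟨4, 2, []⟩, ⟨2, 3, []⟩, ⟨8, 3, []⟩, ⟨16, 4, []⟩, ⟨64, 4, []⟩], [13, 3, 3, 20], 2, [(22, 1), (66, 1), (88, 1), (94, 2)]⟩,
⟨1, [⟨32, 2, []⟩, ⟨1, 3, []⟩, ⟨4, 4, []⟩, ⟨2, 3, []⟩, ⟨64, 4, []⟩], [3, 9, 17, 14], 2, [(7, 1), (69, 1), (70, 1), (96, 1), (103, 2)]⟩,
⟨1, [⟨1, 3, []⟩, ⟨2, 3, []⟩, ⟨8, 3, []⟩, ⟨16, 2, []⟩, ⟨64, 4, []⟩], [11, 11, 12, 20], 2, [(19, 1), (67, 1), (72, 1), (91, 2)]⟩,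
⟨1, [⟨1, 3, []⟩, ⟨4, 3, []⟩, ⟨16, 3, []⟩, ⟨32, 3, []⟩, ⟨64, 5, []⟩], [3, 3, 12, 12], 2, [(69, 1), (112, 1), (117, 2)]⟩,
⟨1, [⟨8, 3, []⟩, ⟨32, 3, []⟩, ⟨2, 3, []⟩, ⟨1, 4, []⟩, ⟨64, 4, []⟩], [3, 3, 12, 20], 2, [(41, 1), (67, 1), (104, 1), (107, 2)]⟩,
⟨1, [⟨2, 2, []⟩, ⟨4, 2, []⟩, ⟨1, 3, []⟩, ⟨32, 3, []⟩, ⟨64, 4, []⟩], [7, 7, 9, 26], 2, [(3, 1), (69, 1), (96, 1), (103, 2)]⟩,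
⟨1, [⟨8, 3, []⟩, ⟨32, 3, []⟩, ⟨4, 3, []⟩, ⟨2, 4, []⟩, ⟨64, 4, []⟩], [3, 3, 12, 20], 2, [(42, 1), (70, 1), (104, 1), (110, 2)]⟩,
⟨1, [⟨4, 2, []⟩, ⟨1, 4, []⟩, ⟨2, 4, []⟩, ⟨8, 2, []⟩, ⟨64, 4, []⟩], [7, 9, 9, 24], 2, [(7, 1), (67, 1), (72, 1), (79, 2)]⟩,
⟨1, [⟨8, 2, []⟩, ⟨16, 3, []⟩, ⟨32, 2, []⟩, ⟨4, 3, []⟩, ⟨64, 4, []⟩], [7, 7, 13, 24], 2, [(56, 1), (68, 1), (80, 1), (124, 2)]⟩,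
⟨1, [⟨24, 4, []⟩, ⟨64, 4, []⟩], [3], 1, [(72, 1), (80, 1)]⟩,
⟨1, [⟨2, 3, []⟩, ⟨4, 3, []⟩, ⟨8, 3, []⟩, ⟨16, 2, []⟩, ⟨64, 4, []⟩], [11, 11, 12, 20], 2, [(22, 1), (70, 1), (72, 1), (94, 2)]⟩,
⟨0, [⟨5, 2, []⟩, ⟨66, 2, []⟩], [3, 3, 3], 1, [(3, 1), (6, 1), (65, 1), (68, 1)]⟩,
⟨1, [⟨1, 2, []⟩, ⟨2, 3, []⟩, ⟨16, 3, []⟩, ⟨8, 4, []⟩, ⟨64, 4, []⟩], [13, 3, 3, 20], 2, [(11, 1), (66, 1), (88, 1), (91, 2)]⟩,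
⟨1, [⟨1, 2, []⟩, ⟨2, 3, []⟩, ⟨4, 2, []⟩, ⟨16, 3, []⟩, ⟨64, 4, []⟩], [7, 7, 13, 24], 2, [(7, 1), (66, 1), (80, 1), (87, 2)]⟩,
⟨1, [⟨8, 2, []⟩, ⟨16, 3, []⟩, ⟨4, 3, []⟩, ⟨1, 4, []⟩, ⟨64, 4, []⟩], [13, 3, 3, 20], 2, [(25, 1), (69, 1), (80, 1), (93, 2)]⟩,
⟨1, [⟨1, 3, []⟩, ⟨4, 3, []⟩, ⟨8, 3, []⟩, ⟨16, 3, []⟩, ⟨64, 5, []⟩], [3, 3, 12, 12], 2, [(69, 1), (88, 1), (93, 2)]⟩,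
⟨0, [⟨1, 2, []⟩, ⟨34, 2, []⟩], [3, 3, 3], 1, [(3, 1), (33, 1)]⟩,
⟨1, [⟨16, 3, []⟩, ⟨32, 3, []⟩, ⟨2, 3, []⟩, ⟨4, 4, []⟩, ⟨64, 4, []⟩], [3, 3, 12, 20], 2, [(52, 1), (70, 1), (112, 1), (118, 2)]⟩,
⟨1, [⟨8, 3, []⟩, ⟨16, 3, []⟩, ⟨32, 3, []⟩, ⟨1, 3, []⟩, ⟨4, 3, []⟩], [7, 7, 24, 24], 2, [(5, 1), (56, 1), (61, 2)]⟩,
⟨1, [⟨16, 3, []⟩, ⟨32, 3, []⟩, ⟨0, 0, [(6, 3)]⟩, ⟨64, 3, []⟩], [3, 3, 4, 4, 8, 8], 2, [(54, 1), (70, 1), (112, 1), (118, 2)]⟩,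
⟨1, [⟨8, 3, []⟩, ⟨16, 3, []⟩, ⟨32, 3, []⟩, ⟨2, 3, []⟩, ⟨4, 3, []⟩], [7, 7, 24, 24], 2, [(6, 1), (56, 1), (62, 2)]⟩,
⟨1, [⟨8, 3, []⟩, ⟨16, 3, []⟩, ⟨1, 3, []⟩, ⟨4, 4, []⟩, ⟨64, 4, []⟩], [3, 3, 12, 20], 2, [(28, 1), (69, 1), (88, 1), (93, 2)]⟩,
⟨1, [⟨1, 3, []⟩, ⟨4, 3, []⟩, ⟨16, 3, []⟩, ⟨32, 3, []⟩, ⟨64, 3, []⟩], [19, 19, 12, 12], 2, [(48, 1), (69, 1), (117, 2)]⟩,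
⟨1, [⟨1, 3, []⟩, ⟨4, 3, []⟩, ⟨32, 3, []⟩, ⟨8, 2, []⟩, ⟨64, 4, []⟩], [11, 11, 12, 20], 2, [(13, 1), (69, 1), (96, 1), (109, 2)]⟩,
⟨0, [⟨8, 2, []⟩, ⟨33, 2, []⟩], [3, 3, 3], 1, [(9, 1), (40, 1)]⟩,
⟨1, [⟨16, 2, []⟩, ⟨32, 3, []⟩, ⟨2, 3, []⟩, ⟨1, 4, []⟩, ⟨64, 4, []⟩], [13, 3, 3, 20], 2, [(49, 1), (67, 1), (96, 1), (115, 2)]⟩,
⟨1, [⟨8, 4, []⟩, ⟨32, 4, []⟩, ⟨4, 2, []⟩, ⟨2, 3, []⟩, ⟨64, 4, []⟩], [7, 12, 12, 16], 2, [(46, 1), (66, 1), (104, 1), (110, 2)]⟩,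
⟨1, [⟨8, 4, []⟩, ⟨32, 4, []⟩, ⟨2, 2, []⟩, ⟨1, 3, []⟩, ⟨64, 4, []⟩], [7, 12, 12, 16], 2, [(43, 1), (65, 1), (104, 1), (107, 2)]⟩,
⟨1, [⟨8, 2, []⟩, ⟨16, 4, []⟩, ⟨32, 4, []⟩, ⟨1, 2, []⟩, ⟨64, 4, []⟩], [7, 9, 9, 24], 2, [(56, 1), (65, 1), (112, 1), (121, 2)]⟩,
⟨0, [⟨2, 2, []⟩, ⟨20, 2, []⟩], [3, 3, 3], 1, [(6, 1), (18, 1)]⟩,
⟨1, [⟨2, 4, []⟩, ⟨4, 4, []⟩, ⟨16, 2, []⟩, ⟨32, 3, []⟩, ⟨64, 4, []⟩], [7, 12, 12, 16], 2, [(54, 1), (70, 1), (96, 1), (118, 2)]⟩,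
⟨1, [⟨8, 2, []⟩, ⟨16, 4, []⟩, ⟨32, 4, []⟩, ⟨4, 2, []⟩, ⟨64, 4, []⟩], [7, 9, 9, 24], 2, [(56, 1), (68, 1), (112, 1), (124, 2)]⟩,
⟨0, [⟨2, 2, []⟩, ⟨33, 2, []⟩], [3, 3, 3], 1, [(3, 1), (34, 1)]⟩,
⟨1, [⟨8, 3, []⟩, ⟨16, 3, []⟩, ⟨4, 3, []⟩, ⟨1, 4, []⟩, ⟨64, 4, []⟩], [3, 3, 12, 20], 2, [(25, 1), (69, 1), (88, 1), (93, 2)]⟩,
⟨1, [⟨1, 3, []⟩, ⟨4, 3, []⟩, ⟨16, 3, []⟩, ⟨32, 4, []⟩, ⟨64, 4, []⟩], [3, 3, 12, 20], 2, [(37, 1), (69, 1), (112, 1), (117, 2)]⟩,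
⟨1, [⟨2, 2, []⟩, ⟨1, 3, []⟩, ⟨8, 3, []⟩, ⟨16, 4, []⟩, ⟨64, 4, []⟩], [13, 3, 3, 20], 2, [(19, 1), (65, 1), (88, 1), (91, 2)]⟩,
⟨1, [⟨1, 4, []⟩, ⟨4, 4, []⟩, ⟨32, 2, []⟩, ⟨16, 3, []⟩, ⟨64, 4, []⟩], [7, 12, 12, 16], 2, [(53, 1), (69, 1), (80, 1), (117, 2)]⟩,
⟨0, [⟨1, 2, []⟩, ⟨80, 2, []⟩], [3, 3, 3], 1, [(17, 1), (65, 1)]⟩,
⟨1, [⟨4, 3, []⟩, ⟨64, 5, []⟩], [1, 1], 1, [(68, 1)]⟩,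
⟨1, [⟨8, 3, []⟩, ⟨16, 3, []⟩, ⟨0, 0, [(3, 3)]⟩, ⟨64, 3, []⟩], [3, 3, 4, 4, 8, 8], 2, [(27, 1), (67, 1), (88, 1), (91, 2)]⟩,
⟨1, [⟨5, 4, []⟩, ⟨64, 4, []⟩], [3], 1, [(65, 1), (68, 1)]⟩,
⟨1, [⟨8, 3, []⟩, ⟨32, 3, []⟩, ⟨4, 3, []⟩, ⟨2, 2, []⟩, ⟨64, 4, []⟩], [11, 11, 12, 20], 2, [(42, 1), (68, 1), (104, 1), (110, 2)]⟩,
⟨0, [⟨1, 2, []⟩, ⟨10, 2, []⟩], [3, 3, 3], 1, [(3, 1), (9, 1)]⟩,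
⟨1, [⟨2, 3, []⟩, ⟨4, 3, []⟩, ⟨8, 3, []⟩, ⟨32, 3, []⟩, ⟨64, 3, []⟩], [19, 19, 12, 12], 2, [(40, 1), (70, 1), (110, 2)]⟩,
⟨1, [⟨1, 3, []⟩, ⟨4, 3, []⟩, ⟨0, 0, [(24, 3)]⟩, ⟨64, 3, []⟩], [3, 3, 4, 4, 8, 8], 2, [(29, 1), (69, 1), (88, 1), (93, 2)]⟩,
⟨1, [⟨1, 3, []⟩, ⟨2, 3, []⟩, ⟨16, 3, []⟩, ⟨8, 4, []⟩, ⟨64, 4, []⟩], [3, 3, 12, 20], 2, [(11, 1), (67, 1), (88, 1), (91, 2)]⟩,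
⟨0, [⟨16, 2, []⟩, ⟨66, 2, []⟩], [3, 3, 3], 1, [(18, 1), (80, 1)]⟩,
⟨1, [⟨16, 2, []⟩, ⟨8, 3, []⟩, ⟨32, 2, []⟩, ⟨2, 3, []⟩, ⟨64, 4, []⟩], [7, 7, 13, 24], 2, [(56, 1), (66, 1), (72, 1), (122, 2)]⟩,
⟨1, [⟨1, 4, []⟩, ⟨4, 4, []⟩, ⟨8, 2, []⟩, ⟨32, 3, []⟩, ⟨64, 4, []⟩], [7, 12, 12, 16], 2, [(45, 1), (69, 1), (96, 1), (109, 2)]⟩,
⟨1, [⟨8, 2, []⟩, ⟨32, 3, []⟩, ⟨16, 2, []⟩, ⟨4, 3, []⟩, ⟨64, 4, []⟩], [7, 7, 13, 24], 2, [(56, 1), (68, 1), (96, 1), (124, 2)]⟩,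
⟨1, [⟨16, 2, []⟩, ⟨2, 3, []⟩, ⟨1, 4, []⟩, ⟨4, 3, []⟩, ⟨64, 4, []⟩], [3, 9, 17, 14], 2, [(7, 1), (67, 1), (69, 1), (80, 1), (87, 2)]⟩,
⟨0, [⟨16, 2, []⟩, ⟨12, 2, []⟩], [3, 3, 3], 1, [(20, 1), (24, 1)]⟩,
⟨1, [⟨32, 2, []⟩, ⟨16, 3, []⟩, ⟨1, 3, []⟩, ⟨4, 4, []⟩, ⟨64, 4, []⟩], [13, 3, 3, 20], 2, [(52, 1), (69, 1), (80, 1), (117, 2)]⟩,
⟨1, [⟨1, 3, []⟩, ⟨2, 3, []⟩, ⟨4, 3, []⟩, ⟨8, 3, []⟩, ⟨32, 3, []⟩], [7, 7, 24, 24], 2, [(7, 1), (40, 1), (47, 2)]⟩,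
⟨1, [⟨16, 3, []⟩, ⟨32, 3, []⟩, ⟨4, 3, []⟩, ⟨2, 2, []⟩, ⟨64, 4, []⟩], [11, 11, 12, 20], 2, [(50, 1), (68, 1), (112, 1), (118, 2)]⟩,
⟨1, [⟨8, 4, []⟩, ⟨32, 4, []⟩, ⟨1, 2, []⟩, ⟨2, 3, []⟩, ⟨64, 4, []⟩], [7, 12, 12, 16], 2, [(43, 1), (66, 1), (104, 1), (107, 2)]⟩,
⟨1, [⟨2, 3, []⟩, ⟨4, 3, []⟩, ⟨8, 3, []⟩, ⟨16, 3, []⟩, ⟨64, 5, []⟩], [3, 3, 12, 12], 2, [(70, 1), (88, 1), (94, 2)]⟩,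
⟨1, [⟨1, 3, []⟩, ⟨4, 3, []⟩, ⟨16, 3, []⟩, ⟨32, 3, []⟩, ⟨64, 3, []⟩], [3, 3, 28, 28], 2, [(5, 1), (112, 1), (117, 2)]⟩,
⟨1, [⟨68, 5, []⟩, ⟨2, 3, []⟩], [2, 2], 1, [(6, 1), (66, 1)]⟩,
⟨1, [⟨32, 2, []⟩, ⟨2, 3, []⟩, ⟨1, 4, []⟩, ⟨4, 3, []⟩, ⟨64, 4, []⟩], [3, 9, 17, 14], 2, [(7, 1), (67, 1), (69, 1), (96, 1), (103, 2)]⟩,
⟨0, [⟨2, 2, []⟩, ⟨36, 2, []⟩], [3, 3, 3], 1, [(6, 1), (34, 1)]⟩,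
⟨1, [⟨1, 4, []⟩, ⟨4, 4, []⟩, ⟨8, 4, []⟩, ⟨16, 4, []⟩, ⟨64, 3, []⟩], [3, 12, 16, 16], 2, [(29, 1), (69, 1), (88, 1), (93, 2)]⟩,
⟨1, [⟨2, 2, []⟩, ⟨1, 4, []⟩, ⟨4, 4, []⟩, ⟨16, 2, []⟩, ⟨64, 4, []⟩], [7, 9, 9, 24], 2, [(7, 1), (69, 1), (80, 1), (87, 2)]⟩,
⟨1, [⟨16, 2, []⟩, ⟨8, 4, []⟩, ⟨32, 4, []⟩, ⟨2, 2, []⟩, ⟨64, 4, []⟩], [7, 9, 9, 24], 2, [(56, 1), (66, 1), (104, 1), (122, 2)]⟩,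
⟨0, [⟨32, 2, []⟩, ⟨3, 2, []⟩], [3, 3, 3], 1, [(33, 1), (34, 1)]⟩,
⟨1, [⟨32, 2, []⟩, ⟨16, 3, []⟩, ⟨1, 3, []⟩, ⟨2, 4, []⟩, ⟨64, 4, []⟩], [13, 3, 3, 20], 2, [(50, 1), (67, 1), (80, 1), (115, 2)]⟩,
⟨1, [⟨2, 2, []⟩, ⟨4, 3, []⟩, ⟨8, 3, []⟩, ⟨32, 4, []⟩, ⟨64, 4, []⟩], [13, 3, 3, 20], 2, [(38, 1), (68, 1), (104, 1), (110, 2)]⟩,
⟨1, [⟨8, 2, []⟩, ⟨32, 3, []⟩, ⟨1, 3, []⟩, ⟨4, 4, []⟩, ⟨64, 4, []⟩], [13, 3, 3, 20], 2, [(44, 1), (69, 1), (96, 1), (109, 2)]⟩,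
⟨1, [⟨8, 2, []⟩, ⟨16, 4, []⟩, ⟨32, 4, []⟩, ⟨2, 2, []⟩, ⟨64, 4, []⟩], [7, 9, 9, 24], 2, [(56, 1), (66, 1), (112, 1), (122, 2)]⟩,
⟨1, [⟨1, 2, []⟩, ⟨2, 4, []⟩, ⟨4, 4, []⟩, ⟨8, 2, []⟩, ⟨64, 4, []⟩], [7, 9, 9, 24], 2, [(7, 1), (70, 1), (72, 1), (79, 2)]⟩,
⟨1, [⟨2, 3, []⟩, ⟨4, 3, []⟩, ⟨16, 3, []⟩, ⟨8, 4, []⟩, ⟨64, 4, []⟩], [3, 3, 12, 20], 2, [(14, 1), (70, 1), (88, 1), (94, 2)]⟩,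
⟨0, [⟨16, 2, []⟩, ⟨96, 2, []⟩], [3, 3, 3], 1, [(48, 1), (80, 1)]⟩,
⟨1, [⟨16, 2, []⟩, ⟨32, 2, []⟩, ⟨8, 3, []⟩, ⟨1, 3, []⟩, ⟨64, 4, []⟩], [7, 7, 9, 26], 2, [(24, 1), (65, 1), (104, 1), (121, 2)]⟩,
⟨1, [⟨8, 2, []⟩, ⟨16, 2, []⟩, ⟨32, 3, []⟩, ⟨4, 3, []⟩, ⟨64, 4, []⟩], [7, 7, 9, 26], 2, [(40, 1), (68, 1), (112, 1), (124, 2)]⟩,
⟨1, [⟨1, 3, []⟩, ⟨2, 3, []⟩, ⟨0, 0, [(48, 3)]⟩, ⟨64, 3, []⟩], [3, 3, 4, 4, 8, 8], 2, [(51, 1), (67, 1), (112, 1), (115, 2)]⟩,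
⟨1, [⟨1, 3, []⟩, ⟨64, 5, []⟩], [1, 1], 1, [(65, 1)]⟩,
⟨1, [⟨16, 3, []⟩, ⟨32, 3, []⟩, ⟨4, 3, []⟩, ⟨2, 4, []⟩, ⟨64, 4, []⟩], [3, 3, 12, 20], 2, [(50, 1), (70, 1), (112, 1), (118, 2)]⟩,
⟨1, [⟨48, 4, []⟩, ⟨64, 4, []⟩], [3], 1, [(80, 1), (96, 1)]⟩,
⟨1, [⟨2, 2, []⟩, ⟨1, 4, []⟩, ⟨4, 4, []⟩, ⟨8, 2, []⟩, ⟨64, 4, []⟩], [7, 9, 9, 24], 2, [(7, 1), (69, 1), (72, 1), (79, 2)]⟩,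
⟨1, [⟨1, 3, []⟩, ⟨4, 3, []⟩, ⟨16, 3, []⟩, ⟨8, 4, []⟩, ⟨64, 4, []⟩], [3, 3, 12, 20], 2, [(13, 1), (69, 1), (88, 1), (93, 2)]⟩,
⟨0, [⟨24, 2, []⟩, ⟨32, 2, []⟩], [3, 3, 3], 1, [(40, 1), (48, 1)]⟩,
⟨1, [⟨8, 3, []⟩, ⟨64, 5, []⟩], [1, 1], 1, [(72, 1)]⟩,
⟨1, [⟨5, 2, []⟩, ⟨2, 3, []⟩, ⟨8, 3, []⟩, ⟨32, 4, []⟩, ⟨64, 4, []⟩], [13, 3, 3, 20], 2, [(35, 1), (38, 1), (66, 1), (104, 1), (107, 2), (110, 2)]⟩,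
⟨1, [⟨2, 2, []⟩, ⟨1, 3, []⟩, ⟨8, 3, []⟩, ⟨32, 4, []⟩, ⟨64, 4, []⟩], [13, 3, 3, 20], 2, [(35, 1), (65, 1), (104, 1), (107, 2)]⟩,
⟨1, [⟨2, 3, []⟩, ⟨4, 3, []⟩, ⟨32, 3, []⟩, ⟨16, 2, []⟩, ⟨64, 4, []⟩], [11, 11, 12, 20], 2, [(22, 1), (70, 1), (96, 1), (118, 2)]⟩,
⟨1, [⟨1, 3, []⟩, ⟨2, 3, []⟩, ⟨0, 0, [(40, 3)]⟩, ⟨64, 3, []⟩], [3, 3, 4, 4, 8, 8], 2, [(43, 1), (67, 1), (104, 1), (107, 2)]⟩,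
⟨1, [⟨4, 2, []⟩, ⟨1, 3, []⟩, ⟨8, 3, []⟩, ⟨16, 4, []⟩, ⟨64, 4, []⟩], [13, 3, 3, 20], 2, [(21, 1), (65, 1), (88, 1), (93, 2)]⟩,
⟨0, [⟨24, 2, []⟩, ⟨96, 2, []⟩], [3, 3, 3], 1, [(40, 1), (48, 1), (72, 1), (80, 1)]⟩,
⟨0, [⟨4, 2, []⟩, ⟨10, 2, []⟩], [3, 3, 3], 1, [(6, 1), (12, 1)]⟩,
⟨1, [⟨16, 3, []⟩, ⟨32, 3, []⟩, ⟨1, 3, []⟩, ⟨4, 2, []⟩, ⟨64, 4, []⟩], [11, 11, 12, 20], 2, [(52, 1), (65, 1), (112, 1), (117, 2)]⟩,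
⟨1, [⟨8, 3, []⟩, ⟨16, 3, []⟩, ⟨1, 3, []⟩, ⟨2, 4, []⟩, ⟨64, 4, []⟩], [3, 3, 12, 20], 2, [(26, 1), (67, 1), (88, 1), (91, 2)]⟩,
⟨1, [⟨8, 4, []⟩, ⟨16, 4, []⟩, ⟨1, 2, []⟩, ⟨2, 3, []⟩, ⟨64, 4, []⟩], [7, 12, 12, 16], 2, [(27, 1), (66, 1), (88, 1), (91, 2)]⟩,
⟨1, [⟨2, 3, []⟩, ⟨4, 3, []⟩, ⟨32, 3, []⟩, ⟨8, 4, []⟩, ⟨64, 4, []⟩], [3, 3, 12, 20], 2, [(14, 1), (70, 1), (104, 1), (110, 2)]⟩,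
⟨1, [⟨32, 4, []⟩, ⟨64, 4, []⟩], [3], 1, [(96, 1)]⟩,
⟨1, [⟨1, 2, []⟩, ⟨2, 2, []⟩, ⟨4, 3, []⟩, ⟨8, 3, []⟩, ⟨64, 4, []⟩], [7, 7, 9, 26], 2, [(5, 1), (70, 1), (72, 1), (79, 2)]⟩,
⟨1, [⟨8, 3, []⟩, ⟨32, 3, []⟩, ⟨4, 3, []⟩, ⟨1, 2, []⟩, ⟨64, 4, []⟩], [11, 11, 12, 20], 2, [(41, 1), (68, 1), (104, 1), (109, 2)]⟩,
⟨1, [⟨4, 2, []⟩, ⟨8, 3, []⟩, ⟨16, 4, []⟩, ⟨32, 3, []⟩, ⟨64, 4, []⟩], [3, 9, 17, 14], 2, [(56, 1), (68, 1), (88, 1), (112, 1), (124, 2)]⟩,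
⟨1, [⟨8, 3, []⟩, ⟨16, 3, []⟩, ⟨2, 3, []⟩, ⟨1, 4, []⟩, ⟨64, 4, []⟩], [3, 3, 12, 20], 2, [(25, 1), (67, 1), (88, 1), (91, 2)]⟩,
⟨1, [⟨1, 3, []⟩, ⟨4, 3, []⟩, ⟨32, 3, []⟩, ⟨16, 2, []⟩, ⟨64, 4, []⟩], [11, 11, 12, 20], 2, [(21, 1), (69, 1), (96, 1), (117, 2)]⟩,
⟨1, [⟨16, 3, []⟩, ⟨32, 3, []⟩, ⟨2, 3, []⟩, ⟨1, 2, []⟩, ⟨64, 4, []⟩], [11, 11, 12, 20], 2, [(49, 1), (66, 1), (112, 1), (115, 2)]⟩,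
⟨1, [⟨8, 3, []⟩, ⟨32, 3, []⟩, ⟨4, 3, []⟩, ⟨1, 4, []⟩, ⟨64, 4, []⟩], [3, 3, 12, 20], 2, [(41, 1), (69, 1), (104, 1), (109, 2)]⟩,
⟨0, [⟨1, 2, []⟩, ⟨36, 2, []⟩], [3, 3, 3], 1, [(5, 1), (33, 1)]⟩,
⟨1, [⟨8, 2, []⟩, ⟨1, 3, []⟩, ⟨2, 4, []⟩, ⟨4, 3, []⟩, ⟨64, 4, []⟩], [3, 9, 17, 14], 2, [(7, 1), (67, 1), (70, 1), (72, 1), (79, 2)]⟩,
⟨0, [⟨5, 2, []⟩, ⟨2, 2, []⟩], [3, 3, 3], 1, [(3, 1), (6, 1)]⟩,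
⟨1, [⟨16, 3, []⟩, ⟨32, 3, []⟩, ⟨2, 3, []⟩, ⟨1, 4, []⟩, ⟨64, 4, []⟩], [3, 3, 12, 20], 2, [(49, 1), (67, 1), (112, 1), (115, 2)]⟩,
⟨1, [⟨1, 2, []⟩, ⟨2, 3, []⟩, ⟨4, 2, []⟩, ⟨8, 3, []⟩, ⟨64, 4, []⟩], [7, 7, 13, 24], 2, [(7, 1), (66, 1), (72, 1), (79, 2)]⟩,
⟨1, [⟨1, 4, []⟩, ⟨4, 4, []⟩, ⟨8, 4, []⟩, ⟨32, 4, []⟩, ⟨64, 3, []⟩], [3, 12, 16, 16], 2, [(45, 1), (69, 1), (104, 1), (109, 2)]⟩,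
⟨1, [⟨8, 3, []⟩, ⟨16, 3, []⟩, ⟨4, 3, []⟩, ⟨2, 2, []⟩, ⟨64, 4, []⟩], [11, 11, 12, 20], 2, [(26, 1), (68, 1), (88, 1), (94, 2)]⟩,
⟨1, [⟨8, 2, []⟩, ⟨32, 3, []⟩, ⟨16, 2, []⟩, ⟨2, 3, []⟩, ⟨64, 4, []⟩], [7, 7, 13, 24], 2, [(56, 1), (66, 1), (96, 1), (122, 2)]⟩,
⟨1, [⟨8, 3, []⟩, ⟨32, 3, []⟩, ⟨2, 3, []⟩, ⟨4, 4, []⟩, ⟨64, 4, []⟩], [3, 3, 12, 20], 2, [(44, 1), (70, 1), (104, 1), (110, 2)]⟩,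
⟨0, [⟨1, 2, []⟩, ⟨12, 2, []⟩], [3, 3, 3], 1, [(5, 1), (9, 1)]⟩,
⟨1, [⟨1, 2, []⟩, ⟨2, 3, []⟩, ⟨4, 2, []⟩, ⟨32, 3, []⟩, ⟨64, 4, []⟩], [7, 7, 13, 24], 2, [(7, 1), (66, 1), (96, 1), (103, 2)]⟩,
⟨1, [⟨1, 2, []⟩, ⟨4, 3, []⟩, ⟨2, 2, []⟩, ⟨8, 3, []⟩, ⟨64, 4, []⟩], [7, 7, 13, 24], 2, [(7, 1), (68, 1), (72, 1), (79, 2)]⟩,
⟨1, [⟨1, 3, []⟩, ⟨2, 3, []⟩, ⟨8, 3, []⟩, ⟨32, 3, []⟩, ⟨64, 5, []⟩], [3, 3, 12, 12], 2, [(67, 1), (104, 1), (107, 2)]⟩,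
⟨1, [⟨1, 3, []⟩, ⟨2, 3, []⟩, ⟨8, 3, []⟩, ⟨32, 4, []⟩, ⟨64, 4, []⟩], [3, 3, 12, 20], 2, [(35, 1), (67, 1), (104, 1), (107, 2)]⟩,
⟨0, [⟨2, 2, []⟩, ⟨40, 2, []⟩], [3, 3, 3], 1, [(10, 1), (34, 1)]⟩,
⟨1, [⟨1, 2, []⟩, ⟨4, 2, []⟩, ⟨2, 3, []⟩, ⟨16, 3, []⟩, ⟨64, 4, []⟩], [7, 7, 9, 26], 2, [(3, 1), (70, 1), (80, 1), (87, 2)]⟩,
⟨1, [⟨8, 3, []⟩, ⟨16, 3, []⟩, ⟨1, 3, []⟩, ⟨2, 2, []⟩, ⟨64, 4, []⟩], [11, 11, 12, 20], 2, [(26, 1), (65, 1), (88, 1), (91, 2)]⟩,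
⟨1, [⟨2, 3, []⟩, ⟨4, 3, []⟩, ⟨8, 3, []⟩, ⟨32, 3, []⟩, ⟨64, 3, []⟩], [3, 3, 28, 28], 2, [(6, 1), (104, 1), (110, 2)]⟩,
⟨1, [⟨2, 2, []⟩, ⟨4, 3, []⟩, ⟨16, 3, []⟩, ⟨8, 4, []⟩, ⟨64, 4, []⟩], [13, 3, 3, 20], 2, [(14, 1), (68, 1), (88, 1), (94, 2)]⟩,
⟨1, [⟨32, 2, []⟩, ⟨8, 3, []⟩, ⟨2, 3, []⟩, ⟨1, 4, []⟩, ⟨64, 4, []⟩], [13, 3, 3, 20], 2, [(41, 1), (67, 1), (72, 1), (107, 2)]⟩,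
⟨1, [⟨4, 2, []⟩, ⟨8, 3, []⟩, ⟨32, 4, []⟩, ⟨16, 3, []⟩, ⟨64, 4, []⟩], [3, 9, 17, 14], 2, [(56, 1), (68, 1), (104, 1), (112, 1), (124, 2)]⟩,
⟨0, [⟨4, 2, []⟩, ⟨65, 2, []⟩], [3, 3, 3], 1, [(5, 1), (68, 1)]⟩,
⟨0, [⟨4, 2, []⟩, ⟨48, 2, []⟩], [3, 3, 3], 1, [(20, 1), (36, 1)]⟩,
⟨0, [⟨8, 2, []⟩, ⟨80, 2, []⟩], [3, 3, 3], 1, [(24, 1), (72, 1)]⟩,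
⟨1, [⟨5, 3, []⟩, ⟨64, 5, []⟩], [1, 1], 1, [(65, 1), (68, 1)]⟩,
⟨0, [⟨16, 2, []⟩, ⟨3, 2, []⟩], [3, 3, 3], 1, [(17, 1), (18, 1)]⟩,
⟨1, [⟨1, 3, []⟩, ⟨4, 3, []⟩, ⟨8, 3, []⟩, ⟨32, 3, []⟩, ⟨64, 5, []⟩], [3, 3, 12, 12], 2, [(69, 1), (104, 1), (109, 2)]⟩]

theorem base_ok : base.all (fun q => q.ok 7 2 [7, 56] [9, 2000, 2000, 2000] big4 []) = true := by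
  decide +kernel

theorem gv_ok : gv.all (fun c => c.ok 1 8) = true := by decide +kernel

theorem gads_ok : gads.all (fun g => g.okV 7 2 [0, 6]) = true := by decide +kernel

theorem cmp_ok : cmpR names cnf (clsu 2 base ++ (gv.map Gv.cl ++ gads.map Gt.cl)) = true := by
  decide +kernel

end DG00

theorem instl_00 : instL 1 2 [0, 6] [] 9 8 DG00.base DG00.gv DG00.gads DG00.names DG00.cnf DG00.db DG00.prf = true :=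
  instL_of DG00.base_ok DG00.gv_ok DG00.gads_ok (by decide +kernel) DG00.okc DG00.cmp_ok DG00.chk_ok

/-- there is no configuration of this instance. -/
theorem nol_00 {V : Type v} [DecidableEq V] {ι : Type u} [Fintype ι] {B : ι → Finset V}
    {Q : Finset V} {x : ℕ → V} {C : ℕ → Finset V}
    (h : CfL B Q 1 2 x C [0, 6] [] 9 8) : False :=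
  h.absurd instl_00

end Pool.Agent.Hyp6
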