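import Pool.Agent.Hyp6.CfLO
import Pool.Agent.Hyp6.InsG.F01

/-!
# HYP6: leaf instance 1: n = 1, r = 2, bounds [2, 4], inner blocks []

690 base clauses, 24 given clauses, 337 gadgets, 905 learned clauses.
-/

set_option autoImplicit false
set_option maxRecDepth 100000

namespace Pool.Agent.Hyp6

open Rup

universe u v

namespace DG01

noncomputable def base : List Ru := [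
.rs (.mono 0 34 38 1),
.rs (.part [8, 119] [0, 1] [] []),
.rs (.part [21, 106] [1, 0] [] []),
.rs (.srt 0 5 0 4 1),
.rs (.join 1 1 3 3 2 2 [(0, 1)]),
.rs (.join 0 14 6 4 4 1 [(1, 0), (2, 0), (3, 1)]),
.rs (.lip 0 6 46 56),
.rs (.part [12, 98] [0, 0] [] [(1, 17)]),
.rs (.join 1 4 5 5 4 3 [(2, 2)]),
.rs (.join 1 8 4 3 1 2 [(3, 0)]),
.rs (.join 0 2 4 4 2 2 [(1, 0)]),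
.rs (.part [9, 82] [0, 0] [] [(0, 36)]),
.rs (.lipl 1 49 61 1 12),
.rs (.ab2 0 12),
.rs (.join 0 48 6 4 3 1 [(4, 0), (5, 0)]),
.rs (.part [66, 5] [0, 0] [56] []),
.rs (.join 1 2 4 3 2 1 [(1, 0)]),
.rs (.lip 0 7 31 56),
.rs (.l2 1 34 36 5 2 2),
.rs (.join 0 2 6 2 2 0 [(1, 0)]),
.rs (.l2 1 9 10 3 1 2),
.rs (.ab2 1 3),
.rs (.slot 0 [(0, 3), (1, 2), (2, 2), (3, 2), (4, 1), (6, 1)]),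
.rs (.join 0 16 5 2 1 1 [(4, 0)]),
.rs (.join 1 2 4 4 3 2 [(1, 1)]),
.rs (.mono 0 4 5 1),
.rs (.lipl 1 44 110 0 66),
.rs (.join 1 8 5 5 2 3 [(3, 0)]),
.rs (.l2 1 6 18 1 2 2),
.rs (.join 1 4 4 4 1 3 [(2, 0)]),
.rs (.part [43, 84] [1, 0] [] []),
.rs (.part [20, 107] [0, 1] [] []),
.rs (.deg 1 [1, 2]),
.rs (.mono 1 3 35 1),
.rs (.join 1 4 5 5 3 4 [(2, 2)]),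
.rs (.le 0 48 32 5 2),
.rs (.part [9, 100] [0, 0] [] [(1, 18)]),
.rs (.join 0 1 5 4 4 0 [(0, 0)]),
.rs (.hall [0] [0, 1, 2]),
.rs (.deg 0 [2, 1]),
.degU 2 [(0, 1), (1, 4)],
.rs (.part [4, 67] [0, 0] [56] []),
.rs (.join 1 4 3 4 4 2 [(2, 2)]),
.rs (.join 1 2 4 3 2 2 [(1, 1)]),
.rs (.join 0 6 4 4 2 2 [(1, 0), (2, 0)]),
.rs (.part [17, 100] [0, 0] [] [(0, 10)]),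
.rs (.mono 1 72 73 1),
.rs (.join 1 4 5 4 2 3 [(2, 1)]),
.rs (.l2 1 9 12 3 2 1),
.rs (.join 0 22 6 4 4 1 [(1, 0), (2, 1), (4, 0)]),
.rs (.part [10, 97] [0, 0] [] [(0, 20)]),
.rs (.lipl 0 14 47 1 33),
.rs (.join 0 49 6 4 4 1 [(0, 0), (4, 1), (5, 0)]),
.degU 1 [(0, 1), (1, 4)],
.rs (.lipl 0 72 89 0 17),
.rs (.join 0 8 5 3 2 1 [(3, 0)]),
.rs (.join 0 5 6 4 3 1 [(0, 0), (2, 0)]),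
.rs (.mono 0 32 36 1),
.rs (.part [12, 97] [0, 0] [] [(1, 18)]),
.rs (.mono 0 64 72 1),
.rs (.part [61, 66] [1, 0] [] []),
.rs (.part [18, 97] [0, 0] [] [(1, 12)]),
.rs (.part [47, 80] [1, 0] [] []),
.rs (.join 1 1 4 4 1 3 [(0, 0)]),
.rs (.ab2 1 40),
.rs (.join 1 16 5 4 2 3 [(4, 1)]),
.rs (.l2 1 20 36 2 2 2),
.rs (.slot 0 [(3, 2), (4, 2), (5, 2), (0, 3), (1, 1), (6, 1)]),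
.rs (.join 0 18 6 3 2 1 [(1, 0), (4, 0)]),
.rs (.ab2 0 65),
.rs (.lipl 1 14 94 0 80),
.rs (.ab2 0 48),
.rs (.srt 0 1 0 0 4),
.rs (.join 1 2 3 4 3 1 [(1, 0)]),
.rs (.join 1 4 4 5 1 4 [(2, 0)]),
.rs (.slot 0 [(1, 1), (2, 1), (0, 2), (3, 2), (4, 2), (5, 2), (6, 1)]),
.rs (.part [9, 98] [0, 0] [] [(0, 20)]),
.rs (.le 0 96 64 6 2),
.rs (.lipl 1 44 62 1 18),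
.rs (.ab2 1 5),
.rs (.join 1 1 2 5 2 3 [(0, 0)]),
.rs (.part [6, 65] [0, 0] [56] []),
.rs (.part [89, 38] [1, 0] [] []),
.rs (.l2 1 33 36 5 1 2),
.rs (.join 1 4 3 5 3 2 [(2, 0)]),
.rs (.le 1 3 1 0 3),
.rs (.mono 0 4 20 1),
.rs (.le 0 12 4 2 1),
.rs (.mono 1 96 97 1),
.rs (.le 1 34 2 1 3),
.rs (.deg 3 [2, 1]),
.rs (.lipl 1 22 55 1 33),
.rs (.le 0 6 4 2 2),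
.rs (.lip 0 32 37 7),
.rs (.ab2 0 9),
.rs (.part [12, 82] [0, 0] [] [(0, 33)]),
.rs (.join 0 18 5 4 3 1 [(1, 0), (4, 0)]),
.degU 3 [(0, 2), (1, 3)],
.rs (.join 1 1 1 3 0 3 [(0, 0)]),
.rs (.lip 1 67 123 56),
.rs (.ab 0 2),
.rs (.join 0 16 6 3 2 1 [(4, 0)]),
.rs (.join 0 18 5 3 3 1 [(1, 0), (4, 1)]),
.rs (.join 0 4 4 3 1 2 [(2, 0)]),
.rs (.part [6, 121] [0, 1] [] []),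
.rs (.part [37, 90] [1, 0] [] []),
.rs (.join 1 1 5 4 2 4 [(0, 2)]),
.rs (.le 0 72 64 6 1),
.rs (.mono 0 64 68 1),
.rs (.join 1 16 5 5 3 3 [(4, 1)]),
.rs (.lipl 1 38 118 1 80),
.rs (.part [17, 76] [0, 0] [] [(0, 34)]),
.rs (.deg 0 [3, 0]),
.rs (.l2 0 68 72 6 1 1),
.rs (.join 1 16 6 5 3 4 [(4, 2)]),
.rs (.join 0 14 6 4 4 1 [(1, 0), (2, 1), (3, 0)]),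
.rs (.lipl 1 28 62 1 34),
.rs (.ordE 1 2 2),
.rs (.join 0 2 6 2 1 1 [(1, 0)]),
.rs (.part [38, 89] [1, 0] [] []),
.rs (.part [120, 7] [1, 0] [] []),
.rs (.part [17, 110] [0, 1] [] []),
.rs (.l2 0 6 68 2 1 1),
.rs (.le 1 12 8 3 3),
.rs (.join 0 5 5 4 3 1 [(0, 0), (2, 0)]),
.rs (.l2 1 10 24 3 1 2),
.rs (.join 0 2 2 2 2 2 [(1, 2)]),
.rs (.ab2 1 24),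
.rs (.l2 1 33 36 5 1 3),
.rs (.hall [0] [1, 2, 6]),
.rs (.ab 0 1),
.rs (.join 1 8 4 4 2 3 [(3, 1)]),
.rs (.join 0 2 4 3 1 2 [(1, 0)]),
.rs (.join 0 6 4 3 2 1 [(1, 0), (2, 0)]),
.rs (.srt 0 2 0 1 1),
.rs (.mono 1 80 84 1),
.rs (.l2 1 33 36 5 2 2),
.rs (.part [2, 125] [0, 1] [] []),
.rs (.srt 0 3 0 0 2),
.rs (.l2 1 10 18 1 1 2),
.rs (.srt 0 3 0 0 3),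
.rs (.lipl 0 80 89 0 9),
.rs (.mono 1 72 76 1),
.rs (.slot 0 [(0, 3), (1, 1), (2, 1), (3, 4), (4, 1), (5, 1)]),
.rs (.l2 1 34 48 5 2 2),
.rs (.join 1 1 5 4 2 3 [(0, 1)]),
.rs (.join 1 2 4 5 4 2 [(1, 1)]),
.rs (.l2 1 34 36 5 1 2),
.rs (.lipl 1 50 118 0 68),
.rs (.l2 0 66 72 6 1 1),
.rs (.join 1 8 5 5 3 3 [(3, 1)]),
.rs (.join 1 4 4 4 4 2 [(2, 2)]),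
.rs (.mono 0 18 50 1),
.rs (.l2 1 6 18 1 2 1),
.rs (.slot 0 [(3, 2), (4, 2), (5, 2), (1, 2), (0, 3)]),
.rs (.slot 0 [(4, 1), (5, 1), (3, 2), (0, 2), (1, 2), (2, 2), (6, 1)]),
.rs (.lip 0 2 42 56),
.rs (.join 1 4 5 4 3 3 [(2, 2)]),
.rs (.join 1 2 4 4 1 3 [(1, 0)]),
.rs (.part [19, 108] [1, 0] [] []),
.rs (.ordE 0 4 1),
.rs (.lip 0 17 81 64),
.rs (.l2 0 65 96 6 1 1),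
.rs (.deg 4 [1, 2]),
.rs (.join 1 2 4 5 2 3 [(1, 0)]),
.rs (.slot 0 [(0, 3), (1, 2), (2, 2), (3, 2), (4, 1), (5, 1)]),
.rs (.join 0 14 6 4 4 1 [(1, 1), (2, 0), (3, 0)]),
.rs (.join 1 2 4 5 3 3 [(1, 1)]),
.rs (.join 1 4 3 5 4 2 [(2, 1)]),
.rs (.l2 1 12 24 3 1 2),
.rs (.join 1 2 5 5 2 4 [(1, 1)]),
.rs (.ab2 0 24),
.rs (.part [33, 84] [0, 0] [] [(1, 10)]),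
.rs (.deg 2 [1, 2]),
.rs (.part [10, 100] [0, 0] [] [(1, 17)]),
.rs (.ab2 0 33),
.rs (.part [69, 58] [1, 0] [] []),
.rs (.le 0 20 4 2 1),
.rs (.join 1 1 1 3 2 2 [(0, 1)]),
.degU 2 [(0, 2), (1, 3)],
.rs (.part [10, 84] [0, 0] [] [(0, 33)]),
.rs (.l2 0 68 96 6 1 1),
.rs (.part [40, 80] [0, 0] [7] []),
.rs (.l2 1 18 34 1 2 1),
.rs (.srt 0 5 0 4 2),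
.rs (.lip 0 3 51 56),
.rs (.join 0 2 2 2 2 0 [(1, 0)]),
.rs (.ab 0 0),
.rs (.part [35, 92] [1, 0] [] []),
.rs (.part [9, 100] [0, 0] [] [(0, 18)]),
.rs (.un 1 0),
.rs (.part [3, 124] [0, 1] [] []),
.rs (.l2 0 6 18 1 1 1),
.rs (.part [50, 77] [1, 0] [] []),
.rs (.join 1 2 2 5 3 3 [(1, 1)]),
.rs (.lip 0 64 120 56),
.rs (.join 0 2 4 3 2 1 [(1, 0)]),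
.rs (.join 0 16 6 2 1 1 [(4, 0)]),
.rs (.join 1 4 3 4 3 1 [(2, 0)]),
.rs (.mono 1 3 19 1),
.rs (.join 1 2 5 3 2 3 [(1, 2)]),
.rs (.deg 1 [3, 0]),
.rs (.join 0 1 6 2 2 0 [(0, 0)]),
.rs (.ordE 0 2 1),
.rs (.deg 3 [1, 2]),
.rs (.l2 1 12 72 3 1 2),
.rs (.ab2 0 18),
.rs (.join 1 2 5 5 3 2 [(1, 0)]),
.rs (.le 0 68 64 6 2),
.rs (.lip 0 3 27 56),
.rs (.l2 1 12 40 3 2 1),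
.rs (.lipl 1 88 124 1 36),
.rs (.join 0 1 1 4 3 1 [(0, 0)]),
.rs (.join 0 8 5 2 2 0 [(3, 0)]),
.degU 5 [(0, 2), (1, 3)],
.rs (.join 0 8 4 4 2 2 [(3, 0)]),
.rs (.join 1 4 5 5 4 2 [(2, 1)]),
.rs (.deg 5 [1, 2]),
.rs (.lip 0 5 53 56),
.rs (.l2 0 68 80 6 1 1),
.rs (.un 0 5),
.rs (.lipl 0 66 83 1 17),
.degU 5 [(1, 5)],
.rs (.l2 1 18 20 4 2 1),
.rs (.join 0 1 2 4 3 1 [(0, 0)]),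
.rs (.le 1 33 1 0 2),
.rs (.part [9, 98] [0, 0] [] [(1, 20)]),
.rs (.ab 0 3),
.rs (.join 1 1 4 4 2 2 [(0, 0)]),
.rs (.join 0 49 6 4 4 1 [(0, 0), (4, 0), (5, 1)]),
.rs (.part [17, 74] [0, 0] [] [(1, 36)]),
.rs (.mono 0 64 65 1),
.rs (.mono 0 32 34 1),
.rs (.mono 1 66 82 1),
.rs (.join 1 2 4 4 2 3 [(1, 1)]),
.rs (.le 1 3 1 0 1),
.rs (.l2 0 66 80 6 1 1),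
.rs (.srt 0 4 0 3 3),
.rs (.join 0 16 6 2 2 0 [(4, 0)]),
.degU 3 [(0, 5)],
.rs (.part [18, 76] [0, 0] [] [(1, 33)]),
.rs (.l2 0 80 96 6 1 1),
.rs (.part [68, 3] [0, 0] [56] []),
.rs (.le 0 34 32 5 1),
.rs (.le 0 80 64 6 1),
.rs (.srt 0 2 0 1 2),
.rs (.l2 1 18 24 4 2 2),
.rs (.part [17, 100] [0, 0] [] [(1, 10)]),
.rs (.ab2 0 80),
.rs (.join 0 8 5 3 3 0 [(3, 0)]),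
.rs (.part [40, 87] [0, 1] [] []),
.rs (.le 0 66 64 6 1),
.rs (.join 1 16 5 4 3 3 [(4, 2)]),
.rs (.ab 0 5),
.rs (.le 0 65 64 6 2),
.rs (.slot 0 [(3, 2), (4, 2), (5, 1), (0, 3), (1, 2), (2, 1)]),
.rs (.part [34, 81] [0, 0] [] [(1, 12)]),
.rs (.slot 0 [(5, 1), (3, 2), (4, 2), (0, 2), (1, 2), (2, 2)]),
.rs (.join 1 8 4 4 3 3 [(3, 2)]),
.rs (.part [97, 30] [1, 0] [] []),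
.rs (.ordE 1 4 2),
.rs (.join 0 1 4 4 4 1 [(0, 1)]),
.rs (.slot 0 [(3, 2), (5, 2), (4, 3), (0, 3), (1, 1)]),
.rs (.join 1 8 5 4 2 3 [(3, 1)]),
.rs (.join 1 16 6 5 1 4 [(4, 0)]),
.rs (.slot 0 [(4, 2), (5, 2), (3, 3), (0, 3), (1, 1)]),
.rs (.join 0 1 3 4 2 2 [(0, 0)]),
.rs (.lipl 1 104 121 1 17),
.rs (.ordE 0 32 1),
.rs (.join 1 1 1 3 2 3 [(0, 2)]),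
.rs (.join 1 2 5 5 3 3 [(1, 1)]),
.rs (.part [66, 61] [0, 1] [] []),
.rs (.mono 1 65 97 1),
.rs (.join 0 4 6 2 1 1 [(2, 0)]),
.rs (.join 1 1 5 4 2 2 [(0, 0)]),
.rs (.part [24, 103] [0, 1] [] []),
.rs (.l2 0 34 66 1 1 1),
.rs (.part [27, 100] [1, 0] [] []),
.rs (.part [41, 86] [1, 0] [] []),
.rs (.part [12, 81] [0, 0] [] [(0, 34)]),
.rs (.l2 1 17 33 0 2 1),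
.rs (.join 1 2 4 5 3 2 [(1, 0)]),
.rs (.part [48, 72] [0, 0] [7] []),
.rs (.l2 1 18 20 4 1 2),
.rs (.lip 0 32 38 7),
.rs (.deg 6 [0, 4]),
.degU 1 [(0, 3), (1, 2)],
.rs (.part [17, 98] [0, 0] [] [(0, 12)]),
.rs (.le 1 5 1 0 1),
.degU 0 [(0, 5)],
.rs (.part [12, 98] [0, 0] [] [(0, 17)]),
.rs (.join 0 2 4 2 1 1 [(1, 0)]),
.rs (.part [10, 100] [0, 0] [] [(0, 17)]),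
.rs (.l2 1 12 20 2 1 1),
.rs (.l2 1 17 18 4 1 2),
.rs (.join 0 2 5 2 1 1 [(1, 0)]),
.rs (.join 1 4 4 4 2 2 [(2, 0)]),
.rs (.mono 1 80 82 1),
.rs (.join 0 1 1 4 2 2 [(0, 0)]),
.rs (.join 1 8 4 5 3 3 [(3, 1)]),
.rs (.join 1 32 6 5 3 4 [(5, 2)]),
.rs (.part [83, 44] [1, 0] [] []),
.rs (.l2 1 3 5 0 1 1),
.rs (.lipl 0 49 61 1 12),
.rs (.part [3, 68] [0, 0] [56] []),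
.rs (.le 0 6 2 1 3),
.rs (.le 0 33 32 5 1),
.rs (.join 1 1 5 4 1 3 [(0, 0)]),
.rs (.ab2 0 68),
.rs (.l2 1 34 36 5 1 3),
.rs (.join 1 8 4 4 1 3 [(3, 0)]),
.rs (.slot 0 [(3, 3), (4, 1), (0, 3), (1, 2), (2, 1), (6, 1)]),
.degU 0 [(0, 2), (1, 3)],
.rs (.lipl 1 49 115 0 66),
.rs (.srt 0 3 0 0 4),
.rs (.part [5, 122] [0, 1] [] []),
.rs (.deg 2 [2, 1]),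
.rs (.join 1 4 3 4 3 2 [(2, 1)]),
.rs (.l2 0 20 68 2 1 1),
.rs (.ordE 0 16 1),
.degU 4 [(0, 2), (1, 3)],
.rs (.join 1 8 4 3 2 2 [(3, 1)]),
.rs (.l2 1 12 20 2 1 2),
.rs (.lipl 0 22 31 0 9),
.rs (.l2 1 18 34 1 1 2),
.degU 4 [(0, 1), (1, 4)],
.rs (.l2 1 3 33 0 1 1),
.rs (.lipl 1 14 110 0 96),
.rs (.step 1 0 122 [58, 90, 106, 114, 120] []),
.rs (.join 1 8 4 4 2 2 [(3, 0)]),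
.rs (.join 1 1 5 4 1 4 [(0, 1)]),
.rs (.lip 0 16 21 7),
.rs (.part [18, 109] [0, 1] [] []),
.rs (.l2 0 48 80 4 1 1),
.rs (.join 0 16 5 2 2 1 [(4, 1)]),
.rs (.part [33, 82] [0, 0] [] [(0, 12)]),
.rs (.lip 0 16 22 7),
.rs (.part [29, 98] [1, 0] [] []),
.rs (.lip 0 1 41 56),
.rs (.part [5, 66] [0, 0] [56] []),
.rs (.part [48, 79] [0, 1] [] []),
.degU 0 [(0, 3), (1, 2)],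
.rs (.mono 0 64 80 1),
.rs (.deg 4 [3, 0]),
.rs (.l2 1 18 20 4 2 2),
.rs (.part [34, 93] [0, 1] [] []),
.rs (.le 0 65 64 6 1),
.rs (.slot 0 [(1, 2), (2, 2), (0, 3), (3, 3), (6, 1)]),
.rs (.slot 0 [(0, 3), (1, 2), (3, 3), (4, 1), (5, 1), (6, 1)]),
.rs (.part [9, 84] [0, 0] [] [(0, 34)]),
.rs (.part [20, 98] [0, 0] [] [(0, 9)]),
.rs (.join 1 4 4 4 3 2 [(2, 1)]),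
.rs (.hall [1] [0, 1, 2]),
.rs (.part [33, 76] [0, 0] [] [(0, 18)]),
.rs (.join 1 4 4 4 2 3 [(2, 1)]),
.rs (.l2 1 3 5 0 1 2),
.rs (.lip 0 64 69 7),
.rs (.part [10, 84] [0, 0] [] [(1, 33)]),
.rs (.srt 0 5 0 4 3),
.rs (.join 1 2 5 4 2 3 [(1, 1)]),
.rs (.slot 0 [(3, 2), (4, 2), (5, 2), (0, 2), (1, 2), (6, 1)]),
.rs (.part [81, 46] [1, 0] [] []),
.rs (.slot 0 [(0, 3), (1, 1), (2, 1), (3, 3), (4, 1), (5, 1), (6, 1)]),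
.rs (.l2 1 20 24 4 2 1),
.rs (.join 1 2 2 5 2 3 [(1, 0)]),
.rs (.join 0 8 5 4 2 2 [(3, 0)]),
.rs (.srt 0 1 0 0 3),
.rs (.l2 1 18 48 4 1 2),
.rs (.lipl 1 52 62 0 10),
.rs (.le 0 6 4 2 1),
.rs (.part [17, 74] [0, 0] [] [(0, 36)]),
.rs (.srt 0 1 0 0 2),
.rs (.join 1 2 3 4 2 2 [(1, 0)]),
.rs (.l2 1 24 48 4 1 2),
.rs (.lipl 1 22 118 0 96),
.rs (.join 1 4 5 5 3 3 [(2, 1)]),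
.rs (.l2 0 65 80 6 1 1),
.rs (.join 1 8 6 5 2 4 [(3, 1)]),
.rs (.join 0 8 4 2 1 1 [(3, 0)]),
.rs (.join 0 16 5 2 2 0 [(4, 0)]),
.rs (.le 0 17 16 4 2),
.rs (.mono 1 112 120 1),
.rs (.mono 1 67 99 1),
.rs (.mono 0 32 48 1),
.rs (.l2 1 20 36 2 1 3),
.rs (.part [9, 118] [0, 1] [] []),
.rs (.part [71, 56] [1, 0] [] []),
.rs (.deg 2 [3, 0]),
.rs (.join 0 20 5 4 3 1 [(2, 0), (4, 0)]),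
.rs (.srt 0 2 0 1 4),
.rs (.mono 0 64 66 1),
.degU 1 [(0, 4), (1, 1)],
.rs (.part [2, 69] [0, 0] [56] []),
.rs (.lipl 1 14 47 1 33),
.rs (.l2 1 3 18 1 2 2),
.rs (.part [75, 52] [1, 0] [] []),
.rs (.l2 0 18 66 1 1 1),
.rs (.ab2 0 5),
.rs (.join 0 1 3 4 3 1 [(0, 0)]),
.rs (.slot 0 [(0, 3), (1, 1), (3, 3), (4, 2), (5, 1), (6, 1)]),
.rs (.slot 0 [(0, 2), (1, 2), (2, 1), (3, 2), (4, 2), (5, 1), (6, 1)]),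
.rs (.part [32, 88] [0, 0] [7] []),
.rs (.lipl 1 35 55 1 20),
.rs (.l2 1 12 36 2 1 3),
.degU 3 [(0, 3), (1, 2)],
.rs (.part [33, 76] [0, 0] [] [(1, 18)]),
.rs (.ab2 0 34),
.rs (.part [53, 74] [1, 0] [] []),
.degU 5 [(0, 1), (1, 4)],
.degU 0 [(0, 4), (1, 1)],
.rs (.deg 3 [3, 0]),
.rs (.join 1 1 2 4 0 4 [(0, 0)]),
.rs (.ab2 0 72),
.rs (.le 0 68 4 2 1),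
.rs (.join 0 2 2 2 1 1 [(1, 0)]),
.rs (.join 1 16 6 5 2 4 [(4, 1)]),
.rs (.lipl 1 49 117 0 68),
.rs (.l2 0 66 96 6 1 1),
.rs (.join 1 2 5 5 2 3 [(1, 0)]),
.rs (.join 1 1 5 5 1 4 [(0, 0)]),
.rs (.l2 1 12 24 3 1 1),
.rs (.mono 0 64 96 1),
.rs (.part [67, 60] [1, 0] [] []),
.rs (.part [33, 84] [0, 0] [] [(0, 10)]),
.rs (.join 0 4 4 2 1 1 [(2, 0)]),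
.rs (.lip 0 1 25 56),
.rs (.lip 0 1 49 56),
.rs (.ab 0 4),
.rs (.ab 1 3),
.rs (.part [9, 82] [0, 0] [] [(1, 36)]),
.rs (.slot 0 [(3, 3), (4, 1), (5, 1), (0, 4), (1, 1), (2, 1)]),
.rs (.join 1 4 3 4 1 3 [(2, 0)]),
.rs (.lip 0 16 19 7),
.rs (.part [24, 96] [0, 0] [7] []),
.rs (.join 0 2 3 4 2 2 [(1, 0)]),
.rs (.ab2 0 17),
.rs (.join 0 50 6 4 3 1 [(1, 0), (4, 0), (5, 0)]),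
.rs (.part [13, 114] [1, 0] [] []),
.rs (.slot 0 [(3, 3), (4, 2), (0, 3), (1, 1), (2, 1), (6, 1)]),
.rs (.join 1 1 2 3 0 4 [(0, 1)]),
.rs (.un 0 6),
.rs (.join 0 2 2 4 3 3 [(1, 2)]),
.rs (.join 1 4 3 3 1 2 [(2, 0)]),
.rs (.slot 0 [(0, 2), (1, 2), (2, 2), (3, 2), (4, 2), (6, 1)]),
.rs (.part [32, 95] [0, 1] [] []),
.rs (.part [10, 97] [0, 0] [] [(1, 20)]),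
.rs (.l2 1 10 12 3 1 1),
.rs (.join 1 1 1 4 1 3 [(0, 0)]),
.rs (.join 1 2 4 4 2 2 [(1, 0)]),
.rs (.join 1 4 4 4 3 3 [(2, 2)]),
.rs (.part [1, 126] [0, 1] [] []),
.rs (.deg 1 [2, 1]),
.rs (.join 1 4 3 5 4 1 [(2, 0)]),
.rs (.slot 0 [(2, 1), (0, 2), (1, 2), (3, 2), (4, 2), (5, 2)]),
.rs (.l2 1 17 24 4 2 2),
.rs (.join 1 4 3 3 2 2 [(2, 1)]),
.rs (.join 0 1 2 3 3 0 [(0, 0)]),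
.rs (.join 1 2 2 4 3 3 [(1, 2)]),
.rs (.part [42, 85] [1, 0] [] []),
.rs (.ab2 0 66),
.rs (.part [14, 113] [1, 0] [] []),
.rs (.l2 1 6 34 1 1 2),
.rs (.lipl 0 66 75 0 9),
.rs (.join 1 2 3 3 2 2 [(1, 1)]),
.rs (.hall [0] [4, 5, 6]),
.rs (.ab2 0 10),
.rs (.lip 0 8 14 7),
.rs (.part [22, 105] [1, 0] [] []),
.rs (.l2 1 3 33 0 2 1),
.rs (.join 0 50 6 4 4 1 [(1, 0), (4, 0), (5, 1)]),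
.rs (.le 1 33 1 0 3),
.rs (.srt 0 4 0 3 2),
.rs (.lipl 0 38 47 0 9),
.rs (.ab2 0 96),
.rs (.part [16, 111] [0, 1] [] []),
.rs (.deg 5 [2, 1]),
.rs (.l2 0 6 34 1 1 1),
.rs (.part [80, 47] [0, 1] [] []),
.rs (.join 0 17 5 4 3 1 [(0, 0), (4, 0)]),
.rs (.ab2 1 6),
.rs (.part [12, 97] [0, 0] [] [(0, 18)]),
.rs (.join 0 48 6 3 2 1 [(4, 0), (5, 0)]),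
.rs (.join 1 16 5 5 2 3 [(4, 0)]),
.rs (.join 0 50 6 4 4 1 [(1, 0), (4, 1), (5, 0)]),
.rs (.part [12, 115] [0, 1] [] []),
.rs (.mono 0 4 68 1),
.rs (.l2 1 24 40 3 1 1),
.rs (.lip 0 8 13 7),
.rs (.l2 1 17 33 0 1 2),
.degU 1 [(0, 2), (1, 3)],
.rs (.part [96, 24] [0, 0] [7] []),
.rs (.join 0 4 4 2 0 2 [(2, 0)]),
.rs (.join 0 17 6 3 3 0 [(0, 0), (4, 0)]),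
.rs (.lipl 1 38 118 0 80),
.rs (.l2 1 20 80 4 1 2),
.rs (.le 0 48 32 5 1),
.rs (.ordE 0 8 3),
.rs (.join 0 1 4 3 2 1 [(0, 0)]),
.rs (.join 0 2 6 2 2 1 [(1, 1)]),
.rs (.join 1 4 5 5 3 2 [(2, 0)]),
.rs (.lipl 1 28 61 1 33),
.rs (.le 0 80 64 6 2),
.rs (.part [65, 6] [0, 0] [56] []),
.rs (.le 0 40 32 5 1),
.rs (.join 1 2 2 5 3 2 [(1, 0)]),
.rs (.join 0 4 3 3 1 2 [(2, 0)]),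
.rs (.slot 0 [(1, 3), (0, 2), (2, 2), (3, 2), (4, 2)]),
.rs (.part [112, 8] [0, 0] [7] []),
.rs (.join 1 4 5 5 2 4 [(2, 1)]),
.rs (.join 1 1 2 4 2 3 [(0, 1)]),
.rs (.le 1 20 16 4 3),
.rs (.srt 0 1 0 0 1),
.rs (.slot 0 [(3, 2), (4, 3), (5, 3), (0, 2), (6, 1)]),
.rs (.part [34, 84] [0, 0] [] [(0, 9)]),
.rs (.part [65, 62] [0, 1] [] []),
.rs (.lip 0 3 43 56),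
.rs (.l2 0 20 36 2 1 1),
.rs (.ab2 1 48),
.rs (.slot 0 [(0, 3), (1, 2), (2, 2), (3, 2), (4, 2)]),
.rs (.part [18, 76] [0, 0] [] [(0, 33)]),
.rs (.l2 1 33 34 5 2 2),
.rs (.ordE 0 1 2),
.rs (.part [72, 55] [0, 1] [] []),
.rs (.slot 0 [(3, 3), (4, 2), (5, 2), (0, 2), (1, 2)]),
.rs (.mono 1 67 75 1),
.rs (.join 1 4 5 5 1 4 [(2, 0)]),
.rs (.join 0 6 3 4 2 2 [(1, 0), (2, 0)]),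
.rs (.l2 0 48 96 5 1 1),
.rs (.join 1 1 5 5 2 3 [(0, 0)]),
.rs (.l2 1 10 12 3 2 1),
.rs (.lip 0 48 53 7),
.rs (.srt 0 2 0 1 3),
.rs (.part [31, 96] [1, 0] [] []),
.rs (.join 0 1 5 4 2 2 [(0, 0)]),
.rs (.deg 2 [0, 3]),
.rs (.ab2 0 40),
.rs (.part [80, 40] [0, 0] [7] []),
.rs (.le 1 5 1 0 2),
.rs (.join 0 1 4 4 3 1 [(0, 0)]),
.rs (.join 0 6 6 3 2 1 [(1, 0), (2, 0)]),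
.rs (.part [20, 74] [0, 0] [] [(1, 33)]),
.rs (.l2 0 66 68 6 1 1),
.rs (.join 0 32 6 2 1 1 [(5, 0)]),
.rs (.join 1 4 4 5 3 2 [(2, 0)]),
.rs (.lip 0 33 97 64),
.rs (.ab2 0 3),
.rs (.join 0 2 2 3 2 1 [(1, 0)]),
.rs (.l2 1 3 34 1 2 2),
.rs (.join 1 2 3 5 3 2 [(1, 0)]),
.rs (.lipl 1 35 47 1 12),
.rs (.l2 1 34 36 5 2 3),
.rs (.join 0 4 5 2 1 1 [(2, 0)]),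
.rs (.ordE 0 1 3),
.rs (.deg 5 [0, 3]),
.rs (.lip 0 2 50 56),
.rs (.mono 1 96 98 1),
.rs (.part [45, 82] [1, 0] [] []),
.rs (.slot 0 [(0, 4), (1, 1), (2, 1), (3, 2), (4, 2), (5, 1)]),
.rs (.slot 0 [(0, 3), (1, 1), (2, 1), (3, 2), (4, 2), (5, 1), (6, 1)]),
.rs (.join 0 1 4 4 2 2 [(0, 0)]),
.rs (.join 0 8 4 3 2 1 [(3, 0)]),
.rs (.join 1 4 4 3 2 2 [(2, 1)]),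
.rs (.l2 1 10 12 3 1 2),
.rs (.part [11, 116] [1, 0] [] []),
.rs (.ordE 0 64 2),
.rs (.join 1 2 5 4 2 2 [(1, 0)]),
.rs (.part [12, 82] [0, 0] [] [(1, 33)]),
.rs (.mono 0 4 12 1),
.rs (.le 1 3 1 0 2),
.rs (.join 1 4 5 4 3 2 [(2, 1)]),
.rs (.join 1 1 1 4 2 3 [(0, 1)]),
.rs (.join 0 2 6 3 2 1 [(1, 0)]),
.rs (.part [46, 81] [1, 0] [] []),
.rs (.part [73, 54] [1, 0] [] []),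
.rs (.lip 0 24 27 7),
.rs (.join 1 2 2 4 2 3 [(1, 1)]),
.rs (.part [12, 81] [0, 0] [] [(1, 34)]),
.rs (.join 1 2 3 3 1 2 [(1, 0)]),
.rs (.ordE 0 16 3),
.rs (.join 1 1 1 4 2 2 [(0, 0)]),
.rs (.join 1 8 5 4 1 3 [(3, 0)]),
.rs (.part [49, 78] [1, 0] [] []),
.rs (.part [72, 48] [0, 0] [7] []),
.rs (.part [17, 98] [0, 0] [] [(1, 12)]),
.rs (.join 1 1 1 5 2 3 [(0, 0)]),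
.rs (.ordE 0 32 2),
.rs (.join 0 20 6 3 2 1 [(2, 0), (4, 0)]),
.rs (.lip 0 40 46 7),
.rs (.l2 0 6 66 1 1 1),
.rs (.join 1 2 5 4 3 2 [(1, 1)]),
.rs (.part [33, 82] [0, 0] [] [(1, 12)]),
.rs (.mono 1 1 3 1),
.rs (.join 1 1 1 3 1 3 [(0, 1)]),
.rs (.l2 1 3 17 0 1 1),
.rs (.join 0 2 3 3 1 2 [(1, 0)]),
.rs (.le 0 72 64 6 2),
.rs (.part [10, 81] [0, 0] [] [(1, 36)]),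
.rs (.hall [0] [3, 4, 5]),
.rs (.join 1 2 5 4 3 3 [(1, 2)]),
.rs (.deg 6 [2, 2]),
.rs (.join 0 10 5 4 3 1 [(1, 0), (3, 0)]),
.rs (.join 0 6 5 3 2 1 [(1, 0), (2, 0)]),
.rs (.l2 1 20 36 2 1 2),
.rs (.ordE 0 2 3),
.rs (.ab 0 6),
.rs (.part [10, 81] [0, 0] [] [(0, 36)]),
.rs (.lip 0 64 71 7),
.rs (.deg 4 [0, 3]),
.rs (.deg 1 [0, 3]),
.rs (.l2 1 5 33 0 1 2),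
.rs (.lipl 1 37 55 1 18),
.rs (.join 0 40 6 4 3 1 [(3, 0), (5, 0)]),
.rs (.join 0 1 5 4 3 1 [(0, 0)]),
.rs (.part [105, 22] [1, 0] [] []),
.rs (.l2 1 18 34 1 1 3),
.rs (.join 1 4 4 5 3 3 [(2, 1)]),
.rs (.part [8, 112] [0, 0] [7] []),
.rs (.join 1 4 5 4 1 3 [(2, 0)]),
.rs (.srt 0 4 0 3 4),
.rs (.join 1 1 4 5 1 4 [(0, 0)]),
.rs (.join 0 16 5 3 2 1 [(4, 0)]),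
.rs (.join 1 1 4 5 2 3 [(0, 0)]),
.rs (.join 1 4 3 4 2 2 [(2, 0)]),
.rs (.lipl 1 50 62 1 12),
.rs (.part [10, 117] [0, 1] [] []),
.rs (.l2 1 17 33 0 1 1),
.rs (.mono 1 66 98 1),
.rs (.lip 0 9 73 64),
.rs (.slot 0 [(3, 2), (4, 2), (5, 2), (0, 3), (1, 1), (2, 1)]),
.rs (.lip 0 32 35 7),
.rs (.join 0 6 6 4 3 1 [(1, 0), (2, 0)]),
.rs (.part [17, 76] [0, 0] [] [(1, 34)]),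
.rs (.mono 0 4 36 1),
.rs (.join 0 8 5 4 3 1 [(3, 0)]),
.rs (.join 1 2 3 4 3 2 [(1, 1)]),
.rs (.lipl 1 37 47 1 10),
.rs (.deg 6 [1, 3]),
.rs (.part [51, 76] [1, 0] [] []),
.rs (.ab2 0 6),
.rs (.join 1 1 3 4 2 2 [(0, 0)]),
.rs (.join 0 4 3 2 0 2 [(2, 0)]),
.rs (.lip 0 8 11 7),
.rs (.slot 0 [(1, 2), (2, 2), (0, 3), (3, 3), (4, 1)]),
.rs (.mono 1 65 73 1),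
.rs (.mono 0 32 96 1),
.rs (.join 1 8 4 5 2 3 [(3, 0)]),
.rs (.l2 0 20 48 4 1 1),
.rs (.join 1 2 3 5 4 1 [(1, 0)]),
.rs (.lip 0 64 67 7),
.rs (.part [18, 100] [0, 0] [] [(0, 9)]),
.rs (.part [26, 101] [1, 0] [] []),
.rs (.join 1 4 4 5 2 3 [(2, 0)]),
.rs (.l2 1 18 34 1 2 2),
.rs (.deg 4 [2, 1]),
.rs (.mono 0 32 33 1),
.rs (.lipl 1 52 117 0 65),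
.rs (.part [33, 74] [0, 0] [] [(0, 20)]),
.rs (.join 1 1 4 4 2 3 [(0, 1)]),
.rs (.slot 0 [(0, 4), (1, 4), (3, 2), (4, 1)]),
.rs (.slot 0 [(3, 2), (4, 1), (5, 1), (0, 3), (1, 2), (2, 1), (6, 1)]),
.rs (.join 0 8 6 2 2 0 [(3, 0)]),
.rs (.join 1 1 1 3 1 2 [(0, 0)]),
.rs (.l2 1 20 36 2 1 1),
.rs (.join 0 49 6 4 4 1 [(0, 1), (4, 0), (5, 0)]),
.rs (.join 1 1 4 3 2 2 [(0, 1)]),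
.rs (.un 0 2),
.rs (.part [33, 94] [0, 1] [] []),
.rs (.join 1 16 5 4 1 3 [(4, 0)]),
.rs (.join 0 2 5 2 2 0 [(1, 0)]),
.rs (.lipl 1 38 110 0 72),
.rs (.part [1, 70] [0, 0] [56] []),
.rs (.mono 1 67 83 1),
.rs (.lip 0 2 26 56),
.rs (.l2 0 36 68 2 1 1),
.rs (.join 0 34 6 3 2 1 [(1, 0), (5, 0)]),
.rs (.join 1 1 2 4 1 3 [(0, 0)]),
.rs (.part [16, 104] [0, 0] [7] []),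
.rs (.join 0 1 2 3 2 1 [(0, 0)]),
.rs (.mono 0 4 6 1),
.rs (.mono 1 96 100 1),
.rs (.mono 1 72 74 1),
.rs (.l2 1 12 24 3 2 1),
.rs (.srt 0 4 0 3 1),
.rs (.join 0 18 6 3 3 0 [(1, 0), (4, 0)]),
.rs (.le 0 66 64 6 2),
.rs (.part [9, 84] [0, 0] [] [(1, 34)]),
.rs (.part [25, 102] [1, 0] [] []),
.rs (.join 0 2 2 2 2 1 [(1, 1)]),
.rs (.join 1 4 4 5 4 2 [(2, 1)]),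
.rs (.lipl 1 52 118 0 66)]

noncomputable def gv : List Gv := [
.low [2, 1, 0, 2, 2, 1],
.low [3, 2, 0, 1, 1, 1],
.low [3, 0, 0, 2, 2, 1],
.low [2, 2, 1, 1, 1, 1],
.low [3, 1, 1, 3, 0, 0],
.low [3, 2, 0, 2, 1, 0],
.low [3, 1, 0, 3, 1, 0],
.low [3, 2, 0, 3, 0, 0],
.low [3, 0, 0, 3, 2, 0],
.low [3, 1, 1, 1, 1, 1],
.low [4, 0, 0, 2, 1, 1],
.low [2, 1, 1, 2, 2, 0],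
.low [4, 0, 0, 3, 1, 0],
.low [3, 2, 1, 2, 0, 0],
.low [3, 1, 1, 2, 1, 0],
.low [3, 0, 0, 3, 1, 1],
.low [3, 1, 0, 2, 2, 0],
.low [2, 2, 1, 2, 1, 0],
.low [2, 1, 1, 2, 1, 1],
.low [4, 1, 0, 1, 1, 1],
.cap6,
.low [4, 0, 0, 4, 0, 0],
.low [2, 2, 0, 2, 1, 1],
.low [4, 0, 0, 2, 2, 0]]

noncomputable def gads : List Gt := [
⟨1, [⟨12, 4, []⟩, ⟨32, 4, []⟩, ⟨64, 4, [(24, 1)]⟩], [3], 1, [(56, 1), (100, 1), (104, 1)]⟩,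
⟨1, [⟨18, 4, []⟩, ⟨32, 4, []⟩, ⟨64, 5, []⟩], [3], 1, [(98, 1), (112, 1)]⟩,
⟨0, [⟨9, 4, []⟩, ⟨16, 2, []⟩], [3, 2, 2], 1, [(17, 1), (24, 1)]⟩,
⟨1, [⟨2, 3, []⟩, ⟨4, 4, []⟩, ⟨24, 3, []⟩, ⟨32, 3, []⟩, ⟨64, 4, []⟩], [3, 17, 12, 12], 2, [(44, 1), (52, 1), (70, 1), (104, 1), (110, 2), (112, 1), (118, 2)]⟩,
⟨1, [⟨17, 4, []⟩, ⟨40, 5, []⟩, ⟨64, 4, []⟩], [5], 1, [(73, 1), (88, 1), (97, 1), (112, 1)]⟩,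
⟨1, [⟨24, 5, []⟩, ⟨32, 3, [(5, 1)]⟩, ⟨64, 4, []⟩], [6], 1, [(77, 1), (85, 1), (104, 1), (112, 1)]⟩,
⟨1, [⟨40, 4, []⟩, ⟨16, 3, []⟩, ⟨2, 3, []⟩, ⟨4, 3, []⟩, ⟨64, 4, []⟩], [3, 18, 12, 12], 2, [(14, 1), (38, 1), (70, 1), (88, 1), (94, 2), (112, 1), (118, 2)]⟩,
⟨1, [⟨8, 2, []⟩, ⟨32, 2, []⟩, ⟨0, 0, [(6, 2)]⟩, ⟨64, 5, []⟩], [3, 3, 3, 4, 4, 4], 2, [(70, 1), (104, 1), (110, 2)]⟩,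
⟨1, [⟨10, 4, []⟩, ⟨5, 4, []⟩, ⟨64, 5, []⟩], [3], 1, [(67, 1), (70, 1), (73, 1), (76, 1)]⟩,
⟨1, [⟨18, 4, []⟩, ⟨40, 4, []⟩, ⟨64, 5, []⟩], [3], 1, [(74, 1), (88, 1), (98, 1), (112, 1)]⟩,
⟨0, [⟨24, 4, []⟩, ⟨32, 2, []⟩], [3, 2, 2], 1, [(40, 1), (48, 1)]⟩,
⟨1, [⟨17, 5, []⟩, ⟨32, 4, []⟩, ⟨64, 4, []⟩], [6], 1, [(97, 1), (112, 1)]⟩,
⟨1, [⟨0, 0, [(6, 3)]⟩, ⟨64, 3, []⟩], [3, 3], 1, [(70, 1)]⟩,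
⟨1, [⟨36, 5, []⟩, ⟨24, 4, []⟩, ⟨64, 4, []⟩], [6], 1, [(76, 1), (84, 1), (104, 1), (112, 1)]⟩,
⟨1, [⟨3, 5, []⟩, ⟨4, 3, [(48, 1)]⟩, ⟨64, 4, []⟩], [6], 1, [(69, 1), (70, 1), (113, 1), (114, 1)]⟩,
⟨0, [⟨40, 4, []⟩, ⟨16, 2, []⟩], [3, 2, 2], 1, [(24, 1), (48, 1)]⟩,
⟨1, [⟨36, 5, []⟩, ⟨3, 4, []⟩, ⟨64, 4, []⟩], [6], 1, [(69, 1), (70, 1), (97, 1), (98, 1)]⟩,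
⟨1, [⟨2, 3, []⟩, ⟨0, 0, [(12, 1), (33, 2)]⟩], [3, 3], 1, [(14, 1), (35, 1)]⟩,
⟨1, [⟨10, 4, []⟩, ⟨48, 4, []⟩, ⟨64, 5, []⟩], [3], 1, [(82, 1), (88, 1), (98, 1), (104, 1)]⟩,
⟨0, [⟨9, 4, []⟩, ⟨36, 2, []⟩], [3, 2, 2], 1, [(5, 1), (12, 1), (33, 1), (40, 1)]⟩,
⟨0, [⟨1, 4, []⟩, ⟨40, 2, []⟩], [3, 2, 2], 1, [(9, 1), (33, 1)]⟩,
⟨1, [⟨34, 5, []⟩, ⟨24, 4, []⟩, ⟨64, 4, []⟩], [6], 1, [(74, 1), (82, 1), (104, 1), (112, 1)]⟩,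
⟨1, [⟨16, 3, []⟩, ⟨64, 3, []⟩], [3, 3], 1, [(80, 1)]⟩,
⟨1, [⟨0, 0, [(20, 3)]⟩, ⟨32, 3, []⟩], [3, 3], 1, [(52, 1)]⟩,
⟨0, [⟨1, 2, []⟩, ⟨40, 4, []⟩], [3, 1, 1], 1, [(9, 1), (33, 1)]⟩,
⟨1, [⟨34, 4, []⟩, ⟨5, 5, []⟩, ⟨64, 4, []⟩], [5], 1, [(67, 1), (70, 1), (97, 1), (100, 1)]⟩,
⟨1, [⟨2, 2, [(9, 1)]⟩, ⟨4, 2, [(9, 1)]⟩, ⟨16, 2, []⟩, ⟨32, 4, []⟩, ⟨64, 5, []⟩], [3, 3, 12, 4, 4], 2, [(70, 1), (73, 1), (112, 1), (118, 2), (121, 2)]⟩,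
⟨1, [⟨0, 0, [(48, 3)]⟩, ⟨64, 3, []⟩], [3, 3], 1, [(112, 1)]⟩,
⟨1, [⟨16, 2, [(10, 1)]⟩, ⟨32, 2, [(10, 1)]⟩, ⟨1, 2, []⟩, ⟨4, 4, []⟩, ⟨64, 5, []⟩], [3, 3, 12, 4, 4], 2, [(69, 1), (74, 1), (79, 2), (112, 1), (117, 2)]⟩,
⟨0, [⟨10, 3, []⟩, ⟨1, 3, []⟩], [3, 3], 1, [(3, 1), (9, 1)]⟩,
⟨1, [⟨2, 3, []⟩, ⟨4, 3, []⟩, ⟨24, 3, []⟩, ⟨32, 3, []⟩, ⟨64, 5, []⟩], [3, 3, 12, 12], 2, [(70, 1), (104, 1), (110, 2), (112, 1), (118, 2)]⟩,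
⟨1, [⟨4, 1, [(40, 2)]⟩, ⟨64, 3, []⟩], [3, 3], 1, [(68, 1), (104, 1)]⟩,
⟨1, [⟨3, 3, []⟩, ⟨4, 4, []⟩, ⟨16, 3, []⟩, ⟨32, 3, []⟩, ⟨64, 4, []⟩], [3, 17, 12, 12], 2, [(52, 1), (69, 1), (70, 1), (112, 1), (117, 2), (118, 2)]⟩,
⟨1, [⟨20, 5, []⟩, ⟨32, 3, [(5, 1)]⟩, ⟨64, 4, []⟩], [6], 1, [(69, 1), (100, 1), (112, 1)]⟩,
⟨0, [⟨8, 3, []⟩, ⟨16, 3, []⟩], [3, 3], 1, [(24, 1)]⟩,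
⟨0, [⟨8, 3, []⟩, ⟨80, 3, []⟩], [3, 3], 1, [(24, 1), (72, 1)]⟩,
⟨0, [⟨50, 4, []⟩, ⟨72, 2, []⟩], [3, 2, 2], 1, [(10, 1), (24, 1), (40, 1), (66, 1), (80, 1), (96, 1)]⟩,
⟨1, [⟨3, 5, []⟩, ⟨4, 3, [(24, 1)]⟩, ⟨64, 4, []⟩], [6], 1, [(69, 1), (70, 1), (89, 1), (90, 1)]⟩,
⟨0, [⟨2, 2, []⟩, ⟨24, 4, []⟩], [3, 1, 1], 1, [(10, 1), (18, 1)]⟩,
⟨1, [⟨10, 5, []⟩, ⟨32, 3, []⟩, ⟨1, 2, []⟩, ⟨64, 5, []⟩, ⟨0, 0, [(18, 2)]⟩], [2, 2, 20, 20, 20], 2, [(83, 1), (98, 1), (104, 1), (115, 2)]⟩,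
⟨0, [⟨1, 4, []⟩, ⟨6, 2, []⟩], [3, 2, 2], 1, [(3, 1), (5, 1)]⟩,
⟨1, [⟨10, 4, []⟩, ⟨36, 5, []⟩, ⟨64, 4, []⟩], [5], 1, [(70, 1), (76, 1), (98, 1), (104, 1)]⟩,
⟨1, [⟨36, 4, []⟩, ⟨24, 4, []⟩, ⟨64, 5, []⟩], [3], 1, [(76, 1), (84, 1), (104, 1), (112, 1)]⟩,
⟨0, [⟨17, 4, []⟩, ⟨36, 2, []⟩], [3, 2, 2], 1, [(5, 1), (20, 1), (33, 1), (48, 1)]⟩,
⟨1, [⟨16, 3, []⟩, ⟨32, 3, []⟩, ⟨2, 2, []⟩, ⟨4, 4, []⟩, ⟨64, 5, []⟩], [3, 3, 12, 4, 4], 2, [(70, 1), (112, 1), (118, 2)]⟩,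
⟨1, [⟨16, 1, [(5, 2)]⟩, ⟨64, 3, []⟩], [3, 3], 1, [(69, 1), (80, 1)]⟩,
⟨1, [⟨2, 2, []⟩, ⟨4, 4, []⟩, ⟨16, 3, []⟩, ⟨32, 3, []⟩, ⟨64, 3, []⟩], [3, 1, 1, 28, 28], 2, [(6, 1), (112, 1), (118, 2)]⟩,
⟨1, [⟨0, 0, [(34, 3)]⟩, ⟨4, 3, []⟩], [3, 3], 1, [(38, 1)]⟩,
⟨1, [⟨96, 5, []⟩, ⟨5, 4, []⟩, ⟨2, 4, []⟩], [6], 1, [(35, 1), (38, 1), (67, 1), (70, 1)]⟩,
⟨1, [⟨8, 1, [(3, 2)]⟩, ⟨64, 3, []⟩], [3, 3], 1, [(67, 1), (72, 1)]⟩,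
⟨0, [⟨1, 4, []⟩, ⟨12, 2, []⟩], [3, 2, 2], 1, [(5, 1), (9, 1)]⟩,
⟨1, [⟨32, 3, []⟩, ⟨64, 3, []⟩], [3, 3], 1, [(96, 1)]⟩,
⟨1, [⟨4, 1, [(48, 2)]⟩, ⟨64, 3, []⟩], [3, 3], 1, [(68, 1), (112, 1)]⟩,
⟨0, [⟨9, 4, []⟩, ⟨34, 2, []⟩], [3, 2, 2], 1, [(3, 1), (10, 1), (33, 1), (40, 1)]⟩,
⟨0, [⟨10, 4, []⟩, ⟨68, 2, []⟩], [3, 2, 2], 1, [(6, 1), (12, 1), (66, 1), (72, 1)]⟩,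
⟨1, [⟨9, 4, []⟩, ⟨4, 4, []⟩, ⟨64, 4, [(3, 1)]⟩], [3], 1, [(7, 1), (69, 1), (76, 1)]⟩,
⟨1, [⟨17, 5, []⟩, ⟨4, 3, [(24, 1)]⟩, ⟨64, 4, []⟩], [6], 1, [(69, 1), (84, 1), (88, 1)]⟩,
⟨1, [⟨4, 4, []⟩, ⟨16, 3, [(3, 1)]⟩, ⟨32, 4, [(3, 1)]⟩], [3], 1, [(7, 1), (52, 1)]⟩,
⟨0, [⟨1, 3, []⟩, ⟨22, 3, []⟩], [3, 3], 1, [(3, 1), (5, 1), (17, 1)]⟩,
⟨1, [⟨12, 5, []⟩, ⟨2, 3, [(40, 1)]⟩, ⟨64, 4, []⟩], [6], 1, [(70, 1), (74, 1), (104, 1)]⟩,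
⟨0, [⟨8, 3, []⟩, ⟨112, 3, []⟩], [3, 3], 1, [(24, 1), (40, 1), (72, 1)]⟩,
⟨1, [⟨12, 4, []⟩, ⟨34, 5, []⟩, ⟨64, 4, []⟩], [5], 1, [(70, 1), (74, 1), (100, 1), (104, 1)]⟩,
⟨1, [⟨80, 5, []⟩, ⟨5, 4, []⟩, ⟨2, 4, []⟩], [6], 1, [(19, 1), (22, 1), (67, 1), (70, 1)]⟩,
⟨1, [⟨0, 0, [(36, 3)]⟩, ⟨16, 3, []⟩, ⟨1, 2, []⟩, ⟨64, 5, []⟩], [1, 1, 2, 2, 4, 4, 4], 2, [(81, 1), (101, 1), (116, 1), (117, 2)]⟩,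
⟨1, [⟨12, 5, []⟩, ⟨32, 4, []⟩, ⟨64, 4, []⟩], [6], 1, [(100, 1), (104, 1)]⟩,
⟨0, [⟨1, 4, []⟩, ⟨66, 2, []⟩], [3, 2, 2], 1, [(3, 1), (65, 1)]⟩,
⟨1, [⟨2, 2, []⟩, ⟨4, 2, []⟩, ⟨0, 0, [(40, 2)]⟩, ⟨64, 5, []⟩], [3, 3, 3, 4, 4, 4], 2, [(70, 1), (104, 1), (110, 2)]⟩,
⟨1, [⟨64, 3, []⟩, ⟨0, 0, [(5, 1), (24, 1), (40, 1)]⟩], [3, 3], 1, [(69, 1), (88, 1), (104, 1)]⟩,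
⟨0, [⟨16, 2, []⟩, ⟨3, 4, []⟩], [3, 1, 1], 1, [(17, 1), (18, 1)]⟩,
⟨1, [⟨34, 4, []⟩, ⟨12, 5, []⟩, ⟨64, 4, []⟩], [5], 1, [(70, 1), (74, 1), (100, 1), (104, 1)]⟩,
⟨1, [⟨16, 3, []⟩, ⟨32, 3, []⟩, ⟨3, 3, []⟩, ⟨4, 3, []⟩, ⟨64, 5, []⟩], [3, 3, 12, 12], 2, [(69, 1), (70, 1), (112, 1), (117, 2), (118, 2)]⟩,
⟨0, [⟨9, 4, []⟩, ⟨2, 2, []⟩], [3, 2, 2], 1, [(3, 1), (10, 1)]⟩,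
⟨1, [⟨24, 4, []⟩, ⟨32, 3, []⟩, ⟨2, 3, []⟩, ⟨4, 3, []⟩, ⟨64, 4, []⟩], [17, 2, 2, 12, 12], 2, [(38, 1), (78, 1), (86, 1), (104, 1), (110, 2), (112, 1), (118, 2)]⟩,
⟨1, [⟨10, 4, []⟩, ⟨80, 5, []⟩, ⟨32, 4, []⟩], [5], 1, [(50, 1), (56, 1), (98, 1), (104, 1)]⟩,
⟨1, [⟨3, 3, []⟩, ⟨4, 3, []⟩, ⟨0, 0, [(24, 2)]⟩, ⟨32, 3, []⟩, ⟨64, 4, []⟩], [11, 19, 12, 4, 4], 2, [(56, 1), (69, 1), (70, 1), (88, 1), (125, 2), (126, 2)]⟩,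
⟨0, [⟨10, 4, []⟩, ⟨36, 2, []⟩], [3, 2, 2], 1, [(6, 1), (12, 1), (34, 1), (40, 1)]⟩,
⟨1, [⟨12, 5, []⟩, ⟨3, 4, []⟩, ⟨64, 4, []⟩], [6], 1, [(69, 1), (70, 1), (73, 1), (74, 1)]⟩,
⟨1, [⟨4, 3, []⟩, ⟨0, 0, [(18, 1), (33, 2)]⟩], [3, 3], 1, [(22, 1), (37, 1)]⟩,
⟨1, [⟨12, 4, []⟩, ⟨48, 4, []⟩, ⟨64, 5, []⟩], [3], 1, [(84, 1), (88, 1), (100, 1), (104, 1)]⟩,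
⟨0, [⟨1, 2, []⟩, ⟨66, 2, []⟩, ⟨8, 2, []⟩, ⟨48, 2, []⟩], [3, 3, 3, 12, 12, 12], 2, [(3, 1), (24, 1), (27, 2), (40, 1), (43, 2), (65, 1), (89, 2), (105, 2)]⟩,
⟨0, [⟨18, 3, []⟩, ⟨8, 3, []⟩], [3, 3], 1, [(10, 1), (24, 1)]⟩,
⟨1, [⟨24, 3, []⟩, ⟨32, 3, []⟩, ⟨0, 0, [(5, 2)]⟩, ⟨2, 3, []⟩, ⟨64, 4, []⟩], [11, 19, 12, 4, 4], 2, [(7, 1), (69, 1), (104, 1), (111, 2), (112, 1), (119, 2)]⟩,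
⟨1, [⟨34, 4, []⟩, ⟨4, 4, []⟩, ⟨64, 4, [(3, 1)]⟩], [3], 1, [(7, 1), (70, 1), (100, 1)]⟩,
⟨1, [⟨1, 2, [(20, 1)]⟩, ⟨2, 2, [(20, 1)]⟩, ⟨8, 2, []⟩, ⟨32, 4, []⟩, ⟨64, 5, []⟩], [3, 3, 12, 4, 4], 2, [(67, 1), (84, 1), (104, 1), (107, 2), (124, 2)]⟩,
⟨0, [⟨42, 4, []⟩, ⟨80, 2, []⟩], [3, 2, 2], 1, [(18, 1), (24, 1), (48, 1), (66, 1), (72, 1), (96, 1)]⟩,
⟨0, [⟨9, 4, []⟩, ⟨80, 2, []⟩], [3, 2, 2], 1, [(17, 1), (24, 1), (65, 1), (72, 1)]⟩,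
⟨1, [⟨12, 4, []⟩, ⟨32, 4, []⟩, ⟨64, 5, []⟩], [3], 1, [(100, 1), (104, 1)]⟩,
⟨0, [⟨1, 2, []⟩, ⟨68, 2, []⟩, ⟨8, 2, []⟩, ⟨48, 2, []⟩], [3, 3, 3, 12, 12, 12], 2, [(5, 1), (24, 1), (29, 2), (40, 1), (45, 2), (65, 1), (89, 2), (105, 2)]⟩,
⟨1, [⟨0, 0, [(24, 2)]⟩, ⟨32, 2, []⟩, ⟨2, 3, []⟩, ⟨4, 3, []⟩, ⟨64, 5, []⟩], [3, 1, 1, 14, 14], 2, [(70, 1), (88, 1), (126, 2)]⟩,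
⟨0, [⟨17, 4, []⟩, ⟨68, 2, []⟩], [3, 2, 2], 1, [(5, 1), (20, 1), (65, 1), (80, 1)]⟩,
⟨1, [⟨3, 3, []⟩, ⟨4, 3, []⟩], [3, 3], 1, [(5, 1), (6, 1)]⟩,
⟨1, [⟨0, 0, [(36, 3)]⟩, ⟨16, 3, []⟩], [3, 3], 1, [(52, 1)]⟩,
⟨1, [⟨0, 0, [(24, 2)]⟩, ⟨34, 3, []⟩, ⟨1, 2, []⟩, ⟨4, 3, []⟩, ⟨64, 5, []⟩], [5, 1, 1, 14, 14], 2, [(70, 1), (88, 1), (95, 2), (100, 1), (125, 2)]⟩,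
⟨1, [⟨2, 3, []⟩, ⟨4, 3, []⟩], [3, 3], 1, [(6, 1)]⟩,
⟨1, [⟨16, 2, []⟩, ⟨32, 2, []⟩, ⟨5, 5, []⟩, ⟨2, 3, []⟩, ⟨64, 5, []⟩], [3, 3, 3, 8, 8], 2, [(67, 1), (70, 1), (113, 1), (115, 2), (116, 1), (118, 2)]⟩,
⟨1, [⟨18, 5, []⟩, ⟨32, 3, []⟩, ⟨1, 2, []⟩, ⟨64, 5, []⟩, ⟨0, 0, [(10, 2)]⟩], [2, 2, 20, 20, 20], 2, [(75, 1), (98, 1), (107, 2), (112, 1)]⟩,
⟨1, [⟨10, 5, []⟩, ⟨48, 4, []⟩, ⟨64, 4, []⟩], [6], 1, [(82, 1), (88, 1), (98, 1), (104, 1)]⟩,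
⟨0, [⟨104, 4, []⟩, ⟨16, 2, []⟩], [3, 2, 2], 1, [(24, 1), (48, 1), (80, 1)]⟩,
⟨1, [⟨2, 3, []⟩, ⟨64, 3, []⟩], [3, 3], 1, [(66, 1)]⟩,
⟨1, [⟨8, 1, [(5, 2)]⟩, ⟨64, 3, []⟩], [3, 3], 1, [(69, 1), (72, 1)]⟩,
⟨0, [⟨17, 4, []⟩, ⟨34, 2, []⟩], [3, 2, 2], 1, [(3, 1), (18, 1), (33, 1), (48, 1)]⟩,
⟨1, [⟨3, 3, []⟩, ⟨4, 3, []⟩, ⟨24, 3, []⟩, ⟨32, 3, []⟩, ⟨64, 5, []⟩], [3, 3, 12, 12], 2, [(69, 1), (70, 1), (104, 1), (109, 2), (110, 2), (112, 1), (117, 2), (118, 2)]⟩,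
⟨1, [⟨10, 3, []⟩, ⟨64, 3, []⟩], [3, 3], 1, [(66, 1), (72, 1)]⟩,
⟨1, [⟨96, 5, []⟩, ⟨2, 3, [(24, 1)]⟩, ⟨4, 4, []⟩], [6], 1, [(38, 1), (60, 1), (70, 1), (92, 1)]⟩,
⟨1, [⟨10, 3, []⟩, ⟨0, 0, [(17, 1)]⟩, ⟨32, 3, []⟩, ⟨64, 5, []⟩], [5, 5, 2, 2, 2, 2], 2, [(81, 1), (98, 1), (104, 1), (115, 2), (121, 2)]⟩,
⟨0, [⟨1, 4, []⟩, ⟨68, 2, []⟩], [3, 2, 2], 1, [(5, 1), (65, 1)]⟩,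
⟨0, [⟨8, 2, []⟩, ⟨3, 4, []⟩], [3, 1, 1], 1, [(9, 1), (10, 1)]⟩,
⟨0, [⟨1, 2, []⟩, ⟨6, 2, []⟩, ⟨8, 2, []⟩, ⟨16, 2, []⟩], [3, 3, 3, 12, 12, 12], 2, [(3, 1), (5, 1), (24, 1), (27, 2), (29, 2)]⟩,
⟨1, [⟨36, 4, []⟩, ⟨10, 5, []⟩, ⟨64, 4, []⟩], [5], 1, [(70, 1), (76, 1), (98, 1), (104, 1)]⟩,
⟨0, [⟨82, 3, []⟩, ⟨5, 3, []⟩], [3, 3], 1, [(3, 1), (6, 1), (17, 1), (20, 1), (65, 1), (68, 1)]⟩,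
⟨0, [⟨1, 3, []⟩, ⟨0, 0, [(6, 3)]⟩], [3, 3], 1, [(7, 1)]⟩,
⟨1, [⟨12, 4, []⟩, ⟨48, 5, []⟩, ⟨64, 4, []⟩], [5], 1, [(84, 1), (88, 1), (100, 1), (104, 1)]⟩,
⟨1, [⟨24, 4, []⟩, ⟨32, 3, []⟩, ⟨2, 3, []⟩, ⟨4, 3, []⟩, ⟨64, 4, []⟩], [3, 18, 12, 12], 2, [(14, 1), (22, 1), (70, 1), (104, 1), (110, 2), (112, 1), (118, 2)]⟩,
⟨1, [⟨17, 4, []⟩, ⟨32, 4, []⟩, ⟨64, 5, []⟩], [3], 1, [(97, 1), (112, 1)]⟩,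
⟨0, [⟨18, 4, []⟩, ⟨8, 2, []⟩], [3, 2, 2], 1, [(10, 1), (24, 1)]⟩,
⟨0, [⟨8, 2, []⟩, ⟨48, 2, []⟩, ⟨1, 2, []⟩, ⟨2, 2, []⟩], [3, 3, 3, 12, 12, 12], 2, [(3, 1), (24, 1), (27, 2), (40, 1), (43, 2)]⟩,
⟨1, [⟨0, 0, [(48, 2)]⟩, ⟨8, 2, []⟩, ⟨2, 3, []⟩, ⟨4, 3, []⟩, ⟨64, 5, []⟩], [3, 1, 1, 14, 14], 2, [(70, 1), (112, 1), (126, 2)]⟩,
⟨1, [⟨10, 4, []⟩, ⟨4, 4, []⟩, ⟨64, 4, [(3, 1)]⟩], [3], 1, [(7, 1), (70, 1), (76, 1)]⟩,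
⟨1, [⟨1, 1, [(40, 2)]⟩, ⟨64, 3, []⟩], [3, 3], 1, [(65, 1), (104, 1)]⟩,
⟨0, [⟨10, 4, []⟩, ⟨20, 2, []⟩], [3, 2, 2], 1, [(6, 1), (12, 1), (18, 1), (24, 1)]⟩,
⟨0, [⟨86, 4, []⟩, ⟨1, 2, []⟩], [3, 2, 2], 1, [(3, 1), (5, 1), (17, 1), (65, 1)]⟩,
⟨1, [⟨18, 5, []⟩, ⟨40, 4, []⟩, ⟨64, 4, []⟩], [6], 1, [(74, 1), (88, 1), (98, 1), (112, 1)]⟩,
⟨1, [⟨3, 4, []⟩, ⟨4, 3, []⟩, ⟨16, 3, []⟩, ⟨32, 3, []⟩, ⟨64, 4, []⟩], [17, 2, 2, 12, 12], 2, [(52, 1), (69, 1), (70, 1), (113, 1), (114, 1), (117, 2), (118, 2)]⟩,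
⟨1, [⟨0, 0, [(36, 3)]⟩, ⟨2, 3, []⟩], [3, 3], 1, [(38, 1)]⟩,
⟨0, [⟨49, 4, []⟩, ⟨72, 2, []⟩], [3, 2, 2], 1, [(9, 1), (24, 1), (40, 1), (65, 1), (80, 1), (96, 1)]⟩,
⟨1, [⟨20, 5, []⟩, ⟨2, 3, [(24, 1)]⟩, ⟨64, 4, []⟩], [6], 1, [(70, 1), (82, 1), (88, 1)]⟩,
⟨0, [⟨1, 3, []⟩, ⟨2, 3, []⟩], [3, 3], 1, [(3, 1)]⟩,
⟨0, [⟨82, 3, []⟩, ⟨40, 3, []⟩], [3, 3], 1, [(10, 1), (24, 1), (34, 1), (48, 1), (72, 1), (96, 1)]⟩,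
⟨0, [⟨1, 2, []⟩, ⟨2, 2, []⟩, ⟨8, 2, []⟩, ⟨80, 2, []⟩], [3, 3, 3, 12, 12, 12], 2, [(3, 1), (24, 1), (27, 2), (72, 1), (75, 2)]⟩,
⟨1, [⟨64, 3, []⟩, ⟨0, 0, [(3, 1), (24, 1), (40, 1)]⟩], [3, 3], 1, [(67, 1), (88, 1), (104, 1)]⟩,
⟨1, [⟨17, 4, []⟩, ⟨32, 4, []⟩, ⟨64, 4, [(24, 1)]⟩], [3], 1, [(56, 1), (97, 1), (112, 1)]⟩,
⟨0, [⟨1, 4, []⟩, ⟨34, 2, []⟩], [3, 2, 2], 1, [(3, 1), (33, 1)]⟩,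
⟨0, [⟨17, 4, []⟩, ⟨66, 2, []⟩], [3, 2, 2], 1, [(3, 1), (18, 1), (65, 1), (80, 1)]⟩,
⟨1, [⟨2, 1, [(48, 2)]⟩, ⟨64, 3, []⟩], [3, 3], 1, [(66, 1), (112, 1)]⟩,
⟨1, [⟨34, 5, []⟩, ⟨5, 4, []⟩, ⟨64, 4, []⟩], [6], 1, [(67, 1), (70, 1), (97, 1), (100, 1)]⟩,
⟨1, [⟨17, 4, []⟩, ⟨6, 5, []⟩, ⟨64, 4, []⟩], [5], 1, [(67, 1), (69, 1), (82, 1), (84, 1)]⟩,
⟨0, [⟨33, 4, []⟩, ⟨8, 2, []⟩], [3, 2, 2], 1, [(9, 1), (40, 1)]⟩,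
⟨1, [⟨36, 4, []⟩, ⟨24, 5, []⟩, ⟨64, 4, []⟩], [5], 1, [(76, 1), (84, 1), (104, 1), (112, 1)]⟩,
⟨1, [⟨12, 5, []⟩, ⟨48, 4, []⟩, ⟨64, 4, []⟩], [6], 1, [(84, 1), (88, 1), (100, 1), (104, 1)]⟩,
⟨1, [⟨9, 4, []⟩, ⟨4, 4, []⟩, ⟨64, 5, []⟩], [3], 1, [(69, 1), (76, 1)]⟩,
⟨1, [⟨5, 5, []⟩, ⟨2, 2, []⟩, ⟨16, 3, []⟩, ⟨32, 3, []⟩, ⟨64, 4, []⟩], [18, 2, 2, 12, 12], 2, [(49, 1), (52, 1), (67, 1), (70, 1), (115, 2), (118, 2)]⟩,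
⟨1, [⟨32, 3, []⟩, ⟨0, 0, [(12, 1), (17, 2)]⟩], [3, 3], 1, [(44, 1), (49, 1)]⟩,
⟨0, [⟨8, 2, []⟩, ⟨5, 4, []⟩], [3, 1, 1], 1, [(9, 1), (12, 1)]⟩,
⟨1, [⟨4, 3, []⟩, ⟨0, 0, [(10, 1), (33, 2)]⟩], [3, 3], 1, [(14, 1), (37, 1)]⟩,
⟨1, [⟨2, 3, []⟩, ⟨4, 3, []⟩, ⟨8, 3, []⟩, ⟨32, 3, []⟩, ⟨64, 5, []⟩], [3, 3, 12, 12], 2, [(70, 1), (104, 1), (110, 2)]⟩,
⟨1, [⟨33, 5, []⟩, ⟨24, 4, []⟩, ⟨64, 4, []⟩], [6], 1, [(73, 1), (81, 1), (104, 1), (112, 1)]⟩,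
⟨1, [⟨12, 5, []⟩, ⟨32, 3, []⟩, ⟨1, 2, []⟩, ⟨64, 5, []⟩, ⟨0, 0, [(20, 2)]⟩], [2, 2, 20, 20, 20], 2, [(85, 1), (100, 1), (104, 1), (117, 2)]⟩,
⟨0, [⟨8, 4, []⟩, ⟨80, 2, []⟩], [3, 2, 2], 1, [(24, 1), (72, 1)]⟩,
⟨1, [⟨8, 2, [(17, 1)]⟩, ⟨32, 2, [(17, 1)]⟩, ⟨2, 2, []⟩, ⟨4, 4, []⟩, ⟨64, 5, []⟩], [3, 3, 12, 4, 4], 2, [(70, 1), (81, 1), (87, 2), (104, 1), (110, 2)]⟩,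
⟨0, [⟨1, 3, []⟩, ⟨70, 3, []⟩], [3, 3], 1, [(3, 1), (5, 1), (65, 1)]⟩,
⟨1, [⟨18, 4, []⟩, ⟨40, 5, []⟩, ⟨64, 4, []⟩], [5], 1, [(74, 1), (88, 1), (98, 1), (112, 1)]⟩,
⟨1, [⟨12, 4, []⟩, ⟨3, 5, []⟩, ⟨64, 4, []⟩], [5], 1, [(69, 1), (70, 1), (73, 1), (74, 1)]⟩,
⟨1, [⟨20, 5, []⟩, ⟨2, 4, []⟩, ⟨64, 4, []⟩], [6], 1, [(70, 1), (82, 1)]⟩,
⟨1, [⟨33, 5, []⟩, ⟨4, 3, [(40, 1)]⟩, ⟨64, 4, []⟩], [6], 1, [(69, 1), (100, 1), (104, 1)]⟩,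
⟨1, [⟨33, 5, []⟩, ⟨16, 4, []⟩, ⟨64, 4, []⟩], [6], 1, [(81, 1), (112, 1)]⟩,
⟨1, [⟨5, 3, []⟩, ⟨2, 3, []⟩, ⟨0, 0, [(24, 2)]⟩, ⟨32, 3, []⟩, ⟨64, 4, []⟩], [11, 19, 12, 4, 4], 2, [(56, 1), (67, 1), (70, 1), (88, 1), (123, 2), (126, 2)]⟩,
⟨0, [⟨113, 4, []⟩, ⟨8, 2, []⟩], [3, 2, 2], 1, [(9, 1), (24, 1), (40, 1), (72, 1)]⟩,
⟨1, [⟨18, 5, []⟩, ⟨32, 3, [(6, 1)]⟩, ⟨64, 4, []⟩], [6], 1, [(70, 1), (98, 1), (112, 1)]⟩,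
⟨0, [⟨8, 4, []⟩, ⟨48, 2, []⟩], [3, 2, 2], 1, [(24, 1), (40, 1)]⟩,
⟨1, [⟨16, 3, []⟩, ⟨0, 0, [(96, 3)]⟩], [3, 3], 1, [(112, 1)]⟩,
⟨0, [⟨8, 4, []⟩, ⟨20, 2, []⟩], [3, 2, 2], 1, [(12, 1), (24, 1)]⟩,
⟨1, [⟨3, 4, []⟩, ⟨4, 3, []⟩, ⟨16, 3, []⟩, ⟨32, 3, []⟩, ⟨64, 4, []⟩], [3, 18, 12, 12], 2, [(49, 1), (50, 1), (69, 1), (70, 1), (112, 1), (117, 2), (118, 2)]⟩,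
⟨1, [⟨36, 5, []⟩, ⟨2, 3, [(40, 1)]⟩, ⟨64, 4, []⟩], [6], 1, [(70, 1), (98, 1), (104, 1)]⟩,
⟨1, [⟨5, 5, []⟩, ⟨2, 3, [(40, 1)]⟩, ⟨64, 4, []⟩], [6], 1, [(67, 1), (70, 1), (105, 1), (108, 1)]⟩,
⟨1, [⟨34, 5, []⟩, ⟨4, 3, [(48, 1)]⟩, ⟨64, 4, []⟩], [6], 1, [(70, 1), (100, 1), (112, 1)]⟩,
⟨1, [⟨20, 3, []⟩, ⟨0, 0, [(10, 1)]⟩, ⟨32, 3, []⟩, ⟨64, 5, []⟩], [5, 5, 2, 2, 2, 2], 2, [(74, 1), (100, 1), (110, 2), (112, 1), (122, 2)]⟩,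
⟨1, [⟨3, 3, []⟩, ⟨4, 3, []⟩, ⟨0, 0, [(40, 2)]⟩, ⟨16, 3, []⟩, ⟨64, 4, []⟩], [11, 19, 12, 4, 4], 2, [(56, 1), (69, 1), (70, 1), (104, 1), (125, 2), (126, 2)]⟩,
⟨1, [⟨1, 1, [(24, 2)]⟩, ⟨64, 3, []⟩], [3, 3], 1, [(65, 1), (88, 1)]⟩,
⟨1, [⟨33, 4, []⟩, ⟨24, 5, []⟩, ⟨64, 4, []⟩], [5], 1, [(73, 1), (81, 1), (104, 1), (112, 1)]⟩,
⟨0, [⟨37, 4, []⟩, ⟨66, 2, []⟩], [3, 2, 2], 1, [(3, 1), (6, 1), (34, 1), (65, 1), (68, 1), (96, 1)]⟩,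
⟨1, [⟨2, 3, []⟩, ⟨4, 3, []⟩, ⟨40, 5, []⟩, ⟨16, 3, []⟩, ⟨64, 4, []⟩], [3, 3, 8, 8, 16], 2, [(30, 1), (54, 1), (78, 1), (88, 1), (94, 2), (102, 1), (112, 1), (118, 2)]⟩,
⟨0, [⟨70, 4, []⟩, ⟨1, 2, []⟩], [3, 2, 2], 1, [(3, 1), (5, 1), (65, 1)]⟩,
⟨1, [⟨18, 5, []⟩, ⟨4, 3, []⟩, ⟨8, 2, []⟩, ⟨64, 5, []⟩, ⟨0, 0, [(17, 2)]⟩], [2, 2, 20, 20, 20], 2, [(70, 1), (84, 1), (89, 1), (93, 2)]⟩,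
⟨1, [⟨2, 2, []⟩, ⟨8, 2, []⟩, ⟨16, 4, []⟩, ⟨32, 4, []⟩, ⟨64, 4, []⟩], [3, 3, 17, 14], 2, [(56, 1), (66, 1), (112, 1), (122, 2)]⟩,
⟨1, [⟨34, 4, []⟩, ⟨5, 4, []⟩, ⟨64, 5, []⟩], [3], 1, [(67, 1), (70, 1), (97, 1), (100, 1)]⟩,
⟨1, [⟨18, 5, []⟩, ⟨4, 3, [(24, 1)]⟩, ⟨64, 4, []⟩], [6], 1, [(70, 1), (84, 1), (88, 1)]⟩,
⟨1, [⟨12, 3, []⟩, ⟨0, 0, [(18, 1)]⟩, ⟨32, 3, []⟩, ⟨64, 5, []⟩], [5, 5, 2, 2, 2, 2], 2, [(82, 1), (100, 1), (104, 1), (118, 2), (122, 2)]⟩,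
⟨1, [⟨33, 5, []⟩, ⟨4, 4, []⟩, ⟨64, 4, []⟩], [6], 1, [(69, 1), (100, 1)]⟩,
⟨1, [⟨20, 5, []⟩, ⟨32, 3, [(6, 1)]⟩, ⟨64, 4, []⟩], [6], 1, [(70, 1), (100, 1), (112, 1)]⟩,
⟨0, [⟨78, 4, []⟩, ⟨1, 2, []⟩], [3, 2, 2], 1, [(3, 1), (5, 1), (9, 1), (65, 1)]⟩,
⟨1, [⟨2, 2, []⟩, ⟨4, 2, []⟩, ⟨0, 0, [(48, 2)]⟩, ⟨64, 5, []⟩], [3, 3, 3, 4, 4, 4], 2, [(70, 1), (112, 1), (118, 2)]⟩,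
⟨1, [⟨20, 4, []⟩, ⟨40, 5, []⟩, ⟨64, 4, []⟩], [5], 1, [(76, 1), (88, 1), (100, 1), (112, 1)]⟩,
⟨0, [⟨12, 3, []⟩, ⟨1, 3, []⟩], [3, 3], 1, [(5, 1), (9, 1)]⟩,
⟨1, [⟨20, 4, []⟩, ⟨34, 5, []⟩, ⟨64, 4, []⟩], [5], 1, [(70, 1), (82, 1), (100, 1), (112, 1)]⟩,
⟨0, [⟨1, 3, []⟩, ⟨8, 3, []⟩], [3, 3], 1, [(9, 1)]⟩,
⟨0, [⟨1, 4, []⟩, ⟨20, 2, []⟩], [3, 2, 2], 1, [(5, 1), (17, 1)]⟩,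
⟨1, [⟨48, 4, []⟩, ⟨6, 5, []⟩, ⟨64, 4, []⟩], [5], 1, [(82, 1), (84, 1), (98, 1), (100, 1)]⟩,
⟨1, [⟨34, 5, []⟩, ⟨4, 3, []⟩, ⟨16, 2, []⟩, ⟨64, 5, []⟩, ⟨0, 0, [(33, 2)]⟩], [2, 2, 20, 20, 20], 2, [(70, 1), (100, 1), (113, 1), (117, 2)]⟩,
⟨1, [⟨36, 5, []⟩, ⟨2, 4, []⟩, ⟨64, 4, []⟩], [6], 1, [(70, 1), (98, 1)]⟩,
⟨0, [⟨84, 3, []⟩, ⟨40, 3, []⟩], [3, 3], 1, [(12, 1), (24, 1), (36, 1), (48, 1), (72, 1), (96, 1)]⟩,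
⟨0, [⟨40, 3, []⟩, ⟨1, 3, []⟩], [3, 3], 1, [(9, 1), (33, 1)]⟩,
⟨1, [⟨64, 3, []⟩, ⟨0, 0, [(3, 1), (5, 1), (24, 1)]⟩], [3, 3], 1, [(67, 1), (69, 1), (88, 1)]⟩,
⟨1, [⟨16, 3, []⟩, ⟨32, 4, []⟩, ⟨2, 3, []⟩, ⟨4, 3, []⟩, ⟨64, 4, []⟩], [3, 17, 12, 12], 2, [(38, 1), (70, 1), (112, 1), (118, 2)]⟩,
⟨0, [⟨1, 4, []⟩, ⟨24, 2, []⟩], [3, 2, 2], 1, [(9, 1), (17, 1)]⟩,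
⟨1, [⟨24, 5, []⟩, ⟨32, 3, [(3, 1)]⟩, ⟨64, 4, []⟩], [6], 1, [(75, 1), (83, 1), (104, 1), (112, 1)]⟩,
⟨1, [⟨18, 5, []⟩, ⟨5, 4, []⟩, ⟨64, 4, []⟩], [6], 1, [(67, 1), (70, 1), (81, 1), (84, 1)]⟩,
⟨0, [⟨8, 2, []⟩, ⟨16, 2, []⟩, ⟨1, 2, []⟩, ⟨68, 2, []⟩], [3, 3, 3, 12, 12, 12], 2, [(5, 1), (24, 1), (29, 2), (65, 1), (89, 2)]⟩,
⟨1, [⟨0, 0, [(5, 2)]⟩, ⟨2, 2, []⟩, ⟨24, 3, []⟩, ⟨32, 3, []⟩, ⟨64, 5, []⟩], [3, 1, 1, 14, 14], 2, [(69, 1), (104, 1), (111, 2), (112, 1), (119, 2)]⟩,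
⟨1, [⟨40, 4, []⟩, ⟨16, 3, []⟩, ⟨2, 3, []⟩, ⟨4, 3, []⟩, ⟨64, 4, []⟩], [17, 2, 2, 12, 12], 2, [(22, 1), (78, 1), (88, 1), (94, 2), (102, 1), (112, 1), (118, 2)]⟩,
⟨1, [⟨16, 2, [(9, 1)]⟩, ⟨32, 2, [(9, 1)]⟩, ⟨2, 2, []⟩, ⟨4, 4, []⟩, ⟨64, 5, []⟩], [3, 3, 12, 4, 4], 2, [(70, 1), (73, 1), (79, 2), (112, 1), (118, 2)]⟩,
⟨1, [⟨0, 0, [(3, 2)]⟩, ⟨4, 3, []⟩, ⟨16, 2, []⟩, ⟨32, 3, []⟩, ⟨64, 5, []⟩], [5, 1, 1, 14, 14], 2, [(67, 1), (100, 1), (119, 2)]⟩,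
⟨1, [⟨48, 5, []⟩, ⟨8, 2, []⟩, ⟨2, 3, []⟩, ⟨4, 3, []⟩, ⟨64, 4, []⟩], [18, 2, 2, 12, 12], 2, [(22, 1), (38, 1), (88, 1), (94, 2), (104, 1), (110, 2)]⟩,
⟨1, [⟨5, 4, []⟩, ⟨2, 3, []⟩, ⟨16, 3, []⟩, ⟨32, 3, []⟩, ⟨64, 4, []⟩], [3, 18, 12, 12], 2, [(49, 1), (52, 1), (67, 1), (70, 1), (112, 1), (115, 2), (118, 2)]⟩,
⟨1, [⟨6, 5, []⟩, ⟨1, 2, []⟩, ⟨16, 3, []⟩, ⟨32, 3, []⟩, ⟨64, 4, []⟩], [18, 2, 2, 12, 12], 2, [(50, 1), (52, 1), (67, 1), (69, 1), (115, 2), (117, 2)]⟩,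
⟨1, [⟨18, 3, []⟩, ⟨0, 0, [(33, 1)]⟩, ⟨4, 3, []⟩, ⟨64, 5, []⟩], [5, 5, 2, 2, 2, 2], 2, [(70, 1), (84, 1), (97, 1), (103, 2), (117, 2)]⟩,
⟨1, [⟨20, 4, []⟩, ⟨40, 4, []⟩, ⟨64, 5, []⟩], [3], 1, [(76, 1), (88, 1), (100, 1), (112, 1)]⟩,
⟨1, [⟨12, 3, []⟩, ⟨0, 0, [(17, 1)]⟩, ⟨32, 3, []⟩, ⟨64, 5, []⟩], [5, 5, 2, 2, 2, 2], 2, [(81, 1), (100, 1), (104, 1), (117, 2), (121, 2)]⟩,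
⟨1, [⟨36, 5, []⟩, ⟨16, 4, []⟩, ⟨64, 4, []⟩], [6], 1, [(84, 1), (112, 1)]⟩,
⟨1, [⟨24, 3, []⟩, ⟨0, 0, [(96, 3)]⟩], [3, 3], 1, [(104, 1), (112, 1)]⟩,
⟨0, [⟨1, 3, [(48, 1)]⟩, ⟨66, 2, []⟩], [3, 2, 2], 1, [(3, 1), (50, 1), (65, 1), (112, 1)]⟩,
⟨0, [⟨1, 3, []⟩, ⟨66, 2, [(48, 1)]⟩], [3, 3], 1, [(3, 1), (49, 1), (65, 1)]⟩,
⟨0, [⟨1, 3, []⟩, ⟨66, 3, []⟩], [3, 3], 1, [(3, 1), (65, 1)]⟩,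
⟨1, [⟨33, 4, []⟩, ⟨20, 4, []⟩, ⟨64, 5, []⟩], [3], 1, [(69, 1), (81, 1), (100, 1), (112, 1)]⟩,
⟨1, [⟨4, 3, []⟩, ⟨64, 3, []⟩], [3, 3], 1, [(68, 1)]⟩,
⟨1, [⟨24, 3, []⟩, ⟨32, 3, []⟩], [3, 3], 1, [(40, 1), (48, 1)]⟩,
⟨1, [⟨18, 4, []⟩, ⟨4, 4, []⟩, ⟨64, 5, []⟩], [3], 1, [(70, 1), (84, 1)]⟩,
⟨1, [⟨20, 4, []⟩, ⟨32, 4, []⟩, ⟨64, 5, []⟩], [3], 1, [(100, 1), (112, 1)]⟩,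
⟨0, [⟨33, 4, []⟩, ⟨20, 2, []⟩], [3, 2, 2], 1, [(5, 1), (17, 1), (36, 1), (48, 1)]⟩,
⟨1, [⟨18, 4, []⟩, ⟨33, 5, []⟩, ⟨64, 4, []⟩], [5], 1, [(67, 1), (81, 1), (98, 1), (112, 1)]⟩,
⟨0, [⟨9, 4, []⟩, ⟨64, 1, [(6, 1)]⟩], [3, 2, 2], 1, [(7, 1), (14, 1), (65, 1), (72, 1)]⟩,
⟨0, [⟨98, 3, []⟩, ⟨5, 3, []⟩], [3, 3], 1, [(3, 1), (6, 1), (33, 1), (36, 1), (65, 1), (68, 1)]⟩,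
⟨1, [⟨12, 5, []⟩, ⟨2, 4, []⟩, ⟨64, 4, []⟩], [6], 1, [(70, 1), (74, 1)]⟩,
⟨0, [⟨9, 4, []⟩, ⟨68, 2, []⟩], [3, 2, 2], 1, [(5, 1), (12, 1), (65, 1), (72, 1)]⟩,
⟨1, [⟨24, 3, []⟩, ⟨32, 4, []⟩, ⟨2, 3, []⟩, ⟨4, 3, []⟩, ⟨64, 4, []⟩], [3, 17, 12, 12], 2, [(38, 1), (70, 1), (104, 1), (110, 2), (112, 1), (118, 2)]⟩,
⟨1, [⟨32, 3, []⟩, ⟨0, 0, [(12, 2), (18, 1)]⟩], [3, 3], 1, [(44, 1), (50, 1)]⟩,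
⟨1, [⟨16, 3, []⟩, ⟨32, 3, []⟩], [3, 3], 1, [(48, 1)]⟩,
⟨1, [⟨36, 4, []⟩, ⟨3, 4, []⟩, ⟨64, 5, []⟩], [3], 1, [(69, 1), (70, 1), (97, 1), (98, 1)]⟩,
⟨0, [⟨2, 3, []⟩, ⟨4, 3, []⟩], [3, 3], 1, [(6, 1)]⟩,
⟨1, [⟨2, 3, []⟩, ⟨4, 3, []⟩, ⟨16, 2, []⟩, ⟨32, 4, []⟩, ⟨64, 5, []⟩], [3, 3, 12, 4, 4], 2, [(70, 1), (112, 1), (118, 2)]⟩,
⟨1, [⟨10, 5, []⟩, ⟨32, 3, [(3, 1)]⟩, ⟨64, 4, []⟩], [6], 1, [(67, 1), (98, 1), (104, 1)]⟩,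
⟨0, [⟨24, 3, []⟩, ⟨1, 3, []⟩], [3, 3], 1, [(9, 1), (17, 1)]⟩,
⟨1, [⟨18, 4, []⟩, ⟨12, 5, []⟩, ⟨64, 4, []⟩], [5], 1, [(70, 1), (74, 1), (84, 1), (88, 1)]⟩,
⟨0, [⟨14, 4, []⟩, ⟨65, 2, []⟩], [3, 2, 2], 1, [(3, 1), (5, 1), (9, 1), (66, 1), (68, 1), (72, 1)]⟩,
⟨1, [⟨2, 3, []⟩, ⟨4, 3, []⟩, ⟨16, 3, []⟩, ⟨32, 3, []⟩, ⟨64, 5, []⟩], [3, 3, 12, 12], 2, [(70, 1), (112, 1), (118, 2)]⟩,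
⟨1, [⟨17, 3, []⟩, ⟨64, 3, []⟩], [3, 3], 1, [(65, 1), (80, 1)]⟩,
⟨1, [⟨24, 5, []⟩, ⟨32, 3, [(6, 1)]⟩, ⟨64, 4, []⟩], [6], 1, [(78, 1), (86, 1), (104, 1), (112, 1)]⟩,
⟨0, [⟨112, 4, []⟩, ⟨8, 2, []⟩], [3, 2, 2], 1, [(24, 1), (40, 1), (72, 1)]⟩,
⟨1, [⟨32, 3, []⟩, ⟨0, 0, [(80, 3)]⟩], [3, 3], 1, [(112, 1)]⟩,
⟨1, [⟨18, 4, []⟩, ⟨36, 4, []⟩, ⟨64, 5, []⟩], [3], 1, [(70, 1), (84, 1), (98, 1), (112, 1)]⟩,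
⟨1, [⟨17, 4, []⟩, ⟨40, 4, []⟩, ⟨64, 5, []⟩], [3], 1, [(73, 1), (88, 1), (97, 1), (112, 1)]⟩,
⟨0, [⟨5, 4, []⟩, ⟨2, 2, []⟩], [3, 2, 2], 1, [(3, 1), (6, 1)]⟩,
⟨1, [⟨0, 0, [(17, 2)]⟩, ⟨4, 3, []⟩, ⟨32, 3, []⟩, ⟨64, 5, []⟩], [1, 1, 1, 2, 2, 4, 4], 2, [(85, 1), (100, 1), (113, 1), (117, 2)]⟩,
⟨1, [⟨40, 5, []⟩, ⟨16, 3, [(5, 1)]⟩, ⟨64, 4, []⟩], [6], 1, [(77, 1), (88, 1), (101, 1), (112, 1)]⟩,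
⟨1, [⟨0, 0, [(24, 2)]⟩, ⟨32, 2, []⟩, ⟨3, 3, []⟩, ⟨4, 3, []⟩, ⟨64, 5, []⟩], [3, 1, 1, 14, 14], 2, [(69, 1), (70, 1), (88, 1), (125, 2), (126, 2)]⟩,
⟨1, [⟨18, 5, []⟩, ⟨4, 3, [(48, 1)]⟩, ⟨64, 4, []⟩], [6], 1, [(70, 1), (84, 1), (112, 1)]⟩,
⟨1, [⟨9, 3, []⟩, ⟨64, 3, []⟩], [3, 3], 1, [(65, 1), (72, 1)]⟩,
⟨0, [⟨8, 2, []⟩, ⟨16, 2, []⟩, ⟨1, 2, []⟩, ⟨66, 2, []⟩], [3, 3, 3, 12, 12, 12], 2, [(3, 1), (24, 1), (27, 2), (65, 1), (89, 2)]⟩,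
⟨1, [⟨16, 3, []⟩, ⟨0, 0, [(12, 1), (33, 2)]⟩], [3, 3], 1, [(28, 1), (49, 1)]⟩,
⟨1, [⟨16, 2, []⟩, ⟨32, 4, []⟩, ⟨2, 3, []⟩, ⟨4, 3, []⟩, ⟨64, 3, []⟩], [3, 1, 1, 28, 28], 2, [(48, 1), (70, 1), (118, 2)]⟩,
⟨1, [⟨33, 5, []⟩, ⟨6, 4, []⟩, ⟨64, 4, []⟩], [6], 1, [(67, 1), (69, 1), (98, 1), (100, 1)]⟩,
⟨1, [⟨2, 3, []⟩, ⟨4, 3, []⟩, ⟨24, 5, []⟩, ⟨32, 3, []⟩, ⟨64, 4, []⟩], [3, 3, 8, 8, 16], 2, [(46, 1), (54, 1), (78, 1), (86, 1), (104, 1), (110, 2), (112, 1), (118, 2)]⟩,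
⟨1, [⟨18, 4, []⟩, ⟨4, 4, []⟩, ⟨64, 4, [(3, 1)]⟩], [3], 1, [(7, 1), (70, 1), (84, 1)]⟩,
⟨1, [⟨33, 4, []⟩, ⟨6, 4, []⟩, ⟨64, 5, []⟩], [3], 1, [(67, 1), (69, 1), (98, 1), (100, 1)]⟩,
⟨0, [⟨33, 4, []⟩, ⟨2, 2, []⟩], [3, 2, 2], 1, [(3, 1), (34, 1)]⟩,
⟨0, [⟨18, 4, []⟩, ⟨1, 2, []⟩], [3, 2, 2], 1, [(3, 1), (17, 1)]⟩,
⟨1, [⟨18, 4, []⟩, ⟨5, 4, []⟩, ⟨64, 5, []⟩], [3], 1, [(67, 1), (70, 1), (81, 1), (84, 1)]⟩,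
⟨1, [⟨2, 1, [(40, 2)]⟩, ⟨64, 3, []⟩], [3, 3], 1, [(66, 1), (104, 1)]⟩,
⟨1, [⟨36, 4, []⟩, ⟨18, 5, []⟩, ⟨64, 4, []⟩], [5], 1, [(70, 1), (84, 1), (98, 1), (112, 1)]⟩,
⟨0, [⟨9, 4, []⟩, ⟨66, 2, []⟩], [3, 2, 2], 1, [(3, 1), (10, 1), (65, 1), (72, 1)]⟩,
⟨1, [⟨16, 2, []⟩, ⟨32, 2, []⟩, ⟨0, 0, [(6, 2)]⟩, ⟨64, 5, []⟩], [3, 3, 3, 4, 4, 4], 2, [(70, 1), (112, 1), (118, 2)]⟩,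
⟨1, [⟨1, 2, [(12, 1)]⟩, ⟨2, 2, [(12, 1)]⟩, ⟨16, 2, []⟩, ⟨32, 4, []⟩, ⟨64, 5, []⟩], [3, 3, 12, 4, 4], 2, [(67, 1), (76, 1), (112, 1), (115, 2), (124, 2)]⟩,
⟨1, [⟨16, 3, []⟩, ⟨0, 0, [(12, 2), (34, 1)]⟩], [3, 3], 1, [(28, 1), (50, 1)]⟩,
⟨1, [⟨33, 4, []⟩, ⟨24, 4, []⟩, ⟨64, 5, []⟩], [3], 1, [(73, 1), (81, 1), (104, 1), (112, 1)]⟩,
⟨0, [⟨17, 4, []⟩, ⟨2, 2, []⟩], [3, 2, 2], 1, [(3, 1), (18, 1)]⟩,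
⟨0, [⟨33, 4, []⟩, ⟨64, 1, [(6, 1)]⟩], [3, 2, 2], 1, [(7, 1), (38, 1), (65, 1), (96, 1)]⟩,
⟨0, [⟨17, 4, []⟩, ⟨8, 2, []⟩], [3, 2, 2], 1, [(9, 1), (24, 1)]⟩,
⟨1, [⟨33, 4, []⟩, ⟨4, 4, []⟩, ⟨64, 5, []⟩], [3], 1, [(69, 1), (100, 1)]⟩,
⟨0, [⟨3, 4, []⟩, ⟨4, 2, []⟩], [3, 2, 2], 1, [(5, 1), (6, 1)]⟩,
⟨0, [⟨52, 4, []⟩, ⟨72, 2, []⟩], [3, 2, 2], 1, [(12, 1), (24, 1), (40, 1), (68, 1), (80, 1), (96, 1)]⟩,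
⟨1, [⟨36, 4, []⟩, ⟨17, 5, []⟩, ⟨64, 4, []⟩], [5], 1, [(69, 1), (84, 1), (97, 1), (112, 1)]⟩,
⟨1, [⟨10, 4, []⟩, ⟨4, 4, []⟩, ⟨64, 5, []⟩], [3], 1, [(70, 1), (76, 1)]⟩,
⟨1, [⟨36, 4, []⟩, ⟨3, 5, []⟩, ⟨64, 4, []⟩], [5], 1, [(69, 1), (70, 1), (97, 1), (98, 1)]⟩,
⟨1, [⟨12, 5, []⟩, ⟨32, 3, [(5, 1)]⟩, ⟨64, 4, []⟩], [6], 1, [(69, 1), (100, 1), (104, 1)]⟩,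
⟨1, [⟨5, 5, []⟩, ⟨2, 3, [(24, 1)]⟩, ⟨64, 4, []⟩], [6], 1, [(67, 1), (70, 1), (89, 1), (92, 1)]⟩,
⟨0, [⟨4, 2, []⟩, ⟨24, 4, []⟩], [3, 1, 1], 1, [(12, 1), (20, 1)]⟩,
⟨1, [⟨20, 5, []⟩, ⟨32, 4, []⟩, ⟨64, 4, []⟩], [6], 1, [(100, 1), (112, 1)]⟩,
⟨0, [⟨1, 2, []⟩, ⟨24, 4, []⟩], [3, 1, 1], 1, [(9, 1), (17, 1)]⟩,
⟨0, [⟨1, 3, []⟩, ⟨38, 3, []⟩], [3, 3], 1, [(3, 1), (5, 1), (33, 1)]⟩,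
⟨1, [⟨33, 4, []⟩, ⟨20, 5, []⟩, ⟨64, 4, []⟩], [5], 1, [(69, 1), (81, 1), (100, 1), (112, 1)]⟩,
⟨1, [⟨40, 5, []⟩, ⟨16, 2, []⟩, ⟨2, 3, []⟩, ⟨4, 3, []⟩, ⟨64, 4, []⟩], [18, 2, 2, 12, 12], 2, [(14, 1), (38, 1), (88, 1), (94, 2), (112, 1), (118, 2)]⟩,
⟨1, [⟨33, 4, []⟩, ⟨6, 5, []⟩, ⟨64, 4, []⟩], [5], 1, [(67, 1), (69, 1), (98, 1), (100, 1)]⟩,
⟨1, [⟨10, 4, []⟩, ⟨48, 5, []⟩, ⟨64, 4, []⟩], [5], 1, [(82, 1), (88, 1), (98, 1), (104, 1)]⟩,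
⟨1, [⟨2, 3, []⟩, ⟨4, 4, []⟩, ⟨16, 3, []⟩, ⟨32, 3, []⟩, ⟨64, 4, []⟩], [3, 17, 12, 12], 2, [(52, 1), (70, 1), (112, 1), (118, 2)]⟩,
⟨1, [⟨40, 5, []⟩, ⟨16, 3, [(3, 1)]⟩, ⟨64, 4, []⟩], [6], 1, [(75, 1), (88, 1), (99, 1), (112, 1)]⟩,
⟨0, [⟨114, 4, []⟩, ⟨8, 2, []⟩], [3, 2, 2], 1, [(10, 1), (24, 1), (40, 1), (72, 1)]⟩,
⟨0, [⟨17, 4, []⟩, ⟨64, 1, [(6, 1)]⟩], [3, 2, 2], 1, [(7, 1), (22, 1), (65, 1), (80, 1)]⟩,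
⟨0, [⟨10, 4, []⟩, ⟨1, 2, []⟩], [3, 2, 2], 1, [(3, 1), (9, 1)]⟩,
⟨0, [⟨10, 4, []⟩, ⟨96, 2, []⟩], [3, 2, 2], 1, [(34, 1), (40, 1), (66, 1), (72, 1)]⟩,
⟨0, [⟨8, 2, []⟩, ⟨6, 4, []⟩], [3, 1, 1], 1, [(10, 1), (12, 1)]⟩,
⟨1, [⟨12, 4, []⟩, ⟨18, 5, []⟩, ⟨64, 4, []⟩], [5], 1, [(70, 1), (74, 1), (84, 1), (88, 1)]⟩,
⟨1, [⟨0, 0, [(33, 2)]⟩, ⟨4, 3, []⟩, ⟨16, 3, []⟩, ⟨64, 5, []⟩], [1, 1, 1, 2, 2, 4, 4], 2, [(84, 1), (101, 1), (113, 1), (117, 2)]⟩,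
⟨1, [⟨18, 5, []⟩, ⟨32, 3, [(3, 1)]⟩, ⟨64, 4, []⟩], [6], 1, [(67, 1), (98, 1), (112, 1)]⟩,
⟨0, [⟨18, 3, []⟩, ⟨1, 3, []⟩], [3, 3], 1, [(3, 1), (17, 1)]⟩,
⟨1, [⟨34, 4, []⟩, ⟨4, 4, []⟩, ⟨64, 5, []⟩], [3], 1, [(70, 1), (100, 1)]⟩,
⟨1, [⟨0, 0, [(18, 2)]⟩, ⟨4, 3, []⟩, ⟨32, 3, []⟩, ⟨64, 5, []⟩], [1, 1, 1, 2, 2, 4, 4], 2, [(86, 1), (100, 1), (114, 1), (118, 2)]⟩,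
⟨0, [⟨69, 4, []⟩, ⟨2, 2, []⟩], [3, 2, 2], 1, [(3, 1), (6, 1), (66, 1)]⟩,
⟨0, [⟨81, 3, []⟩, ⟨40, 3, []⟩], [3, 3], 1, [(9, 1), (24, 1), (33, 1), (48, 1), (72, 1), (96, 1)]⟩,
⟨1, [⟨34, 4, []⟩, ⟨20, 4, []⟩, ⟨64, 5, []⟩], [3], 1, [(70, 1), (82, 1), (100, 1), (112, 1)]⟩,
⟨0, [⟨1, 3, []⟩, ⟨4, 3, []⟩], [3, 3], 1, [(5, 1)]⟩,
⟨1, [⟨34, 5, []⟩, ⟨4, 4, []⟩, ⟨64, 4, []⟩], [6], 1, [(70, 1), (100, 1)]⟩,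
⟨1, [⟨17, 4, []⟩, ⟨4, 4, []⟩, ⟨64, 5, []⟩], [3], 1, [(69, 1), (84, 1)]⟩,
⟨1, [⟨17, 4, []⟩, ⟨36, 4, []⟩, ⟨64, 5, []⟩], [3], 1, [(69, 1), (84, 1), (97, 1), (112, 1)]⟩,
⟨0, [⟨9, 4, []⟩, ⟨96, 2, []⟩], [3, 2, 2], 1, [(33, 1), (40, 1), (65, 1), (72, 1)]⟩,
⟨0, [⟨1, 4, []⟩, ⟨18, 2, []⟩], [3, 2, 2], 1, [(3, 1), (17, 1)]⟩,
⟨1, [⟨0, 0, [(10, 2)]⟩, ⟨4, 3, []⟩, ⟨32, 3, []⟩, ⟨64, 5, []⟩], [1, 1, 1, 2, 2, 4, 4], 2, [(78, 1), (100, 1), (106, 1), (110, 2)]⟩,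
⟨1, [⟨20, 4, []⟩, ⟨72, 5, []⟩, ⟨32, 4, []⟩], [5], 1, [(44, 1), (56, 1), (100, 1), (112, 1)]⟩,
⟨1, [⟨2, 2, [(17, 1)]⟩, ⟨4, 2, [(17, 1)]⟩, ⟨32, 4, []⟩, ⟨64, 5, []⟩, ⟨0, 0, [(24, 2)]⟩], [3, 3, 20, 16, 16], 2, [(70, 1), (81, 1), (120, 1), (121, 2), (126, 2)]⟩,
⟨1, [⟨32, 4, []⟩, ⟨2, 3, [(24, 1)]⟩, ⟨4, 4, [(24, 1)]⟩], [3], 1, [(38, 1), (56, 1)]⟩,
⟨1, [⟨3, 3, []⟩, ⟨4, 3, []⟩, ⟨0, 0, [(24, 2)]⟩, ⟨32, 4, []⟩, ⟨64, 3, []⟩], [19, 19, 12, 4, 4], 2, [(56, 1), (69, 1), (70, 1), (125, 2), (126, 2)]⟩,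
⟨1, [⟨18, 5, []⟩, ⟨4, 4, []⟩, ⟨64, 4, []⟩], [6], 1, [(70, 1), (84, 1)]⟩,
⟨1, [⟨12, 5, []⟩, ⟨32, 3, []⟩, ⟨2, 2, []⟩, ⟨64, 5, []⟩, ⟨0, 0, [(20, 2)]⟩], [2, 2, 20, 20, 20], 2, [(86, 1), (100, 1), (104, 1), (118, 2)]⟩,
⟨1, [⟨20, 5, []⟩, ⟨3, 4, []⟩, ⟨64, 4, []⟩], [6], 1, [(69, 1), (70, 1), (81, 1), (82, 1)]⟩,
⟨1, [⟨34, 5, []⟩, ⟨4, 3, [(40, 1)]⟩, ⟨64, 4, []⟩], [6], 1, [(70, 1), (100, 1), (104, 1)]⟩,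
⟨1, [⟨32, 3, []⟩, ⟨0, 0, [(24, 3)]⟩], [3, 3], 1, [(56, 1)]⟩,
⟨1, [⟨18, 4, []⟩, ⟨32, 4, []⟩, ⟨64, 4, [(24, 1)]⟩], [3], 1, [(56, 1), (98, 1), (112, 1)]⟩,
⟨1, [⟨9, 4, []⟩, ⟨6, 5, []⟩, ⟨64, 4, []⟩], [5], 1, [(67, 1), (69, 1), (74, 1), (76, 1)]⟩,
⟨1, [⟨18, 4, []⟩, ⟨36, 5, []⟩, ⟨64, 4, []⟩], [5], 1, [(70, 1), (84, 1), (98, 1), (112, 1)]⟩,
⟨1, [⟨17, 3, []⟩, ⟨0, 0, [(34, 1)]⟩, ⟨4, 3, []⟩, ⟨64, 5, []⟩], [5, 5, 2, 2, 2, 2], 2, [(69, 1), (84, 1), (98, 1), (103, 2), (118, 2)]⟩,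
⟨1, [⟨10, 4, []⟩, ⟨32, 4, []⟩, ⟨64, 5, []⟩], [3], 1, [(98, 1), (104, 1)]⟩,
⟨1, [⟨10, 5, []⟩, ⟨4, 4, []⟩, ⟨64, 4, []⟩], [6], 1, [(70, 1), (76, 1)]⟩,
⟨1, [⟨17, 4, []⟩, ⟨6, 4, []⟩, ⟨64, 5, []⟩], [3], 1, [(67, 1), (69, 1), (82, 1), (84, 1)]⟩,
⟨1, [⟨18, 5, []⟩, ⟨32, 4, []⟩, ⟨64, 4, []⟩], [6], 1, [(98, 1), (112, 1)]⟩,
⟨1, [⟨34, 4, []⟩, ⟨20, 5, []⟩, ⟨64, 4, []⟩], [5], 1, [(70, 1), (82, 1), (100, 1), (112, 1)]⟩,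
⟨0, [⟨9, 4, []⟩, ⟨20, 2, []⟩], [3, 2, 2], 1, [(5, 1), (12, 1), (17, 1), (24, 1)]⟩,
⟨1, [⟨20, 5, []⟩, ⟨32, 3, []⟩, ⟨1, 2, []⟩, ⟨64, 5, []⟩, ⟨0, 0, [(12, 2)]⟩], [2, 2, 20, 20, 20], 2, [(77, 1), (100, 1), (109, 2), (112, 1)]⟩,
⟨1, [⟨16, 1, [(6, 2)]⟩, ⟨64, 3, []⟩], [3, 3], 1, [(70, 1), (80, 1)]⟩,
⟨1, [⟨20, 4, []⟩, ⟨3, 5, []⟩, ⟨64, 4, []⟩], [5], 1, [(69, 1), (70, 1), (81, 1), (82, 1)]⟩,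
⟨0, [⟨20, 3, []⟩, ⟨1, 3, []⟩], [3, 3], 1, [(5, 1), (17, 1)]⟩,
⟨1, [⟨8, 2, [(18, 1)]⟩, ⟨32, 2, [(18, 1)]⟩, ⟨1, 2, []⟩, ⟨4, 4, []⟩, ⟨64, 5, []⟩], [3, 3, 12, 4, 4], 2, [(69, 1), (82, 1), (87, 2), (104, 1), (109, 2)]⟩,
⟨1, [⟨0, 0, [(6, 2)]⟩, ⟨8, 2, []⟩, ⟨16, 3, []⟩, ⟨32, 3, []⟩, ⟨64, 5, []⟩], [3, 1, 1, 14, 14], 2, [(70, 1), (112, 1), (126, 2)]⟩,
⟨1, [⟨0, 0, [(20, 2)]⟩, ⟨2, 3, []⟩, ⟨32, 3, []⟩, ⟨64, 5, []⟩], [1, 1, 1, 2, 2, 4, 4], 2, [(86, 1), (98, 1), (116, 1), (118, 2)]⟩,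
⟨1, [⟨0, 0, [(36, 3)]⟩, ⟨18, 3, []⟩], [3, 3], 1, [(38, 1), (52, 1)]⟩,
⟨1, [⟨10, 4, []⟩, ⟨5, 5, []⟩, ⟨64, 4, []⟩], [5], 1, [(67, 1), (70, 1), (73, 1), (76, 1)]⟩,
⟨1, [⟨9, 4, []⟩, ⟨32, 4, []⟩, ⟨64, 5, []⟩], [3], 1, [(97, 1), (104, 1)]⟩,
⟨1, [⟨0, 0, [(40, 2)]⟩, ⟨16, 2, []⟩, ⟨3, 3, []⟩, ⟨4, 3, []⟩, ⟨64, 5, []⟩], [3, 1, 1, 14, 14], 2, [(69, 1), (70, 1), (104, 1), (125, 2), (126, 2)]⟩,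
⟨1, [⟨2, 3, []⟩, ⟨0, 0, [(20, 2), (33, 1)]⟩], [3, 3], 1, [(22, 1), (35, 1)]⟩,
⟨1, [⟨12, 4, []⟩, ⟨3, 4, []⟩, ⟨64, 5, []⟩], [3], 1, [(69, 1), (70, 1), (73, 1), (74, 1)]⟩]

theorem base_ok : base.all (fun q => q.ok 7 2 [7, 56] [10, 2000, 2000, 2000] big4 [(0, 1, 0, 0), (0, 2, 0, 1), (0, 4, 0, 3), (0, 5, 0, 4), (0, 3, 0, 0)]) = true := by
  decide +kernel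

theorem gv_ok : gv.all (fun c => c.ok 1 9) = true := by decide +kernel

theorem gads_ok : gads.all (fun g => g.okV 7 2 [2, 4]) = true := by decide +kernel

theorem cmp_ok : cmpR names cnf (clsu 2 base ++ (gv.map Gv.cl ++ gads.map Gt.cl)) = true := by
  decide +kernel

end DG01

theorem instl_01 : instLS 1 2 [2, 4] 10 9 [(0, 1, 0, 0), (0, 2, 0, 1), (0, 4, 0, 3), (0, 5, 0, 4), (0, 3, 0, 0)] DG01.base DG01.gv DG01.gads DG01.names DG01.cnf DG01.db DG01.prf = true :=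
  instLS_of DG01.base_ok DG01.gv_ok DG01.gads_ok (by decide +kernel) DG01.okc DG01.cmp_ok DG01.chk_ok

/-- there is no configuration of this instance. -/
theorem nol_01 {V : Type v} [DecidableEq V] {ι : Type u} [Fintype ι] {B : ι → Finset V}
    {Q : Finset V} {x : ℕ → V} {C : ℕ → Finset V}
    (h : CfL B Q 1 2 x C [2, 4] [] 10 9) : False :=
  h.absurd_srt rfl instl_01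

end Pool.Agent.Hyp6
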