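import Pool.Agent.Hyp6.CfGb
import Pool.Agent.Hyp6.InsG.F02

/-!
# HYP6: leaf instance 2: n = 1, r = 2, bounds [4, 2], inner blocks []

1380 base clauses, 207 given clauses, 895 gadgets, 3285 learned clauses.
-/

set_option autoImplicit false
set_option maxRecDepth 100000

namespace Pool.Agent.Hyp6

open Rup

universe u v

namespace DG02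

noncomputable def base : List Ru := [
.rs (.l2 0 5 9 0 1 1),
.rs (.lipl 1 81 117 0 36),
.rs (.le 1 10 2 1 3),
.rs (.ordE 1 2 2),
.rs (.le 0 18 16 4 3),
.rs (.join 0 17 6 3 2 1 [(0, 0), (4, 0)]),
.rs (.l2 1 9 10 3 1 1),
.rs (.join 0 4 3 3 2 3 [(2, 2)]),
.rs (.join 1 1 4 4 1 3 [(0, 0)]),
.rs (.deg 5 [2, 1]),
.rs (.lip 1 30 94 64),
.rs (.join 1 16 5 4 1 3 [(4, 0)]),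
.rs (.l2 0 9 65 0 1 1),
.rs (.join 1 16 5 4 2 3 [(4, 1)]),
.rs (.slot 0 [(1, 1), (2, 2), (0, 3), (3, 2), (5, 3), (4, 2)]),
.rs (.lipl 1 97 109 1 12),
.rs (.join 0 1 2 3 2 2 [(0, 1)]),
.rs (.join 1 8 5 3 3 0 [(3, 0)]),
.rs (.lipl 0 41 59 1 18),
.rs (.part [52, 72] [0, 0] [3] []),
.rs (.l2 0 9 17 0 1 1),
.rs (.lipl 1 76 94 0 18),
.rs (.lipl 0 10 46 1 36),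
.rs (.join 0 8 5 2 0 2 [(3, 0)]),
.rs (.join 1 1 3 2 1 1 [(0, 0)]),
.rs (.join 0 1 5 3 3 1 [(0, 1)]),
.rs (.l2 0 20 24 4 1 1),
.rs (.mono 0 4 68 1),
.rs (.join 1 1 2 3 2 2 [(0, 1)]),
.rs (.part [45, 82] [1, 0] [] []),
.rs (.join 1 1 5 2 1 1 [(0, 0)]),
.rs (.part [43, 84] [1, 0] [] []),
.rs (.slot 0 [(2, 3), (0, 2), (5, 3), (3, 2), (4, 2), (6, 1)]),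
.rs (.ab2 0 5),
.rs (.un 0 6),
.rs (.ab2 0 65),
.rs (.le 0 34 2 1 3),
.rs (.part [33, 88] [0, 0] [6] []),
.rs (.mono 1 4 12 1),
.rs (.l2 1 17 20 4 1 2),
.rs (.l2 0 72 80 6 1 1),
.rs (.lipl 1 98 118 0 20),
.rs (.join 0 1 5 2 2 0 [(0, 0)]),
.rs (.mono 0 8 10 1),
.rs (.le 0 10 8 3 2),
.rs (.lipl 1 82 91 1 9),
.rs (.lipl 1 98 107 1 9),
.rs (.part [64, 56] [0, 0] [7] []),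
.rs (.mono 1 9 73 1),
.rs (.join 1 2 2 4 3 1 [(1, 0)]),
.rs (.part [48, 72] [0, 0] [7] []),
.rs (.join 1 2 4 4 4 0 [(1, 0)]),
.rs (.slot 0 [(5, 1), (4, 2), (3, 4), (1, 2), (2, 4)]),
.rs (.join 0 8 5 3 2 2 [(3, 1)]),
.rs (.l2 1 24 48 4 1 1),
.rs (.lipl 1 73 109 0 36),
.rs (.join 1 8 4 3 2 1 [(3, 0)]),
.rs (.lipl 0 21 55 1 34),
.rs (.lipl 1 74 110 0 36),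
.rs (.le 0 17 1 0 2),
.rs (.lipl 1 98 110 1 12),
.rs (.slot 0 [(2, 1), (1, 2), (0, 3), (3, 2), (4, 2), (5, 2), (6, 1)]),
.rs (.ab 1 6),
.rs (.join 0 12 6 3 2 1 [(2, 0), (3, 0)]),
.rs (.l2 0 17 48 4 1 2),
.rs (.join 0 2 6 3 2 1 [(1, 0)]),
.rs (.part [73, 48] [0, 0] [6] []),
.rs (.l2 1 9 12 3 2 2),
.rs (.lipl 0 33 53 1 20),
.rs (.part [11, 116] [0, 1] [] []),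
.rs (.le 0 20 4 2 3),
.rs (.part [48, 74] [0, 0] [5] []),
.rs (.ordE 1 8 1),
.rs (.part [5, 98] [0, 0] [24] []),
.rs (.join 0 1 5 2 1 1 [(0, 0)]),
.rs (.join 1 2 5 4 2 4 [(1, 2)]),
.rs (.slot 0 [(0, 1), (1, 2), (2, 4), (5, 2), (4, 4)]),
.rs (.mono 0 18 26 1),
.rs (.part [24, 100] [0, 0] [3] []),
.rs (.join 1 4 4 4 2 2 [(2, 0)]),
.rs (.join 1 2 2 3 2 2 [(1, 1)]),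
.rs (.lipl 1 82 118 0 36),
.rs (.join 0 1 4 3 3 1 [(0, 1)]),
.rs (.le 1 6 4 2 1),
.rs (.slot 0 [(2, 1), (1, 2), (0, 3), (3, 2), (5, 3), (4, 2)]),
.rs (.lip 0 57 63 7),
.rs (.lipl 0 36 45 1 9),
.rs (.lipl 0 21 31 1 10),
.rs (.ordE 1 4 2),
.rs (.join 0 8 4 4 2 2 [(3, 0)]),
.rs (.lipl 1 81 91 1 10),
.rs (.join 0 4 5 2 1 1 [(2, 0)]),
.rs (.slot 0 [(0, 4), (2, 2), (4, 2), (3, 4), (6, 1)]),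
.rs (.join 0 20 6 3 2 1 [(2, 0), (4, 0)]),
.rs (.mono 0 20 28 1),
.rs (.ordE 1 8 3),
.rs (.lipl 0 10 43 1 33),
.rs (.lipl 1 28 93 0 65),
.rs (.lipl 1 14 110 0 96),
.rs (.le 1 20 4 2 1),
.rs (.lipl 1 100 118 0 18),
.rs (.join 0 4 3 3 0 3 [(2, 0)]),
.rs (.mono 0 33 35 1),
.rs (.l2 0 66 96 6 1 1),
.rs (.join 0 2 3 3 3 0 [(1, 0)]),
.rs (.le 0 5 1 0 1),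
.rs (.part [9, 112] [0, 0] [6] []),
.rs (.join 1 2 2 3 3 0 [(1, 0)]),
.rs (.slot 0 [(2, 1), (1, 2), (0, 3), (4, 2), (3, 3), (5, 2)]),
.rs (.lipl 1 41 109 0 68),
.rs (.lipl 0 20 29 1 9),
.rs (.join 0 8 5 3 1 2 [(3, 0)]),
.rs (.mono 0 8 40 1),
.rs (.le 0 66 64 6 1),
.rs (.join 0 1 4 2 1 1 [(0, 0)]),
.rs (.l2 1 12 24 3 2 1),
.rs (.join 1 1 2 4 3 2 [(0, 1)]),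
.rs (.lip 1 66 82 16),
.rs (.join 0 16 5 2 1 1 [(4, 0)]),
.rs (.l2 1 34 48 5 1 1),
.rs (.slot 0 [(0, 4), (2, 4), (1, 3), (3, 1), (5, 1)]),
.rs (.ab 0 0),
.rs (.slot 0 [(0, 3), (2, 2), (4, 3), (3, 2), (5, 2), (6, 1)]),
.rs (.slot 0 [(1, 1), (2, 2), (0, 3), (4, 2), (3, 3), (5, 2)]),
.rs (.join 1 2 3 5 2 3 [(1, 0)]),
.rs (.ordE 0 2 3),
.rs (.join 1 1 2 4 2 3 [(0, 1)]),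
.rs (.le 0 34 32 5 1),
.rs (.lipl 1 73 107 0 34),
.rs (.lipl 1 97 117 0 20),
.rs (.join 1 8 4 4 2 3 [(3, 1)]),
.rs (.join 1 1 2 3 1 2 [(0, 0)]),
.rs (.part [25, 102] [0, 1] [] []),
.rs (.l2 0 10 66 1 2 1),
.rs (.le 0 18 16 4 1),
.rs (.part [53, 74] [0, 1] [] []),
.rs (.le 1 18 16 4 3),
.rs (.part [40, 84] [0, 0] [3] []),
.rs (.le 1 33 32 5 3),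
.rs (.part [40, 81] [0, 0] [6] []),
.rs (.lipl 0 41 61 1 20),
.rs (.part [13, 66] [0, 0] [48] []),
.rs (.le 0 68 4 2 1),
.rs (.un 0 2),
.rs (.l2 1 10 12 3 1 2),
.rs (.part [82, 40] [0, 0] [5] []),
.rs (.lipl 1 81 117 1 36),
.rs (.lip 0 56 63 7),
.rs (.slot 0 [(5, 1), (4, 2), (3, 3), (0, 2), (2, 3), (1, 2)]),
.rs (.deg 0 [3, 0]),
.rs (.join 1 1 3 4 2 3 [(0, 1)]),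
.rs (.part [65, 6] [0, 0] [56] []),
.rs (.part [18, 109] [0, 1] [] []),
.rs (.slot 0 [(1, 1), (0, 2), (2, 3), (4, 2), (3, 3), (5, 2)]),
.rs (.lipl 0 44 61 1 17),
.rs (.join 0 1 2 4 2 2 [(0, 0)]),
.rs (.mono 0 64 72 1),
.rs (.lipl 1 44 110 0 66),
.rs (.le 0 36 4 2 2),
.rs (.part [63, 64] [1, 0] [] []),
.rs (.le 0 36 32 5 3),
.rs (.lipl 0 34 43 1 9),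
.rs (.deg 5 [1, 2]),
.rs (.le 0 33 1 0 1),
.rs (.join 0 8 5 4 2 2 [(3, 0)]),
.rs (.l2 1 10 18 1 1 2),
.rs (.join 0 18 6 3 2 1 [(1, 0), (4, 0)]),
.rs (.join 1 4 4 2 1 1 [(2, 0)]),
.rs (.join 0 1 5 3 3 2 [(0, 2)]),
.rs (.join 1 1 3 4 3 1 [(0, 0)]),
.rs (.join 0 4 3 2 2 0 [(2, 0)]),
.rs (.lipl 1 84 118 1 34),
.rs (.lipl 0 52 61 1 9),
.rs (.slot 0 [(3, 3), (5, 2), (2, 3), (0, 2), (1, 2), (6, 1)]),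
.rs (.join 0 2 4 3 2 2 [(1, 1)]),
.rs (.join 1 4 5 4 2 4 [(2, 2)]),
.rs (.deg 3 [0, 3]),
.rs (.slot 0 [(5, 3), (4, 2), (2, 3), (0, 2), (1, 2), (6, 1)]),
.rs (.part [48, 76] [0, 0] [3] []),
.rs (.part [19, 68] [0, 0] [40] []),
.rs (.l2 1 3 33 0 1 2),
.rs (.join 0 2 2 2 1 1 [(1, 0)]),
.rs (.le 1 36 32 5 2),
.rs (.join 0 2 2 4 2 2 [(1, 0)]),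
.rs (.le 0 33 32 5 2),
.rs (.join 0 2 4 3 2 3 [(1, 2)]),
.rs (.join 1 1 4 4 2 2 [(0, 0)]),
.rs (.slot 0 [(3, 1), (4, 3), (0, 3), (1, 3), (2, 3)]),
.rs (.l2 0 3 33 0 1 1),
.rs (.le 0 24 16 4 1),
.rs (.ordE 0 1 2),
.rs (.join 0 4 3 3 3 1 [(2, 1)]),
.rs (.mono 0 32 33 1),
.rs (.ordE 0 16 1),
.rs (.slot 0 [(4, 3), (3, 2), (2, 3), (0, 2), (1, 2), (6, 1)]),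
.rs (.mono 0 32 36 1),
.rs (.l2 0 36 48 5 1 1),
.rs (.deg 6 [4, 0]),
.rs (.join 0 40 6 3 2 1 [(3, 0), (5, 0)]),
.rs (.join 0 2 4 2 1 1 [(1, 0)]),
.rs (.le 1 10 8 3 3),
.rs (.join 0 3 6 3 2 1 [(0, 0), (1, 0)]),
.rs (.join 0 8 4 3 0 3 [(3, 0)]),
.rs (.lipl 0 13 47 1 34),
.rs (.mono 0 11 43 1),
.rs (.lipl 0 18 30 0 12),
.rs (.slot 0 [(0, 1), (2, 2), (1, 3), (3, 2), (5, 3), (4, 2)]),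
.rs (.join 0 8 6 3 3 0 [(3, 0)]),
.rs (.ab2 0 12),
.rs (.l2 0 10 40 3 1 2),
.rs (.join 1 4 4 4 2 3 [(2, 1)]),
.degU 6 [(0, 1), (1, 5)],
.rs (.join 0 16 5 4 2 2 [(4, 0)]),
.rs (.step 0 6 30 [14, 22, 26, 28, 30] []),
.degU 2 [(0, 3), (1, 2)],
.rs (.ab2 0 6),
.rs (.part [6, 73] [0, 0] [48] []),
.rs (.slot 0 [(3, 1), (4, 2), (5, 3), (0, 2), (1, 3), (2, 2)]),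
.rs (.lipl 1 14 94 0 80),
.rs (.lipl 1 35 115 0 80),
.rs (.slot 0 [(4, 2), (5, 2), (0, 3), (1, 3), (2, 3)]),
.rs (.part [4, 67] [0, 0] [56] []),
.rs (.join 0 4 5 3 1 3 [(2, 1)]),
.rs (.part [38, 65] [0, 0] [24] []),
.rs (.part [35, 68] [0, 0] [24] []),
.rs (.le 0 66 2 1 1),
.rs (.l2 0 36 96 5 2 1),
.rs (.join 0 1 2 3 2 1 [(0, 0)]),
.rs (.l2 0 10 72 3 1 1),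
.rs (.ab2 1 6),
.rs (.join 0 4 5 3 2 1 [(2, 0)]),
.rs (.mono 0 2 34 1),
.rs (.mono 0 64 68 1),
.rs (.slot 0 [(4, 1), (5, 2), (3, 3), (1, 2), (0, 3), (2, 2)]),
.rs (.slot 0 [(5, 1), (3, 2), (4, 3), (0, 2), (2, 3), (1, 2)]),
.rs (.lipl 0 13 31 1 18),
.rs (.lipl 1 81 115 0 34),
.rs (.part [10, 112] [0, 0] [5] []),
.rs (.le 1 17 1 0 3),
.rs (.le 1 34 32 5 3),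
.rs (.l2 0 66 72 6 1 1),
.rs (.join 0 4 3 3 1 3 [(2, 1)]),
.rs (.slot 0 [(0, 1), (2, 2), (1, 4), (5, 2), (4, 4)]),
.rs (.join 0 2 4 3 3 0 [(1, 0)]),
.rs (.join 1 4 3 4 3 1 [(2, 0)]),
.rs (.mono 1 4 36 1),
.rs (.join 0 1 1 2 2 0 [(0, 0)]),
.rs (.join 0 8 5 2 1 1 [(3, 0)]),
.rs (.mono 0 4 36 1),
.rs (.step 0 6 15 [7, 11, 13, 14, 15] []),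
.rs (.part [54, 73] [1, 0] [] []),
.rs (.mono 1 80 112 1),
.rs (.l2 0 5 17 0 1 1),
.rs (.join 0 2 3 3 3 1 [(1, 1)]),
.rs (.lipl 1 11 107 0 96),
.rs (.lipl 0 9 43 1 34),
.rs (.slot 0 [(2, 3), (1, 2), (3, 3), (4, 2), (5, 2), (6, 1)]),
.rs (.join 0 1 4 2 2 0 [(0, 0)]),
.rs (.mono 0 4 20 1),
.rs (.part [30, 97] [0, 1] [] []),
.rs (.l2 1 6 34 1 1 2),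
.rs (.lipl 0 33 51 1 18),
.rs (.join 0 16 5 2 0 2 [(4, 0)]),
.rs (.join 1 1 5 4 4 2 [(0, 2)]),
.rs (.mono 0 20 22 1),
.rs (.slot 0 [(0, 1), (2, 3), (3, 3), (4, 3), (5, 3)]),
.rs (.le 0 10 8 3 3),
.rs (.lipl 1 100 117 1 17),
.rs (.join 0 8 5 3 3 0 [(3, 0)]),
.rs (.join 1 2 5 4 2 2 [(1, 0)]),
.rs (.lipl 0 34 43 0 9),
.rs (.lipl 0 34 46 1 12),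
.rs (.mono 1 48 112 1),
.rs (.ab2 0 66),
.rs (.join 1 1 5 4 1 4 [(0, 1)]),
.rs (.slot 0 [(3, 3), (4, 2), (1, 3), (0, 2), (2, 2), (6, 1)]),
.rs (.lipl 0 34 54 0 20),
.rs (.part [35, 92] [0, 1] [] []),
.rs (.le 1 17 1 0 1),
.rs (.part [3, 84] [0, 0] [40] []),
.rs (.lip 0 60 63 7),
.rs (.lipl 0 19 31 1 12),
.rs (.slot 0 [(3, 2), (5, 2), (0, 3), (1, 3), (2, 3)]),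
.rs (.part [37, 66] [0, 0] [24] []),
.rs (.join 1 2 5 4 1 3 [(1, 0)]),
.rs (.join 0 8 4 3 3 0 [(3, 0)]),
.rs (.ab2 0 9),
.rs (.join 0 2 3 3 2 2 [(1, 1)]),
.rs (.part [98, 24] [0, 0] [5] []),
.rs (.part [6, 65] [0, 0] [56] []),
.rs (.lipl 0 44 62 1 18),
.rs (.part [1, 70] [0, 0] [56] []),
.rs (.mono 0 66 82 1),
.rs (.l2 0 5 68 2 2 1),
.rs (.slot 0 [(5, 1), (4, 2), (3, 4), (1, 2), (0, 4)]),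
.rs (.join 1 2 4 4 2 2 [(1, 0)]),
.rs (.l2 1 18 20 4 2 2),
.rs (.join 0 8 4 2 1 1 [(3, 0)]),
.rs (.join 1 4 3 4 2 4 [(2, 2)]),
.rs (.slot 0 [(3, 3), (5, 2), (0, 3), (1, 2), (2, 2), (6, 1)]),
.rs (.join 1 1 3 5 2 3 [(0, 0)]),
.rs (.join 0 4 4 3 3 2 [(2, 2)]),
.rs (.l2 1 3 34 1 1 2),
.degU 3 [(0, 3), (1, 2)],
.rs (.join 1 4 4 4 4 2 [(2, 2)]),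
.rs (.mono 0 10 14 1),
.rs (.slot 0 [(4, 1), (5, 2), (3, 4), (1, 2), (0, 4)]),
.rs (.join 0 2 5 2 0 2 [(1, 0)]),
.rs (.l2 0 12 40 3 1 2),
.rs (.part [68, 3] [0, 0] [56] []),
.rs (.lip 1 27 91 64),
.rs (.part [5, 82] [0, 0] [40] []),
.rs (.lipl 1 52 117 0 65),
.rs (.lipl 1 10 90 0 80),
.rs (.slot 0 [(2, 3), (1, 2), (5, 3), (3, 2), (4, 2), (6, 1)]),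
.rs (.join 0 1 3 3 2 1 [(0, 0)]),
.rs (.mono 0 10 26 1),
.rs (.lipl 0 18 27 1 9),
.rs (.mono 0 64 96 1),
.rs (.part [29, 98] [1, 0] [] []),
.rs (.l2 0 5 36 2 1 1),
.rs (.deg 2 [1, 2]),
.rs (.step 0 6 58 [26, 42, 50, 56, 58] []),
.rs (.join 1 8 5 4 2 2 [(3, 0)]),
.rs (.join 1 2 2 3 0 3 [(1, 0)]),
.degU 4 [(0, 4), (1, 1)],
.rs (.part [10, 117] [0, 1] [] []),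
.rs (.join 1 16 5 3 2 2 [(4, 1)]),
.degU 3 [(0, 4), (1, 1)],
.rs (.l2 0 9 72 3 2 1),
.rs (.l2 0 18 24 4 1 1),
.rs (.mono 0 64 66 1),
.rs (.join 1 2 4 5 3 2 [(1, 0)]),
.rs (.l2 1 9 24 3 2 1),
.rs (.l2 0 3 65 0 2 1),
.rs (.join 1 2 4 4 3 1 [(1, 0)]),
.rs (.slot 0 [(4, 1), (5, 3), (0, 3), (1, 3), (2, 3)]),
.rs (.le 1 33 1 0 3),
.rs (.lipl 0 33 45 1 12),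
.rs (.part [96, 24] [0, 0] [7] []),
.rs (.lipl 1 97 115 1 18),
.rs (.join 0 2 2 3 0 3 [(1, 0)]),
.rs (.part [32, 88] [0, 0] [7] []),
.rs (.le 0 18 2 1 2),
.rs (.le 1 34 2 1 3),
.rs (.lipl 1 76 109 0 33),
.rs (.mono 0 33 49 1),
.rs (.part [54, 73] [0, 1] [] []),
.rs (.ordE 1 1 1),
.rs (.lipl 0 12 45 1 33),
.rs (.part [37, 90] [0, 1] [] []),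
.rs (.le 1 33 32 5 2),
.rs (.l2 1 9 17 0 1 2),
.rs (.slot 0 [(5, 1), (4, 2), (3, 3), (0, 2), (1, 2), (2, 2), (6, 1)]),
.rs (.deg 3 [2, 1]),
.rs (.lipl 0 17 29 1 12),
.rs (.part [29, 98] [0, 1] [] []),
.rs (.le 1 40 32 5 1),
.rs (.join 1 5 3 5 3 2 [(0, 0), (2, 0)]),
.rs (.lipl 1 50 118 0 68),
.rs (.join 1 4 3 4 0 4 [(2, 0)]),
.rs (.lipl 1 74 110 1 36),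
.rs (.join 0 4 6 3 3 0 [(2, 0)]),
.rs (.l2 1 12 36 2 2 2),
.rs (.join 1 1 3 4 4 2 [(0, 2)]),
.rs (.join 0 2 5 3 0 3 [(1, 0)]),
.degU 2 [(0, 5)],
.rs (.lipl 1 98 118 1 20),
.rs (.slot 0 [(2, 4), (1, 1), (0, 2), (3, 2), (4, 2), (5, 2)]),
.rs (.part [97, 24] [0, 0] [6] []),
.rs (.join 0 1 5 3 2 1 [(0, 0)]),
.rs (.le 1 33 32 5 1),
.rs (.join 1 9 4 5 3 2 [(0, 0), (3, 0)]),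
.rs (.lip 0 97 103 7),
.rs (.part [62, 65] [1, 0] [] []),
.rs (.slot 0 [(3, 1), (5, 3), (0, 3), (1, 3), (2, 3)]),
.rs (.lip 1 68 100 32),
.rs (.lipl 1 26 91 0 65),
.rs (.mono 1 16 20 1),
.rs (.join 1 4 5 4 1 3 [(2, 0)]),
.rs (.lip 0 7 63 56),
.rs (.lipl 1 100 109 1 9),
.rs (.l2 0 3 10 1 1 1),
.rs (.join 0 2 5 3 2 1 [(1, 0)]),
.rs (.l2 0 68 72 6 1 1),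
.degU 4 [(0, 3), (1, 2)],
.rs (.l2 1 33 48 5 2 1),
.rs (.deg 1 [2, 1]),
.rs (.slot 0 [(5, 1), (4, 2), (3, 3), (1, 2), (0, 3), (2, 2)]),
.rs (.deg 6 [0, 4]),
.rs (.join 0 2 3 3 3 2 [(1, 2)]),
.rs (.join 0 1 5 3 2 3 [(0, 2)]),
.rs (.join 1 1 5 4 1 3 [(0, 0)]),
.rs (.lipl 1 74 94 1 20),
.rs (.part [42, 80] [0, 0] [5] []),
.rs (.hall [0] [0, 1, 2]),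
.rs (.l2 0 10 12 3 1 2),
.rs (.join 1 4 5 4 2 3 [(2, 1)]),
.rs (.lipl 0 14 31 1 17),
.rs (.ordE 0 4 2),
.rs (.le 1 12 8 3 3),
.rs (.le 1 9 1 0 3),
.rs (.join 0 16 5 3 2 2 [(4, 1)]),
.rs (.join 1 16 5 3 1 2 [(4, 0)]),
.rs (.join 1 8 4 3 0 3 [(3, 0)]),
.rs (.slot 0 [(5, 4), (3, 1), (4, 2), (0, 2), (1, 2), (2, 2)]),
.rs (.lipl 1 100 117 0 17),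
.degU 5 [(0, 2), (1, 3)],
.rs (.slot 0 [(2, 1), (0, 2), (1, 4), (5, 2), (3, 4)]),
.rs (.join 1 1 1 3 0 3 [(0, 0)]),
.rs (.l2 0 33 48 5 1 1),
.rs (.l2 1 33 36 5 1 1),
.rs (.lipl 0 19 55 1 36),
.rs (.lipl 1 17 113 0 96),
.rs (.le 1 33 1 0 1),
.rs (.un 1 2),
.rs (.hall [1] [3, 4, 5]),
.rs (.le 1 24 16 4 1),
.rs (.slot 0 [(2, 1), (0, 2), (1, 3), (3, 2), (5, 3), (4, 2)]),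
.rs (.join 0 1 3 2 0 2 [(0, 0)]),
.rs (.part [25, 96] [0, 0] [6] []),
.rs (.part [5, 122] [0, 1] [] []),
.rs (.join 1 8 4 3 3 0 [(3, 0)]),
.rs (.l2 0 68 80 6 1 1),
.rs (.lipl 0 12 29 0 17),
.rs (.l2 1 34 36 5 2 1),
.rs (.ab2 0 34),
.rs (.join 1 1 3 4 4 0 [(0, 0)]),
.rs (.le 0 36 32 5 1),
.rs (.join 0 1 1 3 2 1 [(0, 0)]),
.rs (.slot 0 [(4, 3), (3, 2), (1, 3), (0, 2), (2, 2), (6, 1)]),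
.rs (.slot 0 [(1, 1), (0, 2), (2, 4), (5, 2), (4, 4)]),
.rs (.slot 0 [(2, 1), (0, 2), (1, 4), (3, 2), (4, 4)]),
.rs (.part [19, 108] [0, 1] [] []),
.rs (.slot 0 [(0, 3), (1, 2), (5, 3), (3, 2), (4, 2), (6, 1)]),
.rs (.lipl 0 18 51 0 33),
.rs (.lipl 0 28 62 1 34),
.rs (.lipl 1 97 107 0 10),
.rs (.slot 0 [(4, 1), (5, 2), (3, 4), (2, 2), (0, 4)]),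
.rs (.lipl 1 98 115 0 17),
.rs (.join 0 4 5 3 3 2 [(2, 2)]),
.rs (.part [20, 107] [0, 1] [] []),
.rs (.slot 0 [(3, 2), (4, 2), (0, 3), (1, 3), (2, 3)]),
.rs (.join 1 8 5 4 3 1 [(3, 0)]),
.rs (.join 0 4 5 3 3 0 [(2, 0)]),
.rs (.join 0 4 5 3 1 2 [(2, 0)]),
.rs (.lipl 0 20 54 1 34),
.rs (.join 0 1 3 2 1 1 [(0, 0)]),
.rs (.lipl 1 25 91 0 66),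
.rs (.lip 1 43 107 64),
.rs (.slot 0 [(4, 1), (5, 2), (3, 3), (0, 2), (1, 2), (2, 2), (6, 1)]),
.rs (.slot 0 [(4, 3), (5, 2), (0, 3), (1, 2), (2, 2), (6, 1)]),
.rs (.part [98, 5] [0, 0] [24] []),
.rs (.slot 0 [(2, 1), (1, 2), (0, 3), (3, 2), (4, 3), (5, 2)]),
.rs (.join 1 8 4 4 3 2 [(3, 1)]),
.rs (.l2 1 3 10 1 1 1),
.rs (.l2 0 20 48 4 1 2),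
.rs (.join 1 1 5 4 3 1 [(0, 0)]),
.rs (.l2 0 5 9 0 2 1),
.rs (.lip 1 66 74 8),
.rs (.slot 0 [(1, 1), (0, 2), (2, 4), (5, 2), (3, 4)]),
.rs (.slot 0 [(3, 3), (4, 2), (2, 3), (0, 2), (1, 2), (6, 1)]),
.rs (.l2 0 3 9 0 2 1),
.degU 1 [(0, 5)],
.rs (.join 1 1 1 3 2 2 [(0, 1)]),
.degU 0 [(0, 1), (1, 4)],
.rs (.le 1 18 16 4 1),
.rs (.le 0 40 8 3 1),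
.degU 4 [(0, 2), (1, 3)],
.rs (.l2 1 10 40 3 2 1),
.rs (.mono 0 3 11 1),
.rs (.join 0 8 4 2 0 2 [(3, 0)]),
.rs (.join 0 8 4 3 2 1 [(3, 0)]),
.rs (.join 0 4 5 3 2 2 [(2, 1)]),
.rs (.join 0 2 5 3 3 2 [(1, 2)]),
.rs (.l2 0 34 48 5 1 1),
.rs (.join 0 33 6 3 2 1 [(0, 0), (5, 0)]),
.rs (.lipl 1 25 93 0 68),
.rs (.join 1 4 4 4 3 2 [(2, 1)]),
.rs (.l2 1 20 24 4 2 1),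
.rs (.lipl 0 17 27 0 10),
.rs (.part [76, 3] [0, 0] [48] []),
.rs (.slot 0 [(0, 1), (2, 2), (1, 4), (3, 2), (5, 4)]),
.rs (.part [40, 87] [0, 1] [] []),
.rs (.lipl 0 49 61 1 12),
.rs (.part [64, 7] [0, 0] [56] []),
.rs (.mono 0 4 12 1),
.rs (.join 1 8 5 4 2 3 [(3, 1)]),
.rs (.mono 1 32 48 1),
.rs (.l2 0 17 65 0 2 1),
.rs (.ordE 0 1 3),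
.rs (.lip 1 46 110 64),
.rs (.join 1 4 5 5 2 3 [(2, 0)]),
.rs (.join 1 6 3 5 3 2 [(1, 0), (2, 0)]),
.rs (.le 0 5 4 2 1),
.rs (.l2 1 3 9 0 1 2),
.rs (.join 1 1 5 4 2 2 [(0, 0)]),
.rs (.ab2 0 40),
.degU 1 [(0, 3), (1, 2)],
.rs (.part [22, 65] [0, 0] [40] []),
.rs (.part [49, 78] [0, 1] [] []),
.rs (.l2 0 12 68 2 2 1),
.rs (.l2 0 9 24 3 1 2),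
.rs (.lipl 1 84 118 0 34),
.rs (.lipl 1 81 115 1 34),
.rs (.ordE 0 8 1),
.rs (.slot 0 [(2, 3), (0, 2), (3, 3), (4, 2), (5, 2), (6, 1)]),
.degU 0 [(0, 3), (1, 2)],
.rs (.un 0 4),
.rs (.l2 0 6 10 1 2 1),
.rs (.ordE 1 16 1),
.rs (.slot 0 [(0, 3), (1, 2), (3, 3), (4, 2), (5, 2), (6, 1)]),
.rs (.join 1 4 5 4 0 4 [(2, 0)]),
.rs (.join 0 2 4 3 0 4 [(1, 1)]),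
.rs (.join 1 4 3 4 2 3 [(2, 1)]),
.rs (.join 1 2 2 4 2 3 [(1, 1)]),
.degU 3 [(0, 5)],
.rs (.slot 0 [(0, 1), (1, 2), (3, 3), (4, 4), (5, 3)]),
.rs (.slot 0 [(0, 4), (2, 2), (4, 2), (5, 4), (6, 1)]),
.rs (.lipl 0 52 62 1 10),
.rs (.join 0 1 3 3 1 3 [(0, 1)]),
.rs (.join 0 2 3 3 2 3 [(1, 2)]),
.rs (.slot 0 [(4, 1), (5, 2), (3, 3), (0, 2), (2, 3), (1, 2)]),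
.rs (.lipl 1 82 115 1 33),
.rs (.join 1 1 2 3 3 0 [(0, 0)]),
.rs (.part [84, 40] [0, 0] [3] []),
.rs (.join 0 10 6 3 2 1 [(1, 0), (3, 0)]),
.rs (.slot 0 [(0, 2), (2, 2), (3, 3), (4, 3), (5, 3)]),
.rs (.part [17, 110] [0, 1] [] []),
.rs (.join 1 4 3 4 3 2 [(2, 1)]),
.rs (.l2 0 6 10 1 1 1),
.rs (.lip 0 98 103 7),
.rs (.l2 1 12 20 2 1 2),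
.rs (.part [44, 80] [0, 0] [3] []),
.rs (.l2 0 33 40 5 1 1),
.rs (.join 1 4 5 4 4 1 [(2, 1)]),
.rs (.ab2 0 72),
.rs (.slot 0 [(0, 1), (1, 2), (2, 3), (3, 2), (4, 3), (5, 2)]),
.rs (.join 1 2 3 4 0 4 [(1, 0)]),
.rs (.l2 0 9 10 3 2 1),
.rs (.lipl 1 73 93 0 20),
.rs (.lipl 0 18 51 1 33),
.rs (.lipl 1 76 93 0 17),
.rs (.join 1 1 2 4 3 1 [(0, 0)]),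
.rs (.lipl 0 33 53 0 20),
.rs (.join 0 24 6 3 2 1 [(3, 0), (4, 0)]),
.rs (.part [26, 101] [0, 1] [] []),
.rs (.join 1 4 4 3 3 0 [(2, 0)]),
.rs (.part [49, 72] [0, 0] [6] []),
.rs (.join 0 4 4 2 0 2 [(2, 0)]),
.rs (.lipl 1 97 117 1 20),
.rs (.l2 0 3 34 1 1 1),
.rs (.join 0 3 6 4 4 0 [(0, 0), (1, 0)]),
.rs (.slot 0 [(1, 3), (2, 2), (5, 3), (3, 2), (4, 2), (6, 1)]),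
.rs (.part [9, 118] [0, 1] [] []),
.rs (.part [24, 96] [0, 0] [7] []),
.rs (.slot 0 [(3, 1), (5, 2), (4, 3), (1, 2), (0, 3), (2, 2)]),
.rs (.le 1 6 2 1 1),
.rs (.slot 0 [(5, 1), (3, 2), (4, 3), (1, 2), (0, 3), (2, 2)]),
.rs (.join 0 4 5 2 0 2 [(2, 0)]),
.rs (.slot 0 [(0, 1), (1, 2), (2, 3), (3, 2), (5, 3), (4, 2)]),
.rs (.join 1 1 1 4 2 3 [(0, 1)]),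
.rs (.mono 0 8 9 1),
.rs (.l2 1 17 20 4 1 1),
.rs (.part [38, 89] [0, 1] [] []),
.rs (.part [14, 113] [0, 1] [] []),
.rs (.lipl 0 36 46 1 10),
.rs (.lipl 1 81 91 0 10),
.rs (.l2 1 10 12 3 1 1),
.rs (.deg 5 [0, 3]),
.rs (.join 1 4 3 4 2 2 [(2, 0)]),
.rs (.lipl 1 84 94 0 10),
.rs (.slot 0 [(1, 1), (2, 3), (3, 3), (4, 3), (5, 3)]),
.rs (.l2 1 24 40 3 1 1),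
.rs (.join 1 1 4 4 4 0 [(0, 0)]),
.rs (.join 0 4 4 3 2 3 [(2, 2)]),
.rs (.mono 0 16 18 1),
.rs (.part [11, 68] [0, 0] [48] []),
.rs (.lipl 0 49 59 1 10),
.rs (.join 0 32 6 2 1 1 [(5, 0)]),
.rs (.slot 0 [(4, 1), (5, 2), (3, 3), (0, 2), (1, 3), (2, 2)]),
.rs (.lipl 1 73 109 1 36),
.rs (.lipl 0 50 59 1 9),
.rs (.slot 0 [(2, 1), (0, 2), (1, 4), (4, 2), (5, 4)]),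
.rs (.join 1 1 5 4 2 4 [(0, 2)]),
.rs (.part [74, 48] [0, 0] [5] []),
.rs (.join 1 12 5 5 4 2 [(2, 1), (3, 0)]),
.rs (.l2 1 20 36 2 1 1),
.rs (.mono 0 16 48 1),
.rs (.part [50, 77] [0, 1] [] []),
.rs (.join 1 4 3 4 4 2 [(2, 2)]),
.rs (.join 0 32 6 2 2 0 [(5, 0)]),
.rs (.l2 0 6 66 1 2 1),
.rs (.part [82, 5] [0, 0] [40] []),
.rs (.un 1 4),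
.rs (.join 0 1 5 3 1 3 [(0, 1)]),
.rs (.join 0 4 3 2 0 2 [(2, 0)]),
.rs (.join 0 8 5 3 0 3 [(3, 0)]),
.rs (.lipl 0 9 45 0 36),
.rs (.join 1 1 4 4 0 4 [(0, 0)]),
.rs (.part [22, 105] [0, 1] [] []),
.rs (.part [33, 94] [0, 1] [] []),
.rs (.join 1 2 4 4 4 2 [(1, 2)]),
.rs (.mono 0 64 80 1),
.rs (.l2 0 17 48 4 1 1),
.rs (.l2 0 20 68 2 2 1),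
.rs (.part [40, 82] [0, 0] [5] []),
.rs (.le 0 17 16 4 3),
.rs (.join 1 2 3 4 3 2 [(1, 1)]),
.rs (.le 0 17 16 4 2),
.degU 5 [(0, 1), (1, 4)],
.rs (.l2 0 10 40 3 1 1),
.rs (.slot 0 [(2, 1), (0, 2), (1, 4), (3, 2), (5, 4)]),
.rs (.ordE 0 32 3),
.rs (.ordE 0 32 2),
.rs (.slot 0 [(3, 1), (5, 2), (4, 4), (1, 2), (0, 4)]),
.rs (.lipl 0 34 46 0 12),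
.rs (.join 1 1 5 3 2 2 [(0, 1)]),
.rs (.part [24, 98] [0, 0] [5] []),
.rs (.l2 0 17 80 4 2 1),
.rs (.l2 0 6 36 2 1 1),
.rs (.join 1 1 1 4 2 2 [(0, 0)]),
.rs (.le 0 20 4 2 2),
.rs (.mono 0 40 44 1),
.rs (.slot 0 [(0, 1), (2, 2), (1, 3), (4, 2), (3, 3), (5, 2)]),
.rs (.mono 0 34 38 1),
.rs (.part [36, 88] [0, 0] [3] []),
.rs (.join 1 8 5 3 2 1 [(3, 0)]),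
.rs (.join 0 1 5 2 0 2 [(0, 0)]),
.rs (.join 0 1 4 3 2 3 [(0, 2)]),
.rs (.join 1 1 4 4 2 3 [(0, 1)]),
.rs (.ordE 0 64 3),
.rs (.le 0 48 16 4 1),
.rs (.join 1 2 2 4 3 2 [(1, 1)]),
.rs (.l2 0 5 65 0 2 1),
.rs (.join 0 32 6 3 3 0 [(5, 0)]),
.rs (.slot 0 [(1, 1), (0, 2), (2, 3), (3, 2), (4, 3), (5, 2)]),
.rs (.join 1 2 4 4 1 3 [(1, 0)]),
.rs (.le 0 80 16 4 1),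
.rs (.join 0 2 3 3 1 3 [(1, 1)]),
.rs (.ordE 0 8 2),
.rs (.l2 0 33 96 5 2 1),
.rs (.l2 1 9 17 0 2 1),
.rs (.lipl 1 38 110 0 72),
.rs (.le 0 20 16 4 3),
.rs (.join 0 2 3 2 2 0 [(1, 0)]),
.rs (.join 0 1 1 4 2 2 [(0, 0)]),
.rs (.lip 1 65 73 8),
.rs (.lipl 1 100 110 1 10),
.rs (.le 0 10 2 1 3),
.rs (.join 0 32 6 3 2 1 [(5, 0)]),
.rs (.lipl 1 97 107 1 10),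
.rs (.slot 0 [(1, 1), (2, 2), (0, 4), (3, 2), (4, 4)]),
.rs (.lipl 0 42 59 1 17),
.rs (.lipl 1 82 115 0 33),
.rs (.le 0 33 1 0 3),
.rs (.lip 1 65 81 16),
.rs (.join 1 2 5 4 2 3 [(1, 1)]),
.rs (.ab2 1 40),
.rs (.lipl 0 20 54 0 34),
.rs (.le 0 18 16 4 2),
.rs (.lipl 0 12 46 1 34),
.rs (.join 0 2 2 3 3 0 [(1, 0)]),
.rs (.part [41, 80] [0, 0] [6] []),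
.rs (.lipl 1 44 109 0 65),
.rs (.part [34, 93] [0, 1] [] []),
.rs (.slot 0 [(4, 3), (5, 2), (2, 3), (0, 2), (1, 2), (6, 1)]),
.rs (.join 0 2 2 3 2 1 [(1, 0)]),
.rs (.step 0 6 39 [7, 35, 37, 38, 39] []),
.rs (.lipl 0 12 46 0 34),
.rs (.slot 0 [(2, 1), (0, 2), (1, 3), (4, 2), (3, 3), (5, 2)]),
.rs (.join 1 4 5 4 3 1 [(2, 0)]),
.rs (.part [100, 3] [0, 0] [24] []),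
.rs (.ab2 0 17),
.rs (.deg 4 [1, 2]),
.rs (.lipl 1 73 93 1 20),
.rs (.part [50, 72] [0, 0] [5] []),
.rs (.part [80, 40] [0, 0] [7] []),
.rs (.join 1 1 5 4 4 1 [(0, 1)]),
.rs (.deg 4 [0, 3]),
.rs (.part [73, 54] [1, 0] [] []),
.rs (.lipl 0 42 62 1 20),
.rs (.mono 0 8 24 1),
.rs (.join 0 1 6 3 2 1 [(0, 0)]),
.rs (.part [27, 100] [1, 0] [] []),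
.rs (.lipl 0 35 47 1 12),
.rs (.mono 0 17 25 1),
.rs (.slot 0 [(3, 1), (4, 2), (5, 3), (0, 2), (1, 2), (2, 2), (6, 1)]),
.rs (.part [51, 76] [1, 0] [] []),
.rs (.l2 0 24 72 3 1 1),
.rs (.join 1 2 4 4 2 4 [(1, 2)]),
.rs (.slot 0 [(2, 3), (0, 2), (4, 3), (3, 2), (5, 2), (6, 1)]),
.rs (.ab 0 2),
.rs (.join 0 1 4 3 0 3 [(0, 0)]),
.rs (.join 1 1 4 5 2 3 [(0, 0)]),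
.rs (.slot 0 [(2, 3), (1, 2), (4, 3), (3, 2), (5, 2), (6, 1)]),
.rs (.ordE 1 32 2),
.rs (.join 1 4 4 4 2 4 [(2, 2)]),
.rs (.join 0 1 2 3 1 2 [(0, 0)]),
.rs (.join 0 1 5 3 1 2 [(0, 0)]),
.rs (.lipl 0 18 54 0 36),
.rs (.lipl 1 84 117 0 33),
.rs (.join 0 1 1 3 0 3 [(0, 0)]),
.rs (.l2 0 17 33 0 1 2),
.rs (.join 1 1 3 4 3 2 [(0, 1)]),
.rs (.mono 0 64 65 1),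
.rs (.mono 1 36 100 1),
.rs (.part [100, 24] [0, 0] [3] []),
.rs (.l2 0 9 24 3 1 1),
.rs (.join 1 1 5 5 3 2 [(0, 0)]),
.rs (.join 0 5 6 4 4 0 [(0, 0), (2, 0)]),
.rs (.l2 0 12 24 3 1 1),
.rs (.part [84, 3] [0, 0] [40] []),
.rs (.le 1 34 32 5 1),
.rs (.le 0 72 64 6 1),
.rs (.slot 0 [(0, 4), (1, 1), (2, 2), (3, 2), (4, 2), (5, 2)]),
.rs (.slot 0 [(3, 1), (4, 2), (0, 3), (2, 4), (1, 3)]),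
.rs (.join 1 1 5 4 2 3 [(0, 1)]),
.degU 1 [(0, 2), (1, 3)],
.rs (.join 1 1 1 4 1 3 [(0, 0)]),
.rs (.deg 5 [3, 0]),
.rs (.slot 0 [(0, 1), (2, 2), (4, 3), (3, 4), (5, 3)]),
.rs (.join 1 1 1 3 1 3 [(0, 1)]),
.rs (.part [74, 5] [0, 0] [48] []),
.rs (.join 0 1 5 3 2 2 [(0, 1)]),
.rs (.deg 6 [2, 2]),
.rs (.join 1 2 3 4 4 2 [(1, 2)]),
.rs (.join 0 2 4 3 3 1 [(1, 1)]),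
.rs (.part [27, 100] [0, 1] [] []),
.rs (.join 1 4 3 5 3 2 [(2, 0)]),
.rs (.l2 0 3 9 0 1 1),
.rs (.ab 0 3),
.rs (.join 1 2 5 4 4 0 [(1, 0)]),
.rs (.join 0 1 1 3 2 2 [(0, 1)]),
.rs (.join 1 1 4 4 2 4 [(0, 2)]),
.rs (.part [47, 80] [1, 0] [] []),
.rs (.lipl 0 10 43 0 33),
.rs (.join 1 2 2 3 1 3 [(1, 1)]),
.rs (.slot 0 [(2, 1), (0, 2), (1, 3), (3, 2), (4, 3), (5, 2)]),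
.rs (.lip 1 65 97 32),
.rs (.mono 0 1 9 1),
.rs (.lipl 1 37 109 0 72),
.rs (.l2 1 40 48 5 1 1),
.rs (.slot 0 [(1, 1), (0, 2), (2, 4), (3, 2), (5, 4)]),
.rs (.slot 0 [(0, 4), (1, 2), (3, 2), (4, 4), (6, 1)]),
.rs (.join 0 4 6 3 2 1 [(2, 0)]),
.rs (.join 0 6 6 3 2 1 [(1, 0), (2, 0)]),
.rs (.join 1 4 3 4 1 3 [(2, 0)]),
.degU 5 [(0, 3), (1, 2)],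
.rs (.l2 1 33 40 5 1 1),
.rs (.le 1 10 8 3 1),
.rs (.join 0 2 5 2 2 0 [(1, 0)]),
.rs (.le 1 6 2 1 2),
.rs (.mono 0 16 24 1),
.rs (.le 0 9 1 0 3),
.rs (.slot 0 [(2, 1), (0, 2), (1, 3), (3, 2), (4, 2), (5, 2), (6, 1)]),
.rs (.mono 0 8 12 1),
.rs (.le 0 10 2 1 1),
.rs (.le 1 24 8 3 1),
.rs (.slot 0 [(3, 1), (5, 2), (4, 3), (0, 2), (2, 3), (1, 2)]),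
.rs (.lipl 1 73 91 0 18),
.rs (.lipl 1 84 93 0 9),
.rs (.mono 0 18 50 1),
.rs (.l2 0 24 72 3 2 1),
.rs (.join 0 1 3 2 2 0 [(0, 0)]),
.rs (.mono 0 9 13 1),
.rs (.join 0 2 5 3 2 3 [(1, 2)]),
.rs (.lipl 1 34 99 0 65),
.rs (.l2 1 3 18 1 1 2),
.rs (.le 0 17 1 0 1),
.rs (.join 0 1 3 3 3 1 [(0, 1)]),
.rs (.lip 0 39 63 56),
.rs (.slot 0 [(5, 1), (4, 2), (3, 3), (0, 2), (1, 3), (2, 2)]),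
.rs (.lipl 1 73 91 1 18),
.rs (.ordE 0 64 2),
.rs (.lipl 1 97 109 0 12),
.rs (.join 0 16 6 3 2 1 [(4, 0)]),
.rs (.slot 0 [(3, 1), (5, 2), (4, 3), (0, 2), (1, 3), (2, 2)]),
.rs (.join 0 1 2 3 0 3 [(0, 0)]),
.rs (.lipl 0 20 30 1 10),
.rs (.le 1 5 4 2 1),
.rs (.join 1 1 1 3 3 0 [(0, 0)]),
.rs (.l2 1 3 6 1 1 1),
.rs (.slot 0 [(2, 1), (0, 2), (1, 4), (4, 2), (3, 4)]),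
.rs (.part [48, 79] [0, 1] [] []),
.rs (.join 1 2 5 4 3 2 [(1, 1)]),
.rs (.join 0 1 3 3 0 3 [(0, 0)]),
.rs (.l2 1 36 48 5 1 1),
.rs (.l2 1 12 36 2 2 1),
.rs (.lipl 1 49 115 0 66),
.rs (.part [3, 68] [0, 0] [56] []),
.rs (.join 1 8 4 3 3 1 [(3, 1)]),
.rs (.lipl 0 22 31 1 9),
.rs (.l2 0 12 72 3 2 1),
.rs (.join 0 2 3 2 0 2 [(1, 0)]),
.rs (.un 0 0),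
.rs (.join 1 2 3 4 1 3 [(1, 0)]),
.rs (.lip 0 73 79 7),
.rs (.mono 1 8 9 1),
.rs (.slot 0 [(4, 3), (3, 2), (0, 3), (1, 2), (2, 2), (6, 1)]),
.rs (.l2 0 5 33 0 1 1),
.rs (.l2 0 17 18 4 2 1),
.rs (.le 1 20 16 4 3),
.rs (.ordE 1 16 2),
.rs (.l2 1 12 36 2 1 2),
.rs (.slot 0 [(5, 1), (3, 3), (0, 3), (1, 3), (2, 3)]),
.rs (.slot 0 [(3, 1), (4, 2), (5, 3), (1, 2), (0, 3), (2, 2)]),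
.rs (.join 0 48 6 3 2 1 [(4, 0), (5, 0)]),
.rs (.l2 1 9 12 3 1 2),
.rs (.join 0 2 4 3 2 1 [(1, 0)]),
.rs (.join 0 2 3 3 2 1 [(1, 0)]),
.rs (.mono 1 40 104 1),
.rs (.lipl 0 9 45 1 36),
.rs (.mono 0 34 42 1),
.rs (.le 1 17 16 4 3),
.rs (.lipl 1 19 91 0 72),
.rs (.slot 0 [(0, 1), (1, 2), (2, 4), (5, 2), (3, 4)]),
.rs (.lipl 1 73 107 1 34),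
.rs (.lipl 1 81 93 1 12),
.rs (.slot 0 [(3, 3), (5, 2), (1, 3), (0, 2), (2, 2), (6, 1)]),
.rs (.le 0 40 32 5 1),
.rs (.lipl 1 26 94 0 68),
.rs (.slot 0 [(0, 1), (1, 2), (2, 4), (4, 2), (5, 4)]),
.rs (.step 0 6 29 [13, 21, 25, 28, 29] []),
.rs (.join 0 1 1 3 3 0 [(0, 0)]),
.rs (.ab2 0 36),
.rs (.step 0 6 60 [28, 44, 52, 56, 60] []),
.rs (.slot 0 [(0, 1), (2, 2), (1, 4), (4, 2), (5, 4)]),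
.rs (.le 1 18 2 1 3),
.rs (.join 0 1 2 2 1 1 [(0, 0)]),
.rs (.join 1 1 3 4 0 4 [(0, 0)]),
.rs (.lipl 1 13 109 0 96),
.rs (.join 0 1 3 2 1 2 [(0, 1)]),
.rs (.lipl 1 17 83 0 66),
.degU 3 [(0, 2), (1, 3)],
.rs (.lipl 1 82 94 0 12),
.rs (.l2 1 34 40 5 2 1),
.rs (.lipl 1 50 115 0 65),
.rs (.l2 1 10 34 1 2 1),
.rs (.l2 1 12 40 3 2 1),
.rs (.part [16, 104] [0, 0] [7] []),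
.rs (.join 0 4 5 3 3 1 [(2, 1)]),
.rs (.join 1 2 3 4 3 1 [(1, 0)]),
.rs (.l2 0 72 96 6 1 1),
.rs (.le 0 96 64 6 1),
.rs (.slot 0 [(4, 4), (5, 1), (3, 2), (0, 2), (1, 2), (2, 2)]),
.rs (.join 1 8 5 3 1 3 [(3, 1)]),
.rs (.part [3, 124] [0, 1] [] []),
.rs (.part [2, 69] [0, 0] [56] []),
.rs (.slot 0 [(0, 1), (1, 2), (2, 4), (3, 2), (4, 4)]),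
.rs (.join 1 2 3 4 4 0 [(1, 0)]),
.rs (.l2 0 18 24 4 1 2),
.rs (.un 0 5),
.rs (.join 1 1 2 3 2 1 [(0, 0)]),
.rs (.lipl 1 35 107 0 72),
.rs (.mono 0 34 50 1),
.rs (.ab2 0 24),
.rs (.lip 1 66 98 32),
.rs (.slot 0 [(1, 4), (2, 1), (0, 2), (3, 2), (4, 2), (5, 2)]),
.rs (.lipl 0 38 55 1 17),
.rs (.le 0 33 1 0 2),
.rs (.deg 4 [2, 1]),
.rs (.join 0 2 3 2 1 1 [(1, 0)]),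
.rs (.l2 0 3 17 0 2 1),
.rs (.l2 1 17 33 0 1 1),
.rs (.lipl 1 98 115 1 17),
.rs (.part [8, 112] [0, 0] [7] []),
.rs (.un 0 3),
.rs (.mono 0 2 18 1),
.rs (.l2 0 20 36 2 1 2),
.rs (.join 1 1 5 4 4 0 [(0, 0)]),
.rs (.lipl 0 10 27 0 17),
.rs (.le 0 9 1 0 2),
.rs (.le 1 9 8 3 3),
.rs (.lipl 1 18 114 0 96),
.rs (.ab2 1 24),
.rs (.join 0 4 3 2 1 1 [(2, 0)]),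
.rs (.lipl 0 14 47 1 33),
.rs (.join 0 4 3 3 2 2 [(2, 1)]),
.rs (.l2 0 18 66 1 2 1),
.rs (.l2 1 33 34 5 2 2),
.rs (.slot 0 [(0, 2), (1, 2), (2, 2), (3, 2), (4, 2), (5, 2), (6, 1)]),
.rs (.ordE 0 64 4),
.rs (.le 0 68 64 6 1),
.rs (.un 1 5),
.rs (.slot 0 [(5, 1), (4, 2), (3, 4), (0, 2), (2, 4)]),
.rs (.join 0 1 4 3 2 2 [(0, 1)]),
.rs (.join 0 2 5 3 1 2 [(1, 0)]),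
.rs (.lipl 1 76 93 1 17),
.rs (.join 0 2 2 3 2 2 [(1, 1)]),
.rs (.join 0 1 2 3 3 0 [(0, 0)]),
.rs (.l2 0 20 80 4 2 1),
.rs (.le 0 34 2 1 1),
.rs (.le 0 12 4 2 2),
.rs (.lipl 0 10 46 0 36),
.rs (.l2 0 66 68 6 1 1),
.rs (.join 0 16 6 2 1 1 [(4, 0)]),
.rs (.le 0 9 8 3 3),
.rs (.slot 0 [(1, 3), (0, 2), (4, 3), (3, 2), (5, 2), (6, 1)]),
.rs (.lipl 0 9 29 1 20),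
.rs (.slot 0 [(2, 4), (0, 1), (1, 2), (3, 2), (4, 2), (5, 2)]),
.rs (.join 1 4 5 4 4 0 [(2, 0)]),
.rs (.join 1 1 2 4 1 3 [(0, 0)]),
.rs (.le 0 33 32 5 3),
.rs (.le 1 12 4 2 1),
.rs (.join 1 1 4 5 3 2 [(0, 0)]),
.rs (.join 1 1 5 5 2 3 [(0, 0)]),
.rs (.join 1 2 5 4 0 4 [(1, 0)]),
.rs (.l2 1 20 48 4 1 1),
.rs (.lipl 1 52 118 0 66),
.rs (.lipl 1 84 93 1 9),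
.rs (.lipl 0 28 61 1 33),
.rs (.join 0 4 3 3 3 2 [(2, 2)]),
.rs (.l2 1 9 40 3 1 1),
.rs (.join 0 2 5 3 1 3 [(1, 1)]),
.rs (.join 0 4 4 3 2 2 [(2, 1)]),
.degU 0 [(0, 5)],
.rs (.join 0 34 6 3 2 1 [(1, 0), (5, 0)]),
.rs (.join 1 2 4 4 2 3 [(1, 1)]),
.rs (.lip 1 45 109 64),
.rs (.l2 0 12 40 3 1 1),
.rs (.deg 0 [0, 3]),
.rs (.deg 2 [3, 0]),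
.rs (.join 0 8 4 2 2 0 [(3, 0)]),
.rs (.l2 0 10 72 3 2 1),
.rs (.part [73, 6] [0, 0] [48] []),
.rs (.join 1 2 2 3 3 1 [(1, 1)]),
.rs (.part [46, 81] [0, 1] [] []),
.rs (.l2 0 6 18 1 2 1),
.rs (.l2 0 18 80 4 2 1),
.rs (.deg 0 [1, 2]),
.rs (.slot 0 [(5, 3), (3, 2), (1, 3), (0, 2), (2, 2), (6, 1)]),
.rs (.le 1 48 32 5 1),
.rs (.join 0 2 3 2 2 1 [(1, 1)]),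
.rs (.le 1 33 1 0 2),
.rs (.part [41, 86] [0, 1] [] []),
.rs (.lipl 1 41 107 0 66),
.rs (.part [30, 97] [1, 0] [] []),
.rs (.join 1 4 5 4 4 2 [(2, 2)]),
.rs (.slot 0 [(0, 3), (2, 2), (5, 3), (3, 2), (4, 2), (6, 1)]),
.rs (.mono 0 18 19 1),
.rs (.slot 0 [(4, 1), (3, 2), (5, 3), (0, 2), (2, 3), (1, 2)]),
.rs (.slot 0 [(1, 1), (0, 2), (2, 4), (3, 2), (4, 4)]),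
.rs (.slot 0 [(1, 1), (0, 2), (2, 3), (3, 2), (5, 3), (4, 2)]),
.rs (.join 0 4 4 3 1 2 [(2, 0)]),
.rs (.lipl 1 21 93 0 72),
.rs (.mono 0 4 5 1),
.rs (.le 0 18 2 1 1),
.rs (.lipl 0 20 53 1 33),
.rs (.slot 0 [(2, 1), (1, 3), (3, 3), (4, 3), (5, 3)]),
.rs (.le 0 34 2 1 2),
.rs (.slot 0 [(4, 1), (3, 3), (0, 3), (1, 3), (2, 3)]),
.rs (.slot 0 [(0, 1), (1, 2), (2, 4), (3, 2), (5, 4)]),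
.rs (.mono 0 2 10 1),
.rs (.join 1 1 4 4 3 1 [(0, 0)]),
.rs (.le 1 12 4 2 3),
.rs (.le 1 3 2 1 1),
.rs (.ab2 0 96),
.rs (.join 1 4 4 3 2 2 [(2, 1)]),
.rs (.join 1 8 5 3 3 1 [(3, 1)]),
.rs (.le 0 36 32 5 2),
.rs (.join 1 2 3 4 2 3 [(1, 1)]),
.rs (.part [45, 82] [0, 1] [] []),
.rs (.join 1 4 5 4 3 2 [(2, 1)]),
.rs (.l2 1 9 33 0 1 2),
.rs (.part [81, 40] [0, 0] [6] []),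
.rs (.part [31, 96] [1, 0] [] []),
.rs (.lipl 1 19 115 0 96),
.rs (.lipl 0 33 45 0 12),
.rs (.hall [0] [3, 4, 5]),
.rs (.le 0 17 16 4 1),
.rs (.lipl 1 74 107 0 33),
.rs (.l2 1 5 6 2 1 1),
.rs (.slot 0 [(0, 1), (1, 2), (2, 3), (3, 2), (4, 2), (5, 2), (6, 1)]),
.rs (.lipl 1 98 110 0 12),
.rs (.join 1 2 2 3 1 2 [(1, 0)]),
.rs (.join 1 4 4 4 0 4 [(2, 0)]),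
.rs (.slot 0 [(1, 3), (0, 2), (5, 3), (3, 2), (4, 2), (6, 1)]),
.rs (.part [66, 5] [0, 0] [56] []),
.rs (.part [13, 114] [0, 1] [] []),
.rs (.part [3, 100] [0, 0] [24] []),
.rs (.ordE 0 4 1),
.rs (.l2 1 5 17 0 1 2),
.rs (.part [24, 97] [0, 0] [6] []),
.rs (.mono 0 1 5 1),
.rs (.slot 0 [(1, 4), (0, 2), (5, 2), (4, 4), (6, 1)]),
.rs (.lipl 0 18 54 1 36),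
.rs (.lipl 0 20 53 0 33),
.rs (.slot 0 [(5, 1), (4, 3), (0, 3), (1, 3), (2, 3)]),
.degU 5 [(0, 4), (1, 1)],
.rs (.slot 0 [(0, 3), (2, 2), (3, 3), (4, 2), (5, 2), (6, 1)]),
.rs (.join 1 2 2 4 1 3 [(1, 0)]),
.rs (.part [40, 80] [0, 0] [7] []),
.rs (.lipl 0 34 51 1 17),
.rs (.lipl 0 17 53 1 36),
.rs (.mono 0 33 37 1),
.rs (.part [3, 76] [0, 0] [48] []),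
.rs (.join 0 2 2 3 1 2 [(1, 0)]),
.rs (.lipl 0 33 43 1 10),
.rs (.le 0 12 4 2 3),
.rs (.join 0 4 4 3 0 4 [(2, 1)]),
.rs (.lipl 0 37 55 1 18),
.rs (.join 0 36 6 3 2 1 [(2, 0), (5, 0)]),
.rs (.join 0 8 6 3 2 1 [(3, 0)]),
.rs (.slot 0 [(1, 3), (0, 2), (3, 3), (4, 2), (5, 2), (6, 1)]),
.rs (.join 1 2 3 4 2 4 [(1, 2)]),
.rs (.slot 0 [(1, 1), (2, 2), (0, 3), (3, 2), (4, 3), (5, 2)]),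
.rs (.slot 0 [(5, 1), (4, 2), (3, 4), (2, 2), (1, 4)]),
.rs (.slot 0 [(3, 4), (5, 1), (4, 2), (0, 2), (1, 2), (2, 2)]),
.rs (.lipl 0 12 30 1 18),
.rs (.slot 0 [(1, 1), (0, 2), (2, 4), (4, 2), (5, 4)]),
.rs (.le 0 9 8 3 1),
.rs (.join 0 8 5 2 2 0 [(3, 0)]),
.rs (.lipl 0 37 47 1 10),
.rs (.le 0 17 1 0 3),
.rs (.slot 0 [(2, 1), (1, 2), (0, 4), (3, 2), (5, 4)]),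
.rs (.join 0 16 5 3 2 1 [(4, 0)]),
.rs (.join 1 2 5 5 3 2 [(1, 0)]),
.rs (.lipl 1 13 93 0 80),
.rs (.le 1 36 4 2 3),
.rs (.ordE 0 2 2),
.rs (.le 0 96 32 5 1),
.rs (.le 0 12 8 3 3),
.rs (.part [55, 72] [1, 0] [] []),
.rs (.lipl 1 49 117 0 68),
.rs (.mono 1 12 76 1),
.rs (.ordE 1 8 2),
.rs (.join 1 2 3 5 3 2 [(1, 0)]),
.rs (.lipl 0 12 45 0 33),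
.rs (.slot 0 [(2, 1), (1, 2), (0, 4), (4, 2), (5, 4)]),
.rs (.join 1 8 4 4 1 3 [(3, 0)]),
.rs (.join 0 1 3 3 2 2 [(0, 1)]),
.rs (.part [59, 68] [1, 0] [] []),
.rs (.lipl 1 100 109 0 9),
.rs (.join 1 2 5 4 4 2 [(1, 2)]),
.rs (.lipl 1 74 94 0 20),
.rs (.lipl 1 74 91 0 17),
.rs (.lip 0 100 103 7),
.rs (.l2 0 40 72 3 2 1),
.rs (.le 1 5 1 0 1),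
.rs (.l2 1 5 12 2 1 2),
.rs (.mono 0 10 42 1),
.rs (.join 1 1 2 4 2 2 [(0, 0)]),
.rs (.l2 0 6 68 2 2 1),
.rs (.mono 0 10 11 1),
.rs (.join 1 8 5 5 2 3 [(3, 0)]),
.rs (.lipl 1 37 117 0 80),
.rs (.hall [1] [0, 1, 2]),
.rs (.join 1 8 4 4 3 1 [(3, 0)]),
.rs (.lipl 0 20 30 0 10),
.rs (.join 0 2 4 3 3 2 [(1, 2)]),
.rs (.lipl 1 76 110 1 34),
.rs (.join 0 1 3 3 3 0 [(0, 0)]),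
.rs (.join 1 2 3 4 2 2 [(1, 0)]),
.rs (.part [12, 112] [0, 0] [3] []),
.rs (.un 1 3),
.rs (.join 0 2 6 3 3 0 [(1, 0)]),
.rs (.join 1 1 3 4 2 4 [(0, 2)]),
.rs (.lipl 1 76 109 1 33),
.rs (.lip 0 15 63 56),
.rs (.deg 4 [3, 0]),
.degU 2 [(0, 4), (1, 1)],
.rs (.deg 0 [2, 1]),
.rs (.part [12, 115] [0, 1] [] []),
.rs (.join 0 5 6 3 2 1 [(0, 0), (2, 0)]),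
.rs (.mono 0 17 49 1),
.rs (.join 0 2 5 2 1 1 [(1, 0)]),
.rs (.l2 1 18 20 4 1 2),
.rs (.part [61, 66] [1, 0] [] []),
.rs (.join 1 16 5 3 2 1 [(4, 0)]),
.rs (.slot 0 [(1, 4), (0, 1), (2, 2), (3, 2), (4, 2), (5, 2)]),
.rs (.join 1 4 5 4 2 2 [(2, 0)]),
.rs (.step 0 6 27 [11, 19, 25, 26, 27] []),
.rs (.lipl 1 42 110 0 68),
.rs (.slot 0 [(5, 3), (3, 2), (2, 3), (0, 2), (1, 2), (6, 1)]),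
.rs (.slot 0 [(3, 1), (4, 2), (5, 3), (0, 2), (2, 3), (1, 2)]),
.rs (.le 0 18 2 1 3),
.rs (.join 0 1 2 2 0 2 [(0, 0)]),
.rs (.l2 0 9 65 0 2 1),
.rs (.lipl 1 42 107 0 65),
.rs (.lipl 0 10 30 0 20),
.rs (.le 0 10 2 1 2),
.rs (.mono 1 32 40 1),
.rs (.join 0 4 4 2 1 1 [(2, 0)]),
.rs (.mono 0 16 17 1),
.rs (.ab 0 1),
.rs (.join 1 8 5 4 3 2 [(3, 1)]),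
.rs (.part [5, 66] [0, 0] [56] []),
.rs (.lipl 0 36 54 1 18),
.rs (.slot 0 [(0, 3), (1, 2), (4, 3), (3, 2), (5, 2), (6, 1)]),
.rs (.part [51, 76] [0, 1] [] []),
.rs (.mono 0 2 3 1),
.rs (.deg 1 [1, 2]),
.rs (.l2 0 10 24 3 1 1),
.rs (.slot 0 [(1, 1), (2, 2), (0, 3), (3, 2), (4, 2), (5, 2), (6, 1)]),
.rs (.lipl 1 100 118 1 18),
.rs (.lipl 1 17 89 0 72),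
.rs (.part [28, 96] [0, 0] [3] []),
.rs (.le 0 12 8 3 1),
.rs (.lipl 1 21 117 0 96),
.rs (.ab2 0 80),
.rs (.join 0 1 4 3 1 3 [(0, 1)]),
.rs (.ab2 0 68),
.rs (.l2 1 33 40 5 2 1),
.rs (.slot 0 [(1, 3), (2, 2), (4, 3), (3, 2), (5, 2), (6, 1)]),
.rs (.slot 0 [(0, 4), (2, 1), (1, 2), (3, 2), (4, 2), (5, 2)]),
.rs (.mono 1 16 80 1),
.rs (.slot 0 [(0, 2), (1, 2), (3, 3), (4, 3), (5, 3)]),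
.rs (.le 0 65 1 0 1),
.rs (.ordE 0 2 1),
.rs (.join 1 1 3 4 2 2 [(0, 0)]),
.rs (.join 0 9 6 3 2 1 [(0, 0), (3, 0)]),
.rs (.join 1 1 5 4 0 4 [(0, 0)]),
.rs (.l2 1 3 5 0 1 1),
.degU 5 [(0, 5)],
.rs (.join 1 2 2 5 2 3 [(1, 0)]),
.rs (.l2 1 10 24 3 2 1),
.rs (.ordE 0 1 1),
.rs (.join 0 1 4 3 1 2 [(0, 0)]),
.rs (.slot 0 [(5, 1), (3, 2), (4, 3), (0, 2), (1, 3), (2, 2)]),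
.rs (.slot 0 [(4, 1), (3, 2), (5, 3), (1, 2), (0, 3), (2, 2)]),
.rs (.ordE 1 32 3),
.rs (.slot 0 [(4, 1), (3, 2), (5, 3), (0, 2), (1, 2), (2, 2), (6, 1)]),
.rs (.lipl 1 11 91 0 80),
.rs (.part [20, 104] [0, 0] [3] []),
.rs (.join 1 8 5 4 1 3 [(3, 0)]),
.rs (.join 1 4 4 5 2 3 [(2, 0)]),
.rs (.le 1 6 4 2 2),
.rs (.part [81, 6] [0, 0] [40] []),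
.rs (.join 1 2 3 2 1 1 [(1, 0)]),
.rs (.l2 1 18 48 4 2 1),
.rs (.l2 0 36 68 2 2 1),
.rs (.lipl 1 100 110 0 10),
.rs (.lipl 1 28 94 0 66),
.rs (.lipl 0 18 30 1 12),
.rs (.slot 0 [(5, 3), (3, 2), (0, 3), (1, 2), (2, 2), (6, 1)]),
.rs (.l2 1 12 20 2 1 1),
.rs (.ab2 0 48),
.rs (.join 1 1 4 4 4 2 [(0, 2)]),
.rs (.join 0 1 3 3 2 3 [(0, 2)]),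
.rs (.mono 0 8 72 1),
.rs (.join 1 1 3 3 0 3 [(0, 0)]),
.rs (.lipl 0 26 62 1 36),
.rs (.lipl 1 82 91 0 9),
.rs (.part [76, 48] [0, 0] [3] []),
.rs (.lip 0 12 76 64),
.rs (.le 1 3 1 0 1),
.rs (.deg 1 [3, 0]),
.rs (.part [21, 106] [0, 1] [] []),
.rs (.deg 2 [0, 3]),
.rs (.join 0 1 1 2 0 2 [(0, 0)]),
.rs (.le 0 12 8 3 2),
.rs (.slot 0 [(5, 3), (4, 2), (0, 3), (1, 2), (2, 2), (6, 1)]),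
.rs (.join 1 5 3 5 2 3 [(0, 0), (2, 0)]),
.rs (.join 0 2 4 3 1 3 [(1, 1)]),
.rs (.join 1 4 5 5 3 2 [(2, 0)]),
.rs (.lipl 1 76 94 1 18),
.rs (.ab2 0 10),
.rs (.ab2 0 20),
.rs (.l2 0 34 40 5 1 1),
.rs (.lipl 1 76 110 0 34),
.rs (.mono 0 16 20 1),
.rs (.lipl 0 38 47 1 9),
.rs (.part [14, 65] [0, 0] [48] []),
.rs (.part [52, 75] [0, 1] [] []),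
.rs (.join 1 3 4 5 3 2 [(0, 0), (1, 0)]),
.rs (.l2 1 20 36 2 2 1),
.rs (.mono 0 33 41 1),
.rs (.join 1 16 5 4 2 2 [(4, 0)]),
.rs (.join 0 4 5 2 2 0 [(2, 0)]),
.rs (.mono 0 9 11 1),
.rs (.part [24, 103] [0, 1] [] []),
.rs (.join 0 4 5 3 2 3 [(2, 2)]),
.rs (.join 1 1 1 3 1 2 [(0, 0)]),
.rs (.part [98, 29] [1, 0] [] []),
.rs (.mono 0 1 33 1),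
.rs (.lipl 0 11 47 1 36),
.rs (.le 0 34 32 5 3),
.rs (.lipl 1 18 83 0 65),
.rs (.join 1 4 4 4 1 3 [(2, 0)]),
.rs (.l2 1 34 48 5 2 1),
.rs (.join 0 1 4 3 3 2 [(0, 2)]),
.rs (.join 1 16 5 3 3 1 [(4, 1)]),
.rs (.part [28, 99] [0, 1] [] []),
.rs (.slot 0 [(4, 1), (3, 2), (5, 3), (0, 2), (1, 3), (2, 2)]),
.rs (.lip 1 53 117 64),
.rs (.join 1 1 1 3 2 1 [(0, 0)]),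
.rs (.le 1 18 2 1 1),
.rs (.join 0 16 5 3 0 3 [(4, 0)]),
.rs (.mono 0 12 13 1),
.rs (.le 0 36 4 2 1),
.rs (.join 0 1 2 2 2 0 [(0, 0)]),
.rs (.slot 0 [(3, 4), (4, 1), (5, 2), (0, 2), (1, 2), (2, 2)]),
.rs (.slot 0 [(1, 1), (0, 2), (2, 3), (3, 2), (4, 2), (5, 2), (6, 1)]),
.rs (.le 0 9 8 3 2),
.rs (.join 1 8 5 3 0 3 [(3, 0)]),
.rs (.ab2 1 3),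
.rs (.slot 0 [(1, 1), (2, 2), (0, 4), (3, 2), (5, 4)]),
.rs (.part [72, 48] [0, 0] [7] []),
.rs (.join 1 8 4 4 2 2 [(3, 0)]),
.rs (.le 0 72 8 3 1),
.rs (.join 1 1 1 4 3 1 [(0, 0)]),
.degU 4 [(0, 5)],
.rs (.join 0 16 5 3 1 2 [(4, 0)]),
.rs (.join 0 6 6 4 4 0 [(1, 0), (2, 0)]),
.rs (.lipl 1 81 93 0 12),
.rs (.ab2 1 5),
.rs (.lipl 0 22 55 1 33),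
.rs (.lipl 1 104 121 1 17),
.rs (.part [6, 121] [0, 1] [] []),
.rs (.lipl 0 50 62 1 12),
.rs (.lipl 0 35 55 1 20),
.rs (.part [21, 66] [0, 0] [40] []),
.rs (.le 0 24 8 3 1),
.rs (.lipl 0 9 27 1 18),
.rs (.slot 0 [(1, 3), (2, 2), (3, 3), (4, 2), (5, 2), (6, 1)]),
.rs (.slot 0 [(0, 4), (2, 2), (5, 2), (4, 4), (6, 1)]),
.rs (.mono 0 32 34 1),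
.rs (.mono 1 20 84 1),
.rs (.le 0 33 32 5 1),
.rs (.slot 0 [(0, 1), (2, 2), (1, 4), (5, 2), (3, 4)]),
.rs (.l2 0 3 18 1 1 1),
.rs (.l2 1 17 33 0 2 1),
.rs (.join 1 4 4 4 3 1 [(2, 0)]),
.rs (.lipl 1 84 94 1 10),
.rs (.l2 1 18 24 4 2 1),
.rs (.le 0 3 1 0 1),
.rs (.part [97, 6] [0, 0] [24] []),
.rs (.join 0 16 5 3 3 0 [(4, 0)]),
.rs (.l2 1 12 36 2 1 1),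
.rs (.lipl 0 18 27 0 9),
.rs (.l2 0 48 80 4 2 1),
.rs (.l2 1 6 12 2 1 2),
.rs (.le 0 12 4 2 1),
.rs (.join 1 2 2 5 3 2 [(1, 0)]),
.rs (.join 1 1 1 4 3 2 [(0, 1)]),
.rs (.slot 0 [(0, 1), (2, 2), (1, 4), (3, 2), (4, 4)]),
.rs (.join 1 16 5 4 3 2 [(4, 1)]),
.rs (.ab 0 6),
.rs (.part [6, 81] [0, 0] [40] []),
.rs (.join 0 2 3 3 1 2 [(1, 0)]),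
.rs (.lipl 0 17 51 0 34),
.rs (.hall [0] [0, 1, 6]),
.rs (.join 0 1 4 3 2 1 [(0, 0)]),
.degU 0 [(0, 2), (1, 3)],
.rs (.join 1 16 5 3 3 0 [(4, 0)]),
.rs (.mono 0 1 3 1),
.rs (.ab 0 5),
.rs (.ab2 1 48),
.rs (.join 1 16 5 4 3 1 [(4, 0)]),
.rs (.ab2 0 18),
.rs (.slot 0 [(5, 4), (4, 1), (3, 2), (0, 2), (1, 2), (2, 2)]),
.rs (.l2 0 5 17 0 2 1),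
.rs (.part [5, 74] [0, 0] [48] []),
.rs (.join 1 4 5 2 1 1 [(2, 0)]),
.rs (.le 0 9 1 0 1),
.rs (.lip 0 76 79 7),
.rs (.lipl 0 17 27 1 10),
.rs (.le 1 9 8 3 1),
.rs (.join 0 4 4 3 1 3 [(2, 1)]),
.rs (.slot 0 [(5, 3), (4, 2), (1, 3), (0, 2), (2, 2), (6, 1)]),
.rs (.lipl 1 98 107 0 9),
.rs (.le 1 20 4 2 3),
.rs (.slot 0 [(5, 1), (3, 2), (4, 3), (0, 2), (1, 2), (2, 2), (6, 1)]),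
.rs (.l2 1 17 33 0 1 2),
.rs (.join 0 2 4 2 0 2 [(1, 0)]),
.rs (.part [46, 81] [1, 0] [] []),
.rs (.join 0 2 4 3 1 2 [(1, 0)]),
.rs (.slot 0 [(3, 3), (4, 2), (0, 3), (1, 2), (2, 2), (6, 1)]),
.rs (.deg 6 [1, 3]),
.rs (.join 1 8 5 3 1 2 [(3, 0)]),
.rs (.join 1 2 4 4 3 2 [(1, 1)]),
.rs (.join 0 2 4 2 2 0 [(1, 0)]),
.rs (.l2 0 18 48 4 1 1),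
.rs (.join 0 1 3 3 3 2 [(0, 2)]),
.rs (.ordE 0 16 3),
.rs (.lipl 1 74 91 1 17),
.rs (.join 1 1 3 4 1 3 [(0, 0)]),
.rs (.lipl 0 25 59 1 34),
.rs (.le 1 36 32 5 3),
.rs (.mono 0 32 40 1),
.rs (.lipl 1 82 94 1 12),
.rs (.lipl 0 10 27 1 17),
.rs (.ab2 0 33),
.rs (.join 0 1 3 3 1 2 [(0, 0)]),
.rs (.le 0 10 8 3 1),
.rs (.l2 0 9 12 3 1 2),
.rs (.join 0 8 5 3 2 1 [(3, 0)]),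
.rs (.join 1 2 2 4 2 2 [(1, 0)]),
.rs (.slot 0 [(0, 1), (2, 2), (1, 3), (3, 2), (4, 2), (5, 2), (6, 1)]),
.rs (.deg 3 [1, 2]),
.rs (.lipl 1 74 107 1 33),
.rs (.le 1 36 32 5 1),
.rs (.join 1 1 1 3 3 1 [(0, 1)]),
.rs (.l2 1 9 17 0 1 1),
.rs (.join 1 4 4 4 4 0 [(2, 0)]),
.rs (.deg 3 [3, 0]),
.rs (.l2 0 5 12 2 1 1),
.rs (.ordE 0 16 2),
.rs (.slot 0 [(1, 2), (2, 2), (3, 3), (4, 3), (5, 3)]),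
.rs (.join 1 6 4 5 3 2 [(1, 0), (2, 0)]),
.rs (.part [26, 96] [0, 0] [5] []),
.rs (.lipl 1 38 118 0 80),
.rs (.l2 1 33 36 5 2 1),
.rs (.un 0 1),
.rs (.lip 0 9 73 64),
.rs (.join 1 8 4 3 1 2 [(3, 0)]),
.rs (.l2 1 36 40 5 1 1),
.rs (.join 0 8 4 3 1 2 [(3, 0)]),
.rs (.join 1 4 3 4 4 0 [(2, 0)]),
.rs (.slot 0 [(4, 3), (5, 2), (1, 3), (0, 2), (2, 2), (6, 1)]),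
.rs (.join 0 2 5 3 2 2 [(1, 1)]),
.degU 0 [(0, 4), (1, 1)],
.rs (.l2 0 10 66 1 1 1),
.rs (.ab 0 4),
.rs (.mono 0 9 41 1),
.rs (.lip 0 58 63 7),
.rs (.join 1 8 4 3 2 2 [(3, 1)]),
.rs (.lipl 0 11 31 1 20),
.rs (.slot 0 [(0, 1), (1, 3), (3, 3), (4, 3), (5, 3)]),
.rs (.lipl 1 84 117 1 33),
.rs (.l2 0 10 34 1 2 1),
.rs (.join 0 4 3 3 2 1 [(2, 0)]),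
.rs (.l2 0 17 24 4 1 1),
.rs (.part [6, 97] [0, 0] [24] []),
.rs (.step 0 6 57 [25, 41, 49, 56, 57] []),
.rs (.join 0 1 1 2 1 1 [(0, 0)]),
.rs (.mono 0 1 65 1),
.rs (.lip 1 68 76 8),
.rs (.join 1 1 2 3 0 3 [(0, 0)]),
.rs (.l2 1 3 10 1 1 2),
.rs (.join 1 2 5 2 1 1 [(1, 0)]),
.rs (.mono 0 1 17 1),
.rs (.join 1 1 5 4 3 2 [(0, 1)]),
.rs (.le 0 65 64 6 1),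
.rs (.l2 0 6 20 2 1 1),
.rs (.mono 0 9 25 1),
.rs (.lipl 1 82 118 1 36),
.rs (.l2 0 34 66 1 2 1),
.rs (.join 1 1 5 3 0 3 [(0, 0)]),
.rs (.lipl 0 25 61 1 36),
.rs (.part [76, 51] [1, 0] [] []),
.rs (.ab2 0 3),
.rs (.slot 0 [(2, 1), (0, 3), (3, 3), (4, 3), (5, 3)]),
.rs (.lipl 1 22 118 0 96),
.degU 2 [(0, 2), (1, 3)],
.rs (.slot 0 [(0, 1), (2, 2), (1, 3), (3, 2), (4, 3), (5, 2)]),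
.rs (.join 0 8 4 3 2 2 [(3, 1)]),
.rs (.deg 1 [0, 3]),
.rs (.lipl 0 34 54 1 20),
.rs (.slot 0 [(1, 1), (0, 3), (3, 3), (4, 3), (5, 3)]),
.rs (.part [53, 74] [1, 0] [] []),
.rs (.slot 0 [(0, 1), (1, 2), (2, 3), (4, 2), (3, 3), (5, 2)]),
.rs (.join 1 2 4 4 0 4 [(1, 0)]),
.rs (.join 1 1 2 2 0 2 [(0, 0)]),
.rs (.lipl 1 22 94 0 72),
.rs (.slot 0 [(1, 1), (0, 2), (4, 3), (3, 4), (5, 3)]),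
.rs (.part [44, 83] [0, 1] [] []),
.rs (.part [17, 104] [0, 0] [6] []),
.rs (.part [42, 85] [0, 1] [] []),
.rs (.join 0 4 4 3 2 1 [(2, 0)]),
.rs (.ordE 0 4 3),
.rs (.join 1 2 2 3 2 1 [(1, 0)]),
.rs (.deg 2 [2, 1]),
.rs (.lip 0 34 98 64),
.rs (.slot 0 [(4, 4), (3, 1), (5, 2), (0, 2), (1, 2), (2, 2)]),
.rs (.part [48, 73] [0, 0] [6] []),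
.rs (.le 1 40 8 3 1),
.rs (.lipl 0 36 53 0 17),
.rs (.part [36, 91] [0, 1] [] []),
.rs (.le 0 36 4 2 3),
.rs (.ordE 0 32 1),
.rs (.ordE 0 8 3),
.rs (.join 0 4 3 3 1 2 [(2, 0)]),
.rs (.le 0 20 4 2 1),
.rs (.mono 0 40 42 1),
.rs (.join 1 8 5 3 2 2 [(3, 1)]),
.rs (.join 1 2 5 5 2 3 [(1, 0)]),
.rs (.join 0 1 1 3 1 2 [(0, 0)]),
.rs (.lipl 1 97 115 0 18)]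

noncomputable def gv : List Gv := [
.low [4, 0, 1, 1, 0, 4],
.low [4, 1, 0, 4, 1, 0],
.low [4, 1, 1, 2, 1, 1],
.low [2, 3, 0, 0, 3, 2],
.low [1, 2, 2, 2, 1, 2],
.low [3, 2, 0, 3, 2, 0],
.low [1, 1, 1, 1, 2, 4],
.low [4, 0, 2, 1, 0, 3],
.low [3, 0, 2, 0, 2, 3],
.low [1, 0, 3, 2, 4, 0],
.low [2, 2, 0, 4, 1, 1],
.low [0, 2, 3, 3, 0, 2],
.low [2, 2, 1, 2, 2, 1],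
.low [3, 2, 0, 0, 2, 3],
.low [3, 1, 2, 2, 0, 2],
.low [2, 0, 2, 4, 1, 1],
.low [1, 2, 2, 1, 0, 4],
.low [3, 2, 0, 2, 3, 0],
.low [2, 1, 2, 2, 2, 1],
.low [3, 0, 2, 2, 0, 3],
.low [1, 1, 4, 0, 2, 2],
.low [0, 4, 1, 2, 1, 2],
.low [0, 2, 2, 2, 2, 2],
.low [2, 0, 3, 3, 0, 2],
.low [2, 0, 2, 2, 3, 1],
.low [2, 1, 1, 1, 4, 1],
.low [2, 0, 3, 3, 2, 0],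
.low [2, 0, 4, 3, 0, 1],
.low [4, 0, 2, 3, 1, 0],
.low [2, 3, 0, 0, 2, 3],
.low [1, 1, 4, 1, 2, 1],
.low [0, 4, 2, 3, 0, 1],
.low [1, 2, 3, 2, 0, 2],
.low [0, 4, 1, 1, 0, 4],
.low [2, 2, 2, 2, 0, 2],
.low [2, 3, 0, 2, 0, 3],
.low [2, 0, 2, 1, 3, 2],
.low [1, 2, 1, 1, 1, 4],
.low [2, 0, 3, 2, 0, 3],
.low [4, 0, 1, 2, 2, 1],
.low [2, 1, 3, 0, 2, 2],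
.low [2, 3, 0, 3, 0, 2],
.low [1, 1, 4, 2, 0, 2],
.low [0, 4, 2, 1, 0, 3],
.low [0, 2, 2, 1, 4, 1],
.low [2, 1, 1, 4, 1, 1],
.low [1, 4, 1, 2, 0, 2],
.low [0, 4, 2, 1, 3, 0],
.low [1, 3, 0, 4, 0, 2],
.low [1, 4, 0, 4, 1, 0],
.low [2, 2, 1, 1, 2, 2],
.low [0, 3, 2, 2, 3, 0],
.low [0, 2, 3, 0, 3, 2],
.low [0, 3, 2, 2, 0, 3],
.low [1, 0, 4, 0, 1, 4],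
.low [1, 4, 1, 1, 2, 1],
.low [0, 1, 4, 1, 0, 4],
.low [1, 4, 2, 1, 1, 1],
.low [2, 4, 1, 1, 1, 1],
.low [3, 0, 2, 0, 3, 2],
.low [2, 1, 2, 0, 1, 4],
.low [0, 4, 1, 4, 1, 0],
.low [4, 2, 0, 0, 3, 1],
.low [4, 2, 0, 0, 1, 3],
.low [2, 0, 2, 2, 1, 3],
.low [1, 0, 4, 4, 1, 0],
.low [0, 2, 3, 2, 3, 0],
.low [0, 4, 1, 1, 2, 2],
.low [4, 1, 1, 3, 1, 0],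
.low [1, 4, 0, 2, 1, 2],
.low [1, 2, 1, 2, 2, 2],
.low [0, 3, 2, 3, 2, 0],
.low [1, 2, 2, 2, 2, 1],
.low [0, 3, 1, 4, 2, 0],
.low [3, 2, 0, 3, 0, 2],
.low [0, 2, 4, 3, 1, 0],
.low [3, 0, 2, 2, 3, 0],
.low [2, 2, 0, 2, 3, 1],
.low [2, 0, 3, 0, 3, 2],
.low [1, 0, 3, 0, 4, 2],
.low [2, 2, 2, 1, 1, 2],
.low [3, 2, 1, 2, 0, 2],
.low [2, 1, 2, 2, 1, 2],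
.low [0, 3, 2, 3, 0, 2],
.low [2, 1, 2, 1, 4, 0],
.low [1, 1, 1, 2, 4, 1],
.low [0, 2, 2, 2, 1, 3],
.low [0, 1, 4, 0, 4, 1],
.low [0, 2, 2, 1, 1, 4],
.low [2, 2, 0, 1, 1, 4],
.low [2, 0, 2, 3, 2, 1],
.low [2, 1, 1, 1, 1, 4],
.low [3, 2, 0, 0, 3, 2],
.low [2, 2, 0, 2, 2, 2],
.low [4, 1, 1, 2, 0, 2],
.low [1, 4, 1, 2, 1, 1],
.low [3, 0, 2, 3, 2, 0],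
.low [1, 2, 2, 1, 2, 2],
.low [2, 1, 2, 1, 0, 4],
.low [4, 0, 1, 1, 4, 0],
.low [3, 0, 1, 0, 4, 2],
.low [1, 2, 3, 0, 2, 2],
.low [1, 4, 1, 1, 1, 2],
.low [1, 0, 4, 0, 4, 1],
.low [2, 0, 3, 0, 2, 3],
.low [3, 0, 1, 4, 0, 2],
.low [1, 0, 4, 2, 1, 2],
.low [2, 0, 3, 2, 3, 0],
.low [4, 1, 1, 1, 1, 2],
.low [1, 3, 0, 4, 2, 0],
.low [0, 4, 1, 4, 0, 1],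
.low [1, 0, 4, 4, 0, 1],
.low [0, 2, 3, 3, 2, 0],
.low [1, 4, 1, 2, 2, 0],
.low [2, 3, 0, 2, 3, 0],
.low [1, 2, 2, 0, 4, 1],
.low [4, 0, 1, 4, 1, 0],
.low [4, 1, 1, 0, 2, 2],
.low [4, 1, 0, 2, 1, 2],
.low [1, 4, 0, 1, 0, 4],
.low [1, 0, 4, 1, 0, 4],
.low [1, 4, 0, 2, 2, 1],
.low [2, 4, 0, 0, 3, 1],
.low [2, 4, 0, 0, 1, 3],
.low [1, 2, 2, 1, 4, 0],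
.low [0, 4, 1, 0, 1, 4],
.low [1, 4, 0, 1, 2, 2],
.low [1, 1, 2, 1, 1, 4],
.low [3, 2, 0, 2, 0, 3],
.low [1, 2, 1, 4, 1, 1],
.low [4, 0, 2, 1, 3, 0],
.low [2, 2, 2, 2, 1, 1],
.low [0, 3, 2, 0, 3, 2],
.low [4, 0, 1, 0, 4, 1],
.low [0, 2, 3, 2, 0, 3],
.low [2, 3, 1, 2, 2, 0],
.low [1, 1, 4, 1, 1, 2],
.low [4, 1, 0, 2, 2, 1],
.low [2, 4, 0, 3, 0, 1],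
.low [4, 1, 1, 2, 2, 0],
.low [0, 4, 1, 0, 4, 1],
.low [4, 1, 0, 0, 1, 4],
.low [2, 0, 2, 3, 1, 2],
.low [1, 2, 4, 1, 1, 1],
.low [2, 1, 2, 1, 2, 2],
.low [4, 1, 0, 0, 4, 1],
.low [0, 1, 4, 4, 1, 0],
.low [1, 3, 0, 0, 2, 4],
.low [0, 3, 2, 0, 2, 3],
.low [2, 3, 0, 3, 2, 0],
.low [2, 2, 1, 2, 1, 2],
.low [2, 1, 4, 1, 1, 1],
.low [2, 2, 0, 1, 2, 3],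
.low [1, 1, 1, 2, 1, 4],
.low [0, 4, 1, 2, 2, 1],
.low [1, 4, 0, 0, 4, 1],
.low [0, 1, 4, 1, 4, 0],
.low [1, 4, 1, 0, 2, 2],
.low [4, 0, 1, 2, 1, 2],
.low [4, 0, 1, 4, 0, 1],
.low [1, 1, 2, 4, 1, 1],
.low [1, 2, 2, 0, 1, 4],
.low [2, 2, 2, 1, 2, 1],
.low [0, 2, 2, 2, 3, 1],
.low [1, 0, 4, 1, 4, 0],
.low [2, 2, 2, 2, 2, 0],
.low [1, 1, 4, 2, 2, 0],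
.low [0, 2, 2, 3, 2, 1],
.low [4, 1, 0, 4, 0, 1],
.low [0, 2, 3, 0, 2, 3],
.low [4, 2, 0, 1, 0, 3],
.low [2, 2, 0, 1, 4, 1],
.low [4, 1, 2, 1, 1, 1],
.low [4, 1, 1, 1, 2, 1],
.low [3, 0, 2, 3, 0, 2],
.low [1, 4, 0, 0, 1, 4],
.low [0, 1, 4, 2, 1, 2],
.low [1, 3, 2, 2, 2, 0],
.low [1, 1, 4, 2, 1, 1],
.low [0, 1, 4, 4, 0, 1],
.low [0, 2, 2, 1, 2, 3],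
.low [2, 0, 2, 1, 1, 4],
.low [1, 1, 2, 2, 2, 2],
.low [0, 2, 2, 4, 1, 1],
.low [0, 3, 1, 2, 0, 4],
.low [2, 0, 4, 1, 3, 0],
.low [1, 1, 1, 4, 1, 2],
.low [0, 1, 3, 4, 2, 0],
.low [1, 1, 2, 1, 4, 1],
.low [2, 0, 4, 1, 0, 3],
.low [1, 4, 0, 4, 0, 1],
.cap6,
.low [1, 1, 1, 1, 4, 2],
.low [2, 2, 1, 4, 1, 0],
.low [2, 2, 2, 0, 2, 2],
.low [4, 2, 1, 1, 1, 1],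
.low [0, 1, 3, 0, 2, 4],
.low [1, 3, 2, 0, 2, 2],
.low [1, 2, 1, 1, 4, 1],
.low [2, 1, 1, 2, 2, 2],
.low [2, 0, 2, 2, 2, 2],
.low [3, 1, 0, 0, 2, 4],
.low [2, 1, 3, 2, 0, 2],
.low [1, 2, 2, 4, 1, 0],
.low [1, 1, 1, 4, 2, 1],
.low [4, 0, 1, 0, 1, 4],
.low [1, 4, 0, 1, 4, 0]]

noncomputable def gads : List Gt := [
⟨0, [⟨84, 3, []⟩, ⟨1, 3, []⟩], [3, 3], 1, [(5, 1), (17, 1), (65, 1)]⟩,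
⟨0, [⟨2, 2, []⟩, ⟨4, 2, []⟩, ⟨16, 2, []⟩, ⟨8, 4, []⟩], [3, 3, 3, 12, 4, 4], 2, [(6, 1), (24, 1), (30, 2)]⟩,
⟨0, [⟨100, 3, []⟩, ⟨1, 3, []⟩], [3, 3], 1, [(5, 1), (33, 1), (65, 1)]⟩,
⟨0, [⟨16, 3, []⟩, ⟨32, 1, [(10, 2)]⟩], [3, 3], 1, [(26, 1), (48, 1)]⟩,
⟨0, [⟨6, 3, []⟩, ⟨17, 3, []⟩], [3, 3], 1, [(3, 1), (5, 1), (18, 1), (20, 1)]⟩,
⟨0, [⟨74, 3, []⟩, ⟨1, 3, []⟩], [3, 3], 1, [(3, 1), (9, 1), (65, 1)]⟩,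
⟨1, [⟨9, 4, []⟩, ⟨48, 4, []⟩, ⟨64, 4, []⟩], [7], 1, [(81, 1), (88, 1), (97, 1), (104, 1)]⟩,
⟨1, [⟨10, 2, []⟩, ⟨16, 4, []⟩], [3, 1, 1], 1, [(18, 1), (24, 1)]⟩,
⟨1, [⟨4, 2, []⟩, ⟨1, 4, []⟩, ⟨8, 2, []⟩, ⟨32, 2, []⟩, ⟨64, 5, []⟩], [3, 5, 9, 12, 12], 2, [(69, 1), (73, 1), (97, 1), (104, 1), (109, 2)]⟩,
⟨0, [⟨2, 2, [(80, 1)]⟩, ⟨4, 3, []⟩], [3, 3], 1, [(6, 1), (84, 1)]⟩,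
⟨0, [⟨16, 3, []⟩, ⟨104, 3, []⟩], [3, 3], 1, [(24, 1), (48, 1), (80, 1)]⟩,
⟨1, [⟨16, 2, []⟩, ⟨32, 4, []⟩, ⟨1, 1, []⟩, ⟨64, 5, []⟩], [3, 1, 1, 4, 4, 4, 4], 2, [(65, 1), (112, 1), (113, 2)]⟩,
⟨1, [⟨64, 4, []⟩, ⟨0, 0, [(6, 1), (24, 1)]⟩], [3, 2, 2], 1, [(70, 1), (88, 1)]⟩,
⟨1, [⟨8, 2, []⟩, ⟨32, 4, []⟩, ⟨2, 2, []⟩, ⟨4, 2, []⟩, ⟨64, 5, []⟩], [3, 5, 9, 12, 12], 2, [(70, 1), (98, 1), (100, 1), (104, 1), (110, 2)]⟩,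
⟨0, [⟨32, 3, []⟩, ⟨8, 1, [(18, 2)]⟩], [3, 3], 1, [(40, 1), (50, 1)]⟩,
⟨0, [⟨16, 3, []⟩, ⟨33, 3, []⟩], [3, 3], 1, [(17, 1), (48, 1)]⟩,
⟨0, [⟨98, 3, []⟩, ⟨16, 3, []⟩], [3, 3], 1, [(18, 1), (48, 1), (80, 1)]⟩,
⟨1, [⟨2, 1, [(40, 1)]⟩, ⟨4, 2, []⟩, ⟨1, 4, []⟩, ⟨32, 1, []⟩, ⟨64, 3, []⟩], [7, 9, 9, 26, 26], 2, [(3, 1), (41, 1), (69, 1), (96, 1), (103, 2), (109, 2)]⟩,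
⟨1, [⟨10, 4, []⟩, ⟨5, 4, []⟩, ⟨64, 4, []⟩], [7], 1, [(67, 1), (70, 1), (73, 1), (76, 1)]⟩,
⟨1, [⟨8, 1, [(3, 1)]⟩, ⟨64, 4, []⟩], [3, 1, 1], 1, [(67, 1), (72, 1)]⟩,
⟨0, [⟨2, 2, []⟩, ⟨4, 2, []⟩, ⟨8, 2, []⟩, ⟨16, 4, []⟩], [3, 3, 3, 12, 4, 4], 2, [(6, 1), (24, 1), (30, 2)]⟩,
⟨1, [⟨20, 4, []⟩, ⟨40, 4, []⟩, ⟨64, 4, []⟩], [7], 1, [(76, 1), (88, 1), (100, 1), (112, 1)]⟩,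
⟨0, [⟨6, 3, []⟩, ⟨9, 3, []⟩], [3, 3], 1, [(3, 1), (5, 1), (10, 1), (12, 1)]⟩,
⟨1, [⟨8, 2, []⟩, ⟨16, 4, []⟩, ⟨2, 1, []⟩, ⟨64, 5, []⟩], [3, 1, 1, 4, 4, 4, 4], 2, [(66, 1), (88, 1), (90, 2)]⟩,
⟨0, [⟨2, 3, []⟩, ⟨17, 3, []⟩], [3, 3], 1, [(3, 1), (18, 1)]⟩,
⟨1, [⟨32, 1, [(6, 1)]⟩, ⟨64, 4, []⟩], [3, 1, 1], 1, [(70, 1), (96, 1)]⟩,
⟨1, [⟨32, 3, []⟩, ⟨24, 3, []⟩, ⟨2, 3, []⟩, ⟨4, 3, []⟩, ⟨64, 4, []⟩], [3, 3, 12, 12, 16], 2, [(46, 1), (54, 1), (70, 1), (104, 1), (110, 2), (112, 1), (118, 2)]⟩,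
⟨1, [⟨8, 2, []⟩, ⟨16, 4, []⟩, ⟨4, 1, []⟩, ⟨64, 5, []⟩], [3, 1, 1, 4, 4, 4, 4], 2, [(68, 1), (88, 1), (92, 2)]⟩,
⟨1, [⟨4, 2, []⟩, ⟨2, 4, []⟩, ⟨8, 1, []⟩, ⟨64, 5, []⟩], [3, 1, 1, 4, 4, 4, 4], 2, [(70, 1), (72, 1), (78, 2)]⟩,
⟨1, [⟨20, 5, []⟩, ⟨3, 3, []⟩, ⟨64, 5, []⟩], [2, 2], 1, [(69, 1), (70, 1), (81, 1), (82, 1)]⟩,
⟨0, [⟨1, 2, []⟩, ⟨2, 2, []⟩, ⟨16, 2, []⟩, ⟨8, 4, []⟩], [3, 3, 3, 12, 4, 4], 2, [(3, 1), (24, 1), (27, 2)]⟩,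
⟨0, [⟨73, 3, []⟩, ⟨4, 3, []⟩], [3, 3], 1, [(5, 1), (12, 1), (68, 1)]⟩,
⟨1, [⟨16, 2, []⟩, ⟨32, 2, []⟩, ⟨4, 3, []⟩, ⟨3, 3, []⟩, ⟨64, 5, []⟩], [3, 3, 3, 12, 12], 2, [(69, 1), (70, 1), (112, 1), (117, 2), (118, 2)]⟩,
⟨0, [⟨1, 2, []⟩, ⟨4, 2, [(10, 2)]⟩, ⟨0, 0, [(20, 2)]⟩, ⟨0, 0, [(10, 2)]⟩], [3, 1, 1, 12, 12, 12], 2, [(5, 1), (11, 1), (30, 1), (31, 2)]⟩,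
⟨0, [⟨8, 3, []⟩, ⟨16, 3, []⟩], [3, 3], 1, [(24, 1)]⟩,
⟨0, [⟨6, 3, []⟩, ⟨40, 3, []⟩], [3, 3], 1, [(10, 1), (12, 1), (34, 1), (36, 1)]⟩,
⟨1, [⟨8, 2, []⟩, ⟨32, 2, []⟩, ⟨3, 3, []⟩, ⟨4, 3, []⟩, ⟨64, 3, []⟩], [3, 3, 3, 28, 28], 2, [(40, 1), (69, 1), (70, 1), (109, 2), (110, 2)]⟩,
⟨0, [⟨33, 3, []⟩, ⟨20, 3, []⟩], [3, 3], 1, [(5, 1), (17, 1), (36, 1), (48, 1)]⟩,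
⟨1, [⟨34, 5, []⟩, ⟨9, 3, []⟩, ⟨64, 5, []⟩], [2, 2], 1, [(67, 1), (74, 1), (97, 1), (104, 1)]⟩,
⟨0, [⟨16, 3, []⟩, ⟨34, 3, []⟩], [3, 3], 1, [(18, 1), (48, 1)]⟩,
⟨1, [⟨34, 4, []⟩, ⟨5, 4, []⟩, ⟨64, 4, []⟩], [7], 1, [(67, 1), (70, 1), (97, 1), (100, 1)]⟩,
⟨0, [⟨8, 3, []⟩, ⟨16, 2, [(6, 1)]⟩], [3, 3], 1, [(14, 1), (24, 1)]⟩,
⟨1, [⟨1, 2, []⟩, ⟨4, 2, []⟩, ⟨24, 3, []⟩, ⟨32, 3, []⟩, ⟨64, 3, []⟩], [3, 3, 3, 28, 28], 2, [(5, 1), (104, 1), (109, 2), (112, 1), (117, 2)]⟩,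
⟨1, [⟨48, 3, []⟩, ⟨8, 3, []⟩, ⟨5, 3, []⟩, ⟨2, 2, []⟩, ⟨64, 4, []⟩], [3, 3, 12, 12, 24], 2, [(25, 1), (28, 1), (41, 1), (44, 1), (67, 1), (70, 1), (88, 1), (91, 2), (94, 2), (104, 1), (107, 2), (110, 2)]⟩,
⟨1, [⟨2, 2, []⟩, ⟨64, 4, []⟩], [3, 1, 1], 1, [(66, 1)]⟩,
⟨1, [⟨33, 4, []⟩, ⟨2, 4, []⟩, ⟨64, 4, []⟩], [7], 1, [(67, 1), (98, 1)]⟩,
⟨1, [⟨16, 2, []⟩, ⟨32, 2, []⟩, ⟨5, 3, []⟩, ⟨2, 3, []⟩, ⟨64, 3, []⟩], [3, 3, 3, 28, 28], 2, [(48, 1), (67, 1), (70, 1), (115, 2), (118, 2)]⟩,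
⟨1, [⟨10, 4, []⟩, ⟨4, 4, []⟩, ⟨64, 4, []⟩], [7], 1, [(70, 1), (76, 1)]⟩,
⟨1, [⟨8, 2, []⟩, ⟨32, 4, []⟩, ⟨4, 1, []⟩, ⟨64, 5, []⟩], [3, 1, 1, 4, 4, 4, 4], 2, [(68, 1), (104, 1), (108, 2)]⟩,
⟨1, [⟨4, 2, []⟩, ⟨3, 4, []⟩, ⟨0, 0, [(40, 1)]⟩, ⟨64, 5, []⟩], [3, 1, 1, 4, 4, 4, 4], 2, [(69, 1), (70, 1), (104, 1), (109, 2), (110, 2)]⟩,
⟨0, [⟨1, 2, []⟩, ⟨4, 2, [(34, 2)]⟩, ⟨16, 2, []⟩, ⟨0, 0, [(34, 2)]⟩], [3, 1, 1, 12, 12, 12], 2, [(5, 1), (35, 1), (50, 1), (51, 2)]⟩,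
⟨1, [⟨1, 2, []⟩, ⟨2, 4, []⟩, ⟨32, 1, []⟩, ⟨64, 5, []⟩], [3, 1, 1, 4, 4, 4, 4], 2, [(67, 1), (96, 1), (99, 2)]⟩,
⟨1, [⟨40, 3, []⟩, ⟨16, 3, []⟩, ⟨2, 3, []⟩, ⟨4, 2, []⟩, ⟨64, 4, []⟩], [3, 3, 12, 12, 24], 2, [(26, 1), (50, 1), (70, 1), (88, 1), (94, 2), (112, 1), (118, 2)]⟩,
⟨0, [⟨48, 3, []⟩, ⟨10, 3, []⟩], [3, 3], 1, [(18, 1), (24, 1), (34, 1), (40, 1)]⟩,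
⟨1, [⟨44, 5, []⟩, ⟨2, 3, []⟩, ⟨64, 5, []⟩], [2, 2], 1, [(70, 1), (74, 1), (98, 1)]⟩,
⟨1, [⟨2, 4, []⟩, ⟨4, 4, []⟩, ⟨64, 4, []⟩], [7], 1, [(70, 1)]⟩,
⟨0, [⟨2, 2, []⟩, ⟨4, 2, [(33, 2)]⟩, ⟨8, 2, []⟩, ⟨0, 0, [(33, 2)]⟩], [3, 1, 1, 12, 12, 12], 2, [(6, 1), (35, 1), (41, 1), (43, 2)]⟩,
⟨0, [⟨2, 3, []⟩, ⟨4, 1, [(17, 2)]⟩], [3, 3], 1, [(6, 1), (19, 1)]⟩,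
⟨1, [⟨2, 2, []⟩, ⟨4, 2, []⟩, ⟨8, 3, []⟩, ⟨32, 3, []⟩, ⟨64, 5, []⟩], [3, 3, 3, 12, 12], 2, [(70, 1), (104, 1), (110, 2)]⟩,
⟨1, [⟨16, 3, []⟩, ⟨40, 3, []⟩, ⟨1, 3, []⟩, ⟨2, 3, []⟩, ⟨64, 4, []⟩], [3, 3, 12, 12, 16], 2, [(27, 1), (51, 1), (67, 1), (88, 1), (91, 2), (112, 1), (115, 2)]⟩,
⟨1, [⟨32, 2, []⟩, ⟨16, 4, []⟩, ⟨1, 2, []⟩, ⟨2, 2, []⟩, ⟨64, 5, []⟩], [3, 5, 9, 12, 12], 2, [(67, 1), (81, 1), (82, 1), (112, 1), (115, 2)]⟩,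
⟨0, [⟨1, 3, []⟩, ⟨12, 3, []⟩], [3, 3], 1, [(5, 1), (9, 1)]⟩,
⟨0, [⟨1, 2, [(80, 1)]⟩, ⟨4, 3, []⟩], [3, 3], 1, [(5, 1), (84, 1)]⟩,
⟨0, [⟨2, 3, []⟩, ⟨69, 3, []⟩], [3, 3], 1, [(3, 1), (6, 1), (66, 1)]⟩,
⟨0, [⟨8, 3, []⟩, ⟨18, 3, []⟩], [3, 3], 1, [(10, 1), (24, 1)]⟩,
⟨1, [⟨40, 3, []⟩, ⟨16, 3, []⟩, ⟨3, 3, []⟩, ⟨4, 2, []⟩, ⟨64, 4, []⟩], [3, 3, 12, 12, 24], 2, [(25, 1), (26, 1), (49, 1), (50, 1), (69, 1), (70, 1), (88, 1), (93, 2), (94, 2), (112, 1), (117, 2), (118, 2)]⟩,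
⟨1, [⟨4, 2, []⟩, ⟨1, 4, []⟩, ⟨8, 1, []⟩, ⟨64, 5, []⟩], [3, 1, 1, 4, 4, 4, 4], 2, [(69, 1), (72, 1), (77, 2)]⟩,
⟨1, [⟨9, 4, []⟩, ⟨16, 4, []⟩, ⟨64, 4, []⟩], [7], 1, [(81, 1), (88, 1)]⟩,
⟨0, [⟨24, 2, [(65, 1)]⟩, ⟨32, 3, []⟩], [3, 3], 1, [(40, 1), (48, 1), (97, 1)]⟩,
⟨0, [⟨4, 3, []⟩, ⟨2, 1, [(9, 2)]⟩], [3, 3], 1, [(6, 1), (13, 1)]⟩,
⟨1, [⟨9, 4, []⟩, ⟨32, 4, []⟩, ⟨64, 4, []⟩], [7], 1, [(97, 1), (104, 1)]⟩,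
⟨1, [⟨8, 3, []⟩, ⟨32, 3, []⟩, ⟨4, 3, []⟩, ⟨2, 2, []⟩, ⟨64, 4, []⟩], [3, 3, 12, 12, 24], 2, [(44, 1), (70, 1), (104, 1), (110, 2)]⟩,
⟨0, [⟨5, 3, []⟩, ⟨2, 3, []⟩], [3, 3], 1, [(3, 1), (6, 1)]⟩,
⟨0, [⟨3, 2, [(80, 1)]⟩, ⟨4, 3, []⟩], [3, 3], 1, [(5, 1), (6, 1), (84, 1)]⟩,
⟨0, [⟨2, 3, []⟩, ⟨12, 3, []⟩], [3, 3], 1, [(6, 1), (10, 1)]⟩,
⟨1, [⟨2, 3, []⟩, ⟨4, 3, []⟩, ⟨16, 2, []⟩, ⟨32, 2, []⟩, ⟨64, 3, []⟩], [19, 19, 12, 12, 12], 2, [(48, 1), (70, 1), (118, 2)]⟩,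
⟨0, [⟨8, 3, []⟩, ⟨17, 3, []⟩], [3, 3], 1, [(9, 1), (24, 1)]⟩,
⟨0, [⟨82, 3, []⟩, ⟨8, 3, []⟩], [3, 3], 1, [(10, 1), (24, 1), (72, 1)]⟩,
⟨1, [⟨32, 1, [(3, 1)]⟩, ⟨8, 2, []⟩, ⟨16, 4, []⟩, ⟨2, 1, []⟩, ⟨64, 3, []⟩], [7, 9, 9, 26, 26], 2, [(19, 1), (48, 1), (66, 1), (88, 1), (91, 2), (122, 2)]⟩,
⟨1, [⟨4, 2, []⟩, ⟨2, 4, []⟩, ⟨16, 1, []⟩, ⟨64, 5, []⟩], [3, 1, 1, 4, 4, 4, 4], 2, [(70, 1), (80, 1), (86, 2)]⟩,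
⟨0, [⟨5, 3, []⟩, ⟨24, 3, []⟩], [3, 3], 1, [(9, 1), (12, 1), (17, 1), (20, 1)]⟩,
⟨0, [⟨2, 2, []⟩, ⟨4, 2, []⟩, ⟨8, 2, []⟩, ⟨32, 4, []⟩], [3, 3, 3, 12, 4, 4], 2, [(6, 1), (40, 1), (46, 2)]⟩,
⟨1, [⟨2, 3, []⟩, ⟨4, 3, []⟩, ⟨8, 2, []⟩, ⟨16, 2, []⟩, ⟨64, 3, []⟩], [19, 19, 12, 12, 12], 2, [(24, 1), (70, 1), (94, 2)]⟩,
⟨1, [⟨20, 4, []⟩, ⟨32, 4, []⟩, ⟨64, 4, []⟩], [7], 1, [(100, 1), (112, 1)]⟩,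
⟨1, [⟨8, 3, []⟩, ⟨16, 3, []⟩, ⟨1, 2, []⟩, ⟨2, 2, []⟩, ⟨64, 3, []⟩], [19, 19, 12, 12, 12], 2, [(3, 1), (88, 1), (91, 2)]⟩,
⟨0, [⟨81, 3, []⟩, ⟨32, 3, []⟩], [3, 3], 1, [(33, 1), (48, 1), (96, 1)]⟩,
⟨1, [⟨24, 3, []⟩, ⟨32, 3, []⟩, ⟨2, 3, []⟩, ⟨1, 2, []⟩, ⟨64, 4, []⟩], [3, 3, 12, 12, 24], 2, [(42, 1), (50, 1), (67, 1), (104, 1), (107, 2), (112, 1), (115, 2)]⟩,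
⟨1, [⟨1, 2, []⟩, ⟨6, 4, []⟩, ⟨0, 0, [(24, 1)]⟩, ⟨64, 5, []⟩], [3, 1, 1, 4, 4, 4, 4], 2, [(67, 1), (69, 1), (88, 1), (91, 2), (93, 2)]⟩,
⟨1, [⟨36, 4, []⟩, ⟨16, 4, []⟩, ⟨64, 4, []⟩], [7], 1, [(84, 1), (112, 1)]⟩,
⟨0, [⟨8, 3, []⟩, ⟨16, 1, [(33, 2)]⟩], [3, 3], 1, [(24, 1), (41, 1)]⟩,
⟨0, [⟨32, 3, []⟩, ⟨88, 3, []⟩], [3, 3], 1, [(40, 1), (48, 1), (96, 1)]⟩,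
⟨0, [⟨4, 3, []⟩, ⟨1, 1, [(34, 2)]⟩], [3, 3], 1, [(5, 1), (38, 1)]⟩,
⟨1, [⟨16, 2, []⟩, ⟨32, 4, []⟩, ⟨2, 1, []⟩, ⟨64, 5, []⟩], [3, 1, 1, 4, 4, 4, 4], 2, [(66, 1), (112, 1), (114, 2)]⟩,
⟨0, [⟨40, 3, []⟩, ⟨17, 3, []⟩], [3, 3], 1, [(9, 1), (24, 1), (33, 1), (48, 1)]⟩,
⟨0, [⟨4, 3, []⟩, ⟨1, 1, [(18, 2)]⟩], [3, 3], 1, [(5, 1), (22, 1)]⟩,
⟨1, [⟨5, 4, []⟩, ⟨24, 4, []⟩, ⟨64, 4, []⟩], [7], 1, [(73, 1), (76, 1), (81, 1), (84, 1)]⟩,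
⟨1, [⟨1, 3, []⟩, ⟨2, 3, []⟩, ⟨32, 3, []⟩, ⟨8, 2, []⟩, ⟨64, 4, []⟩], [3, 3, 12, 12, 24], 2, [(35, 1), (67, 1), (104, 1), (107, 2)]⟩,
⟨0, [⟨0, 0, [(36, 2)]⟩, ⟨8, 2, []⟩, ⟨16, 2, []⟩, ⟨67, 4, []⟩], [9, 1, 1, 6, 6, 6], 2, [(24, 1), (37, 1), (38, 1), (61, 2), (62, 2), (100, 1), (124, 2)]⟩,
⟨0, [⟨1, 2, []⟩, ⟨2, 2, [(36, 2)]⟩, ⟨8, 2, []⟩, ⟨0, 0, [(36, 2)]⟩], [3, 1, 1, 12, 12, 12], 2, [(3, 1), (37, 1), (44, 1), (45, 2)]⟩,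
⟨0, [⟨2, 2, []⟩, ⟨4, 2, []⟩, ⟨32, 2, []⟩, ⟨8, 4, []⟩], [3, 3, 3, 12, 4, 4], 2, [(6, 1), (40, 1), (46, 2)]⟩,
⟨1, [⟨32, 3, []⟩, ⟨24, 3, []⟩, ⟨1, 3, []⟩, ⟨2, 3, []⟩, ⟨64, 4, []⟩], [3, 3, 12, 12, 16], 2, [(43, 1), (51, 1), (67, 1), (104, 1), (107, 2), (112, 1), (115, 2)]⟩,
⟨0, [⟨8, 3, []⟩, ⟨32, 2, [(6, 1)]⟩], [3, 3], 1, [(14, 1), (40, 1)]⟩,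
⟨0, [⟨3, 4, []⟩, ⟨4, 2, []⟩, ⟨16, 2, []⟩, ⟨32, 2, []⟩], [3, 2, 2, 12, 12, 12], 2, [(5, 1), (6, 1), (48, 1), (53, 2), (54, 2)]⟩,
⟨1, [⟨40, 3, []⟩, ⟨16, 3, []⟩, ⟨6, 3, []⟩, ⟨1, 2, []⟩, ⟨64, 4, []⟩], [3, 3, 12, 12, 24], 2, [(26, 1), (28, 1), (50, 1), (52, 1), (67, 1), (69, 1), (88, 1), (91, 2), (93, 2), (112, 1), (115, 2), (117, 2)]⟩,
⟨1, [⟨1, 2, []⟩, ⟨4, 4, []⟩, ⟨2, 2, []⟩, ⟨32, 1, []⟩, ⟨64, 5, []⟩], [7, 9, 9, 12, 12], 2, [(69, 1), (70, 1), (96, 1), (103, 2)]⟩,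
⟨1, [⟨12, 4, []⟩, ⟨3, 4, []⟩, ⟨64, 4, []⟩], [7], 1, [(69, 1), (70, 1), (73, 1), (74, 1)]⟩,
⟨1, [⟨16, 1, [(3, 1)]⟩, ⟨32, 4, []⟩], [3, 1, 1], 1, [(35, 1), (48, 1)]⟩,
⟨0, [⟨24, 3, []⟩, ⟨36, 3, []⟩], [3, 3], 1, [(12, 1), (20, 1), (40, 1), (48, 1)]⟩,
⟨0, [⟨4, 2, []⟩, ⟨1, 2, [(18, 2)]⟩, ⟨32, 2, []⟩, ⟨0, 0, [(18, 2)]⟩], [3, 1, 1, 12, 12, 12], 2, [(5, 1), (22, 1), (50, 1), (54, 2)]⟩,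
⟨1, [⟨6, 3, []⟩, ⟨1, 3, []⟩, ⟨24, 3, []⟩, ⟨32, 2, []⟩, ⟨64, 4, []⟩], [3, 3, 12, 12, 24], 2, [(11, 1), (13, 1), (19, 1), (21, 1), (67, 1), (69, 1), (104, 1), (107, 2), (109, 2), (112, 1), (115, 2), (117, 2)]⟩,
⟨1, [⟨9, 3, []⟩, ⟨6, 5, []⟩, ⟨64, 5, []⟩], [1, 1], 1, [(67, 1), (69, 1), (74, 1), (76, 1)]⟩,
⟨1, [⟨8, 2, []⟩, ⟨32, 4, []⟩, ⟨16, 2, []⟩, ⟨4, 1, []⟩, ⟨64, 5, []⟩], [7, 9, 9, 12, 12], 2, [(68, 1), (104, 1), (112, 1), (124, 2)]⟩,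
⟨0, [⟨4, 3, []⟩, ⟨1, 1, [(10, 2)]⟩], [3, 3], 1, [(5, 1), (14, 1)]⟩,
⟨0, [⟨16, 3, []⟩, ⟨96, 3, []⟩], [3, 3], 1, [(48, 1), (80, 1)]⟩,
⟨0, [⟨48, 4, []⟩, ⟨8, 2, []⟩, ⟨2, 2, []⟩, ⟨4, 2, []⟩], [3, 2, 2, 12, 12, 12], 2, [(6, 1), (24, 1), (30, 2), (40, 1), (46, 2)]⟩,
⟨1, [⟨16, 3, []⟩, ⟨32, 3, []⟩, ⟨1, 2, []⟩, ⟨4, 2, []⟩, ⟨64, 3, []⟩], [19, 19, 12, 12, 12], 2, [(5, 1), (112, 1), (117, 2)]⟩,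
⟨1, [⟨4, 1, [(24, 1)]⟩, ⟨1, 4, []⟩], [3, 1, 1], 1, [(5, 1), (25, 1)]⟩,
⟨1, [⟨36, 4, []⟩, ⟨1, 4, []⟩, ⟨64, 4, []⟩], [7], 1, [(69, 1), (97, 1)]⟩,
⟨1, [⟨2, 2, []⟩, ⟨1, 4, []⟩, ⟨16, 1, []⟩, ⟨64, 5, []⟩], [3, 1, 1, 4, 4, 4, 4], 2, [(67, 1), (80, 1), (83, 2)]⟩,
⟨1, [⟨4, 2, []⟩, ⟨2, 4, []⟩, ⟨8, 2, []⟩, ⟨16, 2, []⟩, ⟨64, 5, []⟩], [3, 5, 9, 12, 12], 2, [(70, 1), (74, 1), (82, 1), (88, 1), (94, 2)]⟩,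
⟨0, [⟨8, 3, []⟩, ⟨112, 3, []⟩], [3, 3], 1, [(24, 1), (40, 1), (72, 1)]⟩,
⟨1, [⟨2, 2, []⟩, ⟨1, 4, []⟩, ⟨4, 2, []⟩, ⟨32, 1, []⟩, ⟨64, 5, []⟩], [7, 9, 9, 12, 12], 2, [(67, 1), (69, 1), (96, 1), (103, 2)]⟩,
⟨1, [⟨2, 2, []⟩, ⟨1, 4, []⟩, ⟨32, 1, []⟩, ⟨64, 5, []⟩], [3, 1, 1, 4, 4, 4, 4], 2, [(67, 1), (96, 1), (99, 2)]⟩,
⟨1, [⟨1, 2, []⟩, ⟨4, 4, []⟩, ⟨32, 1, []⟩, ⟨64, 5, []⟩], [3, 1, 1, 4, 4, 4, 4], 2, [(69, 1), (96, 1), (101, 2)]⟩,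
⟨1, [⟨48, 3, []⟩, ⟨8, 3, []⟩, ⟨4, 3, []⟩, ⟨2, 2, []⟩, ⟨64, 4, []⟩], [3, 3, 12, 12, 24], 2, [(28, 1), (44, 1), (70, 1), (88, 1), (94, 2), (104, 1), (110, 2)]⟩,
⟨0, [⟨4, 3, []⟩, ⟨33, 3, []⟩], [3, 3], 1, [(5, 1), (36, 1)]⟩,
⟨1, [⟨1, 1, [(24, 1)]⟩, ⟨4, 4, []⟩], [3, 1, 1], 1, [(5, 1), (28, 1)]⟩,
⟨1, [⟨32, 1, [(3, 1)]⟩, ⟨64, 4, []⟩], [3, 1, 1], 1, [(67, 1), (96, 1)]⟩,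
⟨0, [⟨16, 2, []⟩, ⟨8, 2, [(36, 2)]⟩, ⟨1, 2, []⟩, ⟨0, 0, [(36, 2)]⟩], [3, 1, 1, 12, 12, 12], 2, [(24, 1), (37, 1), (52, 1), (53, 2)]⟩,
⟨1, [⟨34, 4, []⟩, ⟨24, 4, []⟩, ⟨64, 4, []⟩], [7], 1, [(74, 1), (82, 1), (104, 1), (112, 1)]⟩,
⟨0, [⟨32, 2, [(65, 1)]⟩, ⟨8, 3, []⟩], [3, 3], 1, [(40, 1), (73, 1)]⟩,
⟨0, [⟨3, 4, []⟩, ⟨4, 2, []⟩, ⟨8, 2, []⟩, ⟨16, 2, []⟩], [3, 2, 2, 12, 12, 12], 2, [(5, 1), (6, 1), (24, 1), (29, 2), (30, 2)]⟩,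
⟨1, [⟨5, 3, []⟩, ⟨2, 3, []⟩, ⟨48, 3, []⟩, ⟨8, 2, []⟩, ⟨64, 4, []⟩], [3, 3, 12, 12, 24], 2, [(19, 1), (22, 1), (35, 1), (38, 1), (67, 1), (70, 1), (88, 1), (91, 2), (94, 2), (104, 1), (107, 2), (110, 2)]⟩,
⟨1, [⟨4, 2, []⟩, ⟨2, 4, []⟩, ⟨8, 2, []⟩, ⟨32, 2, []⟩, ⟨64, 5, []⟩], [3, 5, 9, 12, 12], 2, [(70, 1), (74, 1), (98, 1), (104, 1), (110, 2)]⟩,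
⟨1, [⟨8, 3, []⟩, ⟨48, 3, []⟩, ⟨1, 3, []⟩, ⟨2, 3, []⟩, ⟨64, 4, []⟩], [3, 3, 12, 12, 16], 2, [(27, 1), (43, 1), (67, 1), (88, 1), (91, 2), (104, 1), (107, 2)]⟩,
⟨0, [⟨16, 2, []⟩, ⟨8, 2, [(34, 2)]⟩, ⟨1, 2, []⟩, ⟨0, 0, [(34, 2)]⟩], [3, 1, 1, 12, 12, 12], 2, [(24, 1), (35, 1), (50, 1), (51, 2)]⟩,
⟨1, [⟨48, 3, []⟩, ⟨8, 3, []⟩, ⟨1, 3, []⟩, ⟨2, 2, []⟩, ⟨64, 4, []⟩], [3, 3, 12, 12, 24], 2, [(25, 1), (41, 1), (67, 1), (88, 1), (91, 2), (104, 1), (107, 2)]⟩,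
⟨0, [⟨74, 3, []⟩, ⟨16, 3, []⟩], [3, 3], 1, [(18, 1), (24, 1), (80, 1)]⟩,
⟨1, [⟨8, 2, []⟩, ⟨16, 4, []⟩, ⟨1, 2, []⟩, ⟨4, 2, []⟩, ⟨64, 5, []⟩], [3, 5, 9, 12, 12], 2, [(69, 1), (81, 1), (84, 1), (88, 1), (93, 2)]⟩,
⟨1, [⟨0, 0, [(40, 2)]⟩, ⟨64, 4, []⟩], [3, 1, 1], 1, [(104, 1)]⟩,
⟨1, [⟨34, 4, []⟩, ⟨1, 4, []⟩, ⟨64, 4, []⟩], [7], 1, [(67, 1), (97, 1)]⟩,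
⟨1, [⟨64, 4, []⟩, ⟨0, 0, [(3, 1), (48, 1)]⟩], [3, 2, 2], 1, [(67, 1), (112, 1)]⟩,
⟨1, [⟨1, 1, [(48, 1)]⟩, ⟨64, 4, []⟩], [3, 1, 1], 1, [(65, 1), (112, 1)]⟩,
⟨1, [⟨16, 3, []⟩, ⟨32, 3, []⟩, ⟨1, 3, []⟩, ⟨4, 2, []⟩, ⟨64, 4, []⟩], [3, 3, 12, 12, 24], 2, [(49, 1), (69, 1), (112, 1), (117, 2)]⟩,
⟨1, [⟨1, 3, []⟩, ⟨4, 3, []⟩, ⟨16, 3, []⟩, ⟨8, 2, []⟩, ⟨64, 4, []⟩], [3, 3, 12, 12, 24], 2, [(21, 1), (69, 1), (88, 1), (93, 2)]⟩,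
⟨0, [⟨24, 3, []⟩, ⟨32, 3, []⟩], [3, 3], 1, [(40, 1), (48, 1)]⟩,
⟨1, [⟨8, 4, []⟩, ⟨32, 2, []⟩], [3, 2, 2], 1, [(40, 1)]⟩,
⟨1, [⟨16, 2, []⟩, ⟨32, 4, []⟩, ⟨1, 2, []⟩, ⟨4, 2, []⟩, ⟨64, 5, []⟩], [3, 5, 9, 12, 12], 2, [(69, 1), (97, 1), (100, 1), (112, 1), (117, 2)]⟩,
⟨1, [⟨36, 4, []⟩, ⟨24, 4, []⟩, ⟨64, 4, []⟩], [7], 1, [(76, 1), (84, 1), (104, 1), (112, 1)]⟩,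
⟨1, [⟨1, 3, []⟩, ⟨2, 3, []⟩], [3, 3], 1, [(3, 1)]⟩,
⟨1, [⟨3, 4, []⟩, ⟨24, 4, []⟩, ⟨64, 4, []⟩], [7], 1, [(73, 1), (74, 1), (81, 1), (82, 1)]⟩,
⟨1, [⟨1, 2, []⟩, ⟨2, 2, []⟩, ⟨16, 3, []⟩, ⟨40, 3, []⟩, ⟨64, 5, []⟩], [3, 3, 3, 12, 12], 2, [(67, 1), (88, 1), (91, 2), (112, 1), (115, 2)]⟩,
⟨0, [⟨8, 3, []⟩, ⟨16, 1, [(36, 2)]⟩], [3, 3], 1, [(24, 1), (44, 1)]⟩,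
⟨0, [⟨5, 4, []⟩, ⟨2, 2, []⟩, ⟨16, 2, []⟩, ⟨32, 2, []⟩], [3, 2, 2, 12, 12, 12], 2, [(3, 1), (6, 1), (48, 1), (51, 2), (54, 2)]⟩,
⟨0, [⟨0, 0, [(12, 2)]⟩, ⟨16, 2, []⟩, ⟨32, 2, []⟩, ⟨67, 4, []⟩], [9, 1, 1, 6, 6, 6], 2, [(13, 1), (14, 1), (48, 1), (61, 2), (62, 2), (76, 1), (124, 2)]⟩,
⟨0, [⟨8, 3, []⟩, ⟨80, 3, []⟩], [3, 3], 1, [(24, 1), (72, 1)]⟩,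
⟨1, [⟨17, 4, []⟩, ⟨10, 4, []⟩, ⟨64, 4, []⟩], [7], 1, [(67, 1), (73, 1), (82, 1), (88, 1)]⟩,
⟨0, [⟨1, 3, []⟩, ⟨10, 3, []⟩], [3, 3], 1, [(3, 1), (9, 1)]⟩,
⟨1, [⟨3, 3, []⟩, ⟨4, 3, []⟩, ⟨32, 3, []⟩, ⟨16, 2, []⟩, ⟨64, 4, []⟩], [3, 3, 12, 12, 24], 2, [(37, 1), (38, 1), (69, 1), (70, 1), (112, 1), (117, 2), (118, 2)]⟩,
⟨1, [⟨36, 4, []⟩, ⟨8, 4, []⟩, ⟨64, 4, []⟩], [7], 1, [(76, 1), (104, 1)]⟩,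
⟨1, [⟨40, 3, []⟩, ⟨16, 3, []⟩, ⟨2, 3, []⟩, ⟨1, 2, []⟩, ⟨64, 4, []⟩], [3, 3, 12, 12, 24], 2, [(26, 1), (50, 1), (67, 1), (88, 1), (91, 2), (112, 1), (115, 2)]⟩,
⟨0, [⟨32, 3, []⟩, ⟨16, 2, [(6, 1)]⟩], [3, 3], 1, [(38, 1), (48, 1)]⟩,
⟨0, [⟨16, 2, [(65, 1)]⟩, ⟨32, 3, []⟩], [3, 3], 1, [(48, 1), (97, 1)]⟩,
⟨1, [⟨8, 3, []⟩, ⟨48, 3, []⟩, ⟨1, 3, []⟩, ⟨4, 3, []⟩, ⟨64, 4, []⟩], [3, 3, 12, 12, 16], 2, [(29, 1), (45, 1), (69, 1), (88, 1), (93, 2), (104, 1), (109, 2)]⟩,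
⟨1, [⟨16, 2, []⟩, ⟨32, 2, []⟩, ⟨2, 3, []⟩, ⟨4, 3, []⟩, ⟨64, 5, []⟩], [3, 3, 3, 12, 12], 2, [(70, 1), (112, 1), (118, 2)]⟩,
⟨1, [⟨1, 3, []⟩, ⟨2, 3, []⟩, ⟨8, 2, []⟩, ⟨32, 2, []⟩, ⟨64, 3, []⟩], [19, 19, 12, 12, 12], 2, [(40, 1), (67, 1), (107, 2)]⟩,
⟨1, [⟨8, 2, []⟩, ⟨32, 2, []⟩, ⟨6, 3, []⟩, ⟨1, 3, []⟩, ⟨64, 3, []⟩], [3, 3, 3, 28, 28], 2, [(40, 1), (67, 1), (69, 1), (107, 2), (109, 2)]⟩,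
⟨1, [⟨2, 1, [(24, 1)]⟩, ⟨4, 4, []⟩], [3, 1, 1], 1, [(6, 1), (28, 1)]⟩,
⟨1, [⟨32, 2, []⟩, ⟨24, 4, []⟩, ⟨0, 0, [(3, 1)]⟩, ⟨64, 5, []⟩], [3, 1, 1, 4, 4, 4, 4], 2, [(67, 1), (104, 1), (107, 2), (112, 1), (115, 2)]⟩,
⟨1, [⟨2, 3, []⟩, ⟨4, 3, []⟩], [3, 3], 1, [(6, 1)]⟩,
⟨1, [⟨48, 3, []⟩, ⟨8, 3, []⟩, ⟨6, 3, []⟩, ⟨1, 2, []⟩, ⟨64, 4, []⟩], [3, 3, 12, 12, 24], 2, [(26, 1), (28, 1), (42, 1), (44, 1), (67, 1), (69, 1), (88, 1), (91, 2), (93, 2), (104, 1), (107, 2), (109, 2)]⟩,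
⟨1, [⟨0, 0, [(48, 2)]⟩, ⟨8, 4, []⟩], [3, 1, 1], 1, [(56, 1)]⟩,
⟨0, [⟨6, 3, []⟩, ⟨65, 3, []⟩], [3, 3], 1, [(3, 1), (5, 1), (66, 1), (68, 1)]⟩,
⟨0, [⟨16, 2, []⟩, ⟨40, 4, []⟩, ⟨4, 2, []⟩, ⟨0, 0, [(33, 2)]⟩], [3, 1, 1, 12, 12, 12], 2, [(24, 1), (37, 1), (48, 1), (53, 2)]⟩,
⟨0, [⟨4, 3, []⟩, ⟨66, 3, []⟩], [3, 3], 1, [(6, 1), (68, 1)]⟩,
⟨1, [⟨8, 2, []⟩, ⟨16, 2, []⟩, ⟨2, 3, []⟩, ⟨4, 3, []⟩, ⟨64, 5, []⟩], [3, 3, 3, 12, 12], 2, [(70, 1), (88, 1), (94, 2)]⟩,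
⟨0, [⟨84, 3, []⟩, ⟨2, 3, []⟩], [3, 3], 1, [(6, 1), (18, 1), (66, 1)]⟩,
⟨1, [⟨8, 3, []⟩, ⟨16, 3, []⟩], [3, 3], 1, [(24, 1)]⟩,
⟨0, [⟨76, 3, []⟩, ⟨2, 3, []⟩], [3, 3], 1, [(6, 1), (10, 1), (66, 1)]⟩,
⟨1, [⟨8, 1, [(5, 1)]⟩, ⟨32, 4, []⟩], [3, 1, 1], 1, [(37, 1), (40, 1)]⟩,
⟨1, [⟨4, 3, []⟩, ⟨64, 3, []⟩], [3, 3], 1, [(68, 1)]⟩,
⟨1, [⟨5, 3, []⟩, ⟨2, 3, []⟩, ⟨32, 3, []⟩, ⟨8, 2, []⟩, ⟨64, 4, []⟩], [3, 3, 12, 12, 24], 2, [(35, 1), (38, 1), (67, 1), (70, 1), (104, 1), (107, 2), (110, 2)]⟩,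
⟨0, [⟨40, 3, []⟩, ⟨20, 3, []⟩], [3, 3], 1, [(12, 1), (24, 1), (36, 1), (48, 1)]⟩,
⟨0, [⟨40, 4, []⟩, ⟨16, 2, []⟩, ⟨1, 2, []⟩, ⟨2, 2, []⟩], [3, 2, 2, 12, 12, 12], 2, [(3, 1), (24, 1), (27, 2), (48, 1), (51, 2)]⟩,
⟨0, [⟨2, 2, []⟩, ⟨1, 2, [(20, 2)]⟩, ⟨0, 0, [(9, 2)]⟩, ⟨0, 0, [(20, 2)]⟩], [3, 1, 1, 12, 12, 12], 2, [(3, 1), (22, 1), (29, 1), (31, 2)]⟩,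
⟨1, [⟨64, 4, []⟩, ⟨0, 0, [(5, 1), (40, 1)]⟩], [3, 2, 2], 1, [(69, 1), (104, 1)]⟩,
⟨1, [⟨4, 1, [(48, 1)]⟩, ⟨64, 4, []⟩], [3, 1, 1], 1, [(68, 1), (112, 1)]⟩,
⟨0, [⟨1, 3, []⟩, ⟨2, 2, [(40, 1)]⟩], [3, 3], 1, [(3, 1), (41, 1)]⟩,
⟨0, [⟨16, 3, []⟩, ⟨32, 1, [(9, 2)]⟩], [3, 3], 1, [(25, 1), (48, 1)]⟩,
⟨0, [⟨16, 3, []⟩, ⟨8, 2, [(6, 1)]⟩], [3, 3], 1, [(22, 1), (24, 1)]⟩,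
⟨1, [⟨2, 2, []⟩, ⟨4, 4, []⟩, ⟨32, 1, []⟩, ⟨64, 5, []⟩], [3, 1, 1, 4, 4, 4, 4], 2, [(70, 1), (96, 1), (102, 2)]⟩,
⟨0, [⟨8, 2, []⟩, ⟨16, 2, []⟩, ⟨4, 2, []⟩, ⟨2, 4, []⟩], [3, 3, 3, 12, 4, 4], 2, [(6, 1), (24, 1), (30, 2)]⟩,
⟨1, [⟨9, 4, []⟩, ⟨2, 4, []⟩, ⟨64, 4, []⟩], [7], 1, [(67, 1), (74, 1)]⟩,
⟨0, [⟨4, 3, []⟩, ⟨2, 2, [(48, 1)]⟩], [3, 3], 1, [(6, 1), (52, 1)]⟩,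
⟨0, [⟨18, 3, []⟩, ⟨12, 3, []⟩], [3, 3], 1, [(6, 1), (10, 1), (20, 1), (24, 1)]⟩,
⟨1, [⟨16, 2, []⟩, ⟨32, 2, []⟩, ⟨3, 3, []⟩, ⟨4, 3, []⟩, ⟨64, 3, []⟩], [3, 3, 3, 28, 28], 2, [(48, 1), (69, 1), (70, 1), (117, 2), (118, 2)]⟩,
⟨0, [⟨12, 3, []⟩, ⟨80, 3, []⟩], [3, 3], 1, [(20, 1), (24, 1), (68, 1), (72, 1)]⟩,
⟨1, [⟨2, 1, [(24, 1)]⟩, ⟨64, 4, []⟩], [3, 1, 1], 1, [(66, 1), (88, 1)]⟩,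
⟨1, [⟨8, 3, []⟩, ⟨16, 3, []⟩, ⟨2, 3, []⟩, ⟨1, 2, []⟩, ⟨64, 4, []⟩], [3, 3, 12, 12, 24], 2, [(26, 1), (67, 1), (88, 1), (91, 2)]⟩,
⟨0, [⟨32, 2, []⟩, ⟨8, 2, [(17, 2)]⟩, ⟨4, 2, []⟩, ⟨0, 0, [(17, 2)]⟩], [3, 1, 1, 12, 12, 12], 2, [(21, 1), (40, 1), (49, 1), (53, 2)]⟩,
⟨1, [⟨24, 3, []⟩, ⟨32, 3, []⟩, ⟨4, 3, []⟩, ⟨2, 2, []⟩, ⟨64, 4, []⟩], [3, 3, 12, 12, 24], 2, [(44, 1), (52, 1), (70, 1), (104, 1), (110, 2), (112, 1), (118, 2)]⟩,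
⟨1, [⟨32, 2, []⟩, ⟨8, 4, []⟩, ⟨2, 2, []⟩, ⟨4, 2, []⟩, ⟨64, 5, []⟩], [3, 5, 9, 12, 12], 2, [(70, 1), (74, 1), (76, 1), (104, 1), (110, 2)]⟩,
⟨1, [⟨2, 2, []⟩, ⟨4, 4, []⟩, ⟨8, 2, []⟩, ⟨16, 2, []⟩, ⟨64, 5, []⟩], [3, 5, 9, 12, 12], 2, [(70, 1), (76, 1), (84, 1), (88, 1), (94, 2)]⟩,
⟨1, [⟨17, 4, []⟩, ⟨40, 4, []⟩, ⟨64, 4, []⟩], [7], 1, [(73, 1), (88, 1), (97, 1), (112, 1)]⟩,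
⟨1, [⟨25, 5, []⟩, ⟨2, 3, []⟩, ⟨64, 5, []⟩], [2, 2], 1, [(67, 1), (74, 1), (82, 1)]⟩,
⟨0, [⟨3, 3, []⟩, ⟨4, 3, []⟩], [3, 3], 1, [(5, 1), (6, 1)]⟩,
⟨0, [⟨76, 3, []⟩, ⟨16, 3, []⟩], [3, 3], 1, [(20, 1), (24, 1), (80, 1)]⟩,
⟨1, [⟨3, 3, []⟩, ⟨4, 3, []⟩, ⟨8, 3, []⟩, ⟨16, 2, []⟩, ⟨64, 4, []⟩], [3, 3, 12, 12, 24], 2, [(13, 1), (14, 1), (69, 1), (70, 1), (88, 1), (93, 2), (94, 2)]⟩,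
⟨1, [⟨10, 4, []⟩, ⟨1, 4, []⟩, ⟨64, 4, []⟩], [7], 1, [(67, 1), (73, 1)]⟩,
⟨1, [⟨14, 5, []⟩, ⟨16, 3, []⟩, ⟨64, 5, []⟩], [2, 2], 1, [(82, 1), (84, 1), (88, 1)]⟩,
⟨1, [⟨32, 2, []⟩, ⟨16, 4, []⟩, ⟨4, 1, []⟩, ⟨64, 5, []⟩], [3, 1, 1, 4, 4, 4, 4], 2, [(68, 1), (112, 1), (116, 2)]⟩,
⟨1, [⟨36, 4, []⟩, ⟨2, 4, []⟩, ⟨64, 4, []⟩], [7], 1, [(70, 1), (98, 1)]⟩,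
⟨1, [⟨32, 2, []⟩, ⟨8, 4, []⟩, ⟨1, 2, []⟩, ⟨4, 2, []⟩, ⟨64, 5, []⟩], [3, 5, 9, 12, 12], 2, [(69, 1), (73, 1), (76, 1), (104, 1), (109, 2)]⟩,
⟨1, [⟨8, 2, []⟩, ⟨32, 4, []⟩, ⟨1, 2, []⟩, ⟨2, 2, []⟩, ⟨64, 5, []⟩], [3, 5, 9, 12, 12], 2, [(67, 1), (97, 1), (98, 1), (104, 1), (107, 2)]⟩,
⟨1, [⟨9, 2, []⟩, ⟨16, 4, []⟩], [3, 1, 1], 1, [(17, 1), (24, 1)]⟩,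
⟨1, [⟨4, 2, []⟩, ⟨1, 4, []⟩, ⟨8, 2, []⟩, ⟨16, 2, []⟩, ⟨64, 5, []⟩], [3, 5, 9, 12, 12], 2, [(69, 1), (73, 1), (81, 1), (88, 1), (93, 2)]⟩,
⟨1, [⟨8, 2, []⟩, ⟨32, 4, []⟩, ⟨16, 2, []⟩, ⟨2, 1, []⟩, ⟨64, 5, []⟩], [7, 9, 9, 12, 12], 2, [(66, 1), (104, 1), (112, 1), (122, 2)]⟩,
⟨1, [⟨36, 5, []⟩, ⟨24, 3, []⟩, ⟨64, 5, []⟩], [2, 2], 1, [(76, 1), (84, 1), (104, 1), (112, 1)]⟩,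
⟨0, [⟨40, 2, [(65, 1)]⟩, ⟨16, 3, []⟩], [3, 3], 1, [(24, 1), (48, 1), (81, 1)]⟩,
⟨1, [⟨16, 4, []⟩, ⟨32, 2, []⟩], [3, 2, 2], 1, [(48, 1)]⟩,
⟨1, [⟨6, 4, []⟩, ⟨40, 4, []⟩, ⟨64, 4, []⟩], [7], 1, [(74, 1), (76, 1), (98, 1), (100, 1)]⟩,
⟨1, [⟨16, 1, [(6, 1)]⟩, ⟨8, 4, []⟩], [3, 1, 1], 1, [(14, 1), (24, 1)]⟩,
⟨0, [⟨1, 3, []⟩, ⟨68, 3, []⟩], [3, 3], 1, [(5, 1), (65, 1)]⟩,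
⟨1, [⟨1, 4, []⟩, ⟨2, 2, []⟩], [3, 2, 2], 1, [(3, 1)]⟩,
⟨1, [⟨16, 3, []⟩, ⟨32, 3, []⟩, ⟨4, 3, []⟩, ⟨1, 2, []⟩, ⟨64, 4, []⟩], [3, 3, 12, 12, 24], 2, [(52, 1), (69, 1), (112, 1), (117, 2)]⟩,
⟨0, [⟨17, 3, []⟩, ⟨68, 3, []⟩], [3, 3], 1, [(5, 1), (20, 1), (65, 1), (80, 1)]⟩,
⟨1, [⟨64, 4, []⟩, ⟨0, 0, [(3, 1), (40, 1)]⟩], [3, 2, 2], 1, [(67, 1), (104, 1)]⟩,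
⟨1, [⟨1, 2, []⟩, ⟨2, 4, []⟩, ⟨4, 2, []⟩, ⟨32, 1, []⟩, ⟨64, 5, []⟩], [7, 9, 9, 12, 12], 2, [(67, 1), (70, 1), (96, 1), (103, 2)]⟩,
⟨0, [⟨5, 4, []⟩, ⟨0, 0, [(10, 2)]⟩, ⟨16, 2, []⟩, ⟨96, 2, []⟩], [3, 2, 2, 12, 12, 12], 2, [(11, 1), (14, 1), (48, 1), (59, 2), (62, 2), (80, 1), (91, 2), (94, 2)]⟩,
⟨1, [⟨10, 5, []⟩, ⟨48, 3, []⟩, ⟨64, 5, []⟩], [2, 2], 1, [(82, 1), (88, 1), (98, 1), (104, 1)]⟩,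
⟨1, [⟨1, 3, []⟩, ⟨4, 3, []⟩, ⟨16, 3, []⟩, ⟨32, 2, []⟩, ⟨64, 4, []⟩], [3, 3, 12, 12, 24], 2, [(21, 1), (69, 1), (112, 1), (117, 2)]⟩,
⟨1, [⟨0, 0, [(24, 2)]⟩, ⟨64, 4, []⟩], [3, 1, 1], 1, [(88, 1)]⟩,
⟨1, [⟨8, 1, [(6, 1)]⟩, ⟨64, 4, []⟩], [3, 1, 1], 1, [(70, 1), (72, 1)]⟩,
⟨1, [⟨1, 2, []⟩, ⟨4, 2, []⟩, ⟨8, 3, []⟩, ⟨48, 3, []⟩, ⟨64, 5, []⟩], [3, 3, 3, 12, 12], 2, [(69, 1), (88, 1), (93, 2), (104, 1), (109, 2)]⟩,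
⟨1, [⟨1, 2, []⟩, ⟨4, 4, []⟩, ⟨16, 2, []⟩, ⟨32, 2, []⟩, ⟨64, 5, []⟩], [3, 5, 9, 12, 12], 2, [(69, 1), (84, 1), (100, 1), (112, 1), (117, 2)]⟩,
⟨0, [⟨16, 2, []⟩, ⟨32, 2, []⟩, ⟨1, 2, []⟩, ⟨4, 4, []⟩], [3, 3, 3, 12, 4, 4], 2, [(5, 1), (48, 1), (53, 2)]⟩,
⟨1, [⟨12, 5, []⟩, ⟨33, 3, []⟩, ⟨64, 5, []⟩], [2, 2], 1, [(69, 1), (73, 1), (100, 1), (104, 1)]⟩,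
⟨1, [⟨34, 4, []⟩, ⟨4, 4, []⟩, ⟨64, 4, []⟩], [7], 1, [(70, 1), (100, 1)]⟩,
⟨1, [⟨1, 3, []⟩, ⟨4, 3, []⟩, ⟨8, 2, []⟩, ⟨32, 2, []⟩, ⟨64, 3, []⟩], [19, 19, 12, 12, 12], 2, [(40, 1), (69, 1), (109, 2)]⟩,
⟨0, [⟨4, 3, []⟩, ⟨1, 2, [(40, 1)]⟩], [3, 3], 1, [(5, 1), (44, 1)]⟩,
⟨0, [⟨5, 3, []⟩, ⟨10, 3, []⟩], [3, 3], 1, [(3, 1), (6, 1), (9, 1), (12, 1)]⟩,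
⟨1, [⟨24, 3, []⟩, ⟨32, 3, []⟩, ⟨3, 3, []⟩, ⟨4, 2, []⟩, ⟨64, 4, []⟩], [3, 3, 12, 12, 24], 2, [(41, 1), (42, 1), (49, 1), (50, 1), (69, 1), (70, 1), (104, 1), (109, 2), (110, 2), (112, 1), (117, 2), (118, 2)]⟩,
⟨1, [⟨33, 4, []⟩, ⟨20, 4, []⟩, ⟨64, 4, []⟩], [7], 1, [(69, 1), (81, 1), (100, 1), (112, 1)]⟩,
⟨0, [⟨4, 2, []⟩, ⟨1, 2, [(10, 2)]⟩, ⟨32, 2, []⟩, ⟨0, 0, [(10, 2)]⟩], [3, 1, 1, 12, 12, 12], 2, [(5, 1), (14, 1), (42, 1), (46, 2)]⟩,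
⟨1, [⟨17, 5, []⟩, ⟨40, 3, []⟩, ⟨64, 5, []⟩], [2, 2], 1, [(73, 1), (88, 1), (97, 1), (112, 1)]⟩,
⟨1, [⟨1, 2, []⟩, ⟨4, 4, []⟩, ⟨2, 2, []⟩, ⟨16, 1, []⟩, ⟨64, 5, []⟩], [7, 9, 9, 12, 12], 2, [(69, 1), (70, 1), (80, 1), (87, 2)]⟩,
⟨1, [⟨1, 2, []⟩, ⟨4, 4, []⟩, ⟨8, 1, []⟩, ⟨64, 5, []⟩], [3, 1, 1, 4, 4, 4, 4], 2, [(69, 1), (72, 1), (77, 2)]⟩,
⟨0, [⟨8, 3, []⟩, ⟨96, 3, []⟩], [3, 3], 1, [(40, 1), (72, 1)]⟩,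
⟨1, [⟨16, 2, []⟩, ⟨32, 2, []⟩, ⟨2, 3, []⟩, ⟨5, 3, []⟩, ⟨64, 5, []⟩], [3, 3, 3, 12, 12], 2, [(67, 1), (70, 1), (112, 1), (115, 2), (118, 2)]⟩,
⟨1, [⟨8, 2, []⟩, ⟨32, 2, []⟩, ⟨1, 3, []⟩, ⟨6, 3, []⟩, ⟨64, 5, []⟩], [3, 3, 3, 12, 12], 2, [(67, 1), (69, 1), (104, 1), (107, 2), (109, 2)]⟩,
⟨1, [⟨4, 1, [(24, 1)]⟩, ⟨2, 4, []⟩], [3, 1, 1], 1, [(6, 1), (26, 1)]⟩,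
⟨1, [⟨2, 1, [(48, 1)]⟩, ⟨1, 4, []⟩], [3, 1, 1], 1, [(3, 1), (49, 1)]⟩,
⟨0, [⟨8, 3, []⟩, ⟨16, 1, [(34, 2)]⟩], [3, 3], 1, [(24, 1), (42, 1)]⟩,
⟨0, [⟨32, 2, []⟩, ⟨16, 2, [(10, 2)]⟩, ⟨0, 0, [(17, 2)]⟩, ⟨0, 0, [(10, 2)]⟩], [3, 1, 1, 12, 12, 12], 2, [(27, 1), (42, 1), (48, 1), (59, 2)]⟩,
⟨1, [⟨3, 3, []⟩, ⟨4, 3, []⟩, ⟨8, 3, []⟩, ⟨32, 2, []⟩, ⟨64, 4, []⟩], [3, 3, 12, 12, 24], 2, [(13, 1), (14, 1), (69, 1), (70, 1), (104, 1), (109, 2), (110, 2)]⟩,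
⟨1, [⟨24, 3, []⟩, ⟨32, 3, []⟩, ⟨1, 3, []⟩, ⟨4, 2, []⟩, ⟨64, 4, []⟩], [3, 3, 12, 12, 24], 2, [(41, 1), (49, 1), (69, 1), (104, 1), (109, 2), (112, 1), (117, 2)]⟩,
⟨1, [⟨8, 3, []⟩, ⟨32, 3, []⟩], [3, 3], 1, [(40, 1)]⟩,
⟨1, [⟨33, 2, []⟩, ⟨16, 4, []⟩], [3, 1, 1], 1, [(17, 1), (48, 1)]⟩,
⟨0, [⟨74, 3, []⟩, ⟨32, 3, []⟩], [3, 3], 1, [(34, 1), (40, 1), (96, 1)]⟩,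
⟨0, [⟨2, 3, []⟩, ⟨36, 3, []⟩], [3, 3], 1, [(6, 1), (34, 1)]⟩,
⟨0, [⟨16, 3, []⟩, ⟨8, 2, [(5, 1)]⟩], [3, 3], 1, [(21, 1), (24, 1)]⟩,
⟨1, [⟨2, 1, [(48, 1)]⟩, ⟨64, 4, []⟩], [3, 1, 1], 1, [(66, 1), (112, 1)]⟩,
⟨0, [⟨3, 3, []⟩, ⟨12, 3, []⟩], [3, 3], 1, [(5, 1), (6, 1), (9, 1), (10, 1)]⟩,
⟨1, [⟨16, 3, []⟩, ⟨40, 3, []⟩, ⟨1, 3, []⟩, ⟨4, 3, []⟩, ⟨64, 4, []⟩], [3, 3, 12, 12, 16], 2, [(29, 1), (53, 1), (69, 1), (88, 1), (93, 2), (112, 1), (117, 2)]⟩,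
⟨1, [⟨2, 1, [(48, 1)]⟩, ⟨4, 4, []⟩], [3, 1, 1], 1, [(6, 1), (52, 1)]⟩,
⟨1, [⟨8, 2, []⟩, ⟨32, 4, []⟩, ⟨16, 2, []⟩, ⟨1, 1, []⟩, ⟨64, 5, []⟩], [7, 9, 9, 12, 12], 2, [(65, 1), (104, 1), (112, 1), (121, 2)]⟩,
⟨0, [⟨81, 3, []⟩, ⟨4, 3, []⟩], [3, 3], 1, [(5, 1), (20, 1), (68, 1)]⟩,
⟨1, [⟨2, 3, []⟩, ⟨4, 3, []⟩, ⟨32, 3, []⟩, ⟨16, 2, []⟩, ⟨64, 4, []⟩], [3, 3, 12, 12, 24], 2, [(38, 1), (70, 1), (112, 1), (118, 2)]⟩,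
⟨0, [⟨4, 3, []⟩, ⟨2, 2, [(24, 1)]⟩], [3, 3], 1, [(6, 1), (28, 1)]⟩,
⟨1, [⟨4, 1, [(48, 1)]⟩, ⟨2, 2, []⟩, ⟨1, 4, []⟩, ⟨32, 1, []⟩, ⟨64, 3, []⟩], [7, 9, 9, 26, 26], 2, [(5, 1), (49, 1), (67, 1), (96, 1), (103, 2), (115, 2)]⟩,
⟨1, [⟨8, 2, []⟩, ⟨48, 4, []⟩, ⟨0, 0, [(6, 1)]⟩, ⟨64, 5, []⟩], [3, 1, 1, 4, 4, 4, 4], 2, [(70, 1), (88, 1), (94, 2), (104, 1), (110, 2)]⟩,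
⟨0, [⟨16, 2, []⟩, ⟨32, 2, []⟩, ⟨1, 2, []⟩, ⟨2, 4, []⟩], [3, 3, 3, 12, 4, 4], 2, [(3, 1), (48, 1), (51, 2)]⟩,
⟨1, [⟨33, 4, []⟩, ⟨18, 4, []⟩, ⟨64, 4, []⟩], [7], 1, [(67, 1), (81, 1), (98, 1), (112, 1)]⟩,
⟨1, [⟨20, 2, []⟩, ⟨1, 4, []⟩], [3, 1, 1], 1, [(5, 1), (17, 1)]⟩,
⟨0, [⟨2, 3, []⟩, ⟨4, 3, []⟩], [3, 3], 1, [(6, 1)]⟩,
⟨1, [⟨16, 3, []⟩, ⟨64, 3, []⟩], [3, 3], 1, [(80, 1)]⟩,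
⟨1, [⟨16, 4, []⟩, ⟨8, 2, []⟩], [3, 2, 2], 1, [(24, 1)]⟩,
⟨1, [⟨1, 2, []⟩, ⟨4, 2, []⟩, ⟨32, 3, []⟩, ⟨24, 3, []⟩, ⟨64, 5, []⟩], [3, 3, 3, 12, 12], 2, [(69, 1), (104, 1), (109, 2), (112, 1), (117, 2)]⟩,
⟨0, [⟨2, 3, []⟩, ⟨1, 2, [(24, 1)]⟩], [3, 3], 1, [(3, 1), (26, 1)]⟩,
⟨0, [⟨1, 2, []⟩, ⟨4, 2, [(10, 2)]⟩, ⟨32, 2, []⟩, ⟨0, 0, [(10, 2)]⟩], [3, 1, 1, 12, 12, 12], 2, [(5, 1), (11, 1), (42, 1), (43, 2)]⟩,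
⟨0, [⟨8, 2, []⟩, ⟨32, 2, []⟩, ⟨4, 2, []⟩, ⟨1, 4, []⟩], [3, 3, 3, 12, 4, 4], 2, [(5, 1), (40, 1), (45, 2)]⟩,
⟨0, [⟨1, 3, []⟩, ⟨4, 2, [(24, 1)]⟩], [3, 3], 1, [(5, 1), (25, 1)]⟩,
⟨1, [⟨8, 2, []⟩, ⟨16, 2, []⟩, ⟨1, 3, []⟩, ⟨2, 3, []⟩, ⟨64, 5, []⟩], [3, 3, 3, 12, 12], 2, [(67, 1), (88, 1), (91, 2)]⟩,
⟨1, [⟨8, 2, []⟩, ⟨16, 4, []⟩, ⟨32, 2, []⟩, ⟨2, 1, []⟩, ⟨64, 5, []⟩], [7, 9, 9, 12, 12], 2, [(66, 1), (88, 1), (112, 1), (122, 2)]⟩,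
⟨0, [⟨2, 2, [(72, 1)]⟩, ⟨1, 3, []⟩], [3, 3], 1, [(3, 1), (73, 1)]⟩,
⟨0, [⟨32, 2, []⟩, ⟨8, 2, [(20, 2)]⟩, ⟨0, 0, [(9, 2)]⟩, ⟨0, 0, [(20, 2)]⟩], [3, 1, 1, 12, 12, 12], 2, [(29, 1), (40, 1), (52, 1), (61, 2)]⟩,
⟨1, [⟨32, 3, []⟩, ⟨64, 3, []⟩], [3, 3], 1, [(96, 1)]⟩,
⟨0, [⟨2, 3, []⟩, ⟨9, 3, []⟩], [3, 3], 1, [(3, 1), (10, 1)]⟩,
⟨1, [⟨1, 3, []⟩, ⟨2, 3, []⟩, ⟨8, 2, []⟩, ⟨16, 2, []⟩, ⟨64, 3, []⟩], [19, 19, 12, 12, 12], 2, [(24, 1), (67, 1), (91, 2)]⟩,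
⟨1, [⟨16, 3, []⟩, ⟨32, 3, []⟩, ⟨4, 3, []⟩, ⟨2, 2, []⟩, ⟨64, 4, []⟩], [3, 3, 12, 12, 24], 2, [(52, 1), (70, 1), (112, 1), (118, 2)]⟩,
⟨1, [⟨8, 4, []⟩, ⟨32, 4, []⟩, ⟨64, 4, []⟩], [7], 1, [(104, 1)]⟩,
⟨0, [⟨6, 3, []⟩, ⟨33, 3, []⟩], [3, 3], 1, [(3, 1), (5, 1), (34, 1), (36, 1)]⟩,
⟨0, [⟨6, 3, []⟩, ⟨24, 3, []⟩], [3, 3], 1, [(10, 1), (12, 1), (18, 1), (20, 1)]⟩,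
⟨0, [⟨16, 2, [(68, 1)]⟩, ⟨8, 3, []⟩], [3, 3], 1, [(24, 1), (76, 1)]⟩,
⟨1, [⟨2, 3, []⟩, ⟨4, 3, []⟩, ⟨16, 3, []⟩, ⟨8, 2, []⟩, ⟨64, 4, []⟩], [3, 3, 12, 12, 24], 2, [(22, 1), (70, 1), (88, 1), (94, 2)]⟩,
⟨1, [⟨17, 4, []⟩, ⟨4, 4, []⟩, ⟨64, 4, []⟩], [7], 1, [(69, 1), (84, 1)]⟩,
⟨1, [⟨0, 0, [(5, 2)]⟩, ⟨64, 4, []⟩], [3, 1, 1], 1, [(69, 1)]⟩,
⟨1, [⟨33, 4, []⟩, ⟨8, 4, []⟩, ⟨64, 4, []⟩], [7], 1, [(73, 1), (104, 1)]⟩,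
⟨1, [⟨16, 3, []⟩, ⟨32, 3, []⟩, ⟨1, 2, []⟩, ⟨2, 2, []⟩, ⟨64, 3, []⟩], [19, 19, 12, 12, 12], 2, [(3, 1), (112, 1), (115, 2)]⟩,
⟨0, [⟨4, 2, [(96, 1)]⟩, ⟨2, 3, []⟩], [3, 3], 1, [(6, 1), (98, 1)]⟩,
⟨1, [⟨4, 4, []⟩, ⟨2, 2, []⟩], [3, 2, 2], 1, [(6, 1)]⟩,
⟨0, [⟨8, 2, [(65, 1)]⟩, ⟨32, 3, []⟩], [3, 3], 1, [(40, 1), (97, 1)]⟩,
⟨0, [⟨8, 2, []⟩, ⟨32, 2, []⟩, ⟨1, 2, []⟩, ⟨4, 4, []⟩], [3, 3, 3, 12, 4, 4], 2, [(5, 1), (40, 1), (45, 2)]⟩,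
⟨1, [⟨1, 2, []⟩, ⟨4, 2, []⟩, ⟨16, 3, []⟩, ⟨32, 3, []⟩, ⟨64, 5, []⟩], [3, 3, 3, 12, 12], 2, [(69, 1), (112, 1), (117, 2)]⟩,
⟨1, [⟨4, 3, []⟩, ⟨3, 3, []⟩, ⟨8, 3, []⟩, ⟨16, 3, []⟩, ⟨64, 4, []⟩], [3, 3, 12, 12, 16], 2, [(29, 1), (30, 1), (69, 1), (70, 1), (88, 1), (93, 2), (94, 2)]⟩,
⟨1, [⟨34, 4, []⟩, ⟨20, 4, []⟩, ⟨64, 4, []⟩], [7], 1, [(70, 1), (82, 1), (100, 1), (112, 1)]⟩,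
⟨0, [⟨34, 3, []⟩, ⟨68, 3, []⟩], [3, 3], 1, [(6, 1), (36, 1), (66, 1), (96, 1)]⟩,
⟨0, [⟨5, 2, [(80, 1)]⟩, ⟨2, 3, []⟩], [3, 3], 1, [(3, 1), (6, 1), (82, 1)]⟩,
⟨0, [⟨16, 2, [(66, 1)]⟩, ⟨32, 3, []⟩], [3, 3], 1, [(48, 1), (98, 1)]⟩,
⟨1, [⟨2, 1, [(40, 1)]⟩, ⟨4, 2, []⟩, ⟨1, 4, []⟩, ⟨8, 1, []⟩, ⟨64, 3, []⟩], [7, 9, 9, 26, 26], 2, [(3, 1), (41, 1), (69, 1), (72, 1), (79, 2), (109, 2)]⟩,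
⟨1, [⟨2, 1, [(24, 1)]⟩, ⟨1, 4, []⟩], [3, 1, 1], 1, [(3, 1), (25, 1)]⟩,
⟨0, [⟨1, 3, []⟩, ⟨18, 3, []⟩], [3, 3], 1, [(3, 1), (17, 1)]⟩,
⟨0, [⟨2, 3, []⟩, ⟨4, 2, [(24, 1)]⟩], [3, 3], 1, [(6, 1), (26, 1)]⟩,
⟨0, [⟨8, 3, []⟩, ⟨36, 3, []⟩], [3, 3], 1, [(12, 1), (40, 1)]⟩,
⟨1, [⟨16, 4, []⟩, ⟨0, 0, [(5, 1), (40, 1)]⟩], [3, 2, 2], 1, [(21, 1), (56, 1)]⟩,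
⟨0, [⟨9, 3, []⟩, ⟨80, 3, []⟩], [3, 3], 1, [(17, 1), (24, 1), (65, 1), (72, 1)]⟩,
⟨0, [⟨32, 3, []⟩, ⟨80, 2, [(6, 1)]⟩], [3, 3], 1, [(38, 1), (48, 1), (96, 1)]⟩,
⟨1, [⟨24, 3, []⟩, ⟨32, 3, []⟩, ⟨6, 3, []⟩, ⟨1, 2, []⟩, ⟨64, 4, []⟩], [3, 3, 12, 12, 24], 2, [(42, 1), (44, 1), (50, 1), (52, 1), (67, 1), (69, 1), (104, 1), (107, 2), (109, 2), (112, 1), (115, 2), (117, 2)]⟩,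
⟨1, [⟨6, 3, []⟩, ⟨1, 3, []⟩, ⟨48, 3, []⟩, ⟨8, 2, []⟩, ⟨64, 4, []⟩], [3, 3, 12, 12, 24], 2, [(19, 1), (21, 1), (35, 1), (37, 1), (67, 1), (69, 1), (88, 1), (91, 2), (93, 2), (104, 1), (107, 2), (109, 2)]⟩,
⟨1, [⟨17, 4, []⟩, ⟨2, 4, []⟩, ⟨64, 4, []⟩], [7], 1, [(67, 1), (82, 1)]⟩,
⟨0, [⟨32, 2, []⟩, ⟨8, 2, [(18, 2)]⟩, ⟨0, 0, [(12, 2)]⟩, ⟨0, 0, [(18, 2)]⟩], [3, 1, 1, 12, 12, 12], 2, [(30, 1), (40, 1), (50, 1), (62, 2)]⟩,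
⟨0, [⟨32, 2, []⟩, ⟨16, 2, [(12, 2)]⟩, ⟨1, 2, []⟩, ⟨0, 0, [(12, 2)]⟩], [3, 1, 1, 12, 12, 12], 2, [(13, 1), (44, 1), (45, 2), (48, 1)]⟩,
⟨1, [⟨40, 3, []⟩, ⟨16, 3, []⟩, ⟨5, 3, []⟩, ⟨2, 2, []⟩, ⟨64, 4, []⟩], [3, 3, 12, 12, 24], 2, [(25, 1), (28, 1), (49, 1), (52, 1), (67, 1), (70, 1), (88, 1), (91, 2), (94, 2), (112, 1), (115, 2), (118, 2)]⟩,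
⟨1, [⟨4, 2, []⟩, ⟨1, 4, []⟩, ⟨16, 2, []⟩, ⟨32, 2, []⟩, ⟨64, 5, []⟩], [3, 5, 9, 12, 12], 2, [(69, 1), (81, 1), (97, 1), (112, 1), (117, 2)]⟩,
⟨1, [⟨2, 2, []⟩, ⟨4, 2, []⟩, ⟨32, 3, []⟩, ⟨24, 3, []⟩, ⟨64, 5, []⟩], [3, 3, 3, 12, 12], 2, [(70, 1), (104, 1), (110, 2), (112, 1), (118, 2)]⟩,
⟨1, [⟨0, 0, [(40, 2)]⟩, ⟨16, 4, []⟩], [3, 1, 1], 1, [(56, 1)]⟩,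
⟨0, [⟨4, 2, []⟩, ⟨1, 2, [(18, 2)]⟩, ⟨8, 2, []⟩, ⟨0, 0, [(18, 2)]⟩], [3, 1, 1, 12, 12, 12], 2, [(5, 1), (22, 1), (26, 1), (30, 2)]⟩,
⟨0, [⟨2, 3, []⟩, ⟨4, 2, [(40, 1)]⟩], [3, 3], 1, [(6, 1), (42, 1)]⟩,
⟨1, [⟨12, 4, []⟩, ⟨48, 4, []⟩, ⟨64, 4, []⟩], [7], 1, [(84, 1), (88, 1), (100, 1), (104, 1)]⟩,
⟨1, [⟨6, 3, []⟩, ⟨1, 3, []⟩, ⟨8, 3, []⟩, ⟨32, 2, []⟩, ⟨64, 4, []⟩], [3, 3, 12, 12, 24], 2, [(11, 1), (13, 1), (67, 1), (69, 1), (104, 1), (107, 2), (109, 2)]⟩,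
⟨1, [⟨16, 2, []⟩, ⟨8, 4, []⟩, ⟨32, 2, []⟩, ⟨1, 1, []⟩, ⟨64, 5, []⟩], [7, 9, 9, 12, 12], 2, [(65, 1), (88, 1), (104, 1), (121, 2)]⟩,
⟨0, [⟨1, 2, []⟩, ⟨6, 4, []⟩, ⟨16, 2, []⟩, ⟨0, 0, [(36, 2)]⟩], [3, 1, 1, 12, 12, 12], 2, [(3, 1), (5, 1), (52, 1), (53, 2)]⟩,
⟨1, [⟨9, 4, []⟩, ⟨20, 4, []⟩, ⟨64, 4, []⟩], [7], 1, [(69, 1), (76, 1), (81, 1), (88, 1)]⟩,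
⟨1, [⟨64, 4, []⟩, ⟨0, 0, [(5, 1), (48, 1)]⟩], [3, 2, 2], 1, [(69, 1), (112, 1)]⟩,
⟨0, [⟨32, 3, []⟩, ⟨72, 3, []⟩], [3, 3], 1, [(40, 1), (96, 1)]⟩,
⟨1, [⟨18, 4, []⟩, ⟨32, 4, []⟩, ⟨64, 4, []⟩], [7], 1, [(98, 1), (112, 1)]⟩,
⟨1, [⟨4, 1, [(40, 1)]⟩, ⟨64, 4, []⟩], [3, 1, 1], 1, [(68, 1), (104, 1)]⟩,
⟨1, [⟨48, 3, []⟩, ⟨8, 3, []⟩, ⟨3, 3, []⟩, ⟨4, 2, []⟩, ⟨64, 4, []⟩], [3, 3, 12, 12, 24], 2, [(25, 1), (26, 1), (41, 1), (42, 1), (69, 1), (70, 1), (88, 1), (93, 2), (94, 2), (104, 1), (109, 2), (110, 2)]⟩,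
⟨0, [⟨32, 3, []⟩, ⟨16, 2, [(3, 1)]⟩], [3, 3], 1, [(35, 1), (48, 1)]⟩,
⟨1, [⟨16, 2, []⟩, ⟨32, 4, []⟩, ⟨4, 1, []⟩, ⟨64, 5, []⟩], [3, 1, 1, 4, 4, 4, 4], 2, [(68, 1), (112, 1), (116, 2)]⟩,
⟨1, [⟨34, 5, []⟩, ⟨20, 3, []⟩, ⟨64, 5, []⟩], [2, 2], 1, [(70, 1), (82, 1), (100, 1), (112, 1)]⟩,
⟨1, [⟨8, 2, []⟩, ⟨32, 4, []⟩, ⟨2, 1, []⟩, ⟨64, 5, []⟩], [3, 1, 1, 4, 4, 4, 4], 2, [(66, 1), (104, 1), (106, 2)]⟩,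
⟨0, [⟨8, 2, []⟩, ⟨16, 2, [(33, 2)]⟩, ⟨4, 2, []⟩, ⟨0, 0, [(33, 2)]⟩], [3, 1, 1, 12, 12, 12], 2, [(24, 1), (37, 1), (41, 1), (45, 2)]⟩,
⟨1, [⟨16, 1, [(3, 1)]⟩, ⟨8, 4, []⟩], [3, 1, 1], 1, [(11, 1), (24, 1)]⟩,
⟨0, [⟨24, 3, []⟩, ⟨96, 3, []⟩], [3, 3], 1, [(40, 1), (48, 1), (72, 1), (80, 1)]⟩,
⟨1, [⟨1, 3, []⟩, ⟨2, 3, []⟩, ⟨16, 3, []⟩, ⟨32, 2, []⟩, ⟨64, 4, []⟩], [3, 3, 12, 12, 24], 2, [(19, 1), (67, 1), (112, 1), (115, 2)]⟩,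
⟨0, [⟨16, 3, []⟩, ⟨8, 1, [(34, 2)]⟩], [3, 3], 1, [(24, 1), (50, 1)]⟩,
⟨0, [⟨1, 2, []⟩, ⟨2, 2, [(12, 2)]⟩, ⟨32, 2, []⟩, ⟨0, 0, [(12, 2)]⟩], [3, 1, 1, 12, 12, 12], 2, [(3, 1), (13, 1), (44, 1), (45, 2)]⟩,
⟨0, [⟨1, 3, []⟩, ⟨4, 1, [(18, 2)]⟩], [3, 3], 1, [(5, 1), (19, 1)]⟩,
⟨0, [⟨1, 3, []⟩, ⟨4, 2, [(40, 1)]⟩], [3, 3], 1, [(5, 1), (41, 1)]⟩,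
⟨1, [⟨4, 3, []⟩, ⟨3, 3, []⟩, ⟨8, 3, []⟩, ⟨32, 3, []⟩, ⟨64, 4, []⟩], [3, 3, 12, 12, 16], 2, [(45, 1), (46, 1), (69, 1), (70, 1), (104, 1), (109, 2), (110, 2)]⟩,
⟨1, [⟨8, 2, []⟩, ⟨32, 2, []⟩, ⟨2, 3, []⟩, ⟨5, 3, []⟩, ⟨64, 5, []⟩], [3, 3, 3, 12, 12], 2, [(67, 1), (70, 1), (104, 1), (107, 2), (110, 2)]⟩,
⟨1, [⟨1, 2, []⟩, ⟨4, 2, []⟩, ⟨40, 3, []⟩, ⟨16, 3, []⟩, ⟨64, 3, []⟩], [3, 3, 3, 28, 28], 2, [(5, 1), (88, 1), (93, 2), (112, 1), (117, 2)]⟩,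
⟨0, [⟨3, 3, []⟩, ⟨36, 3, []⟩], [3, 3], 1, [(5, 1), (6, 1), (33, 1), (34, 1)]⟩,
⟨0, [⟨4, 3, []⟩, ⟨34, 3, []⟩], [3, 3], 1, [(6, 1), (36, 1)]⟩,
⟨0, [⟨8, 2, []⟩, ⟨16, 2, []⟩, ⟨2, 2, []⟩, ⟨1, 4, []⟩], [3, 3, 3, 12, 4, 4], 2, [(3, 1), (24, 1), (27, 2)]⟩,
⟨0, [⟨16, 2, []⟩, ⟨32, 2, [(9, 2)]⟩, ⟨0, 0, [(36, 2)]⟩, ⟨0, 0, [(9, 2)]⟩], [3, 1, 1, 12, 12, 12], 2, [(25, 1), (45, 1), (48, 1), (61, 2)]⟩,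
⟨0, [⟨3, 3, []⟩, ⟨20, 3, []⟩], [3, 3], 1, [(5, 1), (6, 1), (17, 1), (18, 1)]⟩,
⟨0, [⟨0, 0, [(18, 2)]⟩, ⟨8, 2, []⟩, ⟨32, 2, []⟩, ⟨69, 4, []⟩], [9, 1, 1, 6, 6, 6], 2, [(19, 1), (22, 1), (40, 1), (59, 2), (62, 2), (82, 1), (122, 2)]⟩,
⟨1, [⟨33, 4, []⟩, ⟨24, 4, []⟩, ⟨64, 4, []⟩], [7], 1, [(73, 1), (81, 1), (104, 1), (112, 1)]⟩,
⟨0, [⟨4, 3, []⟩, ⟨67, 3, []⟩], [3, 3], 1, [(5, 1), (6, 1), (68, 1)]⟩,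
⟨0, [⟨32, 3, []⟩, ⟨20, 3, []⟩], [3, 3], 1, [(36, 1), (48, 1)]⟩,
⟨1, [⟨18, 4, []⟩, ⟨40, 4, []⟩, ⟨64, 4, []⟩], [7], 1, [(74, 1), (88, 1), (98, 1), (112, 1)]⟩,
⟨1, [⟨8, 2, []⟩, ⟨16, 4, []⟩, ⟨1, 1, []⟩, ⟨64, 5, []⟩], [3, 1, 1, 4, 4, 4, 4], 2, [(65, 1), (88, 1), (89, 2)]⟩,
⟨0, [⟨8, 2, [(66, 1)]⟩, ⟨32, 3, []⟩], [3, 3], 1, [(40, 1), (98, 1)]⟩,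
⟨1, [⟨8, 3, []⟩, ⟨32, 3, []⟩, ⟨1, 3, []⟩, ⟨4, 2, []⟩, ⟨64, 4, []⟩], [3, 3, 12, 12, 24], 2, [(41, 1), (69, 1), (104, 1), (109, 2)]⟩,
⟨0, [⟨9, 3, []⟩, ⟨20, 3, []⟩], [3, 3], 1, [(5, 1), (12, 1), (17, 1), (24, 1)]⟩,
⟨1, [⟨5, 3, []⟩, ⟨2, 3, []⟩, ⟨24, 3, []⟩, ⟨32, 2, []⟩, ⟨64, 4, []⟩], [3, 3, 12, 12, 24], 2, [(11, 1), (14, 1), (19, 1), (22, 1), (67, 1), (70, 1), (104, 1), (107, 2), (110, 2), (112, 1), (115, 2), (118, 2)]⟩,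
⟨0, [⟨5, 4, []⟩, ⟨2, 2, []⟩, ⟨8, 2, []⟩, ⟨16, 2, []⟩], [3, 2, 2, 12, 12, 12], 2, [(3, 1), (6, 1), (24, 1), (27, 2), (30, 2)]⟩,
⟨1, [⟨1, 2, []⟩, ⟨2, 4, []⟩, ⟨8, 2, []⟩, ⟨16, 2, []⟩, ⟨64, 5, []⟩], [3, 5, 9, 12, 12], 2, [(67, 1), (74, 1), (82, 1), (88, 1), (91, 2)]⟩,
⟨1, [⟨18, 4, []⟩, ⟨5, 4, []⟩, ⟨64, 4, []⟩], [7], 1, [(67, 1), (70, 1), (81, 1), (84, 1)]⟩,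
⟨0, [⟨2, 3, []⟩, ⟨1, 1, [(20, 2)]⟩], [3, 3], 1, [(3, 1), (22, 1)]⟩,
⟨1, [⟨2, 2, []⟩, ⟨4, 2, []⟩, ⟨24, 3, []⟩, ⟨32, 3, []⟩, ⟨64, 3, []⟩], [3, 3, 3, 28, 28], 2, [(6, 1), (104, 1), (110, 2), (112, 1), (118, 2)]⟩,
⟨0, [⟨2, 3, []⟩, ⟨4, 1, [(9, 2)]⟩], [3, 3], 1, [(6, 1), (11, 1)]⟩,
⟨1, [⟨1, 2, []⟩, ⟨4, 4, []⟩, ⟨8, 2, []⟩, ⟨32, 2, []⟩, ⟨64, 5, []⟩], [3, 5, 9, 12, 12], 2, [(69, 1), (76, 1), (100, 1), (104, 1), (109, 2)]⟩,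
⟨0, [⟨8, 3, []⟩, ⟨32, 2, [(3, 1)]⟩], [3, 3], 1, [(11, 1), (40, 1)]⟩,
⟨1, [⟨4, 3, []⟩, ⟨3, 3, []⟩, ⟨16, 3, []⟩, ⟨32, 3, []⟩, ⟨64, 4, []⟩], [3, 3, 12, 12, 16], 2, [(53, 1), (54, 1), (69, 1), (70, 1), (112, 1), (117, 2), (118, 2)]⟩,
⟨1, [⟨40, 3, []⟩, ⟨16, 3, []⟩, ⟨1, 3, []⟩, ⟨2, 2, []⟩, ⟨64, 4, []⟩], [3, 3, 12, 12, 24], 2, [(25, 1), (49, 1), (67, 1), (88, 1), (91, 2), (112, 1), (115, 2)]⟩,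
⟨1, [⟨32, 2, []⟩, ⟨16, 4, []⟩, ⟨1, 1, []⟩, ⟨64, 5, []⟩], [3, 1, 1, 4, 4, 4, 4], 2, [(65, 1), (112, 1), (113, 2)]⟩,
⟨1, [⟨2, 2, []⟩, ⟨1, 4, []⟩, ⟨16, 2, []⟩, ⟨32, 2, []⟩, ⟨64, 5, []⟩], [3, 5, 9, 12, 12], 2, [(67, 1), (81, 1), (97, 1), (112, 1), (115, 2)]⟩,
⟨1, [⟨32, 2, []⟩, ⟨8, 4, []⟩, ⟨1, 1, []⟩, ⟨64, 5, []⟩], [3, 1, 1, 4, 4, 4, 4], 2, [(65, 1), (104, 1), (105, 2)]⟩,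
⟨1, [⟨16, 4, []⟩, ⟨32, 4, []⟩, ⟨64, 4, []⟩], [7], 1, [(112, 1)]⟩,
⟨1, [⟨5, 3, []⟩, ⟨2, 3, []⟩, ⟨16, 3, []⟩, ⟨32, 2, []⟩, ⟨64, 4, []⟩], [3, 3, 12, 12, 24], 2, [(19, 1), (22, 1), (67, 1), (70, 1), (112, 1), (115, 2), (118, 2)]⟩,
⟨1, [⟨2, 2, []⟩, ⟨1, 4, []⟩, ⟨8, 2, []⟩, ⟨16, 2, []⟩, ⟨64, 5, []⟩], [3, 5, 9, 12, 12], 2, [(67, 1), (73, 1), (81, 1), (88, 1), (91, 2)]⟩,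
⟨1, [⟨20, 3, []⟩, ⟨40, 5, []⟩, ⟨64, 5, []⟩], [1, 1], 1, [(76, 1), (88, 1), (100, 1), (112, 1)]⟩,
⟨0, [⟨6, 4, []⟩, ⟨1, 2, []⟩, ⟨8, 2, []⟩, ⟨16, 2, []⟩], [3, 2, 2, 12, 12, 12], 2, [(3, 1), (5, 1), (24, 1), (27, 2), (29, 2)]⟩,
⟨1, [⟨8, 3, []⟩, ⟨64, 3, []⟩], [3, 3], 1, [(72, 1)]⟩,
⟨0, [⟨16, 3, []⟩, ⟨10, 3, []⟩], [3, 3], 1, [(18, 1), (24, 1)]⟩,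
⟨1, [⟨48, 4, []⟩, ⟨8, 2, []⟩], [3, 2, 2], 1, [(24, 1), (40, 1)]⟩,
⟨0, [⟨1, 3, []⟩, ⟨66, 3, []⟩], [3, 3], 1, [(3, 1), (65, 1)]⟩,
⟨1, [⟨1, 1, [(24, 1)]⟩, ⟨2, 4, []⟩], [3, 1, 1], 1, [(3, 1), (26, 1)]⟩,
⟨0, [⟨8, 3, []⟩, ⟨20, 3, []⟩], [3, 3], 1, [(12, 1), (24, 1)]⟩,
⟨1, [⟨1, 2, []⟩, ⟨2, 4, []⟩, ⟨8, 2, []⟩, ⟨32, 2, []⟩, ⟨64, 5, []⟩], [3, 5, 9, 12, 12], 2, [(67, 1), (74, 1), (98, 1), (104, 1), (107, 2)]⟩,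
⟨0, [⟨16, 3, []⟩, ⟨36, 3, []⟩], [3, 3], 1, [(20, 1), (48, 1)]⟩,
⟨0, [⟨16, 2, []⟩, ⟨8, 2, [(36, 2)]⟩, ⟨0, 0, [(10, 2)]⟩, ⟨0, 0, [(36, 2)]⟩], [3, 1, 1, 12, 12, 12], 2, [(24, 1), (46, 1), (52, 1), (62, 2)]⟩,
⟨1, [⟨48, 3, []⟩, ⟨8, 3, []⟩, ⟨4, 3, []⟩, ⟨1, 2, []⟩, ⟨64, 4, []⟩], [3, 3, 12, 12, 24], 2, [(28, 1), (44, 1), (69, 1), (88, 1), (93, 2), (104, 1), (109, 2)]⟩,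
⟨1, [⟨1, 2, []⟩, ⟨4, 2, []⟩, ⟨16, 3, []⟩, ⟨40, 3, []⟩, ⟨64, 5, []⟩], [3, 3, 3, 12, 12], 2, [(69, 1), (88, 1), (93, 2), (112, 1), (117, 2)]⟩,
⟨0, [⟨32, 2, []⟩, ⟨8, 2, [(18, 2)]⟩, ⟨1, 2, []⟩, ⟨0, 0, [(18, 2)]⟩], [3, 1, 1, 12, 12, 12], 2, [(19, 1), (40, 1), (50, 1), (51, 2)]⟩,
⟨1, [⟨2, 2, []⟩, ⟨4, 2, []⟩, ⟨48, 3, []⟩, ⟨8, 3, []⟩, ⟨64, 3, []⟩], [3, 3, 3, 28, 28], 2, [(6, 1), (88, 1), (94, 2), (104, 1), (110, 2)]⟩,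
⟨1, [⟨1, 2, []⟩, ⟨2, 4, []⟩, ⟨4, 2, []⟩, ⟨8, 1, []⟩, ⟨64, 5, []⟩], [7, 9, 9, 12, 12], 2, [(67, 1), (70, 1), (72, 1), (79, 2)]⟩,
⟨0, [⟨16, 2, []⟩, ⟨8, 2, [(33, 2)]⟩, ⟨0, 0, [(12, 2)]⟩, ⟨0, 0, [(33, 2)]⟩], [3, 1, 1, 12, 12, 12], 2, [(24, 1), (45, 1), (49, 1), (61, 2)]⟩,
⟨0, [⟨2, 3, []⟩, ⟨4, 1, [(33, 2)]⟩], [3, 3], 1, [(6, 1), (35, 1)]⟩,
⟨1, [⟨6, 3, []⟩, ⟨1, 3, []⟩, ⟨16, 3, []⟩, ⟨8, 2, []⟩, ⟨64, 4, []⟩], [3, 3, 12, 12, 24], 2, [(19, 1), (21, 1), (67, 1), (69, 1), (88, 1), (91, 2), (93, 2)]⟩,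
⟨1, [⟨1, 3, []⟩, ⟨6, 3, []⟩, ⟨8, 3, []⟩, ⟨16, 3, []⟩, ⟨64, 4, []⟩], [3, 3, 12, 12, 16], 2, [(27, 1), (29, 1), (67, 1), (69, 1), (88, 1), (91, 2), (93, 2)]⟩,
⟨0, [⟨24, 4, []⟩, ⟨32, 2, []⟩, ⟨1, 2, []⟩, ⟨2, 2, []⟩], [3, 2, 2, 12, 12, 12], 2, [(3, 1), (40, 1), (43, 2), (48, 1), (51, 2)]⟩,
⟨0, [⟨4, 2, []⟩, ⟨1, 2, [(10, 2)]⟩, ⟨16, 2, []⟩, ⟨0, 0, [(10, 2)]⟩], [3, 1, 1, 12, 12, 12], 2, [(5, 1), (14, 1), (26, 1), (30, 2)]⟩,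
⟨0, [⟨40, 3, []⟩, ⟨16, 3, []⟩], [3, 3], 1, [(24, 1), (48, 1)]⟩,
⟨0, [⟨5, 4, []⟩, ⟨2, 2, []⟩, ⟨8, 2, []⟩, ⟨32, 2, []⟩], [3, 2, 2, 12, 12, 12], 2, [(3, 1), (6, 1), (40, 1), (43, 2), (46, 2)]⟩,
⟨0, [⟨2, 2, []⟩, ⟨4, 2, [(9, 2)]⟩, ⟨32, 2, []⟩, ⟨0, 0, [(9, 2)]⟩], [3, 1, 1, 12, 12, 12], 2, [(6, 1), (11, 1), (41, 1), (43, 2)]⟩,
⟨0, [⟨2, 2, [(80, 1)]⟩, ⟨1, 3, []⟩], [3, 3], 1, [(3, 1), (81, 1)]⟩,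
⟨0, [⟨32, 3, []⟩, ⟨9, 3, []⟩], [3, 3], 1, [(33, 1), (40, 1)]⟩,
⟨0, [⟨2, 2, [(72, 1)]⟩, ⟨4, 3, []⟩], [3, 3], 1, [(6, 1), (76, 1)]⟩,
⟨1, [⟨8, 1, [(6, 1)]⟩, ⟨32, 4, []⟩], [3, 1, 1], 1, [(38, 1), (40, 1)]⟩,
⟨0, [⟨3, 3, []⟩, ⟨68, 3, []⟩], [3, 3], 1, [(5, 1), (6, 1), (65, 1), (66, 1)]⟩,
⟨1, [⟨17, 4, []⟩, ⟨8, 4, []⟩, ⟨64, 4, []⟩], [7], 1, [(73, 1), (88, 1)]⟩,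
⟨0, [⟨1, 3, []⟩, ⟨36, 3, []⟩], [3, 3], 1, [(5, 1), (33, 1)]⟩,
⟨1, [⟨8, 3, []⟩, ⟨32, 3, []⟩, ⟨2, 3, []⟩, ⟨1, 2, []⟩, ⟨64, 4, []⟩], [3, 3, 12, 12, 24], 2, [(42, 1), (67, 1), (104, 1), (107, 2)]⟩,
⟨0, [⟨32, 3, []⟩, ⟨8, 2, [(3, 1)]⟩], [3, 3], 1, [(35, 1), (40, 1)]⟩,
⟨1, [⟨32, 1, [(5, 1)]⟩, ⟨16, 2, []⟩, ⟨8, 4, []⟩, ⟨4, 1, []⟩, ⟨64, 3, []⟩], [7, 9, 9, 26, 26], 2, [(13, 1), (40, 1), (68, 1), (88, 1), (93, 2), (124, 2)]⟩,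
⟨1, [⟨4, 2, []⟩, ⟨3, 4, []⟩, ⟨0, 0, [(24, 1)]⟩, ⟨64, 5, []⟩], [3, 1, 1, 4, 4, 4, 4], 2, [(69, 1), (70, 1), (88, 1), (93, 2), (94, 2)]⟩,
⟨0, [⟨4, 3, []⟩, ⟨9, 3, []⟩], [3, 3], 1, [(5, 1), (12, 1)]⟩,
⟨1, [⟨16, 2, []⟩, ⟨8, 4, []⟩, ⟨1, 2, []⟩, ⟨4, 2, []⟩, ⟨64, 5, []⟩], [3, 5, 9, 12, 12], 2, [(69, 1), (73, 1), (76, 1), (88, 1), (93, 2)]⟩,
⟨0, [⟨1, 3, []⟩, ⟨2, 3, []⟩], [3, 3], 1, [(3, 1)]⟩,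
⟨1, [⟨1, 3, []⟩, ⟨4, 3, []⟩, ⟨8, 3, []⟩, ⟨32, 2, []⟩, ⟨64, 4, []⟩], [3, 3, 12, 12, 24], 2, [(13, 1), (69, 1), (104, 1), (109, 2)]⟩,
⟨1, [⟨1, 4, []⟩, ⟨4, 2, []⟩], [3, 2, 2], 1, [(5, 1)]⟩,
⟨1, [⟨2, 3, []⟩, ⟨5, 3, []⟩, ⟨16, 3, []⟩, ⟨32, 3, []⟩, ⟨64, 4, []⟩], [3, 3, 12, 12, 16], 2, [(51, 1), (54, 1), (67, 1), (70, 1), (112, 1), (115, 2), (118, 2)]⟩,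
⟨0, [⟨32, 3, []⟩, ⟨17, 3, []⟩], [3, 3], 1, [(33, 1), (48, 1)]⟩,
⟨1, [⟨16, 3, []⟩, ⟨32, 3, []⟩, ⟨2, 3, []⟩, ⟨4, 2, []⟩, ⟨64, 4, []⟩], [3, 3, 12, 12, 24], 2, [(50, 1), (70, 1), (112, 1), (118, 2)]⟩,
⟨0, [⟨73, 3, []⟩, ⟨2, 3, []⟩], [3, 3], 1, [(3, 1), (10, 1), (66, 1)]⟩,
⟨1, [⟨1, 1, [(48, 1)]⟩, ⟨2, 4, []⟩], [3, 1, 1], 1, [(3, 1), (50, 1)]⟩,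
⟨1, [⟨3, 3, []⟩, ⟨4, 3, []⟩, ⟨24, 3, []⟩, ⟨32, 2, []⟩, ⟨64, 4, []⟩], [3, 3, 12, 12, 24], 2, [(13, 1), (14, 1), (21, 1), (22, 1), (69, 1), (70, 1), (104, 1), (109, 2), (110, 2), (112, 1), (117, 2), (118, 2)]⟩,
⟨1, [⟨2, 2, []⟩, ⟨1, 4, []⟩, ⟨8, 1, []⟩, ⟨64, 5, []⟩], [3, 1, 1, 4, 4, 4, 4], 2, [(67, 1), (72, 1), (75, 2)]⟩,
⟨0, [⟨32, 3, []⟩, ⟨8, 2, [(6, 1)]⟩], [3, 3], 1, [(38, 1), (40, 1)]⟩,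
⟨1, [⟨8, 3, []⟩, ⟨48, 3, []⟩, ⟨2, 3, []⟩, ⟨4, 3, []⟩, ⟨64, 4, []⟩], [3, 3, 12, 12, 16], 2, [(30, 1), (46, 1), (70, 1), (88, 1), (94, 2), (104, 1), (110, 2)]⟩,
⟨1, [⟨64, 4, []⟩, ⟨0, 0, [(6, 1), (48, 1)]⟩], [3, 2, 2], 1, [(70, 1), (112, 1)]⟩,
⟨1, [⟨8, 2, []⟩, ⟨64, 4, []⟩], [3, 1, 1], 1, [(72, 1)]⟩,
⟨1, [⟨18, 4, []⟩, ⟨12, 4, []⟩, ⟨64, 4, []⟩], [7], 1, [(70, 1), (74, 1), (84, 1), (88, 1)]⟩,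
⟨0, [⟨4, 3, []⟩, ⟨17, 3, []⟩], [3, 3], 1, [(5, 1), (20, 1)]⟩,
⟨1, [⟨64, 4, []⟩, ⟨0, 0, [(3, 1), (24, 1)]⟩], [3, 2, 2], 1, [(67, 1), (88, 1)]⟩,
⟨1, [⟨16, 3, []⟩, ⟨32, 3, []⟩], [3, 3], 1, [(48, 1)]⟩,
⟨1, [⟨17, 4, []⟩, ⟨32, 4, []⟩, ⟨64, 4, []⟩], [7], 1, [(97, 1), (112, 1)]⟩,
⟨0, [⟨9, 3, []⟩, ⟨34, 3, []⟩], [3, 3], 1, [(3, 1), (10, 1), (33, 1), (40, 1)]⟩,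
⟨1, [⟨8, 2, []⟩, ⟨32, 4, []⟩, ⟨1, 2, []⟩, ⟨4, 2, []⟩, ⟨64, 5, []⟩], [3, 5, 9, 12, 12], 2, [(69, 1), (97, 1), (100, 1), (104, 1), (109, 2)]⟩,
⟨1, [⟨16, 3, []⟩, ⟨32, 3, []⟩, ⟨2, 3, []⟩, ⟨1, 2, []⟩, ⟨64, 4, []⟩], [3, 3, 12, 12, 24], 2, [(50, 1), (67, 1), (112, 1), (115, 2)]⟩,
⟨0, [⟨32, 3, []⟩, ⟨16, 2, [(5, 1)]⟩], [3, 3], 1, [(37, 1), (48, 1)]⟩,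
⟨1, [⟨12, 4, []⟩, ⟨32, 4, []⟩, ⟨64, 4, []⟩], [7], 1, [(100, 1), (104, 1)]⟩,
⟨1, [⟨33, 4, []⟩, ⟨12, 4, []⟩, ⟨64, 4, []⟩], [7], 1, [(69, 1), (73, 1), (100, 1), (104, 1)]⟩,
⟨0, [⟨5, 3, []⟩, ⟨18, 3, []⟩], [3, 3], 1, [(3, 1), (6, 1), (17, 1), (20, 1)]⟩,
⟨0, [⟨2, 3, []⟩, ⟨1, 1, [(36, 2)]⟩], [3, 3], 1, [(3, 1), (38, 1)]⟩,
⟨1, [⟨20, 4, []⟩, ⟨2, 4, []⟩, ⟨64, 4, []⟩], [7], 1, [(70, 1), (82, 1)]⟩,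
⟨1, [⟨16, 4, []⟩, ⟨0, 0, [(6, 1), (40, 1)]⟩], [3, 2, 2], 1, [(22, 1), (56, 1)]⟩,
⟨1, [⟨8, 3, []⟩, ⟨32, 3, []⟩, ⟨2, 3, []⟩, ⟨4, 2, []⟩, ⟨64, 4, []⟩], [3, 3, 12, 12, 24], 2, [(42, 1), (70, 1), (104, 1), (110, 2)]⟩,
⟨1, [⟨1, 1, [(48, 1)]⟩, ⟨4, 4, []⟩], [3, 1, 1], 1, [(5, 1), (52, 1)]⟩,
⟨0, [⟨4, 3, []⟩, ⟨10, 3, []⟩], [3, 3], 1, [(6, 1), (12, 1)]⟩,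
⟨1, [⟨33, 4, []⟩, ⟨6, 4, []⟩, ⟨64, 4, []⟩], [7], 1, [(67, 1), (69, 1), (98, 1), (100, 1)]⟩,
⟨0, [⟨1, 2, []⟩, ⟨4, 2, []⟩, ⟨16, 2, []⟩, ⟨32, 4, []⟩], [3, 3, 3, 12, 4, 4], 2, [(5, 1), (48, 1), (53, 2)]⟩,
⟨1, [⟨5, 3, []⟩, ⟨2, 3, []⟩, ⟨40, 3, []⟩, ⟨16, 2, []⟩, ⟨64, 4, []⟩], [3, 3, 12, 12, 24], 2, [(11, 1), (14, 1), (35, 1), (38, 1), (67, 1), (70, 1), (88, 1), (91, 2), (94, 2), (112, 1), (115, 2), (118, 2)]⟩,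
⟨0, [⟨4, 3, []⟩, ⟨18, 3, []⟩], [3, 3], 1, [(6, 1), (20, 1)]⟩,
⟨1, [⟨2, 4, []⟩, ⟨4, 2, []⟩], [3, 2, 2], 1, [(6, 1)]⟩,
⟨1, [⟨6, 3, []⟩, ⟨1, 3, []⟩, ⟨8, 3, []⟩, ⟨16, 2, []⟩, ⟨64, 4, []⟩], [3, 3, 12, 12, 24], 2, [(11, 1), (13, 1), (67, 1), (69, 1), (88, 1), (91, 2), (93, 2)]⟩,
⟨1, [⟨4, 2, []⟩, ⟨3, 4, []⟩, ⟨0, 0, [(48, 1)]⟩, ⟨64, 5, []⟩], [3, 1, 1, 4, 4, 4, 4], 2, [(69, 1), (70, 1), (112, 1), (117, 2), (118, 2)]⟩,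
⟨1, [⟨8, 3, []⟩, ⟨16, 3, []⟩, ⟨4, 3, []⟩, ⟨1, 2, []⟩, ⟨64, 4, []⟩], [3, 3, 12, 12, 24], 2, [(28, 1), (69, 1), (88, 1), (93, 2)]⟩,
⟨0, [⟨1, 3, []⟩, ⟨4, 3, []⟩], [3, 3], 1, [(5, 1)]⟩,
⟨0, [⟨73, 3, []⟩, ⟨32, 3, []⟩], [3, 3], 1, [(33, 1), (40, 1), (96, 1)]⟩,
⟨1, [⟨33, 4, []⟩, ⟨4, 4, []⟩, ⟨64, 4, []⟩], [7], 1, [(69, 1), (100, 1)]⟩,
⟨0, [⟨1, 2, []⟩, ⟨4, 2, []⟩, ⟨16, 2, []⟩, ⟨8, 4, []⟩], [3, 3, 3, 12, 4, 4], 2, [(5, 1), (24, 1), (29, 2)]⟩,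
⟨0, [⟨4, 2, []⟩, ⟨2, 2, [(33, 2)]⟩, ⟨16, 2, []⟩, ⟨0, 0, [(33, 2)]⟩], [3, 1, 1, 12, 12, 12], 2, [(6, 1), (37, 1), (49, 1), (53, 2)]⟩,
⟨1, [⟨33, 5, []⟩, ⟨6, 3, []⟩, ⟨64, 5, []⟩], [2, 2], 1, [(67, 1), (69, 1), (98, 1), (100, 1)]⟩,
⟨0, [⟨1, 3, []⟩, ⟨20, 3, []⟩], [3, 3], 1, [(5, 1), (17, 1)]⟩,
⟨0, [⟨16, 3, []⟩, ⟨32, 2, [(5, 1)]⟩], [3, 3], 1, [(21, 1), (48, 1)]⟩,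
⟨0, [⟨2, 3, []⟩, ⟨20, 3, []⟩], [3, 3], 1, [(6, 1), (18, 1)]⟩,
⟨0, [⟨8, 3, []⟩, ⟨33, 3, []⟩], [3, 3], 1, [(9, 1), (40, 1)]⟩,
⟨1, [⟨0, 0, [(6, 2)]⟩, ⟨1, 4, []⟩], [3, 1, 1], 1, [(7, 1)]⟩,
⟨0, [⟨32, 2, [(68, 1)]⟩, ⟨8, 3, []⟩], [3, 3], 1, [(40, 1), (76, 1)]⟩,
⟨1, [⟨5, 3, []⟩, ⟨2, 3, []⟩, ⟨8, 3, []⟩, ⟨16, 2, []⟩, ⟨64, 4, []⟩], [3, 3, 12, 12, 24], 2, [(11, 1), (14, 1), (67, 1), (70, 1), (88, 1), (91, 2), (94, 2)]⟩,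
⟨1, [⟨1, 3, []⟩, ⟨4, 3, []⟩, ⟨32, 3, []⟩, ⟨16, 2, []⟩, ⟨64, 4, []⟩], [3, 3, 12, 12, 24], 2, [(37, 1), (69, 1), (112, 1), (117, 2)]⟩,
⟨0, [⟨8, 2, []⟩, ⟨16, 2, []⟩, ⟨4, 2, []⟩, ⟨1, 4, []⟩], [3, 3, 3, 12, 4, 4], 2, [(5, 1), (24, 1), (29, 2)]⟩,
⟨0, [⟨48, 3, []⟩, ⟨72, 3, []⟩], [3, 3], 1, [(24, 1), (40, 1), (80, 1), (96, 1)]⟩,
⟨1, [⟨40, 3, []⟩, ⟨16, 3, []⟩, ⟨4, 3, []⟩, ⟨1, 2, []⟩, ⟨64, 4, []⟩], [3, 3, 12, 12, 24], 2, [(28, 1), (52, 1), (69, 1), (88, 1), (93, 2), (112, 1), (117, 2)]⟩,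
⟨1, [⟨2, 3, []⟩, ⟨4, 3, []⟩, ⟨8, 3, []⟩, ⟨16, 2, []⟩, ⟨64, 4, []⟩], [3, 3, 12, 12, 24], 2, [(14, 1), (70, 1), (88, 1), (94, 2)]⟩,
⟨0, [⟨32, 3, []⟩, ⟨8, 1, [(17, 2)]⟩], [3, 3], 1, [(40, 1), (49, 1)]⟩,
⟨0, [⟨32, 3, []⟩, ⟨18, 3, []⟩], [3, 3], 1, [(34, 1), (48, 1)]⟩,
⟨1, [⟨8, 3, []⟩, ⟨16, 3, []⟩, ⟨1, 2, []⟩, ⟨4, 2, []⟩, ⟨64, 3, []⟩], [19, 19, 12, 12, 12], 2, [(5, 1), (88, 1), (93, 2)]⟩,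
⟨1, [⟨1, 3, []⟩, ⟨64, 3, []⟩], [3, 3], 1, [(65, 1)]⟩,
⟨1, [⟨3, 3, []⟩, ⟨4, 3, []⟩, ⟨40, 3, []⟩, ⟨16, 2, []⟩, ⟨64, 4, []⟩], [3, 3, 12, 12, 24], 2, [(13, 1), (14, 1), (37, 1), (38, 1), (69, 1), (70, 1), (88, 1), (93, 2), (94, 2), (112, 1), (117, 2), (118, 2)]⟩,
⟨0, [⟨1, 2, []⟩, ⟨4, 2, [(34, 2)]⟩, ⟨8, 2, []⟩, ⟨0, 0, [(34, 2)]⟩], [3, 1, 1, 12, 12, 12], 2, [(5, 1), (35, 1), (42, 1), (43, 2)]⟩,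
⟨1, [⟨8, 2, []⟩, ⟨32, 2, []⟩, ⟨1, 3, []⟩, ⟨2, 3, []⟩, ⟨64, 5, []⟩], [3, 3, 3, 12, 12], 2, [(67, 1), (104, 1), (107, 2)]⟩,
⟨1, [⟨8, 2, []⟩, ⟨16, 2, []⟩, ⟨3, 3, []⟩, ⟨4, 3, []⟩, ⟨64, 3, []⟩], [3, 3, 3, 28, 28], 2, [(24, 1), (69, 1), (70, 1), (93, 2), (94, 2)]⟩,
⟨0, [⟨2, 3, []⟩, ⟨1, 2, [(40, 1)]⟩], [3, 3], 1, [(3, 1), (42, 1)]⟩,
⟨0, [⟨8, 2, []⟩, ⟨32, 2, []⟩, ⟨2, 2, []⟩, ⟨4, 4, []⟩], [3, 3, 3, 12, 4, 4], 2, [(6, 1), (40, 1), (46, 2)]⟩,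
⟨1, [⟨6, 3, []⟩, ⟨1, 3, []⟩, ⟨40, 3, []⟩, ⟨16, 2, []⟩, ⟨64, 4, []⟩], [3, 3, 12, 12, 24], 2, [(11, 1), (13, 1), (35, 1), (37, 1), (67, 1), (69, 1), (88, 1), (91, 2), (93, 2), (112, 1), (115, 2), (117, 2)]⟩,
⟨1, [⟨16, 1, [(6, 1)]⟩, ⟨32, 4, []⟩], [3, 1, 1], 1, [(38, 1), (48, 1)]⟩,
⟨0, [⟨98, 3, []⟩, ⟨4, 3, []⟩], [3, 3], 1, [(6, 1), (36, 1), (68, 1)]⟩,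
⟨0, [⟨2, 2, []⟩, ⟨1, 2, [(12, 2)]⟩, ⟨32, 2, []⟩, ⟨0, 0, [(12, 2)]⟩], [3, 1, 1, 12, 12, 12], 2, [(3, 1), (14, 1), (44, 1), (46, 2)]⟩,
⟨1, [⟨1, 4, []⟩, ⟨2, 4, []⟩, ⟨64, 4, []⟩], [7], 1, [(67, 1)]⟩,
⟨1, [⟨6, 4, []⟩, ⟨24, 4, []⟩, ⟨64, 4, []⟩], [7], 1, [(74, 1), (76, 1), (82, 1), (84, 1)]⟩,
⟨0, [⟨24, 4, []⟩, ⟨32, 2, []⟩, ⟨1, 2, []⟩, ⟨4, 2, []⟩], [3, 2, 2, 12, 12, 12], 2, [(5, 1), (40, 1), (45, 2), (48, 1), (53, 2)]⟩,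
⟨1, [⟨1, 2, []⟩, ⟨64, 4, []⟩], [3, 1, 1], 1, [(65, 1)]⟩,
⟨0, [⟨1, 2, []⟩, ⟨2, 2, []⟩, ⟨8, 2, []⟩, ⟨32, 4, []⟩], [3, 3, 3, 12, 4, 4], 2, [(3, 1), (40, 1), (43, 2)]⟩,
⟨1, [⟨1, 2, []⟩, ⟨2, 2, []⟩, ⟨24, 3, []⟩, ⟨32, 3, []⟩, ⟨64, 3, []⟩], [3, 3, 3, 28, 28], 2, [(3, 1), (104, 1), (107, 2), (112, 1), (115, 2)]⟩,
⟨0, [⟨5, 3, []⟩, ⟨40, 3, []⟩], [3, 3], 1, [(9, 1), (12, 1), (33, 1), (36, 1)]⟩,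
⟨1, [⟨5, 3, []⟩, ⟨2, 3, []⟩, ⟨16, 3, []⟩, ⟨8, 2, []⟩, ⟨64, 4, []⟩], [3, 3, 12, 12, 24], 2, [(19, 1), (22, 1), (67, 1), (70, 1), (88, 1), (91, 2), (94, 2)]⟩,
⟨0, [⟨5, 3, []⟩, ⟨34, 3, []⟩], [3, 3], 1, [(3, 1), (6, 1), (33, 1), (36, 1)]⟩,
⟨1, [⟨1, 2, []⟩, ⟨6, 4, []⟩, ⟨0, 0, [(40, 1)]⟩, ⟨64, 5, []⟩], [3, 1, 1, 4, 4, 4, 4], 2, [(67, 1), (69, 1), (104, 1), (107, 2), (109, 2)]⟩,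
⟨0, [⟨1, 2, []⟩, ⟨2, 2, []⟩, ⟨16, 2, []⟩, ⟨32, 4, []⟩], [3, 3, 3, 12, 4, 4], 2, [(3, 1), (48, 1), (51, 2)]⟩,
⟨1, [⟨8, 2, []⟩, ⟨16, 2, []⟩, ⟨2, 3, []⟩, ⟨5, 3, []⟩, ⟨64, 5, []⟩], [3, 3, 3, 12, 12], 2, [(67, 1), (70, 1), (88, 1), (91, 2), (94, 2)]⟩,
⟨0, [⟨1, 2, []⟩, ⟨4, 2, []⟩, ⟨8, 2, []⟩, ⟨16, 4, []⟩], [3, 3, 3, 12, 4, 4], 2, [(5, 1), (24, 1), (29, 2)]⟩,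
⟨0, [⟨4, 2, []⟩, ⟨1, 2, [(34, 2)]⟩, ⟨0, 0, [(17, 2)]⟩, ⟨0, 0, [(34, 2)]⟩], [3, 1, 1, 12, 12, 12], 2, [(5, 1), (38, 1), (51, 1), (55, 2)]⟩,
⟨1, [⟨10, 4, []⟩, ⟨48, 4, []⟩, ⟨64, 4, []⟩], [7], 1, [(82, 1), (88, 1), (98, 1), (104, 1)]⟩,
⟨1, [⟨2, 2, []⟩, ⟨4, 2, []⟩, ⟨16, 3, []⟩, ⟨40, 3, []⟩, ⟨64, 5, []⟩], [3, 3, 3, 12, 12], 2, [(70, 1), (88, 1), (94, 2), (112, 1), (118, 2)]⟩,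
⟨0, [⟨1, 3, []⟩, ⟨4, 2, [(48, 1)]⟩], [3, 3], 1, [(5, 1), (49, 1)]⟩,
⟨1, [⟨8, 2, []⟩, ⟨16, 2, []⟩, ⟨5, 3, []⟩, ⟨2, 3, []⟩, ⟨64, 3, []⟩], [3, 3, 3, 28, 28], 2, [(24, 1), (67, 1), (70, 1), (91, 2), (94, 2)]⟩,
⟨0, [⟨16, 3, []⟩, ⟨8, 2, [(3, 1)]⟩], [3, 3], 1, [(19, 1), (24, 1)]⟩,
⟨0, [⟨16, 3, []⟩, ⟨8, 1, [(36, 2)]⟩], [3, 3], 1, [(24, 1), (52, 1)]⟩,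
⟨1, [⟨1, 2, []⟩, ⟨4, 4, []⟩, ⟨16, 1, []⟩, ⟨64, 5, []⟩], [3, 1, 1, 4, 4, 4, 4], 2, [(69, 1), (80, 1), (85, 2)]⟩,
⟨0, [⟨4, 2, []⟩, ⟨1, 2, [(34, 2)]⟩, ⟨8, 2, []⟩, ⟨0, 0, [(34, 2)]⟩], [3, 1, 1, 12, 12, 12], 2, [(5, 1), (38, 1), (42, 1), (46, 2)]⟩,
⟨0, [⟨8, 3, []⟩, ⟨96, 2, [(5, 1)]⟩], [3, 3], 1, [(13, 1), (40, 1), (72, 1)]⟩,
⟨0, [⟨16, 2, []⟩, ⟨32, 2, []⟩, ⟨2, 2, []⟩, ⟨1, 4, []⟩], [3, 3, 3, 12, 4, 4], 2, [(3, 1), (48, 1), (51, 2)]⟩,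
⟨1, [⟨9, 4, []⟩, ⟨34, 4, []⟩, ⟨64, 4, []⟩], [7], 1, [(67, 1), (74, 1), (97, 1), (104, 1)]⟩,
⟨0, [⟨40, 3, []⟩, ⟨80, 3, []⟩], [3, 3], 1, [(24, 1), (48, 1), (72, 1), (96, 1)]⟩,
⟨1, [⟨32, 2, []⟩, ⟨8, 4, []⟩, ⟨1, 2, []⟩, ⟨2, 2, []⟩, ⟨64, 5, []⟩], [3, 5, 9, 12, 12], 2, [(67, 1), (73, 1), (74, 1), (104, 1), (107, 2)]⟩,
⟨0, [⟨8, 2, []⟩, ⟨16, 2, []⟩, ⟨1, 2, []⟩, ⟨2, 4, []⟩], [3, 3, 3, 12, 4, 4], 2, [(3, 1), (24, 1), (27, 2)]⟩,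
⟨0, [⟨6, 2, [(80, 1)]⟩, ⟨1, 3, []⟩], [3, 3], 1, [(3, 1), (5, 1), (81, 1)]⟩,
⟨1, [⟨18, 5, []⟩, ⟨40, 3, []⟩, ⟨64, 5, []⟩], [2, 2], 1, [(74, 1), (88, 1), (98, 1), (112, 1)]⟩,
⟨1, [⟨48, 3, []⟩, ⟨8, 3, []⟩, ⟨2, 3, []⟩, ⟨4, 2, []⟩, ⟨64, 4, []⟩], [3, 3, 12, 12, 24], 2, [(26, 1), (42, 1), (70, 1), (88, 1), (94, 2), (104, 1), (110, 2)]⟩,
⟨0, [⟨97, 3, []⟩, ⟨16, 3, []⟩], [3, 3], 1, [(17, 1), (48, 1), (80, 1)]⟩,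
⟨1, [⟨24, 3, []⟩, ⟨32, 3, []⟩, ⟨5, 3, []⟩, ⟨2, 2, []⟩, ⟨64, 4, []⟩], [3, 3, 12, 12, 24], 2, [(41, 1), (44, 1), (49, 1), (52, 1), (67, 1), (70, 1), (104, 1), (107, 2), (110, 2), (112, 1), (115, 2), (118, 2)]⟩,
⟨0, [⟨32, 3, []⟩, ⟨8, 2, [(5, 1)]⟩], [3, 3], 1, [(37, 1), (40, 1)]⟩,
⟨1, [⟨36, 2, []⟩, ⟨2, 4, []⟩], [3, 1, 1], 1, [(6, 1), (34, 1)]⟩,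
⟨1, [⟨8, 3, []⟩, ⟨16, 3, []⟩, ⟨1, 3, []⟩, ⟨4, 2, []⟩, ⟨64, 4, []⟩], [3, 3, 12, 12, 24], 2, [(25, 1), (69, 1), (88, 1), (93, 2)]⟩,
⟨0, [⟨5, 2, [(72, 1)]⟩, ⟨2, 3, []⟩], [3, 3], 1, [(3, 1), (6, 1), (74, 1)]⟩,
⟨1, [⟨1, 1, [(40, 1)]⟩, ⟨4, 4, []⟩], [3, 1, 1], 1, [(5, 1), (44, 1)]⟩,
⟨0, [⟨8, 2, []⟩, ⟨32, 2, [(17, 2)]⟩, ⟨0, 0, [(34, 2)]⟩, ⟨0, 0, [(17, 2)]⟩], [3, 1, 1, 12, 12, 12], 2, [(25, 1), (40, 1), (51, 1), (59, 2)]⟩,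
⟨1, [⟨8, 4, []⟩, ⟨16, 4, []⟩, ⟨64, 4, []⟩], [7], 1, [(88, 1)]⟩,
⟨0, [⟨1, 3, []⟩, ⟨2, 1, [(20, 2)]⟩], [3, 3], 1, [(3, 1), (21, 1)]⟩,
⟨1, [⟨2, 2, []⟩, ⟨4, 4, []⟩, ⟨16, 1, []⟩, ⟨64, 5, []⟩], [3, 1, 1, 4, 4, 4, 4], 2, [(70, 1), (80, 1), (86, 2)]⟩,
⟨1, [⟨16, 3, []⟩, ⟨40, 3, []⟩, ⟨2, 3, []⟩, ⟨4, 3, []⟩, ⟨64, 4, []⟩], [3, 3, 12, 12, 16], 2, [(30, 1), (54, 1), (70, 1), (88, 1), (94, 2), (112, 1), (118, 2)]⟩,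
⟨1, [⟨8, 2, []⟩, ⟨16, 2, []⟩, ⟨1, 3, []⟩, ⟨4, 3, []⟩, ⟨64, 5, []⟩], [3, 3, 3, 12, 12], 2, [(69, 1), (88, 1), (93, 2)]⟩,
⟨1, [⟨1, 2, []⟩, ⟨2, 2, []⟩, ⟨16, 3, []⟩, ⟨32, 3, []⟩, ⟨64, 5, []⟩], [3, 3, 3, 12, 12], 2, [(67, 1), (112, 1), (115, 2)]⟩,
⟨0, [⟨33, 3, []⟩, ⟨10, 3, []⟩], [3, 3], 1, [(3, 1), (9, 1), (34, 1), (40, 1)]⟩,
⟨1, [⟨64, 4, []⟩, ⟨0, 0, [(5, 1), (24, 1)]⟩], [3, 2, 2], 1, [(69, 1), (88, 1)]⟩,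
⟨0, [⟨16, 2, []⟩, ⟨40, 4, []⟩, ⟨2, 2, []⟩, ⟨0, 0, [(36, 2)]⟩], [3, 1, 1, 12, 12, 12], 2, [(24, 1), (38, 1), (48, 1), (54, 2)]⟩,
⟨0, [⟨8, 2, []⟩, ⟨16, 2, []⟩, ⟨1, 2, []⟩, ⟨4, 4, []⟩], [3, 3, 3, 12, 4, 4], 2, [(5, 1), (24, 1), (29, 2)]⟩,
⟨1, [⟨1, 3, []⟩, ⟨2, 3, []⟩, ⟨32, 3, []⟩, ⟨16, 2, []⟩, ⟨64, 4, []⟩], [3, 3, 12, 12, 24], 2, [(35, 1), (67, 1), (112, 1), (115, 2)]⟩,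
⟨0, [⟨8, 3, []⟩, ⟨32, 1, [(20, 2)]⟩], [3, 3], 1, [(28, 1), (40, 1)]⟩,
⟨0, [⟨100, 3, []⟩, ⟨16, 3, []⟩], [3, 3], 1, [(20, 1), (48, 1), (80, 1)]⟩,
⟨1, [⟨8, 3, []⟩, ⟨16, 3, []⟩, ⟨2, 2, []⟩, ⟨4, 2, []⟩, ⟨64, 3, []⟩], [19, 19, 12, 12, 12], 2, [(6, 1), (88, 1), (94, 2)]⟩,
⟨0, [⟨8, 2, []⟩, ⟨16, 2, [(33, 2)]⟩, ⟨0, 0, [(18, 2)]⟩, ⟨0, 0, [(33, 2)]⟩], [3, 1, 1, 12, 12, 12], 2, [(24, 1), (41, 1), (51, 1), (59, 2)]⟩,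
⟨1, [⟨10, 4, []⟩, ⟨16, 4, []⟩, ⟨64, 4, []⟩], [7], 1, [(82, 1), (88, 1)]⟩,
⟨1, [⟨16, 1, [(6, 1)]⟩, ⟨64, 4, []⟩], [3, 1, 1], 1, [(70, 1), (80, 1)]⟩,
⟨1, [⟨16, 1, [(5, 1)]⟩, ⟨32, 4, []⟩], [3, 1, 1], 1, [(37, 1), (48, 1)]⟩,
⟨0, [⟨17, 3, []⟩, ⟨10, 3, []⟩], [3, 3], 1, [(3, 1), (9, 1), (18, 1), (24, 1)]⟩,
⟨1, [⟨3, 4, []⟩, ⟨40, 4, []⟩, ⟨64, 4, []⟩], [7], 1, [(73, 1), (74, 1), (97, 1), (98, 1)]⟩,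
⟨0, [⟨33, 3, []⟩, ⟨18, 3, []⟩], [3, 3], 1, [(3, 1), (17, 1), (34, 1), (48, 1)]⟩,
⟨1, [⟨16, 1, [(5, 1)]⟩, ⟨64, 4, []⟩], [3, 1, 1], 1, [(69, 1), (80, 1)]⟩,
⟨0, [⟨8, 3, []⟩, ⟨32, 1, [(18, 2)]⟩], [3, 3], 1, [(26, 1), (40, 1)]⟩,
⟨1, [⟨8, 1, [(5, 1)]⟩, ⟨64, 4, []⟩], [3, 1, 1], 1, [(69, 1), (72, 1)]⟩,
⟨1, [⟨1, 2, []⟩, ⟨2, 2, []⟩, ⟨8, 3, []⟩, ⟨16, 3, []⟩, ⟨64, 5, []⟩], [3, 3, 3, 12, 12], 2, [(67, 1), (88, 1), (91, 2)]⟩,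
⟨1, [⟨1, 2, []⟩, ⟨2, 2, []⟩, ⟨8, 3, []⟩, ⟨48, 3, []⟩, ⟨64, 5, []⟩], [3, 3, 3, 12, 12], 2, [(67, 1), (88, 1), (91, 2), (104, 1), (107, 2)]⟩,
⟨1, [⟨16, 2, []⟩, ⟨32, 2, []⟩, ⟨6, 3, []⟩, ⟨1, 3, []⟩, ⟨64, 3, []⟩], [3, 3, 3, 28, 28], 2, [(48, 1), (67, 1), (69, 1), (115, 2), (117, 2)]⟩,
⟨1, [⟨2, 2, []⟩, ⟨4, 4, []⟩, ⟨8, 1, []⟩, ⟨64, 5, []⟩], [3, 1, 1, 4, 4, 4, 4], 2, [(70, 1), (72, 1), (78, 2)]⟩,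
⟨0, [⟨1, 3, []⟩, ⟨2, 1, [(12, 2)]⟩], [3, 3], 1, [(3, 1), (13, 1)]⟩,
⟨1, [⟨34, 4, []⟩, ⟨8, 4, []⟩, ⟨64, 4, []⟩], [7], 1, [(74, 1), (104, 1)]⟩,
⟨0, [⟨8, 2, []⟩, ⟨32, 2, []⟩, ⟨4, 2, []⟩, ⟨2, 4, []⟩], [3, 3, 3, 12, 4, 4], 2, [(6, 1), (40, 1), (46, 2)]⟩,
⟨0, [⟨8, 2, []⟩, ⟨16, 2, [(36, 2)]⟩, ⟨0, 0, [(17, 2)]⟩, ⟨0, 0, [(36, 2)]⟩], [3, 1, 1, 12, 12, 12], 2, [(24, 1), (44, 1), (53, 1), (61, 2)]⟩,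
⟨0, [⟨32, 3, []⟩, ⟨80, 3, []⟩], [3, 3], 1, [(48, 1), (96, 1)]⟩,
⟨0, [⟨2, 3, []⟩, ⟨33, 3, []⟩], [3, 3], 1, [(3, 1), (34, 1)]⟩,
⟨1, [⟨32, 2, []⟩, ⟨8, 4, []⟩, ⟨4, 1, []⟩, ⟨64, 5, []⟩], [3, 1, 1, 4, 4, 4, 4], 2, [(68, 1), (104, 1), (108, 2)]⟩,
⟨0, [⟨4, 2, [(80, 1)]⟩, ⟨1, 3, []⟩], [3, 3], 1, [(5, 1), (81, 1)]⟩,
⟨1, [⟨0, 0, [(5, 2)]⟩, ⟨2, 4, []⟩], [3, 1, 1], 1, [(7, 1)]⟩,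
⟨0, [⟨8, 3, []⟩, ⟨16, 2, [(3, 1)]⟩], [3, 3], 1, [(11, 1), (24, 1)]⟩,
⟨0, [⟨32, 3, []⟩, ⟨12, 3, []⟩], [3, 3], 1, [(36, 1), (40, 1)]⟩,
⟨1, [⟨3, 4, []⟩, ⟨48, 4, []⟩, ⟨64, 4, []⟩], [7], 1, [(81, 1), (82, 1), (97, 1), (98, 1)]⟩,
⟨1, [⟨1, 3, []⟩, ⟨2, 3, []⟩, ⟨16, 3, []⟩, ⟨8, 2, []⟩, ⟨64, 4, []⟩], [3, 3, 12, 12, 24], 2, [(19, 1), (67, 1), (88, 1), (91, 2)]⟩,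
⟨0, [⟨1, 3, []⟩, ⟨70, 3, []⟩], [3, 3], 1, [(3, 1), (5, 1), (65, 1)]⟩,
⟨1, [⟨0, 0, [(3, 2)]⟩, ⟨4, 4, []⟩], [3, 1, 1], 1, [(7, 1)]⟩,
⟨1, [⟨4, 2, []⟩, ⟨1, 4, []⟩, ⟨32, 1, []⟩, ⟨64, 5, []⟩], [3, 1, 1, 4, 4, 4, 4], 2, [(69, 1), (96, 1), (101, 2)]⟩,
⟨0, [⟨8, 2, []⟩, ⟨32, 2, []⟩, ⟨2, 2, []⟩, ⟨1, 4, []⟩], [3, 3, 3, 12, 4, 4], 2, [(3, 1), (40, 1), (43, 2)]⟩,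
⟨0, [⟨5, 3, []⟩, ⟨48, 3, []⟩], [3, 3], 1, [(17, 1), (20, 1), (33, 1), (36, 1)]⟩,
⟨0, [⟨32, 3, []⟩, ⟨10, 3, []⟩], [3, 3], 1, [(34, 1), (40, 1)]⟩,
⟨0, [⟨16, 2, [(66, 1)]⟩, ⟨8, 3, []⟩], [3, 3], 1, [(24, 1), (74, 1)]⟩,
⟨1, [⟨8, 2, []⟩, ⟨16, 4, []⟩, ⟨32, 2, []⟩, ⟨1, 1, []⟩, ⟨64, 5, []⟩], [7, 9, 9, 12, 12], 2, [(65, 1), (88, 1), (112, 1), (121, 2)]⟩,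
⟨0, [⟨4, 3, []⟩, ⟨2, 1, [(33, 2)]⟩], [3, 3], 1, [(6, 1), (37, 1)]⟩,
⟨0, [⟨24, 3, []⟩, ⟨34, 3, []⟩], [3, 3], 1, [(10, 1), (18, 1), (40, 1), (48, 1)]⟩,
⟨0, [⟨2, 2, []⟩, ⟨4, 2, []⟩, ⟨16, 2, []⟩, ⟨32, 4, []⟩], [3, 3, 3, 12, 4, 4], 2, [(6, 1), (48, 1), (54, 2)]⟩,
⟨1, [⟨9, 4, []⟩, ⟨18, 4, []⟩, ⟨64, 4, []⟩], [7], 1, [(67, 1), (74, 1), (81, 1), (88, 1)]⟩,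
⟨1, [⟨10, 4, []⟩, ⟨20, 4, []⟩, ⟨64, 4, []⟩], [7], 1, [(70, 1), (76, 1), (82, 1), (88, 1)]⟩,
⟨0, [⟨1, 2, [(72, 1)]⟩, ⟨4, 3, []⟩], [3, 3], 1, [(5, 1), (76, 1)]⟩,
⟨0, [⟨4, 3, []⟩, ⟨1, 2, [(48, 1)]⟩], [3, 3], 1, [(5, 1), (52, 1)]⟩,
⟨1, [⟨2, 2, []⟩, ⟨5, 4, []⟩, ⟨0, 0, [(24, 1)]⟩, ⟨64, 5, []⟩], [3, 1, 1, 4, 4, 4, 4], 2, [(67, 1), (70, 1), (88, 1), (91, 2), (94, 2)]⟩,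
⟨0, [⟨34, 3, []⟩, ⟨12, 3, []⟩], [3, 3], 1, [(6, 1), (10, 1), (36, 1), (40, 1)]⟩,
⟨0, [⟨0, 0, [(9, 2)]⟩, ⟨16, 2, []⟩, ⟨32, 2, []⟩, ⟨70, 4, []⟩], [9, 1, 1, 6, 6, 6], 2, [(11, 1), (13, 1), (48, 1), (59, 2), (61, 2), (73, 1), (121, 2)]⟩,
⟨0, [⟨3, 4, []⟩, ⟨0, 0, [(20, 2)]⟩, ⟨8, 2, []⟩, ⟨96, 2, []⟩], [3, 2, 2, 12, 12, 12], 2, [(21, 1), (22, 1), (40, 1), (61, 2), (62, 2), (72, 1), (93, 2), (94, 2)]⟩,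
⟨1, [⟨8, 2, []⟩, ⟨32, 2, []⟩, ⟨1, 3, []⟩, ⟨4, 3, []⟩, ⟨64, 5, []⟩], [3, 3, 3, 12, 12], 2, [(69, 1), (104, 1), (109, 2)]⟩,
⟨1, [⟨1, 2, []⟩, ⟨4, 4, []⟩, ⟨8, 2, []⟩, ⟨16, 2, []⟩, ⟨64, 5, []⟩], [3, 5, 9, 12, 12], 2, [(69, 1), (76, 1), (84, 1), (88, 1), (93, 2)]⟩,
⟨1, [⟨2, 2, []⟩, ⟨4, 2, []⟩, ⟨8, 3, []⟩, ⟨48, 3, []⟩, ⟨64, 5, []⟩], [3, 3, 3, 12, 12], 2, [(70, 1), (88, 1), (94, 2), (104, 1), (110, 2)]⟩,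
⟨1, [⟨10, 4, []⟩, ⟨32, 4, []⟩, ⟨64, 4, []⟩], [7], 1, [(98, 1), (104, 1)]⟩,
⟨1, [⟨32, 2, []⟩, ⟨16, 4, []⟩, ⟨1, 2, []⟩, ⟨4, 2, []⟩, ⟨64, 5, []⟩], [3, 5, 9, 12, 12], 2, [(69, 1), (81, 1), (84, 1), (112, 1), (117, 2)]⟩,
⟨0, [⟨1, 2, []⟩, ⟨2, 2, [(12, 2)]⟩, ⟨0, 0, [(18, 2)]⟩, ⟨0, 0, [(12, 2)]⟩], [3, 1, 1, 12, 12, 12], 2, [(3, 1), (13, 1), (30, 1), (31, 2)]⟩,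
⟨1, [⟨2, 2, []⟩, ⟨4, 2, []⟩, ⟨16, 3, []⟩, ⟨32, 3, []⟩, ⟨64, 5, []⟩], [3, 3, 3, 12, 12], 2, [(70, 1), (112, 1), (118, 2)]⟩,
⟨0, [⟨32, 3, []⟩, ⟨8, 1, [(20, 2)]⟩], [3, 3], 1, [(40, 1), (52, 1)]⟩,
⟨0, [⟨10, 3, []⟩, ⟨68, 3, []⟩], [3, 3], 1, [(6, 1), (12, 1), (66, 1), (72, 1)]⟩,
⟨1, [⟨20, 4, []⟩, ⟨1, 4, []⟩, ⟨64, 4, []⟩], [7], 1, [(69, 1), (81, 1)]⟩,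
⟨0, [⟨8, 3, []⟩, ⟨16, 2, [(5, 1)]⟩], [3, 3], 1, [(13, 1), (24, 1)]⟩,
⟨1, [⟨32, 2, []⟩, ⟨16, 4, []⟩, ⟨2, 2, []⟩, ⟨4, 2, []⟩, ⟨64, 5, []⟩], [3, 5, 9, 12, 12], 2, [(70, 1), (82, 1), (84, 1), (112, 1), (118, 2)]⟩,
⟨0, [⟨1, 3, []⟩, ⟨4, 1, [(34, 2)]⟩], [3, 3], 1, [(5, 1), (35, 1)]⟩,
⟨1, [⟨1, 2, []⟩, ⟨4, 2, []⟩, ⟨8, 3, []⟩, ⟨16, 3, []⟩, ⟨64, 5, []⟩], [3, 3, 3, 12, 12], 2, [(69, 1), (88, 1), (93, 2)]⟩,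
⟨1, [⟨18, 4, []⟩, ⟨4, 4, []⟩, ⟨64, 4, []⟩], [7], 1, [(70, 1), (84, 1)]⟩,
⟨1, [⟨2, 2, []⟩, ⟨1, 4, []⟩, ⟨4, 2, []⟩, ⟨16, 1, []⟩, ⟨64, 5, []⟩], [7, 9, 9, 12, 12], 2, [(67, 1), (69, 1), (80, 1), (87, 2)]⟩,
⟨0, [⟨16, 2, []⟩, ⟨32, 2, []⟩, ⟨2, 2, []⟩, ⟨4, 4, []⟩], [3, 3, 3, 12, 4, 4], 2, [(6, 1), (48, 1), (54, 2)]⟩,
⟨1, [⟨1, 1, [(40, 1)]⟩, ⟨64, 4, []⟩], [3, 1, 1], 1, [(65, 1), (104, 1)]⟩,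
⟨1, [⟨33, 4, []⟩, ⟨16, 4, []⟩, ⟨64, 4, []⟩], [7], 1, [(81, 1), (112, 1)]⟩,
⟨0, [⟨2, 2, [(96, 1)]⟩, ⟨4, 3, []⟩], [3, 3], 1, [(6, 1), (100, 1)]⟩,
⟨1, [⟨2, 2, []⟩, ⟨1, 4, []⟩, ⟨8, 2, []⟩, ⟨32, 2, []⟩, ⟨64, 5, []⟩], [3, 5, 9, 12, 12], 2, [(67, 1), (73, 1), (97, 1), (104, 1), (107, 2)]⟩,
⟨0, [⟨16, 2, []⟩, ⟨8, 2, [(33, 2)]⟩, ⟨0, 0, [(10, 2)]⟩, ⟨0, 0, [(33, 2)]⟩], [3, 1, 1, 12, 12, 12], 2, [(24, 1), (43, 1), (49, 1), (59, 2)]⟩,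
⟨0, [⟨2, 3, []⟩, ⟨1, 1, [(12, 2)]⟩], [3, 3], 1, [(3, 1), (14, 1)]⟩,
⟨1, [⟨34, 4, []⟩, ⟨16, 4, []⟩, ⟨64, 4, []⟩], [7], 1, [(82, 1), (112, 1)]⟩,
⟨1, [⟨8, 2, []⟩, ⟨16, 4, []⟩, ⟨2, 2, []⟩, ⟨4, 2, []⟩, ⟨64, 5, []⟩], [3, 5, 9, 12, 12], 2, [(70, 1), (82, 1), (84, 1), (88, 1), (94, 2)]⟩,
⟨1, [⟨9, 4, []⟩, ⟨4, 4, []⟩, ⟨64, 4, []⟩], [7], 1, [(69, 1), (76, 1)]⟩,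
⟨0, [⟨4, 3, []⟩, ⟨65, 3, []⟩], [3, 3], 1, [(5, 1), (68, 1)]⟩,
⟨1, [⟨13, 5, []⟩, ⟨2, 3, []⟩, ⟨64, 5, []⟩], [2, 2], 1, [(67, 1), (70, 1), (74, 1)]⟩,
⟨1, [⟨34, 2, []⟩, ⟨8, 4, []⟩], [3, 1, 1], 1, [(10, 1), (40, 1)]⟩,
⟨1, [⟨16, 2, []⟩, ⟨8, 4, []⟩, ⟨4, 1, []⟩, ⟨64, 5, []⟩], [3, 1, 1, 4, 4, 4, 4], 2, [(68, 1), (88, 1), (92, 2)]⟩,
⟨0, [⟨6, 3, []⟩, ⟨1, 3, []⟩], [3, 3], 1, [(3, 1), (5, 1)]⟩,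
⟨1, [⟨8, 3, []⟩, ⟨16, 3, []⟩, ⟨4, 3, []⟩, ⟨2, 2, []⟩, ⟨64, 4, []⟩], [3, 3, 12, 12, 24], 2, [(28, 1), (70, 1), (88, 1), (94, 2)]⟩,
⟨1, [⟨16, 3, []⟩, ⟨32, 3, []⟩, ⟨2, 2, []⟩, ⟨4, 2, []⟩, ⟨64, 3, []⟩], [19, 19, 12, 12, 12], 2, [(6, 1), (112, 1), (118, 2)]⟩,
⟨0, [⟨2, 2, []⟩, ⟨1, 2, [(12, 2)]⟩, ⟨0, 0, [(17, 2)]⟩, ⟨0, 0, [(12, 2)]⟩], [3, 1, 1, 12, 12, 12], 2, [(3, 1), (14, 1), (29, 1), (31, 2)]⟩,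
⟨1, [⟨1, 2, []⟩, ⟨4, 4, []⟩, ⟨2, 2, []⟩, ⟨8, 1, []⟩, ⟨64, 5, []⟩], [7, 9, 9, 12, 12], 2, [(69, 1), (70, 1), (72, 1), (79, 2)]⟩,
⟨0, [⟨20, 3, []⟩, ⟨96, 3, []⟩], [3, 3], 1, [(36, 1), (48, 1), (68, 1), (80, 1)]⟩,
⟨1, [⟨4, 2, []⟩, ⟨1, 4, []⟩, ⟨16, 1, []⟩, ⟨64, 5, []⟩], [3, 1, 1, 4, 4, 4, 4], 2, [(69, 1), (80, 1), (85, 2)]⟩,
⟨0, [⟨8, 2, []⟩, ⟨32, 2, []⟩, ⟨1, 2, []⟩, ⟨2, 4, []⟩], [3, 3, 3, 12, 4, 4], 2, [(3, 1), (40, 1), (43, 2)]⟩,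
⟨0, [⟨32, 2, []⟩, ⟨16, 2, [(9, 2)]⟩, ⟨4, 2, []⟩, ⟨0, 0, [(9, 2)]⟩], [3, 1, 1, 12, 12, 12], 2, [(13, 1), (41, 1), (45, 2), (48, 1)]⟩,
⟨1, [⟨9, 4, []⟩, ⟨36, 4, []⟩, ⟨64, 4, []⟩], [7], 1, [(69, 1), (76, 1), (97, 1), (104, 1)]⟩,
⟨1, [⟨2, 4, []⟩, ⟨1, 2, []⟩], [3, 2, 2], 1, [(3, 1)]⟩,
⟨1, [⟨9, 5, []⟩, ⟨6, 3, []⟩, ⟨64, 5, []⟩], [2, 2], 1, [(67, 1), (69, 1), (74, 1), (76, 1)]⟩,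
⟨1, [⟨16, 2, []⟩, ⟨8, 4, []⟩, ⟨2, 1, []⟩, ⟨64, 5, []⟩], [3, 1, 1, 4, 4, 4, 4], 2, [(66, 1), (88, 1), (90, 2)]⟩,
⟨1, [⟨16, 2, []⟩, ⟨8, 4, []⟩, ⟨1, 2, []⟩, ⟨2, 2, []⟩, ⟨64, 5, []⟩], [3, 5, 9, 12, 12], 2, [(67, 1), (73, 1), (74, 1), (88, 1), (91, 2)]⟩,
⟨1, [⟨34, 4, []⟩, ⟨12, 4, []⟩, ⟨64, 4, []⟩], [7], 1, [(70, 1), (74, 1), (100, 1), (104, 1)]⟩,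
⟨0, [⟨32, 3, []⟩, ⟨16, 1, [(12, 2)]⟩], [3, 3], 1, [(44, 1), (48, 1)]⟩,
⟨1, [⟨8, 3, []⟩, ⟨16, 3, []⟩, ⟨2, 3, []⟩, ⟨4, 2, []⟩, ⟨64, 4, []⟩], [3, 3, 12, 12, 24], 2, [(26, 1), (70, 1), (88, 1), (94, 2)]⟩,
⟨1, [⟨8, 1, [(3, 1)]⟩, ⟨32, 4, []⟩], [3, 1, 1], 1, [(35, 1), (40, 1)]⟩,
⟨1, [⟨2, 3, []⟩, ⟨4, 3, []⟩, ⟨32, 3, []⟩, ⟨8, 2, []⟩, ⟨64, 4, []⟩], [3, 3, 12, 12, 24], 2, [(38, 1), (70, 1), (104, 1), (110, 2)]⟩,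
⟨0, [⟨24, 4, []⟩, ⟨32, 2, []⟩, ⟨2, 2, []⟩, ⟨4, 2, []⟩], [3, 2, 2, 12, 12, 12], 2, [(6, 1), (40, 1), (46, 2), (48, 1), (54, 2)]⟩,
⟨0, [⟨16, 2, []⟩, ⟨8, 2, [(34, 2)]⟩, ⟨0, 0, [(12, 2)]⟩, ⟨0, 0, [(34, 2)]⟩], [3, 1, 1, 12, 12, 12], 2, [(24, 1), (46, 1), (50, 1), (62, 2)]⟩,
⟨0, [⟨16, 3, []⟩, ⟨32, 1, [(12, 2)]⟩], [3, 3], 1, [(28, 1), (48, 1)]⟩,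
⟨0, [⟨3, 2, [(96, 1)]⟩, ⟨4, 3, []⟩], [3, 3], 1, [(5, 1), (6, 1), (100, 1)]⟩,
⟨1, [⟨16, 1, [(5, 1)]⟩, ⟨8, 4, []⟩], [3, 1, 1], 1, [(13, 1), (24, 1)]⟩,
⟨1, [⟨2, 2, []⟩, ⟨4, 4, []⟩, ⟨16, 2, []⟩, ⟨32, 2, []⟩, ⟨64, 5, []⟩], [3, 5, 9, 12, 12], 2, [(70, 1), (84, 1), (100, 1), (112, 1), (118, 2)]⟩,
⟨0, [⟨16, 2, []⟩, ⟨8, 2, [(34, 2)]⟩, ⟨0, 0, [(9, 2)]⟩, ⟨0, 0, [(34, 2)]⟩], [3, 1, 1, 12, 12, 12], 2, [(24, 1), (43, 1), (50, 1), (59, 2)]⟩,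
⟨1, [⟨8, 2, []⟩, ⟨32, 4, []⟩, ⟨1, 1, []⟩, ⟨64, 5, []⟩], [3, 1, 1, 4, 4, 4, 4], 2, [(65, 1), (104, 1), (105, 2)]⟩,
⟨0, [⟨1, 3, []⟩, ⟨2, 2, [(24, 1)]⟩], [3, 3], 1, [(3, 1), (25, 1)]⟩,
⟨0, [⟨2, 2, []⟩, ⟨4, 2, []⟩, ⟨32, 2, []⟩, ⟨16, 4, []⟩], [3, 3, 3, 12, 4, 4], 2, [(6, 1), (48, 1), (54, 2)]⟩,
⟨1, [⟨2, 3, []⟩, ⟨5, 3, []⟩, ⟨8, 3, []⟩, ⟨32, 3, []⟩, ⟨64, 4, []⟩], [3, 3, 12, 12, 16], 2, [(43, 1), (46, 1), (67, 1), (70, 1), (104, 1), (107, 2), (110, 2)]⟩,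
⟨1, [⟨2, 3, []⟩, ⟨4, 3, []⟩, ⟨8, 3, []⟩, ⟨32, 2, []⟩, ⟨64, 4, []⟩], [3, 3, 12, 12, 24], 2, [(14, 1), (70, 1), (104, 1), (110, 2)]⟩,
⟨0, [⟨40, 4, []⟩, ⟨16, 2, []⟩, ⟨1, 2, []⟩, ⟨4, 2, []⟩], [3, 2, 2, 12, 12, 12], 2, [(5, 1), (24, 1), (29, 2), (48, 1), (53, 2)]⟩,
⟨0, [⟨2, 3, []⟩, ⟨1, 2, [(48, 1)]⟩], [3, 3], 1, [(3, 1), (50, 1)]⟩,
⟨1, [⟨10, 4, []⟩, ⟨36, 4, []⟩, ⟨64, 4, []⟩], [7], 1, [(70, 1), (76, 1), (98, 1), (104, 1)]⟩,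
⟨1, [⟨1, 3, []⟩, ⟨4, 3, []⟩, ⟨8, 3, []⟩, ⟨16, 2, []⟩, ⟨64, 4, []⟩], [3, 3, 12, 12, 24], 2, [(13, 1), (69, 1), (88, 1), (93, 2)]⟩,
⟨0, [⟨16, 3, []⟩, ⟨9, 3, []⟩], [3, 3], 1, [(17, 1), (24, 1)]⟩,
⟨1, [⟨8, 2, []⟩, ⟨32, 2, []⟩, ⟨2, 3, []⟩, ⟨4, 3, []⟩, ⟨64, 5, []⟩], [3, 3, 3, 12, 12], 2, [(70, 1), (104, 1), (110, 2)]⟩,
⟨0, [⟨17, 3, []⟩, ⟨36, 3, []⟩], [3, 3], 1, [(5, 1), (20, 1), (33, 1), (48, 1)]⟩,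
⟨0, [⟨6, 4, []⟩, ⟨1, 2, []⟩, ⟨8, 2, []⟩, ⟨32, 2, []⟩], [3, 2, 2, 12, 12, 12], 2, [(3, 1), (5, 1), (40, 1), (43, 2), (45, 2)]⟩,
⟨1, [⟨4, 1, [(40, 1)]⟩, ⟨1, 4, []⟩], [3, 1, 1], 1, [(5, 1), (41, 1)]⟩,
⟨0, [⟨8, 2, [(68, 1)]⟩, ⟨16, 3, []⟩], [3, 3], 1, [(24, 1), (84, 1)]⟩,
⟨1, [⟨4, 2, []⟩, ⟨2, 4, []⟩, ⟨16, 2, []⟩, ⟨32, 2, []⟩, ⟨64, 5, []⟩], [3, 5, 9, 12, 12], 2, [(70, 1), (82, 1), (98, 1), (112, 1), (118, 2)]⟩,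
⟨1, [⟨40, 3, []⟩, ⟨16, 3, []⟩, ⟨4, 3, []⟩, ⟨2, 2, []⟩, ⟨64, 4, []⟩], [3, 3, 12, 12, 24], 2, [(28, 1), (52, 1), (70, 1), (88, 1), (94, 2), (112, 1), (118, 2)]⟩,
⟨0, [⟨100, 3, []⟩, ⟨8, 3, []⟩], [3, 3], 1, [(12, 1), (40, 1), (72, 1)]⟩,
⟨0, [⟨8, 2, [(66, 1)]⟩, ⟨16, 3, []⟩], [3, 3], 1, [(24, 1), (82, 1)]⟩,
⟨1, [⟨2, 2, []⟩, ⟨1, 4, []⟩, ⟨4, 2, []⟩, ⟨8, 1, []⟩, ⟨64, 5, []⟩], [7, 9, 9, 12, 12], 2, [(67, 1), (69, 1), (72, 1), (79, 2)]⟩,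
⟨0, [⟨4, 3, []⟩, ⟨2, 1, [(17, 2)]⟩], [3, 3], 1, [(6, 1), (21, 1)]⟩,
⟨0, [⟨16, 3, []⟩, ⟨8, 1, [(33, 2)]⟩], [3, 3], 1, [(24, 1), (49, 1)]⟩,
⟨1, [⟨16, 2, []⟩, ⟨64, 4, []⟩], [3, 1, 1], 1, [(80, 1)]⟩,
⟨1, [⟨36, 5, []⟩, ⟨3, 3, []⟩, ⟨64, 5, []⟩], [2, 2], 1, [(69, 1), (70, 1), (97, 1), (98, 1)]⟩,
⟨0, [⟨82, 3, []⟩, ⟨1, 3, []⟩], [3, 3], 1, [(3, 1), (17, 1), (65, 1)]⟩,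
⟨0, [⟨16, 3, []⟩, ⟨32, 3, []⟩], [3, 3], 1, [(48, 1)]⟩,
⟨1, [⟨40, 3, []⟩, ⟨16, 3, []⟩, ⟨1, 3, []⟩, ⟨4, 2, []⟩, ⟨64, 4, []⟩], [3, 3, 12, 12, 24], 2, [(25, 1), (49, 1), (69, 1), (88, 1), (93, 2), (112, 1), (117, 2)]⟩,
⟨1, [⟨33, 5, []⟩, ⟨24, 3, []⟩, ⟨64, 5, []⟩], [2, 2], 1, [(73, 1), (81, 1), (104, 1), (112, 1)]⟩,
⟨1, [⟨24, 3, []⟩, ⟨32, 3, []⟩, ⟨1, 3, []⟩, ⟨2, 2, []⟩, ⟨64, 4, []⟩], [3, 3, 12, 12, 24], 2, [(41, 1), (49, 1), (67, 1), (104, 1), (107, 2), (112, 1), (115, 2)]⟩,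
⟨1, [⟨8, 2, []⟩, ⟨16, 2, []⟩, ⟨1, 3, []⟩, ⟨6, 3, []⟩, ⟨64, 5, []⟩], [3, 3, 3, 12, 12], 2, [(67, 1), (69, 1), (88, 1), (91, 2), (93, 2)]⟩,
⟨0, [⟨97, 3, []⟩, ⟨8, 3, []⟩], [3, 3], 1, [(9, 1), (40, 1), (72, 1)]⟩,
⟨0, [⟨1, 2, []⟩, ⟨2, 2, []⟩, ⟨8, 2, []⟩, ⟨16, 4, []⟩], [3, 3, 3, 12, 4, 4], 2, [(3, 1), (24, 1), (27, 2)]⟩,
⟨0, [⟨81, 3, []⟩, ⟨8, 3, []⟩], [3, 3], 1, [(9, 1), (24, 1), (72, 1)]⟩,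
⟨1, [⟨8, 3, []⟩, ⟨32, 3, []⟩, ⟨1, 2, []⟩, ⟨4, 2, []⟩, ⟨64, 3, []⟩], [19, 19, 12, 12, 12], 2, [(5, 1), (104, 1), (109, 2)]⟩,
⟨0, [⟨6, 4, []⟩, ⟨0, 0, [(17, 2)]⟩, ⟨8, 2, []⟩, ⟨96, 2, []⟩], [3, 2, 2, 12, 12, 12], 2, [(19, 1), (21, 1), (40, 1), (59, 2), (61, 2), (72, 1), (91, 2), (93, 2)]⟩,
⟨0, [⟨8, 2, []⟩, ⟨48, 4, []⟩, ⟨2, 2, []⟩, ⟨0, 0, [(36, 2)]⟩], [3, 1, 1, 12, 12, 12], 2, [(24, 1), (38, 1), (40, 1), (46, 2)]⟩,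
⟨1, [⟨8, 3, []⟩, ⟨32, 3, []⟩, ⟨4, 3, []⟩, ⟨1, 2, []⟩, ⟨64, 4, []⟩], [3, 3, 12, 12, 24], 2, [(44, 1), (69, 1), (104, 1), (109, 2)]⟩,
⟨0, [⟨1, 2, []⟩, ⟨4, 2, []⟩, ⟨8, 2, []⟩, ⟨32, 4, []⟩], [3, 3, 3, 12, 4, 4], 2, [(5, 1), (40, 1), (45, 2)]⟩,
⟨1, [⟨0, 0, [(24, 2)]⟩, ⟨32, 4, []⟩], [3, 1, 1], 1, [(56, 1)]⟩,
⟨1, [⟨1, 2, []⟩, ⟨2, 2, []⟩, ⟨8, 3, []⟩, ⟨32, 3, []⟩, ⟨64, 5, []⟩], [3, 3, 3, 12, 12], 2, [(67, 1), (104, 1), (107, 2)]⟩,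
⟨1, [⟨64, 4, []⟩, ⟨0, 0, [(6, 1), (40, 1)]⟩], [3, 2, 2], 1, [(70, 1), (104, 1)]⟩,
⟨0, [⟨32, 2, []⟩, ⟨8, 2, [(18, 2)]⟩, ⟨4, 2, []⟩, ⟨0, 0, [(18, 2)]⟩], [3, 1, 1, 12, 12, 12], 2, [(22, 1), (40, 1), (50, 1), (54, 2)]⟩,
⟨0, [⟨4, 2, []⟩, ⟨2, 2, [(9, 2)]⟩, ⟨16, 2, []⟩, ⟨0, 0, [(9, 2)]⟩], [3, 1, 1, 12, 12, 12], 2, [(6, 1), (13, 1), (25, 1), (29, 2)]⟩,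
⟨1, [⟨6, 3, []⟩, ⟨1, 3, []⟩, ⟨32, 3, []⟩, ⟨8, 2, []⟩, ⟨64, 4, []⟩], [3, 3, 12, 12, 24], 2, [(35, 1), (37, 1), (67, 1), (69, 1), (104, 1), (107, 2), (109, 2)]⟩,
⟨1, [⟨2, 2, []⟩, ⟨4, 2, []⟩, ⟨40, 3, []⟩, ⟨16, 3, []⟩, ⟨64, 3, []⟩], [3, 3, 3, 28, 28], 2, [(6, 1), (88, 1), (94, 2), (112, 1), (118, 2)]⟩,
⟨0, [⟨1, 2, [(80, 1)]⟩, ⟨2, 3, []⟩], [3, 3], 1, [(3, 1), (82, 1)]⟩,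
⟨0, [⟨6, 4, []⟩, ⟨1, 2, []⟩, ⟨16, 2, []⟩, ⟨32, 2, []⟩], [3, 2, 2, 12, 12, 12], 2, [(3, 1), (5, 1), (48, 1), (51, 2), (53, 2)]⟩,
⟨1, [⟨17, 4, []⟩, ⟨34, 4, []⟩, ⟨64, 4, []⟩], [7], 1, [(67, 1), (82, 1), (97, 1), (112, 1)]⟩,
⟨1, [⟨1, 3, []⟩, ⟨6, 3, []⟩, ⟨16, 3, []⟩, ⟨32, 3, []⟩, ⟨64, 4, []⟩], [3, 3, 12, 12, 16], 2, [(51, 1), (53, 1), (67, 1), (69, 1), (112, 1), (115, 2), (117, 2)]⟩,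
⟨1, [⟨18, 4, []⟩, ⟨1, 4, []⟩, ⟨64, 4, []⟩], [7], 1, [(67, 1), (81, 1)]⟩,
⟨1, [⟨5, 3, []⟩, ⟨2, 3, []⟩, ⟨8, 3, []⟩, ⟨32, 2, []⟩, ⟨64, 4, []⟩], [3, 3, 12, 12, 24], 2, [(11, 1), (14, 1), (67, 1), (70, 1), (104, 1), (107, 2), (110, 2)]⟩,
⟨0, [⟨76, 3, []⟩, ⟨32, 3, []⟩], [3, 3], 1, [(36, 1), (40, 1), (96, 1)]⟩,
⟨1, [⟨16, 2, []⟩, ⟨32, 4, []⟩, ⟨2, 2, []⟩, ⟨4, 2, []⟩, ⟨64, 5, []⟩], [3, 5, 9, 12, 12], 2, [(70, 1), (98, 1), (100, 1), (112, 1), (118, 2)]⟩,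
⟨0, [⟨4, 2, []⟩, ⟨3, 4, []⟩, ⟨8, 2, []⟩, ⟨0, 0, [(33, 2)]⟩], [3, 1, 1, 12, 12, 12], 2, [(5, 1), (6, 1), (41, 1), (45, 2)]⟩,
⟨1, [⟨1, 2, []⟩, ⟨2, 4, []⟩, ⟨0, 0, [(48, 1)]⟩, ⟨64, 5, []⟩], [3, 1, 1, 4, 4, 4, 4], 2, [(67, 1), (112, 1), (115, 2)]⟩,
⟨1, [⟨16, 2, []⟩, ⟨32, 2, []⟩, ⟨1, 3, []⟩, ⟨6, 3, []⟩, ⟨64, 5, []⟩], [3, 3, 3, 12, 12], 2, [(67, 1), (69, 1), (112, 1), (115, 2), (117, 2)]⟩,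
⟨0, [⟨3, 2, [(72, 1)]⟩, ⟨4, 3, []⟩], [3, 3], 1, [(5, 1), (6, 1), (76, 1)]⟩,
⟨1, [⟨17, 4, []⟩, ⟨6, 4, []⟩, ⟨64, 4, []⟩], [7], 1, [(67, 1), (69, 1), (82, 1), (84, 1)]⟩,
⟨0, [⟨5, 2, [(96, 1)]⟩, ⟨2, 3, []⟩], [3, 3], 1, [(3, 1), (6, 1), (98, 1)]⟩,
⟨1, [⟨2, 4, []⟩, ⟨0, 0, [(5, 1), (40, 1)]⟩], [3, 2, 2], 1, [(7, 1), (42, 1)]⟩,
⟨1, [⟨2, 3, []⟩, ⟨4, 3, []⟩, ⟨16, 3, []⟩, ⟨32, 2, []⟩, ⟨64, 4, []⟩], [3, 3, 12, 12, 24], 2, [(22, 1), (70, 1), (112, 1), (118, 2)]⟩,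
⟨0, [⟨0, 0, [(33, 2)]⟩, ⟨8, 2, []⟩, ⟨16, 2, []⟩, ⟨70, 4, []⟩], [9, 1, 1, 6, 6, 6], 2, [(24, 1), (35, 1), (37, 1), (59, 2), (61, 2), (97, 1), (121, 2)]⟩,
⟨0, [⟨8, 3, []⟩, ⟨32, 3, []⟩], [3, 3], 1, [(40, 1)]⟩,
⟨1, [⟨0, 0, [(6, 2)]⟩, ⟨64, 4, []⟩], [3, 1, 1], 1, [(70, 1)]⟩,
⟨0, [⟨18, 3, []⟩, ⟨36, 3, []⟩], [3, 3], 1, [(6, 1), (20, 1), (34, 1), (48, 1)]⟩,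
⟨1, [⟨16, 2, []⟩, ⟨32, 4, []⟩, ⟨1, 2, []⟩, ⟨2, 2, []⟩, ⟨64, 5, []⟩], [3, 5, 9, 12, 12], 2, [(67, 1), (97, 1), (98, 1), (112, 1), (115, 2)]⟩,
⟨1, [⟨8, 2, []⟩, ⟨16, 4, []⟩, ⟨32, 2, []⟩, ⟨4, 1, []⟩, ⟨64, 5, []⟩], [7, 9, 9, 12, 12], 2, [(68, 1), (88, 1), (112, 1), (124, 2)]⟩,
⟨0, [⟨98, 3, []⟩, ⟨8, 3, []⟩], [3, 3], 1, [(10, 1), (40, 1), (72, 1)]⟩,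
⟨0, [⟨1, 2, []⟩, ⟨4, 2, []⟩, ⟨32, 2, []⟩, ⟨16, 4, []⟩], [3, 3, 3, 12, 4, 4], 2, [(5, 1), (48, 1), (53, 2)]⟩,
⟨1, [⟨8, 2, []⟩, ⟨16, 2, []⟩, ⟨4, 3, []⟩, ⟨3, 3, []⟩, ⟨64, 5, []⟩], [3, 3, 3, 12, 12], 2, [(69, 1), (70, 1), (88, 1), (93, 2), (94, 2)]⟩,
⟨1, [⟨17, 5, []⟩, ⟨6, 3, []⟩, ⟨64, 5, []⟩], [2, 2], 1, [(67, 1), (69, 1), (82, 1), (84, 1)]⟩,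
⟨1, [⟨12, 4, []⟩, ⟨1, 4, []⟩, ⟨64, 4, []⟩], [7], 1, [(69, 1), (73, 1)]⟩,
⟨1, [⟨18, 4, []⟩, ⟨36, 4, []⟩, ⟨64, 4, []⟩], [7], 1, [(70, 1), (84, 1), (98, 1), (112, 1)]⟩,
⟨1, [⟨1, 3, []⟩, ⟨4, 3, []⟩, ⟨16, 2, []⟩, ⟨32, 2, []⟩, ⟨64, 3, []⟩], [19, 19, 12, 12, 12], 2, [(48, 1), (69, 1), (117, 2)]⟩,
⟨0, [⟨10, 3, []⟩, ⟨36, 3, []⟩], [3, 3], 1, [(6, 1), (12, 1), (34, 1), (40, 1)]⟩,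
⟨1, [⟨1, 2, []⟩, ⟨2, 4, []⟩, ⟨4, 2, []⟩, ⟨16, 1, []⟩, ⟨64, 5, []⟩], [7, 9, 9, 12, 12], 2, [(67, 1), (70, 1), (80, 1), (87, 2)]⟩,
⟨1, [⟨1, 4, []⟩, ⟨4, 4, []⟩, ⟨64, 4, []⟩], [7], 1, [(69, 1)]⟩,
⟨1, [⟨16, 2, []⟩, ⟨32, 2, []⟩, ⟨1, 3, []⟩, ⟨2, 3, []⟩, ⟨64, 5, []⟩], [3, 3, 3, 12, 12], 2, [(67, 1), (112, 1), (115, 2)]⟩,
⟨1, [⟨1, 2, []⟩, ⟨2, 4, []⟩, ⟨16, 1, []⟩, ⟨64, 5, []⟩], [3, 1, 1, 4, 4, 4, 4], 2, [(67, 1), (80, 1), (83, 2)]⟩,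
⟨1, [⟨6, 3, []⟩, ⟨1, 3, []⟩, ⟨16, 3, []⟩, ⟨32, 2, []⟩, ⟨64, 4, []⟩], [3, 3, 12, 12, 24], 2, [(19, 1), (21, 1), (67, 1), (69, 1), (112, 1), (115, 2), (117, 2)]⟩,
⟨0, [⟨16, 3, []⟩, ⟨96, 2, [(3, 1)]⟩], [3, 3], 1, [(19, 1), (48, 1), (80, 1)]⟩,
⟨0, [⟨16, 3, []⟩, ⟨12, 3, []⟩], [3, 3], 1, [(20, 1), (24, 1)]⟩,
⟨0, [⟨3, 3, []⟩, ⟨24, 3, []⟩], [3, 3], 1, [(9, 1), (10, 1), (17, 1), (18, 1)]⟩,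
⟨1, [⟨4, 1, [(24, 1)]⟩, ⟨64, 4, []⟩], [3, 1, 1], 1, [(68, 1), (88, 1)]⟩,
⟨1, [⟨8, 3, []⟩, ⟨32, 3, []⟩, ⟨1, 3, []⟩, ⟨2, 2, []⟩, ⟨64, 4, []⟩], [3, 3, 12, 12, 24], 2, [(41, 1), (67, 1), (104, 1), (107, 2)]⟩,
⟨1, [⟨32, 4, []⟩, ⟨16, 2, []⟩], [3, 2, 2], 1, [(48, 1)]⟩,
⟨1, [⟨1, 2, []⟩, ⟨2, 2, []⟩, ⟨40, 3, []⟩, ⟨16, 3, []⟩, ⟨64, 3, []⟩], [3, 3, 3, 28, 28], 2, [(3, 1), (88, 1), (91, 2), (112, 1), (115, 2)]⟩,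
⟨1, [⟨12, 4, []⟩, ⟨2, 4, []⟩, ⟨64, 4, []⟩], [7], 1, [(70, 1), (74, 1)]⟩,
⟨0, [⟨9, 3, []⟩, ⟨36, 3, []⟩], [3, 3], 1, [(5, 1), (12, 1), (33, 1), (40, 1)]⟩,
⟨0, [⟨1, 2, []⟩, ⟨6, 4, []⟩, ⟨32, 2, []⟩, ⟨0, 0, [(18, 2)]⟩], [3, 1, 1, 12, 12, 12], 2, [(3, 1), (5, 1), (50, 1), (51, 2)]⟩,
⟨0, [⟨8, 2, []⟩, ⟨16, 2, [(34, 2)]⟩, ⟨0, 0, [(20, 2)]⟩, ⟨0, 0, [(34, 2)]⟩], [3, 1, 1, 12, 12, 12], 2, [(24, 1), (42, 1), (54, 1), (62, 2)]⟩,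
⟨1, [⟨32, 2, []⟩, ⟨16, 4, []⟩, ⟨2, 1, []⟩, ⟨64, 5, []⟩], [3, 1, 1, 4, 4, 4, 4], 2, [(66, 1), (112, 1), (114, 2)]⟩,
⟨1, [⟨4, 2, []⟩, ⟨64, 4, []⟩], [3, 1, 1], 1, [(68, 1)]⟩,
⟨1, [⟨16, 2, []⟩, ⟨8, 4, []⟩, ⟨1, 1, []⟩, ⟨64, 5, []⟩], [3, 1, 1, 4, 4, 4, 4], 2, [(65, 1), (88, 1), (89, 2)]⟩,
⟨1, [⟨24, 3, []⟩, ⟨32, 3, []⟩, ⟨4, 3, []⟩, ⟨1, 2, []⟩, ⟨64, 4, []⟩], [3, 3, 12, 12, 24], 2, [(44, 1), (52, 1), (69, 1), (104, 1), (109, 2), (112, 1), (117, 2)]⟩,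
⟨0, [⟨34, 3, []⟩, ⟨20, 3, []⟩], [3, 3], 1, [(6, 1), (18, 1), (36, 1), (48, 1)]⟩,
⟨1, [⟨8, 2, []⟩, ⟨16, 2, []⟩, ⟨6, 3, []⟩, ⟨1, 3, []⟩, ⟨64, 3, []⟩], [3, 3, 3, 28, 28], 2, [(24, 1), (67, 1), (69, 1), (91, 2), (93, 2)]⟩,
⟨0, [⟨73, 3, []⟩, ⟨16, 3, []⟩], [3, 3], 1, [(17, 1), (24, 1), (80, 1)]⟩,
⟨0, [⟨40, 3, []⟩, ⟨18, 3, []⟩], [3, 3], 1, [(10, 1), (24, 1), (34, 1), (48, 1)]⟩,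
⟨0, [⟨9, 3, []⟩, ⟨18, 3, []⟩], [3, 3], 1, [(3, 1), (10, 1), (17, 1), (24, 1)]⟩,
⟨0, [⟨3, 3, []⟩, ⟨40, 3, []⟩], [3, 3], 1, [(9, 1), (10, 1), (33, 1), (34, 1)]⟩,
⟨1, [⟨8, 3, []⟩, ⟨16, 3, []⟩, ⟨1, 3, []⟩, ⟨2, 2, []⟩, ⟨64, 4, []⟩], [3, 3, 12, 12, 24], 2, [(25, 1), (67, 1), (88, 1), (91, 2)]⟩,
⟨0, [⟨4, 2, []⟩, ⟨3, 4, []⟩, ⟨32, 2, []⟩, ⟨0, 0, [(9, 2)]⟩], [3, 1, 1, 12, 12, 12], 2, [(5, 1), (6, 1), (41, 1), (45, 2)]⟩,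
⟨0, [⟨2, 2, []⟩, ⟨1, 2, [(36, 2)]⟩, ⟨0, 0, [(17, 2)]⟩, ⟨0, 0, [(36, 2)]⟩], [3, 1, 1, 12, 12, 12], 2, [(3, 1), (38, 1), (53, 1), (55, 2)]⟩,
⟨1, [⟨1, 3, []⟩, ⟨4, 3, []⟩], [3, 3], 1, [(5, 1)]⟩,
⟨1, [⟨1, 3, []⟩, ⟨2, 3, []⟩, ⟨16, 2, []⟩, ⟨32, 2, []⟩, ⟨64, 3, []⟩], [19, 19, 12, 12, 12], 2, [(48, 1), (67, 1), (115, 2)]⟩,
⟨1, [⟨6, 3, []⟩, ⟨1, 3, []⟩, ⟨32, 3, []⟩, ⟨16, 2, []⟩, ⟨64, 4, []⟩], [3, 3, 12, 12, 24], 2, [(35, 1), (37, 1), (67, 1), (69, 1), (112, 1), (115, 2), (117, 2)]⟩,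
⟨1, [⟨16, 2, []⟩, ⟨8, 4, []⟩, ⟨32, 2, []⟩, ⟨4, 1, []⟩, ⟨64, 5, []⟩], [7, 9, 9, 12, 12], 2, [(68, 1), (88, 1), (104, 1), (124, 2)]⟩,
⟨0, [⟨8, 2, []⟩, ⟨48, 4, []⟩, ⟨2, 2, []⟩, ⟨0, 0, [(17, 2)]⟩], [3, 1, 1, 12, 12, 12], 2, [(19, 1), (24, 1), (27, 2), (40, 1)]⟩,
⟨1, [⟨3, 3, []⟩, ⟨4, 3, []⟩, ⟨16, 3, []⟩, ⟨8, 2, []⟩, ⟨64, 4, []⟩], [3, 3, 12, 12, 24], 2, [(21, 1), (22, 1), (69, 1), (70, 1), (88, 1), (93, 2), (94, 2)]⟩,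
⟨0, [⟨48, 4, []⟩, ⟨8, 2, []⟩, ⟨1, 2, []⟩, ⟨4, 2, []⟩], [3, 2, 2, 12, 12, 12], 2, [(5, 1), (24, 1), (29, 2), (40, 1), (45, 2)]⟩,
⟨1, [⟨8, 2, []⟩, ⟨16, 4, []⟩, ⟨1, 2, []⟩, ⟨2, 2, []⟩, ⟨64, 5, []⟩], [3, 5, 9, 12, 12], 2, [(67, 1), (81, 1), (82, 1), (88, 1), (91, 2)]⟩,
⟨0, [⟨1, 2, []⟩, ⟨2, 2, []⟩, ⟨32, 2, []⟩, ⟨16, 4, []⟩], [3, 3, 3, 12, 4, 4], 2, [(3, 1), (48, 1), (51, 2)]⟩,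
⟨1, [⟨1, 2, []⟩, ⟨2, 4, []⟩, ⟨8, 1, []⟩, ⟨64, 5, []⟩], [3, 1, 1, 4, 4, 4, 4], 2, [(67, 1), (72, 1), (75, 2)]⟩,
⟨1, [⟨2, 1, [(40, 1)]⟩, ⟨64, 4, []⟩], [3, 1, 1], 1, [(66, 1), (104, 1)]⟩,
⟨1, [⟨32, 2, []⟩, ⟨24, 4, []⟩, ⟨0, 0, [(5, 1)]⟩, ⟨64, 5, []⟩], [3, 1, 1, 4, 4, 4, 4], 2, [(69, 1), (104, 1), (109, 2), (112, 1), (117, 2)]⟩,
⟨1, [⟨8, 2, []⟩, ⟨32, 2, []⟩, ⟨5, 3, []⟩, ⟨2, 3, []⟩, ⟨64, 3, []⟩], [3, 3, 3, 28, 28], 2, [(40, 1), (67, 1), (70, 1), (107, 2), (110, 2)]⟩,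
⟨1, [⟨1, 3, []⟩, ⟨6, 3, []⟩, ⟨8, 3, []⟩, ⟨32, 3, []⟩, ⟨64, 4, []⟩], [3, 3, 12, 12, 16], 2, [(43, 1), (45, 1), (67, 1), (69, 1), (104, 1), (107, 2), (109, 2)]⟩,
⟨1, [⟨18, 4, []⟩, ⟨8, 4, []⟩, ⟨64, 4, []⟩], [7], 1, [(74, 1), (88, 1)]⟩,
⟨0, [⟨8, 2, []⟩, ⟨16, 2, []⟩, ⟨2, 2, []⟩, ⟨4, 4, []⟩], [3, 3, 3, 12, 4, 4], 2, [(6, 1), (24, 1), (30, 2)]⟩,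
⟨0, [⟨82, 3, []⟩, ⟨4, 3, []⟩], [3, 3], 1, [(6, 1), (20, 1), (68, 1)]⟩,
⟨0, [⟨16, 3, []⟩, ⟨32, 2, [(6, 1)]⟩], [3, 3], 1, [(22, 1), (48, 1)]⟩,
⟨1, [⟨3, 3, []⟩, ⟨4, 3, []⟩, ⟨16, 3, []⟩, ⟨32, 2, []⟩, ⟨64, 4, []⟩], [3, 3, 12, 12, 24], 2, [(21, 1), (22, 1), (69, 1), (70, 1), (112, 1), (117, 2), (118, 2)]⟩,
⟨0, [⟨1, 2, []⟩, ⟨2, 2, []⟩, ⟨32, 2, []⟩, ⟨8, 4, []⟩], [3, 3, 3, 12, 4, 4], 2, [(3, 1), (40, 1), (43, 2)]⟩,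
⟨1, [⟨32, 2, []⟩, ⟨64, 4, []⟩], [3, 1, 1], 1, [(96, 1)]⟩,
⟨1, [⟨36, 4, []⟩, ⟨3, 4, []⟩, ⟨64, 4, []⟩], [7], 1, [(69, 1), (70, 1), (97, 1), (98, 1)]⟩,
⟨0, [⟨2, 2, []⟩, ⟨4, 2, [(17, 2)]⟩, ⟨32, 2, []⟩, ⟨0, 0, [(17, 2)]⟩], [3, 1, 1, 12, 12, 12], 2, [(6, 1), (19, 1), (49, 1), (51, 2)]⟩,
⟨1, [⟨9, 4, []⟩, ⟨6, 4, []⟩, ⟨64, 4, []⟩], [7], 1, [(67, 1), (69, 1), (74, 1), (76, 1)]⟩,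
⟨1, [⟨8, 3, []⟩, ⟨32, 3, []⟩, ⟨1, 2, []⟩, ⟨2, 2, []⟩, ⟨64, 3, []⟩], [19, 19, 12, 12, 12], 2, [(3, 1), (104, 1), (107, 2)]⟩,
⟨1, [⟨1, 2, []⟩, ⟨4, 2, []⟩, ⟨8, 3, []⟩, ⟨32, 3, []⟩, ⟨64, 5, []⟩], [3, 3, 3, 12, 12], 2, [(69, 1), (104, 1), (109, 2)]⟩,
⟨0, [⟨2, 3, []⟩, ⟨68, 3, []⟩], [3, 3], 1, [(6, 1), (66, 1)]⟩,
⟨1, [⟨33, 3, []⟩, ⟨6, 5, []⟩, ⟨64, 5, []⟩], [1, 1], 1, [(67, 1), (69, 1), (98, 1), (100, 1)]⟩,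
⟨0, [⟨4, 3, []⟩, ⟨1, 2, [(24, 1)]⟩], [3, 3], 1, [(5, 1), (28, 1)]⟩,
⟨0, [⟨5, 3, []⟩, ⟨66, 3, []⟩], [3, 3], 1, [(3, 1), (6, 1), (65, 1), (68, 1)]⟩,
⟨0, [⟨10, 3, []⟩, ⟨20, 3, []⟩], [3, 3], 1, [(6, 1), (12, 1), (18, 1), (24, 1)]⟩,
⟨0, [⟨40, 2, [(68, 1)]⟩, ⟨16, 3, []⟩], [3, 3], 1, [(24, 1), (48, 1), (84, 1)]⟩,
⟨0, [⟨2, 3, []⟩, ⟨65, 3, []⟩], [3, 3], 1, [(3, 1), (66, 1)]⟩,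
⟨1, [⟨17, 4, []⟩, ⟨36, 4, []⟩, ⟨64, 4, []⟩], [7], 1, [(69, 1), (84, 1), (97, 1), (112, 1)]⟩,
⟨1, [⟨5, 4, []⟩, ⟨48, 4, []⟩, ⟨64, 4, []⟩], [7], 1, [(81, 1), (84, 1), (97, 1), (100, 1)]⟩,
⟨1, [⟨32, 1, [(5, 1)]⟩, ⟨64, 4, []⟩], [3, 1, 1], 1, [(69, 1), (96, 1)]⟩,
⟨1, [⟨2, 1, [(40, 1)]⟩, ⟨4, 4, []⟩], [3, 1, 1], 1, [(6, 1), (44, 1)]⟩,
⟨1, [⟨8, 2, []⟩, ⟨32, 2, []⟩, ⟨4, 3, []⟩, ⟨3, 3, []⟩, ⟨64, 5, []⟩], [3, 3, 3, 12, 12], 2, [(69, 1), (70, 1), (104, 1), (109, 2), (110, 2)]⟩,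
⟨1, [⟨1, 3, []⟩, ⟨4, 3, []⟩, ⟨8, 2, []⟩, ⟨16, 2, []⟩, ⟨64, 3, []⟩], [19, 19, 12, 12, 12], 2, [(24, 1), (69, 1), (93, 2)]⟩,
⟨1, [⟨8, 1, [(6, 1)]⟩, ⟨16, 4, []⟩], [3, 1, 1], 1, [(22, 1), (24, 1)]⟩,
⟨1, [⟨32, 1, [(5, 1)]⟩, ⟨16, 2, []⟩, ⟨8, 4, []⟩, ⟨1, 1, []⟩, ⟨64, 3, []⟩], [7, 9, 9, 26, 26], 2, [(13, 1), (40, 1), (65, 1), (88, 1), (93, 2), (121, 2)]⟩,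
⟨0, [⟨8, 3, []⟩, ⟨32, 1, [(17, 2)]⟩], [3, 3], 1, [(25, 1), (40, 1)]⟩,
⟨0, [⟨32, 2, []⟩, ⟨16, 2, [(9, 2)]⟩, ⟨2, 2, []⟩, ⟨0, 0, [(9, 2)]⟩], [3, 1, 1, 12, 12, 12], 2, [(11, 1), (41, 1), (43, 2), (48, 1)]⟩,
⟨1, [⟨1, 3, []⟩, ⟨4, 3, []⟩, ⟨32, 3, []⟩, ⟨8, 2, []⟩, ⟨64, 4, []⟩], [3, 3, 12, 12, 24], 2, [(37, 1), (69, 1), (104, 1), (109, 2)]⟩,
⟨1, [⟨2, 2, []⟩, ⟨4, 4, []⟩, ⟨8, 2, []⟩, ⟨32, 2, []⟩, ⟨64, 5, []⟩], [3, 5, 9, 12, 12], 2, [(70, 1), (76, 1), (100, 1), (104, 1), (110, 2)]⟩,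
⟨1, [⟨32, 1, [(6, 1)]⟩, ⟨8, 4, []⟩], [3, 1, 1], 1, [(14, 1), (40, 1)]⟩,
⟨0, [⟨10, 3, []⟩, ⟨96, 3, []⟩], [3, 3], 1, [(34, 1), (40, 1), (66, 1), (72, 1)]⟩,
⟨0, [⟨16, 3, []⟩, ⟨72, 3, []⟩], [3, 3], 1, [(24, 1), (80, 1)]⟩,
⟨0, [⟨4, 2, []⟩, ⟨1, 2, [(10, 2)]⟩, ⟨0, 0, [(17, 2)]⟩, ⟨0, 0, [(10, 2)]⟩], [3, 1, 1, 12, 12, 12], 2, [(5, 1), (14, 1), (27, 1), (31, 2)]⟩,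
⟨0, [⟨48, 3, []⟩, ⟨8, 3, []⟩], [3, 3], 1, [(24, 1), (40, 1)]⟩,
⟨1, [⟨16, 1, [(3, 1)]⟩, ⟨64, 4, []⟩], [3, 1, 1], 1, [(67, 1), (80, 1)]⟩,
⟨1, [⟨1, 2, []⟩, ⟨4, 2, []⟩, ⟨48, 3, []⟩, ⟨8, 3, []⟩, ⟨64, 3, []⟩], [3, 3, 3, 28, 28], 2, [(5, 1), (88, 1), (93, 2), (104, 1), (109, 2)]⟩,
⟨0, [⟨32, 2, [(66, 1)]⟩, ⟨8, 3, []⟩], [3, 3], 1, [(40, 1), (74, 1)]⟩,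
⟨1, [⟨17, 4, []⟩, ⟨12, 4, []⟩, ⟨64, 4, []⟩], [7], 1, [(69, 1), (73, 1), (84, 1), (88, 1)]⟩,
⟨0, [⟨16, 2, []⟩, ⟨8, 2, [(34, 2)]⟩, ⟨4, 2, []⟩, ⟨0, 0, [(34, 2)]⟩], [3, 1, 1, 12, 12, 12], 2, [(24, 1), (38, 1), (50, 1), (54, 2)]⟩,
⟨1, [⟨48, 3, []⟩, ⟨8, 3, []⟩, ⟨2, 3, []⟩, ⟨1, 2, []⟩, ⟨64, 4, []⟩], [3, 3, 12, 12, 24], 2, [(26, 1), (42, 1), (67, 1), (88, 1), (91, 2), (104, 1), (107, 2)]⟩,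
⟨0, [⟨82, 3, []⟩, ⟨32, 3, []⟩], [3, 3], 1, [(34, 1), (48, 1), (96, 1)]⟩,
⟨1, [⟨16, 2, []⟩, ⟨32, 2, []⟩, ⟨1, 3, []⟩, ⟨4, 3, []⟩, ⟨64, 5, []⟩], [3, 3, 3, 12, 12], 2, [(69, 1), (112, 1), (117, 2)]⟩,
⟨0, [⟨76, 3, []⟩, ⟨1, 3, []⟩], [3, 3], 1, [(5, 1), (9, 1), (65, 1)]⟩,
⟨1, [⟨2, 3, []⟩, ⟨64, 3, []⟩], [3, 3], 1, [(66, 1)]⟩,
⟨1, [⟨32, 1, [(3, 1)]⟩, ⟨16, 2, []⟩, ⟨8, 4, []⟩, ⟨1, 1, []⟩, ⟨64, 3, []⟩], [7, 9, 9, 26, 26], 2, [(11, 1), (40, 1), (65, 1), (88, 1), (91, 2), (121, 2)]⟩,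
⟨0, [⟨2, 2, []⟩, ⟨1, 2, [(20, 2)]⟩, ⟨0, 0, [(33, 2)]⟩, ⟨0, 0, [(20, 2)]⟩], [3, 1, 1, 12, 12, 12], 2, [(3, 1), (22, 1), (53, 1), (55, 2)]⟩,
⟨1, [⟨32, 4, []⟩, ⟨8, 2, []⟩], [3, 2, 2], 1, [(40, 1)]⟩,
⟨0, [⟨97, 3, []⟩, ⟨4, 3, []⟩], [3, 3], 1, [(5, 1), (36, 1), (68, 1)]⟩,
⟨0, [⟨8, 2, []⟩, ⟨16, 2, [(36, 2)]⟩, ⟨0, 0, [(18, 2)]⟩, ⟨0, 0, [(36, 2)]⟩], [3, 1, 1, 12, 12, 12], 2, [(24, 1), (44, 1), (54, 1), (62, 2)]⟩,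
⟨1, [⟨1, 3, []⟩, ⟨2, 3, []⟩, ⟨8, 3, []⟩, ⟨32, 2, []⟩, ⟨64, 4, []⟩], [3, 3, 12, 12, 24], 2, [(11, 1), (67, 1), (104, 1), (107, 2)]⟩,
⟨0, [⟨16, 3, []⟩, ⟨96, 2, [(6, 1)]⟩], [3, 3], 1, [(22, 1), (48, 1), (80, 1)]⟩,
⟨0, [⟨17, 3, []⟩, ⟨66, 3, []⟩], [3, 3], 1, [(3, 1), (18, 1), (65, 1), (80, 1)]⟩,
⟨0, [⟨8, 3, []⟩, ⟨32, 2, [(5, 1)]⟩], [3, 3], 1, [(13, 1), (40, 1)]⟩,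
⟨0, [⟨74, 3, []⟩, ⟨4, 3, []⟩], [3, 3], 1, [(6, 1), (12, 1), (68, 1)]⟩,
⟨0, [⟨0, 0, [(34, 2)]⟩, ⟨8, 2, []⟩, ⟨16, 2, []⟩, ⟨69, 4, []⟩], [9, 1, 1, 6, 6, 6], 2, [(24, 1), (35, 1), (38, 1), (59, 2), (62, 2), (98, 1), (122, 2)]⟩,
⟨0, [⟨16, 2, [(68, 1)]⟩, ⟨32, 3, []⟩], [3, 3], 1, [(48, 1), (100, 1)]⟩,
⟨1, [⟨3, 3, []⟩, ⟨4, 3, []⟩, ⟨32, 3, []⟩, ⟨8, 2, []⟩, ⟨64, 4, []⟩], [3, 3, 12, 12, 24], 2, [(37, 1), (38, 1), (69, 1), (70, 1), (104, 1), (109, 2), (110, 2)]⟩,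
⟨0, [⟨32, 2, []⟩, ⟨16, 2, [(10, 2)]⟩, ⟨0, 0, [(20, 2)]⟩, ⟨0, 0, [(10, 2)]⟩], [3, 1, 1, 12, 12, 12], 2, [(30, 1), (42, 1), (48, 1), (62, 2)]⟩,
⟨1, [⟨16, 2, []⟩, ⟨8, 4, []⟩, ⟨32, 2, []⟩, ⟨2, 1, []⟩, ⟨64, 5, []⟩], [7, 9, 9, 12, 12], 2, [(66, 1), (88, 1), (104, 1), (122, 2)]⟩,
⟨1, [⟨32, 3, []⟩, ⟨24, 3, []⟩, ⟨1, 3, []⟩, ⟨4, 3, []⟩, ⟨64, 4, []⟩], [3, 3, 12, 12, 16], 2, [(45, 1), (53, 1), (69, 1), (104, 1), (109, 2), (112, 1), (117, 2)]⟩,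
⟨1, [⟨2, 3, []⟩, ⟨5, 3, []⟩, ⟨8, 3, []⟩, ⟨16, 3, []⟩, ⟨64, 4, []⟩], [3, 3, 12, 12, 16], 2, [(27, 1), (30, 1), (67, 1), (70, 1), (88, 1), (91, 2), (94, 2)]⟩,
⟨1, [⟨0, 0, [(3, 2)]⟩, ⟨64, 4, []⟩], [3, 1, 1], 1, [(67, 1)]⟩,
⟨0, [⟨24, 2, [(66, 1)]⟩, ⟨32, 3, []⟩], [3, 3], 1, [(40, 1), (48, 1), (98, 1)]⟩,
⟨0, [⟨16, 2, []⟩, ⟨32, 2, []⟩, ⟨4, 2, []⟩, ⟨2, 4, []⟩], [3, 3, 3, 12, 4, 4], 2, [(6, 1), (48, 1), (54, 2)]⟩,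
⟨0, [⟨17, 3, []⟩, ⟨12, 3, []⟩], [3, 3], 1, [(5, 1), (9, 1), (20, 1), (24, 1)]⟩,
⟨0, [⟨1, 3, []⟩, ⟨2, 1, [(36, 2)]⟩], [3, 3], 1, [(3, 1), (37, 1)]⟩,
⟨0, [⟨16, 2, []⟩, ⟨32, 2, []⟩, ⟨4, 2, []⟩, ⟨1, 4, []⟩], [3, 3, 3, 12, 4, 4], 2, [(5, 1), (48, 1), (53, 2)]⟩,
⟨1, [⟨3, 3, []⟩, ⟨4, 3, []⟩, ⟨48, 3, []⟩, ⟨8, 2, []⟩, ⟨64, 4, []⟩], [3, 3, 12, 12, 24], 2, [(21, 1), (22, 1), (37, 1), (38, 1), (69, 1), (70, 1), (88, 1), (93, 2), (94, 2), (104, 1), (109, 2), (110, 2)]⟩,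
⟨0, [⟨3, 3, []⟩, ⟨48, 3, []⟩], [3, 3], 1, [(17, 1), (18, 1), (33, 1), (34, 1)]⟩,
⟨1, [⟨20, 4, []⟩, ⟨3, 4, []⟩, ⟨64, 4, []⟩], [7], 1, [(69, 1), (70, 1), (81, 1), (82, 1)]⟩,
⟨0, [⟨24, 3, []⟩, ⟨33, 3, []⟩], [3, 3], 1, [(9, 1), (17, 1), (40, 1), (48, 1)]⟩,
⟨0, [⟨6, 3, []⟩, ⟨48, 3, []⟩], [3, 3], 1, [(18, 1), (20, 1), (34, 1), (36, 1)]⟩,
⟨0, [⟨4, 3, []⟩, ⟨2, 2, [(40, 1)]⟩], [3, 3], 1, [(6, 1), (44, 1)]⟩,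
⟨1, [⟨1, 2, []⟩, ⟨2, 2, []⟩, ⟨32, 3, []⟩, ⟨24, 3, []⟩, ⟨64, 5, []⟩], [3, 3, 3, 12, 12], 2, [(67, 1), (104, 1), (107, 2), (112, 1), (115, 2)]⟩,
⟨0, [⟨48, 2, [(68, 1)]⟩, ⟨8, 3, []⟩], [3, 3], 1, [(24, 1), (40, 1), (76, 1)]⟩,
⟨1, [⟨10, 5, []⟩, ⟨5, 3, []⟩, ⟨64, 5, []⟩], [2, 2], 1, [(67, 1), (70, 1), (73, 1), (76, 1)]⟩,
⟨0, [⟨2, 2, []⟩, ⟨1, 2, [(36, 2)]⟩, ⟨8, 2, []⟩, ⟨0, 0, [(36, 2)]⟩], [3, 1, 1, 12, 12, 12], 2, [(3, 1), (38, 1), (44, 1), (46, 2)]⟩,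
⟨1, [⟨0, 0, [(48, 2)]⟩, ⟨64, 4, []⟩], [3, 1, 1], 1, [(112, 1)]⟩,
⟨1, [⟨6, 4, []⟩, ⟨48, 4, []⟩, ⟨64, 4, []⟩], [7], 1, [(82, 1), (84, 1), (98, 1), (100, 1)]⟩,
⟨0, [⟨32, 3, []⟩, ⟨16, 1, [(9, 2)]⟩], [3, 3], 1, [(41, 1), (48, 1)]⟩,
⟨1, [⟨1, 1, [(24, 1)]⟩, ⟨64, 4, []⟩], [3, 1, 1], 1, [(65, 1), (88, 1)]⟩,
⟨1, [⟨4, 4, []⟩, ⟨1, 2, []⟩], [3, 2, 2], 1, [(5, 1)]⟩,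
⟨1, [⟨1, 1, [(40, 1)]⟩, ⟨2, 4, []⟩], [3, 1, 1], 1, [(3, 1), (42, 1)]⟩,
⟨0, [⟨17, 3, []⟩, ⟨34, 3, []⟩], [3, 3], 1, [(3, 1), (18, 1), (33, 1), (48, 1)]⟩,
⟨0, [⟨33, 3, []⟩, ⟨12, 3, []⟩], [3, 3], 1, [(5, 1), (9, 1), (36, 1), (40, 1)]⟩,
⟨0, [⟨16, 3, []⟩, ⟨32, 2, [(3, 1)]⟩], [3, 3], 1, [(19, 1), (48, 1)]⟩,
⟨1, [⟨8, 3, []⟩, ⟨32, 3, []⟩, ⟨2, 2, []⟩, ⟨4, 2, []⟩, ⟨64, 3, []⟩], [19, 19, 12, 12, 12], 2, [(6, 1), (104, 1), (110, 2)]⟩,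
⟨0, [⟨3, 4, []⟩, ⟨4, 2, []⟩, ⟨8, 2, []⟩, ⟨32, 2, []⟩], [3, 2, 2, 12, 12, 12], 2, [(5, 1), (6, 1), (40, 1), (45, 2), (46, 2)]⟩,
⟨1, [⟨33, 4, []⟩, ⟨10, 4, []⟩, ⟨64, 4, []⟩], [7], 1, [(67, 1), (73, 1), (98, 1), (104, 1)]⟩,
⟨0, [⟨8, 3, []⟩, ⟨34, 3, []⟩], [3, 3], 1, [(10, 1), (40, 1)]⟩,
⟨0, [⟨1, 3, []⟩, ⟨4, 1, [(10, 2)]⟩], [3, 3], 1, [(5, 1), (11, 1)]⟩,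
⟨1, [⟨20, 2, []⟩, ⟨2, 4, []⟩], [3, 1, 1], 1, [(6, 1), (18, 1)]⟩,
⟨0, [⟨1, 3, []⟩, ⟨34, 3, []⟩], [3, 3], 1, [(3, 1), (33, 1)]⟩,
⟨1, [⟨5, 3, []⟩, ⟨2, 3, []⟩, ⟨32, 3, []⟩, ⟨16, 2, []⟩, ⟨64, 4, []⟩], [3, 3, 12, 12, 24], 2, [(35, 1), (38, 1), (67, 1), (70, 1), (112, 1), (115, 2), (118, 2)]⟩,
⟨0, [⟨48, 3, []⟩, ⟨9, 3, []⟩], [3, 3], 1, [(17, 1), (24, 1), (33, 1), (40, 1)]⟩,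
⟨0, [⟨18, 3, []⟩, ⟨68, 3, []⟩], [3, 3], 1, [(6, 1), (20, 1), (66, 1), (80, 1)]⟩,
⟨1, [⟨12, 4, []⟩, ⟨16, 4, []⟩, ⟨64, 4, []⟩], [7], 1, [(84, 1), (88, 1)]⟩,
⟨1, [⟨22, 5, []⟩, ⟨8, 3, []⟩, ⟨64, 5, []⟩], [2, 2], 1, [(74, 1), (76, 1), (88, 1)]⟩,
⟨0, [⟨32, 3, []⟩, ⟨16, 1, [(10, 2)]⟩], [3, 3], 1, [(42, 1), (48, 1)]⟩,
⟨1, [⟨16, 3, []⟩, ⟨32, 3, []⟩, ⟨1, 3, []⟩, ⟨2, 2, []⟩, ⟨64, 4, []⟩], [3, 3, 12, 12, 24], 2, [(49, 1), (67, 1), (112, 1), (115, 2)]⟩,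
⟨0, [⟨32, 2, [(65, 1)]⟩, ⟨16, 3, []⟩], [3, 3], 1, [(48, 1), (81, 1)]⟩,
⟨1, [⟨4, 2, []⟩, ⟨2, 4, []⟩, ⟨32, 1, []⟩, ⟨64, 5, []⟩], [3, 1, 1, 4, 4, 4, 4], 2, [(70, 1), (96, 1), (102, 2)]⟩,
⟨0, [⟨2, 2, [(96, 1)]⟩, ⟨1, 3, []⟩], [3, 3], 1, [(3, 1), (97, 1)]⟩,
⟨1, [⟨1, 2, []⟩, ⟨2, 4, []⟩, ⟨16, 2, []⟩, ⟨32, 2, []⟩, ⟨64, 5, []⟩], [3, 5, 9, 12, 12], 2, [(67, 1), (82, 1), (98, 1), (112, 1), (115, 2)]⟩,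
⟨1, [⟨48, 3, []⟩, ⟨8, 3, []⟩, ⟨1, 3, []⟩, ⟨4, 2, []⟩, ⟨64, 4, []⟩], [3, 3, 12, 12, 24], 2, [(25, 1), (41, 1), (69, 1), (88, 1), (93, 2), (104, 1), (109, 2)]⟩,
⟨1, [⟨2, 2, []⟩, ⟨4, 2, []⟩, ⟨8, 3, []⟩, ⟨16, 3, []⟩, ⟨64, 5, []⟩], [3, 3, 3, 12, 12], 2, [(70, 1), (88, 1), (94, 2)]⟩,
⟨1, [⟨2, 3, []⟩, ⟨4, 3, []⟩, ⟨8, 2, []⟩, ⟨32, 2, []⟩, ⟨64, 3, []⟩], [19, 19, 12, 12, 12], 2, [(40, 1), (70, 1), (110, 2)]⟩,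
⟨1, [⟨24, 3, []⟩, ⟨32, 3, []⟩, ⟨2, 3, []⟩, ⟨4, 2, []⟩, ⟨64, 4, []⟩], [3, 3, 12, 12, 24], 2, [(42, 1), (50, 1), (70, 1), (104, 1), (110, 2), (112, 1), (118, 2)]⟩,
⟨0, [⟨1, 2, []⟩, ⟨4, 2, []⟩, ⟨32, 2, []⟩, ⟨8, 4, []⟩], [3, 3, 3, 12, 4, 4], 2, [(5, 1), (40, 1), (45, 2)]⟩,
⟨0, [⟨8, 2, []⟩, ⟨16, 2, [(33, 2)]⟩, ⟨0, 0, [(20, 2)]⟩, ⟨0, 0, [(33, 2)]⟩], [3, 1, 1, 12, 12, 12], 2, [(24, 1), (41, 1), (53, 1), (61, 2)]⟩,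
⟨0, [⟨48, 4, []⟩, ⟨8, 2, []⟩, ⟨1, 2, []⟩, ⟨2, 2, []⟩], [3, 2, 2, 12, 12, 12], 2, [(3, 1), (24, 1), (27, 2), (40, 1), (43, 2)]⟩,
⟨0, [⟨1, 2, []⟩, ⟨2, 2, [(20, 2)]⟩, ⟨32, 2, []⟩, ⟨0, 0, [(20, 2)]⟩], [3, 1, 1, 12, 12, 12], 2, [(3, 1), (21, 1), (52, 1), (53, 2)]⟩,
⟨1, [⟨8, 4, []⟩, ⟨16, 2, []⟩], [3, 2, 2], 1, [(24, 1)]⟩,
⟨0, [⟨32, 2, []⟩, ⟨8, 2, [(17, 2)]⟩, ⟨2, 2, []⟩, ⟨0, 0, [(17, 2)]⟩], [3, 1, 1, 12, 12, 12], 2, [(19, 1), (40, 1), (49, 1), (51, 2)]⟩,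
⟨0, [⟨97, 3, []⟩, ⟨2, 3, []⟩], [3, 3], 1, [(3, 1), (34, 1), (66, 1)]⟩,
⟨1, [⟨16, 2, []⟩, ⟨8, 4, []⟩, ⟨2, 2, []⟩, ⟨4, 2, []⟩, ⟨64, 5, []⟩], [3, 5, 9, 12, 12], 2, [(70, 1), (74, 1), (76, 1), (88, 1), (94, 2)]⟩,
⟨1, [⟨5, 4, []⟩, ⟨40, 4, []⟩, ⟨64, 4, []⟩], [7], 1, [(73, 1), (76, 1), (97, 1), (100, 1)]⟩,
⟨0, [⟨48, 3, []⟩, ⟨12, 3, []⟩], [3, 3], 1, [(20, 1), (24, 1), (36, 1), (40, 1)]⟩,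
⟨0, [⟨40, 4, []⟩, ⟨16, 2, []⟩, ⟨2, 2, []⟩, ⟨4, 2, []⟩], [3, 2, 2, 12, 12, 12], 2, [(6, 1), (24, 1), (30, 2), (48, 1), (54, 2)]⟩,
⟨1, [⟨19, 5, []⟩, ⟨8, 3, []⟩, ⟨64, 5, []⟩], [2, 2], 1, [(73, 1), (74, 1), (88, 1)]⟩,
⟨0, [⟨1, 3, []⟩, ⟨2, 2, [(48, 1)]⟩], [3, 3], 1, [(3, 1), (49, 1)]⟩,
⟨1, [⟨32, 2, []⟩, ⟨8, 4, []⟩, ⟨2, 1, []⟩, ⟨64, 5, []⟩], [3, 1, 1, 4, 4, 4, 4], 2, [(66, 1), (104, 1), (106, 2)]⟩,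
⟨1, [⟨1, 2, []⟩, ⟨2, 2, []⟩, ⟨48, 3, []⟩, ⟨8, 3, []⟩, ⟨64, 3, []⟩], [3, 3, 3, 28, 28], 2, [(3, 1), (88, 1), (91, 2), (104, 1), (107, 2)]⟩,
⟨1, [⟨1, 3, []⟩, ⟨2, 3, []⟩, ⟨8, 3, []⟩, ⟨16, 2, []⟩, ⟨64, 4, []⟩], [3, 3, 12, 12, 24], 2, [(11, 1), (67, 1), (88, 1), (91, 2)]⟩,
⟨1, [⟨20, 4, []⟩, ⟨8, 4, []⟩, ⟨64, 4, []⟩], [7], 1, [(76, 1), (88, 1)]⟩,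
⟨0, [⟨2, 3, []⟩, ⟨4, 2, [(48, 1)]⟩], [3, 3], 1, [(6, 1), (50, 1)]⟩]

theorem base_ok : base.all (fun q => q.ok 7 2 [7, 56] [12, 2000, 2000, 2000] big4 []) = true := by
  decide +kernel

theorem gv_ok : gv.all (fun c => c.ok 1 11) = true := by decide +kernel

theorem gads_ok : gads.all (fun g => g.okV 7 2 [4, 2]) = true := by decide +kernel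

theorem cmp_ok : cmpR names cnf (clsu 2 base ++ (gv.map Gv.cl ++ gads.map Gt.cl)) = true := by
  decide +kernel

end DG02

theorem instl_02 : instL 1 2 [4, 2] [] 12 11 DG02.base DG02.gv DG02.gads DG02.names DG02.cnf DG02.db DG02.prf = true :=
  instL_of DG02.base_ok DG02.gv_ok DG02.gads_ok (by decide +kernel) DG02.okc DG02.cmp_ok DG02.chk_ok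

/-- there is no configuration of this instance. -/
theorem nol_02 {V : Type v} [DecidableEq V] {ι : Type u} [Fintype ι] {B : ι → Finset V}
    {Q : Finset V} {x : ℕ → V} {C : ℕ → Finset V}
    (h : CfL B Q 1 2 x C [4, 2] [] 12 11) : False :=
  h.absurd instl_02

end Pool.Agent.Hyp6
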