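import Pool.Agent.Hyp6.CfGb
import Pool.Agent.Hyp6.InsG.F07

/-!
# HYP6: leaf instance 7: n = 1, r = 2, bounds [2, 0], inner blocks [3]

621 base clauses, 33 given clauses, 202 gadgets, 553 learned clauses.
-/

set_option autoImplicit false
set_option maxRecDepth 100000

namespace Pool.Agent.Hyp6

open Rup

universe u v

namespace DG07

noncomputable def base : List Ru := [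
.rs (.deg 4 [0, 3]),
.rs (.join 1 1 4 3 3 1 [(0, 1)]),
.rs (.le 0 40 32 5 1),
.rs (.join 0 8 4 4 1 3 [(3, 0)]),
.rs (.l2 0 80 96 6 1 1),
.rs (.lipl 0 34 51 1 17),
.rs (.part [6, 65] [0, 0] [56] []),
.rs (.lipl 1 74 110 0 36),
.rs (.lip 1 48 55 7),
.rs (.join 0 2 4 3 1 2 [(1, 0)]),
.rs (.l2 0 9 40 3 2 1),
.rs (.ab2 0 72),
.rs (.lipl 0 10 30 0 20),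
.rs (.join 0 20 5 4 4 0 [(2, 0), (4, 0)]),
.rs (.slot 0 [(1, 2), (2, 4), (5, 2), (3, 3)]),
.rs (.le 1 5 1 0 2),
.rs (.join 0 2 2 2 0 3 [(1, 1)]),
.rs (.l2 1 34 40 5 2 1),
.rs (.join 0 16 5 2 2 0 [(4, 0)]),
.rs (.join 0 12 5 4 2 2 [(2, 0), (3, 0)]),
.rs (.join 0 32 6 2 2 1 [(5, 1)]),
.rs (.join 0 8 4 4 3 1 [(3, 0)]),
.rs (.join 1 1 1 3 2 2 [(0, 1)]),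
.rs (.join 0 8 4 3 1 2 [(3, 0)]),
.rs (.slot 0 [(0, 1), (2, 4), (3, 3), (4, 2), (6, 1)]),
.rs (.slot 0 [(0, 2), (2, 4), (5, 2), (4, 3)]),
.rs (.join 1 1 4 3 2 2 [(0, 1)]),
.rs (.join 0 1 2 3 0 3 [(0, 0)]),
.rs (.slot 0 [(0, 1), (2, 1), (3, 3), (4, 3), (5, 3)]),
.rs (.slot 0 [(0, 1), (1, 1), (2, 2), (3, 2), (5, 2), (4, 3)]),
.rs (.lipl 1 21 93 0 72),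
.rs (.join 0 8 4 2 0 2 [(3, 0)]),
.rs (.join 1 1 3 3 2 1 [(0, 0)]),
.rs (.join 0 2 3 3 3 2 [(1, 2)]),
.rs (.l2 0 72 80 6 1 1),
.rs (.l2 1 9 40 3 2 1),
.rs (.join 1 2 3 3 2 1 [(1, 0)]),
.rs (.slot 0 [(1, 1), (0, 2), (2, 3), (4, 2), (5, 3)]),
.rs (.ab 0 4),
.rs (.le 0 80 64 6 2),
.rs (.join 0 1 4 3 3 0 [(0, 0)]),
.rs (.part [20, 107] [0, 1] [] []),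
.rs (.join 0 4 3 4 2 2 [(2, 0)]),
.rs (.lip 0 72 77 7),
.rs (.le 0 72 64 6 2),
.rs (.part [48, 73] [0, 0] [6] []),
.rs (.lipl 1 82 94 1 12),
.rs (.part [5, 66] [0, 0] [56] []),
.rs (.ab2 0 17),
.rs (.un 0 4),
.rs (.l2 1 12 20 2 1 2),
.rs (.lipl 0 10 27 1 17),
.rs (.lip 1 70 94 56),
.rs (.slot 0 [(1, 2), (2, 3), (3, 2), (4, 2), (5, 2)]),
.rs (.slot 0 [(0, 1), (1, 2), (2, 3), (5, 2), (4, 3)]),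
.rs (.join 0 1 3 4 1 3 [(0, 0)]),
.rs (.le 1 10 8 3 3),
.rs (.join 0 12 5 4 4 0 [(2, 0), (3, 0)]),
.rs (.lipl 0 20 29 1 9),
.rs (.slot 0 [(0, 1), (2, 4), (4, 1), (3, 3), (5, 2)]),
.rs (.part [40, 84] [0, 0] [3] []),
.rs (.lipl 0 10 43 0 33),
.rs (.mono 1 68 100 1),
.rs (.un 0 0),
.rs (.le 0 36 32 5 1),
.rs (.l2 0 40 72 3 2 1),
.rs (.lip 1 69 117 56),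
.rs (.le 1 34 32 5 2),
.rs (.le 0 5 1 0 1),
.rs (.lipl 0 33 45 1 12),
.rs (.l2 1 36 40 5 2 1),
.rs (.ab2 1 48),
.rs (.lipl 0 36 53 1 17),
.rs (.lip 0 80 86 7),
.rs (.part [43, 84] [1, 0] [] []),
.rs (.join 1 4 5 3 2 1 [(2, 0)]),
.rs (.l2 1 5 9 0 1 2),
.rs (.join 0 24 6 3 3 0 [(3, 0), (4, 0)]),
.rs (.le 0 17 1 0 1),
.rs (.deg 0 [0, 2]),
.rs (.join 0 4 3 2 2 0 [(2, 0)]),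
.rs (.deg 0 [1, 1]),
.rs (.mono 0 2 34 1),
.rs (.l2 1 12 24 3 2 1),
.rs (.part [30, 97] [1, 0] [] []),
.rs (.l2 1 12 40 3 1 2),
.rs (.join 0 5 5 4 4 0 [(0, 0), (2, 0)]),
.rs (.lipl 0 9 29 0 20),
.rs (.deg 6 [0, 4]),
.rs (.le 0 24 16 4 2),
.rs (.slot 0 [(0, 1), (2, 4), (5, 1), (4, 3), (3, 2)]),
.rs (.join 0 2 4 3 2 2 [(1, 1)]),
.rs (.le 0 34 2 1 1),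
.rs (.ordE 0 2 1),
.rs (.lipl 0 33 53 0 20),
.rs (.join 0 1 1 2 1 1 [(0, 0)]),
.rs (.part [24, 98] [0, 0] [5] []),
.rs (.l2 0 17 20 4 1 3),
.rs (.l2 1 5 9 0 2 1),
.rs (.lip 1 88 91 7),
.rs (.join 1 2 4 3 2 1 [(1, 0)]),
.rs (.slot 0 [(0, 1), (2, 4), (4, 3), (5, 2), (6, 1)]),
.rs (.join 0 40 6 3 2 1 [(3, 0), (5, 0)]),
.rs (.join 1 1 4 3 3 2 [(0, 2)]),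
.rs (.join 1 4 3 3 2 2 [(2, 1)]),
.rs (.slot 0 [(1, 2), (2, 4), (3, 2), (5, 3)]),
.rs (.ab2 0 96),
.degU 0 [(0, 3), (1, 1)],
.rs (.lipl 1 21 117 0 96),
.rs (.part [77, 50] [1, 0] [] []),
.rs (.le 1 10 8 3 2),
.rs (.lipl 0 10 43 1 33),
.rs (.ab2 0 9),
.rs (.le 0 17 16 4 3),
.rs (.l2 1 17 24 4 2 1),
.rs (.l2 1 17 18 4 1 1),
.rs (.join 1 1 2 3 1 3 [(0, 1)]),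
.rs (.join 0 6 4 4 2 2 [(1, 0), (2, 0)]),
.rs (.l2 1 20 48 4 1 2),
.rs (.lipl 0 20 53 1 33),
.rs (.le 1 33 32 5 2),
.rs (.ordE 0 2 2),
.rs (.le 0 40 8 3 3),
.rs (.lipl 0 9 29 1 20),
.rs (.join 0 6 5 4 4 0 [(1, 0), (2, 0)]),
.rs (.l2 1 10 34 1 2 1),
.rs (.lipl 0 18 54 1 36),
.rs (.le 0 9 8 3 1),
.rs (.join 0 32 6 2 2 0 [(5, 0)]),
.rs (.part [24, 97] [0, 0] [6] []),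
.rs (.l2 1 33 40 5 1 1),
.rs (.join 0 2 3 4 1 3 [(1, 0)]),
.rs (.join 0 4 6 4 4 0 [(2, 0)]),
.rs (.join 0 4 4 2 2 0 [(2, 0)]),
.rs (.join 0 1 2 2 0 2 [(0, 0)]),
.rs (.l2 1 3 9 0 2 1),
.rs (.deg 1 [0, 2]),
.rs (.lipl 1 19 115 0 96),
.rs (.l2 1 34 40 5 1 1),
.rs (.slot 0 [(1, 1), (2, 1), (3, 3), (4, 3), (5, 3)]),
.rs (.lipl 1 70 79 0 9),
.rs (.lipl 0 18 54 0 36),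
.rs (.join 1 8 4 3 2 2 [(3, 1)]),
.rs (.lipl 0 17 51 1 34),
.rs (.join 0 1 4 3 1 2 [(0, 0)]),
.rs (.lipl 0 18 51 1 33),
.rs (.lipl 1 37 117 0 80),
.rs (.deg 6 [1, 3]),
.rs (.join 1 2 5 3 2 2 [(1, 1)]),
.rs (.join 0 1 1 3 1 2 [(0, 0)]),
.rs (.mono 0 2 6 1),
.rs (.mono 1 68 76 1),
.rs (.part [101, 26] [1, 0] [] []),
.rs (.l2 1 9 24 3 1 1),
.rs (.lip 1 104 111 7),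
.rs (.join 0 4 3 2 3 0 [(2, 1)]),
.rs (.part [78, 49] [1, 0] [] []),
.rs (.ab 0 2),
.rs (.slot 0 [(0, 2), (2, 4), (5, 2), (3, 3)]),
.rs (.l2 0 3 18 1 1 1),
.rs (.part [83, 44] [1, 0] [] []),
.rs (.l2 1 12 20 2 2 1),
.rs (.ab2 0 36),
.rs (.le 0 80 64 6 1),
.rs (.le 0 96 64 6 1),
.rs (.join 0 5 3 4 4 0 [(0, 0), (2, 0)]),
.rs (.lipl 0 34 51 0 17),
.rs (.mono 1 65 81 1),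
.rs (.mono 1 1 3 1),
.rs (.le 1 34 32 5 3),
.rs (.join 0 8 4 2 2 2 [(3, 2)]),
.rs (.ab 0 6),
.rs (.le 0 24 16 4 3),
.rs (.ab 0 5),
.rs (.join 0 12 4 4 4 0 [(2, 0), (3, 0)]),
.rs (.l2 0 48 96 5 2 1),
.rs (.join 0 6 5 4 2 2 [(1, 0), (2, 0)]),
.rs (.hall [0] [1, 2, 6]),
.rs (.join 0 2 2 2 0 2 [(1, 0)]),
.rs (.join 0 2 3 3 1 2 [(1, 0)]),
.rs (.join 0 4 4 4 2 2 [(2, 0)]),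
.rs (.l2 1 18 34 1 1 2),
.rs (.l2 1 17 48 4 2 1),
.rs (.slot 0 [(1, 1), (0, 2), (2, 3), (3, 2), (4, 3)]),
.rs (.join 0 24 6 3 3 1 [(3, 0), (4, 1)]),
.rs (.deg 4 [2, 1]),
.rs (.join 0 1 2 2 1 1 [(0, 0)]),
.rs (.lipl 0 18 30 0 12),
.rs (.deg 4 [1, 2]),
.rs (.join 0 48 6 3 3 1 [(4, 1), (5, 0)]),
.rs (.l2 1 10 40 3 2 1),
.rs (.join 0 1 2 4 1 3 [(0, 0)]),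
.rs (.lipl 1 14 110 0 96),
.rs (.join 1 1 5 3 2 2 [(0, 1)]),
.rs (.un 0 1),
.rs (.join 0 16 5 2 0 2 [(4, 0)]),
.rs (.join 1 4 4 3 2 1 [(2, 0)]),
.rs (.slot 0 [(1, 1), (0, 2), (2, 3), (5, 2), (3, 3)]),
.rs (.ordE 0 16 1),
.rs (.mono 1 2 3 1),
.rs (.lipl 0 17 27 1 10),
.rs (.part [48, 74] [0, 0] [5] []),
.rs (.lipl 0 33 51 0 18),
.rs (.join 1 1 5 3 3 1 [(0, 1)]),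
.rs (.ab2 0 68),
.rs (.slot 0 [(0, 2), (2, 4), (3, 2), (5, 3)]),
.rs (.le 0 48 16 4 3),
.rs (.join 0 5 4 4 3 3 [(0, 0), (2, 2)]),
.rs (.join 0 12 4 4 2 2 [(2, 0), (3, 0)]),
.rs (.join 1 8 4 3 1 2 [(3, 0)]),
.rs (.join 0 8 5 2 2 1 [(3, 1)]),
.rs (.le 1 9 8 3 2),
.rs (.l2 0 18 20 4 1 3),
.rs (.ab2 0 12),
.rs (.l2 1 20 24 4 1 2),
.rs (.mono 1 66 74 1),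
.rs (.part [51, 76] [1, 0] [] []),
.rs (.deg 2 [3, 0]),
.rs (.slot 0 [(0, 1), (1, 2), (2, 3), (4, 2), (5, 3)]),
.rs (.mono 1 66 82 1),
.rs (.lipl 0 34 54 1 20),
.rs (.join 1 4 3 3 2 1 [(2, 0)]),
.rs (.lip 1 69 109 56),
.rs (.mono 0 8 9 1),
.rs (.join 0 36 6 4 5 0 [(2, 0), (5, 1)]),
.rs (.l2 1 5 17 0 2 1),
.rs (.le 0 20 16 4 1),
.rs (.l2 0 10 24 3 1 2),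
.rs (.part [40, 80] [0, 0] [7] []),
.rs (.le 0 3 2 1 1),
.rs (.join 1 1 2 3 2 1 [(0, 0)]),
.rs (.le 0 48 32 5 1),
.rs (.join 0 5 4 4 4 0 [(0, 0), (2, 0)]),
.rs (.part [16, 111] [0, 1] [] []),
.rs (.join 0 24 6 3 2 1 [(3, 0), (4, 0)]),
.rs (.l2 0 3 10 1 1 1),
.rs (.le 0 18 2 1 1),
.rs (.join 1 2 5 3 3 2 [(1, 2)]),
.rs (.slot 0 [(0, 1), (2, 4), (4, 1), (5, 3), (3, 2)]),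
.rs (.l2 0 34 40 5 2 1),
.rs (.ordE 1 16 2),
.rs (.lip 1 70 110 56),
.rs (.lipl 0 9 45 0 36),
.rs (.lipl 0 17 29 1 12),
.rs (.join 1 1 5 3 1 2 [(0, 0)]),
.rs (.join 0 4 4 4 1 3 [(2, 0)]),
.rs (.ordE 1 4 2),
.rs (.lipl 0 18 30 1 12),
.rs (.join 0 8 5 2 0 2 [(3, 0)]),
.rs (.lip 0 72 75 7),
.rs (.ordE 0 64 2),
.rs (.hall [0] [0, 1, 2]),
.rs (.slot 0 [(1, 1), (0, 2), (2, 3), (3, 2), (5, 3)]),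
.rs (.ab2 0 80),
.rs (.le 0 5 1 0 2),
.rs (.le 1 9 8 3 3),
.rs (.part [18, 109] [0, 1] [] []),
.rs (.part [27, 100] [1, 0] [] []),
.rs (.lipl 0 18 27 1 9),
.rs (.slot 0 [(0, 1), (1, 2), (2, 4), (3, 2), (5, 2)]),
.rs (.join 1 2 2 3 0 3 [(1, 0)]),
.rs (.lipl 0 36 46 1 10),
.rs (.part [33, 94] [0, 1] [] []),
.rs (.lipl 1 35 107 0 72),
.rs (.join 0 1 1 2 0 2 [(0, 0)]),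
.rs (.lip 1 56 62 7),
.rs (.ab2 0 40),
.rs (.le 0 3 1 0 1),
.rs (.deg 3 [1, 2]),
.rs (.join 1 2 5 3 2 1 [(1, 0)]),
.rs (.un 1 0),
.rs (.part [29, 98] [1, 0] [] []),
.rs (.le 0 6 2 1 1),
.rs (.join 0 5 3 4 3 3 [(0, 0), (2, 2)]),
.rs (.part [46, 81] [1, 0] [] []),
.rs (.part [8, 119] [0, 1] [] []),
.rs (.le 0 17 16 4 1),
.rs (.lipl 1 37 109 0 72),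
.rs (.un 1 1),
.rs (.join 0 48 6 3 2 1 [(4, 0), (5, 0)]),
.degU 0 [(0, 2), (1, 2)],
.rs (.join 1 2 5 3 3 1 [(1, 1)]),
.rs (.join 1 1 2 3 2 2 [(0, 1)]),
.rs (.slot 0 [(0, 2), (1, 2), (3, 2), (5, 2), (4, 3)]),
.rs (.l2 1 36 48 5 2 1),
.rs (.join 1 1 4 3 1 2 [(0, 0)]),
.rs (.part [66, 61] [0, 1] [] []),
.rs (.lipl 0 17 51 0 34),
.rs (.deg 3 [2, 1]),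
.rs (.l2 0 48 80 4 2 1),
.rs (.part [48, 76] [0, 0] [3] []),
.rs (.mono 0 2 3 1),
.rs (.slot 0 [(1, 1), (2, 4), (5, 3), (4, 2), (6, 1)]),
.rs (.ab2 0 10),
.rs (.l2 1 10 40 3 1 1),
.rs (.join 0 1 5 3 1 2 [(0, 0)]),
.rs (.part [4, 67] [0, 0] [56] []),
.rs (.lipl 0 17 27 0 10),
.rs (.join 0 2 2 4 1 3 [(1, 0)]),
.rs (.le 0 10 8 3 3),
.rs (.slot 0 [(0, 1), (1, 1), (3, 3), (4, 3), (5, 3)]),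
.rs (.deg 6 [3, 1]),
.rs (.lipl 0 20 54 1 34),
.degU 2 [(0, 3), (1, 2)],
.degU 5 [(0, 2), (1, 3)],
.rs (.slot 0 [(1, 1), (2, 4), (3, 3), (5, 2), (6, 1)]),
.rs (.ab2 0 5),
.rs (.le 0 12 8 3 2),
.rs (.part [102, 25] [1, 0] [] []),
.rs (.slot 0 [(1, 2), (2, 4), (5, 2), (4, 3)]),
.rs (.part [40, 87] [0, 1] [] []),
.rs (.lipl 1 14 94 0 80),
.rs (.slot 0 [(0, 2), (2, 3), (3, 2), (4, 2), (5, 2)]),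
.rs (.lip 0 96 102 7),
.rs (.l2 1 17 24 4 1 1),
.rs (.lipl 0 34 46 1 12),
.rs (.deg 5 [3, 0]),
.rs (.join 0 8 5 2 2 2 [(3, 2)]),
.rs (.join 0 5 5 4 2 2 [(0, 0), (2, 0)]),
.rs (.slot 0 [(1, 1), (0, 2), (2, 3), (4, 2), (3, 3)]),
.rs (.lipl 1 11 107 0 96),
.rs (.le 0 40 8 3 1),
.rs (.mono 0 2 18 1),
.rs (.ordE 1 32 2),
.rs (.l2 0 9 12 3 1 3),
.rs (.join 0 16 5 3 2 2 [(4, 1)]),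
.rs (.ordE 0 1 1),
.rs (.join 0 1 4 3 3 2 [(0, 2)]),
.rs (.join 0 2 5 4 1 3 [(1, 0)]),
.rs (.mono 0 8 24 1),
.rs (.mono 0 1 3 1),
.rs (.l2 0 18 48 4 2 1),
.rs (.part [32, 95] [0, 1] [] []),
.rs (.join 0 16 5 4 1 3 [(4, 0)]),
.rs (.ordE 1 32 3),
.rs (.join 1 2 5 3 1 2 [(1, 0)]),
.rs (.slot 0 [(0, 1), (3, 3), (4, 3), (5, 3), (6, 1)]),
.rs (.l2 1 5 33 0 1 2),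
.rs (.lipl 1 38 118 0 80),
.rs (.lipl 0 10 27 0 17),
.rs (.ab2 1 24),
.rs (.l2 1 10 24 3 1 1),
.rs (.join 0 2 5 4 2 2 [(1, 0)]),
.rs (.lipl 0 17 53 1 36),
.rs (.lip 1 40 47 7),
.rs (.l2 1 20 48 4 2 1),
.rs (.ordE 0 64 3),
.rs (.lip 0 96 101 7),
.rs (.slot 0 [(1, 2), (2, 4), (4, 2), (5, 3)]),
.rs (.join 0 1 2 2 0 3 [(0, 1)]),
.rs (.join 0 1 1 2 2 0 [(0, 0)]),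
.rs (.deg 5 [1, 2]),
.rs (.hall [0] [3, 4, 5]),
.rs (.join 1 1 3 3 3 1 [(0, 1)]),
.rs (.join 1 1 5 3 3 2 [(0, 2)]),
.rs (.ab2 0 24),
.rs (.slot 0 [(0, 1), (1, 2), (2, 1), (3, 2), (5, 3), (4, 2)]),
.rs (.join 1 8 4 3 2 1 [(3, 0)]),
.rs (.slot 0 [(0, 1), (1, 2), (2, 1), (3, 2), (4, 3), (5, 2)]),
.rs (.slot 0 [(0, 2), (1, 2), (4, 2), (5, 2), (3, 3)]),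
.rs (.part [72, 55] [0, 1] [] []),
.rs (.join 0 20 5 4 2 2 [(2, 0), (4, 0)]),
.rs (.join 1 4 3 3 1 2 [(2, 0)]),
.rs (.l2 1 18 24 4 1 1),
.rs (.l2 1 6 18 1 2 1),
.rs (.lipl 0 18 51 0 33),
.rs (.join 1 2 3 3 2 2 [(1, 1)]),
.rs (.join 1 4 5 3 1 2 [(2, 0)]),
.rs (.le 1 6 2 1 1),
.rs (.lip 0 80 85 7),
.rs (.lipl 0 10 46 1 36),
.rs (.lipl 1 13 109 0 96),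
.rs (.mono 0 16 24 1),
.rs (.hall [0] [0, 2, 6]),
.rs (.join 1 1 2 3 0 3 [(0, 0)]),
.rs (.part [40, 81] [0, 0] [6] []),
.rs (.join 1 16 5 3 2 1 [(4, 0)]),
.rs (.lipl 0 17 29 0 12),
.rs (.l2 0 9 24 3 1 2),
.rs (.l2 1 18 48 4 2 1),
.rs (.l2 0 3 34 1 1 1),
.rs (.join 0 5 4 4 3 1 [(0, 0), (2, 0)]),
.rs (.join 0 6 4 4 3 3 [(1, 0), (2, 2)]),
.rs (.part [68, 3] [0, 0] [56] []),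
.rs (.join 0 6 3 4 4 0 [(1, 0), (2, 0)]),
.rs (.l2 0 6 34 1 1 1),
.rs (.join 1 2 3 3 3 1 [(1, 1)]),
.rs (.deg 3 [0, 3]),
.rs (.mono 1 3 67 1),
.rs (.join 1 1 4 3 2 1 [(0, 0)]),
.degU 1 [(0, 2), (1, 2)],
.rs (.lipl 0 33 51 1 18),
.rs (.lip 1 56 59 7),
.rs (.lipl 0 33 43 0 10),
.rs (.slot 0 [(1, 2), (2, 4), (3, 2), (4, 3)]),
.rs (.slot 0 [(0, 2), (2, 4), (3, 2), (4, 3)]),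
.degU 3 [(0, 3), (1, 2)],
.rs (.join 0 6 3 4 3 3 [(1, 0), (2, 2)]),
.rs (.join 0 16 6 2 2 1 [(4, 1)]),
.rs (.part [68, 59] [0, 1] [] []),
.rs (.ordE 0 4 1),
.rs (.ab 0 3),
.rs (.ordE 0 8 1),
.rs (.join 1 16 5 3 2 2 [(4, 1)]),
.rs (.mono 0 1 9 1),
.rs (.l2 0 40 96 5 2 1),
.rs (.part [64, 63] [0, 1] [] []),
.rs (.l2 0 10 12 3 1 3),
.rs (.ordE 0 8 2),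
.rs (.part [53, 74] [1, 0] [] []),
.rs (.part [10, 117] [0, 1] [] []),
.rs (.lipl 1 38 110 0 72),
.rs (.part [3, 68] [0, 0] [56] []),
.rs (.slot 0 [(1, 1), (2, 4), (5, 3), (3, 2), (6, 1)]),
.rs (.join 0 40 6 3 3 1 [(3, 0), (5, 1)]),
.rs (.join 0 1 2 2 1 2 [(0, 1)]),
.rs (.part [48, 72] [0, 0] [7] []),
.rs (.join 1 4 4 3 2 2 [(2, 1)]),
.rs (.le 0 10 2 1 1),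
.rs (.join 0 1 4 4 1 3 [(0, 0)]),
.rs (.lipl 1 19 91 0 72),
.rs (.mono 0 2 10 1),
.rs (.l2 1 12 36 2 2 1),
.rs (.join 0 8 5 4 3 1 [(3, 0)]),
.rs (.l2 1 33 48 5 2 1),
.degU 4 [(0, 3), (1, 2)],
.rs (.ordE 1 16 1),
.rs (.lip 1 56 63 7),
.rs (.part [85, 42] [1, 0] [] []),
.rs (.join 1 2 2 3 1 3 [(1, 1)]),
.rs (.join 0 4 5 4 2 2 [(2, 0)]),
.rs (.lipl 0 9 43 0 34),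
.rs (.part [24, 100] [0, 0] [3] []),
.rs (.join 0 2 2 2 1 2 [(1, 1)]),
.rs (.un 0 3),
.rs (.slot 0 [(1, 1), (0, 2), (2, 1), (3, 2), (4, 3), (5, 2)]),
.rs (.slot 0 [(0, 2), (1, 2), (3, 2), (4, 2), (5, 3)]),
.rs (.slot 0 [(1, 1), (2, 4), (5, 1), (3, 3), (4, 2)]),
.rs (.lipl 1 13 93 0 80),
.rs (.lipl 0 9 27 1 18),
.rs (.lipl 1 74 94 1 20),
.rs (.join 1 8 5 3 2 1 [(3, 0)]),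
.rs (.lip 1 112 119 7),
.rs (.slot 0 [(1, 1), (0, 2), (2, 1), (4, 2), (3, 3), (5, 2)]),
.rs (.le 1 17 16 4 2),
.rs (.join 0 4 5 5 3 2 [(2, 0)]),
.degU 4 [(0, 2), (1, 3)],
.rs (.part [40, 82] [0, 0] [5] []),
.rs (.ordE 0 8 3),
.rs (.l2 1 20 24 4 2 1),
.rs (.mono 0 1 33 1),
.degU 1 [(0, 3), (1, 1)],
.rs (.le 1 18 16 4 2),
.rs (.join 1 1 3 3 1 2 [(0, 0)]),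
.rs (.join 1 2 3 3 1 2 [(1, 0)]),
.rs (.slot 0 [(1, 1), (0, 2), (2, 3), (5, 2), (4, 3)]),
.rs (.l2 1 18 24 4 2 1),
.rs (.lipl 0 33 45 0 12),
.rs (.slot 0 [(0, 2), (1, 2), (2, 3), (3, 2), (4, 2)]),
.rs (.le 0 72 64 6 1),
.rs (.l2 0 72 96 6 1 1),
.rs (.slot 0 [(0, 1), (1, 2), (2, 3), (5, 2), (3, 3)]),
.rs (.part [36, 91] [0, 1] [] []),
.rs (.slot 0 [(0, 1), (2, 4), (3, 1), (4, 3), (5, 2)]),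
.rs (.lip 1 70 118 56),
.rs (.le 0 34 32 5 1),
.rs (.slot 0 [(0, 1), (1, 1), (2, 2), (4, 2), (5, 2), (3, 3)]),
.rs (.join 0 2 5 3 2 2 [(1, 1)]),
.rs (.l2 1 10 18 1 1 2),
.rs (.lipl 0 9 45 1 36),
.rs (.part [75, 52] [1, 0] [] []),
.rs (.deg 5 [2, 1]),
.rs (.l2 1 9 40 3 1 1),
.rs (.deg 2 [0, 3]),
.rs (.slot 0 [(1, 1), (2, 4), (3, 1), (5, 3), (4, 2)]),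
.rs (.ab2 0 6),
.rs (.join 0 8 4 2 2 1 [(3, 1)]),
.rs (.join 0 48 6 3 3 0 [(4, 0), (5, 0)]),
.rs (.part [65, 62] [0, 1] [] []),
.rs (.ab2 0 3),
.rs (.l2 1 5 33 0 2 1),
.rs (.mono 1 3 35 1),
.rs (.slot 0 [(1, 1), (3, 3), (4, 3), (5, 3), (6, 1)]),
.rs (.join 0 6 3 4 2 2 [(1, 0), (2, 0)]),
.rs (.ab2 1 40),
.rs (.slot 0 [(1, 1), (2, 4), (4, 3), (3, 2), (6, 1)]),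
.rs (.join 0 8 4 3 2 2 [(3, 1)]),
.rs (.lip 1 56 61 7),
.rs (.ordE 1 4 1),
.rs (.lipl 1 35 115 0 80),
.rs (.part [80, 47] [0, 1] [] []),
.rs (.mono 1 3 19 1),
.rs (.slot 0 [(0, 1), (1, 2), (2, 3), (4, 2), (3, 3)]),
.rs (.l2 1 3 34 1 2 1),
.rs (.part [12, 115] [0, 1] [] []),
.rs (.slot 0 [(1, 2), (2, 4), (4, 2), (3, 3)]),
.rs (.deg 1 [1, 1]),
.rs (.le 0 6 2 1 2),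
.rs (.join 1 1 5 3 2 1 [(0, 0)]),
.rs (.slot 0 [(0, 1), (1, 2), (2, 3), (3, 2), (5, 3)]),
.rs (.lipl 0 12 30 1 18),
.rs (.ab2 0 48),
.rs (.ab2 0 18),
.rs (.lip 0 96 99 7),
.rs (.lipl 0 10 46 0 36),
.rs (.l2 0 24 72 3 2 1),
.rs (.slot 0 [(0, 1), (1, 1), (2, 2), (3, 2), (4, 2), (5, 3)]),
.rs (.lipl 1 69 79 1 10),
.rs (.slot 0 [(0, 2), (2, 4), (4, 2), (3, 3)]),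
.rs (.join 1 1 3 3 3 2 [(0, 2)]),
.rs (.join 0 6 5 4 3 3 [(1, 0), (2, 2)]),
.rs (.mono 0 1 17 1),
.rs (.part [9, 118] [0, 1] [] []),
.rs (.join 0 8 5 3 2 2 [(3, 1)]),
.rs (.join 0 40 6 3 3 1 [(3, 1), (5, 0)]),
.rs (.l2 1 33 48 5 1 1),
.rs (.deg 3 [3, 0]),
.rs (.le 0 12 8 3 1),
.rs (.lipl 0 10 30 1 20),
.rs (.le 1 17 16 4 3),
.rs (.join 0 2 4 4 1 3 [(1, 0)]),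
.rs (.l2 1 17 48 4 1 1),
.rs (.slot 0 [(0, 1), (1, 2), (2, 3), (3, 2), (4, 3)]),
.rs (.part [86, 41] [1, 0] [] []),
.rs (.join 0 8 5 2 2 0 [(3, 0)]),
.rs (.join 0 16 5 4 2 2 [(4, 0)]),
.rs (.l2 1 6 10 1 2 1),
.rs (.l2 1 33 40 5 2 1),
.rs (.mono 1 65 73 1),
.rs (.part [48, 79] [0, 1] [] []),
.rs (.join 1 2 4 3 3 1 [(1, 1)]),
.rs (.join 0 1 3 3 2 2 [(0, 1)]),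
.rs (.slot 0 [(0, 1), (2, 4), (3, 1), (5, 3), (4, 2)]),
.rs (.lip 0 80 83 7),
.rs (.slot 0 [(0, 2), (1, 2), (2, 3), (4, 2), (5, 2)]),
.rs (.join 1 4 4 3 1 2 [(2, 0)]),
.rs (.join 1 1 3 3 2 2 [(0, 1)]),
.rs (.l2 0 33 36 5 1 3),
.rs (.lip 0 6 30 56),
.rs (.lipl 1 69 87 0 18),
.rs (.part [24, 96] [0, 0] [7] []),
.rs (.le 1 33 32 5 3),
.rs (.l2 1 6 34 1 2 1),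
.rs (.part [99, 28] [1, 0] [] []),
.rs (.join 0 5 5 4 3 3 [(0, 0), (2, 2)]),
.rs (.part [34, 93] [0, 1] [] []),
.rs (.join 0 16 5 4 3 1 [(4, 0)]),
.rs (.lipl 0 17 53 0 36),
.rs (.mono 1 3 11 1),
.rs (.l2 1 34 48 5 1 1),
.rs (.join 1 2 4 3 2 2 [(1, 1)]),
.rs (.lipl 1 22 94 0 72),
.rs (.l2 1 12 40 3 2 1),
.rs (.mono 1 66 98 1),
.rs (.part [96, 31] [0, 1] [] []),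
.rs (.join 0 8 5 4 2 2 [(3, 0)]),
.rs (.lipl 0 33 43 1 10),
.rs (.join 1 8 5 3 1 2 [(3, 0)]),
.rs (.slot 0 [(0, 1), (1, 2), (2, 1), (4, 2), (3, 3), (5, 2)]),
.rs (.join 0 5 3 4 2 2 [(0, 0), (2, 0)]),
.rs (.join 0 4 3 4 4 0 [(2, 0)]),
.rs (.le 1 5 1 0 1),
.rs (.slot 0 [(1, 1), (0, 2), (2, 1), (3, 2), (5, 3), (4, 2)]),
.rs (.l2 1 20 36 2 1 2),
.rs (.part [17, 110] [0, 1] [] []),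
.rs (.le 0 10 8 3 1),
.rs (.lipl 0 9 27 0 18),
.rs (.join 1 8 5 3 2 2 [(3, 1)]),
.rs (.le 0 33 32 5 1),
.rs (.join 0 24 6 3 3 1 [(3, 1), (4, 0)]),
.rs (.join 1 2 3 3 3 2 [(1, 2)]),
.rs (.join 0 8 4 4 2 2 [(3, 0)]),
.rs (.join 0 2 2 2 1 1 [(1, 0)]),
.rs (.l2 0 36 48 5 1 2),
.rs (.deg 4 [3, 0]),
.rs (.l2 1 34 48 5 2 1),
.rs (.lip 0 72 78 7),
.rs (.le 0 96 64 6 2),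
.rs (.deg 2 [1, 2]),
.rs (.join 0 1 3 3 1 2 [(0, 0)]),
.rs (.join 0 8 4 2 2 0 [(3, 0)]),
.rs (.lip 1 24 31 7),
.rs (.deg 5 [0, 3]),
.rs (.lipl 0 34 43 1 9),
.rs (.le 1 6 2 1 2),
.rs (.le 0 40 32 5 2),
.rs (.join 0 2 2 3 0 3 [(1, 0)]),
.rs (.lipl 0 34 43 0 9),
.rs (.l2 1 18 48 4 1 1),
.rs (.lipl 0 9 43 1 34),
.rs (.lipl 1 11 91 0 80),
.rs (.mono 0 1 5 1),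
.rs (.lipl 0 34 54 0 20),
.rs (.ab2 0 33),
.rs (.lip 1 69 93 56),
.rs (.lipl 0 34 46 0 12),
.rs (.join 1 4 5 3 2 2 [(2, 1)]),
.rs (.le 0 18 16 4 1),
.rs (.join 0 16 5 2 2 2 [(4, 2)]),
.degU 5 [(0, 3), (1, 2)],
.rs (.ordE 1 32 1),
.rs (.join 0 2 5 3 1 2 [(1, 0)]),
.rs (.le 0 9 1 0 1),
.rs (.lipl 0 18 27 0 9),
.rs (.join 0 48 6 3 3 1 [(4, 0), (5, 1)]),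
.rs (.join 1 16 5 3 1 2 [(4, 0)]),
.rs (.join 1 2 2 3 2 2 [(1, 1)]),
.rs (.join 0 16 6 2 2 0 [(4, 0)]),
.rs (.part [54, 73] [1, 0] [] []),
.rs (.join 0 1 5 4 1 3 [(0, 0)]),
.degU 0 [(0, 1), (1, 3)],
.rs (.mono 1 68 84 1),
.rs (.join 1 2 4 3 1 2 [(1, 0)]),
.rs (.join 0 6 4 4 4 0 [(1, 0), (2, 0)]),
.rs (.l2 0 24 80 4 2 1),
.rs (.le 0 33 1 0 1),
.rs (.l2 0 34 36 5 1 3),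
.rs (.lipl 1 22 118 0 96),
.rs (.deg 2 [2, 1]),
.rs (.lip 1 88 95 7),
.rs (.part [45, 82] [1, 0] [] [])]

noncomputable def gv : List Gv := [
.low [1, 2, 0, 3, 0, 2],
.low [2, 1, 0, 0, 2, 3],
.low [1, 0, 2, 3, 2, 0],
.low [1, 0, 2, 0, 2, 3],
.low [1, 0, 2, 0, 3, 2],
.low [0, 1, 2, 2, 0, 3],
.low [2, 1, 0, 0, 3, 2],
.low [0, 1, 2, 3, 2, 0],
.cap6,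
.low [1, 2, 0, 0, 2, 3],
.low [1, 0, 2, 2, 3, 0],
.low [1, 2, 0, 2, 3, 0],
.low [1, 1, 1, 2, 0, 3],
.low [1, 0, 2, 2, 0, 3],
.low [1, 1, 1, 3, 0, 2],
.low [1, 2, 0, 0, 3, 2],
.low [1, 0, 2, 3, 0, 2],
.low [0, 1, 2, 0, 3, 2],
.low [2, 1, 0, 2, 3, 0],
.low [2, 1, 0, 2, 0, 3],
.low [1, 2, 0, 3, 2, 0],
.low [0, 1, 2, 2, 3, 0],
.low [0, 1, 2, 3, 0, 2],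
.low [1, 1, 1, 3, 2, 0],
.low [1, 1, 1, 0, 3, 2],
.low [1, 1, 1, 2, 3, 0],
.low [2, 0, 1, 2, 3, 0],
.low [1, 1, 1, 0, 2, 3],
.low [2, 1, 0, 3, 2, 0],
.low [1, 2, 0, 2, 0, 3],
.low [2, 1, 0, 3, 0, 2],
.low [0, 1, 2, 0, 2, 3],
.low [0, 2, 1, 0, 2, 3]]

noncomputable def gads : List Gt := [
⟨0, [⟨9, 4, []⟩, ⟨32, 2, []⟩], [3, 2, 2], 1, [(33, 1), (40, 1)]⟩,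
⟨0, [⟨13, 4, []⟩, ⟨32, 2, []⟩], [3, 2, 2], 1, [(33, 1), (36, 1), (40, 1)]⟩,
⟨1, [⟨34, 3, []⟩, ⟨1, 3, []⟩, ⟨8, 4, []⟩], [7, 3], 1, [(11, 1), (41, 1)]⟩,
⟨1, [⟨10, 3, []⟩, ⟨1, 3, []⟩, ⟨64, 4, []⟩], [7, 3], 1, [(67, 1), (73, 1)]⟩,
⟨1, [⟨4, 2, []⟩, ⟨64, 2, []⟩], [3, 3, 3], 1, [(68, 1)]⟩,
⟨0, [⟨28, 4, []⟩, ⟨32, 2, []⟩], [3, 2, 2], 1, [(36, 1), (40, 1), (48, 1)]⟩,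
⟨1, [⟨17, 3, []⟩, ⟨12, 3, []⟩, ⟨64, 4, []⟩], [7, 3], 1, [(69, 1), (73, 1), (84, 1), (88, 1)]⟩,
⟨0, [⟨1, 2, []⟩, ⟨68, 4, []⟩], [3, 1, 1], 1, [(5, 1), (65, 1)]⟩,
⟨0, [⟨3, 3, []⟩, ⟨8, 3, []⟩], [3, 3], 1, [(9, 1), (10, 1)]⟩,
⟨1, [⟨1, 2, []⟩, ⟨2, 2, []⟩, ⟨8, 4, []⟩, ⟨32, 2, []⟩, ⟨64, 5, []⟩], [3, 3, 3, 12, 8, 8], 2, [(67, 1), (104, 1), (107, 2)]⟩,
⟨0, [⟨18, 3, []⟩, ⟨8, 3, []⟩], [3, 3], 1, [(10, 1), (24, 1)]⟩,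
⟨1, [⟨18, 3, []⟩, ⟨4, 3, []⟩, ⟨64, 4, []⟩], [7, 3], 1, [(70, 1), (84, 1)]⟩,
⟨0, [⟨34, 4, []⟩, ⟨8, 2, []⟩], [3, 2, 2], 1, [(10, 1), (40, 1)]⟩,
⟨1, [⟨3, 3, []⟩, ⟨4, 3, []⟩, ⟨64, 4, []⟩], [7, 3], 1, [(69, 1), (70, 1)]⟩,
⟨1, [⟨0, 0, [(48, 2)]⟩, ⟨8, 2, []⟩], [3, 3, 3], 1, [(56, 1)]⟩,
⟨1, [⟨2, 2, []⟩, ⟨4, 2, []⟩, ⟨32, 4, []⟩, ⟨8, 2, []⟩, ⟨64, 5, []⟩], [3, 3, 3, 12, 8, 8], 2, [(70, 1), (104, 1), (110, 2)]⟩,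
⟨0, [⟨24, 2, []⟩, ⟨32, 4, []⟩], [3, 1, 1], 1, [(40, 1), (48, 1)]⟩,
⟨1, [⟨1, 2, []⟩, ⟨2, 2, []⟩, ⟨32, 4, []⟩, ⟨16, 2, []⟩, ⟨64, 5, []⟩], [3, 3, 3, 12, 8, 8], 2, [(67, 1), (112, 1), (115, 2)]⟩,
⟨0, [⟨17, 3, []⟩, ⟨32, 3, []⟩], [3, 3], 1, [(33, 1), (48, 1)]⟩,
⟨0, [⟨34, 4, []⟩, ⟨1, 2, []⟩], [3, 2, 2], 1, [(3, 1), (33, 1)]⟩,
⟨1, [⟨34, 3, []⟩, ⟨1, 3, []⟩, ⟨16, 4, []⟩], [7, 3], 1, [(19, 1), (49, 1)]⟩,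
⟨1, [⟨0, 0, [(40, 2)]⟩, ⟨16, 2, []⟩], [3, 3, 3], 1, [(56, 1)]⟩,
⟨1, [⟨4, 3, []⟩, ⟨32, 3, []⟩, ⟨64, 4, []⟩], [7, 3], 1, [(100, 1)]⟩,
⟨0, [⟨112, 3, []⟩, ⟨8, 3, []⟩], [3, 3], 1, [(24, 1), (40, 1), (72, 1)]⟩,
⟨1, [⟨1, 2, []⟩, ⟨4, 2, []⟩, ⟨16, 4, []⟩, ⟨32, 2, []⟩, ⟨64, 5, []⟩], [3, 3, 3, 12, 8, 8], 2, [(69, 1), (112, 1), (117, 2)]⟩,
⟨1, [⟨33, 3, []⟩, ⟨20, 3, []⟩, ⟨64, 4, []⟩], [7, 3], 1, [(69, 1), (81, 1), (100, 1), (112, 1)]⟩,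
⟨1, [⟨32, 2, []⟩, ⟨64, 2, []⟩], [3, 3, 3], 1, [(96, 1)]⟩,
⟨1, [⟨34, 3, []⟩, ⟨4, 3, []⟩, ⟨64, 4, []⟩], [7, 3], 1, [(70, 1), (100, 1)]⟩,
⟨1, [⟨9, 3, []⟩, ⟨20, 3, []⟩, ⟨64, 4, []⟩], [7, 3], 1, [(69, 1), (76, 1), (81, 1), (88, 1)]⟩,
⟨0, [⟨34, 4, []⟩, ⟨16, 2, []⟩], [3, 2, 2], 1, [(18, 1), (48, 1)]⟩,
⟨1, [⟨34, 3, []⟩, ⟨1, 3, []⟩, ⟨64, 4, []⟩], [7, 3], 1, [(67, 1), (97, 1)]⟩,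
⟨0, [⟨33, 4, []⟩, ⟨16, 2, []⟩], [3, 2, 2], 1, [(17, 1), (48, 1)]⟩,
⟨1, [⟨8, 2, []⟩, ⟨16, 2, []⟩], [3, 3, 3], 1, [(24, 1)]⟩,
⟨0, [⟨88, 3, []⟩, ⟨32, 3, []⟩], [3, 3], 1, [(40, 1), (48, 1), (96, 1)]⟩,
⟨1, [⟨1, 2, []⟩, ⟨2, 2, []⟩, ⟨32, 4, []⟩, ⟨8, 2, []⟩, ⟨64, 5, []⟩], [3, 3, 3, 12, 8, 8], 2, [(67, 1), (104, 1), (107, 2)]⟩,
⟨1, [⟨18, 3, []⟩, ⟨1, 3, []⟩, ⟨32, 4, []⟩], [7, 3], 1, [(35, 1), (49, 1)]⟩,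
⟨0, [⟨37, 4, []⟩, ⟨16, 2, []⟩], [3, 2, 2], 1, [(17, 1), (20, 1), (48, 1)]⟩,
⟨0, [⟨80, 2, []⟩, ⟨32, 4, []⟩], [3, 1, 1], 1, [(48, 1), (96, 1)]⟩,
⟨1, [⟨2, 2, []⟩, ⟨4, 2, []⟩, ⟨32, 4, []⟩, ⟨16, 2, []⟩, ⟨64, 5, []⟩], [3, 3, 3, 12, 8, 8], 2, [(70, 1), (112, 1), (118, 2)]⟩,
⟨0, [⟨17, 4, []⟩, ⟨8, 2, []⟩], [3, 2, 2], 1, [(9, 1), (24, 1)]⟩,
⟨0, [⟨9, 4, []⟩, ⟨16, 2, []⟩], [3, 2, 2], 1, [(17, 1), (24, 1)]⟩,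
⟨0, [⟨14, 4, []⟩, ⟨16, 2, []⟩], [3, 2, 2], 1, [(18, 1), (20, 1), (24, 1)]⟩,
⟨0, [⟨80, 2, []⟩, ⟨8, 4, []⟩], [3, 1, 1], 1, [(24, 1), (72, 1)]⟩,
⟨1, [⟨9, 3, []⟩, ⟨4, 3, []⟩, ⟨64, 4, []⟩], [7, 3], 1, [(69, 1), (76, 1)]⟩,
⟨1, [⟨18, 3, []⟩, ⟨36, 3, []⟩, ⟨64, 4, []⟩], [7, 3], 1, [(70, 1), (84, 1), (98, 1), (112, 1)]⟩,
⟨1, [⟨33, 3, []⟩, ⟨2, 3, []⟩, ⟨16, 4, []⟩], [7, 3], 1, [(19, 1), (50, 1)]⟩,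
⟨1, [⟨34, 3, []⟩, ⟨12, 3, []⟩, ⟨64, 4, []⟩], [7, 3], 1, [(70, 1), (74, 1), (100, 1), (104, 1)]⟩,
⟨1, [⟨12, 3, []⟩, ⟨16, 3, []⟩, ⟨64, 4, []⟩], [7, 3], 1, [(84, 1), (88, 1)]⟩,
⟨1, [⟨40, 3, []⟩, ⟨16, 3, []⟩, ⟨64, 4, []⟩], [7, 3], 1, [(88, 1), (112, 1)]⟩,
⟨0, [⟨96, 2, []⟩, ⟨8, 4, []⟩], [3, 1, 1], 1, [(40, 1), (72, 1)]⟩,
⟨0, [⟨3, 2, []⟩, ⟨20, 4, []⟩], [3, 1, 1], 1, [(5, 1), (6, 1), (17, 1), (18, 1)]⟩,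
⟨0, [⟨33, 3, []⟩, ⟨16, 3, []⟩], [3, 3], 1, [(17, 1), (48, 1)]⟩,
⟨0, [⟨6, 2, []⟩, ⟨1, 2, []⟩, ⟨8, 2, []⟩, ⟨32, 2, []⟩], [3, 3, 3, 12, 12, 12], 2, [(3, 1), (5, 1), (40, 1), (43, 2), (45, 2)]⟩,
⟨1, [⟨33, 3, []⟩, ⟨16, 3, []⟩, ⟨64, 4, []⟩], [7, 3], 1, [(81, 1), (112, 1)]⟩,
⟨1, [⟨1, 2, []⟩, ⟨2, 2, []⟩, ⟨16, 4, []⟩, ⟨32, 2, []⟩, ⟨64, 5, []⟩], [3, 3, 3, 12, 8, 8], 2, [(67, 1), (112, 1), (115, 2)]⟩,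
⟨1, [⟨1, 2, []⟩, ⟨4, 2, []⟩, ⟨16, 4, []⟩, ⟨8, 2, []⟩, ⟨64, 5, []⟩], [3, 3, 3, 12, 8, 8], 2, [(69, 1), (88, 1), (93, 2)]⟩,
⟨1, [⟨8, 3, []⟩, ⟨32, 3, []⟩, ⟨64, 4, []⟩], [7, 3], 1, [(104, 1)]⟩,
⟨1, [⟨24, 3, []⟩, ⟨32, 3, []⟩, ⟨64, 4, []⟩], [7, 3], 1, [(104, 1), (112, 1)]⟩,
⟨1, [⟨1, 2, []⟩, ⟨2, 2, []⟩, ⟨8, 4, []⟩, ⟨16, 2, []⟩, ⟨64, 5, []⟩], [3, 3, 3, 12, 8, 8], 2, [(67, 1), (88, 1), (91, 2)]⟩,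
⟨1, [⟨36, 3, []⟩, ⟨8, 3, []⟩, ⟨64, 4, []⟩], [7, 3], 1, [(76, 1), (104, 1)]⟩,
⟨1, [⟨17, 3, []⟩, ⟨36, 3, []⟩, ⟨64, 4, []⟩], [7, 3], 1, [(69, 1), (84, 1), (97, 1), (112, 1)]⟩,
⟨1, [⟨10, 3, []⟩, ⟨1, 3, []⟩, ⟨32, 4, []⟩], [7, 3], 1, [(35, 1), (41, 1)]⟩,
⟨1, [⟨4, 3, []⟩, ⟨16, 3, []⟩, ⟨64, 4, []⟩], [7, 3], 1, [(84, 1)]⟩,
⟨0, [⟨5, 2, []⟩, ⟨2, 2, []⟩, ⟨8, 2, []⟩, ⟨32, 2, []⟩], [3, 3, 3, 12, 12, 12], 2, [(3, 1), (6, 1), (40, 1), (43, 2), (46, 2)]⟩,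
⟨1, [⟨34, 3, []⟩, ⟨5, 3, []⟩, ⟨8, 4, []⟩], [7, 3], 1, [(11, 1), (14, 1), (41, 1), (44, 1)]⟩,
⟨1, [⟨17, 3, []⟩, ⟨2, 3, []⟩, ⟨8, 4, []⟩], [7, 3], 1, [(11, 1), (26, 1)]⟩,
⟨1, [⟨34, 3, []⟩, ⟨16, 3, []⟩, ⟨64, 4, []⟩], [7, 3], 1, [(82, 1), (112, 1)]⟩,
⟨1, [⟨34, 3, []⟩, ⟨8, 3, []⟩, ⟨64, 4, []⟩], [7, 3], 1, [(74, 1), (104, 1)]⟩,
⟨1, [⟨9, 3, []⟩, ⟨2, 3, []⟩, ⟨16, 4, []⟩], [7, 3], 1, [(19, 1), (26, 1)]⟩,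
⟨1, [⟨10, 3, []⟩, ⟨16, 3, []⟩, ⟨64, 4, []⟩], [7, 3], 1, [(82, 1), (88, 1)]⟩,
⟨0, [⟨3, 2, []⟩, ⟨4, 2, []⟩, ⟨16, 2, []⟩, ⟨32, 2, []⟩], [3, 3, 3, 12, 12, 12], 2, [(5, 1), (6, 1), (48, 1), (53, 2), (54, 2)]⟩,
⟨1, [⟨9, 3, []⟩, ⟨32, 3, []⟩, ⟨64, 4, []⟩], [7, 3], 1, [(97, 1), (104, 1)]⟩,
⟨1, [⟨18, 3, []⟩, ⟨1, 3, []⟩, ⟨64, 4, []⟩], [7, 3], 1, [(67, 1), (81, 1)]⟩,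
⟨1, [⟨1, 3, []⟩, ⟨32, 3, []⟩, ⟨64, 4, []⟩], [7, 3], 1, [(97, 1)]⟩,
⟨0, [⟨2, 2, []⟩, ⟨24, 4, []⟩], [3, 1, 1], 1, [(10, 1), (18, 1)]⟩,
⟨0, [⟨22, 4, []⟩, ⟨8, 2, []⟩], [3, 2, 2], 1, [(10, 1), (12, 1), (24, 1)]⟩,
⟨1, [⟨2, 3, []⟩, ⟨32, 3, []⟩, ⟨64, 4, []⟩], [7, 3], 1, [(98, 1)]⟩,
⟨0, [⟨9, 3, []⟩, ⟨32, 3, []⟩], [3, 3], 1, [(33, 1), (40, 1)]⟩,
⟨0, [⟨5, 2, []⟩, ⟨2, 2, []⟩, ⟨8, 2, []⟩, ⟨16, 2, []⟩], [3, 3, 3, 12, 12, 12], 2, [(3, 1), (6, 1), (24, 1), (27, 2), (30, 2)]⟩,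
⟨0, [⟨37, 4, []⟩, ⟨8, 2, []⟩], [3, 2, 2], 1, [(9, 1), (12, 1), (40, 1)]⟩,
⟨1, [⟨33, 3, []⟩, ⟨12, 3, []⟩, ⟨64, 4, []⟩], [7, 3], 1, [(69, 1), (73, 1), (100, 1), (104, 1)]⟩,
⟨1, [⟨17, 3, []⟩, ⟨2, 3, []⟩, ⟨32, 4, []⟩], [7, 3], 1, [(35, 1), (50, 1)]⟩,
⟨0, [⟨21, 4, []⟩, ⟨32, 2, []⟩], [3, 2, 2], 1, [(33, 1), (36, 1), (48, 1)]⟩,
⟨1, [⟨12, 3, []⟩, ⟨32, 3, []⟩, ⟨64, 4, []⟩], [7, 3], 1, [(100, 1), (104, 1)]⟩,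
⟨0, [⟨2, 2, []⟩, ⟨40, 4, []⟩], [3, 1, 1], 1, [(10, 1), (34, 1)]⟩,
⟨1, [⟨18, 3, []⟩, ⟨12, 3, []⟩, ⟨64, 4, []⟩], [7, 3], 1, [(70, 1), (74, 1), (84, 1), (88, 1)]⟩,
⟨1, [⟨33, 3, []⟩, ⟨2, 3, []⟩, ⟨64, 4, []⟩], [7, 3], 1, [(67, 1), (98, 1)]⟩,
⟨0, [⟨104, 3, []⟩, ⟨16, 3, []⟩], [3, 3], 1, [(24, 1), (48, 1), (80, 1)]⟩,
⟨1, [⟨1, 2, []⟩, ⟨4, 2, []⟩, ⟨32, 4, []⟩, ⟨16, 2, []⟩, ⟨64, 5, []⟩], [3, 3, 3, 12, 8, 8], 2, [(69, 1), (112, 1), (117, 2)]⟩,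
⟨1, [⟨9, 3, []⟩, ⟨16, 3, []⟩, ⟨64, 4, []⟩], [7, 3], 1, [(81, 1), (88, 1)]⟩,
⟨1, [⟨10, 3, []⟩, ⟨36, 3, []⟩, ⟨64, 4, []⟩], [7, 3], 1, [(70, 1), (76, 1), (98, 1), (104, 1)]⟩,
⟨1, [⟨17, 3, []⟩, ⟨2, 3, []⟩, ⟨64, 4, []⟩], [7, 3], 1, [(67, 1), (82, 1)]⟩,
⟨0, [⟨1, 2, []⟩, ⟨2, 2, []⟩, ⟨16, 2, []⟩, ⟨32, 2, []⟩], [3, 3, 3, 12, 12, 12], 2, [(3, 1), (48, 1), (51, 2)]⟩,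
⟨0, [⟨40, 4, []⟩, ⟨16, 2, []⟩], [3, 2, 2], 1, [(24, 1), (48, 1)]⟩,
⟨0, [⟨5, 2, []⟩, ⟨2, 2, []⟩, ⟨16, 2, []⟩, ⟨32, 2, []⟩], [3, 3, 3, 12, 12, 12], 2, [(3, 1), (6, 1), (48, 1), (51, 2), (54, 2)]⟩,
⟨1, [⟨2, 2, []⟩, ⟨4, 4, []⟩, ⟨8, 2, []⟩, ⟨32, 2, []⟩, ⟨64, 5, []⟩], [3, 1, 1, 12, 12, 12], 2, [(70, 1), (104, 1), (110, 2)]⟩,
⟨1, [⟨2, 2, []⟩, ⟨4, 4, []⟩, ⟨16, 2, []⟩, ⟨32, 2, []⟩, ⟨64, 5, []⟩], [3, 1, 1, 12, 12, 12], 2, [(70, 1), (112, 1), (118, 2)]⟩,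
⟨0, [⟨10, 4, []⟩, ⟨1, 2, []⟩], [3, 2, 2], 1, [(3, 1), (9, 1)]⟩,
⟨1, [⟨16, 2, []⟩, ⟨32, 2, []⟩], [3, 3, 3], 1, [(48, 1)]⟩,
⟨0, [⟨6, 2, []⟩, ⟨1, 2, []⟩, ⟨16, 2, []⟩, ⟨32, 2, []⟩], [3, 3, 3, 12, 12, 12], 2, [(3, 1), (5, 1), (48, 1), (51, 2), (53, 2)]⟩,
⟨0, [⟨17, 3, []⟩, ⟨8, 3, []⟩], [3, 3], 1, [(9, 1), (24, 1)]⟩,
⟨1, [⟨36, 3, []⟩, ⟨16, 3, []⟩, ⟨64, 4, []⟩], [7, 3], 1, [(84, 1), (112, 1)]⟩,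
⟨1, [⟨10, 3, []⟩, ⟨4, 3, []⟩, ⟨64, 4, []⟩], [7, 3], 1, [(70, 1), (76, 1)]⟩,
⟨0, [⟨22, 4, []⟩, ⟨32, 2, []⟩], [3, 2, 2], 1, [(34, 1), (36, 1), (48, 1)]⟩,
⟨0, [⟨96, 2, []⟩, ⟨16, 4, []⟩], [3, 1, 1], 1, [(48, 1), (80, 1)]⟩,
⟨1, [⟨1, 2, []⟩, ⟨4, 4, []⟩, ⟨8, 2, []⟩, ⟨32, 2, []⟩, ⟨64, 5, []⟩], [3, 1, 1, 12, 12, 12], 2, [(69, 1), (104, 1), (109, 2)]⟩,
⟨0, [⟨3, 2, []⟩, ⟨4, 2, []⟩, ⟨8, 2, []⟩, ⟨16, 2, []⟩], [3, 3, 3, 12, 12, 12], 2, [(5, 1), (6, 1), (24, 1), (29, 2), (30, 2)]⟩,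
⟨1, [⟨18, 3, []⟩, ⟨5, 3, []⟩, ⟨32, 4, []⟩], [7, 3], 1, [(35, 1), (38, 1), (49, 1), (52, 1)]⟩,
⟨1, [⟨9, 3, []⟩, ⟨6, 3, []⟩, ⟨32, 4, []⟩], [7, 3], 1, [(35, 1), (37, 1), (42, 1), (44, 1)]⟩,
⟨1, [⟨18, 3, []⟩, ⟨1, 3, []⟩, ⟨8, 4, []⟩], [7, 3], 1, [(11, 1), (25, 1)]⟩,
⟨1, [⟨9, 3, []⟩, ⟨6, 3, []⟩, ⟨16, 4, []⟩], [7, 3], 1, [(19, 1), (21, 1), (26, 1), (28, 1)]⟩,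
⟨1, [⟨17, 3, []⟩, ⟨4, 3, []⟩, ⟨64, 4, []⟩], [7, 3], 1, [(69, 1), (84, 1)]⟩,
⟨1, [⟨8, 3, []⟩, ⟨16, 3, []⟩, ⟨64, 4, []⟩], [7, 3], 1, [(88, 1)]⟩,
⟨1, [⟨5, 3, []⟩, ⟨2, 3, []⟩, ⟨64, 4, []⟩], [7, 3], 1, [(67, 1), (70, 1)]⟩,
⟨0, [⟨9, 3, []⟩, ⟨16, 3, []⟩], [3, 3], 1, [(17, 1), (24, 1)]⟩,
⟨1, [⟨16, 3, []⟩, ⟨32, 3, []⟩, ⟨64, 4, []⟩], [7, 3], 1, [(112, 1)]⟩,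
⟨0, [⟨14, 4, []⟩, ⟨32, 2, []⟩], [3, 2, 2], 1, [(34, 1), (36, 1), (40, 1)]⟩,
⟨1, [⟨33, 3, []⟩, ⟨6, 3, []⟩, ⟨16, 4, []⟩], [7, 3], 1, [(19, 1), (21, 1), (50, 1), (52, 1)]⟩,
⟨1, [⟨6, 3, []⟩, ⟨1, 3, []⟩, ⟨64, 4, []⟩], [7, 3], 1, [(67, 1), (69, 1)]⟩,
⟨1, [⟨10, 3, []⟩, ⟨5, 3, []⟩, ⟨32, 4, []⟩], [7, 3], 1, [(35, 1), (38, 1), (41, 1), (44, 1)]⟩,
⟨0, [⟨8, 3, []⟩, ⟨16, 3, []⟩], [3, 3], 1, [(24, 1)]⟩,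
⟨1, [⟨16, 2, []⟩, ⟨64, 2, []⟩], [3, 3, 3], 1, [(80, 1)]⟩,
⟨0, [⟨3, 2, []⟩, ⟨36, 4, []⟩], [3, 1, 1], 1, [(5, 1), (6, 1), (33, 1), (34, 1)]⟩,
⟨0, [⟨34, 3, []⟩, ⟨8, 3, []⟩], [3, 3], 1, [(10, 1), (40, 1)]⟩,
⟨1, [⟨33, 3, []⟩, ⟨8, 3, []⟩, ⟨64, 4, []⟩], [7, 3], 1, [(73, 1), (104, 1)]⟩,
⟨1, [⟨17, 3, []⟩, ⟨6, 3, []⟩, ⟨8, 4, []⟩], [7, 3], 1, [(11, 1), (13, 1), (26, 1), (28, 1)]⟩,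
⟨0, [⟨2, 2, []⟩, ⟨68, 4, []⟩], [3, 1, 1], 1, [(6, 1), (66, 1)]⟩,
⟨1, [⟨2, 2, []⟩, ⟨4, 2, []⟩, ⟨16, 4, []⟩, ⟨8, 2, []⟩, ⟨64, 5, []⟩], [3, 3, 3, 12, 8, 8], 2, [(70, 1), (88, 1), (94, 2)]⟩,
⟨0, [⟨18, 3, []⟩, ⟨32, 3, []⟩], [3, 3], 1, [(34, 1), (48, 1)]⟩,
⟨1, [⟨0, 0, [(24, 2)]⟩, ⟨64, 2, []⟩], [3, 3, 3], 1, [(88, 1)]⟩,
⟨1, [⟨1, 2, []⟩, ⟨4, 4, []⟩, ⟨16, 2, []⟩, ⟨32, 2, []⟩, ⟨64, 5, []⟩], [3, 1, 1, 12, 12, 12], 2, [(69, 1), (112, 1), (117, 2)]⟩,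
⟨0, [⟨33, 3, []⟩, ⟨8, 3, []⟩], [3, 3], 1, [(9, 1), (40, 1)]⟩,
⟨0, [⟨18, 4, []⟩, ⟨32, 2, []⟩], [3, 2, 2], 1, [(34, 1), (48, 1)]⟩,
⟨1, [⟨9, 3, []⟩, ⟨2, 3, []⟩, ⟨64, 4, []⟩], [7, 3], 1, [(67, 1), (74, 1)]⟩,
⟨1, [⟨1, 3, []⟩, ⟨2, 3, []⟩, ⟨64, 4, []⟩], [7, 3], 1, [(67, 1)]⟩,
⟨0, [⟨10, 3, []⟩, ⟨16, 3, []⟩], [3, 3], 1, [(18, 1), (24, 1)]⟩,
⟨0, [⟨52, 4, []⟩, ⟨8, 2, []⟩], [3, 2, 2], 1, [(12, 1), (24, 1), (40, 1)]⟩,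
⟨1, [⟨33, 3, []⟩, ⟨4, 3, []⟩, ⟨64, 4, []⟩], [7, 3], 1, [(69, 1), (100, 1)]⟩,
⟨1, [⟨18, 3, []⟩, ⟨8, 3, []⟩, ⟨64, 4, []⟩], [7, 3], 1, [(74, 1), (88, 1)]⟩,
⟨1, [⟨18, 3, []⟩, ⟨5, 3, []⟩, ⟨8, 4, []⟩], [7, 3], 1, [(11, 1), (14, 1), (25, 1), (28, 1)]⟩,
⟨1, [⟨10, 3, []⟩, ⟨1, 3, []⟩, ⟨16, 4, []⟩], [7, 3], 1, [(19, 1), (25, 1)]⟩,
⟨1, [⟨2, 2, []⟩, ⟨4, 4, []⟩, ⟨8, 2, []⟩, ⟨16, 2, []⟩, ⟨64, 5, []⟩], [3, 1, 1, 12, 12, 12], 2, [(70, 1), (88, 1), (94, 2)]⟩,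
⟨0, [⟨1, 2, []⟩, ⟨2, 2, []⟩, ⟨8, 2, []⟩, ⟨16, 2, []⟩], [3, 3, 3, 12, 12, 12], 2, [(3, 1), (24, 1), (27, 2)]⟩,
⟨1, [⟨2, 2, []⟩, ⟨64, 2, []⟩], [3, 3, 3], 1, [(66, 1)]⟩,
⟨1, [⟨4, 3, []⟩, ⟨8, 3, []⟩, ⟨64, 4, []⟩], [7, 3], 1, [(76, 1)]⟩,
⟨1, [⟨2, 2, []⟩, ⟨4, 2, []⟩, ⟨8, 4, []⟩, ⟨16, 2, []⟩, ⟨64, 5, []⟩], [3, 3, 3, 12, 8, 8], 2, [(70, 1), (88, 1), (94, 2)]⟩,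
⟨0, [⟨1, 2, []⟩, ⟨48, 4, []⟩], [3, 1, 1], 1, [(17, 1), (33, 1)]⟩,
⟨1, [⟨17, 3, []⟩, ⟨8, 3, []⟩, ⟨64, 4, []⟩], [7, 3], 1, [(73, 1), (88, 1)]⟩,
⟨0, [⟨2, 2, []⟩, ⟨48, 4, []⟩], [3, 1, 1], 1, [(18, 1), (34, 1)]⟩,
⟨0, [⟨1, 2, []⟩, ⟨24, 4, []⟩], [3, 1, 1], 1, [(9, 1), (17, 1)]⟩,
⟨1, [⟨34, 3, []⟩, ⟨5, 3, []⟩, ⟨16, 4, []⟩], [7, 3], 1, [(19, 1), (22, 1), (49, 1), (52, 1)]⟩,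
⟨0, [⟨10, 4, []⟩, ⟨32, 2, []⟩], [3, 2, 2], 1, [(34, 1), (40, 1)]⟩,
⟨0, [⟨1, 2, []⟩, ⟨2, 2, []⟩, ⟨8, 2, []⟩, ⟨32, 2, []⟩], [3, 3, 3, 12, 12, 12], 2, [(3, 1), (40, 1), (43, 2)]⟩,
⟨0, [⟨48, 4, []⟩, ⟨8, 2, []⟩], [3, 2, 2], 1, [(24, 1), (40, 1)]⟩,
⟨0, [⟨10, 3, []⟩, ⟨32, 3, []⟩], [3, 3], 1, [(34, 1), (40, 1)]⟩,
⟨1, [⟨33, 3, []⟩, ⟨6, 3, []⟩, ⟨8, 4, []⟩], [7, 3], 1, [(11, 1), (13, 1), (42, 1), (44, 1)]⟩,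
⟨0, [⟨18, 4, []⟩, ⟨8, 2, []⟩], [3, 2, 2], 1, [(10, 1), (24, 1)]⟩,
⟨0, [⟨24, 4, []⟩, ⟨32, 2, []⟩], [3, 2, 2], 1, [(40, 1), (48, 1)]⟩,
⟨1, [⟨1, 2, []⟩, ⟨2, 2, []⟩, ⟨16, 4, []⟩, ⟨8, 2, []⟩, ⟨64, 5, []⟩], [3, 3, 3, 12, 8, 8], 2, [(67, 1), (88, 1), (91, 2)]⟩,
⟨0, [⟨16, 3, []⟩, ⟨32, 3, []⟩], [3, 3], 1, [(48, 1)]⟩,
⟨1, [⟨8, 2, []⟩, ⟨64, 2, []⟩], [3, 3, 3], 1, [(72, 1)]⟩,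
⟨1, [⟨34, 3, []⟩, ⟨20, 3, []⟩, ⟨64, 4, []⟩], [7, 3], 1, [(70, 1), (82, 1), (100, 1), (112, 1)]⟩,
⟨1, [⟨20, 3, []⟩, ⟨32, 3, []⟩, ⟨64, 4, []⟩], [7, 3], 1, [(100, 1), (112, 1)]⟩,
⟨1, [⟨17, 3, []⟩, ⟨32, 3, []⟩, ⟨64, 4, []⟩], [7, 3], 1, [(97, 1), (112, 1)]⟩,
⟨0, [⟨17, 4, []⟩, ⟨2, 2, []⟩], [3, 2, 2], 1, [(3, 1), (18, 1)]⟩,
⟨1, [⟨17, 3, []⟩, ⟨6, 3, []⟩, ⟨32, 4, []⟩], [7, 3], 1, [(35, 1), (37, 1), (50, 1), (52, 1)]⟩,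
⟨1, [⟨1, 2, []⟩, ⟨4, 2, []⟩, ⟨8, 4, []⟩, ⟨16, 2, []⟩, ⟨64, 5, []⟩], [3, 3, 3, 12, 8, 8], 2, [(69, 1), (88, 1), (93, 2)]⟩,
⟨1, [⟨1, 2, []⟩, ⟨4, 4, []⟩, ⟨8, 2, []⟩, ⟨16, 2, []⟩, ⟨64, 5, []⟩], [3, 1, 1, 12, 12, 12], 2, [(69, 1), (88, 1), (93, 2)]⟩,
⟨0, [⟨1, 2, []⟩, ⟨40, 4, []⟩], [3, 1, 1], 1, [(9, 1), (33, 1)]⟩,
⟨1, [⟨10, 3, []⟩, ⟨20, 3, []⟩, ⟨64, 4, []⟩], [7, 3], 1, [(70, 1), (76, 1), (82, 1), (88, 1)]⟩,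
⟨1, [⟨10, 3, []⟩, ⟨32, 3, []⟩, ⟨64, 4, []⟩], [7, 3], 1, [(98, 1), (104, 1)]⟩,
⟨0, [⟨38, 4, []⟩, ⟨8, 2, []⟩], [3, 2, 2], 1, [(10, 1), (12, 1), (40, 1)]⟩,
⟨0, [⟨21, 4, []⟩, ⟨8, 2, []⟩], [3, 2, 2], 1, [(9, 1), (12, 1), (24, 1)]⟩,
⟨0, [⟨18, 4, []⟩, ⟨1, 2, []⟩], [3, 2, 2], 1, [(3, 1), (17, 1)]⟩,
⟨1, [⟨0, 0, [(48, 2)]⟩, ⟨64, 2, []⟩], [3, 3, 3], 1, [(112, 1)]⟩,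
⟨0, [⟨8, 3, []⟩, ⟨32, 3, []⟩], [3, 3], 1, [(40, 1)]⟩,
⟨1, [⟨1, 2, []⟩, ⟨4, 2, []⟩, ⟨32, 4, []⟩, ⟨8, 2, []⟩, ⟨64, 5, []⟩], [3, 3, 3, 12, 8, 8], 2, [(69, 1), (104, 1), (109, 2)]⟩,
⟨1, [⟨8, 2, []⟩, ⟨32, 2, []⟩], [3, 3, 3], 1, [(40, 1)]⟩,
⟨1, [⟨1, 2, []⟩, ⟨4, 2, []⟩, ⟨8, 4, []⟩, ⟨32, 2, []⟩, ⟨64, 5, []⟩], [3, 3, 3, 12, 8, 8], 2, [(69, 1), (104, 1), (109, 2)]⟩,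
⟨0, [⟨3, 2, []⟩, ⟨4, 2, []⟩, ⟨8, 2, []⟩, ⟨32, 2, []⟩], [3, 3, 3, 12, 12, 12], 2, [(5, 1), (6, 1), (40, 1), (45, 2), (46, 2)]⟩,
⟨0, [⟨13, 4, []⟩, ⟨16, 2, []⟩], [3, 2, 2], 1, [(17, 1), (20, 1), (24, 1)]⟩,
⟨1, [⟨2, 2, []⟩, ⟨4, 2, []⟩, ⟨8, 4, []⟩, ⟨32, 2, []⟩, ⟨64, 5, []⟩], [3, 3, 3, 12, 8, 8], 2, [(70, 1), (104, 1), (110, 2)]⟩,
⟨1, [⟨1, 2, []⟩, ⟨2, 2, []⟩], [3, 3, 3], 1, [(3, 1)]⟩,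
⟨0, [⟨6, 2, []⟩, ⟨1, 2, []⟩, ⟨8, 2, []⟩, ⟨16, 2, []⟩], [3, 3, 3, 12, 12, 12], 2, [(3, 1), (5, 1), (24, 1), (27, 2), (29, 2)]⟩,
⟨1, [⟨2, 2, []⟩, ⟨4, 2, []⟩, ⟨16, 4, []⟩, ⟨32, 2, []⟩, ⟨64, 5, []⟩], [3, 3, 3, 12, 8, 8], 2, [(70, 1), (112, 1), (118, 2)]⟩,
⟨1, [⟨10, 3, []⟩, ⟨5, 3, []⟩, ⟨16, 4, []⟩], [7, 3], 1, [(19, 1), (22, 1), (25, 1), (28, 1)]⟩,
⟨0, [⟨100, 4, []⟩, ⟨8, 2, []⟩], [3, 2, 2], 1, [(12, 1), (40, 1), (72, 1)]⟩,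
⟨0, [⟨40, 2, []⟩, ⟨16, 4, []⟩], [3, 1, 1], 1, [(24, 1), (48, 1)]⟩,
⟨1, [⟨20, 3, []⟩, ⟨8, 3, []⟩, ⟨64, 4, []⟩], [7, 3], 1, [(76, 1), (88, 1)]⟩,
⟨0, [⟨34, 3, []⟩, ⟨16, 3, []⟩], [3, 3], 1, [(18, 1), (48, 1)]⟩,
⟨0, [⟨33, 4, []⟩, ⟨2, 2, []⟩], [3, 2, 2], 1, [(3, 1), (34, 1)]⟩,
⟨1, [⟨48, 3, []⟩, ⟨8, 3, []⟩, ⟨64, 4, []⟩], [7, 3], 1, [(88, 1), (104, 1)]⟩,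
⟨1, [⟨0, 0, [(24, 2)]⟩, ⟨32, 2, []⟩], [3, 3, 3], 1, [(56, 1)]⟩,
⟨1, [⟨9, 3, []⟩, ⟨36, 3, []⟩, ⟨64, 4, []⟩], [7, 3], 1, [(69, 1), (76, 1), (97, 1), (104, 1)]⟩,
⟨0, [⟨44, 4, []⟩, ⟨16, 2, []⟩], [3, 2, 2], 1, [(20, 1), (24, 1), (48, 1)]⟩,
⟨0, [⟨38, 4, []⟩, ⟨16, 2, []⟩], [3, 2, 2], 1, [(18, 1), (20, 1), (48, 1)]⟩,
⟨0, [⟨3, 2, []⟩, ⟨12, 4, []⟩], [3, 1, 1], 1, [(5, 1), (6, 1), (9, 1), (10, 1)]⟩,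
⟨1, [⟨33, 3, []⟩, ⟨2, 3, []⟩, ⟨8, 4, []⟩], [7, 3], 1, [(11, 1), (42, 1)]⟩,
⟨1, [⟨9, 3, []⟩, ⟨2, 3, []⟩, ⟨32, 4, []⟩], [7, 3], 1, [(35, 1), (42, 1)]⟩,
⟨1, [⟨18, 3, []⟩, ⟨32, 3, []⟩, ⟨64, 4, []⟩], [7, 3], 1, [(98, 1), (112, 1)]⟩,
⟨1, [⟨0, 0, [(40, 2)]⟩, ⟨64, 2, []⟩], [3, 3, 3], 1, [(104, 1)]⟩,
⟨1, [⟨1, 2, []⟩, ⟨64, 2, []⟩], [3, 3, 3], 1, [(65, 1)]⟩]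

theorem base_ok : base.all (fun q => q.ok 7 2 [7, 56, 3] [10, 2000, 2000, 2000] big4 []) = true := by
  decide +kernel

theorem gv_ok : gv.all (fun c => c.ok 1 9) = true := by decide +kernel

theorem gads_ok : gads.all (fun g => g.okV 7 2 [2, 0]) = true := by decide +kernel

theorem cmp_ok : cmpR names cnf (clsu 2 base ++ (gv.map Gv.cl ++ gads.map Gt.cl)) = true := by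
  decide +kernel

end DG07

theorem instl_07 : instL 1 2 [2, 0] [3] 10 9 DG07.base DG07.gv DG07.gads DG07.names DG07.cnf DG07.db DG07.prf = true :=
  instL_of DG07.base_ok DG07.gv_ok DG07.gads_ok (by decide +kernel) DG07.okc DG07.cmp_ok DG07.chk_ok

/-- there is no configuration of this instance. -/
theorem nol_07 {V : Type v} [DecidableEq V] {ι : Type u} [Fintype ι] {B : ι → Finset V}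
    {Q : Finset V} {x : ℕ → V} {C : ℕ → Finset V}
    (h : CfL B Q 1 2 x C [2, 0] [3] 10 9) : False :=
  h.absurd instl_07

end Pool.Agent.Hyp6
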