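import Pool.Agent.Hyp6.CfGb
import Pool.Agent.Hyp6.InsG.F16

/-!
# HYP6: leaf instance 16: n = 1, r = 2, bounds [0, 2], inner blocks [65]

863 base clauses, 37 given clauses, 316 gadgets, 650 learned clauses.
-/

set_option autoImplicit false
set_option maxRecDepth 100000

namespace Pool.Agent.Hyp6

open Rup

universe u v

namespace DG16

noncomputable def base : List Ru := [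
.rs (.join 1 8 4 4 4 0 [(3, 0)]),
.rs (.ab 0 6),
.rs (.join 1 10 6 4 1 3 [(1, 0), (3, 0)]),
.rs (.deg 2 [3, 0]),
.rs (.mono 0 32 96 1),
.rs (.mono 0 16 20 1),
.rs (.lipl 1 37 109 0 72),
.rs (.join 1 1 5 4 2 2 [(0, 0)]),
.rs (.join 1 1 2 3 1 2 [(0, 0)]),
.rs (.le 1 40 32 5 1),
.rs (.join 1 8 6 4 2 2 [(3, 0)]),
.rs (.deg 2 [1, 2]),
.rs (.part [72, 52] [0, 0] [3] []),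
.degU 3 [(0, 1), (1, 4)],
.rs (.join 1 2 4 4 4 0 [(1, 0)]),
.rs (.le 0 18 16 4 1),
.rs (.lipl 1 84 94 0 10),
.rs (.ordL 0 20 1),
.rs (.mono 1 48 112 1),
.rs (.part [66, 13] [0, 0] [48] []),
.rs (.mono 0 32 40 1),
.rs (.mono 0 8 9 1),
.rs (.le 0 9 8 3 2),
.rs (.deg 3 [2, 1]),
.rs (.l2 0 33 96 5 1 1),
.rs (.l2 1 12 72 3 1 2),
.rs (.lipl 1 41 59 1 18),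
.rs (.l2 0 6 66 1 1 1),
.rs (.join 1 2 2 4 3 2 [(1, 1)]),
.rs (.ordE 0 2 3),
.rs (.slot 0 [(0, 3), (1, 2), (2, 2), (4, 1), (5, 1), (6, 1)]),
.rs (.part [10, 117] [0, 1] [] []),
.rs (.le 1 3 1 0 1),
.rs (.mono 0 2 18 1),
.rs (.join 1 4 3 3 3 0 [(2, 0)]),
.degU 2 [(0, 5)],
.rs (.lipl 1 21 117 0 96),
.rs (.part [12, 50] [0, 0] [65] []),
.rs (.join 0 8 6 2 2 0 [(3, 0)]),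
.rs (.mono 1 33 41 1),
.rs (.l2 1 20 24 4 1 1),
.rs (.mono 0 8 40 1),
.rs (.lip 0 5 29 56),
.rs (.l2 0 34 96 5 1 1),
.rs (.mono 1 12 28 1),
.rs (.mono 1 1 3 1),
.rs (.le 1 33 1 0 3),
.rs (.join 0 16 6 2 1 1 [(4, 0)]),
.rs (.mono 0 64 80 1),
.rs (.join 1 36 6 4 3 3 [(2, 1), (5, 1)]),
.rs (.le 1 72 64 6 4),
.rs (.deg 6 [0, 3]),
.rs (.ordE 0 32 1),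
.rs (.deg 1 [0, 3]),
.rs (.mono 1 32 34 1),
.rs (.mono 0 32 34 1),
.rs (.join 1 1 4 5 2 3 [(0, 0)]),
.rs (.lipl 1 82 91 1 9),
.rs (.join 1 4 4 4 1 3 [(2, 0)]),
.rs (.lip 0 3 51 56),
.rs (.join 0 2 4 2 2 1 [(1, 1)]),
.rs (.part [18, 44] [0, 0] [65] []),
.rs (.part [68, 59] [0, 1] [] []),
.rs (.ordE 1 16 2),
.rs (.part [65, 6] [0, 0] [56] []),
.rs (.l2 1 36 40 5 1 1),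
.rs (.join 1 2 3 4 4 3 [(1, 3)]),
.rs (.part [48, 72] [0, 0] [7] []),
.rs (.part [66, 61] [0, 1] [] []),
.degU 6 [(0, 1), (1, 4)],
.rs (.l2 0 66 72 6 1 1),
.rs (.lipl 1 11 91 0 80),
.rs (.lipl 1 19 91 0 72),
.rs (.lipl 1 98 118 0 20),
.rs (.le 1 12 8 3 3),
.rs (.deg 5 [2, 1]),
.rs (.join 1 2 2 3 1 2 [(1, 0)]),
.rs (.join 1 16 6 4 0 4 [(4, 0)]),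
.rs (.le 1 48 32 5 1),
.rs (.deg 5 [1, 2]),
.rs (.join 0 4 4 2 2 0 [(2, 0)]),
.rs (.slot 0 [(0, 1), (2, 3), (1, 4), (4, 1), (6, 1)]),
.rs (.ab2 0 80),
.rs (.slot 0 [(1, 4), (2, 2), (4, 3), (6, 1)]),
.rs (.deg 2 [2, 1]),
.rs (.l2 1 5 17 0 1 1),
.rs (.un 1 0),
.rs (.part [27, 100] [1, 0] [] []),
.rs (.mono 1 16 18 1),
.rs (.slot 0 [(2, 2), (1, 3), (5, 1), (4, 3), (6, 1)]),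
.rs (.slot 0 [(2, 1), (1, 4), (4, 4), (6, 1)]),
.rs (.join 1 4 5 2 2 0 [(2, 0)]),
.rs (.join 0 4 3 2 2 0 [(2, 0)]),
.rs (.le 0 36 32 5 1),
.rs (.le 1 96 32 5 3),
.degU 3 [(0, 3), (1, 2)],
.rs (.part [72, 49] [0, 0] [6] []),
.rs (.lip 0 3 27 56),
.rs (.hall [0] [0, 1, 2]),
.rs (.lipl 1 44 110 0 66),
.rs (.lipl 1 76 109 1 33),
.rs (.mono 1 18 26 1),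
.rs (.lip 0 6 30 56),
.rs (.ordE 0 64 3),
.rs (.un 1 1),
.rs (.lipl 1 84 93 1 9),
.rs (.deg 2 [0, 3]),
.rs (.mono 1 5 21 1),
.rs (.join 1 8 4 4 2 3 [(3, 1)]),
.rs (.slot 0 [(1, 2), (2, 3), (3, 4), (6, 1)]),
.rs (.join 1 1 4 4 2 3 [(0, 1)]),
.rs (.join 1 2 4 4 2 3 [(1, 1)]),
.rs (.slot 0 [(1, 1), (5, 2), (3, 3), (4, 3), (6, 1)]),
.rs (.le 1 3 2 1 1),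
.degU 4 [(0, 2), (1, 3)],
.rs (.slot 0 [(2, 1), (4, 2), (3, 3), (5, 3), (6, 1)]),
.rs (.join 0 2 4 2 1 1 [(1, 0)]),
.rs (.le 0 65 64 6 1),
.rs (.part [18, 69] [0, 0] [40] []),
.rs (.ab2 1 80),
.rs (.deg 4 [0, 3]),
.rs (.lipl 1 100 110 0 10),
.rs (.le 0 9 8 3 1),
.rs (.join 1 2 5 4 1 3 [(1, 0)]),
.rs (.l2 1 5 12 2 1 2),
.rs (.join 1 2 4 4 2 2 [(1, 0)]),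
.rs (.join 1 1 3 4 1 3 [(0, 0)]),
.rs (.join 0 8 4 2 0 3 [(3, 1)]),
.rs (.l2 1 20 48 4 1 1),
.rs (.l2 1 20 80 4 1 2),
.rs (.mono 1 8 9 1),
.rs (.lipl 1 98 110 1 12),
.rs (.deg 3 [1, 2]),
.rs (.le 1 34 32 5 1),
.rs (.lipl 1 98 107 1 9),
.rs (.l2 1 18 80 4 1 3),
.rs (.join 1 1 5 4 1 3 [(0, 0)]),
.rs (.join 1 4 3 4 3 1 [(2, 0)]),
.rs (.join 1 16 5 3 2 2 [(4, 1)]),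
.rs (.part [33, 94] [0, 1] [] []),
.rs (.join 1 2 5 4 3 1 [(1, 0)]),
.rs (.join 0 8 5 2 2 0 [(3, 0)]),
.rs (.lipl 1 82 94 1 12),
.rs (.join 1 4 5 3 2 1 [(2, 0)]),
.rs (.join 1 2 2 4 2 3 [(1, 1)]),
.rs (.l2 1 40 96 5 1 1),
.rs (.join 0 1 3 2 2 0 [(0, 0)]),
.rs (.part [1, 70] [0, 0] [56] []),
.rs (.join 1 8 5 4 2 3 [(3, 1)]),
.rs (.mono 1 16 17 1),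
.rs (.l2 1 3 10 1 1 2),
.rs (.part [12, 115] [0, 1] [] []),
.rs (.l2 1 6 66 1 1 3),
.rs (.join 1 16 5 4 3 1 [(4, 0)]),
.rs (.lipl 1 74 91 1 17),
.rs (.mono 1 32 36 1),
.rs (.slot 0 [(2, 1), (3, 2), (4, 3), (5, 3), (6, 1)]),
.rs (.mono 0 16 80 1),
.rs (.slot 0 [(0, 1), (2, 3), (1, 4), (3, 1), (6, 1)]),
.rs (.l2 0 6 10 1 1 1),
.rs (.ab2 1 96),
.rs (.deg 4 [2, 1]),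
.rs (.un 1 3),
.rs (.le 1 80 16 4 2),
.rs (.slot 0 [(1, 4), (2, 2), (5, 3), (6, 1)]),
.rs (.l2 0 5 17 0 1 1),
.rs (.l2 1 12 24 3 1 1),
.rs (.join 1 2 5 4 4 1 [(1, 1)]),
.rs (.hall [0] [0, 2, 6]),
.rs (.slot 0 [(1, 2), (2, 3), (3, 1), (5, 3), (6, 1)]),
.rs (.l2 1 65 68 6 2 2),
.rs (.lip 0 64 71 7),
.rs (.l2 1 10 24 3 1 1),
.rs (.part [43, 84] [1, 0] [] []),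
.rs (.slot 0 [(0, 1), (3, 2), (4, 3), (5, 3), (6, 1)]),
.rs (.l2 1 9 33 0 1 2),
.rs (.join 1 4 4 4 3 1 [(2, 0)]),
.rs (.part [4, 67] [0, 0] [56] []),
.rs (.l2 1 10 18 1 1 1),
.rs (.lipl 1 13 109 0 96),
.rs (.le 1 96 64 6 4),
.rs (.slot 0 [(1, 2), (2, 3), (4, 1), (3, 3), (6, 1)]),
.rs (.join 1 1 4 5 1 4 [(0, 0)]),
.rs (.slot 0 [(2, 2), (1, 3), (5, 1), (3, 3), (6, 1)]),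
.rs (.join 1 8 6 4 4 3 [(3, 3)]),
.rs (.l2 1 20 80 4 1 1),
.rs (.join 1 8 4 4 1 3 [(3, 0)]),
.rs (.le 1 48 16 4 1),
.rs (.lipl 0 66 86 1 20),
.rs (.l2 1 3 18 1 1 2),
.rs (.join 1 20 6 4 3 3 [(2, 0), (4, 2)]),
.rs (.mono 1 4 6 1),
.rs (.l2 0 12 24 3 1 1),
.rs (.join 1 32 6 4 1 3 [(5, 0)]),
.rs (.ordE 0 4 3),
.rs (.join 1 2 5 4 3 2 [(1, 1)]),
.rs (.l2 1 36 96 5 1 2),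
.degU 1 [(0, 1), (1, 4)],
.rs (.lipl 1 42 122 1 80),
.rs (.slot 0 [(2, 1), (3, 2), (4, 2), (5, 4), (6, 1)]),
.rs (.join 1 16 5 4 0 4 [(4, 0)]),
.rs (.un 0 2),
.rs (.l2 1 18 24 4 1 1),
.rs (.lipl 0 66 102 1 36),
.rs (.join 0 1 5 2 1 1 [(0, 0)]),
.rs (.join 1 2 4 4 1 3 [(1, 0)]),
.rs (.ordE 0 16 3),
.rs (.join 1 4 3 4 4 3 [(2, 3)]),
.rs (.join 1 6 4 4 3 1 [(1, 0), (2, 0)]),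
.rs (.part [66, 21] [0, 0] [40] []),
.rs (.l2 1 3 17 0 1 1),
.rs (.mono 0 64 72 1),
.rs (.lipl 1 98 110 0 12),
.rs (.un 1 5),
.rs (.le 0 12 8 3 1),
.rs (.part [2, 69] [0, 0] [56] []),
.rs (.l2 1 34 96 5 1 2),
.rs (.l2 1 65 66 6 1 3),
.rs (.lipl 1 74 110 0 36),
.rs (.le 1 72 8 3 2),
.rs (.le 0 10 8 3 1),
.degU 3 [(0, 4), (1, 1)],
.rs (.l2 0 65 66 6 1 1),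
.rs (.l2 1 6 66 1 1 1),
.rs (.part [6, 65] [0, 0] [56] []),
.rs (.join 1 4 5 4 4 0 [(2, 0)]),
.rs (.part [8, 112] [0, 0] [7] []),
.rs (.mono 1 2 6 1),
.rs (.lip 0 6 54 56),
.rs (.join 0 1 4 2 3 1 [(0, 2)]),
.rs (.le 0 68 64 6 2),
.rs (.join 0 1 4 2 1 2 [(0, 1)]),
.rs (.part [36, 67] [0, 0] [24] []),
.rs (.join 0 2 2 2 1 1 [(1, 0)]),
.rs (.l2 1 20 80 4 1 3),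
.rs (.ordE 0 16 2),
.rs (.join 1 4 5 2 1 1 [(2, 0)]),
.rs (.ab2 0 34),
.rs (.part [77, 50] [1, 0] [] []),
.rs (.join 1 2 6 4 4 3 [(1, 3)]),
.rs (.join 1 4 4 2 1 1 [(2, 0)]),
.rs (.lipl 1 98 118 1 20),
.rs (.join 1 1 2 4 2 3 [(0, 1)]),
.rs (.join 1 4 5 4 2 2 [(2, 0)]),
.rs (.join 1 6 4 4 2 2 [(1, 0), (2, 0)]),
.rs (.join 1 4 5 4 1 3 [(2, 0)]),
.rs (.slot 0 [(2, 1), (3, 3), (4, 3), (5, 3)]),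
.rs (.join 1 4 4 4 4 0 [(2, 0)]),
.rs (.part [17, 110] [0, 1] [] []),
.rs (.l2 0 66 68 6 1 1),
.rs (.lipl 1 100 110 1 10),
.rs (.join 1 2 5 4 4 3 [(1, 3)]),
.rs (.part [80, 42] [0, 0] [5] []),
.rs (.l2 0 36 48 5 1 1),
.rs (.join 0 1 1 2 1 1 [(0, 0)]),
.rs (.l2 0 65 72 6 1 1),
.rs (.le 0 17 16 4 1),
.rs (.ordE 1 32 1),
.rs (.slot 0 [(0, 1), (2, 3), (1, 4), (5, 1), (6, 1)]),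
.rs (.lipl 1 76 93 1 17),
.degU 2 [(0, 4), (1, 1)],
.rs (.join 0 16 5 2 1 1 [(4, 0)]),
.rs (.join 1 1 1 3 1 2 [(0, 0)]),
.rs (.le 1 80 16 4 3),
.rs (.l2 0 6 36 2 1 1),
.rs (.mono 1 18 50 1),
.rs (.le 0 24 16 4 2),
.rs (.part [18, 109] [0, 1] [] []),
.rs (.l2 1 5 33 0 1 1),
.rs (.mono 1 8 10 1),
.rs (.join 1 1 6 4 2 2 [(0, 0)]),
.rs (.le 0 20 16 4 1),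
.rs (.slot 0 [(2, 4), (3, 1), (5, 4), (6, 1)]),
.rs (.deg 3 [0, 3]),
.rs (.ab2 0 24),
.rs (.lipl 1 25 61 1 36),
.degU 3 [(0, 5)],
.rs (.le 1 10 8 3 4),
.rs (.join 1 4 4 4 4 3 [(2, 3)]),
.rs (.ab 0 1),
.degU 4 [(0, 3), (1, 2)],
.rs (.join 1 12 6 4 1 3 [(2, 0), (3, 0)]),
.rs (.join 1 16 5 5 3 4 [(4, 2)]),
.rs (.join 1 8 6 4 3 3 [(3, 2)]),
.rs (.l2 1 20 68 2 1 3),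
.rs (.ab 0 0),
.rs (.join 1 20 6 4 1 3 [(2, 0), (4, 0)]),
.rs (.le 1 5 4 2 1),
.rs (.slot 0 [(1, 1), (2, 4), (4, 4), (6, 1)]),
.rs (.lipl 1 50 118 0 68),
.rs (.mono 1 32 48 1),
.rs (.mono 1 24 88 1),
.rs (.join 1 2 3 4 2 3 [(1, 1)]),
.rs (.le 0 68 64 6 1),
.rs (.part [3, 68] [0, 0] [56] []),
.rs (.lipl 1 100 118 0 18),
.rs (.join 0 1 5 2 2 1 [(0, 1)]),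
.rs (.part [68, 11] [0, 0] [48] []),
.rs (.part [6, 56] [0, 0] [65] []),
.rs (.l2 1 9 17 0 1 2),
.rs (.ab2 0 5),
.rs (.un 0 3),
.rs (.lipl 1 74 110 1 36),
.rs (.join 1 8 4 5 3 3 [(3, 1)]),
.rs (.l2 1 6 34 1 1 1),
.rs (.le 0 12 4 2 2),
.rs (.mono 1 1 5 1),
.rs (.le 0 96 64 6 1),
.rs (.slot 0 [(2, 1), (1, 4), (3, 4), (6, 1)]),
.rs (.slot 0 [(1, 1), (4, 2), (5, 2), (3, 4), (6, 1)]),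
.rs (.l2 1 34 66 1 1 3),
.rs (.l2 0 9 72 3 1 1),
.rs (.l2 0 12 36 2 1 1),
.rs (.join 1 4 6 4 3 3 [(2, 2)]),
.rs (.join 1 1 2 3 2 2 [(0, 1)]),
.rs (.slot 0 [(1, 4), (3, 1), (5, 4), (6, 1)]),
.rs (.join 1 2 3 4 1 3 [(1, 0)]),
.rs (.lipl 0 18 54 1 36),
.rs (.part [85, 42] [1, 0] [] []),
.rs (.part [101, 26] [1, 0] [] []),
.rs (.le 1 9 1 0 3),
.rs (.join 1 1 4 4 2 2 [(0, 0)]),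
.rs (.join 1 8 4 4 0 4 [(3, 0)]),
.rs (.l2 1 34 40 5 1 1),
.rs (.join 1 1 3 5 1 4 [(0, 0)]),
.rs (.ordE 1 2 2),
.rs (.ab2 0 48),
.rs (.deg 0 [0, 2]),
.rs (.deg 6 [3, 0]),
.rs (.lipl 1 88 121 1 33),
.rs (.lipl 1 82 115 1 33),
.rs (.join 1 16 6 4 2 2 [(4, 0)]),
.rs (.ab2 1 66),
.rs (.le 1 40 8 3 1),
.rs (.join 0 4 4 2 1 1 [(2, 0)]),
.rs (.l2 1 10 72 3 1 2),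
.rs (.mono 0 2 34 1),
.rs (.join 1 16 5 4 4 0 [(4, 0)]),
.rs (.slot 0 [(0, 3), (1, 2), (2, 2), (3, 1), (4, 1), (6, 1)]),
.rs (.join 1 16 5 4 2 3 [(4, 1)]),
.rs (.le 1 18 16 4 1),
.rs (.join 1 8 4 4 3 3 [(3, 2)]),
.rs (.mono 0 4 6 1),
.rs (.join 1 16 5 4 3 2 [(4, 1)]),
.rs (.ab 0 2),
.rs (.lipl 0 33 53 1 20),
.rs (.part [80, 41] [0, 0] [6] []),
.rs (.join 1 8 5 4 0 4 [(3, 0)]),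
.rs (.le 1 36 32 5 4),
.rs (.part [66, 37] [0, 0] [24] []),
.rs (.hall [0] [3, 5, 6]),
.rs (.slot 0 [(2, 2), (1, 3), (4, 1), (3, 3), (6, 1)]),
.rs (.le 1 68 64 6 4),
.rs (.lipl 1 84 118 1 34),
.rs (.join 1 4 6 4 4 3 [(2, 3)]),
.rs (.hall [0] [1, 2, 6]),
.rs (.join 1 2 6 4 2 3 [(1, 1)]),
.rs (.l2 0 5 65 0 1 1),
.rs (.mono 1 16 48 1),
.rs (.ab 0 3),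
.rs (.join 1 18 6 4 2 3 [(1, 0), (4, 1)]),
.rs (.ordE 1 8 2),
.rs (.part [36, 88] [0, 0] [3] []),
.rs (.l2 1 36 96 5 2 3),
.rs (.ab2 1 68),
.rs (.slot 0 [(0, 3), (1, 2), (2, 2), (3, 1), (5, 1), (6, 1)]),
.rs (.join 0 2 3 2 1 1 [(1, 0)]),
.rs (.slot 0 [(1, 1), (4, 2), (3, 3), (5, 3), (6, 1)]),
.rs (.join 1 4 5 4 2 3 [(2, 1)]),
.rs (.join 1 2 2 4 1 3 [(1, 0)]),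
.rs (.mono 0 16 18 1),
.rs (.lipl 0 68 101 0 33),
.rs (.mono 1 32 40 1),
.rs (.ordE 0 1 1),
.rs (.mono 1 10 26 1),
.rs (.join 1 4 3 1 1 0 [(2, 0)]),
.rs (.join 1 16 6 4 3 3 [(4, 2)]),
.rs (.slot 0 [(0, 1), (2, 2), (1, 4), (3, 1), (5, 1), (6, 1)]),
.rs (.l2 1 17 33 0 1 1),
.rs (.slot 0 [(1, 4), (2, 2), (3, 3), (6, 1)]),
.rs (.slot 0 [(1, 2), (2, 3), (5, 1), (4, 3), (6, 1)]),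
.rs (.hall [0] [0, 1, 6]),
.rs (.lipl 1 28 94 0 66),
.rs (.join 1 6 5 4 3 1 [(1, 0), (2, 0)]),
.rs (.l2 0 6 18 1 1 1),
.rs (.part [16, 104] [0, 0] [7] []),
.rs (.ordE 1 16 3),
.rs (.join 1 1 5 5 2 4 [(0, 1)]),
.rs (.ab2 1 65),
.rs (.le 0 33 32 5 2),
.rs (.join 1 1 1 4 2 3 [(0, 1)]),
.rs (.part [20, 67] [0, 0] [40] []),
.rs (.join 0 1 3 2 0 3 [(0, 1)]),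
.rs (.join 1 2 3 4 4 0 [(1, 0)]),
.rs (.lipl 0 68 85 0 17),
.rs (.join 0 16 6 2 2 0 [(4, 0)]),
.rs (.join 1 8 5 4 4 0 [(3, 0)]),
.rs (.l2 0 68 80 6 1 1),
.rs (.le 1 96 32 5 2),
.rs (.lipl 1 76 94 0 18),
.rs (.deg 1 [2, 1]),
.rs (.mono 0 16 24 1),
.rs (.l2 1 10 72 3 1 3),
.rs (.l2 0 5 33 0 1 1),
.rs (.lipl 0 18 27 0 9),
.rs (.slot 0 [(2, 1), (3, 2), (5, 2), (4, 4), (6, 1)]),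
.rs (.slot 0 [(1, 1), (2, 3), (3, 1), (5, 1), (4, 4)]),
.rs (.part [32, 88] [0, 0] [7] []),
.rs (.part [51, 76] [1, 0] [] []),
.rs (.part [30, 97] [1, 0] [] []),
.rs (.lipl 1 82 94 0 12),
.rs (.join 1 1 5 4 1 4 [(0, 1)]),
.rs (.mono 0 4 20 1),
.rs (.l2 0 3 66 1 1 1),
.rs (.l2 0 6 34 1 1 1),
.rs (.l2 0 48 96 5 1 1),
.rs (.un 1 4),
.rs (.lipl 1 84 94 1 10),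
.rs (.le 0 24 8 3 2),
.rs (.lipl 1 21 93 0 72),
.rs (.join 1 2 6 4 0 4 [(1, 0)]),
.rs (.l2 1 10 72 3 1 1),
.rs (.deg 0 [2, 0]),
.rs (.le 1 80 16 4 1),
.rs (.lipl 1 25 93 1 68),
.rs (.le 1 12 8 3 4),
.rs (.le 1 17 1 0 4),
.rs (.lipl 1 19 115 0 96),
.rs (.slot 0 [(0, 1), (1, 3), (2, 4), (4, 1), (6, 1)]),
.rs (.l2 1 6 68 2 1 1),
.rs (.le 1 20 16 4 4),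
.rs (.part [72, 48] [0, 0] [7] []),
.rs (.join 1 8 5 3 2 2 [(3, 1)]),
.rs (.lipl 0 66 99 0 33),
.rs (.join 0 2 5 2 0 2 [(1, 0)]),
.rs (.slot 0 [(0, 1), (3, 3), (4, 3), (5, 3)]),
.rs (.join 1 6 3 4 2 2 [(1, 0), (2, 0)]),
.rs (.join 1 16 6 4 4 3 [(4, 3)]),
.rs (.slot 0 [(2, 1), (5, 2), (3, 3), (4, 3), (6, 1)]),
.rs (.hall [0] [3, 4, 6]),
.rs (.mono 1 5 37 1),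
.rs (.lipl 1 82 118 1 36),
.rs (.slot 0 [(0, 1), (1, 3), (2, 3), (4, 3)]),
.rs (.l2 0 5 9 0 1 1),
.rs (.l2 0 34 48 5 1 1),
.rs (.part [96, 28] [0, 0] [3] []),
.rs (.mono 1 34 42 1),
.rs (.join 1 1 6 4 2 3 [(0, 1)]),
.rs (.ab2 0 6),
.rs (.mono 0 2 6 1),
.rs (.le 0 48 32 5 1),
.degU 5 [(0, 5)],
.rs (.part [66, 5] [0, 0] [56] []),
.rs (.join 0 2 6 2 1 1 [(1, 0)]),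
.rs (.part [34, 93] [0, 1] [] []),
.rs (.part [29, 98] [1, 0] [] []),
.rs (.l2 1 3 5 0 1 1),
.rs (.mono 0 16 17 1),
.rs (.lipl 1 38 118 0 80),
.rs (.ordE 1 4 2),
.rs (.join 0 1 3 2 1 1 [(0, 0)]),
.rs (.ordE 1 1 2),
.rs (.le 0 72 64 6 1),
.rs (.part [99, 28] [1, 0] [] []),
.rs (.l2 1 6 68 2 1 3),
.rs (.l2 0 66 80 6 1 1),
.rs (.join 1 2 5 4 2 3 [(1, 1)]),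
.rs (.join 1 2 4 3 3 0 [(1, 0)]),
.rs (.ordE 1 4 1),
.rs (.slot 0 [(0, 1), (3, 2), (4, 2), (5, 4), (6, 1)]),
.rs (.le 1 17 1 0 3),
.rs (.deg 4 [3, 0]),
.rs (.lipl 1 84 117 1 33),
.rs (.join 1 1 4 3 2 4 [(0, 3)]),
.degU 0 [(0, 4)],
.rs (.join 1 16 5 4 3 3 [(4, 2)]),
.rs (.l2 0 65 96 6 1 1),
.rs (.l2 1 18 80 4 1 2),
.rs (.join 1 1 5 5 2 3 [(0, 0)]),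
.rs (.ab2 0 3),
.rs (.join 0 1 1 2 3 0 [(0, 1)]),
.rs (.lipl 1 38 110 0 72),
.rs (.l2 1 6 18 1 1 1),
.rs (.part [5, 66] [0, 0] [56] []),
.rs (.join 1 4 6 4 2 3 [(2, 1)]),
.rs (.slot 0 [(2, 4), (1, 2), (4, 3), (6, 1)]),
.rs (.lipl 1 44 124 1 80),
.rs (.join 1 10 6 4 3 3 [(1, 0), (3, 2)]),
.rs (.part [34, 28] [0, 0] [65] []),
.rs (.join 1 1 1 3 3 0 [(0, 0)]),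
.rs (.lipl 1 35 107 0 72),
.rs (.slot 0 [(1, 1), (3, 2), (5, 2), (4, 4), (6, 1)]),
.rs (.slot 0 [(1, 1), (3, 2), (4, 2), (5, 4), (6, 1)]),
.rs (.lipl 1 25 91 1 66),
.rs (.l2 1 34 96 5 1 3),
.rs (.le 1 20 16 4 1),
.rs (.join 0 4 3 2 1 1 [(2, 0)]),
.rs (.slot 0 [(1, 2), (2, 3), (3, 1), (4, 3), (6, 1)]),
.rs (.join 0 2 6 2 2 0 [(1, 0)]),
.rs (.join 1 6 5 4 2 2 [(1, 0), (2, 0)]),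
.rs (.lipl 0 66 83 0 17),
.rs (.un 1 2),
.rs (.mono 1 33 49 1),
.rs (.join 0 4 5 2 2 0 [(2, 0)]),
.rs (.part [96, 24] [0, 0] [7] []),
.rs (.lipl 0 66 75 0 9),
.rs (.part [83, 44] [1, 0] [] []),
.rs (.lipl 0 3 99 1 96),
.rs (.join 0 8 5 2 3 0 [(3, 1)]),
.rs (.part [64, 7] [0, 0] [56] []),
.rs (.part [6, 121] [0, 1] [] []),
.rs (.lipl 1 74 94 0 20),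
.rs (.join 0 8 4 2 1 1 [(3, 0)]),
.rs (.join 1 4 3 4 1 3 [(2, 0)]),
.rs (.mono 1 8 12 1),
.rs (.mono 1 66 74 1),
.rs (.un 0 5),
.rs (.mono 0 8 12 1),
.rs (.lipl 1 50 122 1 72),
.rs (.join 1 2 4 4 4 1 [(1, 1)]),
.rs (.join 1 32 6 4 2 3 [(5, 1)]),
.rs (.join 1 2 3 3 3 0 [(1, 0)]),
.rs (.join 1 2 4 4 3 1 [(1, 0)]),
.rs (.le 1 36 32 5 1),
.rs (.le 0 3 2 1 2),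
.rs (.join 1 2 4 3 2 1 [(1, 0)]),
.rs (.join 1 16 5 4 1 3 [(4, 0)]),
.rs (.deg 3 [3, 0]),
.rs (.lip 0 6 46 56),
.rs (.part [75, 52] [1, 0] [] []),
.rs (.join 1 1 4 4 1 3 [(0, 0)]),
.rs (.mono 1 10 42 1),
.rs (.l2 0 65 80 6 1 1),
.rs (.l2 1 66 68 6 3 1),
.rs (.join 1 4 5 4 4 3 [(2, 3)]),
.rs (.join 1 4 3 4 2 3 [(2, 1)]),
.rs (.join 1 1 1 3 2 2 [(0, 1)]),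
.rs (.lipl 1 14 110 0 96),
.rs (.join 1 10 6 4 3 3 [(1, 2), (3, 0)]),
.rs (.le 1 34 32 5 4),
.rs (.join 1 2 2 4 3 3 [(1, 2)]),
.rs (.mono 1 20 52 1),
.rs (.l2 1 18 80 4 1 1),
.rs (.join 1 16 5 5 4 3 [(4, 2)]),
.rs (.lipl 0 68 77 0 9),
.rs (.join 0 4 4 2 0 3 [(2, 1)]),
.rs (.lipl 1 42 110 0 68),
.rs (.mono 1 9 41 1),
.rs (.part [3, 124] [0, 1] [] []),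
.rs (.lipl 1 49 115 1 66),
.rs (.mono 0 4 5 1),
.rs (.lipl 0 5 101 1 96),
.degU 0 [(0, 1), (1, 3)],
.rs (.lipl 1 22 118 0 96),
.rs (.join 1 4 6 4 1 3 [(2, 0)]),
.rs (.l2 1 36 96 5 1 1),
.rs (.join 1 2 3 4 3 2 [(1, 1)]),
.rs (.ordE 0 64 2),
.rs (.join 0 1 4 2 2 0 [(0, 0)]),
.rs (.lipl 1 26 94 0 68),
.rs (.ab2 1 72),
.rs (.part [34, 69] [0, 0] [24] []),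
.rs (.le 1 80 64 6 4),
.rs (.le 1 33 1 0 2),
.rs (.join 1 20 6 4 2 3 [(2, 0), (4, 1)]),
.rs (.part [80, 40] [0, 0] [7] []),
.rs (.mono 1 12 44 1),
.rs (.join 1 16 6 4 1 3 [(4, 0)]),
.rs (.join 0 16 5 2 0 2 [(4, 0)]),
.degU 3 [(0, 2), (1, 3)],
.rs (.l2 0 3 33 0 1 1),
.rs (.lipl 0 17 53 0 36),
.rs (.mono 1 16 24 1),
.rs (.join 1 2 6 4 3 3 [(1, 2)]),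
.rs (.le 0 18 2 1 1),
.rs (.l2 1 17 65 0 2 2),
.rs (.le 1 66 64 6 4),
.degU 1 [(0, 3), (1, 2)],
.rs (.join 0 2 4 2 2 0 [(1, 0)]),
.rs (.mono 0 32 36 1),
.rs (.lipl 1 11 107 0 96),
.rs (.join 1 2 4 2 1 1 [(1, 0)]),
.degU 5 [(0, 3), (1, 2)],
.rs (.join 0 1 6 2 2 0 [(0, 0)]),
.rs (.mono 1 8 24 1),
.rs (.join 1 32 6 4 3 3 [(5, 2)]),
.rs (.part [96, 26] [0, 0] [5] []),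
.rs (.join 1 1 3 4 2 3 [(0, 1)]),
.rs (.join 1 1 2 3 3 0 [(0, 0)]),
.rs (.ab 0 4),
.rs (.un 0 6),
.rs (.part [71, 56] [1, 0] [] []),
.rs (.mono 0 32 48 1),
.rs (.lip 0 3 43 56),
.rs (.l2 1 12 40 3 1 1),
.rs (.le 0 80 64 6 1),
.rs (.ab2 0 96),
.rs (.l2 1 12 72 3 1 3),
.rs (.l2 0 68 96 6 1 1),
.rs (.join 1 8 6 4 2 3 [(3, 1)]),
.rs (.le 0 33 32 5 1),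
.rs (.l2 0 18 80 4 1 1),
.rs (.deg 1 [1, 2]),
.rs (.join 0 2 3 2 2 0 [(1, 0)]),
.rs (.l2 1 9 33 0 1 1),
.rs (.lipl 1 49 61 1 12),
.rs (.join 0 1 4 2 1 1 [(0, 0)]),
.rs (.join 0 4 3 2 0 3 [(2, 1)]),
.rs (.un 0 1),
.rs (.slot 0 [(2, 4), (1, 2), (3, 3), (6, 1)]),
.rs (.mono 1 17 25 1),
.rs (.le 1 72 8 3 3),
.degU 4 [(0, 4), (1, 1)],
.rs (.hall [0] [4, 5, 6]),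
.rs (.join 1 4 4 3 1 2 [(2, 0)]),
.rs (.join 1 4 3 4 4 0 [(2, 0)]),
.rs (.le 0 17 1 0 2),
.rs (.join 1 2 2 4 3 1 [(1, 0)]),
.rs (.mono 1 36 52 1),
.rs (.deg 6 [2, 1]),
.rs (.le 1 18 16 4 2),
.rs (.join 1 4 4 3 3 0 [(2, 0)]),
.rs (.l2 0 24 72 3 1 1),
.rs (.slot 0 [(0, 1), (1, 3), (2, 4), (3, 1), (6, 1)]),
.rs (.ab2 0 40),
.rs (.ordE 0 8 2),
.rs (.lipl 1 49 117 1 68),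
.rs (.l2 0 40 72 3 1 1),
.rs (.lipl 1 82 118 0 36),
.rs (.l2 1 9 33 0 2 1),
.rs (.join 1 1 3 5 2 4 [(0, 1)]),
.rs (.ordE 0 4 1),
.rs (.join 0 8 4 2 3 0 [(3, 1)]),
.rs (.join 1 4 3 4 4 2 [(2, 2)]),
.degU 1 [(0, 4), (1, 1)],
.rs (.join 1 1 6 4 0 4 [(0, 0)]),
.rs (.join 0 1 2 2 2 0 [(0, 0)]),
.rs (.l2 0 17 80 4 1 1),
.degU 5 [(0, 1), (1, 4)],
.rs (.lipl 1 112 121 1 9),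
.rs (.part [36, 91] [0, 1] [] []),
.rs (.lipl 1 74 107 1 33),
.rs (.le 0 18 16 4 2),
.rs (.l2 1 6 68 2 1 2),
.rs (.part [34, 88] [0, 0] [5] []),
.rs (.slot 0 [(1, 2), (2, 3), (5, 1), (3, 3), (6, 1)]),
.rs (.join 1 16 6 4 3 1 [(4, 0)]),
.rs (.part [68, 3] [0, 0] [56] []),
.rs (.lipl 1 76 110 0 34),
.rs (.join 0 4 5 2 1 1 [(2, 0)]),
.rs (.join 1 36 6 4 2 3 [(2, 0), (5, 1)]),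
.rs (.deg 4 [1, 2]),
.rs (.lipl 1 81 91 1 10),
.rs (.join 0 2 5 2 2 0 [(1, 0)]),
.rs (.l2 0 10 34 1 1 1),
.rs (.part [36, 26] [0, 0] [65] []),
.rs (.ab2 0 72),
.rs (.join 1 8 5 4 3 1 [(3, 0)]),
.rs (.mono 1 32 33 1),
.rs (.le 1 24 8 3 1),
.rs (.mono 1 8 40 1),
.rs (.join 1 4 3 4 2 2 [(2, 0)]),
.rs (.ordE 0 4 2),
.rs (.part [68, 19] [0, 0] [40] []),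
.rs (.part [80, 44] [0, 0] [3] []),
.rs (.lipl 1 76 110 1 34),
.rs (.slot 0 [(2, 2), (1, 3), (3, 1), (5, 3), (6, 1)]),
.degU 2 [(0, 2), (1, 3)],
.rs (.le 1 96 32 5 1),
.rs (.le 1 10 8 3 1),
.rs (.l2 0 68 72 6 1 1),
.rs (.le 1 34 32 5 2),
.rs (.ordE 0 2 1),
.rs (.l2 1 34 96 5 1 1),
.rs (.join 1 2 3 4 4 1 [(1, 1)]),
.rs (.join 1 2 2 3 2 2 [(1, 1)]),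
.rs (.join 1 16 6 4 2 3 [(4, 1)]),
.rs (.l2 0 18 20 4 1 1),
.rs (.join 1 12 6 4 3 3 [(2, 2), (3, 0)]),
.rs (.slot 0 [(2, 4), (1, 2), (5, 3), (6, 1)]),
.rs (.l2 1 3 34 1 1 2),
.rs (.l2 0 66 96 6 1 1),
.rs (.part [20, 42] [0, 0] [65] []),
.rs (.join 1 1 3 4 2 4 [(0, 2)]),
.rs (.join 1 1 5 5 1 4 [(0, 0)]),
.rs (.join 0 1 3 2 3 0 [(0, 1)]),
.rs (.join 0 4 5 2 0 2 [(2, 0)]),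
.rs (.lipl 1 49 59 1 10),
.degU 4 [(0, 5)],
.rs (.join 0 4 6 2 2 1 [(2, 1)]),
.rs (.join 1 1 5 4 2 3 [(0, 1)]),
.rs (.l2 1 6 68 2 2 1),
.rs (.join 1 16 5 5 3 3 [(4, 1)]),
.rs (.join 1 10 6 4 2 3 [(1, 0), (3, 1)]),
.degU 5 [(1, 5)],
.rs (.slot 0 [(1, 1), (2, 4), (3, 4), (6, 1)]),
.rs (.slot 0 [(0, 1), (5, 2), (3, 3), (4, 3), (6, 1)]),
.rs (.join 1 8 5 5 3 3 [(3, 1)]),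
.rs (.mono 1 20 84 1),
.degU 0 [(0, 3), (1, 1)],
.rs (.join 1 36 6 4 2 3 [(2, 1), (5, 0)]),
.rs (.slot 0 [(2, 2), (1, 3), (4, 1), (5, 3), (6, 1)]),
.rs (.slot 0 [(0, 1), (1, 3), (2, 3), (5, 3)]),
.rs (.part [24, 96] [0, 0] [7] []),
.rs (.l2 0 3 9 0 1 1),
.rs (.mono 1 18 82 1),
.rs (.join 1 2 4 4 3 2 [(1, 1)]),
.rs (.slot 0 [(0, 1), (1, 3), (2, 3), (3, 3)]),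
.rs (.join 1 1 3 5 2 3 [(0, 0)]),
.rs (.join 1 1 5 4 2 4 [(0, 2)]),
.rs (.ordE 0 8 3),
.rs (.join 1 36 6 4 3 3 [(2, 0), (5, 2)]),
.rs (.l2 0 20 80 4 1 1),
.rs (.ab 0 5),
.rs (.join 1 1 5 3 2 3 [(0, 2)]),
.rs (.hall [0] [3, 4, 5]),
.rs (.part [96, 25] [0, 0] [6] []),
.rs (.l2 1 34 48 5 1 1),
.rs (.slot 0 [(1, 1), (2, 4), (5, 4), (6, 1)]),
.rs (.slot 0 [(2, 1), (1, 4), (5, 4), (6, 1)]),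
.rs (.join 0 32 6 2 1 1 [(5, 0)]),
.rs (.part [72, 50] [0, 0] [5] []),
.degU 4 [(0, 1), (1, 4)],
.rs (.lipl 1 13 93 0 80),
.rs (.part [54, 73] [1, 0] [] []),
.rs (.le 0 34 2 1 1),
.rs (.le 1 18 16 4 4),
.rs (.lipl 1 14 94 0 80),
.rs (.join 1 4 4 1 1 0 [(2, 0)]),
.rs (.part [20, 107] [0, 1] [] []),
.rs (.l2 0 10 24 3 1 1),
.degU 0 [(1, 4)],
.rs (.l2 1 18 80 4 2 1),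
.degU 2 [(0, 1), (1, 4)],
.rs (.join 1 4 6 4 3 1 [(2, 0)]),
.rs (.mono 0 8 10 1),
.rs (.join 0 4 6 2 1 1 [(2, 0)]),
.rs (.join 0 8 5 2 0 2 [(3, 0)]),
.rs (.mono 0 8 24 1),
.rs (.l2 1 3 66 1 2 2),
.degU 1 [(0, 5)],
.rs (.le 1 12 8 3 1),
.rs (.join 1 8 4 3 2 2 [(3, 1)]),
.rs (.le 0 9 1 0 2),
.rs (.join 1 8 5 4 3 3 [(3, 2)]),
.rs (.join 0 1 5 2 2 0 [(0, 0)]),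
.rs (.le 0 66 64 6 1),
.rs (.ordE 1 1 1),
.rs (.mono 0 64 68 1),
.rs (.join 0 1 2 2 1 1 [(0, 0)]),
.rs (.le 1 10 8 3 2),
.rs (.deg 6 [1, 2]),
.rs (.mono 0 4 36 1),
.rs (.slot 0 [(1, 1), (3, 2), (4, 3), (5, 3), (6, 1)]),
.rs (.part [10, 52] [0, 0] [65] []),
.rs (.join 0 8 4 2 0 2 [(3, 0)]),
.rs (.slot 0 [(0, 1), (3, 2), (5, 2), (4, 4), (6, 1)]),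
.rs (.le 0 40 8 3 1),
.rs (.ab2 0 20),
.rs (.ab2 1 40),
.rs (.un 0 4),
.rs (.join 1 2 3 4 3 1 [(1, 0)]),
.rs (.le 0 17 16 4 3),
.rs (.mono 1 6 70 1),
.rs (.l2 1 12 72 3 1 1),
.rs (.deg 0 [1, 1]),
.rs (.mono 1 40 104 1),
.rs (.part [5, 122] [0, 1] [] []),
.rs (.join 0 2 5 2 1 1 [(1, 0)]),
.rs (.l2 1 36 68 2 1 3),
.rs (.join 0 32 6 2 2 0 [(5, 0)]),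
.rs (.join 0 2 3 2 0 3 [(1, 1)]),
.rs (.join 0 8 5 2 1 1 [(3, 0)]),
.rs (.ab2 0 36),
.rs (.lipl 1 100 109 1 9),
.rs (.part [40, 80] [0, 0] [7] []),
.rs (.l2 1 48 96 5 1 1),
.rs (.join 1 2 3 3 1 2 [(1, 0)]),
.rs (.slot 0 [(2, 2), (1, 3), (3, 1), (4, 3), (6, 1)]),
.rs (.join 1 8 4 4 3 2 [(3, 1)]),
.rs (.lipl 1 52 124 1 72),
.rs (.join 1 2 3 1 1 0 [(1, 0)]),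
.rs (.join 1 8 6 4 1 3 [(3, 0)]),
.rs (.ordE 0 32 2),
.rs (.join 1 2 3 4 2 2 [(1, 0)]),
.rs (.ordE 0 1 2),
.rs (.join 1 2 6 4 1 3 [(1, 0)]),
.rs (.join 1 1 4 4 2 4 [(0, 2)]),
.rs (.l2 1 65 68 6 2 3),
.rs (.mono 0 64 66 1),
.rs (.le 1 72 8 3 1),
.rs (.part [9, 118] [0, 1] [] []),
.rs (.join 1 8 4 4 3 1 [(3, 0)]),
.rs (.ordE 0 2 2),
.rs (.l2 1 18 48 4 1 1),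
.rs (.lipl 1 37 117 0 80),
.rs (.lipl 1 35 115 0 80),
.rs (.ab2 0 65),
.rs (.deg 5 [0, 3]),
.rs (.l2 1 9 17 0 1 1),
.rs (.join 1 2 4 4 3 3 [(1, 2)]),
.rs (.slot 0 [(0, 1), (4, 2), (5, 2), (3, 4), (6, 1)]),
.rs (.lipl 1 98 115 1 17),
.rs (.join 1 1 6 4 1 3 [(0, 0)]),
.rs (.lipl 1 22 94 0 72),
.rs (.lipl 1 41 109 1 68),
.rs (.join 1 6 3 4 3 1 [(1, 0), (2, 0)]),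
.rs (.ab2 1 24),
.degU 6 [(1, 5)],
.rs (.part [53, 74] [1, 0] [] []),
.rs (.l2 0 3 17 0 1 1),
.rs (.join 1 2 2 3 2 1 [(1, 0)]),
.rs (.slot 0 [(1, 2), (2, 3), (4, 1), (5, 3), (6, 1)]),
.rs (.join 1 4 3 2 1 1 [(2, 0)]),
.rs (.mono 0 8 72 1),
.rs (.join 1 4 5 4 3 2 [(2, 1)]),
.rs (.deg 5 [3, 0]),
.rs (.mono 1 16 20 1),
.rs (.join 1 1 3 4 2 2 [(0, 0)]),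
.rs (.l2 1 18 48 4 3 1),
.rs (.lipl 1 52 118 0 66),
.rs (.join 0 8 6 2 1 1 [(3, 0)]),
.rs (.slot 0 [(0, 3), (1, 4), (2, 2), (5, 1)]),
.rs (.lipl 1 84 118 0 34),
.rs (.join 1 1 4 5 2 4 [(0, 1)]),
.rs (.deg 1 [3, 0]),
.rs (.join 1 8 5 4 1 3 [(3, 0)]),
.rs (.join 0 2 4 2 0 2 [(1, 0)]),
.rs (.join 1 1 1 4 0 4 [(0, 0)]),
.rs (.join 1 4 5 4 3 1 [(2, 0)]),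
.rs (.slot 0 [(2, 1), (4, 2), (5, 2), (3, 4), (6, 1)]),
.rs (.join 0 16 5 2 2 0 [(4, 0)]),
.rs (.join 0 1 6 2 1 1 [(0, 0)]),
.rs (.l2 1 66 68 6 2 2),
.rs (.part [86, 41] [1, 0] [] []),
.rs (.mono 1 12 76 1),
.rs (.join 1 4 5 3 1 2 [(2, 0)]),
.rs (.part [46, 81] [1, 0] [] []),
.rs (.slot 0 [(0, 1), (1, 2), (2, 4), (4, 1), (5, 1), (6, 1)]),
.rs (.slot 0 [(0, 1), (4, 2), (3, 3), (5, 3), (6, 1)]),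
.degU 5 [(0, 2), (1, 3)],
.rs (.join 1 12 6 4 2 3 [(2, 0), (3, 1)]),
.rs (.join 0 4 6 2 2 0 [(2, 0)]),
.rs (.lipl 1 100 117 1 17),
.rs (.lipl 1 41 107 1 66),
.rs (.mono 1 66 82 1),
.rs (.join 1 4 4 4 2 2 [(2, 0)]),
.rs (.part [102, 25] [1, 0] [] []),
.rs (.mono 0 64 96 1),
.rs (.le 0 10 2 1 2),
.rs (.join 1 2 3 2 1 1 [(1, 0)]),
.rs (.slot 0 [(0, 1), (1, 3), (2, 4), (5, 1), (6, 1)]),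
.rs (.join 1 8 5 4 3 2 [(3, 1)]),
.rs (.join 1 2 4 4 4 3 [(1, 3)]),
.degU 0 [(0, 2), (1, 2)],
.rs (.mono 1 34 50 1),
.rs (.lipl 1 104 121 1 17),
.rs (.join 1 2 5 4 2 2 [(1, 0)]),
.rs (.join 1 2 2 2 1 1 [(1, 0)]),
.rs (.ordL 0 40 1),
.rs (.join 1 2 5 4 4 0 [(1, 0)]),
.rs (.ordE 0 8 1),
.rs (.join 1 32 6 4 4 3 [(5, 3)])]

noncomputable def gv : List Gv := [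
.low [3, 1, 0, 1, 2, 0],
.low [1, 0, 4, 1, 1, 0],
.low [1, 1, 1, 1, 2, 1],
.low [0, 3, 2, 0, 1, 1],
.low [0, 2, 3, 1, 1, 0],
.low [3, 0, 1, 0, 2, 1],
.low [3, 0, 0, 0, 4, 0],
.low [1, 4, 0, 1, 1, 0],
.low [1, 1, 1, 2, 1, 1],
.low [2, 0, 0, 1, 0, 4],
.low [0, 1, 1, 4, 1, 0],
.low [1, 1, 1, 1, 3, 0],
.low [1, 0, 4, 1, 0, 1],
.low [1, 1, 1, 3, 0, 1],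
.low [0, 1, 1, 1, 4, 0],
.low [3, 0, 0, 4, 0, 0],
.low [0, 1, 1, 1, 0, 4],
.low [3, 0, 0, 0, 0, 4],
.low [3, 1, 0, 2, 0, 1],
.low [3, 0, 1, 1, 0, 2],
.low [3, 0, 1, 1, 2, 0],
.low [1, 4, 0, 0, 1, 1],
.low [2, 1, 1, 1, 1, 1],
.low [0, 1, 1, 0, 1, 4],
.low [0, 1, 1, 4, 0, 1],
.low [0, 1, 1, 0, 4, 1],
.low [3, 0, 1, 2, 1, 0],
.low [0, 2, 3, 0, 1, 1],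
.low [3, 0, 1, 2, 0, 1],
.low [2, 0, 0, 1, 4, 0],
.low [3, 1, 0, 0, 1, 2],
.low [1, 4, 0, 1, 0, 1],
.cap6,
.low [2, 0, 0, 0, 1, 4],
.low [1, 1, 1, 0, 3, 1],
.low [1, 1, 1, 3, 1, 0],
.low [1, 1, 1, 1, 1, 2]]

noncomputable def gads : List Gt := [
⟨1, [⟨0, 0, [(24, 2)]⟩, ⟨32, 4, []⟩], [3, 1, 1], 1, [(56, 1)]⟩,
⟨1, [⟨4, 2, []⟩, ⟨2, 3, []⟩, ⟨16, 3, []⟩, ⟨32, 3, []⟩, ⟨64, 4, []⟩], [3, 3, 17, 12, 12], 2, [(50, 1), (70, 1), (112, 1), (118, 2)]⟩,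
⟨0, [⟨33, 2, []⟩, ⟨4, 2, []⟩], [3, 3, 3], 1, [(5, 1), (36, 1)]⟩,
⟨1, [⟨48, 4, []⟩, ⟨8, 4, []⟩, ⟨64, 4, []⟩], [7], 1, [(88, 1), (104, 1)]⟩,
⟨1, [⟨22, 4, []⟩, ⟨8, 4, []⟩, ⟨32, 4, []⟩], [7], 1, [(42, 1), (44, 1), (56, 1)]⟩,
⟨1, [⟨10, 4, []⟩, ⟨36, 4, []⟩, ⟨16, 4, []⟩], [7], 1, [(22, 1), (28, 1), (50, 1), (56, 1)]⟩,
⟨1, [⟨2, 2, []⟩, ⟨4, 3, []⟩, ⟨16, 3, []⟩, ⟨32, 3, []⟩, ⟨64, 4, []⟩], [3, 3, 17, 12, 12], 2, [(52, 1), (70, 1), (112, 1), (118, 2)]⟩,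
⟨1, [⟨0, 0, [(68, 3)]⟩, ⟨10, 3, []⟩], [3, 3], 1, [(70, 1), (76, 1)]⟩,
⟨0, [⟨5, 2, []⟩, ⟨2, 2, []⟩], [3, 3, 3], 1, [(3, 1), (6, 1)]⟩,
⟨1, [⟨3, 4, []⟩, ⟨4, 4, []⟩, ⟨32, 4, []⟩], [7], 1, [(37, 1), (38, 1)]⟩,
⟨1, [⟨16, 3, []⟩, ⟨0, 0, [(40, 3)]⟩], [3, 3], 1, [(56, 1)]⟩,
⟨1, [⟨33, 4, []⟩, ⟨2, 4, []⟩, ⟨16, 4, []⟩], [7], 1, [(19, 1), (50, 1)]⟩,
⟨1, [⟨66, 4, []⟩, ⟨12, 4, []⟩, ⟨32, 4, []⟩], [7], 1, [(38, 1), (42, 1), (100, 1), (104, 1)]⟩,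
⟨1, [⟨8, 3, []⟩, ⟨64, 3, []⟩], [3, 3], 1, [(72, 1)]⟩,
⟨1, [⟨5, 3, []⟩, ⟨0, 0, [(66, 3)]⟩], [3, 3], 1, [(67, 1), (70, 1)]⟩,
⟨1, [⟨33, 4, []⟩, ⟨12, 4, []⟩, ⟨16, 4, []⟩], [7], 1, [(21, 1), (25, 1), (52, 1), (56, 1)]⟩,
⟨1, [⟨36, 4, []⟩, ⟨8, 4, []⟩, ⟨64, 4, []⟩], [7], 1, [(76, 1), (104, 1)]⟩,
⟨1, [⟨1, 2, []⟩, ⟨4, 3, []⟩, ⟨8, 3, []⟩, ⟨32, 3, []⟩, ⟨64, 4, []⟩], [3, 3, 17, 12, 12], 2, [(44, 1), (69, 1), (104, 1), (109, 2)]⟩,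
⟨1, [⟨12, 4, []⟩, ⟨16, 4, []⟩, ⟨64, 4, []⟩], [7], 1, [(84, 1), (88, 1)]⟩,
⟨1, [⟨9, 4, []⟩, ⟨16, 4, []⟩, ⟨96, 4, []⟩], [7], 1, [(49, 1), (56, 1), (81, 1), (88, 1)]⟩,
⟨0, [⟨4, 2, []⟩, ⟨96, 2, []⟩], [3, 3, 3], 1, [(36, 1), (68, 1)]⟩,
⟨0, [⟨33, 2, []⟩, ⟨16, 2, []⟩], [3, 3, 3], 1, [(17, 1), (48, 1)]⟩,
⟨1, [⟨17, 4, []⟩, ⟨0, 0, [(36, 2)]⟩], [3, 2, 2], 1, [(37, 1), (52, 1)]⟩,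
⟨0, [⟨9, 2, []⟩, ⟨6, 2, []⟩], [3, 3, 3], 1, [(3, 1), (5, 1), (10, 1), (12, 1)]⟩,
⟨1, [⟨16, 3, []⟩, ⟨64, 3, []⟩], [3, 3], 1, [(80, 1)]⟩,
⟨1, [⟨66, 4, []⟩, ⟨48, 4, []⟩, ⟨8, 4, []⟩], [7], 1, [(26, 1), (42, 1), (88, 1), (104, 1)]⟩,
⟨0, [⟨4, 2, []⟩, ⟨72, 2, []⟩], [3, 3, 3], 1, [(12, 1), (68, 1)]⟩,
⟨0, [⟨3, 2, []⟩, ⟨20, 2, []⟩], [3, 3, 3], 1, [(5, 1), (6, 1), (17, 1), (18, 1)]⟩,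
⟨1, [⟨0, 0, [(33, 2)]⟩, ⟨16, 4, []⟩], [3, 1, 1], 1, [(49, 1)]⟩,
⟨0, [⟨34, 2, []⟩, ⟨8, 2, []⟩], [3, 3, 3], 1, [(10, 1), (40, 1)]⟩,
⟨0, [⟨16, 2, []⟩, ⟨32, 2, []⟩], [3, 3, 3], 1, [(48, 1)]⟩,
⟨1, [⟨3, 4, []⟩, ⟨4, 4, []⟩, ⟨16, 4, []⟩], [7], 1, [(21, 1), (22, 1)]⟩,
⟨0, [⟨40, 2, []⟩, ⟨16, 2, []⟩], [3, 3, 3], 1, [(24, 1), (48, 1)]⟩,
⟨1, [⟨0, 0, [(33, 2)]⟩, ⟨8, 4, []⟩], [3, 1, 1], 1, [(41, 1)]⟩,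
⟨1, [⟨96, 4, []⟩, ⟨8, 4, []⟩, ⟨16, 4, []⟩], [7], 1, [(56, 1), (88, 1)]⟩,
⟨1, [⟨17, 4, []⟩, ⟨12, 4, []⟩, ⟨32, 4, []⟩], [7], 1, [(37, 1), (41, 1), (52, 1), (56, 1)]⟩,
⟨1, [⟨16, 4, []⟩, ⟨8, 2, []⟩], [3, 2, 2], 1, [(24, 1)]⟩,
⟨1, [⟨8, 2, []⟩, ⟨64, 4, []⟩], [3, 1, 1], 1, [(72, 1)]⟩,
⟨1, [⟨12, 4, []⟩, ⟨32, 4, []⟩, ⟨64, 4, []⟩], [7], 1, [(100, 1), (104, 1)]⟩,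
⟨1, [⟨17, 4, []⟩, ⟨6, 4, []⟩, ⟨32, 4, []⟩], [7], 1, [(35, 1), (37, 1), (50, 1), (52, 1)]⟩,
⟨0, [⟨17, 2, []⟩, ⟨32, 2, []⟩], [3, 3, 3], 1, [(33, 1), (48, 1)]⟩,
⟨1, [⟨96, 4, []⟩, ⟨0, 0, [(24, 2)]⟩], [3, 2, 2], 1, [(56, 1), (88, 1)]⟩,
⟨1, [⟨33, 3, []⟩, ⟨0, 0, [(66, 3)]⟩], [3, 3], 1, [(67, 1), (98, 1)]⟩,
⟨0, [⟨65, 2, []⟩, ⟨4, 2, []⟩], [3, 3, 3], 1, [(5, 1), (68, 1)]⟩,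
⟨1, [⟨2, 4, []⟩, ⟨16, 4, []⟩, ⟨72, 4, []⟩], [7], 1, [(26, 1), (82, 1)]⟩,
⟨1, [⟨82, 4, []⟩, ⟨8, 4, []⟩, ⟨32, 4, []⟩], [7], 1, [(42, 1), (56, 1), (104, 1)]⟩,
⟨0, [⟨68, 2, []⟩, ⟨48, 2, []⟩], [3, 3, 3], 1, [(20, 1), (36, 1), (80, 1), (96, 1)]⟩,
⟨1, [⟨2, 4, []⟩, ⟨32, 4, []⟩, ⟨72, 4, []⟩], [7], 1, [(42, 1), (98, 1)]⟩,
⟨1, [⟨8, 3, []⟩, ⟨0, 0, [(80, 3)]⟩], [3, 3], 1, [(88, 1)]⟩,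
⟨1, [⟨68, 4, []⟩, ⟨24, 4, []⟩, ⟨32, 4, []⟩], [7], 1, [(44, 1), (52, 1), (104, 1), (112, 1)]⟩,
⟨0, [⟨33, 2, []⟩, ⟨2, 2, []⟩], [3, 3, 3], 1, [(3, 1), (34, 1)]⟩,
⟨1, [⟨9, 4, []⟩, ⟨20, 4, []⟩, ⟨32, 4, []⟩], [7], 1, [(37, 1), (44, 1), (49, 1), (56, 1)]⟩,
⟨1, [⟨34, 4, []⟩, ⟨8, 4, []⟩, ⟨64, 4, []⟩], [7], 1, [(74, 1), (104, 1)]⟩,
⟨1, [⟨18, 4, []⟩, ⟨32, 4, []⟩, ⟨72, 4, []⟩], [7], 1, [(42, 1), (56, 1), (98, 1), (112, 1)]⟩,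
⟨0, [⟨3, 2, []⟩, ⟨4, 2, []⟩], [3, 3, 3], 1, [(5, 1), (6, 1)]⟩,
⟨1, [⟨9, 4, []⟩, ⟨4, 4, []⟩, ⟨32, 4, []⟩], [7], 1, [(37, 1), (44, 1)]⟩,
⟨0, [⟨4, 2, []⟩, ⟨80, 2, []⟩], [3, 3, 3], 1, [(20, 1), (68, 1)]⟩,
⟨1, [⟨4, 4, []⟩, ⟨10, 4, []⟩, ⟨32, 4, []⟩], [7], 1, [(38, 1), (44, 1)]⟩,
⟨0, [⟨18, 2, []⟩, ⟨32, 2, []⟩], [3, 3, 3], 1, [(34, 1), (48, 1)]⟩,
⟨1, [⟨0, 0, [(3, 2)]⟩, ⟨96, 4, []⟩], [3, 1, 1], 1, [(35, 1), (67, 1)]⟩,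
⟨0, [⟨65, 2, []⟩, ⟨32, 2, []⟩], [3, 3, 3], 1, [(33, 1), (96, 1)]⟩,
⟨1, [⟨0, 0, [(36, 2)]⟩, ⟨24, 4, []⟩], [3, 1, 1], 1, [(44, 1), (52, 1)]⟩,
⟨0, [⟨48, 2, []⟩, ⟨8, 2, []⟩], [3, 3, 3], 1, [(24, 1), (40, 1)]⟩,
⟨0, [⟨2, 2, []⟩, ⟨72, 2, []⟩], [3, 3, 3], 1, [(10, 1), (66, 1)]⟩,
⟨1, [⟨2, 3, []⟩, ⟨4, 3, []⟩], [3, 3], 1, [(6, 1)]⟩,
⟨0, [⟨36, 2, []⟩, ⟨8, 2, []⟩], [3, 3, 3], 1, [(12, 1), (40, 1)]⟩,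
⟨1, [⟨33, 5, []⟩, ⟨24, 5, []⟩, ⟨64, 3, []⟩], [4, 4], 1, [(73, 1), (81, 1), (104, 1), (112, 1)]⟩,
⟨1, [⟨12, 4, []⟩, ⟨32, 4, []⟩, ⟨80, 4, []⟩], [7], 1, [(52, 1), (56, 1), (100, 1), (104, 1)]⟩,
⟨0, [⟨72, 2, []⟩, ⟨16, 2, []⟩], [3, 3, 3], 1, [(24, 1), (80, 1)]⟩,
⟨0, [⟨66, 2, []⟩, ⟨4, 2, []⟩], [3, 3, 3], 1, [(6, 1), (68, 1)]⟩,
⟨0, [⟨17, 2, []⟩, ⟨40, 2, []⟩], [3, 3, 3], 1, [(9, 1), (24, 1), (33, 1), (48, 1)]⟩,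
⟨1, [⟨17, 4, []⟩, ⟨4, 4, []⟩, ⟨8, 4, []⟩], [7], 1, [(13, 1), (28, 1)]⟩,
⟨1, [⟨0, 0, [(5, 2)]⟩, ⟨72, 4, []⟩], [3, 1, 1], 1, [(13, 1), (69, 1)]⟩,
⟨1, [⟨1, 2, []⟩, ⟨2, 3, []⟩, ⟨8, 3, []⟩, ⟨16, 3, []⟩, ⟨64, 4, []⟩], [3, 3, 17, 12, 12], 2, [(26, 1), (67, 1), (88, 1), (91, 2)]⟩,
⟨1, [⟨10, 4, []⟩, ⟨16, 4, []⟩, ⟨64, 4, []⟩], [7], 1, [(82, 1), (88, 1)]⟩,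
⟨0, [⟨10, 2, []⟩, ⟨96, 2, []⟩], [3, 3, 3], 1, [(34, 1), (40, 1), (66, 1), (72, 1)]⟩,
⟨1, [⟨17, 4, []⟩, ⟨36, 4, []⟩, ⟨8, 4, []⟩], [7], 1, [(13, 1), (28, 1), (41, 1), (56, 1)]⟩,
⟨1, [⟨9, 4, []⟩, ⟨6, 4, []⟩, ⟨32, 4, []⟩], [7], 1, [(35, 1), (37, 1), (42, 1), (44, 1)]⟩,
⟨1, [⟨17, 4, []⟩, ⟨8, 4, []⟩, ⟨96, 4, []⟩], [7], 1, [(41, 1), (56, 1), (73, 1), (88, 1)]⟩,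
⟨1, [⟨8, 4, []⟩, ⟨32, 2, []⟩], [3, 2, 2], 1, [(40, 1)]⟩,
⟨1, [⟨9, 4, []⟩, ⟨36, 4, []⟩, ⟨16, 4, []⟩], [7], 1, [(21, 1), (28, 1), (49, 1), (56, 1)]⟩,
⟨1, [⟨33, 4, []⟩, ⟨0, 0, [(18, 2)]⟩], [3, 2, 2], 1, [(19, 1), (50, 1)]⟩,
⟨1, [⟨32, 4, []⟩, ⟨16, 2, []⟩], [3, 2, 2], 1, [(48, 1)]⟩,
⟨1, [⟨12, 4, []⟩, ⟨16, 4, []⟩, ⟨96, 4, []⟩], [7], 1, [(52, 1), (56, 1), (84, 1), (88, 1)]⟩,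
⟨1, [⟨65, 4, []⟩, ⟨6, 4, []⟩, ⟨8, 4, []⟩], [7], 1, [(11, 1), (13, 1), (74, 1), (76, 1)]⟩,
⟨1, [⟨72, 4, []⟩, ⟨16, 4, []⟩, ⟨32, 4, []⟩], [7], 1, [(56, 1), (112, 1)]⟩,
⟨1, [⟨16, 3, []⟩, ⟨0, 0, [(72, 3)]⟩], [3, 3], 1, [(88, 1)]⟩,
⟨0, [⟨33, 2, []⟩, ⟨8, 2, []⟩], [3, 3, 3], 1, [(9, 1), (40, 1)]⟩,
⟨1, [⟨8, 3, []⟩, ⟨32, 3, []⟩], [3, 3], 1, [(40, 1)]⟩,
⟨1, [⟨24, 3, []⟩, ⟨64, 3, []⟩], [3, 3], 1, [(72, 1), (80, 1)]⟩,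
⟨1, [⟨32, 3, []⟩, ⟨0, 0, [(72, 3)]⟩], [3, 3], 1, [(104, 1)]⟩,
⟨0, [⟨3, 2, []⟩, ⟨36, 2, []⟩], [3, 3, 3], 1, [(5, 1), (6, 1), (33, 1), (34, 1)]⟩,
⟨0, [⟨9, 2, []⟩, ⟨4, 2, []⟩], [3, 3, 3], 1, [(5, 1), (12, 1)]⟩,
⟨1, [⟨18, 3, []⟩, ⟨64, 3, []⟩], [3, 3], 1, [(66, 1), (80, 1)]⟩,
⟨1, [⟨3, 4, []⟩, ⟨48, 4, []⟩, ⟨8, 4, []⟩], [7], 1, [(25, 1), (26, 1), (41, 1), (42, 1)]⟩,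
⟨1, [⟨36, 4, []⟩, ⟨8, 4, []⟩, ⟨80, 4, []⟩], [7], 1, [(28, 1), (56, 1), (76, 1), (104, 1)]⟩,
⟨1, [⟨9, 4, []⟩, ⟨34, 4, []⟩, ⟨16, 4, []⟩], [7], 1, [(19, 1), (26, 1), (49, 1), (56, 1)]⟩,
⟨0, [⟨12, 2, []⟩, ⟨16, 2, []⟩], [3, 3, 3], 1, [(20, 1), (24, 1)]⟩,
⟨1, [⟨66, 4, []⟩, ⟨40, 4, []⟩, ⟨16, 4, []⟩], [7], 1, [(26, 1), (50, 1), (88, 1), (112, 1)]⟩,
⟨1, [⟨5, 4, []⟩, ⟨40, 4, []⟩, ⟨16, 4, []⟩], [7], 1, [(25, 1), (28, 1), (49, 1), (52, 1)]⟩,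
⟨0, [⟨10, 2, []⟩, ⟨48, 2, []⟩], [3, 3, 3], 1, [(18, 1), (24, 1), (34, 1), (40, 1)]⟩,
⟨0, [⟨96, 2, []⟩, ⟨8, 2, []⟩], [3, 3, 3], 1, [(40, 1), (72, 1)]⟩,
⟨0, [⟨12, 2, []⟩, ⟨32, 2, []⟩], [3, 3, 3], 1, [(36, 1), (40, 1)]⟩,
⟨0, [⟨1, 2, []⟩, ⟨68, 2, []⟩], [3, 3, 3], 1, [(5, 1), (65, 1)]⟩,
⟨1, [⟨32, 2, []⟩, ⟨64, 4, []⟩], [3, 1, 1], 1, [(96, 1)]⟩,
⟨0, [⟨68, 2, []⟩, ⟨2, 2, []⟩], [3, 3, 3], 1, [(6, 1), (66, 1)]⟩,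
⟨1, [⟨84, 4, []⟩, ⟨8, 4, []⟩, ⟨32, 4, []⟩], [7], 1, [(44, 1), (56, 1), (104, 1)]⟩,
⟨0, [⟨4, 2, []⟩, ⟨24, 2, []⟩], [3, 3, 3], 1, [(12, 1), (20, 1)]⟩,
⟨1, [⟨33, 4, []⟩, ⟨20, 4, []⟩, ⟨8, 4, []⟩], [7], 1, [(13, 1), (25, 1), (44, 1), (56, 1)]⟩,
⟨1, [⟨5, 4, []⟩, ⟨24, 4, []⟩, ⟨32, 4, []⟩], [7], 1, [(41, 1), (44, 1), (49, 1), (52, 1)]⟩,
⟨0, [⟨1, 2, []⟩, ⟨4, 2, []⟩], [3, 3, 3], 1, [(5, 1)]⟩,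
⟨1, [⟨36, 4, []⟩, ⟨16, 4, []⟩, ⟨64, 4, []⟩], [7], 1, [(84, 1), (112, 1)]⟩,
⟨1, [⟨16, 4, []⟩, ⟨32, 2, []⟩], [3, 2, 2], 1, [(48, 1)]⟩,
⟨1, [⟨0, 0, [(3, 2)]⟩, ⟨72, 4, []⟩], [3, 1, 1], 1, [(11, 1), (67, 1)]⟩,
⟨1, [⟨17, 4, []⟩, ⟨40, 4, []⟩, ⟨64, 4, []⟩], [7], 1, [(73, 1), (88, 1), (97, 1), (112, 1)]⟩,
⟨1, [⟨1, 2, []⟩, ⟨2, 3, []⟩, ⟨8, 3, []⟩, ⟨32, 3, []⟩, ⟨64, 4, []⟩], [3, 3, 17, 12, 12], 2, [(42, 1), (67, 1), (104, 1), (107, 2)]⟩,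
⟨1, [⟨14, 4, []⟩, ⟨16, 4, []⟩, ⟨32, 4, []⟩], [7], 1, [(50, 1), (52, 1), (56, 1)]⟩,
⟨1, [⟨18, 4, []⟩, ⟨8, 4, []⟩, ⟨96, 4, []⟩], [7], 1, [(42, 1), (56, 1), (74, 1), (88, 1)]⟩,
⟨1, [⟨0, 0, [(17, 2)]⟩, ⟨8, 4, []⟩], [3, 1, 1], 1, [(25, 1)]⟩,
⟨0, [⟨33, 2, []⟩, ⟨6, 2, []⟩], [3, 3, 3], 1, [(3, 1), (5, 1), (34, 1), (36, 1)]⟩,
⟨1, [⟨17, 4, []⟩, ⟨34, 4, []⟩, ⟨8, 4, []⟩], [7], 1, [(11, 1), (26, 1), (41, 1), (56, 1)]⟩,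
⟨0, [⟨80, 2, []⟩, ⟨8, 2, []⟩], [3, 3, 3], 1, [(24, 1), (72, 1)]⟩,
⟨1, [⟨20, 4, []⟩, ⟨8, 4, []⟩, ⟨96, 4, []⟩], [7], 1, [(44, 1), (56, 1), (76, 1), (88, 1)]⟩,
⟨0, [⟨17, 2, []⟩, ⟨6, 2, []⟩], [3, 3, 3], 1, [(3, 1), (5, 1), (18, 1), (20, 1)]⟩,
⟨1, [⟨9, 4, []⟩, ⟨32, 4, []⟩, ⟨80, 4, []⟩], [7], 1, [(49, 1), (56, 1), (97, 1), (104, 1)]⟩,
⟨1, [⟨33, 4, []⟩, ⟨4, 4, []⟩, ⟨16, 4, []⟩], [7], 1, [(21, 1), (52, 1)]⟩,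
⟨1, [⟨48, 3, []⟩, ⟨64, 3, []⟩], [3, 3], 1, [(80, 1), (96, 1)]⟩,
⟨0, [⟨34, 2, []⟩, ⟨24, 2, []⟩], [3, 3, 3], 1, [(10, 1), (18, 1), (40, 1), (48, 1)]⟩,
⟨1, [⟨17, 4, []⟩, ⟨32, 4, []⟩, ⟨72, 4, []⟩], [7], 1, [(41, 1), (56, 1), (97, 1), (112, 1)]⟩,
⟨1, [⟨0, 0, [(48, 3)]⟩, ⟨64, 3, []⟩], [3, 3], 1, [(112, 1)]⟩,
⟨1, [⟨33, 4, []⟩, ⟨10, 4, []⟩, ⟨16, 4, []⟩], [7], 1, [(19, 1), (25, 1), (50, 1), (56, 1)]⟩,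
⟨0, [⟨20, 2, []⟩, ⟨32, 2, []⟩], [3, 3, 3], 1, [(36, 1), (48, 1)]⟩,
⟨1, [⟨34, 4, []⟩, ⟨16, 4, []⟩, ⟨72, 4, []⟩], [7], 1, [(26, 1), (56, 1), (82, 1), (112, 1)]⟩,
⟨1, [⟨9, 4, []⟩, ⟨18, 4, []⟩, ⟨32, 4, []⟩], [7], 1, [(35, 1), (42, 1), (49, 1), (56, 1)]⟩,
⟨1, [⟨33, 3, []⟩, ⟨0, 0, [(68, 3)]⟩], [3, 3], 1, [(69, 1), (100, 1)]⟩,
⟨1, [⟨8, 4, []⟩, ⟨16, 2, []⟩], [3, 2, 2], 1, [(24, 1)]⟩,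
⟨1, [⟨9, 4, []⟩, ⟨0, 0, [(6, 2)]⟩], [3, 2, 2], 1, [(7, 1), (14, 1)]⟩,
⟨1, [⟨0, 0, [(18, 2)]⟩, ⟨40, 4, []⟩], [3, 1, 1], 1, [(26, 1), (50, 1)]⟩,
⟨0, [⟨5, 2, []⟩, ⟨34, 2, []⟩], [3, 3, 3], 1, [(3, 1), (6, 1), (33, 1), (36, 1)]⟩,
⟨1, [⟨9, 4, []⟩, ⟨48, 4, []⟩, ⟨64, 4, []⟩], [7], 1, [(81, 1), (88, 1), (97, 1), (104, 1)]⟩,
⟨1, [⟨18, 4, []⟩, ⟨12, 4, []⟩, ⟨64, 4, []⟩], [7], 1, [(70, 1), (74, 1), (84, 1), (88, 1)]⟩,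
⟨1, [⟨0, 0, [(40, 3)]⟩, ⟨64, 3, []⟩], [3, 3], 1, [(104, 1)]⟩,
⟨1, [⟨2, 4, []⟩, ⟨12, 4, []⟩, ⟨32, 4, []⟩], [7], 1, [(38, 1), (42, 1)]⟩,
⟨1, [⟨0, 0, [(10, 2)]⟩, ⟨48, 4, []⟩], [3, 1, 1], 1, [(26, 1), (42, 1)]⟩,
⟨1, [⟨66, 4, []⟩, ⟨4, 2, []⟩], [3, 2, 2], 1, [(6, 1), (68, 1)]⟩,
⟨0, [⟨48, 2, []⟩, ⟨72, 2, []⟩], [3, 3, 3], 1, [(24, 1), (40, 1), (80, 1), (96, 1)]⟩,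
⟨1, [⟨33, 4, []⟩, ⟨0, 0, [(12, 2)]⟩], [3, 2, 2], 1, [(13, 1), (44, 1)]⟩,
⟨1, [⟨4, 4, []⟩, ⟨8, 4, []⟩, ⟨80, 4, []⟩], [7], 1, [(28, 1), (76, 1)]⟩,
⟨0, [⟨8, 2, []⟩, ⟨32, 2, []⟩], [3, 3, 3], 1, [(40, 1)]⟩,
⟨0, [⟨2, 2, []⟩, ⟨24, 2, []⟩], [3, 3, 3], 1, [(10, 1), (18, 1)]⟩,
⟨1, [⟨4, 2, []⟩, ⟨2, 3, []⟩, ⟨8, 3, []⟩, ⟨32, 3, []⟩, ⟨64, 4, []⟩], [3, 3, 17, 12, 12], 2, [(42, 1), (70, 1), (104, 1), (110, 2)]⟩,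
⟨0, [⟨66, 2, []⟩, ⟨48, 2, []⟩], [3, 3, 3], 1, [(18, 1), (34, 1), (80, 1), (96, 1)]⟩,
⟨0, [⟨2, 2, []⟩, ⟨40, 2, []⟩], [3, 3, 3], 1, [(10, 1), (34, 1)]⟩,
⟨0, [⟨33, 2, []⟩, ⟨10, 2, []⟩], [3, 3, 3], 1, [(3, 1), (9, 1), (34, 1), (40, 1)]⟩,
⟨0, [⟨17, 2, []⟩, ⟨8, 2, []⟩], [3, 3, 3], 1, [(9, 1), (24, 1)]⟩,
⟨1, [⟨2, 2, []⟩, ⟨4, 3, []⟩, ⟨8, 3, []⟩, ⟨16, 3, []⟩, ⟨64, 4, []⟩], [3, 3, 17, 12, 12], 2, [(28, 1), (70, 1), (88, 1), (94, 2)]⟩,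
⟨0, [⟨68, 2, []⟩, ⟨40, 2, []⟩], [3, 3, 3], 1, [(12, 1), (36, 1), (72, 1), (96, 1)]⟩,
⟨1, [⟨34, 4, []⟩, ⟨24, 4, []⟩, ⟨64, 4, []⟩], [7], 1, [(74, 1), (82, 1), (104, 1), (112, 1)]⟩,
⟨0, [⟨34, 2, []⟩, ⟨16, 2, []⟩], [3, 3, 3], 1, [(18, 1), (48, 1)]⟩,
⟨0, [⟨33, 2, []⟩, ⟨24, 2, []⟩], [3, 3, 3], 1, [(9, 1), (17, 1), (40, 1), (48, 1)]⟩,
⟨1, [⟨8, 3, []⟩, ⟨0, 0, [(48, 3)]⟩], [3, 3], 1, [(56, 1)]⟩,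
⟨1, [⟨20, 4, []⟩, ⟨8, 4, []⟩, ⟨32, 4, []⟩], [7], 1, [(44, 1), (56, 1)]⟩,
⟨0, [⟨36, 2, []⟩, ⟨24, 2, []⟩], [3, 3, 3], 1, [(12, 1), (20, 1), (40, 1), (48, 1)]⟩,
⟨1, [⟨3, 3, []⟩, ⟨64, 3, []⟩], [3, 3], 1, [(65, 1), (66, 1)]⟩,
⟨1, [⟨10, 4, []⟩, ⟨32, 4, []⟩, ⟨80, 4, []⟩], [7], 1, [(50, 1), (56, 1), (98, 1), (104, 1)]⟩,
⟨1, [⟨0, 0, [(5, 2)]⟩, ⟨96, 4, []⟩], [3, 1, 1], 1, [(37, 1), (69, 1)]⟩,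
⟨1, [⟨0, 0, [(34, 2)]⟩, ⟨24, 4, []⟩], [3, 1, 1], 1, [(42, 1), (50, 1)]⟩,
⟨1, [⟨20, 4, []⟩, ⟨40, 4, []⟩, ⟨64, 4, []⟩], [7], 1, [(76, 1), (88, 1), (100, 1), (112, 1)]⟩,
⟨1, [⟨3, 3, []⟩, ⟨0, 0, [(68, 3)]⟩], [3, 3], 1, [(69, 1), (70, 1)]⟩,
⟨1, [⟨2, 3, []⟩, ⟨64, 3, []⟩], [3, 3], 1, [(66, 1)]⟩,
⟨1, [⟨24, 4, []⟩, ⟨32, 4, []⟩, ⟨64, 4, []⟩], [7], 1, [(104, 1), (112, 1)]⟩,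
⟨1, [⟨66, 4, []⟩, ⟨20, 4, []⟩, ⟨8, 4, []⟩], [7], 1, [(14, 1), (26, 1), (76, 1), (88, 1)]⟩,
⟨1, [⟨0, 0, [(9, 2)]⟩, ⟨16, 4, []⟩], [3, 1, 1], 1, [(25, 1)]⟩,
⟨0, [⟨36, 2, []⟩, ⟨16, 2, []⟩], [3, 3, 3], 1, [(20, 1), (48, 1)]⟩,
⟨1, [⟨33, 4, []⟩, ⟨6, 4, []⟩, ⟨8, 4, []⟩], [7], 1, [(11, 1), (13, 1), (42, 1), (44, 1)]⟩,
⟨1, [⟨32, 3, []⟩, ⟨0, 0, [(80, 3)]⟩], [3, 3], 1, [(112, 1)]⟩,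
⟨1, [⟨16, 2, []⟩, ⟨64, 4, []⟩], [3, 1, 1], 1, [(80, 1)]⟩,
⟨1, [⟨17, 4, []⟩, ⟨10, 4, []⟩, ⟨32, 4, []⟩], [7], 1, [(35, 1), (41, 1), (50, 1), (56, 1)]⟩,
⟨1, [⟨40, 4, []⟩, ⟨16, 4, []⟩, ⟨64, 4, []⟩], [7], 1, [(88, 1), (112, 1)]⟩,
⟨1, [⟨66, 4, []⟩, ⟨24, 4, []⟩, ⟨32, 4, []⟩], [7], 1, [(42, 1), (50, 1), (104, 1), (112, 1)]⟩,
⟨0, [⟨66, 2, []⟩, ⟨40, 2, []⟩], [3, 3, 3], 1, [(10, 1), (34, 1), (72, 1), (96, 1)]⟩,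
⟨1, [⟨68, 4, []⟩, ⟨34, 4, []⟩, ⟨8, 4, []⟩], [7], 1, [(14, 1), (44, 1), (74, 1), (104, 1)]⟩,
⟨1, [⟨36, 4, []⟩, ⟨16, 4, []⟩, ⟨72, 4, []⟩], [7], 1, [(28, 1), (56, 1), (84, 1), (112, 1)]⟩,
⟨1, [⟨9, 4, []⟩, ⟨2, 4, []⟩, ⟨16, 4, []⟩], [7], 1, [(19, 1), (26, 1)]⟩,
⟨1, [⟨80, 4, []⟩, ⟨8, 4, []⟩, ⟨32, 4, []⟩], [7], 1, [(56, 1), (104, 1)]⟩,
⟨0, [⟨17, 2, []⟩, ⟨2, 2, []⟩], [3, 3, 3], 1, [(3, 1), (18, 1)]⟩,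
⟨1, [⟨2, 2, []⟩, ⟨4, 3, []⟩, ⟨8, 3, []⟩, ⟨32, 3, []⟩, ⟨64, 4, []⟩], [3, 3, 17, 12, 12], 2, [(44, 1), (70, 1), (104, 1), (110, 2)]⟩,
⟨1, [⟨17, 4, []⟩, ⟨0, 0, [(10, 2)]⟩], [3, 2, 2], 1, [(11, 1), (26, 1)]⟩,
⟨1, [⟨4, 2, []⟩, ⟨2, 3, []⟩, ⟨8, 3, []⟩, ⟨16, 3, []⟩, ⟨64, 4, []⟩], [3, 3, 17, 12, 12], 2, [(26, 1), (70, 1), (88, 1), (94, 2)]⟩,
⟨0, [⟨2, 2, []⟩, ⟨96, 2, []⟩], [3, 3, 3], 1, [(34, 1), (66, 1)]⟩,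
⟨1, [⟨0, 0, [(5, 2)]⟩, ⟨80, 4, []⟩], [3, 1, 1], 1, [(21, 1), (69, 1)]⟩,
⟨1, [⟨4, 4, []⟩, ⟨32, 4, []⟩, ⟨72, 4, []⟩], [7], 1, [(44, 1), (100, 1)]⟩,
⟨0, [⟨3, 2, []⟩, ⟨12, 2, []⟩], [3, 3, 3], 1, [(5, 1), (6, 1), (9, 1), (10, 1)]⟩,
⟨1, [⟨33, 4, []⟩, ⟨8, 4, []⟩, ⟨80, 4, []⟩], [7], 1, [(25, 1), (56, 1), (73, 1), (104, 1)]⟩,
⟨1, [⟨1, 2, []⟩, ⟨2, 3, []⟩, ⟨16, 3, []⟩, ⟨32, 3, []⟩, ⟨64, 4, []⟩], [3, 3, 17, 12, 12], 2, [(50, 1), (67, 1), (112, 1), (115, 2)]⟩,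
⟨1, [⟨1, 3, []⟩, ⟨64, 3, []⟩], [3, 3], 1, [(65, 1)]⟩,
⟨1, [⟨38, 4, []⟩, ⟨8, 4, []⟩, ⟨16, 4, []⟩], [7], 1, [(26, 1), (28, 1), (56, 1)]⟩,
⟨1, [⟨68, 4, []⟩, ⟨34, 4, []⟩, ⟨16, 4, []⟩], [7], 1, [(22, 1), (52, 1), (82, 1), (112, 1)]⟩,
⟨0, [⟨9, 2, []⟩, ⟨32, 2, []⟩], [3, 3, 3], 1, [(33, 1), (40, 1)]⟩,
⟨0, [⟨2, 2, []⟩, ⟨4, 2, []⟩], [3, 3, 3], 1, [(6, 1)]⟩,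
⟨1, [⟨17, 5, []⟩, ⟨40, 5, []⟩, ⟨64, 3, []⟩], [4, 4], 1, [(73, 1), (88, 1), (97, 1), (112, 1)]⟩,
⟨1, [⟨0, 0, [(6, 3)]⟩, ⟨64, 3, []⟩], [3, 3], 1, [(70, 1)]⟩,
⟨1, [⟨1, 2, []⟩, ⟨66, 4, []⟩], [3, 1, 1], 1, [(3, 1), (65, 1)]⟩,
⟨0, [⟨20, 2, []⟩, ⟨8, 2, []⟩], [3, 3, 3], 1, [(12, 1), (24, 1)]⟩,
⟨0, [⟨80, 2, []⟩, ⟨32, 2, []⟩], [3, 3, 3], 1, [(48, 1), (96, 1)]⟩,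
⟨1, [⟨80, 4, []⟩, ⟨0, 0, [(40, 2)]⟩], [3, 2, 2], 1, [(56, 1), (104, 1)]⟩,
⟨1, [⟨17, 3, []⟩, ⟨0, 0, [(66, 3)]⟩], [3, 3], 1, [(67, 1), (82, 1)]⟩,
⟨1, [⟨68, 4, []⟩, ⟨10, 4, []⟩, ⟨16, 4, []⟩], [7], 1, [(22, 1), (28, 1), (82, 1), (88, 1)]⟩,
⟨1, [⟨72, 4, []⟩, ⟨0, 0, [(48, 2)]⟩], [3, 2, 2], 1, [(56, 1), (112, 1)]⟩,
⟨1, [⟨5, 3, []⟩, ⟨64, 3, []⟩], [3, 3], 1, [(65, 1), (68, 1)]⟩,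
⟨1, [⟨1, 2, []⟩, ⟨64, 4, []⟩], [3, 1, 1], 1, [(65, 1)]⟩,
⟨1, [⟨20, 4, []⟩, ⟨8, 4, []⟩, ⟨64, 4, []⟩], [7], 1, [(76, 1), (88, 1)]⟩,
⟨1, [⟨1, 2, []⟩, ⟨68, 4, []⟩], [3, 1, 1], 1, [(5, 1), (65, 1)]⟩,
⟨1, [⟨9, 5, []⟩, ⟨48, 5, []⟩, ⟨64, 3, []⟩], [4, 4], 1, [(81, 1), (88, 1), (97, 1), (104, 1)]⟩,
⟨1, [⟨9, 4, []⟩, ⟨6, 4, []⟩, ⟨16, 4, []⟩], [7], 1, [(19, 1), (21, 1), (26, 1), (28, 1)]⟩,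
⟨1, [⟨0, 0, [(3, 2)]⟩, ⟨80, 4, []⟩], [3, 1, 1], 1, [(19, 1), (67, 1)]⟩,
⟨1, [⟨17, 4, []⟩, ⟨10, 4, []⟩, ⟨64, 4, []⟩], [7], 1, [(67, 1), (73, 1), (82, 1), (88, 1)]⟩,
⟨1, [⟨2, 4, []⟩, ⟨16, 4, []⟩, ⟨96, 4, []⟩], [7], 1, [(50, 1), (82, 1)]⟩,
⟨1, [⟨33, 4, []⟩, ⟨0, 0, [(6, 2)]⟩], [3, 2, 2], 1, [(7, 1), (38, 1)]⟩,
⟨1, [⟨0, 0, [(48, 2)]⟩, ⟨8, 4, []⟩], [3, 1, 1], 1, [(56, 1)]⟩,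
⟨1, [⟨74, 4, []⟩, ⟨16, 4, []⟩, ⟨32, 4, []⟩], [7], 1, [(50, 1), (56, 1), (112, 1)]⟩,
⟨1, [⟨68, 4, []⟩, ⟨18, 4, []⟩, ⟨8, 4, []⟩], [7], 1, [(14, 1), (28, 1), (74, 1), (88, 1)]⟩,
⟨1, [⟨1, 3, []⟩, ⟨4, 3, []⟩], [3, 3], 1, [(5, 1)]⟩,
⟨0, [⟨68, 2, []⟩, ⟨24, 2, []⟩], [3, 3, 3], 1, [(12, 1), (20, 1), (72, 1), (80, 1)]⟩,
⟨0, [⟨9, 2, []⟩, ⟨2, 2, []⟩], [3, 3, 3], 1, [(3, 1), (10, 1)]⟩,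
⟨0, [⟨96, 2, []⟩, ⟨16, 2, []⟩], [3, 3, 3], 1, [(48, 1), (80, 1)]⟩,
⟨1, [⟨0, 0, [(9, 2)]⟩, ⟨32, 4, []⟩], [3, 1, 1], 1, [(41, 1)]⟩,
⟨1, [⟨32, 4, []⟩, ⟨8, 2, []⟩], [3, 2, 2], 1, [(40, 1)]⟩,
⟨1, [⟨34, 4, []⟩, ⟨16, 4, []⟩, ⟨64, 4, []⟩], [7], 1, [(82, 1), (112, 1)]⟩,
⟨1, [⟨0, 0, [(66, 3)]⟩, ⟨20, 3, []⟩], [3, 3], 1, [(70, 1), (82, 1)]⟩,
⟨1, [⟨4, 4, []⟩, ⟨34, 4, []⟩, ⟨8, 4, []⟩], [7], 1, [(14, 1), (44, 1)]⟩,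
⟨1, [⟨68, 4, []⟩, ⟨18, 4, []⟩, ⟨32, 4, []⟩], [7], 1, [(38, 1), (52, 1), (98, 1), (112, 1)]⟩,
⟨1, [⟨65, 4, []⟩, ⟨48, 4, []⟩, ⟨8, 4, []⟩], [7], 1, [(25, 1), (41, 1), (88, 1), (104, 1)]⟩,
⟨1, [⟨8, 3, []⟩, ⟨0, 0, [(96, 3)]⟩], [3, 3], 1, [(104, 1)]⟩,
⟨0, [⟨17, 2, []⟩, ⟨4, 2, []⟩], [3, 3, 3], 1, [(5, 1), (20, 1)]⟩,
⟨0, [⟨72, 2, []⟩, ⟨32, 2, []⟩], [3, 3, 3], 1, [(40, 1), (96, 1)]⟩,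
⟨1, [⟨2, 4, []⟩, ⟨32, 4, []⟩, ⟨80, 4, []⟩], [7], 1, [(50, 1), (98, 1)]⟩,
⟨1, [⟨10, 4, []⟩, ⟨16, 4, []⟩, ⟨32, 4, []⟩], [7], 1, [(50, 1), (56, 1)]⟩,
⟨1, [⟨40, 3, []⟩, ⟨64, 3, []⟩], [3, 3], 1, [(72, 1), (96, 1)]⟩,
⟨1, [⟨65, 4, []⟩, ⟨6, 4, []⟩, ⟨32, 4, []⟩], [7], 1, [(35, 1), (37, 1), (98, 1), (100, 1)]⟩,
⟨1, [⟨16, 3, []⟩, ⟨32, 3, []⟩], [3, 3], 1, [(48, 1)]⟩,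
⟨1, [⟨36, 4, []⟩, ⟨8, 4, []⟩, ⟨16, 4, []⟩], [7], 1, [(28, 1), (56, 1)]⟩,
⟨0, [⟨65, 2, []⟩, ⟨8, 2, []⟩], [3, 3, 3], 1, [(9, 1), (72, 1)]⟩,
⟨1, [⟨0, 0, [(40, 2)]⟩, ⟨16, 4, []⟩], [3, 1, 1], 1, [(56, 1)]⟩,
⟨1, [⟨3, 4, []⟩, ⟨24, 4, []⟩, ⟨32, 4, []⟩], [7], 1, [(41, 1), (42, 1), (49, 1), (50, 1)]⟩,
⟨0, [⟨2, 2, []⟩, ⟨80, 2, []⟩], [3, 3, 3], 1, [(18, 1), (66, 1)]⟩,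
⟨0, [⟨24, 2, []⟩, ⟨32, 2, []⟩], [3, 3, 3], 1, [(40, 1), (48, 1)]⟩,
⟨1, [⟨33, 4, []⟩, ⟨18, 4, []⟩, ⟨8, 4, []⟩], [7], 1, [(11, 1), (25, 1), (42, 1), (56, 1)]⟩,
⟨0, [⟨4, 2, []⟩, ⟨40, 2, []⟩], [3, 3, 3], 1, [(12, 1), (36, 1)]⟩,
⟨0, [⟨5, 2, []⟩, ⟨18, 2, []⟩], [3, 3, 3], 1, [(3, 1), (6, 1), (17, 1), (20, 1)]⟩,
⟨1, [⟨12, 4, []⟩, ⟨48, 4, []⟩, ⟨64, 4, []⟩], [7], 1, [(84, 1), (88, 1), (100, 1), (104, 1)]⟩,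
⟨1, [⟨68, 4, []⟩, ⟨40, 4, []⟩, ⟨16, 4, []⟩], [7], 1, [(28, 1), (52, 1), (88, 1), (112, 1)]⟩,
⟨1, [⟨17, 4, []⟩, ⟨0, 0, [(12, 2)]⟩], [3, 2, 2], 1, [(13, 1), (28, 1)]⟩,
⟨1, [⟨4, 4, []⟩, ⟨10, 4, []⟩, ⟨16, 4, []⟩], [7], 1, [(22, 1), (28, 1)]⟩,
⟨1, [⟨4, 3, []⟩, ⟨64, 3, []⟩], [3, 3], 1, [(68, 1)]⟩,
⟨1, [⟨2, 4, []⟩, ⟨8, 4, []⟩, ⟨80, 4, []⟩], [7], 1, [(26, 1), (74, 1)]⟩,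
⟨1, [⟨4, 4, []⟩, ⟨18, 4, []⟩, ⟨8, 4, []⟩], [7], 1, [(14, 1), (28, 1)]⟩,
⟨1, [⟨6, 3, []⟩, ⟨64, 3, []⟩], [3, 3], 1, [(66, 1), (68, 1)]⟩,
⟨0, [⟨65, 2, []⟩, ⟨2, 2, []⟩], [3, 3, 3], 1, [(3, 1), (66, 1)]⟩,
⟨0, [⟨40, 2, []⟩, ⟨80, 2, []⟩], [3, 3, 3], 1, [(24, 1), (48, 1), (72, 1), (96, 1)]⟩,
⟨1, [⟨34, 4, []⟩, ⟨8, 4, []⟩, ⟨16, 4, []⟩], [7], 1, [(26, 1), (56, 1)]⟩,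
⟨1, [⟨10, 4, []⟩, ⟨32, 4, []⟩, ⟨64, 4, []⟩], [7], 1, [(98, 1), (104, 1)]⟩,
⟨1, [⟨1, 2, []⟩, ⟨4, 3, []⟩, ⟨8, 3, []⟩, ⟨16, 3, []⟩, ⟨64, 4, []⟩], [3, 3, 17, 12, 12], 2, [(28, 1), (69, 1), (88, 1), (93, 2)]⟩,
⟨1, [⟨76, 4, []⟩, ⟨16, 4, []⟩, ⟨32, 4, []⟩], [7], 1, [(52, 1), (56, 1), (112, 1)]⟩,
⟨1, [⟨65, 4, []⟩, ⟨24, 4, []⟩, ⟨32, 4, []⟩], [7], 1, [(41, 1), (49, 1), (104, 1), (112, 1)]⟩,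
⟨0, [⟨10, 2, []⟩, ⟨32, 2, []⟩], [3, 3, 3], 1, [(34, 1), (40, 1)]⟩,
⟨1, [⟨4, 4, []⟩, ⟨8, 4, []⟩, ⟨96, 4, []⟩], [7], 1, [(44, 1), (76, 1)]⟩,
⟨0, [⟨6, 2, []⟩, ⟨48, 2, []⟩], [3, 3, 3], 1, [(18, 1), (20, 1), (34, 1), (36, 1)]⟩,
⟨1, [⟨65, 4, []⟩, ⟨4, 2, []⟩], [3, 2, 2], 1, [(5, 1), (68, 1)]⟩,
⟨1, [⟨16, 3, []⟩, ⟨0, 0, [(96, 3)]⟩], [3, 3], 1, [(112, 1)]⟩,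
⟨0, [⟨10, 2, []⟩, ⟨16, 2, []⟩], [3, 3, 3], 1, [(18, 1), (24, 1)]⟩,
⟨1, [⟨100, 4, []⟩, ⟨8, 4, []⟩, ⟨16, 4, []⟩], [7], 1, [(28, 1), (56, 1), (88, 1)]⟩,
⟨1, [⟨33, 4, []⟩, ⟨16, 4, []⟩, ⟨72, 4, []⟩], [7], 1, [(25, 1), (56, 1), (81, 1), (112, 1)]⟩,
⟨1, [⟨9, 4, []⟩, ⟨4, 4, []⟩, ⟨16, 4, []⟩], [7], 1, [(21, 1), (28, 1)]⟩,
⟨1, [⟨8, 3, []⟩, ⟨16, 3, []⟩], [3, 3], 1, [(24, 1)]⟩,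
⟨0, [⟨1, 2, []⟩, ⟨2, 2, []⟩], [3, 3, 3], 1, [(3, 1)]⟩,
⟨1, [⟨17, 4, []⟩, ⟨2, 4, []⟩, ⟨32, 4, []⟩], [7], 1, [(35, 1), (50, 1)]⟩,
⟨1, [⟨1, 3, []⟩, ⟨2, 3, []⟩], [3, 3], 1, [(3, 1)]⟩,
⟨0, [⟨9, 2, []⟩, ⟨18, 2, []⟩], [3, 3, 3], 1, [(3, 1), (10, 1), (17, 1), (24, 1)]⟩,
⟨1, [⟨17, 4, []⟩, ⟨2, 4, []⟩, ⟨8, 4, []⟩], [7], 1, [(11, 1), (26, 1)]⟩,
⟨1, [⟨18, 4, []⟩, ⟨8, 4, []⟩, ⟨32, 4, []⟩], [7], 1, [(42, 1), (56, 1)]⟩,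
⟨1, [⟨20, 4, []⟩, ⟨32, 4, []⟩, ⟨72, 4, []⟩], [7], 1, [(44, 1), (56, 1), (100, 1), (112, 1)]⟩,
⟨1, [⟨68, 4, []⟩, ⟨10, 4, []⟩, ⟨32, 4, []⟩], [7], 1, [(38, 1), (44, 1), (98, 1), (104, 1)]⟩,
⟨1, [⟨36, 4, []⟩, ⟨24, 4, []⟩, ⟨64, 4, []⟩], [7], 1, [(76, 1), (84, 1), (104, 1), (112, 1)]⟩,
⟨1, [⟨32, 3, []⟩, ⟨0, 0, [(24, 3)]⟩], [3, 3], 1, [(56, 1)]⟩,
⟨0, [⟨1, 2, []⟩, ⟨66, 2, []⟩], [3, 3, 3], 1, [(3, 1), (65, 1)]⟩,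
⟨1, [⟨17, 4, []⟩, ⟨34, 4, []⟩, ⟨64, 4, []⟩], [7], 1, [(67, 1), (82, 1), (97, 1), (112, 1)]⟩,
⟨1, [⟨1, 2, []⟩, ⟨4, 3, []⟩, ⟨16, 3, []⟩, ⟨32, 3, []⟩, ⟨64, 4, []⟩], [3, 3, 17, 12, 12], 2, [(52, 1), (69, 1), (112, 1), (117, 2)]⟩,
⟨1, [⟨32, 3, []⟩, ⟨64, 3, []⟩], [3, 3], 1, [(96, 1)]⟩,
⟨1, [⟨66, 4, []⟩, ⟨12, 4, []⟩, ⟨16, 4, []⟩], [7], 1, [(22, 1), (26, 1), (84, 1), (88, 1)]⟩,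
⟨0, [⟨9, 2, []⟩, ⟨48, 2, []⟩], [3, 3, 3], 1, [(17, 1), (24, 1), (33, 1), (40, 1)]⟩,
⟨0, [⟨65, 2, []⟩, ⟨16, 2, []⟩], [3, 3, 3], 1, [(17, 1), (80, 1)]⟩,
⟨0, [⟨4, 2, []⟩, ⟨48, 2, []⟩], [3, 3, 3], 1, [(20, 1), (36, 1)]⟩,
⟨0, [⟨24, 2, []⟩, ⟨96, 2, []⟩], [3, 3, 3], 1, [(40, 1), (48, 1), (72, 1), (80, 1)]⟩,
⟨1, [⟨18, 4, []⟩, ⟨8, 4, []⟩, ⟨64, 4, []⟩], [7], 1, [(74, 1), (88, 1)]⟩,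
⟨0, [⟨33, 2, []⟩, ⟨12, 2, []⟩], [3, 3, 3], 1, [(5, 1), (9, 1), (36, 1), (40, 1)]⟩,
⟨1, [⟨0, 0, [(68, 3)]⟩, ⟨18, 3, []⟩], [3, 3], 1, [(70, 1), (84, 1)]⟩,
⟨1, [⟨17, 4, []⟩, ⟨6, 4, []⟩, ⟨8, 4, []⟩], [7], 1, [(11, 1), (13, 1), (26, 1), (28, 1)]⟩,
⟨1, [⟨18, 4, []⟩, ⟨40, 4, []⟩, ⟨64, 4, []⟩], [7], 1, [(74, 1), (88, 1), (98, 1), (112, 1)]⟩,
⟨1, [⟨33, 4, []⟩, ⟨6, 4, []⟩, ⟨16, 4, []⟩], [7], 1, [(19, 1), (21, 1), (50, 1), (52, 1)]⟩,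
⟨1, [⟨0, 0, [(24, 3)]⟩, ⟨64, 3, []⟩], [3, 3], 1, [(88, 1)]⟩,
⟨1, [⟨10, 4, []⟩, ⟨48, 4, []⟩, ⟨64, 4, []⟩], [7], 1, [(82, 1), (88, 1), (98, 1), (104, 1)]⟩,
⟨0, [⟨66, 2, []⟩, ⟨24, 2, []⟩], [3, 3, 3], 1, [(10, 1), (18, 1), (72, 1), (80, 1)]⟩,
⟨1, [⟨65, 4, []⟩, ⟨2, 2, []⟩], [3, 2, 2], 1, [(3, 1), (66, 1)]⟩,
⟨1, [⟨33, 4, []⟩, ⟨12, 4, []⟩, ⟨64, 4, []⟩], [7], 1, [(69, 1), (73, 1), (100, 1), (104, 1)]⟩,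
⟨1, [⟨66, 4, []⟩, ⟨20, 4, []⟩, ⟨32, 4, []⟩], [7], 1, [(38, 1), (50, 1), (100, 1), (112, 1)]⟩,
⟨0, [⟨18, 2, []⟩, ⟨8, 2, []⟩], [3, 3, 3], 1, [(10, 1), (24, 1)]⟩,
⟨1, [⟨66, 4, []⟩, ⟨36, 4, []⟩, ⟨8, 4, []⟩], [7], 1, [(14, 1), (42, 1), (76, 1), (104, 1)]⟩,
⟨1, [⟨66, 4, []⟩, ⟨36, 4, []⟩, ⟨16, 4, []⟩], [7], 1, [(22, 1), (50, 1), (84, 1), (112, 1)]⟩,
⟨0, [⟨5, 2, []⟩, ⟨10, 2, []⟩], [3, 3, 3], 1, [(3, 1), (6, 1), (9, 1), (12, 1)]⟩,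
⟨1, [⟨10, 4, []⟩, ⟨16, 4, []⟩, ⟨96, 4, []⟩], [7], 1, [(50, 1), (56, 1), (82, 1), (88, 1)]⟩,
⟨1, [⟨68, 4, []⟩, ⟨48, 4, []⟩, ⟨8, 4, []⟩], [7], 1, [(28, 1), (44, 1), (88, 1), (104, 1)]⟩,
⟨1, [⟨12, 4, []⟩, ⟨16, 4, []⟩, ⟨32, 4, []⟩], [7], 1, [(52, 1), (56, 1)]⟩,
⟨0, [⟨8, 2, []⟩, ⟨16, 2, []⟩], [3, 3, 3], 1, [(24, 1)]⟩,
⟨0, [⟨2, 2, []⟩, ⟨48, 2, []⟩], [3, 3, 3], 1, [(18, 1), (34, 1)]⟩,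
⟨1, [⟨65, 4, []⟩, ⟨40, 4, []⟩, ⟨16, 4, []⟩], [7], 1, [(25, 1), (49, 1), (88, 1), (112, 1)]⟩]

theorem base_ok : base.all (fun q => q.ok 7 2 [7, 56, 65] [9, 2000, 2000, 2000] big4 []) = true := by
  decide +kernel

theorem gv_ok : gv.all (fun c => c.ok 1 8) = true := by decide +kernel

theorem gads_ok : gads.all (fun g => g.okV 7 2 [0, 2]) = true := by decide +kernel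

theorem cmp_ok : cmpR names cnf (clsu 2 base ++ (gv.map Gv.cl ++ gads.map Gt.cl)) = true := by
  decide +kernel

end DG16

theorem instl_16 : instL 1 2 [0, 2] [65] 9 8 DG16.base DG16.gv DG16.gads DG16.names DG16.cnf DG16.db DG16.prf = true :=
  instL_of DG16.base_ok DG16.gv_ok DG16.gads_ok (by decide +kernel) DG16.okc DG16.cmp_ok DG16.chk_ok

/-- there is no configuration of this instance. -/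
theorem nol_16 {V : Type v} [DecidableEq V] {ι : Type u} [Fintype ι] {B : ι → Finset V}
    {Q : Finset V} {x : ℕ → V} {C : ℕ → Finset V}
    (h : CfL B Q 1 2 x C [0, 2] [65] 9 8) : False :=
  h.absurd instl_16

end Pool.Agent.Hyp6
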