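import Pool.Agent.Hyp6.CfGb

/-!
# HYP6: leaf instance 22: n = 1, r = 2, bounds [0, 0], inner blocks [1, 1]

30 base clauses, 1 given clauses, 9 gadgets, 33 learned clauses.
-/

set_option autoImplicit false
set_option maxRecDepth 100000

namespace Pool.Agent.Hyp6

open Rup

universe u v

namespace DG22

noncomputable def names : Tr :=
 (.node 16 (.node 7 (.node 3 (.node 1 (.node 0 (.leaf 130)
 (.leaf 67))
 (.node 2 (.leaf 66)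
 (.leaf 131)))
 (.node 5 (.node 4 (.leaf 259)
 (.leaf 2564))
 (.node 6 (.leaf 258)
 (.leaf 2307))))
 (.node 11 (.node 9 (.node 8 (.leaf 2562)
 (.leaf 129))
 (.node 10 (.leaf 2179)
 (.leaf 514)))
 (.node 13 (.node 12 (.leaf 2115)
 (.leaf 65))
 (.node 14 (.leaf 257)
 (.node 15 (.leaf 2306)
 (.leaf 33))))))
 (.node 25 (.node 20 (.node 18 (.node 17 (.leaf 16513)
 (.leaf 19265))
 (.node 19 (.leaf 515)
 (.leaf 16449)))
 (.node 22 (.node 21 (.leaf 516)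
 (.leaf 16577))
 (.node 23 (.leaf 19201)
 (.node 24 (.leaf 17)
 (.leaf 513)))))
 (.node 29 (.node 27 (.node 26 (.leaf 16769)
 (.leaf 19009))
 (.node 28 (.leaf 2114)
 (.leaf 16641)))
 (.node 31 (.node 30 (.leaf 2178)
 (.leaf 19137))
 (.node 32 (.leaf 16705)
 (.node 33 (.leaf 19073)
 (.leaf 19329)))))))

noncomputable def base : List Ru := [
.rs (.ordE 0 16 1),
.rs (.deg 4 [1, 2]),
.rs (.ordE 0 8 2),
.rs (.slot 0 [(2, 1), (3, 3), (4, 3), (5, 3)]),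
.rs (.part [16, 104] [0, 0] [7] []),
.rs (.ordE 0 64 2),
.rs (.deg 3 [1, 2]),
.rs (.ab 0 3),
.rs (.ordE 0 64 3),
.rs (.part [24, 96] [0, 0] [7] []),
.rs (.hall [0] [1, 2, 6]),
.rs (.hall [0] [3, 4, 5]),
.rs (.part [48, 72] [0, 0] [7] []),
.rs (.deg 3 [2, 1]),
.rs (.ab 0 4),
.rs (.slot 0 [(1, 1), (3, 3), (4, 3), (5, 3)]),
.rs (.slot 0 [(3, 3), (4, 3), (5, 3), (6, 1)]),
.rs (.deg 5 [2, 1]),
.rs (.ab 0 5),
.rs (.deg 4 [2, 1]),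
.rs (.part [32, 88] [0, 0] [7] []),
.rs (.ordE 0 8 1),
.rs (.deg 6 [1, 3]),
.rs (.ordE 0 16 2),
.rs (.deg 5 [1, 2]),
.rs (.part [40, 80] [0, 0] [7] []),
.rs (.part [8, 112] [0, 0] [7] []),
.rs (.deg 6 [3, 1]),
.rs (.ordE 0 32 1),
.rs (.ordE 1 32 2)]

noncomputable def gv : List Gv := [
.cap6]

noncomputable def gads : List Gt := [
⟨0, [⟨8, 2, []⟩, ⟨16, 2, []⟩], [3, 3, 3], 1, [(24, 1)]⟩,
⟨1, [⟨16, 3, []⟩, ⟨32, 3, []⟩, ⟨64, 4, []⟩], [7, 3], 1, [(112, 1)]⟩,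
⟨1, [⟨8, 2, []⟩, ⟨64, 2, []⟩], [3, 3, 3], 1, [(72, 1)]⟩,
⟨0, [⟨8, 2, []⟩, ⟨32, 2, []⟩], [3, 3, 3], 1, [(40, 1)]⟩,
⟨0, [⟨16, 2, []⟩, ⟨32, 2, []⟩], [3, 3, 3], 1, [(48, 1)]⟩,
⟨1, [⟨8, 3, []⟩, ⟨16, 3, []⟩, ⟨64, 4, []⟩], [7, 3], 1, [(88, 1)]⟩,
⟨1, [⟨16, 2, []⟩, ⟨64, 2, []⟩], [3, 3, 3], 1, [(80, 1)]⟩,
⟨1, [⟨32, 2, []⟩, ⟨64, 2, []⟩], [3, 3, 3], 1, [(96, 1)]⟩,
⟨1, [⟨8, 3, []⟩, ⟨32, 3, []⟩, ⟨64, 4, []⟩], [7, 3], 1, [(104, 1)]⟩]

noncomputable def cnf : List (List ℕ) := [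
[1, 18],
[0, 20],
[3, 4],
[33, 3, 7, 9],
[34, 36],
[39, 22],
[4, 24],
[27, 41],
[43, 38],
[44, 46],
[48, 32, 50],
[26, 18, 28],
[52, 54],
[2, 56],
[19, 35],
[49, 3, 7, 9],
[3, 7, 9, 51],
[8, 30],
[29, 59],
[6, 60],
[58, 62],
[5, 26],
[22, 10],
[7, 0],
[12, 14],
[64, 66],
[40, 68],
[42, 16],
[13, 28],
[15, 30],
[23],
[5, 1, 45],
[21, 15, 11, 69],
[57, 17, 55],
[5, 13, 65],
[1, 13, 53],
[25, 21, 11, 63],
[61, 17, 67],
[31, 17, 47],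
[25, 15, 11, 37]]

noncomputable def db : Tr :=
 (.node 36 (.node 18 (.node 9 (.node 4 (.node 2 (.node 1 (.leaf 0x140003)
 (.leaf 0x160002))
 (.node 3 (.leaf 0x60005)
 (.leaf 0xb000900050023)))
 (.node 6 (.node 5 (.leaf 0x260024)
 (.leaf 0x180029))
 (.node 7 (.leaf 0x1a0006)
 (.node 8 (.leaf 0x2b001d)
 (.leaf 0x28002d)))))
 (.node 13 (.node 11 (.node 10 (.leaf 0x30002e)
 (.leaf 0x3400220032))
 (.node 12 (.leaf 0x1e0014001c)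
 (.leaf 0x380036)))
 (.node 15 (.node 14 (.leaf 0x3a0004)
 (.leaf 0x250015))
 (.node 16 (.leaf 0xb000900050033)
 (.node 17 (.leaf 0x35000b00090005)
 (.leaf 0x20000a))))))
 (.node 27 (.node 22 (.node 20 (.node 19 (.leaf 0x3d001f)
 (.leaf 0x3e0008))
 (.node 21 (.leaf 0x40003c)
 (.leaf 0x1c0007)))
 (.node 24 (.node 23 (.leaf 0xc0018)
 (.leaf 0x20009))
 (.node 25 (.leaf 0x10000e)
 (.node 26 (.leaf 0x440042)
 (.leaf 0x46002a)))))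
 (.node 31 (.node 29 (.node 28 (.leaf 0x12002c)
 (.leaf 0x1e000f))
 (.node 30 (.leaf 0x200011)
 (.leaf 0x19)))
 (.node 33 (.node 32 (.leaf 0x2f00030007)
 (.leaf 0x47000d00110017))
 (.node 34 (.leaf 0x390013003b)
 (.node 35 (.leaf 0x43000f0007)
 (.leaf 0x37000f0003)))))))
 (.node 54 (.node 45 (.node 40 (.node 38 (.node 37 (.leaf 0x41000d0017001b)
 (.leaf 0x450013003f))
 (.node 39 (.leaf 0x3100130021)
 (.leaf 0x27000d0011001b)))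
 (.node 42 (.node 41 (.leaf 0x29)
 (.leaf 0x2d))
 (.node 43 (.leaf 0xc)
 (.node 44 (.leaf 0x12)
 (.leaf 0x1700110047)))))
 (.node 49 (.node 47 (.node 46 (.leaf 0x3b0039)
 (.leaf 0x1b00170041))
 (.node 48 (.leaf 0x3f0045)
 (.leaf 0x210031)))
 (.node 51 (.node 50 (.leaf 0x1b00110027)
 (.leaf 0x30011))
 (.node 52 (.leaf 0x50009000b)
 (.node 53 (.leaf 0x9)
 (.leaf 0x3e))))))
 (.node 63 (.node 58 (.node 56 (.node 55 (.leaf 0x45)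
 (.leaf 0x42))
 (.node 57 (.leaf 0x470011)
 (.leaf 0xf)))
 (.node 60 (.node 59 (.leaf 0x10)
 (.leaf 0x47))
 (.node 61 (.leaf 0x3)
 (.node 62 (.leaf 0x2a)
 (.leaf 0x16)))))
 (.node 68 (.node 65 (.node 64 (.leaf 0x1d)
 (.leaf 0x7))
 (.node 66 (.leaf 0x1a)
 (.node 67 (.leaf 0x27)
 (.leaf 0x41))))
 (.node 70 (.node 69 (.leaf 0x24)
 (.leaf 0x3c))
 (.node 71 (.leaf 0x15)
 (.node 72 (.leaf 0x1f)
 (.leaf 0x0))))))))

noncomputable def prf : List ℕ := [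
0x2200009,
0x2000000,
0x130000b,
0xf00001,
0xb00001,
0xb00001,
0x900003,
0x900003,
0x900004,
0x900006,
0x12000280002b0000100000000140002d0002300031,
0x2800022000230002f,
0x22000030002a0001400031000260000600027000100001b000010001c,
0x2100000,
0x600000,
0x1d00000,
0x36000050000b,
0x150002c000370000b0000a0002b00024000320003600026000160001c00001,
0x2100000,
0x200000,
0x900001,
0x2200001,
0x3c00001,
0x3700001,
0x2a00000,
0x3a00000,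
0x100000700000,
0x140000400001,
0x3f00001,
0x3000001,
0x3700001,
0x3400001,
0x3c000080000100000]

end DG22

theorem instl_22 : instL 1 2 [0, 0] [1, 1] 9 8 DG22.base DG22.gv DG22.gads DG22.names DG22.cnf DG22.db DG22.prf = true := by decide +kernel

/-- there is no configuration of this instance. -/
theorem nol_22 {V : Type v} [DecidableEq V] {ι : Type u} [Fintype ι] {B : ι → Finset V}
    {Q : Finset V} {x : ℕ → V} {C : ℕ → Finset V}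
    (h : CfL B Q 1 2 x C [0, 0] [1, 1] 9 8) : False :=
  h.absurd instl_22

end Pool.Agent.Hyp6
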