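import Pool.Agent.Hyp6.CfLO
import Pool.Agent.Hyp6.InsG.F25

/-!
# HYP6: leaf instance 25: n = 2, r = 3, bounds [0, 0, 2], inner blocks []

1580 base clauses, 12 given clauses, 646 gadgets, 1765 learned clauses.
-/

set_option autoImplicit false
set_option maxRecDepth 100000

namespace Pool.Agent.Hyp6

open Rup

universe u v

namespace DG25

noncomputable def base : List Ru := [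
.rs (.part [17, 192, 46] [0, 1, 0] [] []),
.rs (.ordE 0 16 1),
.rs (.lip 2 84 87 7),
.rs (.part [45, 192, 18] [1, 0, 0] [] []),
.rs (.part [1, 66, 132] [0, 0, 0] [56] []),
.rs (.mono 2 64 68 1),
.rs (.join 1 4 7 3 2 1 [(2, 0)]),
.rs (.join 2 2 5 4 2 4 [(1, 2)]),
.rs (.part [75, 164, 16] [1, 0, 0] [] []),
.rs (.join 1 1 4 2 1 1 [(0, 0)]),
.rs (.deg 6 [2, 1, 1]),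
.rs (.lip 2 80 82 2),
.rs (.join 2 16 5 4 3 2 [(4, 1)]),
.rs (.join 1 4 4 4 3 2 [(2, 1)]),
.rs (.join 2 4 5 2 1 1 [(2, 0)]),
.rs (.lipl 2 80 240 2 160),
.rs (.lipl 2 38 182 1 144),
.rs (.join 0 8 4 2 1 1 [(3, 0)]),
.rs (.part [33, 216, 6] [0, 1, 0] [] []),
.rs (.lip 2 18 82 64),
.rs (.lipl 1 84 94 0 10),
.rs (.lipl 2 44 110 2 66),
.rs (.join 2 17 6 4 2 3 [(0, 1), (4, 0)]),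
.rs (.deg 6 [0, 0, 4]),
.rs (.mono 1 132 164 1),
.rs (.join 2 2 6 2 1 1 [(1, 0)]),
.rs (.lip 2 0 56 56),
.rs (.part [9, 128, 100] [0, 0, 0] [] [(1, 18)]),
.rs (.part [32, 136, 80] [0, 0, 0] [7] []),
.rs (.lipl 2 130 150 2 20),
.rs (.part [9, 64, 182] [0, 0, 1] [] []),
.rs (.join 1 1 5 2 1 1 [(0, 0)]),
.degU 2 [(1, 2), (2, 3)],
.rs (.part [77, 160, 18] [1, 0, 0] [] []),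
.rs (.l2 2 18 48 4 2 2),
.rs (.lipl 2 22 118 0 96),
.rs (.part [57, 130, 68] [1, 0, 0] [] []),
.rs (.join 1 2 5 2 1 1 [(1, 0)]),
.rs (.lipl 2 80 114 1 34),
.rs (.part [11, 100, 144] [1, 0, 0] [] []),
.rs (.ab 2 3),
.rs (.lipl 2 50 118 1 68),
.rs (.le 2 129 1 0 3),
.rs (.mono 1 33 161 1),
.rs (.join 1 2 5 3 2 1 [(1, 0)]),
.rs (.l2 1 18 48 4 1 1),
.rs (.part [23, 128, 104] [1, 0, 0] [] []),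
.rs (.un 1 0),
.rs (.part [8, 112, 128] [0, 0, 0] [7] []),
.rs (.join 1 64 7 4 3 2 [(6, 1)]),
.rs (.part [73, 132, 50] [1, 0, 0] [] []),
.rs (.part [64, 1, 134] [0, 0, 0] [56] []),
.rs (.part [73, 144, 38] [1, 0, 0] [] []),
.rs (.part [105, 6, 144] [1, 0, 0] [] []),
.rs (.lip 2 66 98 32),
.rs (.lip 1 192 197 7),
.rs (.deg 6 [2, 0, 2]),
.rs (.part [73, 20, 162] [1, 0, 0] [] []),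
.rs (.part [96, 24, 128] [0, 0, 0] [7] []),
.rs (.join 2 16 7 4 2 2 [(4, 0)]),
.rs (.join 2 16 7 4 1 3 [(4, 0)]),
.rs (.lip 0 2 58 56),
.rs (.join 1 4 5 3 1 2 [(2, 0)]),
.rs (.part [17, 136, 102] [0, 0, 1] [] []),
.rs (.join 1 1 5 3 0 3 [(0, 0)]),
.rs (.lipl 2 144 178 1 34),
.rs (.part [9, 102, 144] [0, 1, 0] [] []),
.rs (.join 2 24 6 4 2 2 [(3, 0), (4, 0)]),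
.rs (.join 1 2 5 2 2 0 [(1, 0)]),
.rs (.mono 1 192 194 1),
.rs (.lipl 2 38 118 2 80),
.rs (.join 2 2 3 4 3 2 [(1, 1)]),
.rs (.part [6, 81, 168] [0, 0, 1] [] []),
.rs (.deg 6 [2, 2, 0]),
.rs (.join 1 1 3 2 1 1 [(0, 0)]),
.rs (.part [9, 70, 176] [0, 1, 0] [] []),
.rs (.deg 7 [0, 3, 1]),
.rs (.join 1 2 4 3 1 2 [(1, 0)]),
.rs (.part [24, 128, 96] [0, 0, 0] [7] []),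
.rs (.part [40, 128, 80] [0, 0, 0] [7] []),
.rs (.lipl 1 128 208 1 80),
.rs (.part [17, 194, 44] [0, 1, 0] [] []),
.rs (.slot 0 [(0, 3), (1, 1), (2, 1), (3, 3), (4, 1), (5, 1)]),
.rs (.join 1 2 2 3 2 1 [(1, 0)]),
.rs (.lipl 2 130 198 1 68),
.rs (.lip 2 20 84 64),
.rs (.slot 0 [(1, 2), (2, 2), (0, 3), (3, 1), (4, 1), (5, 1)]),
.rs (.part [65, 168, 22] [0, 1, 0] [] []),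
.rs (.join 2 8 4 3 2 2 [(3, 1)]),
.rs (.part [17, 98, 140] [0, 1, 0] [] []),
.rs (.lip 1 128 152 56),
.rs (.join 2 2 2 4 2 3 [(1, 1)]),
.rs (.l2 1 17 48 4 1 1),
.rs (.lip 1 64 104 56),
.rs (.part [17, 198, 40] [0, 1, 0] [] []),
.rs (.lipl 2 144 180 1 36),
.rs (.part [57, 194, 4] [1, 0, 0] [] []),
.rs (.l2 0 68 72 6 1 1),
.rs (.join 2 4 7 3 2 2 [(2, 1)]),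
.rs (.part [16, 40, 192] [0, 0, 0] [7] []),
.rs (.lipl 2 36 228 2 192),
.rs (.join 1 4 5 2 0 2 [(2, 0)]),
.rs (.deg 2 [0, 0, 3]),
.rs (.part [1, 196, 2] [0, 0, 0] [56] []),
.rs (.join 1 4 5 2 1 1 [(2, 0)]),
.rs (.part [9, 4, 224] [0, 0, 0] [] [(2, 18)]),
.rs (.l2 1 12 68 2 1 1),
.rs (.lipl 2 66 102 2 36),
.rs (.mono 2 1 129 1),
.rs (.lipl 2 36 116 2 80),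
.rs (.join 2 36 7 4 3 1 [(2, 0), (5, 0)]),
.rs (.lipl 1 160 228 1 68),
.rs (.ab2 1 6),
.rs (.join 2 1 1 4 0 4 [(0, 0)]),
.rs (.join 1 2 6 3 2 2 [(1, 1)]),
.rs (.part [17, 76, 162] [0, 1, 0] [] []),
.rs (.part [65, 130, 4] [0, 0, 0] [56] []),
.rs (.l2 2 24 40 3 1 1),
.rs (.part [43, 80, 132] [1, 0, 0] [] []),
.rs (.deg 7 [2, 0, 2]),
.rs (.join 1 16 6 4 1 3 [(4, 0)]),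
.rs (.lip 1 96 100 4),
.rs (.lipl 2 192 212 2 20),
.rs (.ordE 2 4 1),
.rs (.join 2 4 5 4 3 1 [(2, 0)]),
.degU 0 [(0, 3), (1, 1), (2, 1)],
.rs (.join 2 1 4 4 0 4 [(0, 0)]),
.rs (.deg 0 [3, 0, 0]),
.rs (.l2 0 10 72 3 1 1),
.rs (.lip 1 16 19 7),
.rs (.lipl 1 224 244 1 20),
.rs (.ab2 2 18),
.rs (.part [66, 1, 132] [0, 0, 0] [56] []),
.rs (.mono 2 1 65 1),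
.rs (.slot 0 [(2, 2), (0, 3), (1, 3), (3, 1), (6, 1)]),
.rs (.ab2 0 96),
.rs (.join 2 4 7 3 1 2 [(2, 0)]),
.rs (.part [83, 12, 160] [1, 0, 0] [] []),
.rs (.lipl 1 148 214 0 66),
.rs (.join 1 2 3 2 0 2 [(1, 0)]),
.rs (.l2 2 10 72 3 1 2),
.rs (.deg 1 [0, 2, 1]),
.rs (.l2 2 24 80 4 1 1),
.rs (.part [32, 144, 72] [0, 0, 0] [7] []),
.rs (.join 1 2 7 3 2 2 [(1, 1)]),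
.rs (.part [3, 248, 4] [0, 1, 0] [] []),
.rs (.slot 0 [(1, 2), (0, 3), (2, 1), (3, 2), (4, 1), (6, 1)]),
.rs (.part [1, 70, 128] [0, 0, 0] [56] []),
.rs (.part [1, 6, 192] [0, 0, 0] [56] []),
.degU 4 [(0, 1), (2, 4)],
.rs (.join 2 2 6 3 1 2 [(1, 0)]),
.rs (.mono 1 1 65 1),
.rs (.ab2 0 66),
.rs (.ab 0 6),
.rs (.l2 1 36 96 5 1 1),
.rs (.part [9, 6, 240] [0, 0, 1] [] []),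
.rs (.ab2 2 36),
.rs (.join 0 16 6 2 1 1 [(4, 0)]),
.rs (.join 1 16 7 3 1 3 [(4, 1)]),
.rs (.le 2 36 32 5 3),
.rs (.lipl 0 17 27 1 10),
.rs (.l2 2 10 72 3 1 1),
.rs (.ordE 0 16 2),
.rs (.part [8, 80, 160] [0, 0, 0] [7] []),
.rs (.join 2 16 6 2 1 2 [(4, 1)]),
.rs (.join 1 32 7 2 1 1 [(5, 0)]),
.rs (.lipl 2 80 114 2 34),
.rs (.mono 1 17 145 1),
.rs (.ab2 2 33),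
.rs (.join 2 4 7 3 2 1 [(2, 0)]),
.rs (.lipl 1 194 214 1 20),
.rs (.lipl 1 148 214 1 66),
.rs (.join 2 32 6 4 2 3 [(5, 1)]),
.rs (.part [9, 32, 194] [0, 0, 0] [] [(2, 20)]),
.rs (.part [73, 130, 52] [1, 0, 0] [] []),
.rs (.le 2 34 2 1 3),
.rs (.le 2 17 1 0 2),
.rs (.l2 1 40 96 5 1 1),
.rs (.lipl 2 96 240 2 144),
.rs (.ordE 0 4 2),
.rs (.hall [1] [0, 1, 2, 6]),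
.rs (.lipl 2 50 182 1 132),
.rs (.part [33, 192, 30] [0, 1, 0] [] []),
.rs (.join 2 36 6 4 3 1 [(2, 0), (5, 0)]),
.rs (.deg 7 [1, 1, 2]),
.rs (.l2 2 17 65 0 1 1),
.rs (.part [64, 132, 3] [0, 0, 0] [56] []),
.degU 4 [(1, 3), (2, 2)],
.rs (.join 2 4 5 5 3 3 [(2, 1)]),
.rs (.join 1 16 6 3 0 3 [(4, 0)]),
.rs (.lipl 1 100 118 2 18),
.rs (.part [21, 74, 160] [1, 0, 0] [] []),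
.rs (.l2 2 34 160 5 1 2),
.rs (.part [17, 128, 76] [0, 0, 0] [] [(1, 34)]),
.rs (.join 2 1 4 1 0 2 [(0, 1)]),
.rs (.ab 0 0),
.rs (.lipl 2 68 86 1 18),
.rs (.part [17, 4, 234] [0, 0, 1] [] []),
.rs (.join 2 18 7 4 2 2 [(1, 0), (4, 0)]),
.rs (.ordL 2 48 1),
.rs (.join 2 6 7 4 2 2 [(1, 0), (2, 0)]),
.rs (.part [3, 164, 64] [0, 0, 0] [24] []),
.rs (.lipl 2 144 240 0 96),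
.rs (.le 2 66 2 1 1),
.rs (.srt 0 2 0 1 3),
.rs (.lipl 2 22 118 2 96),
.rs (.join 2 16 7 2 0 2 [(4, 0)]),
.rs (.slot 0 [(3, 3), (4, 1), (0, 4), (1, 1), (2, 1)]),
.rs (.part [8, 96, 144] [0, 0, 0] [7] []),
.rs (.lipl 2 48 180 1 132),
.rs (.lipl 2 200 234 2 34),
.rs (.part [11, 84, 160] [1, 0, 0] [] []),
.rs (.part [57, 132, 66] [1, 0, 0] [] []),
.rs (.join 1 1 5 4 1 3 [(0, 0)]),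
.rs (.lipl 2 6 102 0 96),
.rs (.le 1 33 1 0 1),
.rs (.part [9, 228, 18] [0, 1, 0] [] []),
.rs (.part [48, 8, 192] [0, 0, 0] [7] []),
.rs (.ab2 1 24),
.rs (.ordE 1 128 3),
.rs (.part [4, 67, 128] [0, 0, 0] [56] []),
.rs (.l2 1 34 36 5 1 2),
.rs (.lip 1 128 134 7),
.rs (.part [17, 36, 202] [0, 0, 1] [] []),
.rs (.part [26, 97, 132] [1, 0, 0] [] []),
.rs (.lipl 2 96 114 2 18),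
.rs (.l2 2 18 20 4 1 1),
.rs (.ab2 2 6),
.rs (.mono 2 3 11 1),
.rs (.lipl 2 38 118 1 80),
.rs (.join 2 4 5 4 4 2 [(2, 2)]),
.rs (.part [33, 200, 22] [0, 1, 0] [] []),
.rs (.part [72, 7, 176] [0, 1, 0] [] []),
.rs (.l2 2 10 130 1 1 2),
.rs (.lipl 0 9 77 0 68),
.rs (.slot 0 [(3, 2), (4, 3), (5, 3), (0, 1), (1, 1)]),
.rs (.part [39, 128, 88] [1, 0, 0] [] []),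
.rs (.join 2 16 6 3 1 2 [(4, 0)]),
.rs (.l2 1 10 18 1 1 1),
.rs (.mono 1 3 19 1),
.rs (.join 1 2 6 2 0 2 [(1, 0)]),
.rs (.l2 1 18 66 1 1 1),
.rs (.lipl 0 9 75 2 66),
.rs (.join 2 4 6 3 1 2 [(2, 0)]),
.rs (.ordE 2 32 2),
.rs (.lipl 2 130 166 2 36),
.rs (.join 2 1 1 2 0 2 [(0, 0)]),
.rs (.join 0 32 6 2 1 1 [(5, 0)]),
.rs (.lipl 1 64 74 0 10),
.rs (.join 1 4 4 3 1 2 [(2, 0)]),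
.rs (.join 1 4 4 3 3 0 [(2, 0)]),
.rs (.join 2 64 7 3 2 1 [(6, 0)]),
.rs (.ordE 2 2 1),
.rs (.lipl 2 164 182 2 18),
.rs (.l2 1 65 66 6 1 1),
.rs (.part [9, 16, 230] [0, 0, 1] [] []),
.rs (.join 1 4 5 3 2 1 [(2, 0)]),
.rs (.part [33, 204, 18] [0, 1, 0] [] []),
.rs (.ab2 2 20),
.rs (.ab2 2 68),
.rs (.l2 0 72 80 6 1 1),
.rs (.part [17, 128, 98] [0, 0, 0] [] [(1, 12)]),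
.rs (.lipl 2 18 178 2 160),
.rs (.join 1 32 6 4 1 3 [(5, 0)]),
.rs (.l2 1 72 80 6 1 1),
.rs (.part [6, 232, 17] [0, 1, 0] [] []),
.rs (.join 1 8 7 2 1 1 [(3, 0)]),
.rs (.l2 0 10 12 3 1 1),
.rs (.l2 1 34 130 1 1 1),
.rs (.join 2 1 3 2 0 2 [(0, 0)]),
.rs (.ab 2 5),
.rs (.join 1 4 4 3 2 2 [(2, 1)]),
.rs (.part [43, 144, 68] [1, 0, 0] [] []),
.rs (.part [9, 48, 198] [0, 0, 1] [] []),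
.rs (.ab 1 3),
.rs (.join 2 2 7 2 0 2 [(1, 0)]),
.rs (.join 0 4 4 2 1 1 [(2, 0)]),
.rs (.l2 1 66 72 6 1 1),
.rs (.lipl 1 224 234 0 10),
.rs (.ordE 1 4 2),
.rs (.deg 4 [0, 2, 1]),
.rs (.mono 1 3 67 1),
.rs (.part [33, 76, 146] [0, 1, 0] [] []),
.rs (.join 1 32 7 3 2 2 [(5, 1)]),
.rs (.join 1 2 6 2 1 1 [(1, 0)]),
.rs (.lip 2 96 98 2),
.rs (.join 2 2 5 5 3 2 [(1, 0)]),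
.rs (.join 2 2 6 5 3 3 [(1, 1)]),
.rs (.join 2 2 4 3 2 1 [(1, 0)]),
.rs (.l2 1 6 130 1 1 1),
.rs (.lipl 1 164 244 1 80),
.rs (.join 2 1 7 2 0 4 [(0, 2)]),
.rs (.part [75, 36, 144] [1, 0, 0] [] []),
.rs (.part [9, 180, 66] [0, 1, 0] [] []),
.rs (.mono 1 192 196 1),
.rs (.deg 1 [2, 0, 1]),
.rs (.lipl 2 36 102 1 66),
.rs (.part [65, 132, 2] [0, 0, 0] [56] []),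
.rs (.l2 2 36 132 2 1 2),
.rs (.deg 6 [1, 2, 1]),
.rs (.ordE 0 8 2),
.rs (.deg 5 [2, 1, 0]),
.rs (.join 1 1 6 3 0 3 [(0, 0)]),
.rs (.mono 1 16 48 1),
.rs (.join 1 16 7 3 1 2 [(4, 0)]),
.rs (.lip 1 128 133 7),
.rs (.deg 1 [0, 1, 2]),
.rs (.hall [0] [4, 5, 6, 7]),
.rs (.join 2 8 5 3 1 2 [(3, 0)]),
.rs (.join 1 2 7 3 2 1 [(1, 0)]),
.rs (.ordE 2 128 1),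
.rs (.mono 1 160 162 1),
.rs (.ab2 1 3),
.rs (.join 2 40 6 4 2 2 [(3, 0), (5, 0)]),
.rs (.join 1 2 4 3 1 3 [(1, 1)]),
.rs (.part [9, 80, 166] [0, 0, 1] [] []),
.rs (.lipl 0 9 27 0 18),
.rs (.lipl 2 6 86 0 80),
.rs (.l2 1 18 66 1 1 2),
.rs (.lipl 2 36 102 0 66),
.rs (.lipl 2 132 204 0 72),
.rs (.join 0 2 3 2 1 1 [(1, 0)]),
.rs (.join 1 4 6 3 2 2 [(2, 1)]),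
.rs (.mono 1 192 208 1),
.rs (.ab2 1 72),
.rs (.ab2 0 6),
.rs (.ab2 1 192),
.rs (.join 1 1 1 2 1 1 [(0, 0)]),
.rs (.l2 2 20 36 2 2 1),
.rs (.lipl 2 20 54 2 34),
.rs (.part [27, 36, 192] [1, 0, 0] [] []),
.rs (.lipl 2 68 86 2 18),
.rs (.lip 2 96 100 4),
.rs (.mono 1 1 17 1),
.rs (.deg 6 [3, 0, 1]),
.rs (.l2 1 18 20 4 1 1),
.rs (.lip 1 64 70 7),
.rs (.lipl 1 164 174 0 10),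
.rs (.ordE 0 128 1),
.rs (.lipl 1 132 142 0 10),
.rs (.l2 1 5 68 2 1 1),
.rs (.lipl 2 160 178 1 18),
.rs (.join 1 16 7 3 2 2 [(4, 1)]),
.rs (.le 2 65 1 0 1),
.rs (.srt 0 5 0 4 3),
.rs (.part [17, 200, 38] [0, 1, 0] [] []),
.rs (.part [9, 192, 54] [0, 1, 0] [] []),
.rs (.join 2 8 4 2 0 2 [(3, 0)]),
.rs (.mono 1 1 9 1),
.rs (.ordE 2 4 2),
.rs (.lipl 2 66 198 2 132),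
.rs (.lipl 2 132 166 1 34),
.rs (.part [33, 70, 152] [0, 1, 0] [] []),
.rs (.lip 1 0 7 7),
.rs (.part [48, 128, 72] [0, 0, 0] [7] []),
.rs (.lipl 2 160 228 1 68),
.rs (.l2 1 68 96 6 1 1),
.rs (.part [72, 48, 128] [0, 0, 0] [7] []),
.rs (.part [75, 16, 164] [1, 0, 0] [] []),
.rs (.join 2 4 4 4 3 1 [(2, 0)]),
.rs (.l2 1 6 34 1 1 1),
.rs (.part [43, 128, 84] [1, 0, 0] [] []),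
.rs (.mono 2 3 19 1),
.rs (.ab2 2 144),
.rs (.lipl 2 162 182 1 20),
.rs (.part [9, 128, 84] [0, 0, 0] [] [(2, 34)]),
.rs (.join 2 2 4 4 1 3 [(1, 0)]),
.rs (.l2 2 24 48 4 1 1),
.rs (.l2 2 34 36 5 2 1),
.degU 1 [(0, 1), (1, 1), (2, 3)],
.rs (.lipl 2 36 54 2 18),
.rs (.mono 2 130 146 1),
.rs (.lip 0 9 73 64),
.rs (.ab 2 6),
.rs (.hall [1] [4, 5, 6, 7]),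
.rs (.mono 2 1 9 1),
.rs (.part [32, 8, 208] [0, 0, 0] [7] []),
.rs (.l2 2 6 130 1 1 1),
.rs (.ab2 2 24),
.rs (.join 2 32 6 3 2 1 [(5, 0)]),
.rs (.lipl 1 98 230 1 132),
.rs (.part [9, 178, 68] [0, 1, 0] [] []),
.rs (.part [73, 36, 146] [1, 0, 0] [] []),
.rs (.srt 0 2 0 1 2),
.rs (.lipl 1 132 198 0 66),
.rs (.part [16, 32, 200] [0, 0, 0] [7] []),
.degU 2 [(0, 1), (1, 1), (2, 3)],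
.rs (.lipl 2 48 114 0 66),
.rs (.part [78, 33, 144] [1, 0, 0] [] []),
.rs (.l2 2 80 96 6 1 1),
.rs (.join 2 64 7 3 1 2 [(6, 0)]),
.rs (.l2 2 6 18 1 1 2),
.rs (.join 2 1 6 2 1 2 [(0, 1)]),
.rs (.slot 0 [(4, 2), (5, 2), (3, 3), (0, 2), (6, 1)]),
.rs (.part [33, 128, 84] [0, 0, 0] [] [(2, 10)]),
.rs (.part [65, 4, 130] [0, 0, 0] [56] []),
.rs (.ab2 2 132),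
.rs (.lipl 2 68 198 2 130),
.rs (.hall [1] [3, 4, 5, 7]),
.rs (.ab2 1 18),
.rs (.join 2 16 6 4 2 3 [(4, 1)]),
.rs (.srt 0 4 0 3 3),
.rs (.part [65, 6, 128] [0, 0, 0] [56] []),
.rs (.l2 1 33 48 5 1 1),
.rs (.lipl 0 10 43 1 33),
.rs (.lipl 2 20 116 2 96),
.rs (.lipl 2 28 62 1 34),
.rs (.l2 2 48 96 5 1 1),
.rs (.mono 2 4 68 1),
.rs (.l2 2 3 6 1 1 2),
.rs (.part [49, 76, 130] [1, 0, 0] [] []),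
.rs (.part [2, 69, 128] [0, 0, 0] [56] []),
.rs (.part [9, 38, 208] [0, 0, 1] [] []),
.rs (.part [17, 46, 192] [0, 1, 0] [] []),
.rs (.join 2 2 2 4 2 2 [(1, 0)]),
.rs (.part [9, 128, 98] [0, 0, 0] [] [(1, 20)]),
.rs (.part [17, 232, 6] [0, 1, 0] [] []),
.rs (.l2 2 24 72 3 1 2),
.rs (.lip 2 64 192 128),
.rs (.lip 0 3 43 56),
.rs (.le 2 17 1 0 1),
.rs (.part [6, 1, 192] [0, 0, 0] [56] []),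
.degU 6 [(0, 1), (1, 1), (2, 4)],
.rs (.join 2 16 7 3 1 2 [(4, 0)]),
.rs (.part [27, 128, 100] [1, 0, 0] [] []),
.rs (.part [66, 172, 17] [0, 1, 0] [] []),
.rs (.lipl 0 17 29 1 12),
.rs (.deg 2 [0, 1, 2]),
.rs (.part [64, 40, 144] [0, 0, 0] [7] []),
.rs (.join 2 2 5 4 1 3 [(1, 0)]),
.rs (.l2 1 66 68 6 1 1),
.rs (.join 1 2 7 3 2 3 [(1, 2)]),
.rs (.part [48, 192, 8] [0, 0, 0] [7] []),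
.rs (.ab2 2 48),
.rs (.part [64, 48, 136] [0, 0, 0] [7] []),
.rs (.part [15, 144, 96] [1, 0, 0] [] []),
.rs (.lipl 2 26 62 2 36),
.rs (.deg 1 [0, 0, 3]),
.rs (.join 1 8 5 4 2 3 [(3, 1)]),
.rs (.part [33, 64, 158] [0, 0, 1] [] []),
.rs (.part [16, 72, 160] [0, 0, 0] [7] []),
.rs (.lipl 1 38 118 0 80),
.rs (.l2 1 20 36 2 2 1),
.rs (.lipl 0 9 89 0 80),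
.rs (.ordE 0 128 2),
.rs (.part [60, 128, 67] [1, 0, 0] [] []),
.rs (.join 2 1 6 4 2 3 [(0, 1)]),
.rs (.mono 2 16 18 1),
.rs (.part [48, 72, 128] [0, 0, 0] [7] []),
.rs (.lipl 2 96 116 1 20),
.rs (.lipl 0 9 27 1 18),
.rs (.le 2 144 16 4 2),
.rs (.mono 1 192 200 1),
.rs (.lipl 2 48 178 1 130),
.rs (.part [15, 128, 112] [1, 0, 0] [] []),
.rs (.lipl 2 4 14 0 10),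
.rs (.lipl 2 34 54 1 20),
.rs (.part [24, 96, 128] [0, 0, 0] [7] []),
.rs (.lip 0 16 21 7),
.rs (.l2 1 24 40 3 2 2),
.rs (.part [65, 176, 14] [0, 1, 0] [] []),
.rs (.lip 1 192 198 7),
.rs (.join 1 16 6 3 1 2 [(4, 0)]),
.rs (.part [10, 128, 100] [0, 0, 0] [] [(2, 17)]),
.rs (.join 2 2 6 4 2 2 [(1, 0)]),
.rs (.part [72, 16, 160] [0, 0, 0] [7] []),
.rs (.lipl 1 196 230 1 34),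
.degU 0 [(0, 2), (2, 3)],
.rs (.join 1 4 4 2 1 1 [(2, 0)]),
.rs (.deg 7 [0, 4, 0]),
.rs (.deg 2 [2, 1, 0]),
.rs (.part [4, 129, 66] [0, 0, 0] [56] []),
.rs (.slot 0 [(3, 2), (4, 2), (5, 1), (0, 3), (1, 1), (2, 1)]),
.rs (.join 1 1 2 2 1 1 [(0, 0)]),
.rs (.mono 1 130 146 1),
.rs (.join 2 32 7 4 1 3 [(5, 0)]),
.rs (.join 1 2 3 2 1 1 [(1, 0)]),
.rs (.lipl 1 128 194 0 66),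
.rs (.join 2 8 6 4 2 3 [(3, 1)]),
.degU 0 [(0, 5)],
.rs (.join 2 4 4 4 2 3 [(2, 1)]),
.rs (.le 1 10 2 1 1),
.rs (.lipl 2 96 114 1 18),
.rs (.ordE 2 128 3),
.rs (.part [9, 148, 98] [0, 0, 1] [] []),
.rs (.lipl 1 36 102 1 66),
.rs (.ordE 1 16 1),
.rs (.l2 2 6 34 1 1 1),
.rs (.deg 4 [2, 0, 1]),
.rs (.part [8, 160, 80] [0, 0, 0] [7] []),
.rs (.join 2 4 3 4 2 2 [(2, 0)]),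
.rs (.lipl 1 18 114 2 96),
.rs (.part [9, 98, 20] [0, 0, 0] [128] []),
.rs (.lipl 2 132 150 1 18),
.rs (.ab2 2 80),
.rs (.l2 1 66 80 6 1 2),
.rs (.lipl 2 160 240 2 80),
.rs (.le 1 144 16 4 1),
.rs (.mono 2 32 160 1),
.rs (.join 1 2 2 3 2 2 [(1, 1)]),
.rs (.join 2 2 3 4 3 1 [(1, 0)]),
.rs (.ab2 1 96),
.rs (.join 2 33 6 4 2 3 [(0, 1), (5, 0)]),
.rs (.join 0 8 5 2 1 1 [(3, 0)]),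
.rs (.join 1 16 7 2 1 1 [(4, 0)]),
.rs (.join 1 8 4 2 1 1 [(3, 0)]),
.rs (.lip 1 64 112 56),
.rs (.join 0 4 3 2 1 1 [(2, 0)]),
.rs (.hall [2] [3, 4, 5, 6]),
.rs (.lipl 1 82 242 1 160),
.rs (.part [10, 145, 100] [0, 1, 0] [] []),
.rs (.lipl 2 132 166 2 34),
.rs (.mono 2 64 192 1),
.rs (.join 2 2 5 3 2 2 [(1, 1)]),
.rs (.lip 2 48 50 2),
.rs (.mono 1 65 193 1),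
.rs (.lipl 2 36 46 0 10),
.rs (.lipl 2 176 242 0 66),
.rs (.join 2 2 6 4 2 3 [(1, 1)]),
.rs (.lipl 0 17 27 0 10),
.rs (.mono 2 4 132 1),
.rs (.part [9, 164, 82] [0, 0, 1] [] []),
.rs (.lipl 2 66 86 1 20),
.rs (.join 2 2 7 3 2 1 [(1, 0)]),
.rs (.part [29, 192, 34] [1, 0, 0] [] []),
.rs (.join 1 16 6 4 3 1 [(4, 0)]),
.rs (.join 1 2 4 2 0 2 [(1, 0)]),
.rs (.lipl 2 22 94 1 72),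
.rs (.join 2 32 7 3 1 2 [(5, 0)]),
.rs (.join 2 4 4 2 1 1 [(2, 0)]),
.rs (.ab2 2 136),
.rs (.part [64, 129, 6] [0, 0, 0] [56] []),
.rs (.lipl 0 9 29 0 20),
.rs (.lip 1 192 232 56),
.rs (.part [33, 74, 148] [0, 1, 0] [] []),
.rs (.part [17, 10, 228] [0, 0, 1] [] []),
.rs (.part [3, 128, 68] [0, 0, 0] [56] []),
.rs (.mono 0 2 3 1),
.rs (.part [17, 128, 110] [0, 0, 1] [] []),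
.rs (.join 1 4 4 4 1 3 [(2, 0)]),
.rs (.part [78, 17, 160] [1, 0, 0] [] []),
.rs (.part [5, 66, 128] [0, 0, 0] [56] []),
.rs (.lip 0 1 57 56),
.rs (.l2 1 18 144 4 1 2),
.rs (.part [17, 174, 64] [0, 1, 0] [] []),
.rs (.lipl 2 130 150 1 20),
.rs (.lipl 2 38 118 0 80),
.rs (.part [33, 208, 14] [0, 1, 0] [] []),
.rs (.join 2 4 6 2 2 0 [(2, 0)]),
.rs (.part [9, 22, 224] [0, 0, 1] [] []),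
.rs (.hall [1] [0, 2, 6, 7]),
.rs (.join 2 32 6 2 0 2 [(5, 0)]),
.rs (.part [17, 204, 34] [0, 1, 0] [] []),
.rs (.deg 5 [0, 3, 0]),
.rs (.deg 6 [1, 0, 3]),
.rs (.srt 0 2 0 1 1),
.rs (.join 2 6 6 4 2 2 [(1, 0), (2, 0)]),
.rs (.join 2 2 2 4 1 3 [(1, 0)]),
.rs (.part [17, 192, 46] [0, 0, 1] [] []),
.rs (.part [9, 230, 16] [0, 1, 0] [] []),
.rs (.part [17, 70, 168] [0, 1, 0] [] []),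
.rs (.join 2 2 4 2 0 2 [(1, 0)]),
.rs (.part [5, 194, 56] [0, 0, 1] [] []),
.rs (.un 2 6),
.rs (.join 2 4 4 4 4 0 [(2, 0)]),
.rs (.l2 1 20 68 2 1 1),
.rs (.part [64, 144, 40] [0, 0, 0] [7] []),
.rs (.part [41, 80, 134] [1, 0, 0] [] []),
.rs (.part [10, 128, 84] [0, 0, 0] [] [(1, 33)]),
.rs (.join 2 4 5 5 3 2 [(2, 0)]),
.rs (.lip 2 160 224 64),
.rs (.l2 1 6 18 1 1 1),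
.rs (.lip 1 0 56 56),
.rs (.ordE 1 32 2),
.rs (.slot 0 [(0, 4), (1, 2), (2, 2), (3, 1), (6, 1)]),
.rs (.l2 2 18 144 4 1 2),
.rs (.lipl 1 52 118 0 66),
.rs (.join 2 4 3 2 2 1 [(2, 1)]),
.rs (.part [2, 65, 132] [0, 0, 0] [56] []),
.rs (.mono 2 64 66 1),
.rs (.l2 1 12 20 2 1 1),
.rs (.lipl 1 18 54 2 36),
.rs (.part [32, 72, 144] [0, 0, 0] [7] []),
.rs (.join 1 10 5 3 2 2 [(1, 0), (3, 1)]),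
.rs (.ab2 2 160),
.rs (.lip 0 16 23 7),
.rs (.lipl 2 36 166 2 130),
.rs (.lip 2 0 7 7),
.rs (.part [17, 206, 32] [0, 1, 0] [] []),
.rs (.join 2 2 5 2 1 1 [(1, 0)]),
.rs (.lipl 1 196 206 0 10),
.rs (.join 2 16 6 2 2 0 [(4, 0)]),
.rs (.part [65, 2, 132] [0, 0, 0] [56] []),
.rs (.ordE 2 64 1),
.rs (.ab 2 2),
.rs (.join 2 4 5 3 2 2 [(2, 1)]),
.rs (.part [9, 128, 82] [0, 0, 0] [] [(1, 36)]),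
.rs (.part [24, 162, 64] [0, 0, 0] [5] []),
.rs (.lipl 1 36 228 2 192),
.rs (.lipl 1 162 230 1 68),
.rs (.join 1 4 7 3 2 3 [(2, 2)]),
.rs (.join 2 1 6 4 1 3 [(0, 0)]),
.rs (.mono 2 66 74 1),
.rs (.lip 1 192 216 56),
.rs (.ordE 1 64 3),
.rs (.join 2 2 5 4 2 2 [(1, 0)]),
.rs (.deg 7 [1, 2, 1]),
.rs (.ab2 2 34),
.rs (.lipl 2 52 118 0 66),
.rs (.join 1 2 4 4 2 2 [(1, 0)]),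
.rs (.join 2 32 6 4 1 3 [(5, 0)]),
.rs (.ordE 1 2 1),
.rs (.part [64, 128, 56] [0, 0, 0] [7] []),
.rs (.l2 1 34 48 5 1 1),
.rs (.mono 2 5 21 1),
.rs (.lipl 1 6 78 0 72),
.rs (.lipl 2 52 118 1 66),
.rs (.un 1 1),
.rs (.un 1 4),
.rs (.part [27, 192, 36] [1, 0, 0] [] []),
.rs (.part [9, 84, 34] [0, 0, 0] [128] []),
.rs (.part [16, 8, 224] [0, 0, 0] [7] []),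
.rs (.lipl 2 6 102 1 96),
.rs (.part [33, 128, 84] [0, 0, 0] [] [(0, 10)]),
.rs (.part [17, 128, 76] [0, 0, 0] [] [(2, 34)]),
.rs (.join 2 8 5 3 2 1 [(3, 0)]),
.rs (.join 2 2 6 3 2 1 [(1, 0)]),
.rs (.lipl 0 9 75 0 66),
.rs (.l2 0 48 80 4 1 1),
.rs (.slot 0 [(1, 2), (2, 2), (0, 3), (3, 2), (6, 1)]),
.rs (.lipl 2 96 116 2 20),
.rs (.part [13, 82, 160] [1, 0, 0] [] []),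
.rs (.part [58, 128, 69] [1, 0, 0] [] []),
.rs (.join 2 48 6 4 3 1 [(4, 0), (5, 0)]),
.rs (.part [9, 128, 82] [0, 0, 0] [] [(2, 36)]),
.rs (.mono 1 64 192 1),
.rs (.part [33, 192, 30] [0, 0, 1] [] []),
.rs (.join 2 2 5 4 3 2 [(1, 1)]),
.rs (.lipl 0 9 27 2 18),
.rs (.part [27, 132, 96] [1, 0, 0] [] []),
.rs (.lipl 2 144 178 2 34),
.rs (.lip 0 32 39 7),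
.rs (.join 2 16 6 4 3 1 [(4, 0)]),
.rs (.part [16, 160, 72] [0, 0, 0] [7] []),
.rs (.deg 0 [2, 1, 0]),
.rs (.part [9, 196, 50] [0, 0, 1] [] []),
.rs (.ab 2 7),
.rs (.deg 5 [1, 2, 0]),
.rs (.join 1 2 6 3 1 2 [(1, 0)]),
.rs (.part [9, 66, 180] [0, 0, 1] [] []),
.rs (.ordE 0 128 3),
.rs (.join 1 2 6 3 2 1 [(1, 0)]),
.rs (.mono 2 66 98 1),
.rs (.lipl 2 132 198 2 66),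
.rs (.join 2 4 3 4 3 2 [(2, 1)]),
.rs (.join 1 32 6 4 3 1 [(5, 0)]),
.rs (.lip 1 68 100 32),
.rs (.join 1 4 5 4 3 1 [(2, 0)]),
.rs (.join 1 1 4 3 1 2 [(0, 0)]),
.rs (.join 2 4 6 4 2 2 [(2, 0)]),
.rs (.lipl 2 80 116 1 36),
.rs (.join 1 2 4 3 2 1 [(1, 0)]),
.rs (.l2 1 18 20 4 2 1),
.rs (.join 2 8 4 4 2 2 [(3, 0)]),
.rs (.lipl 2 148 182 2 34),
.rs (.ordE 1 32 1),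
.rs (.join 2 4 6 4 4 3 [(2, 3)]),
.rs (.l2 1 12 36 2 1 1),
.rs (.lipl 1 82 118 2 36),
.rs (.join 1 4 5 3 0 3 [(2, 0)]),
.rs (.l2 1 68 192 6 1 1),
.rs (.mono 2 32 34 1),
.rs (.l2 1 34 66 1 1 1),
.rs (.part [27, 160, 68] [1, 0, 0] [] []),
.rs (.deg 4 [1, 0, 2]),
.rs (.lipl 2 18 54 2 36),
.rs (.part [9, 144, 102] [0, 0, 1] [] []),
.rs (.part [9, 4, 208] [0, 0, 0] [] [(2, 34)]),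
.rs (.part [17, 234, 4] [0, 1, 0] [] []),
.rs (.l2 0 6 34 1 1 1),
.rs (.lipl 2 36 54 1 18),
.rs (.join 2 17 6 4 1 3 [(0, 0), (4, 0)]),
.rs (.lipl 1 80 116 1 36),
.rs (.part [80, 128, 40] [0, 0, 0] [7] []),
.rs (.part [24, 7, 224] [0, 1, 0] [] []),
.rs (.lipl 2 144 240 1 96),
.rs (.l2 2 34 48 5 2 2),
.rs (.part [88, 128, 39] [0, 0, 1] [] []),
.rs (.l2 1 18 130 1 1 1),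
.rs (.ab2 2 3),
.rs (.hall [2] [0, 1, 2, 7]),
.rs (.join 2 16 6 3 2 1 [(4, 0)]),
.rs (.lipl 2 20 180 2 160),
.rs (.part [4, 66, 129] [0, 0, 0] [56] []),
.rs (.join 2 2 2 4 3 1 [(1, 0)]),
.rs (.join 2 1 2 2 0 2 [(0, 0)]),
.rs (.l2 2 6 20 2 2 2),
.rs (.lipl 2 38 110 1 72),
.rs (.part [73, 18, 164] [1, 0, 0] [] []),
.rs (.l2 2 34 36 5 2 2),
.rs (.join 1 4 3 3 2 1 [(2, 0)]),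
.rs (.lipl 2 160 240 1 80),
.rs (.part [43, 192, 20] [1, 0, 0] [] []),
.rs (.part [80, 131, 44] [0, 1, 0] [] []),
.rs (.l2 2 12 20 2 2 2),
.rs (.join 1 1 3 3 1 2 [(0, 0)]),
.rs (.part [105, 148, 2] [1, 0, 0] [] []),
.rs (.lipl 2 34 114 1 80),
.rs (.join 1 4 4 4 3 1 [(2, 0)]),
.rs (.l2 1 18 34 1 1 1),
.rs (.slot 0 [(0, 4), (1, 1), (3, 4), (6, 1)]),
.rs (.lipl 2 48 240 1 192),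
.rs (.join 0 1 6 4 3 1 [(0, 0)]),
.rs (.part [1, 130, 68] [0, 0, 0] [56] []),
.rs (.ab 1 5),
.rs (.l2 0 6 66 1 1 1),
.rs (.join 2 6 6 4 3 1 [(1, 0), (2, 0)]),
.rs (.lipl 2 96 114 0 18),
.rs (.lipl 2 66 102 1 36),
.rs (.part [10, 69, 176] [0, 1, 0] [] []),
.rs (.l2 2 6 130 1 2 1),
.rs (.part [1, 134, 64] [0, 0, 0] [56] []),
.rs (.part [9, 128, 84] [0, 0, 0] [] [(1, 34)]),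
.rs (.part [17, 74, 36] [0, 0, 0] [128] []),
.rs (.join 2 8 5 4 2 3 [(3, 1)]),
.rs (.deg 5 [1, 1, 1]),
.rs (.join 1 4 4 3 2 1 [(2, 0)]),
.rs (.lipl 1 18 54 1 36),
.rs (.ordE 0 1 1),
.rs (.part [17, 196, 42] [0, 1, 0] [] []),
.rs (.part [17, 32, 196] [0, 0, 0] [] [(0, 10)]),
.rs (.join 2 1 2 2 1 1 [(0, 0)]),
.rs (.lipl 2 18 30 1 12),
.rs (.join 2 2 7 2 1 2 [(1, 1)]),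
.rs (.part [64, 160, 24] [0, 0, 0] [7] []),
.rs (.part [3, 68, 128] [0, 0, 0] [56] []),
.rs (.lip 2 68 100 32),
.rs (.part [9, 50, 196] [0, 0, 1] [] []),
.rs (.join 1 64 7 3 2 2 [(6, 1)]),
.rs (.join 2 2 4 5 3 3 [(1, 1)]),
.rs (.part [43, 148, 64] [1, 0, 0] [] []),
.rs (.l2 1 80 96 6 1 1),
.rs (.mono 1 136 140 1),
.rs (.part [40, 19, 196] [0, 1, 0] [] []),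
.rs (.l2 1 20 48 4 1 1),
.rs (.deg 2 [1, 2, 0]),
.rs (.join 2 4 4 3 1 2 [(2, 0)]),
.rs (.join 2 4 3 4 3 1 [(2, 0)]),
.rs (.part [16, 96, 136] [0, 0, 0] [7] []),
.rs (.join 2 4 6 4 0 4 [(2, 0)]),
.rs (.hall [1] [3, 4, 5, 6]),
.rs (.hall [2] [4, 5, 6, 7]),
.rs (.part [75, 144, 36] [1, 0, 0] [] []),
.rs (.part [75, 160, 20] [1, 0, 0] [] []),
.rs (.part [17, 78, 160] [0, 1, 0] [] []),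
.rs (.lipl 2 148 182 1 34),
.rs (.join 2 16 6 4 2 2 [(4, 0)]),
.rs (.part [80, 32, 136] [0, 0, 0] [7] []),
.rs (.join 1 2 2 2 1 1 [(1, 0)]),
.rs (.lip 1 128 192 64),
.degU 1 [(0, 2), (2, 3)],
.rs (.part [72, 179, 4] [0, 1, 0] [] []),
.rs (.deg 3 [3, 0, 0]),
.rs (.le 2 80 16 4 1),
.rs (.part [16, 168, 64] [0, 0, 0] [7] []),
.rs (.mono 2 64 96 1),
.rs (.lip 1 128 176 56),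
.rs (.join 1 2 4 3 2 2 [(1, 1)]),
.rs (.hall [0] [1, 2, 6, 7]),
.rs (.lip 0 1 49 56),
.rs (.ab2 2 72),
.rs (.lip 0 8 15 7),
.rs (.lipl 2 162 242 2 80),
.rs (.part [89, 162, 4] [1, 0, 0] [] []),
.rs (.join 1 2 3 3 2 1 [(1, 0)]),
.rs (.ab2 1 36),
.rs (.slot 0 [(3, 2), (5, 2), (4, 3), (0, 2), (6, 1)]),
.rs (.part [9, 32, 214] [0, 0, 1] [] []),
.rs (.join 2 16 6 2 1 1 [(4, 0)]),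
.degU 3 [(0, 1), (1, 4)],
.rs (.mono 2 9 25 1),
.rs (.le 1 130 2 1 3),
.rs (.l2 1 36 48 5 1 1),
.rs (.part [9, 20, 226] [0, 0, 1] [] []),
.rs (.join 2 18 6 4 3 1 [(1, 0), (4, 0)]),
.rs (.join 2 4 6 3 2 1 [(2, 0)]),
.rs (.le 1 144 16 4 3),
.rs (.join 2 2 4 4 2 3 [(1, 1)]),
.rs (.ab2 0 72),
.rs (.ab2 2 40),
.rs (.join 2 17 5 4 2 2 [(0, 0), (4, 0)]),
.rs (.part [33, 198, 24] [0, 1, 0] [] []),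
.rs (.deg 5 [1, 0, 2]),
.rs (.lipl 2 26 62 1 36),
.rs (.part [24, 224, 7] [0, 0, 1] [] []),
.rs (.join 0 2 6 2 1 1 [(1, 0)]),
.rs (.join 2 4 4 4 1 3 [(2, 0)]),
.rs (.srt 0 4 0 3 1),
.rs (.lipl 2 38 174 1 136),
.rs (.part [9, 2, 208] [0, 0, 0] [] [(2, 36)]),
.rs (.lipl 1 162 182 2 20),
.rs (.join 1 4 5 3 2 2 [(2, 1)]),
.rs (.lip 1 138 186 56),
.rs (.part [9, 192, 54] [0, 0, 1] [] []),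
.rs (.l2 2 18 24 4 2 1),
.rs (.join 2 24 7 5 5 0 [(3, 0), (4, 0)]),
.rs (.lipl 2 18 150 2 132),
.degU 4 [(0, 1), (1, 1), (2, 3)],
.rs (.lip 0 24 27 7),
.rs (.lip 0 8 11 7),
.rs (.lipl 1 20 86 0 66),
.rs (.part [17, 34, 204] [0, 0, 1] [] []),
.rs (.l2 1 20 144 4 1 1),
.rs (.mono 2 128 160 1),
.rs (.join 1 2 7 2 1 1 [(1, 0)]),
.rs (.part [9, 2, 224] [0, 0, 0] [] [(2, 20)]),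
.rs (.deg 6 [0, 4, 0]),
.rs (.ab 2 0),
.rs (.le 2 33 1 0 1),
.rs (.lipl 1 196 214 1 18),
.rs (.un 2 2),
.rs (.part [3, 36, 192] [0, 0, 0] [24] []),
.rs (.join 1 4 3 3 1 2 [(2, 0)]),
.rs (.part [64, 130, 5] [0, 0, 0] [56] []),
.rs (.ab 0 3),
.rs (.srt 0 3 0 0 2),
.rs (.part [25, 100, 130] [1, 0, 0] [] []),
.rs (.lipl 1 36 54 2 18),
.rs (.l2 2 20 36 2 2 2),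
.rs (.le 2 72 8 3 1),
.rs (.part [72, 133, 50] [0, 1, 0] [] []),
.rs (.join 1 64 7 2 1 1 [(6, 0)]),
.rs (.deg 6 [0, 2, 2]),
.rs (.le 2 20 16 4 3),
.rs (.part [43, 20, 192] [1, 0, 0] [] []),
.rs (.join 2 48 6 4 2 2 [(4, 0), (5, 0)]),
.rs (.slot 0 [(1, 2), (2, 2), (0, 3), (3, 1), (4, 1), (6, 1)]),
.rs (.lipl 2 68 102 0 34),
.rs (.lipl 2 192 202 0 10),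
.rs (.l2 1 20 36 2 1 1),
.rs (.join 1 2 3 4 3 1 [(1, 0)]),
.rs (.mono 0 4 5 1),
.rs (.lip 2 6 54 56),
.rs (.join 2 2 6 2 0 2 [(1, 0)]),
.rs (.l2 2 20 48 4 1 2),
.rs (.part [3, 128, 124] [0, 0, 1] [] []),
.rs (.slot 0 [(0, 3), (1, 1), (3, 4), (4, 1), (5, 1)]),
.rs (.join 2 32 6 2 2 0 [(5, 0)]),
.rs (.part [9, 240, 6] [0, 1, 0] [] []),
.rs (.join 1 64 7 4 2 2 [(6, 0)]),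
.rs (.le 2 5 1 0 1),
.rs (.join 1 32 6 2 1 1 [(5, 0)]),
.rs (.part [6, 192, 1] [0, 0, 0] [56] []),
.rs (.mono 1 2 130 1),
.rs (.part [80, 8, 160] [0, 0, 0] [7] []),
.rs (.join 2 8 4 2 1 1 [(3, 0)]),
.rs (.join 1 2 4 4 3 1 [(1, 0)]),
.rs (.join 1 32 6 3 2 1 [(5, 0)]),
.rs (.part [17, 40, 192] [0, 0, 0] [6] []),
.degU 5 [(0, 1), (1, 1), (2, 3)],
.rs (.ab2 1 68),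
.rs (.join 2 16 5 4 1 3 [(4, 0)]),
.rs (.lipl 1 130 202 0 72),
.rs (.deg 7 [3, 1, 0]),
.rs (.join 1 32 7 3 2 3 [(5, 2)]),
.rs (.part [9, 118, 128] [0, 1, 0] [] []),
.rs (.l2 2 12 72 3 1 2),
.rs (.join 2 2 4 5 3 2 [(1, 0)]),
.rs (.part [3, 56, 196] [0, 1, 0] [] []),
.rs (.part [43, 4, 208] [1, 0, 0] [] []),
.rs (.mono 1 1 5 1),
.rs (.lipl 0 33 43 0 10),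
.degU 0 [(0, 3), (1, 2)],
.rs (.mono 1 1 3 1),
.rs (.join 2 2 2 3 1 2 [(1, 0)]),
.rs (.deg 7 [1, 0, 3]),
.rs (.deg 6 [1, 1, 2]),
.rs (.part [3, 148, 64] [0, 0, 0] [40] []),
.rs (.ordE 0 2 1),
.rs (.part [9, 18, 228] [0, 0, 1] [] []),
.rs (.mono 0 64 65 1),
.rs (.lipl 1 132 204 0 72),
.rs (.l2 2 34 66 1 1 1),
.rs (.lipl 2 20 86 0 66),
.rs (.lip 2 48 54 7),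
.rs (.part [8, 224, 16] [0, 0, 0] [7] []),
.rs (.slot 0 [(3, 2), (4, 3), (5, 1), (0, 2), (1, 1), (6, 1)]),
.rs (.un 0 6),
.rs (.deg 7 [2, 2, 0]),
.rs (.deg 1 [2, 1, 0]),
.rs (.slot 0 [(0, 3), (1, 1), (3, 3), (4, 1), (5, 1), (6, 1)]),
.rs (.lip 0 25 153 128),
.rs (.lipl 2 146 182 2 36),
.rs (.part [17, 128, 100] [0, 0, 0] [] [(2, 10)]),
.rs (.lip 0 1 41 56),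
.rs (.part [17, 224, 14] [0, 0, 1] [] []),
.rs (.join 2 4 5 3 1 2 [(2, 0)]),
.rs (.part [75, 148, 32] [1, 0, 0] [] []),
.rs (.lipl 1 34 54 2 20),
.rs (.deg 3 [2, 1, 0]),
.rs (.mono 1 1 33 1),
.rs (.join 2 4 6 4 2 3 [(2, 1)]),
.rs (.ab2 1 80),
.rs (.join 2 32 7 3 2 2 [(5, 1)]),
.rs (.l2 1 34 36 5 1 1),
.rs (.join 2 1 4 4 2 2 [(0, 0)]),
.rs (.l2 1 18 144 4 1 1),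
.rs (.part [8, 16, 224] [0, 0, 0] [7] []),
.rs (.srt 0 1 0 0 2),
.rs (.le 1 129 1 0 1),
.rs (.join 2 4 4 5 4 2 [(2, 1)]),
.rs (.lip 0 8 13 7),
.rs (.lipl 1 98 118 2 20),
.rs (.join 2 2 4 4 3 1 [(1, 0)]),
.rs (.lip 1 192 240 56),
.rs (.slot 0 [(4, 2), (3, 3), (5, 1), (0, 2), (1, 1), (6, 1)]),
.rs (.un 0 1),
.rs (.join 2 4 4 4 3 2 [(2, 1)]),
.rs (.join 0 2 5 2 1 1 [(1, 0)]),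
.rs (.join 2 4 5 4 3 2 [(2, 1)]),
.rs (.lip 2 36 100 64),
.rs (.l2 2 34 130 1 1 2),
.rs (.lip 0 4 60 56),
.rs (.part [9, 86, 160] [0, 1, 0] [] []),
.rs (.join 2 16 5 2 1 1 [(4, 0)]),
.rs (.ab 2 4),
.rs (.part [1, 186, 68] [0, 1, 0] [] []),
.rs (.l2 0 6 20 2 1 1),
.rs (.deg 4 [2, 1, 0]),
.rs (.deg 6 [0, 1, 3]),
.rs (.part [75, 20, 160] [1, 0, 0] [] []),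
.rs (.part [27, 100, 128] [1, 0, 0] [] []),
.rs (.l2 1 9 17 0 1 1),
.rs (.le 2 9 1 0 1),
.rs (.l2 1 66 96 6 2 1),
.rs (.lipl 1 18 86 1 68),
.rs (.part [64, 152, 32] [0, 0, 0] [7] []),
.rs (.join 2 4 6 2 1 1 [(2, 0)]),
.rs (.un 0 2),
.rs (.le 2 72 8 3 2),
.degU 2 [(1, 1), (2, 4)],
.rs (.join 1 16 7 3 2 3 [(4, 2)]),
.rs (.join 1 16 7 3 2 1 [(4, 0)]),
.rs (.l2 2 12 72 3 2 1),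
.rs (.lipl 2 160 240 0 80),
.rs (.un 2 5),
.rs (.lip 1 132 172 56),
.rs (.join 1 1 7 3 0 3 [(0, 0)]),
.rs (.lip 0 2 26 56),
.rs (.part [65, 152, 38] [0, 1, 0] [] []),
.rs (.join 2 8 4 3 1 2 [(3, 0)]),
.rs (.ab2 2 130),
.rs (.deg 3 [1, 1, 1]),
.rs (.slot 0 [(2, 2), (0, 3), (1, 3), (3, 1), (4, 1)]),
.rs (.lip 1 224 248 56),
.rs (.ab 1 6),
.rs (.join 2 2 7 3 1 2 [(1, 0)]),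
.rs (.mono 2 136 152 1),
.rs (.join 2 1 1 3 1 2 [(0, 0)]),
.rs (.l2 0 66 96 6 1 1),
.rs (.lipl 0 9 89 1 80),
.rs (.lipl 2 164 174 0 10),
.rs (.join 0 4 6 2 1 1 [(2, 0)]),
.rs (.part [8, 48, 192] [0, 0, 0] [7] []),
.rs (.l2 2 132 144 7 1 2),
.rs (.part [5, 56, 194] [0, 1, 0] [] []),
.rs (.lipl 1 98 242 1 144),
.rs (.part [16, 200, 32] [0, 0, 0] [7] []),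
.rs (.part [33, 194, 28] [0, 1, 0] [] []),
.rs (.lipl 2 50 118 2 68),
.rs (.lipl 1 128 208 0 80),
.rs (.ab2 0 40),
.rs (.l2 0 34 66 1 1 1),
.rs (.deg 4 [0, 1, 2]),
.rs (.lipl 1 160 240 1 80),
.rs (.ordE 1 64 1),
.rs (.join 2 4 5 5 2 3 [(2, 0)]),
.rs (.part [17, 202, 36] [0, 1, 0] [] []),
.rs (.lip 1 128 168 56),
.rs (.part [9, 132, 114] [0, 0, 1] [] []),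
.rs (.part [3, 4, 192] [0, 0, 0] [56] []),
.rs (.lip 2 80 84 4),
.rs (.ab 0 5),
.rs (.deg 4 [0, 3, 0]),
.rs (.le 2 68 64 6 4),
.rs (.lipl 2 34 114 0 80),
.rs (.join 2 1 5 4 0 4 [(0, 0)]),
.rs (.ordE 1 128 2),
.rs (.join 2 8 6 4 2 2 [(3, 0)]),
.rs (.ab2 0 80),
.rs (.mono 2 192 196 1),
.rs (.part [33, 128, 94] [0, 0, 1] [] []),
.rs (.part [1, 2, 196] [0, 0, 0] [56] []),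
.rs (.lipl 1 80 240 2 160),
.rs (.part [96, 128, 24] [0, 0, 0] [7] []),
.rs (.part [4, 1, 194] [0, 0, 0] [56] []),
.rs (.part [33, 208, 14] [0, 0, 1] [] []),
.rs (.join 2 16 5 5 3 3 [(4, 1)]),
.rs (.join 2 20 6 4 3 1 [(2, 0), (4, 0)]),
.rs (.join 2 16 5 3 2 1 [(4, 0)]),
.rs (.join 1 64 7 4 2 3 [(6, 1)]),
.rs (.part [24, 32, 192] [0, 0, 0] [7] []),
.rs (.hall [2] [1, 2, 6, 7]),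
.rs (.lipl 0 9 43 1 34),
.rs (.join 2 16 7 2 1 2 [(4, 1)]),
.degU 4 [(0, 1), (1, 4)],
.rs (.join 2 8 5 2 1 1 [(3, 0)]),
.rs (.part [89, 4, 162] [1, 0, 0] [] []),
.rs (.l2 0 6 12 2 1 1),
.rs (.lipl 1 12 46 2 34),
.rs (.l2 2 6 68 2 1 1),
.rs (.join 1 32 6 3 2 2 [(5, 1)]),
.rs (.lipl 1 148 158 0 10),
.rs (.l2 1 18 20 4 1 2),
.rs (.lipl 1 192 202 0 10),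
.rs (.part [17, 142, 96] [0, 1, 0] [] []),
.rs (.deg 1 [1, 0, 2]),
.rs (.l2 1 18 130 1 2 1),
.rs (.part [64, 8, 176] [0, 0, 0] [7] []),
.rs (.mono 2 17 81 1),
.rs (.mono 1 129 161 1),
.rs (.l2 2 6 36 2 1 2),
.rs (.lipl 2 52 124 2 72),
.rs (.lip 0 16 19 7),
.rs (.l2 1 34 160 5 1 2),
.rs (.join 2 8 4 4 2 3 [(3, 1)]),
.rs (.join 2 1 6 4 0 4 [(0, 0)]),
.rs (.part [2, 5, 192] [0, 0, 0] [56] []),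
.rs (.join 2 2 6 4 3 1 [(1, 0)]),
.rs (.join 2 2 2 4 3 2 [(1, 1)]),
.rs (.part [17, 74, 164] [0, 1, 0] [] []),
.rs (.lipl 2 20 150 2 130),
.rs (.part [9, 96, 150] [0, 0, 1] [] []),
.rs (.l2 1 20 144 4 1 2),
.rs (.join 2 4 5 4 2 3 [(2, 1)]),
.rs (.part [1, 68, 130] [0, 0, 0] [56] []),
.rs (.part [9, 54, 192] [0, 0, 1] [] []),
.rs (.lip 0 65 105 56),
.rs (.join 2 34 6 4 3 1 [(1, 0), (5, 0)]),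
.rs (.le 1 65 1 0 1),
.rs (.join 2 32 7 3 2 1 [(5, 0)]),
.rs (.join 1 4 3 2 1 1 [(2, 0)]),
.rs (.part [17, 64, 174] [0, 0, 1] [] []),
.rs (.l2 1 34 40 5 1 1),
.rs (.ab2 0 10),
.rs (.le 1 34 32 5 1),
.rs (.part [24, 64, 160] [0, 0, 0] [7] []),
.rs (.join 2 32 6 4 3 1 [(5, 0)]),
.rs (.part [45, 64, 146] [1, 0, 0] [] []),
.rs (.join 2 32 6 2 1 1 [(5, 0)]),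
.rs (.part [29, 66, 160] [1, 0, 0] [] []),
.rs (.l2 1 18 34 1 1 2),
.degU 0 [(0, 4), (2, 1)],
.rs (.lipl 1 82 214 1 132),
.rs (.part [3, 160, 92] [0, 0, 1] [] []),
.rs (.srt 0 4 0 3 2),
.rs (.ordE 0 32 2),
.rs (.l2 2 6 18 1 1 1),
.rs (.lipl 0 33 45 2 12),
.rs (.part [6, 216, 33] [0, 1, 0] [] []),
.rs (.part [25, 98, 132] [1, 0, 0] [] []),
.rs (.join 2 4 5 4 1 3 [(2, 0)]),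
.rs (.ab2 1 66),
.rs (.le 1 36 4 2 2),
.rs (.lipl 0 17 27 2 10),
.rs (.part [19, 76, 160] [1, 0, 0] [] []),
.rs (.part [64, 128, 7] [0, 0, 0] [56] []),
.rs (.lipl 2 68 102 2 34),
.rs (.join 1 2 4 2 1 1 [(1, 0)]),
.rs (.hall [1] [3, 5, 6, 7]),
.rs (.lipl 2 44 124 0 80),
.rs (.lipl 1 2 74 0 72),
.rs (.join 2 2 7 2 1 1 [(1, 0)]),
.rs (.part [17, 224, 14] [0, 1, 0] [] []),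
.rs (.part [2, 1, 196] [0, 0, 0] [56] []),
.rs (.l2 2 5 6 2 1 1),
.rs (.lipl 2 48 114 1 66),
.rs (.lipl 2 80 116 2 36),
.rs (.join 2 40 7 5 5 0 [(3, 0), (5, 0)]),
.rs (.part [9, 242, 4] [0, 1, 0] [] []),
.rs (.ordL 2 160 1),
.rs (.ab2 1 130),
.rs (.mono 2 1 33 1),
.rs (.l2 1 48 160 5 1 1),
.rs (.l2 0 66 72 6 1 1),
.rs (.lipl 1 136 232 1 96),
.rs (.slot 0 [(3, 2), (4, 2), (5, 2), (0, 2), (1, 1), (6, 1)]),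
.rs (.join 2 2 4 4 2 2 [(1, 0)]),
.rs (.lipl 1 160 240 0 80),
.degU 0 [(0, 3), (2, 2)],
.rs (.part [9, 34, 212] [0, 0, 1] [] []),
.rs (.ab 0 2),
.rs (.join 1 4 5 3 2 3 [(2, 2)]),
.rs (.le 2 33 1 0 2),
.rs (.lip 2 34 98 64),
.rs (.lip 1 128 131 7),
.rs (.lip 2 144 208 64),
.rs (.part [64, 136, 48] [0, 0, 0] [7] []),
.rs (.lipl 2 34 114 2 80),
.rs (.part [3, 132, 64] [0, 0, 0] [56] []),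
.rs (.part [9, 68, 178] [0, 0, 1] [] []),
.rs (.lipl 1 36 102 0 66),
.rs (.join 2 2 5 5 2 3 [(1, 0)]),
.rs (.lipl 2 132 198 0 66),
.rs (.lipl 2 6 86 1 80),
.rs (.join 1 4 6 3 1 2 [(2, 0)]),
.rs (.join 1 4 6 3 2 1 [(2, 0)]),
.rs (.lipl 1 18 86 0 68),
.rs (.join 1 4 3 4 3 1 [(2, 0)]),
.rs (.part [17, 138, 100] [0, 0, 1] [] []),
.rs (.l2 2 6 20 2 2 1),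
.rs (.part [9, 2, 244] [0, 0, 1] [] []),
.rs (.part [6, 64, 129] [0, 0, 0] [56] []),
.rs (.join 2 1 2 4 0 4 [(0, 0)]),
.rs (.part [65, 128, 62] [0, 0, 1] [] []),
.rs (.ab 0 4),
.rs (.ab2 0 24),
.rs (.mono 2 96 100 1),
.rs (.lipl 0 9 29 2 20),
.rs (.l2 1 66 96 6 1 1),
.rs (.part [5, 130, 64] [0, 0, 0] [56] []),
.rs (.join 2 8 5 5 3 3 [(3, 1)]),
.rs (.mono 1 16 144 1),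
.rs (.part [31, 192, 32] [1, 0, 0] [] []),
.rs (.lip 1 66 82 16),
.rs (.deg 1 [1, 1, 1]),
.rs (.l2 2 6 36 2 1 1),
.rs (.mono 2 128 192 1),
.rs (.deg 2 [2, 0, 1]),
.rs (.join 2 2 2 2 1 1 [(1, 0)]),
.rs (.lip 1 80 82 2),
.rs (.part [5, 2, 192] [0, 0, 0] [56] []),
.rs (.join 1 2 7 3 1 2 [(1, 0)]),
.rs (.l2 0 10 34 1 1 1),
.rs (.part [40, 144, 64] [0, 0, 0] [7] []),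
.rs (.l2 1 10 66 1 1 1),
.rs (.part [96, 8, 144] [0, 0, 0] [7] []),
.rs (.ab2 2 17),
.rs (.l2 2 18 34 1 1 1),
.rs (.part [1, 194, 4] [0, 0, 0] [56] []),
.rs (.un 1 5),
.rs (.part [8, 176, 64] [0, 0, 0] [7] []),
.rs (.join 2 32 6 4 3 2 [(5, 1)]),
.rs (.lipl 1 128 224 1 96),
.rs (.part [73, 160, 22] [1, 0, 0] [] []),
.rs (.lipl 2 22 182 1 160),
.rs (.lipl 2 28 62 2 34),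
.rs (.lipl 1 84 214 1 130),
.rs (.join 2 2 5 3 1 2 [(1, 0)]),
.rs (.part [64, 168, 16] [0, 0, 0] [7] []),
.rs (.part [64, 3, 132] [0, 0, 0] [56] []),
.rs (.lipl 1 4 76 0 72),
.rs (.lip 1 64 192 128),
.rs (.lipl 2 14 110 1 96),
.rs (.part [13, 98, 144] [1, 0, 0] [] []),
.rs (.l2 0 66 80 6 1 1),
.rs (.part [3, 192, 4] [0, 0, 0] [56] []),
.rs (.part [75, 32, 148] [1, 0, 0] [] []),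
.rs (.join 2 2 7 3 2 2 [(1, 1)]),
.rs (.hall [1] [0, 1, 2, 7]),
.rs (.slot 0 [(3, 3), (4, 1), (0, 3), (1, 1), (2, 1), (6, 1)]),
.rs (.lipl 1 128 145 1 17),
.rs (.join 1 8 5 2 1 1 [(3, 0)]),
.rs (.lipl 1 84 118 2 34),
.degU 3 [(0, 4), (2, 1)],
.rs (.part [8, 208, 32] [0, 0, 0] [7] []),
.rs (.ordE 1 16 2),
.rs (.l2 2 6 34 1 2 1),
.rs (.join 2 4 4 5 2 3 [(2, 0)]),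
.rs (.l2 1 96 192 6 2 1),
.rs (.l2 1 24 80 4 1 1),
.rs (.join 2 2 5 4 2 3 [(1, 1)]),
.rs (.join 2 16 6 2 0 2 [(4, 0)]),
.rs (.l2 2 80 96 6 2 2),
.rs (.lipl 1 128 200 0 72),
.rs (.part [15, 16, 224] [1, 0, 0] [] []),
.rs (.l2 1 34 96 5 1 1),
.rs (.ab2 2 66),
.rs (.join 2 8 6 4 1 3 [(3, 0)]),
.rs (.part [32, 80, 136] [0, 0, 0] [7] []),
.rs (.l2 0 6 10 1 1 1),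
.rs (.part [72, 160, 16] [0, 0, 0] [7] []),
.rs (.lipl 0 9 45 1 36),
.rs (.lipl 2 66 86 2 20),
.rs (.join 2 16 5 3 1 2 [(4, 0)]),
.rs (.lipl 0 9 29 1 20),
.rs (.part [5, 64, 130] [0, 0, 0] [56] []),
.rs (.part [65, 128, 6] [0, 0, 0] [56] []),
.rs (.part [32, 88, 128] [0, 0, 0] [7] []),
.rs (.lipl 2 160 180 1 20),
.rs (.l2 1 3 6 1 1 1),
.rs (.lipl 1 128 194 1 66),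
.rs (.hall [1] [1, 2, 6, 7]),
.rs (.part [41, 84, 130] [1, 0, 0] [] []),
.rs (.srt 0 1 0 0 3),
.rs (.part [1, 4, 194] [0, 0, 0] [56] []),
.rs (.join 2 2 4 3 1 2 [(1, 0)]),
.rs (.join 2 4 7 4 1 3 [(2, 0)]),
.rs (.lipl 2 36 180 2 144),
.rs (.deg 7 [0, 1, 3]),
.rs (.part [17, 12, 226] [0, 0, 1] [] []),
.rs (.ordE 0 1 2),
.rs (.join 2 2 5 3 2 1 [(1, 0)]),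
.rs (.lipl 2 130 166 1 36),
.rs (.lipl 0 9 75 1 66),
.rs (.part [6, 128, 65] [0, 0, 0] [56] []),
.rs (.ordE 1 4 1),
.rs (.join 1 8 6 2 1 1 [(3, 0)]),
.rs (.part [17, 128, 100] [0, 0, 0] [] [(1, 10)]),
.rs (.join 1 16 5 2 1 1 [(4, 0)]),
.rs (.lipl 2 160 226 1 66),
.rs (.lipl 1 144 240 1 96),
.rs (.part [33, 20, 202] [0, 0, 1] [] []),
.rs (.lipl 1 20 54 2 34),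
.rs (.l2 2 130 144 7 1 2),
.rs (.join 2 12 6 4 2 3 [(2, 0), (3, 1)]),
.rs (.join 2 2 4 5 2 3 [(1, 0)]),
.rs (.part [9, 54, 192] [0, 1, 0] [] []),
.rs (.deg 4 [1, 1, 1]),
.rs (.part [9, 32, 196] [0, 0, 0] [] [(2, 18)]),
.rs (.join 2 1 1 3 2 2 [(0, 1)]),
.rs (.mono 2 4 36 1),
.rs (.hall [0, 1] [1, 2, 7]),
.rs (.part [57, 128, 70] [1, 0, 0] [] []),
.rs (.part [9, 128, 98] [0, 0, 0] [] [(2, 20)]),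
.rs (.mono 2 66 82 1),
.rs (.join 2 1 4 2 0 2 [(0, 0)]),
.rs (.lipl 0 33 105 0 72),
.rs (.part [43, 68, 144] [1, 0, 0] [] []),
.rs (.part [40, 192, 16] [0, 0, 0] [7] []),
.rs (.part [89, 36, 130] [1, 0, 0] [] []),
.rs (.l2 2 17 65 0 1 2),
.rs (.lipl 2 6 150 1 144),
.rs (.join 2 4 4 4 2 2 [(2, 0)]),
.rs (.part [17, 4, 224] [0, 0, 0] [] [(0, 10)]),
.rs (.join 2 2 6 2 2 0 [(1, 0)]),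
.rs (.part [27, 96, 132] [1, 0, 0] [] []),
.rs (.part [73, 34, 148] [1, 0, 0] [] []),
.rs (.slot 0 [(5, 2), (3, 3), (4, 3), (0, 1), (1, 1)]),
.rs (.join 2 4 6 2 0 2 [(2, 0)]),
.rs (.deg 7 [0, 0, 4]),
.rs (.l2 1 36 40 5 1 1),
.rs (.join 2 8 5 3 2 2 [(3, 1)]),
.rs (.part [2, 68, 129] [0, 0, 0] [56] []),
.rs (.join 2 4 6 4 3 1 [(2, 0)]),
.rs (.ab 1 4),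
.rs (.lipl 1 128 196 1 68),
.rs (.deg 5 [2, 0, 1]),
.rs (.join 2 1 4 4 1 3 [(0, 0)]),
.rs (.part [48, 64, 136] [0, 0, 0] [7] []),
.rs (.un 2 0),
.rs (.lip 1 176 179 7),
.rs (.l2 2 18 20 4 2 1),
.rs (.lipl 2 162 182 2 20),
.rs (.part [9, 160, 86] [0, 0, 1] [] []),
.rs (.part [24, 192, 32] [0, 0, 0] [7] []),
.rs (.part [17, 8, 230] [0, 0, 1] [] []),
.rs (.part [9, 162, 84] [0, 0, 1] [] []),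
.rs (.join 2 1 5 2 0 2 [(0, 0)]),
.rs (.l2 1 20 132 2 1 1),
.rs (.lipl 2 20 116 1 96),
.rs (.join 2 2 4 4 3 2 [(1, 1)]),
.rs (.join 1 80 7 4 3 1 [(4, 0), (6, 0)]),
.rs (.srt 0 3 0 0 3),
.rs (.part [65, 56, 134] [0, 1, 0] [] []),
.rs (.lipl 2 18 114 1 96),
.rs (.lip 2 128 168 56),
.rs (.join 2 4 5 5 4 2 [(2, 1)]),
.rs (.part [72, 144, 32] [0, 0, 0] [7] []),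
.rs (.part [9, 212, 34] [0, 1, 0] [] []),
.rs (.join 2 34 6 3 3 0 [(1, 0), (5, 0)]),
.rs (.join 2 32 7 4 2 2 [(5, 0)]),
.rs (.join 2 16 5 4 2 3 [(4, 1)]),
.degU 4 [(0, 1), (1, 2), (2, 2)],
.rs (.join 2 2 5 5 3 3 [(1, 1)]),
.rs (.part [9, 214, 32] [0, 1, 0] [] []),
.rs (.part [8, 160, 87] [0, 0, 1] [] []),
.rs (.join 2 2 4 2 1 1 [(1, 0)]),
.rs (.join 1 2 5 3 2 2 [(1, 1)]),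
.rs (.l2 1 20 132 2 2 1),
.rs (.deg 2 [0, 3, 0]),
.rs (.mono 2 68 100 1),
.rs (.join 2 4 4 4 4 2 [(2, 2)]),
.rs (.part [32, 152, 64] [0, 0, 0] [7] []),
.rs (.lipl 2 52 182 1 130),
.rs (.lipl 2 36 116 1 80),
.rs (.part [33, 128, 76] [0, 0, 0] [] [(2, 18)]),
.rs (.part [16, 136, 96] [0, 0, 0] [7] []),
.rs (.part [96, 16, 136] [0, 0, 0] [7] []),
.rs (.join 1 18 5 3 2 2 [(1, 0), (4, 1)]),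
.rs (.join 2 1 2 3 2 2 [(0, 1)]),
.rs (.lipl 2 130 198 2 68),
.rs (.part [29, 160, 66] [1, 0, 0] [] []),
.rs (.join 0 2 4 2 1 1 [(1, 0)]),
.rs (.part [64, 24, 160] [0, 0, 0] [7] []),
.rs (.deg 2 [1, 0, 2]),
.rs (.l2 2 33 65 0 1 1),
.rs (.lipl 2 36 116 0 80),
.rs (.deg 6 [0, 3, 1]),
.rs (.join 2 16 6 4 1 3 [(4, 0)]),
.rs (.le 2 130 2 1 1),
.rs (.le 2 3 1 0 1),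
.rs (.mono 2 5 69 1),
.rs (.part [9, 128, 118] [0, 0, 1] [] []),
.rs (.lipl 0 33 43 2 10),
.rs (.part [17, 134, 104] [0, 1, 0] [] []),
.rs (.l2 1 34 130 1 1 2),
.rs (.join 1 2 7 3 0 3 [(1, 0)]),
.rs (.part [5, 192, 2] [0, 0, 0] [56] []),
.rs (.deg 7 [1, 3, 0]),
.rs (.mono 2 1 5 1),
.rs (.lipl 2 132 212 0 80),
.rs (.ab2 1 48),
.rs (.part [9, 130, 116] [0, 0, 1] [] []),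
.rs (.part [9, 100, 18] [0, 0, 0] [128] []),
.rs (.join 2 32 6 4 2 2 [(5, 0)]),
.rs (.join 2 16 5 4 3 3 [(4, 2)]),
.rs (.join 1 2 6 4 1 3 [(1, 0)]),
.rs (.part [10, 208, 37] [0, 1, 0] [] []),
.rs (.mono 1 144 208 1),
.rs (.l2 0 6 18 1 1 1),
.rs (.lipl 2 22 118 1 96),
.rs (.part [10, 197, 48] [0, 1, 0] [] []),
.rs (.join 1 4 7 2 1 1 [(2, 0)]),
.rs (.join 1 16 6 3 2 2 [(4, 1)]),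
.rs (.lipl 0 10 78 0 68),
.rs (.lipl 2 132 150 0 18),
.rs (.join 2 1 5 2 1 2 [(0, 1)]),
.rs (.lipl 2 132 198 1 66),
.rs (.l2 1 6 66 1 1 1),
.rs (.part [3, 64, 132] [0, 0, 0] [56] []),
.rs (.l2 2 48 144 4 2 1),
.rs (.part [9, 82, 164] [0, 1, 0] [] []),
.rs (.part [16, 104, 128] [0, 0, 0] [7] []),
.rs (.join 2 4 4 3 2 2 [(2, 1)]),
.rs (.part [9, 16, 196] [0, 0, 0] [] [(2, 34)]),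
.rs (.join 2 2 3 1 1 0 [(1, 0)]),
.rs (.join 1 4 7 3 1 2 [(2, 0)]),
.rs (.le 1 36 4 2 3),
.rs (.l2 0 66 68 6 1 1),
.rs (.lipl 0 9 77 1 68),
.rs (.part [9, 84, 162] [0, 1, 0] [] []),
.rs (.lip 2 32 39 7),
.rs (.join 1 16 6 3 2 1 [(4, 0)]),
.rs (.ab2 0 48),
.rs (.join 2 2 2 5 3 3 [(1, 1)]),
.rs (.part [33, 202, 20] [0, 1, 0] [] []),
.rs (.part [66, 132, 1] [0, 0, 0] [56] []),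
.rs (.ordE 2 32 1),
.rs (.mono 2 1 17 1),
.rs (.lip 1 96 98 2),
.rs (.l2 0 24 72 3 1 1),
.rs (.un 2 4),
.rs (.join 0 16 5 2 1 1 [(4, 0)]),
.rs (.deg 5 [0, 2, 1]),
.rs (.part [72, 128, 48] [0, 0, 0] [7] []),
.rs (.part [9, 114, 132] [0, 1, 0] [] []),
.rs (.lipl 2 160 180 2 20),
.rs (.hall [0, 1] [4, 5, 7]),
.rs (.part [77, 34, 144] [1, 0, 0] [] []),
.rs (.lipl 1 20 116 1 96),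
.rs (.join 2 16 5 3 2 2 [(4, 1)]),
.rs (.join 1 4 6 2 1 1 [(2, 0)]),
.rs (.lipl 1 146 214 1 68),
.rs (.lip 2 132 196 64),
.degU 5 [(0, 1), (2, 4)],
.rs (.part [17, 104, 134] [0, 1, 0] [] []),
.rs (.mono 2 3 67 1),
.rs (.le 1 144 16 4 2),
.rs (.lipl 2 68 102 1 34),
.rs (.join 2 1 5 4 1 3 [(0, 0)]),
.rs (.l2 1 18 80 4 1 1),
.rs (.lipl 1 100 230 1 130),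
.rs (.join 2 4 5 3 2 1 [(2, 0)]),
.rs (.l2 1 40 48 5 1 1),
.rs (.deg 5 [0, 1, 2]),
.rs (.part [9, 182, 64] [0, 1, 0] [] []),
.rs (.l2 1 36 160 5 1 1),
.degU 7 [(1, 2), (2, 4)],
.rs (.join 2 16 7 3 2 2 [(4, 1)]),
.rs (.join 1 16 5 4 3 2 [(4, 1)]),
.rs (.ab 2 1),
.rs (.l2 0 10 40 3 1 1),
.rs (.part [8, 144, 96] [0, 0, 0] [7] []),
.rs (.part [6, 129, 64] [0, 0, 0] [56] []),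
.rs (.un 2 7),
.rs (.lipl 1 20 212 2 192),
.rs (.ab 1 0),
.rs (.deg 7 [0, 2, 2]),
.rs (.part [72, 32, 144] [0, 0, 0] [7] []),
.rs (.join 2 8 4 5 3 3 [(3, 1)]),
.rs (.deg 1 [1, 2, 0]),
.rs (.lipl 2 144 240 2 96),
.rs (.mono 2 64 80 1),
.rs (.lipl 2 52 62 1 10),
.rs (.join 2 4 3 4 2 3 [(2, 1)]),
.rs (.join 1 1 1 2 0 2 [(0, 0)]),
.rs (.join 2 2 4 3 2 2 [(1, 1)]),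
.rs (.join 2 10 6 4 1 3 [(1, 0), (3, 0)]),
.rs (.mono 2 132 140 1),
.rs (.part [9, 4, 242] [0, 0, 1] [] []),
.rs (.part [2, 132, 65] [0, 0, 0] [56] []),
.rs (.lipl 2 34 46 1 12),
.rs (.part [9, 100, 146] [0, 1, 0] [] []),
.rs (.join 2 2 3 5 3 2 [(1, 0)]),
.rs (.ordE 0 2 2),
.rs (.part [3, 196, 56] [0, 0, 1] [] []),
.rs (.join 2 34 6 4 4 0 [(1, 0), (5, 0)]),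
.rs (.part [72, 131, 52] [0, 1, 0] [] []),
.rs (.lipl 2 18 54 1 36),
.rs (.join 1 16 5 3 2 2 [(4, 1)]),
.rs (.ab 1 2),
.rs (.join 2 2 2 3 2 1 [(1, 0)]),
.rs (.join 2 4 4 5 3 2 [(2, 0)]),
.rs (.ab 1 1),
.rs (.join 2 16 5 4 2 2 [(4, 0)]),
.rs (.mono 2 132 148 1),
.rs (.join 2 32 7 4 4 0 [(5, 0)]),
.rs (.lipl 1 146 182 2 36),
.rs (.join 2 2 7 4 1 3 [(1, 0)]),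
.rs (.lipl 2 20 54 1 34),
.rs (.part [48, 136, 64] [0, 0, 0] [7] []),
.rs (.deg 2 [0, 2, 1]),
.rs (.part [29, 130, 96] [1, 0, 0] [] []),
.rs (.ab2 2 192),
.rs (.join 2 2 2 3 2 2 [(1, 1)]),
.rs (.ordE 2 128 2),
.rs (.le 2 65 1 0 2),
.rs (.ab 1 7),
.rs (.lip 0 1 25 56),
.rs (.lipl 1 20 86 1 66),
.degU 6 [(1, 3), (2, 3)],
.rs (.srt 0 3 0 0 4),
.rs (.lipl 1 22 182 2 160),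
.rs (.deg 3 [1, 2, 0]),
.rs (.part [40, 16, 192] [0, 0, 0] [7] []),
.rs (.ab2 1 40),
.rs (.deg 1 [0, 3, 0]),
.rs (.join 2 36 6 4 4 0 [(2, 0), (5, 0)]),
.rs (.join 2 4 7 4 2 2 [(2, 0)]),
.rs (.part [32, 200, 16] [0, 0, 0] [7] []),
.rs (.deg 6 [3, 1, 0]),
.rs (.l2 0 18 66 1 1 1),
.rs (.join 1 32 6 3 1 2 [(5, 0)]),
.rs (.part [32, 24, 192] [0, 0, 0] [7] []),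
.rs (.l2 2 34 40 5 2 2),
.rs (.l2 1 6 68 2 1 1),
.degU 1 [(0, 1), (1, 2), (2, 2)],
.rs (.l2 1 72 96 6 1 1),
.rs (.part [5, 128, 66] [0, 0, 0] [56] []),
.rs (.lipl 0 9 43 2 34),
.rs (.le 2 80 16 4 2),
.rs (.part [43, 132, 80] [1, 0, 0] [] []),
.rs (.lip 0 5 45 56),
.rs (.part [9, 150, 96] [0, 1, 0] [] []),
.rs (.part [9, 82, 36] [0, 0, 0] [128] []),
.rs (.lipl 0 17 83 0 66),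
.rs (.part [9, 146, 100] [0, 0, 1] [] []),
.rs (.join 2 2 5 4 3 1 [(1, 0)]),
.rs (.part [80, 133, 42] [0, 1, 0] [] []),
.rs (.join 1 1 6 2 1 1 [(0, 0)]),
.rs (.lipl 1 164 182 2 18),
.rs (.deg 6 [1, 3, 0]),
.rs (.part [6, 65, 128] [0, 0, 0] [56] []),
.rs (.ordE 0 64 3),
.degU 0 [(0, 4), (1, 1)],
.rs (.ab2 0 65),
.rs (.mono 2 5 37 1),
.rs (.join 2 4 6 4 1 3 [(2, 0)]),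
.rs (.hall [0] [3, 4, 5, 7]),
.rs (.part [9, 166, 80] [0, 1, 0] [] []),
.rs (.mono 1 129 145 1),
.rs (.ab2 2 96),
.rs (.part [40, 80, 128] [0, 0, 0] [7] []),
.rs (.lip 2 68 84 16),
.rs (.lipl 2 48 116 1 68),
.rs (.ordE 2 16 1),
.rs (.lip 1 64 69 7),
.rs (.le 2 144 16 4 1),
.rs (.join 1 32 6 4 3 2 [(5, 1)]),
.rs (.join 2 2 3 5 3 3 [(1, 1)]),
.rs (.lipl 1 100 244 1 144),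
.rs (.part [17, 128, 74] [0, 0, 0] [] [(1, 36)]),
.rs (.lipl 2 34 102 1 68),
.rs (.part [33, 94, 128] [0, 1, 0] [] []),
.rs (.l2 1 18 20 4 2 2),
.rs (.le 1 160 32 5 3),
.rs (.deg 2 [1, 1, 1]),
.rs (.part [9, 116, 130] [0, 1, 0] [] []),
.rs (.lipl 1 148 182 2 34),
.rs (.part [80, 40, 128] [0, 0, 0] [7] []),
.rs (.mono 1 5 69 1),
.rs (.join 1 2 5 3 1 2 [(1, 0)]),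
.rs (.l2 1 68 72 6 1 1),
.rs (.part [9, 112, 134] [0, 1, 0] [] []),
.rs (.srt 0 5 0 4 2),
.rs (.l2 2 12 72 3 1 1),
.rs (.ab 0 1),
.rs (.part [89, 164, 2] [1, 0, 0] [] []),
.rs (.part [1, 132, 66] [0, 0, 0] [56] []),
.rs (.le 2 130 2 1 2),
.rs (.un 1 6),
.rs (.join 1 4 5 3 1 3 [(2, 1)]),
.rs (.part [45, 82, 128] [1, 0, 0] [] []),
.rs (.mono 2 1 3 1),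
.rs (.join 1 8 6 3 2 1 [(3, 0)]),
.rs (.join 2 8 7 4 2 2 [(3, 0)]),
.degU 2 [(0, 1), (2, 4)],
.rs (.part [33, 158, 64] [0, 1, 0] [] []),
.rs (.part [8, 32, 208] [0, 0, 0] [7] []),
.rs (.join 2 2 6 4 1 3 [(1, 0)]),
.rs (.part [16, 224, 8] [0, 0, 0] [7] []),
.rs (.lip 0 24 31 7),
.rs (.join 1 1 5 3 1 2 [(0, 0)]),
.rs (.l2 0 10 24 3 1 1),
.rs (.join 1 32 7 3 1 2 [(5, 0)]),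
.rs (.part [33, 78, 144] [0, 1, 0] [] []),
.rs (.deg 3 [2, 0, 1]),
.rs (.mono 2 17 49 1),
.rs (.part [2, 129, 68] [0, 0, 0] [56] []),
.rs (.deg 5 [0, 0, 3]),
.degU 3 [(0, 2), (2, 3)],
.rs (.part [41, 82, 132] [1, 0, 0] [] []),
.rs (.join 2 4 5 4 2 2 [(2, 0)]),
.rs (.lipl 2 192 226 2 34),
.rs (.join 2 16 7 3 2 1 [(4, 0)]),
.rs (.part [9, 128, 100] [0, 0, 0] [] [(0, 18)]),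
.rs (.lip 1 80 84 4),
.rs (.deg 0 [2, 0, 1]),
.rs (.part [9, 198, 48] [0, 1, 0] [] []),
.rs (.l2 1 6 10 1 1 1),
.rs (.deg 4 [0, 0, 3]),
.rs (.part [5, 128, 122] [0, 0, 1] [] []),
.rs (.part [33, 142, 80] [0, 1, 0] [] []),
.rs (.l2 1 36 68 2 1 1),
.rs (.part [9, 16, 194] [0, 0, 0] [] [(2, 36)]),
.rs (.join 2 4 4 3 2 1 [(2, 0)]),
.rs (.l2 2 20 48 4 1 1),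
.rs (.lip 0 3 27 56),
.rs (.part [43, 64, 148] [1, 0, 0] [] []),
.rs (.mono 1 32 96 1),
.rs (.lipl 1 164 230 1 66),
.rs (.part [9, 244, 2] [0, 1, 0] [] []),
.rs (.deg 3 [1, 0, 2]),
.rs (.l2 1 68 80 6 1 1),
.rs (.lipl 2 34 54 2 20),
.rs (.part [24, 160, 64] [0, 0, 0] [7] []),
.rs (.part [40, 64, 144] [0, 0, 0] [7] []),
.rs (.join 0 8 6 2 1 1 [(3, 0)]),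
.rs (.part [27, 68, 160] [1, 0, 0] [] []),
.rs (.srt 0 5 0 4 1),
.rs (.lipl 0 10 27 1 17),
.rs (.l2 0 72 96 6 1 1),
.rs (.l2 1 6 20 2 1 1),
.rs (.lipl 2 44 110 0 66),
.rs (.slot 0 [(3, 2), (4, 2), (5, 3), (0, 2), (6, 1)]),
.rs (.join 1 16 6 2 1 1 [(4, 0)]),
.rs (.part [29, 96, 130] [1, 0, 0] [] []),
.rs (.ordE 0 64 2),
.rs (.part [153, 96, 6] [1, 0, 0] [] []),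
.rs (.join 1 64 7 4 1 3 [(6, 0)]),
.rs (.lipl 2 160 178 2 18),
.rs (.lipl 2 68 86 0 18),
.rs (.deg 4 [1, 2, 0]),
.rs (.l2 1 66 80 6 1 1),
.rs (.lipl 2 164 244 2 80),
.rs (.ordE 1 128 1),
.rs (.part [80, 136, 32] [0, 0, 0] [7] []),
.rs (.join 2 2 3 4 2 2 [(1, 0)]),
.rs (.join 1 8 4 4 2 3 [(3, 1)]),
.rs (.part [9, 128, 100] [0, 0, 0] [] [(2, 18)]),
.rs (.join 2 2 7 4 2 2 [(1, 0)]),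
.rs (.l2 2 34 48 5 2 1),
.rs (.l2 1 20 80 4 1 2),
.rs (.join 2 34 7 4 2 2 [(1, 0), (5, 0)]),
.rs (.lipl 1 224 242 1 18),
.rs (.part [17, 68, 170] [0, 0, 1] [] []),
.rs (.lipl 2 192 228 2 36),
.rs (.lipl 2 130 202 0 72),
.rs (.join 0 2 2 2 1 1 [(1, 0)])]

noncomputable def gv : List Gv := [
.low [3, 1, 0, 3, 0, 0],
.low [4, 1, 1, 1, 0, 0],
.low [3, 1, 0, 1, 1, 1],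
.low [4, 0, 1, 1, 1, 0],
.low [2, 1, 1, 1, 1, 1],
.low [4, 0, 0, 3, 0, 0],
.low [3, 1, 1, 1, 1, 0],
.cap7,
.cap6,
.low [2, 0, 1, 2, 1, 1],
.low [4, 1, 0, 1, 1, 0],
.low [3, 0, 0, 3, 1, 0]]

noncomputable def gads : List Gt := [
⟨2, [⟨1, 2, []⟩, ⟨64, 4, []⟩], [3, 1, 1], 1, [(65, 1)]⟩,
⟨2, [⟨33, 2, []⟩, ⟨144, 4, []⟩], [3, 1, 1], 1, [(17, 1), (48, 1), (129, 1), (160, 1)]⟩,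
⟨1, [⟨2, 3, []⟩, ⟨64, 3, []⟩, ⟨128, 4, []⟩], [7, 3], 1, [(194, 1)]⟩,
⟨2, [⟨16, 2, []⟩, ⟨32, 2, []⟩, ⟨4, 2, []⟩, ⟨128, 2, []⟩], [3, 3, 3, 12, 12, 12], 2, [(48, 1), (132, 1), (180, 2)]⟩,
⟨1, [⟨2, 2, []⟩, ⟨192, 2, []⟩], [3, 3, 3], 1, [(66, 1), (130, 1)]⟩,
⟨1, [⟨32, 3, []⟩, ⟨0, 0, [(144, 3)]⟩], [3, 3], 1, [(176, 1)]⟩,
⟨1, [⟨80, 3, []⟩, ⟨8, 3, []⟩, ⟨128, 4, []⟩], [7, 3], 1, [(152, 1), (200, 1)]⟩,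
⟨2, [⟨34, 4, []⟩, ⟨16, 2, []⟩], [3, 2, 2], 1, [(18, 1), (48, 1)]⟩,
⟨2, [⟨24, 2, []⟩, ⟨128, 4, []⟩], [3, 1, 1], 1, [(136, 1), (144, 1)]⟩,
⟨2, [⟨0, 0, [(24, 2)]⟩, ⟨96, 4, []⟩], [3, 1, 1], 1, [(56, 1), (88, 1)]⟩,
⟨2, [⟨0, 0, [(36, 2)]⟩, ⟨80, 4, []⟩], [3, 1, 1], 1, [(52, 1), (100, 1)]⟩,
⟨2, [⟨0, 0, [(68, 2)]⟩, ⟨2, 4, []⟩], [3, 1, 1], 1, [(70, 1)]⟩,
⟨2, [⟨20, 5, []⟩, ⟨2, 3, []⟩, ⟨64, 5, []⟩], [2, 2], 1, [(70, 1), (82, 1)]⟩,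
⟨1, [⟨68, 3, []⟩, ⟨32, 3, []⟩, ⟨128, 4, []⟩], [7, 3], 1, [(164, 1), (224, 1)]⟩,
⟨1, [⟨4, 2, []⟩, ⟨80, 2, []⟩], [3, 3, 3], 1, [(20, 1), (68, 1)]⟩,
⟨2, [⟨18, 4, []⟩, ⟨4, 4, []⟩, ⟨64, 4, []⟩], [7], 1, [(70, 1), (84, 1)]⟩,
⟨1, [⟨64, 3, []⟩, ⟨128, 3, []⟩], [3, 3], 1, [(192, 1)]⟩,
⟨2, [⟨88, 4, []⟩, ⟨128, 2, []⟩], [3, 2, 2], 1, [(136, 1), (144, 1), (192, 1)]⟩,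
⟨1, [⟨36, 4, []⟩, ⟨2, 3, []⟩, ⟨128, 3, []⟩], [7, 6], 1, [(134, 1), (162, 1)]⟩,
⟨1, [⟨36, 2, []⟩, ⟨3, 2, []⟩], [3, 3, 3], 1, [(5, 1), (6, 1), (33, 1), (34, 1)]⟩,
⟨2, [⟨16, 3, []⟩, ⟨32, 3, []⟩], [3, 3], 1, [(48, 1)]⟩,
⟨2, [⟨17, 4, []⟩, ⟨34, 4, []⟩, ⟨4, 4, []⟩], [7], 1, [(7, 1), (22, 1), (37, 1), (52, 1)]⟩,
⟨2, [⟨32, 2, []⟩, ⟨66, 4, []⟩], [3, 1, 1], 1, [(34, 1), (96, 1)]⟩,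
⟨1, [⟨18, 3, []⟩, ⟨4, 3, []⟩, ⟨64, 4, []⟩], [7, 3], 1, [(70, 1), (84, 1)]⟩,
⟨2, [⟨130, 4, []⟩, ⟨96, 2, []⟩], [3, 2, 2], 1, [(34, 1), (66, 1), (160, 1), (192, 1)]⟩,
⟨1, [⟨34, 3, []⟩, ⟨64, 3, []⟩, ⟨128, 4, []⟩], [7, 3], 1, [(194, 1), (224, 1)]⟩,
⟨2, [⟨2, 2, []⟩, ⟨4, 2, []⟩, ⟨16, 3, []⟩, ⟨32, 4, []⟩, ⟨64, 4, []⟩], [3, 3, 3, 12, 20], 2, [(38, 1), (70, 1), (112, 1), (118, 2)]⟩,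
⟨2, [⟨48, 4, []⟩, ⟨64, 4, []⟩, ⟨128, 4, []⟩], [7], 1, [(208, 1), (224, 1)]⟩,
⟨2, [⟨0, 0, [(40, 2)]⟩, ⟨80, 4, []⟩], [3, 1, 1], 1, [(56, 1), (104, 1)]⟩,
⟨1, [⟨17, 2, []⟩, ⟨128, 2, []⟩], [3, 3, 3], 1, [(129, 1), (144, 1)]⟩,
⟨2, [⟨5, 2, []⟩, ⟨144, 4, []⟩], [3, 1, 1], 1, [(17, 1), (20, 1), (129, 1), (132, 1)]⟩,
⟨2, [⟨72, 4, []⟩, ⟨16, 4, []⟩, ⟨32, 4, []⟩], [7], 1, [(56, 1), (112, 1)]⟩,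
⟨2, [⟨10, 4, []⟩, ⟨20, 4, []⟩, ⟨128, 4, []⟩], [7], 1, [(134, 1), (140, 1), (146, 1), (152, 1)]⟩,
⟨2, [⟨36, 4, []⟩, ⟨16, 2, []⟩], [3, 2, 2], 1, [(20, 1), (48, 1)]⟩,
⟨2, [⟨2, 4, []⟩, ⟨80, 4, []⟩, ⟨128, 4, []⟩], [7], 1, [(146, 1), (194, 1)]⟩,
⟨1, [⟨130, 3, []⟩, ⟨4, 3, []⟩, ⟨64, 4, []⟩], [7, 3], 1, [(70, 1), (196, 1)]⟩,
⟨2, [⟨2, 2, []⟩, ⟨80, 4, []⟩], [3, 1, 1], 1, [(18, 1), (66, 1)]⟩,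
⟨2, [⟨0, 0, [(72, 2)]⟩, ⟨32, 4, []⟩], [3, 1, 1], 1, [(104, 1)]⟩,
⟨2, [⟨144, 3, []⟩, ⟨4, 3, []⟩], [3, 3], 1, [(20, 1), (132, 1)]⟩,
⟨2, [⟨16, 2, []⟩, ⟨32, 2, []⟩, ⟨2, 3, []⟩, ⟨4, 3, []⟩, ⟨128, 5, []⟩], [3, 3, 3, 12, 12], 2, [(134, 1), (176, 1), (182, 2)]⟩,
⟨1, [⟨8, 2, []⟩, ⟨80, 2, []⟩], [3, 3, 3], 1, [(24, 1), (72, 1)]⟩,
⟨2, [⟨4, 4, []⟩, ⟨128, 2, []⟩], [3, 2, 2], 1, [(132, 1)]⟩,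
⟨2, [⟨6, 2, []⟩, ⟨128, 4, []⟩], [3, 1, 1], 1, [(130, 1), (132, 1)]⟩,
⟨1, [⟨136, 2, []⟩, ⟨64, 2, []⟩], [3, 3, 3], 1, [(72, 1), (192, 1)]⟩,
⟨0, [⟨48, 2, []⟩, ⟨8, 2, []⟩], [3, 3, 3], 1, [(24, 1), (40, 1)]⟩,
⟨1, [⟨33, 2, []⟩, ⟨64, 2, []⟩], [3, 3, 3], 1, [(65, 1), (96, 1)]⟩,
⟨2, [⟨5, 2, []⟩, ⟨128, 4, []⟩], [3, 1, 1], 1, [(129, 1), (132, 1)]⟩,
⟨2, [⟨0, 0, [(18, 2)]⟩, ⟨160, 4, []⟩], [3, 1, 1], 1, [(50, 1), (146, 1)]⟩,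
⟨0, [⟨1, 2, []⟩, ⟨40, 2, []⟩], [3, 3, 3], 1, [(9, 1), (33, 1)]⟩,
⟨1, [⟨5, 2, []⟩, ⟨2, 2, []⟩], [3, 3, 3], 1, [(3, 1), (6, 1)]⟩,
⟨1, [⟨24, 2, []⟩, ⟨128, 2, []⟩], [3, 3, 3], 1, [(136, 1), (144, 1)]⟩,
⟨2, [⟨18, 5, []⟩, ⟨32, 3, []⟩, ⟨64, 5, []⟩], [2, 2], 1, [(98, 1), (112, 1)]⟩,
⟨2, [⟨2, 2, []⟩, ⟨16, 2, []⟩, ⟨32, 2, []⟩, ⟨64, 2, []⟩], [9, 9, 9, 6, 6, 6], 2, [(48, 1), (66, 1), (114, 2)]⟩,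
⟨1, [⟨20, 3, []⟩, ⟨64, 4, []⟩, ⟨128, 3, []⟩], [7, 5], 1, [(196, 1), (208, 1)]⟩,
⟨1, [⟨6, 2, []⟩, ⟨128, 2, []⟩], [3, 3, 3], 1, [(130, 1), (132, 1)]⟩,
⟨2, [⟨16, 2, []⟩, ⟨68, 4, []⟩], [3, 1, 1], 1, [(20, 1), (80, 1)]⟩,
⟨1, [⟨36, 4, []⟩, ⟨2, 3, []⟩, ⟨64, 3, []⟩], [7, 6], 1, [(70, 1), (98, 1)]⟩,
⟨1, [⟨4, 3, []⟩, ⟨16, 3, []⟩, ⟨64, 4, []⟩], [7, 3], 1, [(84, 1)]⟩,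
⟨1, [⟨0, 0, [(36, 2)]⟩, ⟨64, 4, []⟩], [3, 1, 1], 1, [(100, 1)]⟩,
⟨2, [⟨32, 3, []⟩, ⟨64, 3, []⟩], [3, 3], 1, [(96, 1)]⟩,
⟨2, [⟨4, 3, []⟩, ⟨64, 5, []⟩, ⟨128, 5, []⟩], [1, 1], 1, [(196, 1)]⟩,
⟨1, [⟨2, 2, []⟩, ⟨80, 2, []⟩], [3, 3, 3], 1, [(18, 1), (66, 1)]⟩,
⟨2, [⟨32, 3, []⟩, ⟨144, 3, []⟩], [3, 3], 1, [(48, 1), (160, 1)]⟩,
⟨1, [⟨20, 2, []⟩, ⟨128, 2, []⟩], [3, 3, 3], 1, [(132, 1), (144, 1)]⟩,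
⟨1, [⟨32, 2, []⟩, ⟨80, 2, []⟩], [3, 3, 3], 1, [(48, 1), (96, 1)]⟩,
⟨2, [⟨2, 4, []⟩, ⟨128, 2, []⟩], [3, 2, 2], 1, [(130, 1)]⟩,
⟨1, [⟨2, 3, []⟩, ⟨16, 3, []⟩, ⟨64, 4, []⟩], [7, 3], 1, [(82, 1)]⟩,
⟨1, [⟨36, 3, []⟩, ⟨2, 3, []⟩, ⟨64, 4, []⟩], [7, 3], 1, [(70, 1), (98, 1)]⟩,
⟨2, [⟨36, 5, []⟩, ⟨2, 3, []⟩, ⟨128, 5, []⟩], [2, 2], 1, [(134, 1), (162, 1)]⟩,
⟨1, [⟨129, 3, []⟩, ⟨2, 3, []⟩, ⟨64, 4, []⟩], [7, 3], 1, [(67, 1), (194, 1)]⟩,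
⟨1, [⟨10, 3, []⟩, ⟨4, 3, []⟩, ⟨64, 4, []⟩], [7, 3], 1, [(70, 1), (76, 1)]⟩,
⟨1, [⟨144, 2, []⟩, ⟨64, 2, []⟩], [3, 3, 3], 1, [(80, 1), (192, 1)]⟩,
⟨1, [⟨8, 2, []⟩, ⟨128, 2, []⟩], [3, 3, 3], 1, [(136, 1)]⟩,
⟨1, [⟨16, 2, []⟩, ⟨0, 0, [(192, 2)]⟩], [3, 3, 3], 1, [(208, 1)]⟩,
⟨2, [⟨24, 2, []⟩, ⟨64, 4, []⟩], [3, 1, 1], 1, [(72, 1), (80, 1)]⟩,
⟨2, [⟨134, 4, []⟩, ⟨64, 2, []⟩], [3, 2, 2], 1, [(66, 1), (68, 1), (192, 1)]⟩,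
⟨1, [⟨2, 2, []⟩, ⟨4, 2, []⟩, ⟨8, 1, []⟩, ⟨128, 5, []⟩], [3, 3, 3, 4, 4, 4, 4], 2, [(134, 1), (136, 1), (142, 2)]⟩,
⟨2, [⟨65, 4, []⟩, ⟨2, 4, []⟩, ⟨4, 4, []⟩], [7], 1, [(7, 1), (70, 1)]⟩,
⟨2, [⟨32, 4, []⟩, ⟨6, 4, []⟩, ⟨128, 4, []⟩], [7], 1, [(162, 1), (164, 1)]⟩,
⟨2, [⟨0, 0, [(34, 2)]⟩, ⟨128, 4, []⟩], [3, 1, 1], 1, [(162, 1)]⟩,
⟨1, [⟨20, 3, []⟩, ⟨32, 3, []⟩, ⟨128, 4, []⟩], [7, 3], 1, [(164, 1), (176, 1)]⟩,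
⟨1, [⟨0, 0, [(48, 2)]⟩, ⟨128, 4, []⟩], [3, 1, 1], 1, [(176, 1)]⟩,
⟨2, [⟨16, 3, []⟩, ⟨64, 3, []⟩], [3, 3], 1, [(80, 1)]⟩,
⟨2, [⟨0, 0, [(10, 2)]⟩, ⟨36, 4, []⟩], [3, 1, 1], 1, [(14, 1), (42, 1)]⟩,
⟨2, [⟨2, 2, []⟩, ⟨4, 2, []⟩, ⟨24, 4, []⟩, ⟨32, 3, []⟩, ⟨64, 4, []⟩], [3, 3, 3, 12, 24], 2, [(14, 1), (22, 1), (70, 1), (104, 1), (110, 2), (112, 1), (118, 2)]⟩,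
⟨2, [⟨4, 2, []⟩, ⟨16, 2, []⟩, ⟨32, 2, []⟩, ⟨64, 2, []⟩], [9, 9, 9, 6, 6, 6], 2, [(48, 1), (68, 1), (116, 2)]⟩,
⟨1, [⟨2, 3, []⟩, ⟨4, 3, []⟩, ⟨16, 4, []⟩, ⟨32, 4, []⟩, ⟨64, 2, []⟩], [3, 3, 12, 16, 16, 16], 2, [(54, 1), (70, 1), (112, 1), (118, 2)]⟩,
⟨1, [⟨20, 4, []⟩, ⟨32, 3, []⟩, ⟨64, 3, []⟩], [7, 6], 1, [(100, 1), (112, 1)]⟩,
⟨2, [⟨36, 4, []⟩, ⟨2, 2, []⟩], [3, 2, 2], 1, [(6, 1), (34, 1)]⟩,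
⟨2, [⟨34, 5, []⟩, ⟨4, 3, []⟩, ⟨24, 5, []⟩], [2, 2], 1, [(14, 1), (22, 1), (44, 1), (52, 1)]⟩,
⟨2, [⟨36, 5, []⟩, ⟨2, 3, []⟩, ⟨64, 5, []⟩], [2, 2], 1, [(70, 1), (98, 1)]⟩,
⟨2, [⟨129, 2, []⟩, ⟨64, 4, []⟩], [3, 1, 1], 1, [(65, 1), (192, 1)]⟩,
⟨2, [⟨36, 2, []⟩, ⟨64, 4, []⟩], [3, 1, 1], 1, [(68, 1), (96, 1)]⟩,
⟨2, [⟨66, 3, []⟩, ⟨128, 3, []⟩], [3, 3], 1, [(130, 1), (192, 1)]⟩,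
⟨2, [⟨130, 3, []⟩, ⟨64, 3, []⟩], [3, 3], 1, [(66, 1), (192, 1)]⟩,
⟨1, [⟨4, 2, []⟩, ⟨128, 2, []⟩], [3, 3, 3], 1, [(132, 1)]⟩,
⟨1, [⟨36, 3, []⟩, ⟨64, 3, []⟩, ⟨128, 4, []⟩], [7, 3], 1, [(196, 1), (224, 1)]⟩,
⟨1, [⟨80, 3, []⟩, ⟨2, 3, []⟩, ⟨128, 4, []⟩], [7, 3], 1, [(146, 1), (194, 1)]⟩,
⟨1, [⟨160, 3, []⟩, ⟨16, 4, []⟩, ⟨64, 3, []⟩], [7, 5], 1, [(112, 1), (208, 1)]⟩,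
⟨1, [⟨2, 3, []⟩, ⟨4, 4, []⟩, ⟨128, 3, []⟩], [7, 5], 1, [(134, 1)]⟩,
⟨1, [⟨20, 3, []⟩, ⟨2, 3, []⟩, ⟨128, 4, []⟩], [7, 3], 1, [(134, 1), (146, 1)]⟩,
⟨1, [⟨129, 3, []⟩, ⟨4, 3, []⟩, ⟨64, 4, []⟩], [7, 3], 1, [(69, 1), (196, 1)]⟩,
⟨2, [⟨4, 3, []⟩, ⟨32, 3, []⟩], [3, 3], 1, [(36, 1)]⟩,
⟨2, [⟨2, 2, []⟩, ⟨16, 3, []⟩, ⟨32, 3, []⟩, ⟨64, 3, []⟩, ⟨128, 4, []⟩], [9, 9, 17, 6, 6], 2, [(112, 1), (176, 1), (194, 1), (242, 2)]⟩,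
⟨2, [⟨4, 4, []⟩, ⟨80, 4, []⟩, ⟨128, 4, []⟩], [7], 1, [(148, 1), (196, 1)]⟩,
⟨2, [⟨132, 4, []⟩, ⟨80, 2, []⟩], [3, 2, 2], 1, [(20, 1), (68, 1), (144, 1), (192, 1)]⟩,
⟨1, [⟨33, 2, []⟩, ⟨128, 2, []⟩], [3, 3, 3], 1, [(129, 1), (160, 1)]⟩,
⟨1, [⟨34, 2, []⟩, ⟨24, 2, []⟩], [3, 3, 3], 1, [(10, 1), (18, 1), (40, 1), (48, 1)]⟩,
⟨1, [⟨2, 2, []⟩, ⟨96, 2, []⟩], [3, 3, 3], 1, [(34, 1), (66, 1)]⟩,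
⟨2, [⟨80, 2, []⟩, ⟨160, 4, []⟩], [3, 1, 1], 1, [(48, 1), (96, 1), (144, 1), (192, 1)]⟩,
⟨1, [⟨130, 2, []⟩, ⟨64, 2, []⟩], [3, 3, 3], 1, [(66, 1), (192, 1)]⟩,
⟨1, [⟨0, 0, [(68, 2)]⟩, ⟨128, 4, []⟩], [3, 1, 1], 1, [(196, 1)]⟩,
⟨2, [⟨162, 4, []⟩, ⟨64, 2, []⟩], [3, 2, 2], 1, [(66, 1), (96, 1), (192, 1)]⟩,
⟨0, [⟨1, 2, []⟩, ⟨96, 2, []⟩], [3, 3, 3], 1, [(33, 1), (65, 1)]⟩,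
⟨1, [⟨18, 3, []⟩, ⟨4, 3, []⟩, ⟨128, 4, []⟩], [7, 3], 1, [(134, 1), (148, 1)]⟩,
⟨2, [⟨72, 4, []⟩, ⟨128, 2, []⟩], [3, 2, 2], 1, [(136, 1), (192, 1)]⟩,
⟨2, [⟨10, 5, []⟩, ⟨36, 5, []⟩, ⟨16, 3, []⟩], [4, 4], 1, [(22, 1), (28, 1), (50, 1), (56, 1)]⟩,
⟨1, [⟨18, 3, []⟩, ⟨4, 4, []⟩, ⟨64, 3, []⟩], [7, 5], 1, [(70, 1), (84, 1)]⟩,
⟨2, [⟨36, 5, []⟩, ⟨18, 3, []⟩, ⟨64, 5, []⟩], [2, 2], 1, [(70, 1), (84, 1), (98, 1), (112, 1)]⟩,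
⟨2, [⟨48, 4, []⟩, ⟨128, 2, []⟩], [3, 2, 2], 1, [(144, 1), (160, 1)]⟩,
⟨1, [⟨4, 2, []⟩, ⟨16, 2, []⟩], [3, 3, 3], 1, [(20, 1)]⟩,
⟨2, [⟨36, 3, []⟩, ⟨64, 3, []⟩], [3, 3], 1, [(68, 1), (96, 1)]⟩,
⟨1, [⟨96, 3, []⟩, ⟨8, 3, []⟩, ⟨128, 4, []⟩], [7, 3], 1, [(168, 1), (200, 1)]⟩,
⟨2, [⟨34, 5, []⟩, ⟨4, 3, []⟩, ⟨64, 5, []⟩], [2, 2], 1, [(70, 1), (100, 1)]⟩,
⟨1, [⟨65, 2, []⟩, ⟨128, 2, []⟩], [3, 3, 3], 1, [(129, 1), (192, 1)]⟩,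
⟨1, [⟨10, 4, []⟩, ⟨4, 3, []⟩, ⟨64, 3, []⟩], [7, 6], 1, [(70, 1), (76, 1)]⟩,
⟨1, [⟨32, 3, []⟩, ⟨128, 3, []⟩], [3, 3], 1, [(160, 1)]⟩,
⟨1, [⟨48, 2, []⟩, ⟨128, 2, []⟩], [3, 3, 3], 1, [(144, 1), (160, 1)]⟩,
⟨1, [⟨2, 3, []⟩, ⟨4, 4, []⟩, ⟨64, 3, []⟩], [7, 5], 1, [(70, 1)]⟩,
⟨1, [⟨40, 2, []⟩, ⟨64, 2, []⟩], [3, 3, 3], 1, [(72, 1), (96, 1)]⟩,
⟨2, [⟨98, 4, []⟩, ⟨128, 2, []⟩], [3, 2, 2], 1, [(130, 1), (160, 1), (192, 1)]⟩,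
⟨2, [⟨160, 3, []⟩, ⟨4, 3, []⟩], [3, 3], 1, [(36, 1), (132, 1)]⟩,
⟨2, [⟨18, 4, []⟩, ⟨72, 4, []⟩, ⟨32, 4, []⟩], [7], 1, [(42, 1), (56, 1), (98, 1), (112, 1)]⟩,
⟨1, [⟨0, 0, [(48, 2)]⟩, ⟨66, 2, []⟩], [3, 3, 3], 1, [(50, 1), (112, 1)]⟩,
⟨1, [⟨16, 3, []⟩, ⟨32, 3, []⟩, ⟨128, 4, []⟩], [7, 3], 1, [(176, 1)]⟩,
⟨2, [⟨36, 4, []⟩, ⟨0, 0, [(24, 2)]⟩], [3, 2, 2], 1, [(28, 1), (56, 1)]⟩,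
⟨2, [⟨18, 2, []⟩, ⟨160, 4, []⟩], [3, 1, 1], 1, [(34, 1), (48, 1), (130, 1), (144, 1)]⟩,
⟨1, [⟨18, 4, []⟩, ⟨4, 3, []⟩, ⟨128, 3, []⟩], [7, 6], 1, [(134, 1), (148, 1)]⟩,
⟨1, [⟨130, 3, []⟩, ⟨4, 3, []⟩, ⟨96, 4, []⟩], [7, 3], 1, [(38, 1), (70, 1), (164, 1), (196, 1)]⟩,
⟨2, [⟨4, 3, []⟩, ⟨66, 5, []⟩, ⟨152, 5, []⟩], [1, 1], 1, [(14, 1), (22, 1), (76, 1), (84, 1), (134, 1), (196, 1)]⟩,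
⟨0, [⟨1, 2, []⟩, ⟨24, 2, []⟩], [3, 3, 3], 1, [(9, 1), (17, 1)]⟩,
⟨1, [⟨42, 3, []⟩, ⟨16, 3, []⟩, ⟨128, 4, []⟩], [7, 3], 1, [(146, 1), (152, 1), (176, 1)]⟩,
⟨1, [⟨34, 3, []⟩, ⟨4, 4, []⟩, ⟨64, 3, []⟩], [7, 5], 1, [(70, 1), (100, 1)]⟩,
⟨2, [⟨2, 2, []⟩, ⟨8, 3, []⟩, ⟨16, 3, []⟩, ⟨32, 3, []⟩, ⟨64, 2, []⟩], [17, 17, 17, 14, 14], 2, [(56, 1), (66, 1), (122, 2)]⟩,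
⟨2, [⟨18, 4, []⟩, ⟨12, 4, []⟩, ⟨32, 4, []⟩], [7], 1, [(38, 1), (42, 1), (52, 1), (56, 1)]⟩,
⟨2, [⟨12, 4, []⟩, ⟨16, 4, []⟩, ⟨32, 4, []⟩], [7], 1, [(52, 1), (56, 1)]⟩,
⟨2, [⟨18, 5, []⟩, ⟨4, 3, []⟩, ⟨128, 5, []⟩], [2, 2], 1, [(134, 1), (148, 1)]⟩,
⟨1, [⟨36, 3, []⟩, ⟨16, 3, []⟩, ⟨128, 4, []⟩], [7, 3], 1, [(148, 1), (176, 1)]⟩,
⟨2, [⟨0, 0, [(24, 2)]⟩, ⟨64, 4, []⟩], [3, 1, 1], 1, [(88, 1)]⟩,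
⟨1, [⟨32, 2, []⟩, ⟨128, 2, []⟩], [3, 3, 3], 1, [(160, 1)]⟩,
⟨2, [⟨68, 4, []⟩, ⟨128, 2, []⟩], [3, 2, 2], 1, [(132, 1), (192, 1)]⟩,
⟨2, [⟨34, 2, []⟩, ⟨64, 4, []⟩], [3, 1, 1], 1, [(66, 1), (96, 1)]⟩,
⟨0, [⟨1, 2, []⟩, ⟨18, 2, []⟩], [3, 3, 3], 1, [(3, 1), (17, 1)]⟩,
⟨1, [⟨18, 4, []⟩, ⟨8, 3, []⟩, ⟨64, 3, []⟩], [7, 6], 1, [(74, 1), (88, 1)]⟩,
⟨2, [⟨2, 3, []⟩, ⟨4, 3, []⟩, ⟨16, 2, []⟩, ⟨32, 3, []⟩, ⟨64, 4, []⟩], [3, 3, 12, 12, 20], 2, [(38, 1), (70, 1), (112, 1), (118, 2)]⟩,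
⟨2, [⟨34, 4, []⟩, ⟨24, 4, []⟩, ⟨64, 4, []⟩], [7], 1, [(74, 1), (82, 1), (104, 1), (112, 1)]⟩,
⟨2, [⟨8, 3, []⟩, ⟨32, 3, []⟩], [3, 3], 1, [(40, 1)]⟩,
⟨2, [⟨34, 5, []⟩, ⟨16, 3, []⟩, ⟨64, 5, []⟩], [2, 2], 1, [(82, 1), (112, 1)]⟩,
⟨1, [⟨4, 3, []⟩, ⟨32, 3, []⟩, ⟨128, 4, []⟩], [7, 3], 1, [(164, 1)]⟩,
⟨2, [⟨4, 4, []⟩, ⟨64, 2, []⟩], [3, 2, 2], 1, [(68, 1)]⟩,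
⟨2, [⟨4, 2, []⟩, ⟨80, 4, []⟩], [3, 1, 1], 1, [(20, 1), (68, 1)]⟩,
⟨1, [⟨2, 2, []⟩, ⟨20, 2, []⟩], [3, 3, 3], 1, [(6, 1), (18, 1)]⟩,
⟨2, [⟨0, 0, [(48, 2)]⟩, ⟨128, 4, []⟩], [3, 1, 1], 1, [(176, 1)]⟩,
⟨2, [⟨34, 4, []⟩, ⟨4, 2, []⟩], [3, 2, 2], 1, [(6, 1), (36, 1)]⟩,
⟨2, [⟨66, 4, []⟩, ⟨4, 4, []⟩, ⟨128, 4, []⟩], [7], 1, [(134, 1), (196, 1)]⟩,
⟨2, [⟨0, 0, [(48, 2)]⟩, ⟨64, 4, []⟩], [3, 1, 1], 1, [(112, 1)]⟩,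
⟨1, [⟨12, 3, []⟩, ⟨2, 3, []⟩, ⟨128, 4, []⟩], [7, 3], 1, [(134, 1), (138, 1)]⟩,
⟨2, [⟨34, 4, []⟩, ⟨20, 4, []⟩, ⟨128, 4, []⟩], [7], 1, [(134, 1), (146, 1), (164, 1), (176, 1)]⟩,
⟨2, [⟨8, 3, []⟩, ⟨160, 3, []⟩], [3, 3], 1, [(40, 1), (136, 1)]⟩,
⟨2, [⟨18, 4, []⟩, ⟨4, 2, []⟩], [3, 2, 2], 1, [(6, 1), (20, 1)]⟩,
⟨2, [⟨9, 2, []⟩, ⟨144, 4, []⟩], [3, 1, 1], 1, [(17, 1), (24, 1), (129, 1), (136, 1)]⟩,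
⟨1, [⟨144, 3, []⟩, ⟨32, 3, []⟩, ⟨64, 4, []⟩], [7, 3], 1, [(112, 1), (224, 1)]⟩,
⟨2, [⟨32, 3, []⟩, ⟨128, 3, []⟩], [3, 3], 1, [(160, 1)]⟩,
⟨2, [⟨32, 3, []⟩, ⟨192, 3, []⟩], [3, 3], 1, [(96, 1), (160, 1)]⟩,
⟨2, [⟨66, 4, []⟩, ⟨128, 2, []⟩], [3, 2, 2], 1, [(130, 1), (192, 1)]⟩,
⟨2, [⟨16, 3, []⟩, ⟨32, 3, []⟩, ⟨2, 4, []⟩, ⟨4, 4, []⟩, ⟨64, 3, []⟩], [3, 3, 12, 16, 16], 2, [(54, 1), (70, 1), (112, 1), (118, 2)]⟩,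
⟨1, [⟨20, 3, []⟩, ⟨64, 3, []⟩, ⟨128, 4, []⟩], [7, 3], 1, [(196, 1), (208, 1)]⟩,
⟨2, [⟨20, 5, []⟩, ⟨32, 3, []⟩, ⟨64, 5, []⟩], [2, 2], 1, [(100, 1), (112, 1)]⟩,
⟨2, [⟨20, 3, []⟩, ⟨64, 3, []⟩], [3, 3], 1, [(68, 1), (80, 1)]⟩,
⟨1, [⟨4, 3, []⟩, ⟨2, 4, []⟩, ⟨64, 3, []⟩], [7, 5], 1, [(70, 1)]⟩,
⟨2, [⟨8, 2, []⟩, ⟨32, 2, []⟩, ⟨2, 2, []⟩, ⟨128, 2, []⟩], [3, 3, 3, 12, 12, 12], 2, [(40, 1), (130, 1), (170, 2)]⟩,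
⟨1, [⟨32, 2, []⟩, ⟨64, 4, []⟩], [3, 1, 1], 1, [(96, 1)]⟩,
⟨2, [⟨2, 2, []⟩, ⟨4, 2, []⟩, ⟨16, 3, []⟩, ⟨32, 3, []⟩, ⟨128, 5, []⟩], [3, 3, 3, 12, 12], 2, [(134, 1), (176, 1), (182, 2)]⟩,
⟨2, [⟨18, 3, []⟩, ⟨64, 3, []⟩], [3, 3], 1, [(66, 1), (80, 1)]⟩,
⟨2, [⟨6, 4, []⟩, ⟨0, 0, [(24, 2)]⟩], [3, 2, 2], 1, [(26, 1), (28, 1)]⟩,
⟨2, [⟨4, 3, []⟩, ⟨66, 5, []⟩, ⟨168, 5, []⟩], [1, 1], 1, [(14, 1), (38, 1), (76, 1), (100, 1), (134, 1), (196, 1)]⟩,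
⟨1, [⟨4, 3, []⟩, ⟨32, 3, []⟩, ⟨64, 4, []⟩], [7, 3], 1, [(100, 1)]⟩,
⟨2, [⟨0, 0, [(12, 2)]⟩, ⟨160, 4, []⟩], [3, 1, 1], 1, [(44, 1), (140, 1)]⟩,
⟨2, [⟨34, 3, []⟩, ⟨64, 3, []⟩], [3, 3], 1, [(66, 1), (96, 1)]⟩,
⟨1, [⟨32, 2, []⟩, ⟨68, 2, []⟩], [3, 3, 3], 1, [(36, 1), (96, 1)]⟩,
⟨2, [⟨0, 0, [(18, 2)]⟩, ⟨128, 4, []⟩], [3, 1, 1], 1, [(146, 1)]⟩,
⟨2, [⟨2, 2, []⟩, ⟨4, 2, []⟩, ⟨8, 3, []⟩, ⟨16, 3, []⟩, ⟨128, 5, []⟩], [3, 3, 3, 12, 12], 2, [(134, 1), (152, 1), (158, 2)]⟩,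
⟨1, [⟨2, 2, []⟩, ⟨32, 2, []⟩], [3, 3, 3], 1, [(34, 1)]⟩,
⟨1, [⟨18, 3, []⟩, ⟨32, 3, []⟩, ⟨128, 4, []⟩], [7, 3], 1, [(162, 1), (176, 1)]⟩,
⟨1, [⟨0, 0, [(20, 2)]⟩, ⟨32, 2, []⟩], [3, 3, 3], 1, [(52, 1)]⟩,
⟨1, [⟨4, 2, []⟩, ⟨96, 2, []⟩], [3, 3, 3], 1, [(36, 1), (68, 1)]⟩,
⟨1, [⟨10, 3, []⟩, ⟨4, 4, []⟩, ⟨64, 3, []⟩], [7, 5], 1, [(70, 1), (76, 1)]⟩,
⟨2, [⟨66, 2, []⟩, ⟨132, 4, []⟩], [3, 1, 1], 1, [(6, 1), (68, 1), (130, 1), (192, 1)]⟩,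
⟨0, [⟨8, 2, []⟩, ⟨18, 2, []⟩], [3, 3, 3], 1, [(10, 1), (24, 1)]⟩,
⟨2, [⟨33, 4, []⟩, ⟨0, 0, [(24, 2)]⟩], [3, 2, 2], 1, [(25, 1), (56, 1)]⟩,
⟨2, [⟨4, 2, []⟩, ⟨8, 3, []⟩, ⟨16, 3, []⟩, ⟨32, 3, []⟩, ⟨64, 2, []⟩], [17, 17, 17, 14, 14], 2, [(56, 1), (68, 1), (124, 2)]⟩,
⟨2, [⟨24, 4, []⟩, ⟨64, 2, []⟩], [3, 2, 2], 1, [(72, 1), (80, 1)]⟩,
⟨1, [⟨8, 2, []⟩, ⟨16, 2, []⟩], [3, 3, 3], 1, [(24, 1)]⟩,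
⟨1, [⟨132, 2, []⟩, ⟨64, 2, []⟩], [3, 3, 3], 1, [(68, 1), (192, 1)]⟩,
⟨2, [⟨6, 3, []⟩, ⟨64, 3, []⟩], [3, 3], 1, [(66, 1), (68, 1)]⟩,
⟨2, [⟨4, 3, []⟩, ⟨16, 3, []⟩], [3, 3], 1, [(20, 1)]⟩,
⟨2, [⟨2, 3, []⟩, ⟨4, 3, []⟩], [3, 3], 1, [(6, 1)]⟩,
⟨1, [⟨2, 3, []⟩, ⟨32, 3, []⟩, ⟨64, 4, []⟩], [7, 3], 1, [(98, 1)]⟩,
⟨0, [⟨1, 2, []⟩, ⟨34, 2, []⟩], [3, 3, 3], 1, [(3, 1), (33, 1)]⟩,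
⟨2, [⟨16, 3, []⟩, ⟨32, 3, []⟩, ⟨4, 2, []⟩, ⟨2, 3, []⟩, ⟨64, 4, []⟩], [3, 3, 12, 12, 20], 2, [(50, 1), (70, 1), (112, 1), (118, 2)]⟩,
⟨2, [⟨0, 0, [(36, 2)]⟩, ⟨128, 4, []⟩], [3, 1, 1], 1, [(164, 1)]⟩,
⟨2, [⟨2, 3, []⟩, ⟨4, 3, []⟩, ⟨48, 3, []⟩, ⟨8, 3, []⟩, ⟨64, 4, []⟩], [3, 3, 12, 12, 16], 2, [(30, 1), (46, 1), (70, 1), (88, 1), (94, 2), (104, 1), (110, 2)]⟩,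
⟨2, [⟨32, 3, []⟩, ⟨66, 3, []⟩], [3, 3], 1, [(34, 1), (96, 1)]⟩,
⟨1, [⟨3, 2, []⟩, ⟨64, 2, []⟩], [3, 3, 3], 1, [(65, 1), (66, 1)]⟩,
⟨1, [⟨64, 2, []⟩, ⟨128, 2, []⟩], [3, 3, 3], 1, [(192, 1)]⟩,
⟨2, [⟨0, 0, [(18, 2)]⟩, ⟨36, 4, []⟩], [3, 1, 1], 1, [(22, 1), (50, 1)]⟩,
⟨2, [⟨66, 4, []⟩, ⟨20, 4, []⟩, ⟨32, 4, []⟩], [7], 1, [(38, 1), (50, 1), (100, 1), (112, 1)]⟩,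
⟨1, [⟨12, 4, []⟩, ⟨16, 3, []⟩, ⟨128, 3, []⟩], [7, 6], 1, [(148, 1), (152, 1)]⟩,
⟨1, [⟨24, 4, []⟩, ⟨32, 3, []⟩, ⟨64, 3, []⟩], [7, 6], 1, [(104, 1), (112, 1)]⟩,
⟨2, [⟨2, 2, []⟩, ⟨128, 4, []⟩], [3, 1, 1], 1, [(130, 1)]⟩,
⟨1, [⟨40, 2, []⟩, ⟨128, 2, []⟩], [3, 3, 3], 1, [(136, 1), (160, 1)]⟩,
⟨2, [⟨0, 0, [(5, 2)]⟩, ⟨66, 4, []⟩], [3, 1, 1], 1, [(7, 1), (69, 1)]⟩,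
⟨2, [⟨6, 4, []⟩, ⟨16, 2, []⟩], [3, 2, 2], 1, [(18, 1), (20, 1)]⟩,
⟨2, [⟨24, 2, []⟩, ⟨96, 4, []⟩], [3, 1, 1], 1, [(40, 1), (48, 1), (72, 1), (80, 1)]⟩,
⟨1, [⟨20, 2, []⟩, ⟨64, 2, []⟩], [3, 3, 3], 1, [(68, 1), (80, 1)]⟩,
⟨1, [⟨2, 2, []⟩, ⟨4, 2, []⟩, ⟨16, 1, []⟩, ⟨128, 5, []⟩], [3, 3, 3, 4, 4, 4, 4], 2, [(134, 1), (144, 1), (150, 2)]⟩,
⟨2, [⟨8, 2, []⟩, ⟨128, 4, []⟩], [3, 1, 1], 1, [(136, 1)]⟩,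
⟨0, [⟨2, 2, []⟩, ⟨4, 2, []⟩], [3, 3, 3], 1, [(6, 1)]⟩,
⟨0, [⟨16, 2, []⟩, ⟨32, 2, []⟩], [3, 3, 3], 1, [(48, 1)]⟩,
⟨0, [⟨1, 2, []⟩, ⟨4, 2, []⟩], [3, 3, 3], 1, [(5, 1)]⟩,
⟨1, [⟨36, 2, []⟩, ⟨128, 2, []⟩], [3, 3, 3], 1, [(132, 1), (160, 1)]⟩,
⟨2, [⟨33, 4, []⟩, ⟨16, 2, []⟩], [3, 2, 2], 1, [(17, 1), (48, 1)]⟩,
⟨1, [⟨36, 3, []⟩, ⟨2, 3, []⟩, ⟨128, 4, []⟩], [7, 3], 1, [(134, 1), (162, 1)]⟩,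
⟨2, [⟨96, 4, []⟩, ⟨0, 0, [(6, 2)]⟩], [3, 2, 2], 1, [(38, 1), (70, 1)]⟩,
⟨0, [⟨1, 2, []⟩, ⟨80, 2, []⟩], [3, 3, 3], 1, [(17, 1), (65, 1)]⟩,
⟨1, [⟨50, 3, []⟩, ⟨8, 3, []⟩, ⟨128, 4, []⟩], [7, 3], 1, [(138, 1), (152, 1), (168, 1)]⟩,
⟨2, [⟨34, 2, []⟩, ⟨132, 4, []⟩], [3, 1, 1], 1, [(6, 1), (36, 1), (130, 1), (160, 1)]⟩,
⟨0, [⟨8, 2, []⟩, ⟨16, 2, []⟩], [3, 3, 3], 1, [(24, 1)]⟩,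
⟨0, [⟨8, 2, []⟩, ⟨32, 2, []⟩], [3, 3, 3], 1, [(40, 1)]⟩,
⟨2, [⟨68, 4, []⟩, ⟨0, 0, [(48, 2)]⟩], [3, 2, 2], 1, [(52, 1), (112, 1)]⟩,
⟨1, [⟨16, 2, []⟩, ⟨128, 2, []⟩], [3, 3, 3], 1, [(144, 1)]⟩,
⟨0, [⟨1, 2, []⟩, ⟨8, 2, []⟩], [3, 3, 3], 1, [(9, 1)]⟩,
⟨2, [⟨20, 4, []⟩, ⟨32, 2, []⟩], [3, 2, 2], 1, [(36, 1), (48, 1)]⟩,
⟨2, [⟨132, 4, []⟩, ⟨96, 2, []⟩], [3, 2, 2], 1, [(36, 1), (68, 1), (160, 1), (192, 1)]⟩,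
⟨1, [⟨34, 2, []⟩, ⟨64, 2, []⟩], [3, 3, 3], 1, [(66, 1), (96, 1)]⟩,
⟨1, [⟨8, 2, []⟩, ⟨96, 2, []⟩], [3, 3, 3], 1, [(40, 1), (72, 1)]⟩,
⟨1, [⟨34, 2, []⟩, ⟨128, 2, []⟩], [3, 3, 3], 1, [(130, 1), (160, 1)]⟩,
⟨2, [⟨16, 4, []⟩, ⟨64, 4, []⟩, ⟨128, 4, []⟩], [7], 1, [(208, 1)]⟩,
⟨2, [⟨144, 4, []⟩, ⟨68, 2, []⟩], [3, 2, 2], 1, [(20, 1), (80, 1), (132, 1), (192, 1)]⟩,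
⟨2, [⟨16, 2, []⟩, ⟨2, 2, []⟩, ⟨4, 2, []⟩, ⟨64, 2, []⟩], [9, 9, 9, 6, 6, 6], 2, [(6, 1), (80, 1), (86, 2)]⟩,
⟨2, [⟨40, 4, []⟩, ⟨64, 4, []⟩, ⟨128, 4, []⟩], [7], 1, [(200, 1), (224, 1)]⟩,
⟨1, [⟨68, 3, []⟩, ⟨2, 3, []⟩, ⟨128, 4, []⟩], [7, 3], 1, [(134, 1), (194, 1)]⟩,
⟨1, [⟨4, 2, []⟩, ⟨32, 2, []⟩], [3, 3, 3], 1, [(36, 1)]⟩,
⟨1, [⟨20, 3, []⟩, ⟨32, 3, []⟩, ⟨66, 4, []⟩], [7, 3], 1, [(38, 1), (50, 1), (100, 1), (112, 1)]⟩,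
⟨2, [⟨2, 3, []⟩, ⟨32, 3, []⟩], [3, 3], 1, [(34, 1)]⟩,
⟨1, [⟨4, 2, []⟩, ⟨72, 2, []⟩], [3, 3, 3], 1, [(12, 1), (68, 1)]⟩,
⟨2, [⟨68, 4, []⟩, ⟨24, 4, []⟩, ⟨32, 4, []⟩], [7], 1, [(44, 1), (52, 1), (104, 1), (112, 1)]⟩,
⟨2, [⟨24, 3, []⟩, ⟨64, 3, []⟩], [3, 3], 1, [(72, 1), (80, 1)]⟩,
⟨1, [⟨8, 3, []⟩, ⟨16, 3, []⟩, ⟨128, 4, []⟩], [7, 3], 1, [(152, 1)]⟩,
⟨0, [⟨1, 2, []⟩, ⟨16, 2, []⟩], [3, 3, 3], 1, [(17, 1)]⟩,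
⟨2, [⟨2, 3, []⟩, ⟨4, 3, []⟩, ⟨24, 3, []⟩, ⟨32, 3, []⟩, ⟨64, 4, []⟩], [3, 3, 12, 12, 16], 2, [(46, 1), (54, 1), (70, 1), (104, 1), (110, 2), (112, 1), (118, 2)]⟩,
⟨2, [⟨18, 4, []⟩, ⟨32, 4, []⟩, ⟨64, 4, []⟩], [7], 1, [(98, 1), (112, 1)]⟩,
⟨2, [⟨12, 4, []⟩, ⟨64, 4, []⟩, ⟨128, 4, []⟩], [7], 1, [(196, 1), (200, 1)]⟩,
⟨2, [⟨18, 5, []⟩, ⟨4, 3, []⟩, ⟨64, 5, []⟩], [2, 2], 1, [(70, 1), (84, 1)]⟩,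
⟨0, [⟨1, 2, []⟩, ⟨72, 2, []⟩], [3, 3, 3], 1, [(9, 1), (65, 1)]⟩,
⟨1, [⟨32, 2, []⟩, ⟨66, 2, []⟩], [3, 3, 3], 1, [(34, 1), (96, 1)]⟩,
⟨1, [⟨16, 2, []⟩, ⟨32, 2, []⟩, ⟨4, 1, []⟩, ⟨128, 5, []⟩], [3, 3, 3, 4, 4, 4, 4], 2, [(132, 1), (176, 1), (180, 2)]⟩,
⟨2, [⟨20, 4, []⟩, ⟨64, 4, []⟩, ⟨128, 4, []⟩], [7], 1, [(196, 1), (208, 1)]⟩,
⟨1, [⟨32, 3, []⟩, ⟨16, 4, []⟩, ⟨64, 3, []⟩], [7, 5], 1, [(112, 1)]⟩,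
⟨2, [⟨34, 4, []⟩, ⟨64, 2, []⟩], [3, 2, 2], 1, [(66, 1), (96, 1)]⟩,
⟨1, [⟨3, 2, []⟩, ⟨128, 2, []⟩], [3, 3, 3], 1, [(129, 1), (130, 1)]⟩,
⟨1, [⟨18, 3, []⟩, ⟨32, 3, []⟩, ⟨64, 4, []⟩], [7, 3], 1, [(98, 1), (112, 1)]⟩,
⟨1, [⟨96, 3, []⟩, ⟨4, 3, []⟩, ⟨128, 4, []⟩], [7, 3], 1, [(164, 1), (196, 1)]⟩,
⟨2, [⟨20, 2, []⟩, ⟨130, 4, []⟩], [3, 1, 1], 1, [(6, 1), (18, 1), (132, 1), (144, 1)]⟩,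
⟨2, [⟨34, 2, []⟩, ⟨128, 4, []⟩], [3, 1, 1], 1, [(130, 1), (160, 1)]⟩,
⟨1, [⟨2, 2, []⟩, ⟨128, 2, []⟩], [3, 3, 3], 1, [(130, 1)]⟩,
⟨2, [⟨6, 4, []⟩, ⟨32, 2, []⟩], [3, 2, 2], 1, [(34, 1), (36, 1)]⟩,
⟨2, [⟨4, 2, []⟩, ⟨64, 4, []⟩], [3, 1, 1], 1, [(68, 1)]⟩,
⟨2, [⟨48, 5, []⟩, ⟨4, 3, []⟩, ⟨64, 5, []⟩], [2, 2], 1, [(84, 1), (100, 1)]⟩,
⟨1, [⟨16, 2, []⟩, ⟨32, 2, []⟩, ⟨4, 1, []⟩, ⟨64, 5, []⟩], [3, 3, 3, 4, 4, 4, 4], 2, [(68, 1), (112, 1), (116, 2)]⟩,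
⟨1, [⟨20, 4, []⟩, ⟨2, 3, []⟩, ⟨64, 3, []⟩], [7, 6], 1, [(70, 1), (82, 1)]⟩,
⟨1, [⟨1, 2, []⟩, ⟨128, 2, []⟩], [3, 3, 3], 1, [(129, 1)]⟩,
⟨1, [⟨17, 3, []⟩, ⟨32, 3, []⟩, ⟨64, 4, []⟩], [7, 3], 1, [(97, 1), (112, 1)]⟩,
⟨2, [⟨40, 3, []⟩, ⟨64, 3, []⟩], [3, 3], 1, [(72, 1), (96, 1)]⟩,
⟨2, [⟨10, 4, []⟩, ⟨16, 4, []⟩, ⟨32, 4, []⟩], [7], 1, [(50, 1), (56, 1)]⟩,
⟨0, [⟨1, 2, []⟩, ⟨68, 2, []⟩], [3, 3, 3], 1, [(5, 1), (65, 1)]⟩,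
⟨1, [⟨36, 2, []⟩, ⟨64, 2, []⟩], [3, 3, 3], 1, [(68, 1), (96, 1)]⟩,
⟨1, [⟨129, 3, []⟩, ⟨2, 3, []⟩, ⟨80, 4, []⟩], [7, 3], 1, [(19, 1), (67, 1), (146, 1), (194, 1)]⟩,
⟨2, [⟨97, 4, []⟩, ⟨2, 4, []⟩, ⟨4, 4, []⟩], [7], 1, [(7, 1), (38, 1), (70, 1)]⟩,
⟨1, [⟨16, 2, []⟩, ⟨34, 2, []⟩], [3, 3, 3], 1, [(18, 1), (48, 1)]⟩,
⟨2, [⟨2, 2, []⟩, ⟨4, 2, []⟩, ⟨16, 2, []⟩, ⟨32, 2, []⟩], [3, 3, 3, 12, 12, 12], 2, [(6, 1), (48, 1), (54, 2)]⟩,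
⟨2, [⟨48, 4, []⟩, ⟨2, 2, []⟩], [3, 2, 2], 1, [(18, 1), (34, 1)]⟩,
⟨1, [⟨9, 2, []⟩, ⟨128, 2, []⟩], [3, 3, 3], 1, [(129, 1), (136, 1)]⟩,
⟨2, [⟨34, 4, []⟩, ⟨4, 4, []⟩, ⟨64, 4, []⟩], [7], 1, [(70, 1), (100, 1)]⟩,
⟨1, [⟨0, 0, [(6, 2)]⟩, ⟨128, 4, []⟩], [3, 1, 1], 1, [(134, 1)]⟩,
⟨1, [⟨4, 2, []⟩, ⟨18, 2, []⟩], [3, 3, 3], 1, [(6, 1), (20, 1)]⟩,
⟨2, [⟨32, 2, []⟩, ⟨128, 4, []⟩], [3, 1, 1], 1, [(160, 1)]⟩,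
⟨2, [⟨0, 0, [(34, 2)]⟩, ⟨64, 4, []⟩], [3, 1, 1], 1, [(98, 1)]⟩,
⟨2, [⟨18, 4, []⟩, ⟨33, 4, []⟩, ⟨4, 4, []⟩], [7], 1, [(7, 1), (21, 1), (38, 1), (52, 1)]⟩,
⟨2, [⟨66, 3, []⟩, ⟨160, 3, []⟩], [3, 3], 1, [(34, 1), (96, 1), (130, 1), (192, 1)]⟩,
⟨2, [⟨2, 3, []⟩, ⟨4, 3, []⟩, ⟨16, 2, []⟩, ⟨32, 3, []⟩, ⟨128, 4, []⟩], [3, 3, 12, 12, 20], 2, [(38, 1), (134, 1), (176, 1), (182, 2)]⟩,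
⟨1, [⟨40, 4, []⟩, ⟨16, 3, []⟩, ⟨128, 3, []⟩], [7, 6], 1, [(152, 1), (176, 1)]⟩,
⟨2, [⟨36, 4, []⟩, ⟨64, 2, []⟩], [3, 2, 2], 1, [(68, 1), (96, 1)]⟩,
⟨1, [⟨68, 3, []⟩, ⟨48, 3, []⟩, ⟨128, 4, []⟩], [7, 3], 1, [(148, 1), (164, 1), (208, 1), (224, 1)]⟩,
⟨2, [⟨2, 3, []⟩, ⟨64, 3, []⟩], [3, 3], 1, [(66, 1)]⟩,
⟨2, [⟨2, 2, []⟩, ⟨64, 4, []⟩], [3, 1, 1], 1, [(66, 1)]⟩,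
⟨2, [⟨4, 2, []⟩, ⟨96, 4, []⟩], [3, 1, 1], 1, [(36, 1), (68, 1)]⟩,
⟨1, [⟨0, 0, [(20, 2)]⟩, ⟨64, 4, []⟩], [3, 1, 1], 1, [(84, 1)]⟩,
⟨0, [⟨48, 2, []⟩, ⟨72, 2, []⟩], [3, 3, 3], 1, [(24, 1), (40, 1), (80, 1), (96, 1)]⟩,
⟨2, [⟨32, 2, []⟩, ⟨2, 2, []⟩, ⟨4, 2, []⟩, ⟨64, 2, []⟩], [9, 9, 9, 6, 6, 6], 2, [(6, 1), (96, 1), (102, 2)]⟩,
⟨1, [⟨16, 3, []⟩, ⟨64, 3, []⟩, ⟨128, 4, []⟩], [7, 3], 1, [(208, 1)]⟩,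
⟨1, [⟨2, 2, []⟩, ⟨4, 2, []⟩, ⟨32, 1, []⟩, ⟨128, 5, []⟩], [3, 3, 3, 4, 4, 4, 4], 2, [(134, 1), (160, 1), (166, 2)]⟩,
⟨1, [⟨2, 3, []⟩, ⟨4, 4, []⟩, ⟨192, 3, []⟩], [7, 5], 1, [(70, 1), (134, 1)]⟩,
⟨1, [⟨2, 2, []⟩, ⟨16, 2, []⟩], [3, 3, 3], 1, [(18, 1)]⟩,
⟨2, [⟨6, 4, []⟩, ⟨64, 2, []⟩], [3, 2, 2], 1, [(66, 1), (68, 1)]⟩,
⟨2, [⟨48, 4, []⟩, ⟨8, 2, []⟩], [3, 2, 2], 1, [(24, 1), (40, 1)]⟩,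
⟨2, [⟨10, 5, []⟩, ⟨32, 3, []⟩, ⟨128, 5, []⟩], [2, 2], 1, [(162, 1), (168, 1)]⟩,
⟨1, [⟨4, 2, []⟩, ⟨66, 2, []⟩], [3, 3, 3], 1, [(6, 1), (68, 1)]⟩,
⟨2, [⟨80, 3, []⟩, ⟨128, 3, []⟩], [3, 3], 1, [(144, 1), (192, 1)]⟩,
⟨2, [⟨36, 5, []⟩, ⟨16, 3, []⟩, ⟨64, 5, []⟩], [2, 2], 1, [(84, 1), (112, 1)]⟩,
⟨2, [⟨2, 2, []⟩, ⟨4, 2, []⟩, ⟨8, 2, []⟩, ⟨16, 2, []⟩], [3, 3, 3, 12, 12, 12], 2, [(6, 1), (24, 1), (30, 2)]⟩,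
⟨2, [⟨112, 4, []⟩, ⟨128, 2, []⟩], [3, 2, 2], 1, [(144, 1), (160, 1), (192, 1)]⟩,
⟨2, [⟨0, 0, [(48, 3)]⟩, ⟨64, 3, []⟩], [3, 3], 1, [(112, 1)]⟩,
⟨2, [⟨17, 2, []⟩, ⟨130, 4, []⟩], [3, 1, 1], 1, [(3, 1), (18, 1), (129, 1), (144, 1)]⟩,
⟨2, [⟨16, 2, []⟩, ⟨64, 4, []⟩], [3, 1, 1], 1, [(80, 1)]⟩,
⟨2, [⟨4, 2, []⟩, ⟨128, 4, []⟩], [3, 1, 1], 1, [(132, 1)]⟩,
⟨2, [⟨81, 4, []⟩, ⟨2, 4, []⟩, ⟨4, 4, []⟩], [7], 1, [(7, 1), (22, 1), (70, 1)]⟩,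
⟨2, [⟨2, 3, []⟩, ⟨4, 3, []⟩, ⟨40, 3, []⟩, ⟨16, 3, []⟩, ⟨64, 4, []⟩], [3, 3, 12, 12, 16], 2, [(30, 1), (54, 1), (70, 1), (88, 1), (94, 2), (112, 1), (118, 2)]⟩,
⟨2, [⟨64, 3, []⟩, ⟨128, 3, []⟩], [3, 3], 1, [(192, 1)]⟩,
⟨1, [⟨32, 2, []⟩, ⟨0, 0, [(192, 2)]⟩], [3, 3, 3], 1, [(224, 1)]⟩,
⟨2, [⟨2, 3, []⟩, ⟨64, 5, []⟩, ⟨128, 5, []⟩], [1, 1], 1, [(194, 1)]⟩,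
⟨1, [⟨96, 3, []⟩, ⟨2, 3, []⟩, ⟨128, 4, []⟩], [7, 3], 1, [(162, 1), (194, 1)]⟩,
⟨2, [⟨16, 2, []⟩, ⟨2, 3, []⟩, ⟨4, 3, []⟩, ⟨64, 3, []⟩, ⟨128, 4, []⟩], [9, 9, 17, 6, 6], 2, [(70, 1), (134, 1), (208, 1), (214, 2)]⟩,
⟨2, [⟨76, 4, []⟩, ⟨16, 4, []⟩, ⟨32, 4, []⟩], [7], 1, [(52, 1), (56, 1), (112, 1)]⟩,
⟨1, [⟨16, 3, []⟩, ⟨32, 4, []⟩, ⟨64, 3, []⟩], [7, 5], 1, [(112, 1)]⟩,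
⟨2, [⟨20, 2, []⟩, ⟨64, 4, []⟩], [3, 1, 1], 1, [(68, 1), (80, 1)]⟩,
⟨2, [⟨2, 3, []⟩, ⟨4, 3, []⟩, ⟨8, 3, []⟩, ⟨32, 3, []⟩, ⟨64, 4, []⟩], [3, 3, 12, 12, 16], 2, [(46, 1), (70, 1), (104, 1), (110, 2)]⟩,
⟨2, [⟨5, 2, []⟩, ⟨64, 4, []⟩], [3, 1, 1], 1, [(65, 1), (68, 1)]⟩,
⟨2, [⟨132, 3, []⟩, ⟨64, 3, []⟩], [3, 3], 1, [(68, 1), (192, 1)]⟩,
⟨2, [⟨16, 3, []⟩, ⟨32, 3, []⟩, ⟨2, 2, []⟩, ⟨4, 3, []⟩, ⟨64, 4, []⟩], [3, 3, 12, 12, 20], 2, [(52, 1), (70, 1), (112, 1), (118, 2)]⟩,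
⟨2, [⟨0, 0, [(3, 2)]⟩, ⟨68, 4, []⟩], [3, 1, 1], 1, [(7, 1), (67, 1)]⟩,
⟨1, [⟨2, 2, []⟩, ⟨48, 2, []⟩], [3, 3, 3], 1, [(18, 1), (34, 1)]⟩,
⟨2, [⟨36, 4, []⟩, ⟨24, 4, []⟩, ⟨64, 4, []⟩], [7], 1, [(76, 1), (84, 1), (104, 1), (112, 1)]⟩,
⟨2, [⟨10, 4, []⟩, ⟨36, 4, []⟩, ⟨128, 4, []⟩], [7], 1, [(134, 1), (140, 1), (162, 1), (168, 1)]⟩,
⟨1, [⟨2, 3, []⟩, ⟨4, 3, []⟩, ⟨80, 4, []⟩], [7, 3], 1, [(22, 1), (70, 1)]⟩,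
⟨1, [⟨10, 3, []⟩, ⟨4, 3, []⟩, ⟨128, 4, []⟩], [7, 3], 1, [(134, 1), (140, 1)]⟩,
⟨1, [⟨16, 3, []⟩, ⟨32, 3, []⟩, ⟨192, 4, []⟩], [7, 3], 1, [(112, 1), (176, 1)]⟩,
⟨1, [⟨2, 2, []⟩, ⟨4, 2, []⟩], [3, 3, 3], 1, [(6, 1)]⟩,
⟨1, [⟨16, 2, []⟩, ⟨66, 2, []⟩], [3, 3, 3], 1, [(18, 1), (80, 1)]⟩,
⟨2, [⟨80, 2, []⟩, ⟨128, 4, []⟩], [3, 1, 1], 1, [(144, 1), (192, 1)]⟩,
⟨2, [⟨96, 2, []⟩, ⟨136, 4, []⟩], [3, 1, 1], 1, [(40, 1), (72, 1), (160, 1), (192, 1)]⟩,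
⟨2, [⟨80, 3, []⟩, ⟨132, 3, []⟩], [3, 3], 1, [(20, 1), (68, 1), (144, 1), (192, 1)]⟩,
⟨2, [⟨0, 0, [(36, 2)]⟩, ⟨24, 4, []⟩], [3, 1, 1], 1, [(44, 1), (52, 1)]⟩,
⟨2, [⟨48, 4, []⟩, ⟨64, 2, []⟩], [3, 2, 2], 1, [(80, 1), (96, 1)]⟩,
⟨2, [⟨4, 4, []⟩, ⟨96, 4, []⟩, ⟨128, 4, []⟩], [7], 1, [(164, 1), (196, 1)]⟩,
⟨2, [⟨16, 3, []⟩, ⟨160, 3, []⟩], [3, 3], 1, [(48, 1), (144, 1)]⟩,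
⟨2, [⟨0, 0, [(66, 2)]⟩, ⟨4, 4, []⟩], [3, 1, 1], 1, [(70, 1)]⟩,
⟨1, [⟨18, 2, []⟩, ⟨64, 2, []⟩], [3, 3, 3], 1, [(66, 1), (80, 1)]⟩,
⟨2, [⟨34, 5, []⟩, ⟨20, 3, []⟩, ⟨64, 5, []⟩], [2, 2], 1, [(70, 1), (82, 1), (100, 1), (112, 1)]⟩,
⟨1, [⟨2, 2, []⟩, ⟨4, 2, []⟩, ⟨32, 1, []⟩, ⟨64, 5, []⟩], [3, 3, 3, 4, 4, 4, 4], 2, [(70, 1), (96, 1), (102, 2)]⟩,
⟨2, [⟨1, 2, []⟩, ⟨128, 4, []⟩], [3, 1, 1], 1, [(129, 1)]⟩,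
⟨2, [⟨4, 4, []⟩, ⟨64, 4, []⟩, ⟨128, 4, []⟩], [7], 1, [(196, 1)]⟩,
⟨2, [⟨0, 0, [(10, 2)]⟩, ⟨5, 4, []⟩], [3, 1, 1], 1, [(11, 1), (14, 1)]⟩,
⟨2, [⟨4, 3, []⟩, ⟨130, 3, []⟩], [3, 3], 1, [(6, 1), (132, 1)]⟩,
⟨2, [⟨104, 4, []⟩, ⟨128, 2, []⟩], [3, 2, 2], 1, [(136, 1), (160, 1), (192, 1)]⟩,
⟨1, [⟨8, 3, []⟩, ⟨32, 3, []⟩, ⟨192, 4, []⟩], [7, 3], 1, [(104, 1), (168, 1)]⟩,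
⟨0, [⟨1, 2, []⟩, ⟨2, 2, []⟩], [3, 3, 3], 1, [(3, 1)]⟩,
⟨1, [⟨33, 3, []⟩, ⟨16, 3, []⟩, ⟨128, 4, []⟩], [7, 3], 1, [(145, 1), (176, 1)]⟩,
⟨2, [⟨32, 3, []⟩, ⟨64, 5, []⟩, ⟨128, 5, []⟩], [1, 1], 1, [(224, 1)]⟩,
⟨2, [⟨0, 0, [(80, 2)]⟩, ⟨128, 4, []⟩], [3, 1, 1], 1, [(208, 1)]⟩,
⟨2, [⟨48, 3, []⟩, ⟨64, 3, []⟩], [3, 3], 1, [(80, 1), (96, 1)]⟩,
⟨2, [⟨8, 2, []⟩, ⟨64, 4, []⟩], [3, 1, 1], 1, [(72, 1)]⟩,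
⟨1, [⟨32, 3, []⟩, ⟨64, 3, []⟩, ⟨128, 4, []⟩], [7, 3], 1, [(224, 1)]⟩,
⟨2, [⟨80, 4, []⟩, ⟨32, 4, []⟩, ⟨128, 4, []⟩], [7], 1, [(176, 1), (224, 1)]⟩,
⟨2, [⟨33, 4, []⟩, ⟨2, 4, []⟩, ⟨4, 4, []⟩], [7], 1, [(7, 1), (38, 1)]⟩,
⟨1, [⟨32, 2, []⟩, ⟨64, 2, []⟩], [3, 3, 3], 1, [(96, 1)]⟩,
⟨2, [⟨24, 4, []⟩, ⟨32, 2, []⟩], [3, 2, 2], 1, [(40, 1), (48, 1)]⟩,
⟨0, [⟨2, 2, []⟩, ⟨72, 2, []⟩], [3, 3, 3], 1, [(10, 1), (66, 1)]⟩,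
⟨2, [⟨0, 0, [(18, 2)]⟩, ⟨64, 4, []⟩], [3, 1, 1], 1, [(82, 1)]⟩,
⟨1, [⟨36, 3, []⟩, ⟨8, 3, []⟩, ⟨64, 4, []⟩], [7, 3], 1, [(76, 1), (104, 1)]⟩,
⟨1, [⟨1, 2, []⟩, ⟨64, 2, []⟩], [3, 3, 3], 1, [(65, 1)]⟩,
⟨2, [⟨4, 2, []⟩, ⟨8, 2, []⟩, ⟨16, 2, []⟩, ⟨64, 2, []⟩], [9, 9, 9, 6, 6, 6], 2, [(24, 1), (68, 1), (92, 2)]⟩,
⟨1, [⟨12, 3, []⟩, ⟨2, 3, []⟩, ⟨64, 4, []⟩], [7, 3], 1, [(70, 1), (74, 1)]⟩,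
⟨2, [⟨20, 2, []⟩, ⟨128, 4, []⟩], [3, 1, 1], 1, [(132, 1), (144, 1)]⟩,
⟨1, [⟨66, 3, []⟩, ⟨16, 3, []⟩, ⟨128, 4, []⟩], [7, 3], 1, [(146, 1), (208, 1)]⟩,
⟨1, [⟨12, 2, []⟩, ⟨64, 2, []⟩], [3, 3, 3], 1, [(68, 1), (72, 1)]⟩,
⟨1, [⟨6, 2, []⟩, ⟨64, 2, []⟩], [3, 3, 3], 1, [(66, 1), (68, 1)]⟩,
⟨2, [⟨144, 3, []⟩, ⟨64, 3, []⟩], [3, 3], 1, [(80, 1), (192, 1)]⟩,
⟨1, [⟨66, 3, []⟩, ⟨4, 3, []⟩, ⟨128, 4, []⟩], [7, 3], 1, [(134, 1), (196, 1)]⟩,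
⟨1, [⟨18, 2, []⟩, ⟨128, 2, []⟩], [3, 3, 3], 1, [(130, 1), (144, 1)]⟩,
⟨1, [⟨40, 2, []⟩, ⟨16, 2, []⟩], [3, 3, 3], 1, [(24, 1), (48, 1)]⟩,
⟨2, [⟨18, 5, []⟩, ⟨4, 3, []⟩, ⟨40, 5, []⟩], [2, 2], 1, [(14, 1), (28, 1), (38, 1), (52, 1)]⟩,
⟨1, [⟨36, 3, []⟩, ⟨2, 4, []⟩, ⟨64, 3, []⟩], [7, 5], 1, [(70, 1), (98, 1)]⟩,
⟨1, [⟨66, 3, []⟩, ⟨48, 3, []⟩, ⟨128, 4, []⟩], [7, 3], 1, [(146, 1), (162, 1), (208, 1), (224, 1)]⟩,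
⟨1, [⟨96, 3, []⟩, ⟨6, 3, []⟩, ⟨128, 4, []⟩], [7, 3], 1, [(162, 1), (164, 1), (194, 1), (196, 1)]⟩,
⟨2, [⟨18, 2, []⟩, ⟨132, 4, []⟩], [3, 1, 1], 1, [(6, 1), (20, 1), (130, 1), (144, 1)]⟩,
⟨2, [⟨32, 2, []⟩, ⟨64, 4, []⟩], [3, 1, 1], 1, [(96, 1)]⟩,
⟨2, [⟨130, 2, []⟩, ⟨64, 4, []⟩], [3, 1, 1], 1, [(66, 1), (192, 1)]⟩,
⟨2, [⟨10, 5, []⟩, ⟨20, 5, []⟩, ⟨32, 3, []⟩], [4, 4], 1, [(38, 1), (44, 1), (50, 1), (56, 1)]⟩,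
⟨1, [⟨0, 0, [(80, 2)]⟩, ⟨128, 4, []⟩], [3, 1, 1], 1, [(208, 1)]⟩,
⟨2, [⟨18, 5, []⟩, ⟨32, 3, []⟩, ⟨128, 5, []⟩], [2, 2], 1, [(162, 1), (176, 1)]⟩,
⟨2, [⟨16, 2, []⟩, ⟨32, 2, []⟩, ⟨2, 2, []⟩, ⟨128, 2, []⟩], [3, 3, 3, 12, 12, 12], 2, [(48, 1), (130, 1), (178, 2)]⟩,
⟨2, [⟨82, 4, []⟩, ⟨128, 2, []⟩], [3, 2, 2], 1, [(130, 1), (144, 1), (192, 1)]⟩,
⟨2, [⟨34, 4, []⟩, ⟨4, 4, []⟩, ⟨128, 4, []⟩], [7], 1, [(134, 1), (164, 1)]⟩,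
⟨1, [⟨40, 4, []⟩, ⟨16, 3, []⟩, ⟨64, 3, []⟩], [7, 6], 1, [(88, 1), (112, 1)]⟩,
⟨2, [⟨6, 5, []⟩, ⟨32, 3, []⟩, ⟨64, 5, []⟩], [2, 2], 1, [(98, 1), (100, 1)]⟩,
⟨2, [⟨96, 4, []⟩, ⟨128, 2, []⟩], [3, 2, 2], 1, [(160, 1), (192, 1)]⟩,
⟨2, [⟨68, 4, []⟩, ⟨0, 0, [(24, 2)]⟩], [3, 2, 2], 1, [(28, 1), (88, 1)]⟩,
⟨2, [⟨96, 2, []⟩, ⟨144, 4, []⟩], [3, 1, 1], 1, [(48, 1), (80, 1), (160, 1), (192, 1)]⟩,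
⟨2, [⟨4, 2, []⟩, ⟨16, 3, []⟩, ⟨32, 3, []⟩, ⟨64, 3, []⟩, ⟨128, 4, []⟩], [9, 9, 17, 6, 6], 2, [(112, 1), (176, 1), (196, 1), (244, 2)]⟩,
⟨2, [⟨68, 3, []⟩, ⟨160, 3, []⟩], [3, 3], 1, [(36, 1), (96, 1), (132, 1), (192, 1)]⟩,
⟨2, [⟨5, 4, []⟩, ⟨2, 2, []⟩], [3, 2, 2], 1, [(3, 1), (6, 1)]⟩,
⟨1, [⟨16, 2, []⟩, ⟨3, 2, []⟩], [3, 3, 3], 1, [(17, 1), (18, 1)]⟩,
⟨2, [⟨2, 3, []⟩, ⟨16, 2, []⟩, ⟨32, 2, []⟩, ⟨64, 4, []⟩, ⟨128, 4, []⟩], [9, 17, 6, 6, 6], 2, [(112, 1), (176, 1), (194, 1), (242, 2)]⟩,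
⟨2, [⟨66, 4, []⟩, ⟨0, 0, [(48, 2)]⟩], [3, 2, 2], 1, [(50, 1), (112, 1)]⟩,
⟨2, [⟨18, 4, []⟩, ⟨64, 4, []⟩, ⟨128, 4, []⟩], [7], 1, [(194, 1), (208, 1)]⟩,
⟨2, [⟨68, 4, []⟩, ⟨0, 0, [(40, 2)]⟩], [3, 2, 2], 1, [(44, 1), (104, 1)]⟩,
⟨2, [⟨16, 3, []⟩, ⟨68, 3, []⟩], [3, 3], 1, [(20, 1), (80, 1)]⟩,
⟨1, [⟨6, 3, []⟩, ⟨16, 3, []⟩, ⟨128, 4, []⟩], [7, 3], 1, [(146, 1), (148, 1)]⟩,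
⟨2, [⟨8, 3, []⟩, ⟨64, 3, []⟩], [3, 3], 1, [(72, 1)]⟩,
⟨1, [⟨9, 3, []⟩, ⟨32, 3, []⟩, ⟨128, 4, []⟩], [7, 3], 1, [(161, 1), (168, 1)]⟩,
⟨2, [⟨65, 2, []⟩, ⟨128, 4, []⟩], [3, 1, 1], 1, [(129, 1), (192, 1)]⟩,
⟨2, [⟨48, 4, []⟩, ⟨4, 4, []⟩, ⟨64, 4, []⟩], [7], 1, [(84, 1), (100, 1)]⟩,
⟨2, [⟨160, 3, []⟩, ⟨64, 3, []⟩], [3, 3], 1, [(96, 1), (192, 1)]⟩,
⟨2, [⟨0, 0, [(96, 2)]⟩, ⟨16, 4, []⟩], [3, 1, 1], 1, [(112, 1)]⟩,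
⟨2, [⟨160, 4, []⟩, ⟨68, 2, []⟩], [3, 2, 2], 1, [(36, 1), (96, 1), (132, 1), (192, 1)]⟩,
⟨1, [⟨2, 3, []⟩, ⟨4, 3, []⟩, ⟨96, 4, []⟩], [7, 3], 1, [(38, 1), (70, 1)]⟩,
⟨1, [⟨0, 0, [(40, 2)]⟩, ⟨128, 4, []⟩], [3, 1, 1], 1, [(168, 1)]⟩,
⟨2, [⟨2, 3, []⟩, ⟨4, 3, []⟩, ⟨16, 4, []⟩, ⟨32, 4, []⟩, ⟨64, 3, []⟩], [3, 3, 12, 16, 16], 2, [(54, 1), (70, 1), (112, 1), (118, 2)]⟩,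
⟨1, [⟨18, 3, []⟩, ⟨64, 4, []⟩, ⟨128, 3, []⟩], [7, 5], 1, [(194, 1), (208, 1)]⟩,
⟨2, [⟨130, 3, []⟩, ⟨16, 3, []⟩], [3, 3], 1, [(18, 1), (144, 1)]⟩,
⟨2, [⟨20, 4, []⟩, ⟨2, 4, []⟩, ⟨128, 4, []⟩], [7], 1, [(134, 1), (146, 1)]⟩,
⟨2, [⟨18, 4, []⟩, ⟨36, 4, []⟩, ⟨128, 4, []⟩], [7], 1, [(134, 1), (148, 1), (162, 1), (176, 1)]⟩,
⟨0, [⟨8, 2, []⟩, ⟨80, 2, []⟩], [3, 3, 3], 1, [(24, 1), (72, 1)]⟩,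
⟨1, [⟨80, 3, []⟩, ⟨4, 3, []⟩, ⟨128, 4, []⟩], [7, 3], 1, [(148, 1), (196, 1)]⟩,
⟨2, [⟨6, 5, []⟩, ⟨16, 3, []⟩, ⟨64, 5, []⟩], [2, 2], 1, [(82, 1), (84, 1)]⟩,
⟨2, [⟨18, 2, []⟩, ⟨128, 4, []⟩], [3, 1, 1], 1, [(130, 1), (144, 1)]⟩,
⟨2, [⟨33, 2, []⟩, ⟨136, 4, []⟩], [3, 1, 1], 1, [(9, 1), (40, 1), (129, 1), (160, 1)]⟩,
⟨2, [⟨2, 3, []⟩, ⟨4, 3, []⟩, ⟨8, 2, []⟩, ⟨32, 3, []⟩, ⟨128, 4, []⟩], [3, 3, 12, 12, 20], 2, [(38, 1), (134, 1), (168, 1), (174, 2)]⟩,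
⟨0, [⟨16, 2, []⟩, ⟨96, 2, []⟩], [3, 3, 3], 1, [(48, 1), (80, 1)]⟩,
⟨2, [⟨32, 3, []⟩, ⟨2, 2, []⟩, ⟨4, 2, []⟩, ⟨64, 4, []⟩, ⟨128, 4, []⟩], [9, 17, 6, 6, 6], 2, [(70, 1), (134, 1), (224, 1), (230, 2)]⟩,
⟨2, [⟨84, 4, []⟩, ⟨128, 2, []⟩], [3, 2, 2], 1, [(132, 1), (144, 1), (192, 1)]⟩,
⟨2, [⟨65, 4, []⟩, ⟨128, 2, []⟩], [3, 2, 2], 1, [(129, 1), (192, 1)]⟩,
⟨2, [⟨66, 2, []⟩, ⟨128, 4, []⟩], [3, 1, 1], 1, [(130, 1), (192, 1)]⟩,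
⟨2, [⟨36, 2, []⟩, ⟨128, 4, []⟩], [3, 1, 1], 1, [(132, 1), (160, 1)]⟩,
⟨1, [⟨20, 3, []⟩, ⟨32, 3, []⟩, ⟨64, 4, []⟩], [7, 3], 1, [(100, 1), (112, 1)]⟩,
⟨0, [⟨1, 2, []⟩, ⟨66, 2, []⟩], [3, 3, 3], 1, [(3, 1), (65, 1)]⟩,
⟨2, [⟨4, 3, []⟩, ⟨192, 3, []⟩], [3, 3], 1, [(68, 1), (132, 1)]⟩,
⟨1, [⟨2, 2, []⟩, ⟨64, 4, []⟩], [3, 1, 1], 1, [(66, 1)]⟩,
⟨2, [⟨48, 2, []⟩, ⟨64, 4, []⟩], [3, 1, 1], 1, [(80, 1), (96, 1)]⟩,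
⟨2, [⟨0, 0, [(20, 2)]⟩, ⟨40, 4, []⟩], [3, 1, 1], 1, [(28, 1), (52, 1)]⟩,
⟨1, [⟨18, 4, []⟩, ⟨4, 3, []⟩, ⟨64, 3, []⟩], [7, 6], 1, [(70, 1), (84, 1)]⟩,
⟨1, [⟨12, 3, []⟩, ⟨32, 3, []⟩, ⟨128, 4, []⟩], [7, 3], 1, [(164, 1), (168, 1)]⟩,
⟨2, [⟨0, 0, [(34, 2)]⟩, ⟨20, 4, []⟩], [3, 1, 1], 1, [(38, 1), (50, 1)]⟩,
⟨2, [⟨0, 0, [(40, 2)]⟩, ⟨64, 4, []⟩], [3, 1, 1], 1, [(104, 1)]⟩,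
⟨2, [⟨36, 4, []⟩, ⟨64, 4, []⟩, ⟨128, 4, []⟩], [7], 1, [(196, 1), (224, 1)]⟩,
⟨2, [⟨10, 4, []⟩, ⟨20, 4, []⟩, ⟨32, 4, []⟩], [7], 1, [(38, 1), (44, 1), (50, 1), (56, 1)]⟩,
⟨1, [⟨33, 3, []⟩, ⟨64, 4, []⟩, ⟨128, 3, []⟩], [7, 5], 1, [(193, 1), (224, 1)]⟩,
⟨1, [⟨36, 3, []⟩, ⟨64, 4, []⟩, ⟨128, 3, []⟩], [7, 5], 1, [(196, 1), (224, 1)]⟩,
⟨2, [⟨16, 3, []⟩, ⟨32, 3, []⟩, ⟨2, 2, []⟩, ⟨4, 3, []⟩, ⟨128, 4, []⟩], [3, 3, 12, 12, 20], 2, [(52, 1), (134, 1), (176, 1), (182, 2)]⟩,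
⟨2, [⟨2, 3, []⟩, ⟨80, 3, []⟩], [3, 3], 1, [(18, 1), (66, 1)]⟩,
⟨2, [⟨6, 4, []⟩, ⟨32, 4, []⟩, ⟨64, 4, []⟩], [7], 1, [(98, 1), (100, 1)]⟩,
⟨2, [⟨72, 4, []⟩, ⟨34, 4, []⟩, ⟨4, 4, []⟩], [7], 1, [(14, 1), (44, 1), (70, 1), (100, 1)]⟩,
⟨1, [⟨66, 2, []⟩, ⟨128, 2, []⟩], [3, 3, 3], 1, [(130, 1), (192, 1)]⟩,
⟨2, [⟨20, 4, []⟩, ⟨64, 2, []⟩], [3, 2, 2], 1, [(68, 1), (80, 1)]⟩,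
⟨2, [⟨16, 2, []⟩, ⟨32, 2, []⟩, ⟨4, 3, []⟩, ⟨2, 4, []⟩, ⟨64, 4, []⟩], [3, 3, 3, 12, 20], 2, [(50, 1), (70, 1), (112, 1), (118, 2)]⟩,
⟨2, [⟨4, 3, []⟩, ⟨64, 3, []⟩], [3, 3], 1, [(68, 1)]⟩,
⟨2, [⟨48, 4, []⟩, ⟨4, 2, []⟩], [3, 2, 2], 1, [(20, 1), (36, 1)]⟩,
⟨2, [⟨20, 4, []⟩, ⟨33, 4, []⟩, ⟨2, 4, []⟩], [7], 1, [(7, 1), (19, 1), (38, 1), (50, 1)]⟩,
⟨2, [⟨48, 2, []⟩, ⟨128, 4, []⟩], [3, 1, 1], 1, [(144, 1), (160, 1)]⟩,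
⟨1, [⟨2, 3, []⟩, ⟨4, 3, []⟩, ⟨128, 4, []⟩], [7, 3], 1, [(134, 1)]⟩,
⟨2, [⟨98, 3, []⟩, ⟨128, 3, []⟩], [3, 3], 1, [(130, 1), (160, 1), (192, 1)]⟩,
⟨1, [⟨16, 2, []⟩, ⟨32, 2, []⟩], [3, 3, 3], 1, [(48, 1)]⟩,
⟨1, [⟨34, 3, []⟩, ⟨64, 4, []⟩, ⟨128, 3, []⟩], [7, 5], 1, [(194, 1), (224, 1)]⟩,
⟨1, [⟨33, 4, []⟩, ⟨16, 3, []⟩, ⟨64, 3, []⟩], [7, 6], 1, [(81, 1), (112, 1)]⟩,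
⟨2, [⟨2, 3, []⟩, ⟨192, 3, []⟩], [3, 3], 1, [(66, 1), (130, 1)]⟩,
⟨2, [⟨68, 2, []⟩, ⟨128, 4, []⟩], [3, 1, 1], 1, [(132, 1), (192, 1)]⟩,
⟨2, [⟨96, 4, []⟩, ⟨3, 4, []⟩, ⟨4, 4, []⟩], [7], 1, [(37, 1), (38, 1), (69, 1), (70, 1)]⟩,
⟨2, [⟨100, 4, []⟩, ⟨128, 2, []⟩], [3, 2, 2], 1, [(132, 1), (160, 1), (192, 1)]⟩,
⟨1, [⟨10, 2, []⟩, ⟨64, 2, []⟩], [3, 3, 3], 1, [(66, 1), (72, 1)]⟩,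
⟨1, [⟨16, 3, []⟩, ⟨32, 3, []⟩, ⟨64, 4, []⟩], [7, 3], 1, [(112, 1)]⟩,
⟨2, [⟨2, 2, []⟩, ⟨4, 2, []⟩, ⟨48, 4, []⟩, ⟨8, 3, []⟩, ⟨64, 4, []⟩], [3, 3, 3, 12, 24], 2, [(22, 1), (38, 1), (70, 1), (88, 1), (94, 2), (104, 1), (110, 2)]⟩,
⟨2, [⟨70, 4, []⟩, ⟨128, 2, []⟩], [3, 2, 2], 1, [(130, 1), (132, 1), (192, 1)]⟩,
⟨2, [⟨17, 2, []⟩, ⟨160, 4, []⟩], [3, 1, 1], 1, [(33, 1), (48, 1), (129, 1), (144, 1)]⟩,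
⟨1, [⟨4, 3, []⟩, ⟨64, 3, []⟩, ⟨128, 4, []⟩], [7, 3], 1, [(196, 1)]⟩,
⟨1, [⟨96, 2, []⟩, ⟨128, 2, []⟩], [3, 3, 3], 1, [(160, 1), (192, 1)]⟩,
⟨2, [⟨8, 3, []⟩, ⟨16, 3, []⟩], [3, 3], 1, [(24, 1)]⟩,
⟨2, [⟨96, 3, []⟩, ⟨16, 3, []⟩], [3, 3], 1, [(48, 1), (80, 1)]⟩,
⟨2, [⟨68, 3, []⟩, ⟨128, 3, []⟩], [3, 3], 1, [(132, 1), (192, 1)]⟩,
⟨2, [⟨34, 4, []⟩, ⟨64, 4, []⟩, ⟨128, 4, []⟩], [7], 1, [(194, 1), (224, 1)]⟩,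
⟨0, [⟨8, 2, []⟩, ⟨66, 2, []⟩], [3, 3, 3], 1, [(10, 1), (72, 1)]⟩,
⟨1, [⟨130, 3, []⟩, ⟨4, 4, []⟩, ⟨64, 3, []⟩], [7, 5], 1, [(70, 1), (196, 1)]⟩,
⟨1, [⟨10, 2, []⟩, ⟨128, 2, []⟩], [3, 3, 3], 1, [(130, 1), (136, 1)]⟩,
⟨1, [⟨34, 3, []⟩, ⟨16, 3, []⟩, ⟨64, 4, []⟩], [7, 3], 1, [(82, 1), (112, 1)]⟩,
⟨2, [⟨0, 0, [(96, 2)]⟩, ⟨128, 4, []⟩], [3, 1, 1], 1, [(224, 1)]⟩,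
⟨1, [⟨24, 4, []⟩, ⟨32, 3, []⟩, ⟨128, 3, []⟩], [7, 6], 1, [(168, 1), (176, 1)]⟩,
⟨1, [⟨0, 0, [(66, 2)]⟩, ⟨128, 4, []⟩], [3, 1, 1], 1, [(194, 1)]⟩,
⟨0, [⟨6, 2, []⟩, ⟨1, 2, []⟩], [3, 3, 3], 1, [(3, 1), (5, 1)]⟩,
⟨1, [⟨6, 2, []⟩, ⟨48, 2, []⟩], [3, 3, 3], 1, [(18, 1), (20, 1), (34, 1), (36, 1)]⟩,
⟨1, [⟨68, 2, []⟩, ⟨128, 2, []⟩], [3, 3, 3], 1, [(132, 1), (192, 1)]⟩,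
⟨2, [⟨18, 2, []⟩, ⟨64, 4, []⟩], [3, 1, 1], 1, [(66, 1), (80, 1)]⟩,
⟨2, [⟨49, 4, []⟩, ⟨2, 4, []⟩, ⟨4, 4, []⟩], [7], 1, [(7, 1), (22, 1), (38, 1)]⟩,
⟨2, [⟨2, 3, []⟩, ⟨4, 3, []⟩, ⟨8, 2, []⟩, ⟨48, 3, []⟩, ⟨64, 4, []⟩], [3, 3, 12, 12, 20], 2, [(22, 1), (38, 1), (70, 1), (88, 1), (94, 2), (104, 1), (110, 2)]⟩,
⟨1, [⟨36, 3, []⟩, ⟨16, 3, []⟩, ⟨64, 4, []⟩], [7, 3], 1, [(84, 1), (112, 1)]⟩,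
⟨0, [⟨40, 2, []⟩, ⟨80, 2, []⟩], [3, 3, 3], 1, [(24, 1), (48, 1), (72, 1), (96, 1)]⟩,
⟨2, [⟨0, 0, [(6, 2)]⟩, ⟨64, 4, []⟩], [3, 1, 1], 1, [(70, 1)]⟩,
⟨2, [⟨80, 4, []⟩, ⟨5, 4, []⟩, ⟨2, 4, []⟩], [7], 1, [(19, 1), (22, 1), (67, 1), (70, 1)]⟩,
⟨1, [⟨17, 3, []⟩, ⟨32, 3, []⟩, ⟨128, 4, []⟩], [7, 3], 1, [(161, 1), (176, 1)]⟩,
⟨2, [⟨12, 4, []⟩, ⟨48, 4, []⟩, ⟨128, 4, []⟩], [7], 1, [(148, 1), (152, 1), (164, 1), (168, 1)]⟩,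
⟨2, [⟨8, 2, []⟩, ⟨32, 2, []⟩, ⟨2, 3, []⟩, ⟨4, 3, []⟩, ⟨128, 5, []⟩], [3, 3, 3, 12, 12], 2, [(134, 1), (168, 1), (174, 2)]⟩,
⟨0, [⟨24, 2, []⟩, ⟨96, 2, []⟩], [3, 3, 3], 1, [(40, 1), (48, 1), (72, 1), (80, 1)]⟩,
⟨2, [⟨33, 4, []⟩, ⟨68, 4, []⟩, ⟨2, 4, []⟩], [7], 1, [(7, 1), (38, 1), (67, 1), (98, 1)]⟩,
⟨2, [⟨74, 4, []⟩, ⟨16, 4, []⟩, ⟨32, 4, []⟩], [7], 1, [(50, 1), (56, 1), (112, 1)]⟩,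
⟨2, [⟨160, 4, []⟩, ⟨66, 2, []⟩], [3, 2, 2], 1, [(34, 1), (96, 1), (130, 1), (192, 1)]⟩,
⟨2, [⟨2, 2, []⟩, ⟨96, 4, []⟩], [3, 1, 1], 1, [(34, 1), (66, 1)]⟩,
⟨1, [⟨16, 2, []⟩, ⟨96, 2, []⟩], [3, 3, 3], 1, [(48, 1), (80, 1)]⟩,
⟨2, [⟨6, 2, []⟩, ⟨64, 4, []⟩], [3, 1, 1], 1, [(66, 1), (68, 1)]⟩,
⟨1, [⟨4, 2, []⟩, ⟨34, 2, []⟩], [3, 3, 3], 1, [(6, 1), (36, 1)]⟩,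
⟨1, [⟨72, 3, []⟩, ⟨16, 3, []⟩, ⟨128, 4, []⟩], [7, 3], 1, [(152, 1), (208, 1)]⟩,
⟨1, [⟨4, 2, []⟩, ⟨64, 2, []⟩], [3, 3, 3], 1, [(68, 1)]⟩,
⟨1, [⟨16, 2, []⟩, ⟨64, 2, []⟩], [3, 3, 3], 1, [(80, 1)]⟩,
⟨1, [⟨18, 3, []⟩, ⟨64, 3, []⟩, ⟨128, 4, []⟩], [7, 3], 1, [(194, 1), (208, 1)]⟩,
⟨1, [⟨2, 3, []⟩, ⟨4, 3, []⟩, ⟨64, 4, []⟩], [7, 3], 1, [(70, 1)]⟩,
⟨1, [⟨34, 3, []⟩, ⟨4, 3, []⟩, ⟨64, 4, []⟩], [7, 3], 1, [(70, 1), (100, 1)]⟩,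
⟨1, [⟨4, 3, []⟩, ⟨0, 0, [(130, 3)]⟩], [3, 3], 1, [(134, 1)]⟩,
⟨2, [⟨96, 2, []⟩, ⟨128, 4, []⟩], [3, 1, 1], 1, [(160, 1), (192, 1)]⟩,
⟨2, [⟨32, 4, []⟩, ⟨64, 4, []⟩, ⟨128, 4, []⟩], [7], 1, [(224, 1)]⟩,
⟨2, [⟨16, 2, []⟩, ⟨32, 2, []⟩, ⟨2, 3, []⟩, ⟨4, 4, []⟩, ⟨64, 4, []⟩], [3, 3, 3, 12, 20], 2, [(52, 1), (70, 1), (112, 1), (118, 2)]⟩,
⟨2, [⟨6, 4, []⟩, ⟨128, 2, []⟩], [3, 2, 2], 1, [(130, 1), (132, 1)]⟩,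
⟨2, [⟨144, 2, []⟩, ⟨64, 4, []⟩], [3, 1, 1], 1, [(80, 1), (192, 1)]⟩,
⟨2, [⟨2, 3, []⟩, ⟨16, 3, []⟩], [3, 3], 1, [(18, 1)]⟩,
⟨2, [⟨68, 2, []⟩, ⟨130, 4, []⟩], [3, 1, 1], 1, [(6, 1), (66, 1), (132, 1), (192, 1)]⟩,
⟨0, [⟨8, 3, []⟩, ⟨16, 3, []⟩, ⟨65, 4, []⟩], [7, 3], 1, [(25, 1), (88, 1)]⟩,
⟨2, [⟨34, 3, []⟩, ⟨4, 3, []⟩], [3, 3], 1, [(6, 1), (36, 1)]⟩,
⟨2, [⟨4, 3, []⟩, ⟨128, 3, []⟩], [3, 3], 1, [(132, 1)]⟩,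
⟨1, [⟨12, 2, []⟩, ⟨128, 2, []⟩], [3, 3, 3], 1, [(132, 1), (136, 1)]⟩,
⟨2, [⟨2, 3, []⟩, ⟨4, 3, []⟩, ⟨32, 2, []⟩, ⟨16, 3, []⟩, ⟨64, 4, []⟩], [3, 3, 12, 12, 20], 2, [(22, 1), (70, 1), (112, 1), (118, 2)]⟩,
⟨2, [⟨10, 5, []⟩, ⟨4, 3, []⟩, ⟨48, 5, []⟩], [2, 2], 1, [(22, 1), (28, 1), (38, 1), (44, 1)]⟩,
⟨1, [⟨12, 3, []⟩, ⟨64, 3, []⟩, ⟨128, 4, []⟩], [7, 3], 1, [(196, 1), (200, 1)]⟩,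
⟨2, [⟨96, 3, []⟩, ⟨128, 3, []⟩], [3, 3], 1, [(160, 1), (192, 1)]⟩,
⟨2, [⟨2, 3, []⟩, ⟨132, 3, []⟩], [3, 3], 1, [(6, 1), (130, 1)]⟩,
⟨2, [⟨3, 2, []⟩, ⟨68, 4, []⟩], [3, 1, 1], 1, [(5, 1), (6, 1), (65, 1), (66, 1)]⟩,
⟨2, [⟨2, 3, []⟩, ⟨4, 3, []⟩, ⟨16, 3, []⟩, ⟨32, 3, []⟩, ⟨128, 4, []⟩], [3, 3, 12, 12, 16], 2, [(54, 1), (134, 1), (176, 1), (182, 2)]⟩,
⟨1, [⟨2, 3, []⟩, ⟨4, 3, []⟩, ⟨192, 4, []⟩], [7, 3], 1, [(70, 1), (134, 1)]⟩,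
⟨1, [⟨132, 3, []⟩, ⟨2, 3, []⟩, ⟨64, 4, []⟩], [7, 3], 1, [(70, 1), (194, 1)]⟩,
⟨1, [⟨4, 2, []⟩, ⟨64, 4, []⟩], [3, 1, 1], 1, [(68, 1)]⟩,
⟨1, [⟨4, 2, []⟩, ⟨0, 0, [(192, 2)]⟩], [3, 3, 3], 1, [(196, 1)]⟩,
⟨1, [⟨4, 2, []⟩, ⟨48, 2, []⟩], [3, 3, 3], 1, [(20, 1), (36, 1)]⟩,
⟨1, [⟨4, 2, []⟩, ⟨8, 2, []⟩], [3, 3, 3], 1, [(12, 1)]⟩,
⟨2, [⟨18, 4, []⟩, ⟨32, 2, []⟩], [3, 2, 2], 1, [(34, 1), (48, 1)]⟩,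
⟨2, [⟨4, 4, []⟩, ⟨48, 4, []⟩, ⟨128, 4, []⟩], [7], 1, [(148, 1), (164, 1)]⟩,
⟨2, [⟨34, 4, []⟩, ⟨0, 0, [(24, 2)]⟩], [3, 2, 2], 1, [(26, 1), (56, 1)]⟩,
⟨1, [⟨20, 3, []⟩, ⟨2, 3, []⟩, ⟨64, 4, []⟩], [7, 3], 1, [(70, 1), (82, 1)]⟩,
⟨2, [⟨164, 4, []⟩, ⟨64, 2, []⟩], [3, 2, 2], 1, [(68, 1), (96, 1), (192, 1)]⟩,
⟨2, [⟨20, 4, []⟩, ⟨32, 4, []⟩, ⟨64, 4, []⟩], [7], 1, [(100, 1), (112, 1)]⟩,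
⟨2, [⟨0, 0, [(20, 2)]⟩, ⟨128, 4, []⟩], [3, 1, 1], 1, [(148, 1)]⟩,
⟨0, [⟨8, 2, []⟩, ⟨96, 2, []⟩], [3, 3, 3], 1, [(40, 1), (72, 1)]⟩,
⟨2, [⟨2, 4, []⟩, ⟨64, 4, []⟩, ⟨128, 4, []⟩], [7], 1, [(194, 1)]⟩,
⟨1, [⟨65, 3, []⟩, ⟨48, 3, []⟩, ⟨128, 4, []⟩], [7, 3], 1, [(145, 1), (161, 1), (208, 1), (224, 1)]⟩,
⟨1, [⟨8, 2, []⟩, ⟨32, 2, []⟩], [3, 3, 3], 1, [(40, 1)]⟩,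
⟨1, [⟨4, 2, []⟩, ⟨24, 2, []⟩], [3, 3, 3], 1, [(12, 1), (20, 1)]⟩,
⟨2, [⟨146, 4, []⟩, ⟨64, 2, []⟩], [3, 2, 2], 1, [(66, 1), (80, 1), (192, 1)]⟩,
⟨1, [⟨160, 2, []⟩, ⟨64, 2, []⟩], [3, 3, 3], 1, [(96, 1), (192, 1)]⟩,
⟨1, [⟨4, 4, []⟩, ⟨32, 3, []⟩, ⟨128, 3, []⟩], [7, 6], 1, [(164, 1)]⟩,
⟨1, [⟨130, 3, []⟩, ⟨4, 3, []⟩, ⟨80, 4, []⟩], [7, 3], 1, [(22, 1), (70, 1), (148, 1), (196, 1)]⟩,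
⟨2, [⟨5, 4, []⟩, ⟨96, 4, []⟩, ⟨16, 4, []⟩], [7], 1, [(49, 1), (52, 1), (81, 1), (84, 1)]⟩,
⟨1, [⟨8, 3, []⟩, ⟨16, 3, []⟩, ⟨64, 4, []⟩], [7, 3], 1, [(88, 1)]⟩,
⟨2, [⟨68, 4, []⟩, ⟨33, 4, []⟩, ⟨16, 4, []⟩], [7], 1, [(21, 1), (52, 1), (81, 1), (112, 1)]⟩,
⟨2, [⟨36, 2, []⟩, ⟨130, 4, []⟩], [3, 1, 1], 1, [(6, 1), (34, 1), (132, 1), (160, 1)]⟩,
⟨2, [⟨4, 3, []⟩, ⟨80, 3, []⟩], [3, 3], 1, [(20, 1), (68, 1)]⟩,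
⟨1, [⟨80, 2, []⟩, ⟨128, 2, []⟩], [3, 3, 3], 1, [(144, 1), (192, 1)]⟩,
⟨2, [⟨20, 4, []⟩, ⟨2, 2, []⟩], [3, 2, 2], 1, [(6, 1), (18, 1)]⟩,
⟨0, [⟨1, 2, []⟩, ⟨10, 2, []⟩], [3, 3, 3], 1, [(3, 1), (9, 1)]⟩,
⟨1, [⟨2, 2, []⟩, ⟨64, 2, []⟩], [3, 3, 3], 1, [(66, 1)]⟩,
⟨2, [⟨2, 3, []⟩, ⟨4, 3, []⟩, ⟨16, 3, []⟩, ⟨32, 3, []⟩, ⟨64, 4, []⟩], [3, 3, 12, 12, 16], 2, [(54, 1), (70, 1), (112, 1), (118, 2)]⟩,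
⟨1, [⟨4, 3, []⟩, ⟨16, 3, []⟩, ⟨128, 4, []⟩], [7, 3], 1, [(148, 1)]⟩,
⟨2, [⟨16, 3, []⟩, ⟨128, 3, []⟩], [3, 3], 1, [(144, 1)]⟩,
⟨2, [⟨16, 3, []⟩, ⟨32, 3, []⟩, ⟨4, 2, []⟩, ⟨2, 3, []⟩, ⟨128, 4, []⟩], [3, 3, 12, 12, 20], 2, [(50, 1), (134, 1), (176, 1), (182, 2)]⟩,
⟨2, [⟨17, 4, []⟩, ⟨2, 4, []⟩, ⟨4, 4, []⟩], [7], 1, [(7, 1), (22, 1)]⟩,
⟨2, [⟨34, 5, []⟩, ⟨4, 3, []⟩, ⟨128, 5, []⟩], [2, 2], 1, [(134, 1), (164, 1)]⟩,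
⟨2, [⟨20, 5, []⟩, ⟨32, 3, []⟩, ⟨128, 5, []⟩], [2, 2], 1, [(164, 1), (176, 1)]⟩,
⟨1, [⟨80, 3, []⟩, ⟨6, 3, []⟩, ⟨128, 4, []⟩], [7, 3], 1, [(146, 1), (148, 1), (194, 1), (196, 1)]⟩,
⟨1, [⟨16, 2, []⟩, ⟨32, 2, []⟩, ⟨2, 1, []⟩, ⟨128, 5, []⟩], [3, 3, 3, 4, 4, 4, 4], 2, [(130, 1), (176, 1), (178, 2)]⟩,
⟨1, [⟨5, 2, []⟩, ⟨128, 2, []⟩], [3, 3, 3], 1, [(129, 1), (132, 1)]⟩,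
⟨1, [⟨16, 2, []⟩, ⟨68, 2, []⟩], [3, 3, 3], 1, [(20, 1), (80, 1)]⟩,
⟨2, [⟨66, 4, []⟩, ⟨24, 4, []⟩, ⟨32, 4, []⟩], [7], 1, [(42, 1), (50, 1), (104, 1), (112, 1)]⟩,
⟨2, [⟨2, 2, []⟩, ⟨4, 2, []⟩, ⟨16, 2, []⟩, ⟨128, 2, []⟩], [3, 3, 3, 12, 12, 12], 2, [(6, 1), (144, 1), (150, 2)]⟩,
⟨2, [⟨72, 4, []⟩, ⟨18, 4, []⟩, ⟨4, 4, []⟩], [7], 1, [(14, 1), (28, 1), (70, 1), (84, 1)]⟩,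
⟨2, [⟨32, 2, []⟩, ⟨2, 3, []⟩, ⟨4, 3, []⟩, ⟨64, 3, []⟩, ⟨128, 4, []⟩], [9, 9, 17, 6, 6], 2, [(70, 1), (134, 1), (224, 1), (230, 2)]⟩,
⟨2, [⟨48, 4, []⟩, ⟨66, 4, []⟩, ⟨4, 4, []⟩], [7], 1, [(22, 1), (38, 1), (84, 1), (100, 1)]⟩,
⟨1, [⟨0, 0, [(96, 2)]⟩, ⟨128, 4, []⟩], [3, 1, 1], 1, [(224, 1)]⟩,
⟨1, [⟨16, 3, []⟩, ⟨32, 4, []⟩, ⟨128, 3, []⟩], [7, 5], 1, [(176, 1)]⟩,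
⟨2, [⟨5, 3, []⟩, ⟨64, 3, []⟩], [3, 3], 1, [(65, 1), (68, 1)]⟩,
⟨2, [⟨16, 2, []⟩, ⟨128, 4, []⟩], [3, 1, 1], 1, [(144, 1)]⟩,
⟨1, [⟨16, 2, []⟩, ⟨36, 2, []⟩], [3, 3, 3], 1, [(20, 1), (48, 1)]⟩,
⟨2, [⟨2, 3, []⟩, ⟨4, 3, []⟩, ⟨8, 3, []⟩, ⟨32, 3, []⟩, ⟨128, 4, []⟩], [3, 3, 12, 12, 16], 2, [(46, 1), (134, 1), (168, 1), (174, 2)]⟩,
⟨1, [⟨16, 2, []⟩, ⟨32, 2, []⟩, ⟨2, 1, []⟩, ⟨64, 5, []⟩], [3, 3, 3, 4, 4, 4, 4], 2, [(66, 1), (112, 1), (114, 2)]⟩,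
⟨2, [⟨6, 4, []⟩, ⟨64, 4, []⟩, ⟨128, 4, []⟩], [7], 1, [(194, 1), (196, 1)]⟩,
⟨2, [⟨3, 3, []⟩, ⟨64, 3, []⟩], [3, 3], 1, [(65, 1), (66, 1)]⟩,
⟨2, [⟨32, 2, []⟩, ⟨68, 4, []⟩], [3, 1, 1], 1, [(36, 1), (96, 1)]⟩,
⟨1, [⟨129, 3, []⟩, ⟨4, 4, []⟩, ⟨64, 3, []⟩], [7, 5], 1, [(69, 1), (196, 1)]⟩,
⟨1, [⟨160, 3, []⟩, ⟨16, 3, []⟩, ⟨64, 4, []⟩], [7, 3], 1, [(112, 1), (208, 1)]⟩,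
⟨2, [⟨66, 3, []⟩, ⟨4, 3, []⟩], [3, 3], 1, [(6, 1), (68, 1)]⟩,
⟨2, [⟨2, 3, []⟩, ⟨128, 3, []⟩], [3, 3], 1, [(130, 1)]⟩,
⟨2, [⟨2, 4, []⟩, ⟨96, 4, []⟩, ⟨128, 4, []⟩], [7], 1, [(162, 1), (194, 1)]⟩,
⟨1, [⟨20, 4, []⟩, ⟨32, 3, []⟩, ⟨128, 3, []⟩], [7, 6], 1, [(164, 1), (176, 1)]⟩,
⟨1, [⟨12, 2, []⟩, ⟨3, 2, []⟩], [3, 3, 3], 1, [(5, 1), (6, 1), (9, 1), (10, 1)]⟩,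
⟨0, [⟨1, 2, []⟩, ⟨20, 2, []⟩], [3, 3, 3], 1, [(5, 1), (17, 1)]⟩,
⟨0, [⟨1, 2, []⟩, ⟨12, 2, []⟩], [3, 3, 3], 1, [(5, 1), (9, 1)]⟩,
⟨1, [⟨34, 3, []⟩, ⟨4, 3, []⟩, ⟨128, 4, []⟩], [7, 3], 1, [(134, 1), (164, 1)]⟩,
⟨1, [⟨8, 2, []⟩, ⟨64, 2, []⟩], [3, 3, 3], 1, [(72, 1)]⟩,
⟨1, [⟨34, 3, []⟩, ⟨16, 3, []⟩, ⟨128, 4, []⟩], [7, 3], 1, [(146, 1), (176, 1)]⟩,
⟨2, [⟨2, 2, []⟩, ⟨4, 2, []⟩, ⟨32, 2, []⟩, ⟨128, 2, []⟩], [3, 3, 3, 12, 12, 12], 2, [(6, 1), (160, 1), (166, 2)]⟩,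
⟨2, [⟨4, 3, []⟩, ⟨96, 3, []⟩], [3, 3], 1, [(36, 1), (68, 1)]⟩,
⟨1, [⟨72, 2, []⟩, ⟨128, 2, []⟩], [3, 3, 3], 1, [(136, 1), (192, 1)]⟩,
⟨2, [⟨130, 4, []⟩, ⟨80, 2, []⟩], [3, 2, 2], 1, [(18, 1), (66, 1), (144, 1), (192, 1)]⟩,
⟨1, [⟨66, 3, []⟩, ⟨32, 3, []⟩, ⟨128, 4, []⟩], [7, 3], 1, [(162, 1), (224, 1)]⟩,
⟨2, [⟨0, 0, [(36, 2)]⟩, ⟨64, 4, []⟩], [3, 1, 1], 1, [(100, 1)]⟩,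
⟨2, [⟨2, 2, []⟩, ⟨4, 2, []⟩, ⟨32, 3, []⟩, ⟨16, 4, []⟩, ⟨64, 4, []⟩], [3, 3, 3, 12, 20], 2, [(22, 1), (70, 1), (112, 1), (118, 2)]⟩,
⟨2, [⟨80, 4, []⟩, ⟨34, 4, []⟩, ⟨4, 4, []⟩], [7], 1, [(22, 1), (52, 1), (70, 1), (100, 1)]⟩,
⟨1, [⟨2, 2, []⟩, ⟨68, 2, []⟩], [3, 3, 3], 1, [(6, 1), (66, 1)]⟩,
⟨2, [⟨2, 3, []⟩, ⟨4, 3, []⟩, ⟨32, 2, []⟩, ⟨16, 3, []⟩, ⟨128, 4, []⟩], [3, 3, 12, 12, 20], 2, [(22, 1), (134, 1), (176, 1), (182, 2)]⟩,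
⟨2, [⟨80, 4, []⟩, ⟨128, 2, []⟩], [3, 2, 2], 1, [(144, 1), (192, 1)]⟩,
⟨1, [⟨34, 3, []⟩, ⟨20, 3, []⟩, ⟨64, 4, []⟩], [7, 3], 1, [(70, 1), (82, 1), (100, 1), (112, 1)]⟩,
⟨1, [⟨48, 2, []⟩, ⟨64, 2, []⟩], [3, 3, 3], 1, [(80, 1), (96, 1)]⟩,
⟨1, [⟨2, 2, []⟩, ⟨4, 2, []⟩, ⟨16, 1, []⟩, ⟨64, 5, []⟩], [3, 3, 3, 4, 4, 4, 4], 2, [(70, 1), (80, 1), (86, 2)]⟩,
⟨1, [⟨16, 3, []⟩, ⟨32, 3, []⟩, ⟨66, 4, []⟩], [7, 3], 1, [(50, 1), (112, 1)]⟩,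
⟨1, [⟨0, 0, [(20, 2)]⟩, ⟨128, 4, []⟩], [3, 1, 1], 1, [(148, 1)]⟩,
⟨2, [⟨18, 4, []⟩, ⟨64, 2, []⟩], [3, 2, 2], 1, [(66, 1), (80, 1)]⟩,
⟨2, [⟨33, 4, []⟩, ⟨66, 4, []⟩, ⟨4, 4, []⟩], [7], 1, [(7, 1), (38, 1), (69, 1), (100, 1)]⟩,
⟨1, [⟨80, 3, []⟩, ⟨32, 3, []⟩, ⟨128, 4, []⟩], [7, 3], 1, [(176, 1), (224, 1)]⟩,
⟨2, [⟨36, 5, []⟩, ⟨16, 3, []⟩, ⟨128, 5, []⟩], [2, 2], 1, [(148, 1), (176, 1)]⟩,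
⟨1, [⟨68, 3, []⟩, ⟨16, 3, []⟩, ⟨128, 4, []⟩], [7, 3], 1, [(148, 1), (208, 1)]⟩,
⟨1, [⟨96, 3, []⟩, ⟨16, 3, []⟩, ⟨128, 4, []⟩], [7, 3], 1, [(176, 1), (208, 1)]⟩,
⟨1, [⟨2, 3, []⟩, ⟨0, 0, [(132, 3)]⟩], [3, 3], 1, [(134, 1)]⟩,
⟨1, [⟨48, 4, []⟩, ⟨8, 3, []⟩, ⟨64, 3, []⟩], [7, 6], 1, [(88, 1), (104, 1)]⟩,
⟨2, [⟨0, 0, [(20, 2)]⟩, ⟨160, 4, []⟩], [3, 1, 1], 1, [(52, 1), (148, 1)]⟩,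
⟨2, [⟨16, 3, []⟩, ⟨192, 3, []⟩], [3, 3], 1, [(80, 1), (144, 1)]⟩,
⟨2, [⟨80, 4, []⟩, ⟨0, 0, [(6, 2)]⟩], [3, 2, 2], 1, [(22, 1), (70, 1)]⟩,
⟨2, [⟨20, 4, []⟩, ⟨72, 4, []⟩, ⟨32, 4, []⟩], [7], 1, [(44, 1), (56, 1), (100, 1), (112, 1)]⟩,
⟨1, [⟨2, 3, []⟩, ⟨4, 3, []⟩, ⟨208, 4, []⟩], [7, 3], 1, [(22, 1), (70, 1), (134, 1)]⟩,
⟨2, [⟨0, 0, [(80, 2)]⟩, ⟨32, 4, []⟩], [3, 1, 1], 1, [(112, 1)]⟩,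
⟨1, [⟨144, 3, []⟩, ⟨32, 4, []⟩, ⟨64, 3, []⟩], [7, 5], 1, [(112, 1), (224, 1)]⟩,
⟨1, [⟨2, 2, []⟩, ⟨0, 0, [(192, 2)]⟩], [3, 3, 3], 1, [(194, 1)]⟩,
⟨1, [⟨32, 2, []⟩, ⟨6, 2, []⟩], [3, 3, 3], 1, [(34, 1), (36, 1)]⟩,
⟨2, [⟨0, 0, [(6, 2)]⟩, ⟨128, 4, []⟩], [3, 1, 1], 1, [(134, 1)]⟩]

theorem base_ok : base.all (fun q => q.ok 8 3 [7, 56] [9, 2000, 2000, 2000] big4 [(0, 1, 0, 0), (0, 2, 0, 1), (0, 4, 0, 3), (0, 5, 0, 4), (0, 3, 0, 0)]) = true := by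
  decide +kernel

theorem gv_ok : gv.all (fun c => c.ok 2 8) = true := by decide +kernel

theorem gads_ok : gads.all (fun g => g.okV 8 3 [0, 0, 2]) = true := by decide +kernel

theorem cmp_ok : cmpR names cnf (clsu 3 base ++ (gv.map Gv.cl ++ gads.map Gt.cl)) = true := by
  decide +kernel

end DG25

theorem instl_25 : instLS 2 3 [0, 0, 2] 9 8 [(0, 1, 0, 0), (0, 2, 0, 1), (0, 4, 0, 3), (0, 5, 0, 4), (0, 3, 0, 0)] DG25.base DG25.gv DG25.gads DG25.names DG25.cnf DG25.db DG25.prf = true :=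
  instLS_of DG25.base_ok DG25.gv_ok DG25.gads_ok (by decide +kernel) DG25.okc DG25.cmp_ok DG25.chk_ok

/-- there is no configuration of this instance. -/
theorem nol_25 {V : Type v} [DecidableEq V] {ι : Type u} [Fintype ι] {B : ι → Finset V}
    {Q : Finset V} {x : ℕ → V} {C : ℕ → Finset V}
    (h : CfL B Q 2 3 x C [0, 0, 2] [] 9 8) : False :=
  h.absurd_srt rfl instl_25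

end Pool.Agent.Hyp6
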