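import Pool.Agent.Hyp6.CfLO
import Pool.Agent.Hyp6.InsG.F26

/-!
# HYP6: leaf instance 26: n = 2, r = 3, bounds [2, 0, 0], inner blocks []

1163 base clauses, 10 given clauses, 368 gadgets, 1084 learned clauses.
-/

set_option autoImplicit false
set_option maxRecDepth 100000

namespace Pool.Agent.Hyp6

open Rup

universe u v

namespace DG26

noncomputable def base : List Ru := [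
.rs (.l2 1 6 20 2 1 1),
.rs (.part [64, 56, 128] [0, 0, 0] [7] []),
.rs (.part [17, 64, 140] [0, 0, 0] [] [(1, 34)]),
.rs (.l2 2 6 20 2 1 1),
.rs (.part [9, 66, 144] [0, 0, 0] [] [(2, 36)]),
.rs (.join 2 2 4 3 2 1 [(1, 0)]),
.rs (.le 2 20 16 4 3),
.rs (.part [40, 192, 16] [0, 0, 0] [7] []),
.rs (.l2 2 36 48 5 1 1),
.rs (.part [40, 80, 128] [0, 0, 0] [7] []),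
.rs (.deg 5 [0, 1, 2]),
.rs (.part [51, 192, 12] [1, 0, 0] [] []),
.rs (.part [2, 193, 4] [0, 0, 0] [56] []),
.rs (.part [15, 224, 16] [1, 0, 0] [] []),
.rs (.ab 2 5),
.rs (.part [13, 114, 128] [1, 0, 0] [] []),
.rs (.mono 2 160 164 1),
.rs (.mono 2 168 169 1),
.rs (.ab2 2 66),
.rs (.l2 1 20 36 2 1 1),
.rs (.part [32, 151, 72] [0, 1, 0] [] []),
.rs (.l2 2 24 40 3 1 1),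
.rs (.part [27, 100, 128] [1, 0, 0] [] []),
.rs (.l2 2 34 40 5 1 1),
.rs (.deg 2 [1, 2, 0]),
.rs (.part [32, 199, 24] [0, 1, 0] [] []),
.rs (.part [9, 118, 128] [0, 1, 0] [] []),
.rs (.join 2 2 5 3 0 3 [(1, 0)]),
.rs (.lipl 0 10 27 0 17),
.rs (.srt 0 3 0 0 1),
.rs (.part [1, 126, 128] [0, 1, 0] [] []),
.rs (.join 1 1 5 2 1 1 [(0, 0)]),
.rs (.join 2 4 5 3 2 2 [(2, 1)]),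
.rs (.part [72, 48, 128] [0, 0, 0] [7] []),
.rs (.join 0 8 6 3 2 1 [(3, 0)]),
.rs (.join 2 2 4 3 2 2 [(1, 1)]),
.rs (.deg 2 [2, 0, 1]),
.rs (.part [16, 224, 8] [0, 0, 0] [7] []),
.rs (.join 0 1 2 4 3 1 [(0, 0)]),
.rs (.l2 2 18 66 1 1 1),
.rs (.part [27, 96, 132] [1, 0, 0] [] []),
.rs (.part [1, 194, 4] [0, 0, 0] [56] []),
.rs (.hall [1] [3, 4, 5, 7]),
.rs (.l2 1 136 144 7 1 2),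
.rs (.l2 1 10 34 1 1 1),
.rs (.ab2 0 72),
.rs (.part [32, 200, 16] [0, 0, 0] [7] []),
.rs (.join 2 1 4 2 1 1 [(0, 0)]),
.rs (.part [3, 132, 64] [0, 0, 0] [56] []),
.rs (.l2 1 3 18 1 2 1),
.rs (.part [16, 71, 168] [0, 1, 0] [] []),
.rs (.part [9, 50, 196] [0, 1, 0] [] []),
.rs (.ordE 1 64 1),
.rs (.part [65, 6, 128] [0, 0, 0] [56] []),
.rs (.part [11, 48, 196] [1, 0, 0] [] []),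
.rs (.deg 7 [0, 1, 3]),
.rs (.join 0 33 6 3 2 1 [(0, 0), (5, 0)]),
.rs (.ordE 2 2 1),
.rs (.part [17, 106, 132] [0, 1, 0] [] []),
.rs (.l2 1 20 48 4 1 1),
.rs (.join 2 4 4 3 2 2 [(2, 1)]),
.rs (.join 1 4 4 3 1 2 [(2, 0)]),
.rs (.join 1 4 4 4 3 2 [(2, 1)]),
.rs (.part [17, 68, 160] [0, 0, 0] [] [(1, 10)]),
.rs (.join 2 4 5 3 1 2 [(2, 0)]),
.rs (.join 2 4 4 3 2 1 [(2, 0)]),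
.rs (.l2 2 17 48 4 1 1),
.rs (.join 2 2 6 2 1 1 [(1, 0)]),
.rs (.part [40, 208, 7] [0, 0, 1] [] []),
.rs (.le 0 33 32 5 2),
.rs (.join 1 4 5 4 2 4 [(2, 2)]),
.rs (.part [16, 111, 128] [0, 1, 0] [] []),
.rs (.ab2 0 96),
.rs (.part [21, 106, 128] [1, 0, 0] [] []),
.rs (.part [65, 2, 132] [0, 0, 0] [56] []),
.rs (.part [9, 96, 132] [0, 0, 0] [] [(0, 18)]),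
.rs (.part [48, 64, 136] [0, 0, 0] [7] []),
.degU 0 [(0, 4), (2, 1)],
.rs (.part [2, 65, 132] [0, 0, 0] [56] []),
.rs (.part [13, 48, 194] [1, 0, 0] [] []),
.rs (.l2 2 6 34 1 1 1),
.rs (.part [17, 74, 164] [0, 0, 1] [] []),
.rs (.part [57, 64, 134] [1, 0, 0] [] []),
.rs (.le 2 12 8 3 2),
.rs (.join 0 2 4 3 2 2 [(1, 1)]),
.rs (.join 0 1 4 4 4 1 [(0, 1)]),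
.rs (.join 2 1 3 2 1 1 [(0, 0)]),
.rs (.lip 1 98 103 7),
.rs (.part [2, 69, 128] [0, 0, 0] [56] []),
.degU 4 [(0, 2), (1, 3)],
.rs (.join 2 2 3 3 1 2 [(1, 0)]),
.rs (.l2 1 40 136 3 1 1),
.rs (.lip 2 128 176 56),
.rs (.l2 2 65 80 6 1 1),
.rs (.hall [2] [0, 1, 6, 7]),
.rs (.lip 2 128 184 56),
.degU 4 [(0, 2), (2, 3)],
.rs (.join 2 16 7 2 1 1 [(4, 0)]),
.rs (.part [25, 68, 162] [1, 0, 0] [] []),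
.rs (.lipl 1 22 118 2 96),
.rs (.part [6, 65, 128] [0, 0, 0] [56] []),
.rs (.join 2 8 4 3 2 1 [(3, 0)]),
.rs (.part [1, 196, 2] [0, 0, 0] [56] []),
.rs (.join 2 1 1 2 1 1 [(0, 0)]),
.rs (.part [48, 74, 133] [0, 0, 1] [] []),
.rs (.lipl 1 160 178 2 18),
.rs (.join 2 4 4 3 3 1 [(2, 1)]),
.rs (.join 1 2 2 3 2 1 [(1, 0)]),
.rs (.l2 1 12 20 2 1 2),
.rs (.part [68, 3, 128] [0, 0, 0] [56] []),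
.rs (.join 2 4 3 3 2 1 [(2, 0)]),
.rs (.lipl 1 98 118 1 20),
.rs (.ab 1 3),
.rs (.mono 2 168 170 1),
.rs (.ab2 0 5),
.rs (.ordE 0 1 2),
.rs (.l2 1 36 48 5 1 1),
.rs (.l2 1 48 144 4 1 1),
.rs (.join 1 8 5 3 1 2 [(3, 0)]),
.rs (.lip 0 9 73 64),
.rs (.le 0 17 16 4 2),
.rs (.join 2 2 4 3 1 2 [(1, 0)]),
.rs (.part [6, 192, 1] [0, 0, 0] [56] []),
.rs (.part [32, 72, 144] [0, 0, 0] [7] []),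
.rs (.l2 1 18 34 1 1 2),
.rs (.l2 1 6 34 1 1 1),
.rs (.ab2 2 40),
.rs (.join 1 2 5 4 3 1 [(1, 0)]),
.rs (.join 0 16 5 2 1 1 [(4, 0)]),
.rs (.lipl 2 161 181 1 20),
.rs (.join 1 2 5 3 1 2 [(1, 0)]),
.rs (.part [6, 129, 64] [0, 0, 0] [56] []),
.rs (.deg 6 [1, 2, 1]),
.rs (.join 2 8 6 2 1 1 [(3, 0)]),
.rs (.l2 2 36 96 5 1 1),
.rs (.ab2 1 24),
.rs (.l2 2 3 34 1 1 1),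
.rs (.lip 0 1 49 56),
.rs (.join 0 8 5 4 3 1 [(3, 0)]),
.rs (.l2 2 20 80 4 1 1),
.rs (.join 1 8 6 3 2 2 [(3, 1)]),
.rs (.l2 2 68 72 6 1 1),
.rs (.l2 1 34 48 5 1 1),
.rs (.lip 0 8 11 7),
.rs (.join 2 4 7 2 1 1 [(2, 0)]),
.rs (.lipl 1 192 228 1 36),
.rs (.part [43, 64, 148] [1, 0, 0] [] []),
.rs (.join 1 1 4 3 1 2 [(0, 0)]),
.rs (.deg 5 [1, 0, 2]),
.rs (.join 0 32 6 2 1 1 [(5, 0)]),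
.rs (.deg 7 [0, 3, 1]),
.rs (.lipl 0 33 43 1 10),
.rs (.part [33, 72, 132] [0, 0, 0] [] [(0, 18)]),
.rs (.l2 2 3 18 1 1 2),
.rs (.part [9, 64, 162] [0, 0, 0] [] [(1, 20)]),
.rs (.l2 2 3 10 1 2 1),
.rs (.lipl 0 9 89 2 80),
.rs (.slot 0 [(0, 3), (1, 2), (3, 3), (4, 2), (5, 1)]),
.rs (.lipl 0 9 29 1 20),
.rs (.lip 0 16 21 7),
.rs (.part [26, 68, 161] [1, 0, 0] [] []),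
.rs (.le 0 6 4 2 2),
.rs (.part [18, 64, 164] [0, 0, 0] [] [(0, 9)]),
.rs (.part [8, 151, 96] [0, 1, 0] [] []),
.rs (.join 1 2 4 4 2 2 [(1, 0)]),
.rs (.lip 1 64 67 7),
.rs (.l2 2 136 144 7 1 1),
.rs (.join 2 2 5 2 1 1 [(1, 0)]),
.rs (.lipl 1 52 118 0 66),
.rs (.ordE 1 128 2),
.rs (.mono 2 160 224 1),
.rs (.deg 2 [0, 1, 2]),
.rs (.l2 2 6 68 2 1 1),
.rs (.un 1 4),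
.rs (.l2 2 34 48 5 1 1),
.rs (.part [57, 192, 6] [1, 0, 0] [] []),
.rs (.part [75, 52, 128] [1, 0, 0] [] []),
.rs (.lip 2 128 134 7),
.rs (.l2 1 5 36 2 1 1),
.rs (.l2 2 66 72 6 1 1),
.rs (.join 1 4 4 3 3 1 [(2, 1)]),
.rs (.part [64, 40, 144] [0, 0, 0] [7] []),
.rs (.lipl 1 38 118 2 80),
.rs (.part [17, 68, 136] [0, 0, 0] [] [(1, 34)]),
.rs (.join 1 4 5 2 1 1 [(2, 0)]),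
.rs (.un 0 5),
.rs (.part [15, 64, 176] [1, 0, 0] [] []),
.rs (.l2 2 12 20 2 1 1),
.rs (.join 1 32 7 3 3 0 [(5, 0)]),
.rs (.mono 0 32 96 1),
.rs (.le 1 96 64 6 4),
.rs (.l2 1 40 96 5 1 2),
.rs (.ab2 2 5),
.rs (.l2 1 24 144 4 2 1),
.rs (.l2 2 24 72 3 2 1),
.rs (.part [41, 66, 148] [1, 0, 0] [] []),
.rs (.part [41, 148, 66] [1, 0, 0] [] []),
.rs (.lipl 0 9 75 2 66),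
.rs (.part [80, 40, 128] [0, 0, 0] [7] []),
.rs (.lipl 0 17 51 0 34),
.rs (.join 0 16 6 3 2 1 [(4, 0)]),
.rs (.srt 0 4 0 3 3),
.rs (.l2 2 18 20 4 1 1),
.rs (.srt 0 4 0 3 1),
.rs (.l2 1 24 80 4 1 2),
.rs (.join 1 2 4 4 3 1 [(1, 0)]),
.rs (.part [8, 64, 183] [0, 0, 1] [] []),
.rs (.l2 2 34 96 5 1 1),
.rs (.part [6, 73, 176] [0, 0, 1] [] []),
.rs (.join 2 8 4 3 2 2 [(3, 1)]),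
.rs (.lipl 0 9 169 1 160),
.degU 4 [(0, 2), (1, 1), (2, 2)],
.rs (.part [1, 70, 128] [0, 0, 0] [56] []),
.rs (.mono 2 16 80 1),
.rs (.hall [2] [4, 5, 6, 7]),
.rs (.join 1 8 4 3 2 1 [(3, 0)]),
.rs (.l2 1 5 68 2 1 2),
.rs (.part [27, 68, 160] [1, 0, 0] [] []),
.rs (.ab2 2 48),
.rs (.ordE 0 128 1),
.rs (.ordE 0 2 3),
.rs (.part [17, 42, 196] [0, 1, 0] [] []),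
.rs (.join 0 8 5 4 2 2 [(3, 0)]),
.rs (.join 0 2 2 3 2 2 [(1, 1)]),
.rs (.join 0 10 6 4 3 1 [(1, 0), (3, 0)]),
.rs (.part [8, 103, 144] [0, 1, 0] [] []),
.rs (.join 2 1 3 3 2 1 [(0, 0)]),
.rs (.ab2 2 130),
.rs (.l2 1 3 34 1 1 2),
.rs (.part [6, 64, 185] [0, 0, 1] [] []),
.rs (.part [16, 200, 32] [0, 0, 0] [7] []),
.rs (.lip 1 160 167 7),
.rs (.join 1 2 4 2 1 1 [(1, 0)]),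
.rs (.part [24, 100, 131] [0, 0, 1] [] []),
.rs (.mono 2 132 164 1),
.rs (.deg 4 [0, 2, 1]),
.rs (.lip 1 82 87 7),
.rs (.mono 2 192 224 1),
.rs (.l2 1 33 40 5 1 1),
.rs (.lipl 0 17 51 2 34),
.rs (.deg 1 [0, 1, 2]),
.rs (.l2 1 24 80 4 1 1),
.rs (.deg 7 [2, 1, 1]),
.degU 1 [(0, 2), (1, 1), (2, 2)],
.rs (.join 2 1 5 3 2 1 [(0, 0)]),
.rs (.srt 0 2 0 1 1),
.rs (.l2 2 17 80 4 1 1),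
.rs (.lipl 2 80 212 1 132),
.rs (.join 0 2 3 3 1 2 [(1, 0)]),
.rs (.l2 2 18 34 1 1 1),
.degU 3 [(0, 3), (1, 1), (2, 1)],
.rs (.part [41, 68, 146] [1, 0, 0] [] []),
.rs (.part [73, 22, 160] [1, 0, 0] [] []),
.rs (.l2 1 6 10 1 1 1),
.rs (.l2 1 12 36 2 1 1),
.rs (.lipl 2 34 114 1 80),
.rs (.part [33, 88, 134] [0, 0, 1] [] []),
.rs (.l2 2 10 24 3 1 1),
.rs (.ab2 0 6),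
.rs (.ab 2 4),
.rs (.join 2 4 3 3 1 2 [(2, 0)]),
.rs (.deg 4 [0, 1, 2]),
.rs (.part [51, 68, 136] [1, 0, 0] [] []),
.rs (.ab 1 1),
.rs (.part [9, 64, 146] [0, 0, 0] [] [(1, 36)]),
.rs (.part [9, 68, 160] [0, 0, 0] [] [(0, 18)]),
.rs (.part [65, 4, 130] [0, 0, 0] [56] []),
.rs (.un 2 4),
.rs (.part [24, 192, 32] [0, 0, 0] [7] []),
.rs (.part [17, 100, 138] [0, 0, 1] [] []),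
.rs (.deg 1 [1, 1, 1]),
.rs (.l2 2 80 144 4 1 1),
.rs (.join 1 4 3 2 1 1 [(2, 0)]),
.rs (.srt 2 6 1 6 2),
.rs (.part [3, 4, 192] [0, 0, 0] [56] []),
.rs (.l2 1 5 17 0 1 1),
.rs (.l2 1 20 36 2 1 2),
.rs (.part [11, 96, 148] [1, 0, 0] [] []),
.rs (.lipl 2 128 148 2 20),
.rs (.part [27, 196, 32] [1, 0, 0] [] []),
.rs (.part [17, 72, 132] [0, 0, 0] [] [(2, 34)]),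
.rs (.lipl 2 52 182 1 130),
.rs (.join 0 33 6 4 3 1 [(0, 0), (5, 0)]),
.rs (.part [15, 192, 48] [1, 0, 0] [] []),
.rs (.part [40, 64, 144] [0, 0, 0] [7] []),
.rs (.deg 5 [0, 3, 0]),
.rs (.slot 0 [(0, 3), (1, 3), (2, 3), (3, 1), (6, 1)]),
.rs (.mono 1 96 98 1),
.rs (.join 0 1 1 4 3 1 [(0, 0)]),
.rs (.mono 0 64 80 1),
.rs (.part [32, 88, 128] [0, 0, 0] [7] []),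
.rs (.lip 0 8 13 7),
.rs (.part [9, 226, 20] [0, 1, 0] [] []),
.rs (.lipl 0 17 27 1 10),
.rs (.l2 1 18 20 4 1 2),
.rs (.join 0 18 5 4 3 1 [(1, 0), (4, 0)]),
.rs (.l2 1 3 18 1 1 2),
.rs (.l2 1 18 34 1 1 1),
.rs (.deg 4 [1, 0, 2]),
.rs (.join 1 2 3 2 1 1 [(1, 0)]),
.rs (.part [4, 248, 3] [0, 1, 0] [] []),
.rs (.join 2 1 1 3 1 2 [(0, 0)]),
.rs (.part [9, 66, 160] [0, 0, 0] [] [(2, 20)]),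
.rs (.un 1 5),
.rs (.slot 0 [(3, 2), (4, 2), (5, 2), (0, 2), (1, 2), (6, 1)]),
.rs (.join 2 8 5 3 2 2 [(3, 1)]),
.rs (.deg 3 [2, 1, 0]),
.rs (.join 0 1 2 4 2 2 [(0, 0)]),
.rs (.l2 2 10 66 1 1 1),
.rs (.lipl 1 84 118 1 34),
.rs (.part [9, 68, 160] [0, 0, 0] [] [(1, 18)]),
.rs (.ab 2 3),
.rs (.part [16, 40, 192] [0, 0, 0] [7] []),
.rs (.mono 0 64 66 1),
.rs (.lip 0 16 23 7),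
.rs (.part [14, 96, 145] [1, 0, 0] [] []),
.rs (.join 2 1 4 3 1 2 [(0, 0)]),
.rs (.un 2 1),
.rs (.l2 2 12 68 2 1 1),
.rs (.hall [2] [0, 1, 2, 7]),
.rs (.part [9, 212, 34] [0, 1, 0] [] []),
.rs (.join 1 2 3 3 1 2 [(1, 0)]),
.rs (.l2 1 12 24 3 1 2),
.rs (.join 1 4 4 2 1 1 [(2, 0)]),
.rs (.part [9, 36, 210] [0, 0, 1] [] []),
.rs (.join 2 32 6 3 2 1 [(5, 0)]),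
.rs (.l2 2 3 10 1 1 1),
.rs (.join 1 2 5 4 2 3 [(1, 1)]),
.rs (.part [4, 67, 128] [0, 0, 0] [56] []),
.rs (.ab2 0 33),
.rs (.join 1 8 7 3 1 2 [(3, 0)]),
.rs (.le 0 48 32 5 2),
.rs (.part [9, 244, 2] [0, 1, 0] [] []),
.rs (.part [9, 64, 148] [0, 0, 0] [] [(1, 34)]),
.rs (.part [16, 72, 160] [0, 0, 0] [7] []),
.rs (.part [17, 140, 98] [0, 0, 1] [] []),
.rs (.part [48, 67, 140] [0, 1, 0] [] []),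
.rs (.lipl 0 10 43 1 33),
.rs (.l2 1 6 18 1 1 1),
.rs (.join 1 4 5 3 1 2 [(2, 0)]),
.rs (.join 0 8 4 4 2 2 [(3, 0)]),
.rs (.l2 1 20 48 4 2 1),
.rs (.l2 2 12 24 3 2 1),
.rs (.l2 1 18 34 1 2 1),
.rs (.l2 0 6 10 1 1 1),
.rs (.join 1 32 6 4 2 3 [(5, 1)]),
.rs (.join 1 1 4 2 1 1 [(0, 0)]),
.rs (.part [9, 80, 130] [0, 0, 0] [] [(2, 36)]),
.rs (.join 1 16 6 4 1 3 [(4, 0)]),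
.rs (.lipl 1 192 226 1 34),
.rs (.lipl 1 98 110 1 12),
.rs (.part [17, 98, 140] [0, 1, 0] [] []),
.rs (.join 0 2 3 3 2 2 [(1, 1)]),
.rs (.join 1 32 6 3 2 2 [(5, 1)]),
.rs (.lip 1 176 183 7),
.rs (.lipl 2 152 185 1 33),
.rs (.part [24, 96, 128] [0, 0, 0] [7] []),
.rs (.ab 0 5),
.rs (.part [27, 224, 4] [1, 0, 0] [] []),
.rs (.deg 6 [0, 3, 1]),
.rs (.l2 2 20 24 4 1 1),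
.rs (.part [24, 160, 64] [0, 0, 0] [7] []),
.rs (.join 2 4 6 3 2 1 [(2, 0)]),
.rs (.lip 1 168 175 7),
.rs (.part [6, 88, 161] [0, 1, 0] [] []),
.rs (.l2 2 33 34 5 1 1),
.rs (.slot 0 [(0, 3), (1, 3), (2, 3), (3, 1), (4, 1)]),
.rs (.lipl 0 9 89 1 80),
.rs (.deg 5 [2, 0, 1]),
.rs (.ordE 0 64 2),
.rs (.part [9, 80, 132] [0, 0, 0] [] [(2, 34)]),
.rs (.join 2 4 3 3 3 2 [(2, 2)]),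
.rs (.part [43, 68, 144] [1, 0, 0] [] []),
.rs (.part [10, 68, 160] [0, 0, 0] [] [(2, 17)]),
.rs (.l2 1 12 24 3 1 1),
.rs (.part [16, 96, 136] [0, 0, 0] [7] []),
.rs (.join 2 8 5 2 1 1 [(3, 0)]),
.rs (.join 0 2 2 2 2 1 [(1, 1)]),
.rs (.lipl 0 9 27 1 18),
.rs (.join 0 1 6 3 2 1 [(0, 0)]),
.rs (.part [27, 192, 36] [1, 0, 0] [] []),
.rs (.ab2 1 3),
.rs (.lipl 1 136 170 2 34),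
.rs (.part [8, 48, 192] [0, 0, 0] [7] []),
.rs (.lip 1 74 79 7),
.rs (.join 1 1 2 3 1 2 [(0, 0)]),
.rs (.l2 1 12 20 2 2 1),
.rs (.join 2 16 6 3 2 2 [(4, 1)]),
.rs (.ordE 0 16 1),
.rs (.ab 0 6),
.rs (.deg 4 [1, 1, 1]),
.rs (.join 2 2 4 2 1 1 [(1, 0)]),
.rs (.join 0 1 3 4 2 2 [(0, 0)]),
.rs (.join 0 8 6 4 4 0 [(3, 0)]),
.rs (.lip 0 8 14 7),
.rs (.l2 1 17 129 0 1 1),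
.rs (.lipl 2 64 98 2 34),
.rs (.l2 2 24 72 3 1 1),
.rs (.part [48, 192, 8] [0, 0, 0] [7] []),
.rs (.part [17, 96, 132] [0, 0, 0] [] [(2, 10)]),
.rs (.ordE 2 128 1),
.rs (.lipl 1 140 206 1 66),
.rs (.part [9, 64, 164] [0, 0, 0] [] [(1, 18)]),
.rs (.ab 0 3),
.rs (.part [64, 24, 160] [0, 0, 0] [7] []),
.rs (.l2 2 10 18 1 1 1),
.rs (.part [15, 208, 32] [1, 0, 0] [] []),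
.rs (.mono 1 68 100 1),
.rs (.deg 5 [1, 2, 0]),
.rs (.part [9, 132, 114] [0, 0, 1] [] []),
.rs (.join 1 16 5 3 2 2 [(4, 1)]),
.rs (.lipl 1 64 100 1 36),
.rs (.part [22, 105, 128] [1, 0, 0] [] []),
.rs (.part [51, 76, 128] [1, 0, 0] [] []),
.rs (.part [9, 84, 162] [0, 0, 1] [] []),
.rs (.part [64, 48, 136] [0, 0, 0] [7] []),
.rs (.ab 1 6),
.rs (.part [5, 194, 56] [0, 0, 1] [] []),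
.rs (.l2 1 5 20 2 1 2),
.rs (.slot 0 [(0, 3), (1, 1), (2, 1), (3, 2), (4, 2), (5, 2)]),
.rs (.ordE 1 64 3),
.rs (.lip 2 68 116 56),
.rs (.part [1, 6, 192] [0, 0, 0] [56] []),
.rs (.ordE 2 16 1),
.rs (.l2 1 12 24 3 2 1),
.rs (.l2 2 10 34 1 1 1),
.rs (.join 2 4 5 3 0 3 [(2, 0)]),
.rs (.part [9, 66, 144] [0, 0, 0] [] [(1, 36)]),
.rs (.part [14, 113, 128] [1, 0, 0] [] []),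
.rs (.part [25, 66, 164] [1, 0, 0] [] []),
.rs (.join 0 2 2 2 1 1 [(1, 0)]),
.degU 0 [(0, 3), (2, 2)],
.rs (.slot 0 [(3, 3), (4, 1), (5, 1), (0, 2), (1, 2), (2, 1), (6, 1)]),
.rs (.srt 0 5 0 4 1),
.rs (.lipl 2 144 240 2 96),
.rs (.part [58, 192, 5] [1, 0, 0] [] []),
.rs (.join 1 2 4 3 2 1 [(1, 0)]),
.rs (.ab2 1 6),
.rs (.join 2 4 3 3 2 2 [(2, 1)]),
.rs (.part [3, 88, 164] [0, 1, 0] [] []),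
.rs (.join 0 2 3 3 2 3 [(1, 2)]),
.rs (.part [71, 160, 24] [1, 0, 0] [] []),
.rs (.ab2 1 40),
.rs (.part [15, 80, 160] [1, 0, 0] [] []),
.rs (.deg 5 [0, 2, 1]),
.rs (.part [10, 100, 145] [0, 1, 0] [] []),
.rs (.join 2 8 6 3 2 1 [(3, 0)]),
.rs (.l2 2 48 80 4 1 1),
.rs (.join 1 16 7 3 2 1 [(4, 0)]),
.rs (.l2 1 18 48 4 1 2),
.rs (.l2 1 12 36 2 2 1),
.rs (.lip 1 96 103 7),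
.rs (.slot 0 [(3, 3), (4, 2), (5, 2), (0, 3), (6, 1)]),
.rs (.l2 2 68 80 6 1 1),
.rs (.join 0 1 4 4 3 1 [(0, 0)]),
.rs (.join 1 2 6 4 2 3 [(1, 1)]),
.rs (.part [9, 96, 132] [0, 0, 0] [] [(1, 18)]),
.rs (.l2 2 72 96 6 1 1),
.rs (.slot 0 [(3, 3), (4, 2), (0, 3), (1, 2), (2, 1)]),
.rs (.join 1 1 1 2 1 1 [(0, 0)]),
.degU 3 [(0, 2), (1, 3)],
.rs (.part [3, 196, 56] [0, 0, 1] [] []),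
.rs (.part [33, 22, 200] [0, 0, 1] [] []),
.degU 1 [(0, 2), (1, 3)],
.rs (.part [9, 130, 116] [0, 0, 1] [] []),
.rs (.l2 1 24 48 4 1 1),
.rs (.l2 2 40 48 5 1 1),
.rs (.l2 0 6 66 1 1 1),
.rs (.srt 0 2 0 1 3),
.rs (.ab 0 0),
.rs (.ab 2 0),
.rs (.join 1 8 4 3 2 2 [(3, 1)]),
.rs (.l2 1 5 12 2 1 1),
.rs (.lip 1 64 88 56),
.rs (.deg 3 [1, 1, 1]),
.rs (.lipl 1 192 212 1 20),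
.rs (.join 1 4 4 4 1 3 [(2, 0)]),
.rs (.lipl 0 10 27 2 17),
.rs (.l2 1 6 130 1 1 1),
.rs (.join 1 4 4 4 2 2 [(2, 0)]),
.rs (.l2 1 6 36 2 1 1),
.rs (.deg 7 [0, 0, 4]),
.rs (.part [25, 6, 224] [1, 0, 0] [] []),
.rs (.join 1 4 6 3 2 2 [(2, 1)]),
.rs (.part [2, 196, 1] [0, 0, 0] [56] []),
.rs (.slot 0 [(3, 4), (4, 1), (5, 1), (0, 3), (1, 2)]),
.rs (.join 1 2 5 3 2 2 [(1, 1)]),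
.rs (.deg 0 [2, 0, 1]),
.rs (.l2 1 3 34 1 1 1),
.rs (.deg 2 [0, 0, 3]),
.rs (.part [24, 71, 160] [0, 1, 0] [] []),
.rs (.lipl 0 33 51 0 18),
.rs (.srt 0 5 0 4 3),
.rs (.join 2 8 4 4 2 2 [(3, 0)]),
.rs (.part [24, 32, 192] [0, 0, 0] [7] []),
.rs (.lipl 0 18 51 0 33),
.rs (.lipl 1 98 118 2 20),
.rs (.deg 1 [0, 3, 0]),
.degU 5 [(0, 2), (1, 2), (2, 1)],
.rs (.lip 1 76 79 7),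
.rs (.join 1 16 5 3 2 1 [(4, 0)]),
.rs (.join 1 1 2 3 2 2 [(0, 1)]),
.rs (.ordE 1 128 3),
.rs (.part [4, 66, 129] [0, 0, 0] [56] []),
.rs (.l2 1 18 80 4 1 2),
.rs (.part [29, 64, 162] [1, 0, 0] [] []),
.rs (.l2 1 66 80 6 2 1),
.rs (.part [9, 22, 224] [0, 1, 0] [] []),
.rs (.join 1 4 3 4 2 2 [(2, 0)]),
.rs (.join 1 4 3 3 2 2 [(2, 1)]),
.rs (.part [9, 64, 182] [0, 0, 1] [] []),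
.rs (.part [8, 112, 128] [0, 0, 0] [7] []),
.rs (.l2 2 18 24 4 1 1),
.rs (.l2 1 3 9 0 1 1),
.rs (.part [48, 136, 71] [0, 0, 1] [] []),
.rs (.join 2 1 2 3 1 2 [(0, 0)]),
.rs (.lipl 0 9 43 2 34),
.rs (.part [9, 160, 86] [0, 0, 1] [] []),
.rs (.lipl 2 128 200 2 72),
.rs (.srt 0 1 0 0 2),
.rs (.mono 2 176 177 1),
.rs (.lipl 0 10 30 2 20),
.rs (.deg 4 [0, 3, 0]),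
.rs (.l2 1 40 48 5 1 1),
.rs (.part [9, 68, 160] [0, 0, 0] [] [(2, 18)]),
.rs (.le 1 20 16 4 2),
.rs (.l2 2 68 132 2 1 1),
.rs (.l2 2 20 36 2 2 1),
.rs (.part [29, 192, 34] [1, 0, 0] [] []),
.rs (.part [9, 52, 194] [0, 0, 1] [] []),
.rs (.l2 2 17 20 4 1 1),
.rs (.l2 2 18 24 4 1 2),
.rs (.lipl 2 128 138 1 10),
.rs (.mono 0 32 34 1),
.rs (.join 1 1 5 3 2 2 [(0, 1)]),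
.rs (.le 2 12 8 3 3),
.rs (.part [9, 96, 130] [0, 0, 0] [] [(2, 20)]),
.rs (.part [169, 20, 66] [1, 0, 0] [] []),
.rs (.l2 2 24 80 4 2 1),
.rs (.join 2 8 5 3 2 1 [(3, 0)]),
.rs (.lipl 2 128 164 2 36),
.rs (.part [16, 104, 128] [0, 0, 0] [7] []),
.rs (.l2 0 6 18 1 1 1),
.rs (.join 1 8 6 4 2 3 [(3, 1)]),
.rs (.join 1 1 5 3 1 2 [(0, 0)]),
.rs (.part [17, 98, 140] [0, 0, 1] [] []),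
.rs (.l2 2 20 24 4 2 1),
.rs (.l2 1 10 24 3 1 2),
.rs (.part [64, 7, 128] [0, 0, 0] [56] []),
.rs (.lipl 1 100 118 2 18),
.rs (.le 0 17 16 4 3),
.rs (.deg 0 [2, 1, 0]),
.rs (.lipl 2 192 210 2 18),
.rs (.part [32, 64, 152] [0, 0, 0] [7] []),
.rs (.l2 2 12 40 3 1 1),
.rs (.part [4, 194, 1] [0, 0, 0] [56] []),
.rs (.ab 1 2),
.rs (.join 0 10 6 3 2 1 [(1, 0), (3, 0)]),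
.rs (.lip 1 136 143 7),
.rs (.part [10, 81, 164] [0, 0, 1] [] []),
.rs (.join 0 1 4 3 2 1 [(0, 0)]),
.rs (.join 2 2 2 2 1 1 [(1, 0)]),
.rs (.l2 1 18 144 4 1 2),
.rs (.lip 2 160 162 2),
.rs (.part [43, 80, 132] [1, 0, 0] [] []),
.rs (.l2 1 24 144 4 1 1),
.rs (.join 2 8 7 2 1 1 [(3, 0)]),
.rs (.le 2 36 32 5 2),
.rs (.l2 2 36 40 5 1 1),
.rs (.part [49, 68, 138] [1, 0, 0] [] []),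
.rs (.join 2 8 4 3 1 2 [(3, 0)]),
.rs (.deg 7 [1, 2, 1]),
.degU 1 [(0, 1), (1, 1), (2, 3)],
.rs (.join 1 2 6 3 1 2 [(1, 0)]),
.rs (.ordE 0 8 3),
.rs (.part [6, 97, 152] [0, 0, 1] [] []),
.rs (.part [8, 96, 144] [0, 0, 0] [7] []),
.rs (.ordE 1 16 2),
.rs (.slot 0 [(4, 2), (3, 3), (5, 2), (0, 3), (1, 1)]),
.rs (.part [2, 188, 65] [0, 1, 0] [] []),
.rs (.l2 1 5 132 2 1 1),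
.rs (.part [9, 196, 50] [0, 0, 1] [] []),
.rs (.part [8, 87, 160] [0, 1, 0] [] []),
.rs (.part [12, 64, 162] [0, 0, 0] [] [(0, 17)]),
.rs (.l2 2 3 18 1 1 1),
.rs (.part [3, 192, 4] [0, 0, 0] [56] []),
.rs (.lipl 1 148 214 1 66),
.rs (.ab2 0 17),
.rs (.part [8, 167, 80] [0, 1, 0] [] []),
.rs (.part [23, 192, 40] [1, 0, 0] [] []),
.rs (.l2 2 5 68 2 1 1),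
.rs (.l2 1 34 40 5 1 1),
.rs (.deg 6 [2, 2, 0]),
.rs (.part [29, 96, 130] [1, 0, 0] [] []),
.rs (.l2 2 6 12 2 1 1),
.rs (.hall [2] [3, 4, 6, 7]),
.rs (.join 1 2 3 3 2 2 [(1, 1)]),
.rs (.part [10, 21, 224] [0, 1, 0] [] []),
.rs (.l2 2 20 48 4 1 1),
.rs (.join 2 2 2 3 2 2 [(1, 1)]),
.rs (.deg 3 [3, 0, 0]),
.rs (.lipl 0 17 89 2 72),
.rs (.part [17, 110, 128] [0, 1, 0] [] []),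
.rs (.join 0 2 2 3 2 1 [(1, 0)]),
.rs (.join 1 4 5 4 3 1 [(2, 0)]),
.rs (.srt 0 4 0 3 2),
.rs (.part [48, 8, 192] [0, 0, 0] [7] []),
.rs (.part [16, 175, 64] [0, 1, 0] [] []),
.rs (.hall [2] [0, 1, 2, 6]),
.rs (.join 1 2 7 2 1 1 [(1, 0)]),
.rs (.join 0 4 3 3 0 3 [(2, 0)]),
.rs (.le 0 48 32 5 1),
.rs (.part [9, 214, 32] [0, 1, 0] [] []),
.rs (.ordE 1 16 1),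
.rs (.ordE 2 32 2),
.rs (.l2 1 10 34 1 2 1),
.rs (.join 1 8 4 2 1 1 [(3, 0)]),
.degU 1 [(0, 2), (2, 3)],
.rs (.lip 0 1 41 56),
.rs (.l2 1 5 20 2 1 1),
.rs (.hall [0] [1, 2, 6, 7]),
.rs (.l2 2 5 33 0 1 1),
.rs (.join 0 16 5 2 2 0 [(4, 0)]),
.rs (.l2 1 6 20 2 2 1),
.rs (.l2 2 20 36 2 1 1),
.degU 0 [(0, 5)],
.degU 4 [(0, 3), (2, 2)],
.rs (.slot 0 [(4, 1), (5, 1), (3, 2), (0, 2), (1, 2), (2, 2), (6, 1)]),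
.rs (.join 2 4 3 3 3 1 [(2, 1)]),
.rs (.join 0 16 5 4 2 2 [(4, 0)]),
.rs (.l2 1 17 24 4 1 1),
.rs (.part [72, 16, 160] [0, 0, 0] [7] []),
.rs (.lipl 1 97 117 2 20),
.rs (.part [120, 130, 5] [1, 0, 0] [] []),
.rs (.l2 2 17 24 4 1 2),
.rs (.join 2 2 5 3 2 1 [(1, 0)]),
.rs (.part [17, 76, 162] [0, 0, 1] [] []),
.rs (.l2 1 18 48 4 1 1),
.rs (.join 1 1 2 2 1 1 [(0, 0)]),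
.rs (.join 1 2 4 3 2 2 [(1, 1)]),
.rs (.l2 1 33 48 5 1 1),
.rs (.le 2 34 2 1 1),
.rs (.join 2 4 4 2 1 1 [(2, 0)]),
.rs (.l2 2 9 72 3 1 1),
.rs (.slot 0 [(3, 2), (4, 1), (5, 1), (1, 2), (2, 2), (0, 3)]),
.rs (.join 2 1 4 3 2 1 [(0, 0)]),
.rs (.lip 0 16 19 7),
.rs (.join 1 4 5 3 2 1 [(2, 0)]),
.rs (.part [8, 224, 16] [0, 0, 0] [7] []),
.rs (.lip 0 8 15 7),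
.rs (.un 2 5),
.rs (.l2 2 36 68 2 1 1),
.rs (.part [2, 248, 5] [0, 1, 0] [] []),
.rs (.part [5, 192, 2] [0, 0, 0] [56] []),
.rs (.part [2, 125, 128] [0, 1, 0] [] []),
.rs (.l2 2 10 34 1 1 2),
.rs (.part [9, 96, 132] [0, 0, 0] [] [(2, 18)]),
.rs (.join 2 2 6 3 2 1 [(1, 0)]),
.rs (.l2 2 17 18 4 1 1),
.rs (.mono 1 65 81 1),
.rs (.part [1, 66, 132] [0, 0, 0] [56] []),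
.rs (.join 2 4 3 2 1 1 [(2, 0)]),
.rs (.part [89, 162, 4] [1, 0, 0] [] []),
.rs (.part [9, 64, 164] [0, 0, 0] [] [(0, 18)]),
.rs (.lip 1 132 188 56),
.rs (.mono 2 130 194 1),
.rs (.l2 1 10 34 1 1 2),
.rs (.join 2 1 5 3 2 2 [(0, 1)]),
.rs (.ab2 2 33),
.rs (.part [9, 64, 162] [0, 0, 0] [] [(2, 20)]),
.rs (.lip 2 0 7 7),
.rs (.lipl 1 164 244 1 80),
.rs (.part [2, 189, 64] [0, 1, 0] [] []),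
.rs (.ordE 2 32 1),
.rs (.deg 2 [0, 3, 0]),
.rs (.l2 0 66 80 6 1 1),
.rs (.join 0 2 4 3 2 1 [(1, 0)]),
.rs (.l2 1 12 40 3 1 1),
.rs (.srt 0 3 0 0 3),
.rs (.part [49, 66, 140] [1, 0, 0] [] []),
.rs (.join 2 8 5 3 1 2 [(3, 0)]),
.rs (.le 2 24 8 3 2),
.rs (.join 1 32 6 4 4 3 [(5, 3)]),
.rs (.lip 1 134 190 56),
.rs (.l2 1 6 18 1 1 2),
.rs (.join 0 1 5 4 2 2 [(0, 0)]),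
.rs (.join 2 1 5 3 1 2 [(0, 0)]),
.rs (.lip 1 84 124 56),
.rs (.join 1 4 4 3 2 2 [(2, 1)]),
.rs (.deg 0 [3, 0, 0]),
.rs (.part [89, 6, 160] [1, 0, 0] [] []),
.rs (.join 1 2 2 3 2 2 [(1, 1)]),
.rs (.lip 1 98 122 56),
.rs (.srt 0 1 0 0 3),
.rs (.l2 1 18 24 4 1 2),
.rs (.part [9, 6, 240] [0, 0, 1] [] []),
.rs (.lip 1 133 189 56),
.rs (.part [43, 192, 20] [1, 0, 0] [] []),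
.rs (.part [5, 66, 128] [0, 0, 0] [56] []),
.rs (.join 0 16 5 2 2 1 [(4, 1)]),
.rs (.lip 1 16 22 7),
.rs (.join 2 8 4 2 1 1 [(3, 0)]),
.rs (.l2 1 12 72 3 1 1),
.rs (.ab2 2 68),
.rs (.join 0 2 2 4 2 2 [(1, 0)]),
.rs (.lip 0 1 57 56),
.rs (.join 1 8 4 4 2 2 [(3, 0)]),
.rs (.join 0 1 6 4 4 0 [(0, 0)]),
.rs (.join 0 16 5 3 2 1 [(4, 0)]),
.rs (.join 1 2 5 4 2 2 [(1, 0)]),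
.rs (.join 1 4 4 3 2 1 [(2, 0)]),
.rs (.join 0 1 5 4 3 1 [(0, 0)]),
.rs (.part [9, 80, 130] [0, 0, 0] [] [(1, 36)]),
.rs (.ordE 0 16 2),
.rs (.part [18, 73, 164] [0, 0, 1] [] []),
.rs (.l2 2 18 34 1 1 2),
.rs (.ab2 2 96),
.rs (.lip 2 0 56 56),
.rs (.srt 0 2 0 1 2),
.rs (.join 0 2 4 3 1 2 [(1, 0)]),
.rs (.l2 2 9 40 3 1 1),
.rs (.ordE 0 2 1),
.rs (.part [1, 68, 130] [0, 0, 0] [56] []),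
.rs (.join 0 1 4 3 3 1 [(0, 1)]),
.rs (.l2 2 20 24 4 1 2),
.rs (.join 2 2 7 2 1 1 [(1, 0)]),
.rs (.l2 0 6 10 1 1 2),
.rs (.part [9, 96, 130] [0, 0, 0] [] [(1, 20)]),
.rs (.part [40, 144, 64] [0, 0, 0] [7] []),
.rs (.part [77, 48, 130] [1, 0, 0] [] []),
.rs (.lipl 0 9 27 2 18),
.rs (.lipl 0 9 29 2 20),
.rs (.l2 2 20 68 2 1 1),
.rs (.join 2 1 2 3 2 2 [(0, 1)]),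
.rs (.join 2 1 2 2 1 1 [(0, 0)]),
.rs (.slot 0 [(1, 1), (2, 1), (0, 2), (3, 2), (4, 2), (5, 2), (6, 1)]),
.rs (.join 2 64 7 2 1 1 [(6, 0)]),
.rs (.part [48, 72, 128] [0, 0, 0] [7] []),
.rs (.lipl 2 96 114 2 18),
.rs (.lipl 1 144 178 2 34),
.rs (.join 2 16 6 2 1 1 [(4, 0)]),
.rs (.l2 2 66 80 6 1 1),
.rs (.ab 1 5),
.rs (.mono 1 65 97 1),
.rs (.ordE 1 2 2),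
.rs (.join 1 4 7 3 3 0 [(2, 0)]),
.rs (.part [8, 80, 160] [0, 0, 0] [7] []),
.rs (.ordE 0 32 1),
.rs (.slot 0 [(3, 1), (4, 2), (5, 2), (0, 2), (1, 2), (2, 2)]),
.rs (.lip 1 16 21 7),
.rs (.lip 1 192 248 56),
.rs (.part [1, 120, 134] [0, 0, 1] [] []),
.rs (.join 1 16 6 3 1 2 [(4, 0)]),
.rs (.l2 2 12 36 2 1 1),
.rs (.part [10, 117, 128] [0, 1, 0] [] []),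
.rs (.part [16, 167, 72] [0, 1, 0] [] []),
.rs (.part [8, 183, 64] [0, 1, 0] [] []),
.rs (.part [9, 66, 160] [0, 0, 0] [] [(1, 20)]),
.rs (.part [89, 38, 128] [1, 0, 0] [] []),
.rs (.part [9, 178, 68] [0, 1, 0] [] []),
.rs (.slot 0 [(3, 3), (4, 1), (5, 1), (0, 2), (1, 2), (2, 2)]),
.rs (.mono 1 32 96 1),
.rs (.join 0 4 3 3 1 2 [(2, 0)]),
.rs (.l2 2 24 80 4 1 2),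
.rs (.l2 1 34 36 5 1 2),
.rs (.lipl 1 100 118 0 18),
.rs (.join 0 2 2 2 2 0 [(1, 0)]),
.rs (.part [21, 96, 138] [1, 0, 0] [] []),
.rs (.join 0 1 1 4 2 2 [(0, 0)]),
.rs (.l2 1 3 10 1 2 1),
.rs (.part [13, 96, 146] [1, 0, 0] [] []),
.rs (.deg 2 [1, 0, 2]),
.rs (.join 1 2 4 4 1 3 [(1, 0)]),
.rs (.join 1 1 3 2 1 1 [(0, 0)]),
.rs (.join 0 8 6 4 3 1 [(3, 0)]),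
.rs (.l2 1 18 130 1 1 1),
.rs (.part [17, 96, 130] [0, 0, 0] [] [(2, 12)]),
.rs (.lipl 1 50 118 2 68),
.rs (.deg 1 [0, 2, 1]),
.rs (.deg 4 [1, 2, 0]),
.rs (.part [9, 80, 132] [0, 0, 0] [] [(1, 34)]),
.rs (.l2 2 9 24 3 1 1),
.rs (.l2 1 34 40 5 2 1),
.rs (.join 1 4 5 3 2 2 [(2, 1)]),
.rs (.deg 2 [1, 1, 1]),
.rs (.join 1 1 7 2 1 1 [(0, 0)]),
.rs (.mono 2 144 208 1),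
.rs (.part [9, 22, 224] [0, 0, 1] [] []),
.rs (.part [11, 148, 96] [1, 0, 0] [] []),
.rs (.lipl 0 9 27 0 18),
.rs (.part [9, 86, 160] [0, 1, 0] [] []),
.rs (.part [19, 96, 140] [1, 0, 0] [] []),
.rs (.join 0 1 5 4 4 0 [(0, 0)]),
.rs (.l2 1 18 20 4 1 1),
.rs (.l2 1 10 18 1 1 2),
.rs (.lipl 0 17 29 1 12),
.rs (.lipl 1 160 226 1 66),
.rs (.ab2 2 24),
.rs (.join 1 1 2 3 2 1 [(0, 0)]),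
.rs (.ab 0 1),
.rs (.join 2 4 4 3 3 2 [(2, 2)]),
.rs (.lip 2 128 133 7),
.rs (.ab 0 2),
.rs (.part [33, 64, 152] [0, 0, 0] [6] []),
.rs (.deg 4 [2, 1, 0]),
.rs (.le 0 33 32 5 1),
.rs (.slot 0 [(0, 2), (1, 2), (2, 2), (3, 2), (4, 2), (6, 1)]),
.rs (.ab2 0 40),
.rs (.l2 1 66 96 6 1 2),
.degU 3 [(0, 2), (1, 2), (2, 1)],
.rs (.join 1 16 6 4 2 3 [(4, 1)]),
.rs (.part [17, 64, 164] [0, 0, 0] [] [(2, 10)]),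
.rs (.part [24, 64, 160] [0, 0, 0] [7] []),
.rs (.l2 2 24 80 4 1 1),
.rs (.srt 0 3 0 0 2),
.rs (.l2 1 36 132 2 1 1),
.rs (.l2 0 18 48 4 1 1),
.rs (.join 1 8 4 3 1 2 [(3, 0)]),
.rs (.ordE 1 32 2),
.rs (.part [80, 160, 8] [0, 0, 0] [7] []),
.rs (.lip 1 82 122 56),
.rs (.le 0 12 4 2 1),
.rs (.join 0 1 5 3 3 1 [(0, 1)]),
.rs (.part [5, 88, 162] [0, 1, 0] [] []),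
.rs (.join 0 4 4 3 1 2 [(2, 0)]),
.rs (.lipl 1 6 86 2 80),
.rs (.l2 1 10 18 1 2 1),
.rs (.deg 1 [1, 2, 0]),
.rs (.slot 0 [(0, 3), (1, 1), (2, 1), (3, 2), (4, 2), (5, 1), (6, 1)]),
.rs (.mono 2 144 152 1),
.degU 4 [(0, 1), (1, 3), (2, 1)],
.rs (.part [8, 119, 128] [0, 1, 0] [] []),
.rs (.lipl 2 128 162 1 34),
.rs (.l2 2 34 36 5 2 1),
.rs (.lipl 0 9 75 0 66),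
.rs (.l2 2 12 24 3 1 1),
.rs (.mono 2 16 144 1),
.rs (.part [48, 72, 132] [0, 0, 0] [3] []),
.rs (.l2 2 3 18 1 2 1),
.rs (.lipl 2 16 50 1 34),
.rs (.lipl 2 128 224 0 96),
.rs (.l2 2 33 96 5 1 1),
.rs (.l2 2 68 96 6 1 1),
.degU 4 [(0, 2), (1, 2), (2, 1)],
.rs (.slot 0 [(0, 2), (1, 2), (5, 3), (3, 2), (4, 2)]),
.rs (.l2 1 20 24 4 2 1),
.rs (.join 2 8 4 2 1 2 [(3, 1)]),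
.rs (.le 0 10 2 1 2),
.rs (.l2 1 18 20 4 2 1),
.rs (.mono 1 80 88 1),
.rs (.lipl 0 17 29 2 12),
.rs (.mono 1 96 100 1),
.rs (.ordE 2 4 1),
.rs (.part [17, 100, 138] [0, 1, 0] [] []),
.rs (.part [5, 64, 130] [0, 0, 0] [56] []),
.rs (.join 2 4 6 2 1 1 [(2, 0)]),
.rs (.ab2 2 6),
.rs (.lip 1 2 50 56),
.rs (.mono 2 176 178 1),
.rs (.part [10, 68, 144] [0, 0, 0] [] [(0, 33)]),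
.rs (.lipl 2 128 162 2 34),
.rs (.deg 6 [0, 4, 0]),
.rs (.ab 2 1),
.rs (.l2 1 3 18 1 1 1),
.rs (.join 2 2 3 2 1 1 [(1, 0)]),
.rs (.ab 0 4),
.rs (.part [17, 96, 132] [0, 0, 0] [] [(1, 10)]),
.rs (.l2 1 33 34 5 1 1),
.rs (.lip 1 2 42 56),
.rs (.lip 0 1 25 56),
.rs (.lipl 2 50 182 1 132),
.rs (.deg 5 [1, 1, 1]),
.rs (.lip 1 84 87 7),
.rs (.srt 0 3 0 0 4),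
.rs (.join 2 2 3 3 2 1 [(1, 0)]),
.rs (.join 0 2 3 2 1 2 [(1, 1)]),
.rs (.part [16, 199, 40] [0, 1, 0] [] []),
.rs (.lip 0 16 22 7),
.rs (.l2 2 10 34 1 2 1),
.rs (.join 1 2 4 3 1 2 [(1, 0)]),
.rs (.lipl 2 128 194 0 66),
.rs (.l2 1 10 24 3 1 1),
.rs (.lip 2 128 131 7),
.rs (.lipl 2 128 224 2 96),
.rs (.part [29, 66, 160] [1, 0, 0] [] []),
.rs (.join 1 8 6 4 1 3 [(3, 0)]),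
.rs (.le 0 10 2 1 3),
.rs (.part [9, 98, 148] [0, 0, 1] [] []),
.rs (.lipl 0 9 29 0 20),
.rs (.le 2 160 32 5 3),
.rs (.lip 2 128 152 56),
.rs (.join 2 4 4 3 1 2 [(2, 0)]),
.rs (.lip 1 64 71 7),
.rs (.mono 2 32 48 1),
.rs (.join 2 32 6 2 1 1 [(5, 0)]),
.rs (.join 2 16 6 3 2 1 [(4, 0)]),
.rs (.l2 2 5 17 0 1 1),
.rs (.deg 1 [2, 1, 0]),
.rs (.l2 2 5 36 2 1 1),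
.degU 1 [(0, 2), (1, 2), (2, 1)],
.rs (.part [3, 68, 128] [0, 0, 0] [56] []),
.rs (.mono 1 16 80 1),
.rs (.deg 6 [1, 3, 0]),
.rs (.l2 2 5 20 2 1 1),
.rs (.part [71, 152, 32] [1, 0, 0] [] []),
.rs (.part [9, 148, 98] [0, 0, 1] [] []),
.rs (.part [40, 84, 131] [0, 0, 1] [] []),
.rs (.part [3, 124, 128] [0, 1, 0] [] []),
.rs (.join 1 1 6 4 2 3 [(0, 1)]),
.rs (.l2 1 6 18 1 2 1),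
.rs (.l2 2 3 34 1 1 2),
.rs (.lip 1 192 199 7),
.rs (.join 1 2 5 3 2 1 [(1, 0)]),
.rs (.l2 1 33 34 5 2 1),
.rs (.lip 0 64 120 56),
.rs (.join 1 16 7 2 1 1 [(4, 0)]),
.rs (.part [10, 96, 132] [0, 0, 0] [] [(2, 17)]),
.rs (.part [32, 208, 8] [0, 0, 0] [7] []),
.rs (.part [75, 48, 132] [1, 0, 0] [] []),
.rs (.join 0 17 6 4 3 1 [(0, 0), (4, 0)]),
.rs (.l2 2 5 12 2 1 1),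
.rs (.hall [1] [0, 1, 2, 7]),
.rs (.l2 2 10 24 3 2 1),
.rs (.l2 1 18 24 4 1 1),
.rs (.l2 1 3 6 1 1 1),
.rs (.lip 2 144 146 2),
.rs (.part [29, 224, 2] [1, 0, 0] [] []),
.rs (.part [71, 168, 16] [1, 0, 0] [] []),
.rs (.l2 2 18 80 4 1 1),
.rs (.join 1 8 5 2 1 1 [(3, 0)]),
.rs (.part [32, 80, 136] [0, 0, 0] [7] []),
.rs (.ab2 0 80),
.rs (.mono 2 2 130 1),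
.rs (.part [25, 162, 68] [1, 0, 0] [] []),
.rs (.ab2 2 192),
.rs (.ab2 2 80),
.rs (.join 1 16 7 3 2 2 [(4, 1)]),
.rs (.part [16, 206, 33] [0, 1, 0] [] []),
.rs (.ab 2 7),
.rs (.lipl 1 100 118 1 18),
.rs (.deg 2 [2, 1, 0]),
.rs (.deg 3 [1, 2, 0]),
.rs (.l2 2 18 20 4 1 2),
.rs (.l2 1 34 40 5 1 2),
.rs (.l2 1 3 10 1 1 1),
.rs (.l2 1 10 40 3 1 1),
.rs (.ab2 0 48),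
.rs (.slot 0 [(5, 1), (3, 2), (4, 2), (0, 2), (1, 2), (2, 2)]),
.rs (.le 2 20 16 4 2),
.rs (.slot 0 [(1, 2), (0, 3), (2, 2), (3, 3), (4, 1)]),
.rs (.lipl 0 10 43 0 33),
.rs (.join 1 2 6 3 2 2 [(1, 1)]),
.rs (.ab2 2 144),
.rs (.l2 2 18 48 4 1 1),
.rs (.ab 2 2),
.rs (.lip 0 3 27 56),
.rs (.deg 1 [1, 0, 2]),
.rs (.part [3, 64, 132] [0, 0, 0] [56] []),
.rs (.l2 0 6 12 2 2 1),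
.rs (.join 0 34 6 3 2 1 [(1, 0), (5, 0)]),
.rs (.part [17, 64, 140] [0, 0, 0] [] [(2, 34)]),
.rs (.l2 2 3 6 1 1 1),
.rs (.mono 0 4 5 1),
.rs (.part [1, 122, 132] [0, 1, 0] [] []),
.rs (.slot 0 [(0, 2), (1, 2), (2, 1), (3, 2), (4, 2), (5, 1), (6, 1)]),
.rs (.part [2, 64, 133] [0, 0, 0] [56] []),
.rs (.lipl 0 9 43 1 34),
.rs (.le 2 48 16 4 1),
.rs (.hall [2] [3, 5, 6, 7]),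
.rs (.lip 0 3 43 56),
.rs (.slot 0 [(2, 1), (0, 2), (1, 2), (3, 2), (4, 2), (5, 2)]),
.rs (.l2 1 5 33 0 1 1),
.degU 3 [(0, 2), (2, 3)],
.rs (.join 1 4 3 3 3 1 [(2, 1)]),
.rs (.part [24, 224, 7] [0, 0, 1] [] []),
.rs (.lipl 0 17 27 2 10),
.rs (.part [16, 79, 160] [0, 1, 0] [] []),
.rs (.le 0 65 64 6 1),
.rs (.l2 2 17 24 4 1 1),
.rs (.lipl 1 52 118 2 66),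
.rs (.deg 1 [2, 0, 1]),
.rs (.mono 2 132 196 1),
.rs (.lip 2 80 86 7),
.rs (.l2 1 20 24 4 1 1),
.rs (.lipl 2 38 182 1 144),
.rs (.l2 1 10 18 1 1 1),
.rs (.lipl 0 10 27 1 17),
.rs (.l2 2 10 40 3 1 1),
.rs (.slot 0 [(3, 2), (4, 2), (0, 3), (1, 2), (2, 2)]),
.rs (.l2 1 12 20 2 1 1),
.rs (.part [1, 188, 66] [0, 1, 0] [] []),
.rs (.part [10, 64, 181] [0, 0, 1] [] []),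
.rs (.lip 2 144 148 4),
.rs (.part [40, 67, 148] [0, 1, 0] [] []),
.rs (.part [30, 64, 161] [1, 0, 0] [] []),
.rs (.lip 0 64 71 7),
.rs (.join 1 1 4 3 2 1 [(0, 0)]),
.rs (.join 1 2 5 4 1 3 [(1, 0)]),
.rs (.join 1 4 6 4 2 3 [(2, 1)]),
.rs (.part [1, 186, 68] [0, 1, 0] [] []),
.rs (.join 2 1 6 2 1 1 [(0, 0)]),
.rs (.part [64, 6, 129] [0, 0, 0] [56] []),
.degU 1 [(0, 1), (1, 3), (2, 1)],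
.rs (.l2 2 40 96 5 1 1),
.rs (.l2 0 17 48 4 1 1),
.rs (.un 0 2),
.rs (.ordE 1 2 1),
.rs (.join 1 16 6 3 2 2 [(4, 1)]),
.rs (.part [4, 65, 130] [0, 0, 0] [56] []),
.rs (.lipl 0 9 77 2 68),
.rs (.join 0 1 4 4 4 2 [(0, 2)]),
.rs (.part [29, 98, 128] [1, 0, 0] [] []),
.rs (.l2 2 6 18 1 1 1),
.rs (.lipl 1 82 118 2 36),
.rs (.deg 6 [2, 1, 1]),
.rs (.join 2 1 1 3 2 2 [(0, 1)]),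
.rs (.hall [2] [1, 2, 6, 7]),
.rs (.join 1 2 5 2 1 1 [(1, 0)]),
.rs (.ordE 1 32 1),
.rs (.l2 2 34 66 1 1 1),
.rs (.join 2 2 5 3 2 2 [(1, 1)]),
.rs (.lipl 2 148 181 0 33),
.rs (.join 1 2 3 3 2 1 [(1, 0)]),
.rs (.mono 2 32 160 1),
.rs (.part [51, 64, 140] [1, 0, 0] [] []),
.rs (.lip 1 144 151 7),
.rs (.part [9, 34, 212] [0, 0, 1] [] []),
.degU 2 [(0, 1), (1, 3), (2, 1)],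
.rs (.slot 0 [(0, 4), (1, 1), (2, 1), (3, 3), (4, 2)]),
.rs (.deg 1 [3, 0, 0]),
.rs (.l2 1 17 24 4 1 2),
.rs (.ab2 1 48),
.rs (.hall [0] [4, 5, 6, 7]),
.rs (.deg 5 [2, 1, 0]),
.rs (.part [17, 170, 68] [0, 1, 0] [] []),
.rs (.l2 2 6 66 1 1 1),
.rs (.lip 1 130 186 56),
.rs (.lipl 1 40 106 2 66),
.rs (.l2 0 6 18 1 1 2),
.rs (.join 1 1 5 3 2 1 [(0, 0)]),
.rs (.l2 1 34 36 5 1 1),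
.rs (.part [16, 64, 175] [0, 0, 1] [] []),
.rs (.slot 0 [(0, 3), (1, 1), (2, 1), (3, 3), (4, 1), (5, 1), (6, 1)]),
.rs (.join 1 4 7 2 1 1 [(2, 0)]),
.rs (.ordE 2 2 2),
.rs (.deg 5 [0, 0, 3]),
.rs (.join 1 8 7 2 1 1 [(3, 0)]),
.rs (.deg 4 [2, 0, 1]),
.rs (.ab2 0 3),
.rs (.part [30, 96, 129] [1, 0, 0] [] []),
.rs (.join 1 2 5 3 1 3 [(1, 1)]),
.rs (.ab 2 6),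
.rs (.part [6, 64, 129] [0, 0, 0] [56] []),
.rs (.ordE 0 4 1),
.rs (.hall [2] [3, 4, 5, 7]),
.rs (.srt 2 6 1 6 3),
.rs (.part [65, 130, 4] [0, 0, 0] [56] []),
.rs (.join 1 1 1 3 1 2 [(0, 0)]),
.rs (.lip 0 2 26 56),
.rs (.part [10, 80, 132] [0, 0, 0] [] [(2, 33)]),
.rs (.join 2 4 5 3 3 1 [(2, 1)]),
.rs (.l2 1 6 12 2 1 1),
.rs (.join 0 2 6 3 2 1 [(1, 0)]),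
.rs (.lipl 0 9 43 0 34),
.rs (.part [11, 80, 164] [1, 0, 0] [] []),
.rs (.join 1 4 3 4 3 1 [(2, 0)]),
.rs (.l2 2 40 72 3 1 1),
.rs (.ordE 0 128 2),
.rs (.part [43, 84, 128] [1, 0, 0] [] []),
.rs (.part [40, 71, 144] [0, 1, 0] [] []),
.rs (.part [17, 64, 174] [0, 0, 1] [] []),
.rs (.join 1 4 3 3 1 2 [(2, 0)]),
.rs (.srt 0 5 0 4 2),
.rs (.part [9, 68, 144] [0, 0, 0] [] [(1, 34)]),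
.rs (.hall [0] [3, 4, 5, 7]),
.rs (.ab2 0 65),
.rs (.lip 0 2 58 56),
.rs (.part [13, 162, 80] [1, 0, 0] [] []),
.rs (.le 0 96 32 5 1),
.rs (.un 0 4),
.rs (.deg 3 [1, 0, 2]),
.rs (.deg 3 [2, 0, 1]),
.rs (.part [27, 64, 164] [1, 0, 0] [] []),
.rs (.join 2 4 5 2 1 1 [(2, 0)]),
.rs (.part [57, 68, 130] [1, 0, 0] [] []),
.rs (.part [5, 130, 64] [0, 0, 0] [56] []),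
.rs (.lip 2 64 71 7),
.rs (.l2 1 3 66 1 1 2),
.rs (.join 2 2 3 3 2 2 [(1, 1)]),
.rs (.le 1 12 8 3 2),
.rs (.join 1 16 5 2 1 1 [(4, 0)]),
.rs (.join 1 4 5 4 1 3 [(2, 0)]),
.rs (.deg 2 [0, 2, 1]),
.rs (.l2 2 3 66 1 1 1),
.rs (.part [9, 64, 164] [0, 0, 0] [] [(2, 18)]),
.rs (.join 0 1 5 3 3 0 [(0, 0)]),
.rs (.l2 1 36 40 5 2 1),
.rs (.slot 0 [(3, 2), (4, 2), (1, 3), (0, 2), (2, 2)]),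
.rs (.part [4, 64, 131] [0, 0, 0] [56] []),
.rs (.part [13, 80, 162] [1, 0, 0] [] []),
.degU 3 [(0, 3), (2, 2)],
.rs (.part [9, 64, 148] [0, 0, 0] [] [(2, 34)]),
.rs (.join 1 1 1 3 2 2 [(0, 1)]),
.rs (.part [8, 208, 32] [0, 0, 0] [7] []),
.rs (.join 2 4 5 3 2 1 [(2, 0)]),
.rs (.part [16, 103, 136] [0, 1, 0] [] []),
.rs (.part [9, 228, 18] [0, 1, 0] [] []),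
.rs (.ab 1 4),
.rs (.mono 2 192 208 1),
.degU 6 [(0, 1), (1, 4), (2, 1)],
.rs (.part [48, 76, 131] [0, 0, 1] [] []),
.rs (.join 0 1 4 4 2 2 [(0, 0)]),
.rs (.ab2 2 3),
.rs (.part [4, 193, 2] [0, 0, 0] [56] []),
.rs (.l2 2 20 36 2 1 2),
.rs (.part [16, 143, 96] [0, 1, 0] [] []),
.rs (.deg 6 [0, 2, 2]),
.rs (.join 1 8 5 3 2 2 [(3, 1)]),
.rs (.ordE 1 4 2),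
.rs (.ab2 1 72),
.rs (.join 1 4 3 3 2 1 [(2, 0)]),
.rs (.join 0 2 6 2 1 1 [(1, 0)]),
.rs (.lipl 0 17 29 0 12),
.rs (.part [64, 3, 132] [0, 0, 0] [56] []),
.rs (.ab2 0 9),
.rs (.hall [2] [3, 4, 5, 6]),
.rs (.ab2 0 24),
.rs (.join 2 32 7 2 0 4 [(5, 2)]),
.rs (.join 2 16 5 2 1 1 [(4, 0)]),
.rs (.join 0 1 4 3 3 2 [(0, 2)]),
.rs (.part [1, 190, 64] [0, 1, 0] [] []),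
.rs (.join 2 16 5 3 2 2 [(4, 1)]),
.rs (.lipl 0 17 27 0 10),
.rs (.slot 0 [(3, 2), (4, 1), (1, 2), (2, 2), (0, 3), (6, 1)]),
.rs (.le 0 6 4 2 1),
.rs (.part [9, 100, 146] [0, 0, 1] [] []),
.rs (.ordE 1 8 1),
.rs (.le 1 36 4 2 3),
.rs (.lipl 2 128 140 2 12),
.rs (.part [1, 124, 130] [0, 1, 0] [] []),
.rs (.un 0 6),
.rs (.lip 1 100 103 7),
.rs (.join 0 4 3 3 2 1 [(2, 0)]),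
.rs (.part [96, 24, 128] [0, 0, 0] [7] []),
.rs (.join 0 1 5 2 2 0 [(0, 0)]),
.rs (.part [2, 68, 129] [0, 0, 0] [56] []),
.rs (.join 2 1 6 3 2 1 [(0, 0)]),
.rs (.join 2 1 5 2 1 1 [(0, 0)]),
.rs (.le 1 34 2 1 2),
.rs (.join 1 2 2 2 1 1 [(1, 0)]),
.rs (.ordE 2 64 1),
.rs (.lipl 0 9 89 0 80),
.rs (.part [120, 131, 4] [1, 0, 0] [] []),
.rs (.part [9, 82, 164] [0, 0, 1] [] []),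
.rs (.join 2 2 5 3 1 2 [(1, 0)]),
.rs (.join 1 1 3 3 1 2 [(0, 0)]),
.rs (.join 0 2 5 2 1 1 [(1, 0)]),
.rs (.join 2 16 5 2 0 2 [(4, 0)]),
.rs (.l2 2 6 36 2 1 1),
.rs (.lipl 1 64 98 1 34),
.rs (.l2 1 9 24 3 1 2),
.rs (.part [66, 5, 184] [0, 0, 1] [] []),
.rs (.l2 2 18 24 4 2 1)]

noncomputable def gv : List Gv := [
.low [2, 2, 2, 1, 1, 0],
.cap7,
.low [2, 1, 1, 2, 1, 1],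
.low [3, 1, 1, 2, 1, 0],
.cap6,
.low [4, 1, 1, 1, 1, 0],
.low [2, 2, 0, 2, 1, 1],
.low [3, 0, 0, 3, 1, 1],
.low [2, 1, 1, 2, 2, 0],
.low [3, 2, 0, 2, 1, 0]]

noncomputable def gads : List Gt := [
⟨1, [⟨24, 2, []⟩, ⟨128, 2, []⟩], [3, 3, 3], 1, [(136, 1), (144, 1)]⟩,
⟨1, [⟨36, 3, []⟩, ⟨16, 3, []⟩, ⟨64, 4, []⟩], [7, 3], 1, [(84, 1), (112, 1)]⟩,
⟨1, [⟨10, 3, []⟩, ⟨64, 3, []⟩, ⟨128, 4, []⟩], [7, 3], 1, [(194, 1), (200, 1)]⟩,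
⟨2, [⟨16, 2, []⟩, ⟨64, 2, []⟩], [3, 3, 3], 1, [(80, 1)]⟩,
⟨2, [⟨16, 2, []⟩, ⟨32, 2, []⟩, ⟨2, 2, []⟩, ⟨4, 4, []⟩, ⟨128, 5, []⟩], [3, 3, 3, 12, 4, 4], 2, [(134, 1), (176, 1), (182, 2)]⟩,
⟨1, [⟨8, 2, []⟩, ⟨16, 2, []⟩], [3, 3, 3], 1, [(24, 1)]⟩,
⟨0, [⟨17, 4, []⟩, ⟨34, 2, []⟩], [3, 2, 2], 1, [(3, 1), (18, 1), (33, 1), (48, 1)]⟩,
⟨2, [⟨20, 3, []⟩, ⟨65, 3, []⟩, ⟨128, 4, []⟩], [7, 3], 1, [(133, 1), (145, 1), (196, 1), (208, 1)]⟩,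
⟨1, [⟨0, 0, [(68, 2)]⟩, ⟨2, 2, []⟩], [3, 3, 3], 1, [(70, 1)]⟩,
⟨0, [⟨3, 4, []⟩, ⟨16, 2, []⟩], [3, 2, 2], 1, [(17, 1), (18, 1)]⟩,
⟨1, [⟨5, 3, []⟩, ⟨64, 3, []⟩, ⟨128, 4, []⟩], [7, 3], 1, [(193, 1), (196, 1)]⟩,
⟨2, [⟨2, 3, []⟩, ⟨4, 3, []⟩, ⟨128, 4, []⟩], [7, 3], 1, [(134, 1)]⟩,
⟨2, [⟨3, 3, []⟩, ⟨4, 3, []⟩, ⟨128, 4, []⟩], [7, 3], 1, [(133, 1), (134, 1)]⟩,
⟨1, [⟨0, 0, [(48, 2)]⟩, ⟨64, 2, []⟩], [3, 3, 3], 1, [(112, 1)]⟩,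
⟨1, [⟨136, 3, []⟩, ⟨32, 3, []⟩, ⟨64, 4, []⟩], [7, 3], 1, [(104, 1), (224, 1)]⟩,
⟨2, [⟨36, 3, []⟩, ⟨16, 3, []⟩, ⟨128, 4, []⟩], [7, 3], 1, [(148, 1), (176, 1)]⟩,
⟨1, [⟨4, 3, []⟩, ⟨80, 4, []⟩, ⟨32, 3, []⟩], [7, 5], 1, [(52, 1), (100, 1)]⟩,
⟨2, [⟨18, 3, []⟩, ⟨36, 3, []⟩, ⟨128, 4, []⟩], [7, 3], 1, [(134, 1), (148, 1), (162, 1), (176, 1)]⟩,
⟨1, [⟨10, 3, []⟩, ⟨20, 3, []⟩, ⟨64, 4, []⟩], [7, 3], 1, [(70, 1), (76, 1), (82, 1), (88, 1)]⟩,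
⟨1, [⟨132, 2, []⟩, ⟨64, 2, []⟩], [3, 3, 3], 1, [(68, 1), (192, 1)]⟩,
⟨2, [⟨16, 2, []⟩, ⟨32, 4, []⟩, ⟨4, 2, []⟩, ⟨2, 3, []⟩, ⟨128, 4, []⟩], [3, 1, 1, 12, 12, 20], 2, [(50, 1), (134, 1), (176, 1), (182, 2)]⟩,
⟨1, [⟨33, 3, []⟩, ⟨20, 3, []⟩, ⟨64, 4, []⟩], [7, 3], 1, [(69, 1), (81, 1), (100, 1), (112, 1)]⟩,
⟨2, [⟨96, 3, []⟩, ⟨16, 3, []⟩, ⟨128, 4, []⟩], [7, 3], 1, [(176, 1), (208, 1)]⟩,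
⟨1, [⟨4, 3, []⟩, ⟨64, 3, []⟩, ⟨128, 4, []⟩], [7, 3], 1, [(196, 1)]⟩,
⟨1, [⟨20, 3, []⟩, ⟨32, 3, []⟩, ⟨64, 4, []⟩], [7, 3], 1, [(100, 1), (112, 1)]⟩,
⟨1, [⟨20, 3, []⟩, ⟨2, 3, []⟩, ⟨64, 4, []⟩], [7, 3], 1, [(70, 1), (82, 1)]⟩,
⟨1, [⟨18, 3, []⟩, ⟨12, 3, []⟩, ⟨64, 4, []⟩], [7, 3], 1, [(70, 1), (74, 1), (84, 1), (88, 1)]⟩,
⟨1, [⟨0, 0, [(96, 2)]⟩, ⟨128, 2, []⟩], [3, 3, 3], 1, [(224, 1)]⟩,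
⟨1, [⟨12, 4, []⟩, ⟨16, 3, []⟩, ⟨64, 3, []⟩], [7, 6], 1, [(84, 1), (88, 1)]⟩,
⟨0, [⟨33, 4, []⟩, ⟨8, 2, []⟩], [3, 2, 2], 1, [(9, 1), (40, 1)]⟩,
⟨1, [⟨24, 3, []⟩, ⟨32, 3, []⟩, ⟨128, 4, []⟩], [7, 3], 1, [(168, 1), (176, 1)]⟩,
⟨0, [⟨80, 3, []⟩, ⟨8, 3, []⟩], [3, 3], 1, [(24, 1), (72, 1)]⟩,
⟨1, [⟨18, 3, []⟩, ⟨36, 3, []⟩, ⟨64, 4, []⟩], [7, 3], 1, [(70, 1), (84, 1), (98, 1), (112, 1)]⟩,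
⟨1, [⟨0, 0, [(24, 2)]⟩, ⟨128, 2, []⟩], [3, 3, 3], 1, [(152, 1)]⟩,
⟨1, [⟨2, 2, []⟩, ⟨128, 2, []⟩], [3, 3, 3], 1, [(130, 1)]⟩,
⟨2, [⟨16, 2, []⟩, ⟨32, 2, []⟩], [3, 3, 3], 1, [(48, 1)]⟩,
⟨1, [⟨1, 2, []⟩, ⟨4, 2, []⟩], [3, 3, 3], 1, [(5, 1)]⟩,
⟨2, [⟨10, 3, []⟩, ⟨4, 3, []⟩, ⟨128, 4, []⟩], [7, 3], 1, [(134, 1), (140, 1)]⟩,
⟨2, [⟨20, 3, []⟩, ⟨2, 3, []⟩, ⟨128, 4, []⟩], [7, 3], 1, [(134, 1), (146, 1)]⟩,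
⟨0, [⟨12, 3, []⟩, ⟨1, 3, []⟩], [3, 3], 1, [(5, 1), (9, 1)]⟩,
⟨0, [⟨1, 2, []⟩, ⟨4, 2, []⟩, ⟨8, 2, []⟩, ⟨16, 2, []⟩], [3, 3, 3, 12, 12, 12], 2, [(5, 1), (24, 1), (29, 2)]⟩,
⟨1, [⟨24, 3, []⟩, ⟨32, 4, []⟩, ⟨64, 3, []⟩], [7, 5], 1, [(104, 1), (112, 1)]⟩,
⟨2, [⟨34, 3, []⟩, ⟨16, 3, []⟩, ⟨128, 4, []⟩], [7, 3], 1, [(146, 1), (176, 1)]⟩,
⟨2, [⟨4, 3, []⟩, ⟨16, 3, []⟩, ⟨128, 4, []⟩], [7, 3], 1, [(148, 1)]⟩,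
⟨2, [⟨144, 2, []⟩, ⟨64, 2, []⟩], [3, 3, 3], 1, [(80, 1), (192, 1)]⟩,
⟨0, [⟨8, 3, []⟩, ⟨97, 3, []⟩], [3, 3], 1, [(9, 1), (40, 1), (72, 1)]⟩,
⟨0, [⟨17, 3, []⟩, ⟨8, 3, []⟩], [3, 3], 1, [(9, 1), (24, 1)]⟩,
⟨2, [⟨33, 2, []⟩, ⟨64, 2, []⟩], [3, 3, 3], 1, [(65, 1), (96, 1)]⟩,
⟨0, [⟨9, 4, []⟩, ⟨34, 2, []⟩], [3, 2, 2], 1, [(3, 1), (10, 1), (33, 1), (40, 1)]⟩,
⟨0, [⟨48, 4, []⟩, ⟨1, 2, []⟩], [3, 2, 2], 1, [(17, 1), (33, 1)]⟩,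
⟨0, [⟨48, 3, []⟩, ⟨72, 3, []⟩], [3, 3], 1, [(24, 1), (40, 1), (80, 1), (96, 1)]⟩,
⟨1, [⟨0, 0, [(24, 2)]⟩, ⟨32, 2, []⟩], [3, 3, 3], 1, [(56, 1)]⟩,
⟨2, [⟨24, 4, []⟩, ⟨0, 0, [(34, 2)]⟩, ⟨1, 2, []⟩, ⟨4, 2, []⟩, ⟨128, 5, []⟩], [3, 2, 2, 12, 12, 12], 2, [(133, 1), (170, 1), (175, 2), (178, 1), (183, 2)]⟩,
⟨2, [⟨32, 2, []⟩, ⟨128, 2, []⟩], [3, 3, 3], 1, [(160, 1)]⟩,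
⟨1, [⟨0, 0, [(5, 2)]⟩, ⟨64, 2, []⟩], [3, 3, 3], 1, [(69, 1)]⟩,
⟨2, [⟨18, 2, []⟩, ⟨64, 2, []⟩], [3, 3, 3], 1, [(66, 1), (80, 1)]⟩,
⟨1, [⟨80, 3, []⟩, ⟨4, 3, []⟩, ⟨128, 4, []⟩], [7, 3], 1, [(148, 1), (196, 1)]⟩,
⟨2, [⟨68, 3, []⟩, ⟨2, 3, []⟩, ⟨128, 4, []⟩], [7, 3], 1, [(134, 1), (194, 1)]⟩,
⟨1, [⟨5, 3, []⟩, ⟨2, 3, []⟩, ⟨128, 4, []⟩], [7, 3], 1, [(131, 1), (134, 1)]⟩,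
⟨1, [⟨12, 3, []⟩, ⟨32, 4, []⟩, ⟨64, 3, []⟩], [7, 5], 1, [(100, 1), (104, 1)]⟩,
⟨2, [⟨34, 3, []⟩, ⟨12, 3, []⟩, ⟨128, 4, []⟩], [7, 3], 1, [(134, 1), (138, 1), (164, 1), (168, 1)]⟩,
⟨0, [⟨74, 4, []⟩, ⟨1, 2, []⟩], [3, 2, 2], 1, [(3, 1), (9, 1), (65, 1)]⟩,
⟨1, [⟨16, 2, []⟩, ⟨32, 2, []⟩], [3, 3, 3], 1, [(48, 1)]⟩,
⟨2, [⟨24, 2, []⟩, ⟨32, 2, []⟩], [3, 3, 3], 1, [(40, 1), (48, 1)]⟩,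
⟨0, [⟨33, 4, []⟩, ⟨2, 2, []⟩], [3, 2, 2], 1, [(3, 1), (34, 1)]⟩,
⟨0, [⟨65, 4, []⟩, ⟨2, 2, []⟩], [3, 2, 2], 1, [(3, 1), (66, 1)]⟩,
⟨1, [⟨40, 2, []⟩, ⟨64, 2, []⟩], [3, 3, 3], 1, [(72, 1), (96, 1)]⟩,
⟨2, [⟨8, 3, []⟩, ⟨32, 3, []⟩, ⟨128, 4, []⟩], [7, 3], 1, [(168, 1)]⟩,
⟨1, [⟨17, 2, []⟩, ⟨64, 2, []⟩], [3, 3, 3], 1, [(65, 1), (80, 1)]⟩,
⟨1, [⟨34, 2, []⟩, ⟨64, 2, []⟩], [3, 3, 3], 1, [(66, 1), (96, 1)]⟩,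
⟨1, [⟨24, 2, []⟩, ⟨64, 2, []⟩], [3, 3, 3], 1, [(72, 1), (80, 1)]⟩,
⟨1, [⟨34, 4, []⟩, ⟨16, 3, []⟩, ⟨64, 3, []⟩], [7, 6], 1, [(82, 1), (112, 1)]⟩,
⟨1, [⟨33, 3, []⟩, ⟨4, 4, []⟩, ⟨64, 3, []⟩], [7, 5], 1, [(69, 1), (100, 1)]⟩,
⟨0, [⟨50, 4, []⟩, ⟨8, 2, []⟩], [3, 2, 2], 1, [(10, 1), (24, 1), (40, 1)]⟩,
⟨2, [⟨4, 2, []⟩, ⟨32, 2, []⟩], [3, 3, 3], 1, [(36, 1)]⟩,
⟨1, [⟨5, 3, []⟩, ⟨2, 3, []⟩, ⟨64, 4, []⟩], [7, 3], 1, [(67, 1), (70, 1)]⟩,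
⟨1, [⟨4, 3, []⟩, ⟨32, 3, []⟩, ⟨128, 4, []⟩], [7, 3], 1, [(164, 1)]⟩,
⟨2, [⟨0, 0, [(48, 2)]⟩, ⟨128, 2, []⟩], [3, 3, 3], 1, [(176, 1)]⟩,
⟨0, [⟨6, 3, []⟩, ⟨65, 3, []⟩], [3, 3], 1, [(3, 1), (5, 1), (66, 1), (68, 1)]⟩,
⟨2, [⟨18, 3, []⟩, ⟨4, 3, []⟩, ⟨128, 4, []⟩], [7, 3], 1, [(134, 1), (148, 1)]⟩,
⟨2, [⟨10, 3, []⟩, ⟨32, 3, []⟩, ⟨128, 4, []⟩], [7, 3], 1, [(162, 1), (168, 1)]⟩,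
⟨1, [⟨0, 0, [(3, 2)]⟩, ⟨64, 2, []⟩], [3, 3, 3], 1, [(67, 1)]⟩,
⟨1, [⟨18, 4, []⟩, ⟨32, 3, []⟩, ⟨64, 3, []⟩], [7, 6], 1, [(98, 1), (112, 1)]⟩,
⟨1, [⟨80, 3, []⟩, ⟨32, 3, []⟩, ⟨128, 4, []⟩], [7, 3], 1, [(176, 1), (224, 1)]⟩,
⟨2, [⟨12, 3, []⟩, ⟨48, 3, []⟩, ⟨128, 4, []⟩], [7, 3], 1, [(148, 1), (152, 1), (164, 1), (168, 1)]⟩,
⟨1, [⟨1, 2, []⟩, ⟨2, 2, []⟩], [3, 3, 3], 1, [(3, 1)]⟩,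
⟨2, [⟨20, 3, []⟩, ⟨66, 3, []⟩, ⟨128, 4, []⟩], [7, 3], 1, [(134, 1), (146, 1), (196, 1), (208, 1)]⟩,
⟨2, [⟨48, 2, []⟩, ⟨128, 2, []⟩], [3, 3, 3], 1, [(144, 1), (160, 1)]⟩,
⟨2, [⟨18, 2, []⟩, ⟨128, 2, []⟩], [3, 3, 3], 1, [(130, 1), (144, 1)]⟩,
⟨1, [⟨8, 2, []⟩, ⟨64, 2, []⟩], [3, 3, 3], 1, [(72, 1)]⟩,
⟨1, [⟨4, 3, []⟩, ⟨18, 4, []⟩, ⟨160, 3, []⟩], [7, 5], 1, [(38, 1), (52, 1), (134, 1), (148, 1)]⟩,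
⟨0, [⟨33, 3, []⟩, ⟨8, 3, []⟩], [3, 3], 1, [(9, 1), (40, 1)]⟩,
⟨1, [⟨4, 3, []⟩, ⟨64, 4, []⟩, ⟨128, 3, []⟩], [7, 5], 1, [(196, 1)]⟩,
⟨0, [⟨24, 4, []⟩, ⟨32, 2, []⟩], [3, 2, 2], 1, [(40, 1), (48, 1)]⟩,
⟨1, [⟨6, 2, []⟩, ⟨64, 2, []⟩], [3, 3, 3], 1, [(66, 1), (68, 1)]⟩,
⟨0, [⟨3, 4, []⟩, ⟨4, 2, []⟩], [3, 2, 2], 1, [(5, 1), (6, 1)]⟩,
⟨0, [⟨1, 2, []⟩, ⟨2, 2, []⟩, ⟨8, 2, []⟩, ⟨32, 2, []⟩], [3, 3, 3, 12, 12, 12], 2, [(3, 1), (40, 1), (43, 2)]⟩,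
⟨0, [⟨3, 4, []⟩, ⟨8, 2, []⟩], [3, 2, 2], 1, [(9, 1), (10, 1)]⟩,
⟨1, [⟨32, 3, []⟩, ⟨18, 4, []⟩, ⟨132, 3, []⟩], [7, 5], 1, [(38, 1), (52, 1), (162, 1), (176, 1)]⟩,
⟨2, [⟨20, 3, []⟩, ⟨40, 3, []⟩, ⟨128, 4, []⟩], [7, 3], 1, [(140, 1), (152, 1), (164, 1), (176, 1)]⟩,
⟨1, [⟨4, 2, []⟩, ⟨16, 2, []⟩], [3, 3, 3], 1, [(20, 1)]⟩,
⟨2, [⟨18, 3, []⟩, ⟨40, 3, []⟩, ⟨128, 4, []⟩], [7, 3], 1, [(138, 1), (152, 1), (162, 1), (176, 1)]⟩,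
⟨2, [⟨32, 2, []⟩, ⟨64, 2, []⟩], [3, 3, 3], 1, [(96, 1)]⟩,
⟨2, [⟨12, 3, []⟩, ⟨32, 3, []⟩, ⟨128, 4, []⟩], [7, 3], 1, [(164, 1), (168, 1)]⟩,
⟨1, [⟨20, 3, []⟩, ⟨64, 3, []⟩, ⟨128, 4, []⟩], [7, 3], 1, [(196, 1), (208, 1)]⟩,
⟨1, [⟨34, 3, []⟩, ⟨20, 3, []⟩, ⟨64, 4, []⟩], [7, 3], 1, [(70, 1), (82, 1), (100, 1), (112, 1)]⟩,
⟨2, [⟨36, 3, []⟩, ⟨2, 3, []⟩, ⟨128, 4, []⟩], [7, 3], 1, [(134, 1), (162, 1)]⟩,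
⟨1, [⟨12, 3, []⟩, ⟨64, 3, []⟩, ⟨128, 4, []⟩], [7, 3], 1, [(196, 1), (200, 1)]⟩,
⟨0, [⟨1, 3, []⟩, ⟨98, 3, []⟩], [3, 3], 1, [(3, 1), (33, 1), (65, 1)]⟩,
⟨0, [⟨1, 2, []⟩, ⟨2, 2, []⟩, ⟨16, 2, []⟩, ⟨32, 2, []⟩], [3, 3, 3, 12, 12, 12], 2, [(3, 1), (48, 1), (51, 2)]⟩,
⟨2, [⟨36, 2, []⟩, ⟨128, 2, []⟩], [3, 3, 3], 1, [(132, 1), (160, 1)]⟩,
⟨1, [⟨48, 3, []⟩, ⟨4, 4, []⟩, ⟨64, 3, []⟩], [7, 5], 1, [(84, 1), (100, 1)]⟩,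
⟨0, [⟨81, 4, []⟩, ⟨8, 2, []⟩], [3, 2, 2], 1, [(9, 1), (24, 1), (72, 1)]⟩,
⟨0, [⟨1, 4, []⟩, ⟨6, 2, []⟩], [3, 2, 2], 1, [(3, 1), (5, 1)]⟩,
⟨1, [⟨0, 0, [(40, 2)]⟩, ⟨64, 2, []⟩], [3, 3, 3], 1, [(104, 1)]⟩,
⟨2, [⟨10, 2, []⟩, ⟨128, 2, []⟩], [3, 3, 3], 1, [(130, 1), (136, 1)]⟩,
⟨1, [⟨20, 3, []⟩, ⟨32, 4, []⟩, ⟨64, 3, []⟩], [7, 5], 1, [(100, 1), (112, 1)]⟩,
⟨2, [⟨16, 2, []⟩, ⟨32, 4, []⟩, ⟨2, 2, []⟩, ⟨4, 3, []⟩, ⟨128, 4, []⟩], [3, 1, 1, 12, 12, 20], 2, [(52, 1), (134, 1), (176, 1), (182, 2)]⟩,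
⟨1, [⟨34, 3, []⟩, ⟨4, 4, []⟩, ⟨16, 3, []⟩], [7, 5], 1, [(22, 1), (52, 1)]⟩,
⟨2, [⟨24, 3, []⟩, ⟨32, 3, []⟩, ⟨128, 4, []⟩], [7, 3], 1, [(168, 1), (176, 1)]⟩,
⟨2, [⟨20, 3, []⟩, ⟨32, 3, []⟩, ⟨128, 4, []⟩], [7, 3], 1, [(164, 1), (176, 1)]⟩,
⟨1, [⟨65, 4, []⟩, ⟨2, 3, []⟩, ⟨4, 3, []⟩], [7, 6], 1, [(7, 1), (70, 1)]⟩,
⟨1, [⟨3, 3, []⟩, ⟨4, 3, []⟩, ⟨128, 4, []⟩], [7, 3], 1, [(133, 1), (134, 1)]⟩,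
⟨1, [⟨40, 3, []⟩, ⟨4, 4, []⟩, ⟨64, 3, []⟩], [7, 5], 1, [(76, 1), (100, 1)]⟩,
⟨1, [⟨16, 3, []⟩, ⟨32, 4, []⟩, ⟨64, 3, []⟩], [7, 5], 1, [(112, 1)]⟩,
⟨2, [⟨2, 2, []⟩, ⟨32, 2, []⟩], [3, 3, 3], 1, [(34, 1)]⟩,
⟨2, [⟨2, 2, []⟩, ⟨4, 2, []⟩, ⟨16, 2, []⟩, ⟨32, 4, []⟩, ⟨128, 5, []⟩], [3, 3, 3, 12, 4, 4], 2, [(134, 1), (176, 1), (182, 2)]⟩,
⟨1, [⟨16, 2, []⟩, ⟨128, 2, []⟩], [3, 3, 3], 1, [(144, 1)]⟩,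
⟨2, [⟨10, 2, []⟩, ⟨4, 2, []⟩], [3, 3, 3], 1, [(6, 1), (12, 1)]⟩,
⟨1, [⟨34, 3, []⟩, ⟨12, 3, []⟩, ⟨64, 4, []⟩], [7, 3], 1, [(70, 1), (74, 1), (100, 1), (104, 1)]⟩,
⟨1, [⟨130, 2, []⟩, ⟨64, 2, []⟩], [3, 3, 3], 1, [(66, 1), (192, 1)]⟩,
⟨1, [⟨136, 2, []⟩, ⟨64, 2, []⟩], [3, 3, 3], 1, [(72, 1), (192, 1)]⟩,
⟨2, [⟨68, 2, []⟩, ⟨128, 2, []⟩], [3, 3, 3], 1, [(132, 1), (192, 1)]⟩,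
⟨1, [⟨129, 2, []⟩, ⟨64, 2, []⟩], [3, 3, 3], 1, [(65, 1), (192, 1)]⟩,
⟨1, [⟨18, 3, []⟩, ⟨4, 3, []⟩, ⟨64, 4, []⟩], [7, 3], 1, [(70, 1), (84, 1)]⟩,
⟨2, [⟨2, 2, []⟩, ⟨4, 4, []⟩, ⟨24, 2, []⟩, ⟨32, 3, []⟩, ⟨128, 4, []⟩], [3, 1, 1, 12, 12, 20], 2, [(38, 1), (134, 1), (168, 1), (174, 2), (176, 1), (182, 2)]⟩,
⟨1, [⟨80, 4, []⟩, ⟨8, 3, []⟩, ⟨32, 3, []⟩], [7, 6], 1, [(56, 1), (104, 1)]⟩,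
⟨2, [⟨144, 2, []⟩, ⟨32, 2, []⟩], [3, 3, 3], 1, [(48, 1), (160, 1)]⟩,
⟨2, [⟨132, 2, []⟩, ⟨2, 2, []⟩], [3, 3, 3], 1, [(6, 1), (130, 1)]⟩,
⟨2, [⟨33, 2, []⟩, ⟨128, 2, []⟩], [3, 3, 3], 1, [(129, 1), (160, 1)]⟩,
⟨1, [⟨96, 4, []⟩, ⟨8, 3, []⟩, ⟨16, 3, []⟩], [7, 6], 1, [(56, 1), (88, 1)]⟩,
⟨2, [⟨4, 2, []⟩, ⟨64, 2, []⟩], [3, 3, 3], 1, [(68, 1)]⟩,
⟨2, [⟨34, 3, []⟩, ⟨20, 3, []⟩, ⟨128, 4, []⟩], [7, 3], 1, [(134, 1), (146, 1), (164, 1), (176, 1)]⟩,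
⟨1, [⟨72, 3, []⟩, ⟨4, 3, []⟩, ⟨128, 4, []⟩], [7, 3], 1, [(140, 1), (196, 1)]⟩,
⟨1, [⟨0, 0, [(66, 2)]⟩, ⟨4, 2, []⟩], [3, 3, 3], 1, [(70, 1)]⟩,
⟨1, [⟨32, 3, []⟩, ⟨64, 3, []⟩, ⟨128, 4, []⟩], [7, 3], 1, [(224, 1)]⟩,
⟨1, [⟨24, 4, []⟩, ⟨0, 0, [(34, 2)]⟩, ⟨1, 2, []⟩, ⟨4, 2, []⟩, ⟨64, 5, []⟩], [3, 2, 2, 12, 12, 12], 2, [(69, 1), (106, 1), (111, 2), (114, 1), (119, 2)]⟩,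
⟨1, [⟨36, 4, []⟩, ⟨2, 3, []⟩, ⟨64, 3, []⟩], [7, 6], 1, [(70, 1), (98, 1)]⟩,
⟨0, [⟨33, 4, []⟩, ⟨16, 2, []⟩], [3, 2, 2], 1, [(17, 1), (48, 1)]⟩,
⟨1, [⟨2, 3, []⟩, ⟨4, 2, []⟩, ⟨16, 2, []⟩, ⟨32, 4, []⟩, ⟨64, 4, []⟩], [3, 3, 18, 12, 4, 4], 2, [(50, 1), (70, 1), (112, 1), (118, 2)]⟩,
⟨0, [⟨10, 3, []⟩, ⟨1, 3, []⟩], [3, 3], 1, [(3, 1), (9, 1)]⟩,
⟨1, [⟨34, 4, []⟩, ⟨4, 3, []⟩, ⟨64, 3, []⟩], [7, 6], 1, [(70, 1), (100, 1)]⟩,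
⟨1, [⟨0, 0, [(72, 2)]⟩, ⟨128, 2, []⟩], [3, 3, 3], 1, [(200, 1)]⟩,
⟨2, [⟨34, 2, []⟩, ⟨4, 2, []⟩], [3, 3, 3], 1, [(6, 1), (36, 1)]⟩,
⟨1, [⟨1, 2, []⟩, ⟨128, 2, []⟩], [3, 3, 3], 1, [(129, 1)]⟩,
⟨2, [⟨8, 2, []⟩, ⟨32, 2, []⟩, ⟨2, 2, []⟩, ⟨4, 4, []⟩, ⟨128, 5, []⟩], [3, 3, 3, 12, 4, 4], 2, [(134, 1), (168, 1), (174, 2)]⟩,
⟨2, [⟨2, 3, []⟩, ⟨32, 3, []⟩, ⟨128, 4, []⟩], [7, 3], 1, [(162, 1)]⟩,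
⟨1, [⟨24, 3, []⟩, ⟨64, 3, []⟩, ⟨128, 4, []⟩], [7, 3], 1, [(200, 1), (208, 1)]⟩,
⟨1, [⟨2, 3, []⟩, ⟨4, 4, []⟩, ⟨64, 3, []⟩], [7, 5], 1, [(70, 1)]⟩,
⟨1, [⟨2, 3, []⟩, ⟨4, 3, []⟩, ⟨128, 4, []⟩], [7, 3], 1, [(134, 1)]⟩,
⟨1, [⟨48, 3, []⟩, ⟨8, 3, []⟩, ⟨64, 4, []⟩], [7, 3], 1, [(88, 1), (104, 1)]⟩,
⟨2, [⟨17, 3, []⟩, ⟨32, 3, []⟩, ⟨128, 4, []⟩], [7, 3], 1, [(161, 1), (176, 1)]⟩,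
⟨1, [⟨2, 2, []⟩, ⟨64, 2, []⟩], [3, 3, 3], 1, [(66, 1)]⟩,
⟨2, [⟨2, 2, []⟩, ⟨4, 2, []⟩], [3, 3, 3], 1, [(6, 1)]⟩,
⟨1, [⟨4, 3, []⟩, ⟨32, 3, []⟩, ⟨64, 4, []⟩], [7, 3], 1, [(100, 1)]⟩,
⟨2, [⟨17, 3, []⟩, ⟨6, 3, []⟩, ⟨128, 4, []⟩], [7, 3], 1, [(131, 1), (133, 1), (146, 1), (148, 1)]⟩,
⟨1, [⟨33, 3, []⟩, ⟨4, 3, []⟩, ⟨64, 4, []⟩], [7, 3], 1, [(69, 1), (100, 1)]⟩,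
⟨1, [⟨20, 3, []⟩, ⟨32, 4, []⟩, ⟨2, 3, []⟩], [7, 5], 1, [(38, 1), (50, 1)]⟩,
⟨2, [⟨5, 2, []⟩, ⟨128, 2, []⟩], [3, 3, 3], 1, [(129, 1), (132, 1)]⟩,
⟨0, [⟨48, 4, []⟩, ⟨8, 2, []⟩], [3, 2, 2], 1, [(24, 1), (40, 1)]⟩,
⟨0, [⟨97, 4, []⟩, ⟨8, 2, []⟩], [3, 2, 2], 1, [(9, 1), (40, 1), (72, 1)]⟩,
⟨1, [⟨5, 2, []⟩, ⟨64, 2, []⟩], [3, 3, 3], 1, [(65, 1), (68, 1)]⟩,
⟨2, [⟨40, 2, []⟩, ⟨64, 2, []⟩], [3, 3, 3], 1, [(72, 1), (96, 1)]⟩,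
⟨1, [⟨18, 4, []⟩, ⟨4, 3, []⟩, ⟨64, 3, []⟩], [7, 6], 1, [(70, 1), (84, 1)]⟩,
⟨2, [⟨48, 3, []⟩, ⟨8, 3, []⟩, ⟨128, 4, []⟩], [7, 3], 1, [(152, 1), (168, 1)]⟩,
⟨2, [⟨12, 3, []⟩, ⟨2, 3, []⟩, ⟨128, 4, []⟩], [7, 3], 1, [(134, 1), (138, 1)]⟩,
⟨1, [⟨8, 3, []⟩, ⟨32, 3, []⟩, ⟨64, 4, []⟩], [7, 3], 1, [(104, 1)]⟩,
⟨1, [⟨3, 2, []⟩, ⟨64, 2, []⟩], [3, 3, 3], 1, [(65, 1), (66, 1)]⟩,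
⟨1, [⟨1, 2, []⟩, ⟨4, 2, []⟩, ⟨0, 0, [(24, 2)]⟩, ⟨32, 4, []⟩, ⟨64, 5, []⟩], [3, 3, 3, 12, 4, 4], 2, [(69, 1), (120, 1), (125, 2)]⟩,
⟨1, [⟨4, 2, []⟩, ⟨128, 2, []⟩], [3, 3, 3], 1, [(132, 1)]⟩,
⟨1, [⟨36, 3, []⟩, ⟨2, 3, []⟩, ⟨64, 4, []⟩], [7, 3], 1, [(70, 1), (98, 1)]⟩,
⟨2, [⟨66, 3, []⟩, ⟨4, 3, []⟩, ⟨128, 4, []⟩], [7, 3], 1, [(134, 1), (196, 1)]⟩,
⟨2, [⟨34, 3, []⟩, ⟨5, 3, []⟩, ⟨128, 4, []⟩], [7, 3], 1, [(131, 1), (134, 1), (161, 1), (164, 1)]⟩,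
⟨1, [⟨4, 3, []⟩, ⟨2, 2, []⟩, ⟨16, 2, []⟩, ⟨32, 4, []⟩, ⟨64, 4, []⟩], [3, 3, 18, 12, 4, 4], 2, [(52, 1), (70, 1), (112, 1), (118, 2)]⟩,
⟨1, [⟨10, 3, []⟩, ⟨4, 3, []⟩, ⟨64, 4, []⟩], [7, 3], 1, [(70, 1), (76, 1)]⟩,
⟨1, [⟨80, 4, []⟩, ⟨2, 3, []⟩, ⟨4, 3, []⟩], [7, 6], 1, [(22, 1), (70, 1)]⟩,
⟨1, [⟨33, 2, []⟩, ⟨64, 2, []⟩], [3, 3, 3], 1, [(65, 1), (96, 1)]⟩,
⟨2, [⟨34, 3, []⟩, ⟨68, 3, []⟩, ⟨128, 4, []⟩], [7, 3], 1, [(134, 1), (164, 1), (194, 1), (224, 1)]⟩,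
⟨2, [⟨4, 2, []⟩, ⟨128, 2, []⟩], [3, 3, 3], 1, [(132, 1)]⟩,
⟨1, [⟨18, 3, []⟩, ⟨32, 3, []⟩, ⟨64, 4, []⟩], [7, 3], 1, [(98, 1), (112, 1)]⟩,
⟨1, [⟨12, 3, []⟩, ⟨2, 3, []⟩, ⟨64, 4, []⟩], [7, 3], 1, [(70, 1), (74, 1)]⟩,
⟨0, [⟨8, 2, []⟩, ⟨48, 2, []⟩, ⟨1, 2, []⟩, ⟨2, 2, []⟩], [3, 3, 3, 12, 12, 12], 2, [(3, 1), (24, 1), (27, 2), (40, 1), (43, 2)]⟩,
⟨1, [⟨10, 3, []⟩, ⟨32, 3, []⟩, ⟨64, 4, []⟩], [7, 3], 1, [(98, 1), (104, 1)]⟩,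
⟨0, [⟨18, 3, []⟩, ⟨1, 3, []⟩], [3, 3], 1, [(3, 1), (17, 1)]⟩,
⟨1, [⟨8, 2, []⟩, ⟨32, 2, []⟩], [3, 3, 3], 1, [(40, 1)]⟩,
⟨2, [⟨1, 2, []⟩, ⟨128, 2, []⟩], [3, 3, 3], 1, [(129, 1)]⟩,
⟨2, [⟨4, 2, []⟩, ⟨192, 2, []⟩], [3, 3, 3], 1, [(68, 1), (132, 1)]⟩,
⟨2, [⟨68, 2, []⟩, ⟨2, 2, []⟩], [3, 3, 3], 1, [(6, 1), (66, 1)]⟩,
⟨1, [⟨40, 3, []⟩, ⟨16, 3, []⟩, ⟨128, 4, []⟩], [7, 3], 1, [(152, 1), (176, 1)]⟩,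
⟨0, [⟨6, 4, []⟩, ⟨1, 2, []⟩], [3, 2, 2], 1, [(3, 1), (5, 1)]⟩,
⟨2, [⟨2, 2, []⟩, ⟨128, 2, []⟩], [3, 3, 3], 1, [(130, 1)]⟩,
⟨1, [⟨16, 3, []⟩, ⟨64, 4, []⟩, ⟨128, 3, []⟩], [7, 5], 1, [(208, 1)]⟩,
⟨0, [⟨20, 3, []⟩, ⟨1, 3, []⟩], [3, 3], 1, [(5, 1), (17, 1)]⟩,
⟨1, [⟨2, 2, []⟩, ⟨4, 2, []⟩], [3, 3, 3], 1, [(6, 1)]⟩,
⟨1, [⟨32, 3, []⟩, ⟨16, 2, []⟩, ⟨2, 2, []⟩, ⟨4, 4, []⟩, ⟨64, 4, []⟩], [3, 3, 18, 12, 4, 4], 2, [(38, 1), (70, 1), (112, 1), (118, 2)]⟩,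
⟨1, [⟨33, 3, []⟩, ⟨12, 3, []⟩, ⟨64, 4, []⟩], [7, 3], 1, [(69, 1), (73, 1), (100, 1), (104, 1)]⟩,
⟨1, [⟨18, 3, []⟩, ⟨32, 3, []⟩, ⟨128, 4, []⟩], [7, 3], 1, [(162, 1), (176, 1)]⟩,
⟨2, [⟨1, 2, []⟩, ⟨4, 2, []⟩], [3, 3, 3], 1, [(5, 1)]⟩,
⟨2, [⟨24, 4, []⟩, ⟨0, 0, [(33, 2)]⟩, ⟨2, 2, []⟩, ⟨4, 2, []⟩, ⟨128, 5, []⟩], [3, 2, 2, 12, 12, 12], 2, [(134, 1), (169, 1), (175, 2), (177, 1), (183, 2)]⟩,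
⟨2, [⟨34, 3, []⟩, ⟨72, 3, []⟩, ⟨128, 4, []⟩], [7, 3], 1, [(138, 1), (168, 1), (194, 1), (224, 1)]⟩,
⟨1, [⟨66, 4, []⟩, ⟨16, 3, []⟩, ⟨32, 3, []⟩], [7, 6], 1, [(50, 1), (112, 1)]⟩,
⟨2, [⟨160, 2, []⟩, ⟨16, 2, []⟩], [3, 3, 3], 1, [(48, 1), (144, 1)]⟩,
⟨1, [⟨2, 2, []⟩, ⟨32, 2, []⟩], [3, 3, 3], 1, [(34, 1)]⟩,
⟨1, [⟨16, 3, []⟩, ⟨64, 3, []⟩, ⟨128, 4, []⟩], [7, 3], 1, [(208, 1)]⟩,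
⟨2, [⟨96, 2, []⟩, ⟨128, 2, []⟩], [3, 3, 3], 1, [(160, 1), (192, 1)]⟩,
⟨1, [⟨36, 2, []⟩, ⟨64, 2, []⟩], [3, 3, 3], 1, [(68, 1), (96, 1)]⟩,
⟨1, [⟨32, 2, []⟩, ⟨64, 2, []⟩], [3, 3, 3], 1, [(96, 1)]⟩,
⟨2, [⟨80, 2, []⟩, ⟨32, 2, []⟩], [3, 3, 3], 1, [(48, 1), (96, 1)]⟩,
⟨2, [⟨136, 2, []⟩, ⟨32, 2, []⟩], [3, 3, 3], 1, [(40, 1), (160, 1)]⟩,
⟨2, [⟨10, 3, []⟩, ⟨20, 3, []⟩, ⟨128, 4, []⟩], [7, 3], 1, [(134, 1), (140, 1), (146, 1), (152, 1)]⟩,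
⟨2, [⟨34, 3, []⟩, ⟨80, 3, []⟩, ⟨128, 4, []⟩], [7, 3], 1, [(146, 1), (176, 1), (194, 1), (224, 1)]⟩,
⟨0, [⟨8, 4, []⟩, ⟨48, 2, []⟩], [3, 2, 2], 1, [(24, 1), (40, 1)]⟩,
⟨0, [⟨8, 3, []⟩, ⟨16, 3, []⟩], [3, 3], 1, [(24, 1)]⟩,
⟨2, [⟨20, 2, []⟩, ⟨128, 2, []⟩], [3, 3, 3], 1, [(132, 1), (144, 1)]⟩,
⟨1, [⟨3, 3, []⟩, ⟨4, 3, []⟩, ⟨64, 4, []⟩], [7, 3], 1, [(69, 1), (70, 1)]⟩,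
⟨1, [⟨0, 0, [(24, 2)]⟩, ⟨64, 2, []⟩], [3, 3, 3], 1, [(88, 1)]⟩,
⟨2, [⟨2, 2, []⟩, ⟨16, 2, []⟩], [3, 3, 3], 1, [(18, 1)]⟩,
⟨1, [⟨17, 3, []⟩, ⟨64, 3, []⟩, ⟨128, 4, []⟩], [7, 3], 1, [(193, 1), (208, 1)]⟩,
⟨0, [⟨72, 4, []⟩, ⟨16, 2, []⟩], [3, 2, 2], 1, [(24, 1), (80, 1)]⟩,
⟨2, [⟨8, 2, []⟩, ⟨128, 2, []⟩], [3, 3, 3], 1, [(136, 1)]⟩,
⟨1, [⟨20, 2, []⟩, ⟨64, 2, []⟩], [3, 3, 3], 1, [(68, 1), (80, 1)]⟩,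
⟨2, [⟨0, 0, [(6, 2)]⟩, ⟨128, 2, []⟩], [3, 3, 3], 1, [(134, 1)]⟩,
⟨0, [⟨24, 4, []⟩, ⟨96, 2, []⟩], [3, 2, 2], 1, [(40, 1), (48, 1), (72, 1), (80, 1)]⟩,
⟨1, [⟨17, 3, []⟩, ⟨4, 3, []⟩, ⟨64, 4, []⟩], [7, 3], 1, [(69, 1), (84, 1)]⟩,
⟨2, [⟨3, 2, []⟩, ⟨128, 2, []⟩], [3, 3, 3], 1, [(129, 1), (130, 1)]⟩,
⟨0, [⟨5, 4, []⟩, ⟨2, 2, []⟩], [3, 2, 2], 1, [(3, 1), (6, 1)]⟩,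
⟨1, [⟨32, 2, []⟩, ⟨128, 2, []⟩], [3, 3, 3], 1, [(160, 1)]⟩,
⟨2, [⟨5, 2, []⟩, ⟨64, 2, []⟩], [3, 3, 3], 1, [(65, 1), (68, 1)]⟩,
⟨2, [⟨4, 3, []⟩, ⟨32, 3, []⟩, ⟨128, 4, []⟩], [7, 3], 1, [(164, 1)]⟩,
⟨1, [⟨36, 4, []⟩, ⟨16, 3, []⟩, ⟨64, 3, []⟩], [7, 6], 1, [(84, 1), (112, 1)]⟩,
⟨1, [⟨144, 3, []⟩, ⟨32, 3, []⟩, ⟨64, 4, []⟩], [7, 3], 1, [(112, 1), (224, 1)]⟩,
⟨1, [⟨64, 2, []⟩, ⟨128, 2, []⟩], [3, 3, 3], 1, [(192, 1)]⟩,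
⟨1, [⟨144, 2, []⟩, ⟨64, 2, []⟩], [3, 3, 3], 1, [(80, 1), (192, 1)]⟩,
⟨1, [⟨20, 4, []⟩, ⟨32, 3, []⟩, ⟨64, 3, []⟩], [7, 6], 1, [(100, 1), (112, 1)]⟩,
⟨1, [⟨72, 4, []⟩, ⟨16, 3, []⟩, ⟨32, 3, []⟩], [7, 6], 1, [(56, 1), (112, 1)]⟩,
⟨1, [⟨6, 3, []⟩, ⟨64, 3, []⟩, ⟨128, 4, []⟩], [7, 3], 1, [(194, 1), (196, 1)]⟩,
⟨0, [⟨33, 4, []⟩, ⟨66, 2, []⟩], [3, 2, 2], 1, [(3, 1), (34, 1), (65, 1), (96, 1)]⟩,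
⟨0, [⟨1, 3, []⟩, ⟨6, 3, []⟩], [3, 3], 1, [(3, 1), (5, 1)]⟩,
⟨1, [⟨8, 3, []⟩, ⟨64, 3, []⟩, ⟨128, 4, []⟩], [7, 3], 1, [(200, 1)]⟩,
⟨0, [⟨1, 3, []⟩, ⟨74, 3, []⟩], [3, 3], 1, [(3, 1), (9, 1), (65, 1)]⟩,
⟨1, [⟨32, 3, []⟩, ⟨64, 4, []⟩, ⟨128, 3, []⟩], [7, 5], 1, [(224, 1)]⟩,
⟨1, [⟨2, 3, []⟩, ⟨32, 3, []⟩, ⟨64, 4, []⟩], [7, 3], 1, [(98, 1)]⟩,
⟨2, [⟨40, 3, []⟩, ⟨16, 3, []⟩, ⟨128, 4, []⟩], [7, 3], 1, [(152, 1), (176, 1)]⟩,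
⟨1, [⟨34, 3, []⟩, ⟨16, 3, []⟩, ⟨64, 4, []⟩], [7, 3], 1, [(82, 1), (112, 1)]⟩,
⟨2, [⟨16, 2, []⟩, ⟨128, 2, []⟩], [3, 3, 3], 1, [(144, 1)]⟩,
⟨2, [⟨16, 2, []⟩, ⟨192, 2, []⟩], [3, 3, 3], 1, [(80, 1), (144, 1)]⟩,
⟨2, [⟨8, 2, []⟩, ⟨64, 2, []⟩], [3, 3, 3], 1, [(72, 1)]⟩,
⟨1, [⟨16, 2, []⟩, ⟨64, 2, []⟩], [3, 3, 3], 1, [(80, 1)]⟩,
⟨2, [⟨40, 2, []⟩, ⟨16, 2, []⟩], [3, 3, 3], 1, [(24, 1), (48, 1)]⟩,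
⟨1, [⟨68, 4, []⟩, ⟨16, 3, []⟩, ⟨32, 3, []⟩], [7, 6], 1, [(52, 1), (112, 1)]⟩,
⟨0, [⟨24, 4, []⟩, ⟨1, 2, []⟩], [3, 2, 2], 1, [(9, 1), (17, 1)]⟩,
⟨2, [⟨34, 2, []⟩, ⟨64, 2, []⟩], [3, 3, 3], 1, [(66, 1), (96, 1)]⟩,
⟨1, [⟨18, 2, []⟩, ⟨64, 2, []⟩], [3, 3, 3], 1, [(66, 1), (80, 1)]⟩,
⟨2, [⟨80, 3, []⟩, ⟨32, 3, []⟩, ⟨128, 4, []⟩], [7, 3], 1, [(176, 1), (224, 1)]⟩,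
⟨1, [⟨2, 3, []⟩, ⟨4, 3, []⟩, ⟨64, 4, []⟩], [7, 3], 1, [(70, 1)]⟩,
⟨1, [⟨68, 3, []⟩, ⟨2, 3, []⟩, ⟨128, 4, []⟩], [7, 3], 1, [(134, 1), (194, 1)]⟩,
⟨2, [⟨5, 3, []⟩, ⟨2, 3, []⟩, ⟨128, 4, []⟩], [7, 3], 1, [(131, 1), (134, 1)]⟩,
⟨1, [⟨9, 2, []⟩, ⟨64, 2, []⟩], [3, 3, 3], 1, [(65, 1), (72, 1)]⟩,
⟨1, [⟨0, 0, [(48, 2)]⟩, ⟨128, 2, []⟩], [3, 3, 3], 1, [(176, 1)]⟩,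
⟨2, [⟨1, 2, []⟩, ⟨4, 2, []⟩, ⟨16, 2, []⟩, ⟨32, 4, []⟩, ⟨128, 5, []⟩], [3, 3, 3, 12, 4, 4], 2, [(133, 1), (176, 1), (181, 2)]⟩,
⟨1, [⟨0, 0, [(6, 2)]⟩, ⟨128, 2, []⟩], [3, 3, 3], 1, [(134, 1)]⟩,
⟨0, [⟨1, 2, []⟩, ⟨6, 2, []⟩, ⟨8, 2, []⟩, ⟨16, 2, []⟩], [3, 3, 3, 12, 12, 12], 2, [(3, 1), (5, 1), (24, 1), (27, 2), (29, 2)]⟩,
⟨1, [⟨12, 3, []⟩, ⟨32, 3, []⟩, ⟨64, 4, []⟩], [7, 3], 1, [(100, 1), (104, 1)]⟩,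
⟨0, [⟨17, 4, []⟩, ⟨8, 2, []⟩], [3, 2, 2], 1, [(9, 1), (24, 1)]⟩,
⟨1, [⟨32, 3, []⟩, ⟨16, 4, []⟩, ⟨64, 3, []⟩], [7, 5], 1, [(112, 1)]⟩,
⟨2, [⟨24, 2, []⟩, ⟨64, 2, []⟩], [3, 3, 3], 1, [(72, 1), (80, 1)]⟩,
⟨2, [⟨66, 2, []⟩, ⟨128, 2, []⟩], [3, 3, 3], 1, [(130, 1), (192, 1)]⟩,
⟨1, [⟨4, 2, []⟩, ⟨32, 2, []⟩], [3, 3, 3], 1, [(36, 1)]⟩,
⟨2, [⟨9, 2, []⟩, ⟨128, 2, []⟩], [3, 3, 3], 1, [(129, 1), (136, 1)]⟩,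
⟨2, [⟨16, 3, []⟩, ⟨32, 3, []⟩, ⟨128, 4, []⟩], [7, 3], 1, [(176, 1)]⟩,
⟨2, [⟨34, 3, []⟩, ⟨24, 3, []⟩, ⟨128, 4, []⟩], [7, 3], 1, [(138, 1), (146, 1), (168, 1), (176, 1)]⟩,
⟨0, [⟨18, 3, []⟩, ⟨8, 3, []⟩], [3, 3], 1, [(10, 1), (24, 1)]⟩,
⟨2, [⟨4, 2, []⟩, ⟨16, 2, []⟩], [3, 3, 3], 1, [(20, 1)]⟩,
⟨2, [⟨80, 2, []⟩, ⟨128, 2, []⟩], [3, 3, 3], 1, [(144, 1), (192, 1)]⟩,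
⟨2, [⟨0, 0, [(24, 2)]⟩, ⟨128, 2, []⟩], [3, 3, 3], 1, [(152, 1)]⟩,
⟨1, [⟨12, 2, []⟩, ⟨64, 2, []⟩], [3, 3, 3], 1, [(68, 1), (72, 1)]⟩,
⟨2, [⟨18, 2, []⟩, ⟨32, 2, []⟩], [3, 3, 3], 1, [(34, 1), (48, 1)]⟩,
⟨2, [⟨33, 3, []⟩, ⟨4, 3, []⟩, ⟨128, 4, []⟩], [7, 3], 1, [(133, 1), (164, 1)]⟩,
⟨1, [⟨66, 3, []⟩, ⟨4, 3, []⟩, ⟨128, 4, []⟩], [7, 3], 1, [(134, 1), (196, 1)]⟩,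
⟨1, [⟨96, 3, []⟩, ⟨16, 3, []⟩, ⟨128, 4, []⟩], [7, 3], 1, [(176, 1), (208, 1)]⟩,
⟨2, [⟨18, 3, []⟩, ⟨32, 3, []⟩, ⟨128, 4, []⟩], [7, 3], 1, [(162, 1), (176, 1)]⟩,
⟨1, [⟨4, 3, []⟩, ⟨16, 3, []⟩, ⟨64, 4, []⟩], [7, 3], 1, [(84, 1)]⟩,
⟨1, [⟨34, 3, []⟩, ⟨4, 3, []⟩, ⟨64, 4, []⟩], [7, 3], 1, [(70, 1), (100, 1)]⟩,
⟨0, [⟨2, 2, []⟩, ⟨4, 2, []⟩, ⟨8, 2, []⟩, ⟨16, 2, []⟩], [3, 3, 3, 12, 12, 12], 2, [(6, 1), (24, 1), (30, 2)]⟩,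
⟨2, [⟨72, 3, []⟩, ⟨32, 3, []⟩, ⟨128, 4, []⟩], [7, 3], 1, [(168, 1), (224, 1)]⟩,
⟨2, [⟨36, 3, []⟩, ⟨80, 3, []⟩, ⟨128, 4, []⟩], [7, 3], 1, [(148, 1), (176, 1), (196, 1), (224, 1)]⟩,
⟨1, [⟨18, 3, []⟩, ⟨64, 3, []⟩, ⟨128, 4, []⟩], [7, 3], 1, [(194, 1), (208, 1)]⟩,
⟨2, [⟨8, 2, []⟩, ⟨32, 2, []⟩], [3, 3, 3], 1, [(40, 1)]⟩,
⟨0, [⟨1, 3, []⟩, ⟨2, 3, []⟩], [3, 3], 1, [(3, 1)]⟩,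
⟨1, [⟨1, 2, []⟩, ⟨64, 2, []⟩], [3, 3, 3], 1, [(65, 1)]⟩,
⟨1, [⟨16, 3, []⟩, ⟨32, 3, []⟩, ⟨64, 4, []⟩], [7, 3], 1, [(112, 1)]⟩,
⟨1, [⟨96, 4, []⟩, ⟨2, 3, []⟩, ⟨4, 3, []⟩], [7, 6], 1, [(38, 1), (70, 1)]⟩,
⟨1, [⟨17, 3, []⟩, ⟨32, 3, []⟩, ⟨64, 4, []⟩], [7, 3], 1, [(97, 1), (112, 1)]⟩,
⟨1, [⟨2, 3, []⟩, ⟨64, 3, []⟩, ⟨128, 4, []⟩], [7, 3], 1, [(194, 1)]⟩,
⟨1, [⟨0, 0, [(6, 2)]⟩, ⟨64, 2, []⟩], [3, 3, 3], 1, [(70, 1)]⟩,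
⟨1, [⟨66, 3, []⟩, ⟨32, 3, []⟩, ⟨128, 4, []⟩], [7, 3], 1, [(162, 1), (224, 1)]⟩,
⟨2, [⟨32, 2, []⟩, ⟨192, 2, []⟩], [3, 3, 3], 1, [(96, 1), (160, 1)]⟩,
⟨1, [⟨16, 2, []⟩, ⟨32, 2, []⟩, ⟨2, 2, []⟩, ⟨4, 4, []⟩, ⟨64, 5, []⟩], [3, 3, 3, 12, 4, 4], 2, [(70, 1), (112, 1), (118, 2)]⟩,
⟨1, [⟨36, 3, []⟩, ⟨64, 3, []⟩, ⟨128, 4, []⟩], [7, 3], 1, [(196, 1), (224, 1)]⟩,
⟨2, [⟨17, 2, []⟩, ⟨128, 2, []⟩], [3, 3, 3], 1, [(129, 1), (144, 1)]⟩,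
⟨2, [⟨6, 2, []⟩, ⟨128, 2, []⟩], [3, 3, 3], 1, [(130, 1), (132, 1)]⟩,
⟨1, [⟨0, 0, [(72, 2)]⟩, ⟨32, 2, []⟩], [3, 3, 3], 1, [(104, 1)]⟩,
⟨1, [⟨48, 3, []⟩, ⟨64, 3, []⟩, ⟨128, 4, []⟩], [7, 3], 1, [(208, 1), (224, 1)]⟩,
⟨1, [⟨34, 3, []⟩, ⟨64, 3, []⟩, ⟨128, 4, []⟩], [7, 3], 1, [(194, 1), (224, 1)]⟩,
⟨1, [⟨18, 3, []⟩, ⟨32, 4, []⟩, ⟨64, 3, []⟩], [7, 5], 1, [(98, 1), (112, 1)]⟩,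
⟨1, [⟨2, 3, []⟩, ⟨64, 4, []⟩, ⟨128, 3, []⟩], [7, 5], 1, [(194, 1)]⟩,
⟨2, [⟨18, 2, []⟩, ⟨4, 2, []⟩], [3, 3, 3], 1, [(6, 1), (20, 1)]⟩,
⟨0, [⟨5, 4, []⟩, ⟨8, 2, []⟩], [3, 2, 2], 1, [(9, 1), (12, 1)]⟩,
⟨0, [⟨66, 3, []⟩, ⟨1, 3, []⟩], [3, 3], 1, [(3, 1), (65, 1)]⟩,
⟨1, [⟨0, 0, [(80, 2)]⟩, ⟨128, 2, []⟩], [3, 3, 3], 1, [(208, 1)]⟩,
⟨1, [⟨2, 2, []⟩, ⟨4, 2, []⟩, ⟨0, 0, [(24, 2)]⟩, ⟨32, 4, []⟩, ⟨64, 5, []⟩], [3, 3, 3, 12, 4, 4], 2, [(70, 1), (120, 1), (126, 2)]⟩,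
⟨1, [⟨10, 2, []⟩, ⟨64, 2, []⟩], [3, 3, 3], 1, [(66, 1), (72, 1)]⟩,
⟨2, [⟨48, 2, []⟩, ⟨8, 2, []⟩], [3, 3, 3], 1, [(24, 1), (40, 1)]⟩,
⟨1, [⟨0, 0, [(65, 2)]⟩, ⟨4, 2, []⟩], [3, 3, 3], 1, [(69, 1)]⟩,
⟨2, [⟨33, 3, []⟩, ⟨20, 3, []⟩, ⟨128, 4, []⟩], [7, 3], 1, [(133, 1), (145, 1), (164, 1), (176, 1)]⟩,
⟨2, [⟨65, 2, []⟩, ⟨128, 2, []⟩], [3, 3, 3], 1, [(129, 1), (192, 1)]⟩,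
⟨2, [⟨72, 2, []⟩, ⟨128, 2, []⟩], [3, 3, 3], 1, [(136, 1), (192, 1)]⟩,
⟨2, [⟨130, 2, []⟩, ⟨64, 2, []⟩], [3, 3, 3], 1, [(66, 1), (192, 1)]⟩,
⟨1, [⟨0, 0, [(3, 2)]⟩, ⟨4, 2, []⟩], [3, 3, 3], 1, [(7, 1)]⟩,
⟨2, [⟨0, 0, [(3, 2)]⟩, ⟨128, 2, []⟩], [3, 3, 3], 1, [(131, 1)]⟩,
⟨1, [⟨0, 0, [(40, 2)]⟩, ⟨128, 2, []⟩], [3, 3, 3], 1, [(168, 1)]⟩,
⟨1, [⟨4, 3, []⟩, ⟨2, 4, []⟩, ⟨64, 3, []⟩], [7, 5], 1, [(70, 1)]⟩,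
⟨2, [⟨24, 2, []⟩, ⟨128, 2, []⟩], [3, 3, 3], 1, [(136, 1), (144, 1)]⟩,
⟨2, [⟨8, 2, []⟩, ⟨16, 2, []⟩], [3, 3, 3], 1, [(24, 1)]⟩,
⟨1, [⟨40, 3, []⟩, ⟨64, 3, []⟩, ⟨128, 4, []⟩], [7, 3], 1, [(200, 1), (224, 1)]⟩,
⟨2, [⟨64, 2, []⟩, ⟨128, 2, []⟩], [3, 3, 3], 1, [(192, 1)]⟩,
⟨0, [⟨1, 2, []⟩, ⟨2, 2, []⟩, ⟨8, 2, []⟩, ⟨16, 2, []⟩], [3, 3, 3, 12, 12, 12], 2, [(3, 1), (24, 1), (27, 2)]⟩,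
⟨0, [⟨9, 4, []⟩, ⟨16, 2, []⟩], [3, 2, 2], 1, [(17, 1), (24, 1)]⟩,
⟨2, [⟨12, 2, []⟩, ⟨128, 2, []⟩], [3, 3, 3], 1, [(132, 1), (136, 1)]⟩,
⟨2, [⟨0, 0, [(5, 2)]⟩, ⟨128, 2, []⟩], [3, 3, 3], 1, [(133, 1)]⟩,
⟨2, [⟨48, 2, []⟩, ⟨64, 2, []⟩], [3, 3, 3], 1, [(80, 1), (96, 1)]⟩,
⟨1, [⟨0, 0, [(96, 2)]⟩, ⟨16, 2, []⟩], [3, 3, 3], 1, [(112, 1)]⟩,
⟨2, [⟨2, 2, []⟩, ⟨64, 2, []⟩], [3, 3, 3], 1, [(66, 1)]⟩,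
⟨1, [⟨6, 3, []⟩, ⟨32, 4, []⟩, ⟨64, 3, []⟩], [7, 5], 1, [(98, 1), (100, 1)]⟩,
⟨1, [⟨8, 2, []⟩, ⟨128, 2, []⟩], [3, 3, 3], 1, [(136, 1)]⟩,
⟨1, [⟨0, 0, [(80, 2)]⟩, ⟨32, 2, []⟩], [3, 3, 3], 1, [(112, 1)]⟩,
⟨1, [⟨4, 2, []⟩, ⟨64, 2, []⟩], [3, 3, 3], 1, [(68, 1)]⟩,
⟨2, [⟨34, 2, []⟩, ⟨128, 2, []⟩], [3, 3, 3], 1, [(130, 1), (160, 1)]⟩,
⟨1, [⟨9, 3, []⟩, ⟨32, 3, []⟩, ⟨64, 4, []⟩], [7, 3], 1, [(97, 1), (104, 1)]⟩,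
⟨2, [⟨20, 2, []⟩, ⟨32, 2, []⟩], [3, 3, 3], 1, [(36, 1), (48, 1)]⟩,
⟨2, [⟨40, 2, []⟩, ⟨128, 2, []⟩], [3, 3, 3], 1, [(136, 1), (160, 1)]⟩,
⟨1, [⟨48, 2, []⟩, ⟨64, 2, []⟩], [3, 3, 3], 1, [(80, 1), (96, 1)]⟩,
⟨2, [⟨6, 2, []⟩, ⟨64, 2, []⟩], [3, 3, 3], 1, [(66, 1), (68, 1)]⟩,
⟨2, [⟨9, 3, []⟩, ⟨20, 3, []⟩, ⟨128, 4, []⟩], [7, 3], 1, [(133, 1), (140, 1), (145, 1), (152, 1)]⟩,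
⟨2, [⟨33, 3, []⟩, ⟨6, 3, []⟩, ⟨128, 4, []⟩], [7, 3], 1, [(131, 1), (133, 1), (162, 1), (164, 1)]⟩,
⟨1, [⟨16, 3, []⟩, ⟨32, 3, []⟩, ⟨128, 4, []⟩], [7, 3], 1, [(176, 1)]⟩,
⟨0, [⟨40, 4, []⟩, ⟨16, 2, []⟩], [3, 2, 2], 1, [(24, 1), (48, 1)]⟩,
⟨1, [⟨34, 3, []⟩, ⟨4, 4, []⟩, ⟨64, 3, []⟩], [7, 5], 1, [(70, 1), (100, 1)]⟩,
⟨1, [⟨24, 4, []⟩, ⟨0, 0, [(33, 2)]⟩, ⟨2, 2, []⟩, ⟨4, 2, []⟩, ⟨64, 5, []⟩], [3, 2, 2, 12, 12, 12], 2, [(70, 1), (105, 1), (111, 2), (113, 1), (119, 2)]⟩,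
⟨0, [⟨40, 4, []⟩, ⟨1, 2, []⟩], [3, 2, 2], 1, [(9, 1), (33, 1)]⟩,
⟨2, [⟨34, 3, []⟩, ⟨4, 3, []⟩, ⟨128, 4, []⟩], [7, 3], 1, [(134, 1), (164, 1)]⟩,
⟨2, [⟨0, 0, [(40, 2)]⟩, ⟨128, 2, []⟩], [3, 3, 3], 1, [(168, 1)]⟩,
⟨1, [⟨40, 3, []⟩, ⟨16, 3, []⟩, ⟨64, 4, []⟩], [7, 3], 1, [(88, 1), (112, 1)]⟩,
⟨2, [⟨36, 3, []⟩, ⟨24, 3, []⟩, ⟨128, 4, []⟩], [7, 3], 1, [(140, 1), (148, 1), (168, 1), (176, 1)]⟩,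
⟨1, [⟨16, 3, []⟩, ⟨66, 4, []⟩, ⟨4, 3, []⟩], [7, 5], 1, [(22, 1), (84, 1)]⟩,
⟨1, [⟨3, 3, []⟩, ⟨4, 4, []⟩, ⟨64, 3, []⟩], [7, 5], 1, [(69, 1), (70, 1)]⟩,
⟨1, [⟨24, 3, []⟩, ⟨32, 3, []⟩, ⟨64, 4, []⟩], [7, 3], 1, [(104, 1), (112, 1)]⟩,
⟨1, [⟨12, 4, []⟩, ⟨32, 3, []⟩, ⟨64, 3, []⟩], [7, 6], 1, [(100, 1), (104, 1)]⟩]

theorem base_ok : base.all (fun q => q.ok 8 3 [7, 56] [10, 2000, 2000, 2000] big4 [(0, 1, 0, 0), (0, 2, 0, 1), (0, 4, 0, 3), (0, 5, 0, 4), (0, 3, 0, 0), (2, 6, 1, 6)]) = true := by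
  decide +kernel

theorem gv_ok : gv.all (fun c => c.ok 2 9) = true := by decide +kernel

theorem gads_ok : gads.all (fun g => g.okV 8 3 [2, 0, 0]) = true := by decide +kernel

theorem cmp_ok : cmpR names cnf (clsu 3 base ++ (gv.map Gv.cl ++ gads.map Gt.cl)) = true := by
  decide +kernel

end DG26

theorem instl_26 : instLS 2 3 [2, 0, 0] 10 9 [(0, 1, 0, 0), (0, 2, 0, 1), (0, 4, 0, 3), (0, 5, 0, 4), (0, 3, 0, 0), (2, 6, 1, 6)] DG26.base DG26.gv DG26.gads DG26.names DG26.cnf DG26.db DG26.prf = true :=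
  instLS_of DG26.base_ok DG26.gv_ok DG26.gads_ok (by decide +kernel) DG26.okc DG26.cmp_ok DG26.chk_ok

/-- there is no configuration of this instance. -/
theorem nol_26 {V : Type v} [DecidableEq V] {ι : Type u} [Fintype ι] {B : ι → Finset V}
    {Q : Finset V} {x : ℕ → V} {C : ℕ → Finset V}
    (h : CfL B Q 2 3 x C [2, 0, 0] [] 10 9) : False :=
  h.absurd_srt rfl instl_26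

end Pool.Agent.Hyp6
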